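import Mathlib
import Pool.Agent.TOKST.Defs
import Pool.Agent.TOKSP.SmallSurplus

/-!
# LINE N: core definitions

Everything is a statement about sets `S : Finset V` in a fixed graph `G : SimpleGraph V`.
Parities are `Bool` (`true` = odd), added with `^^`.
-/

set_option autoImplicit false
set_option linter.unusedSectionVars false

namespace Pool.Agent.TOKSN

open Pool.Agent.TOKST (HasTOKS)
open Pool.Agent.TOKSP (nbh mem_nbh four_le_nbh)

variable {V : Type} [DecidableEq V]

/-- `PX G T a b k`: there is a path from `a` to `b` with vertex set exactly `T` and parity `k` -/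
def PX (G : SimpleGraph V) (T : Finset V) (a b : V) (k : Bool) : Prop :=
  ∃ p : G.Walk a b, p.IsPath ∧ p.support.toFinset = T ∧ (Odd p.length ↔ k = true)

/-- `PI G S a b k`: there is a path from `a` to `b` inside `S` with parity `k` -/
def PI (G : SimpleGraph V) (S : Finset V) (a b : V) (k : Bool) : Prop :=
  ∃ T, T ⊆ S ∧ PX G T a b k

/-- `a` and `b` are joined inside `S` -/
def JN (G : SimpleGraph V) (S : Finset V) (a b : V) : Prop := ∃ k, PI G S a b k

/-- `G[S]` is connected (and `S` is not empty) -/
def Conn (G : SimpleGraph V) (S : Finset V) : Prop :=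
  S.Nonempty ∧ ∀ a ∈ S, ∀ b ∈ S, JN G S a b

/-- `G[S]` is bipartite -/
def Bip (G : SimpleGraph V) (S : Finset V) : Prop :=
  ∃ c : V → Bool, ∀ x ∈ S, ∀ y ∈ S, G.Adj x y → c x ≠ c y

/-- `G[S]` is 2-connected and not bipartite -/
structure Hub (G : SimpleGraph V) (S : Finset V) : Prop where
  card : 3 ≤ S.card
  nbip : ¬ Bip G S
  conn : Conn G S
  del : ∀ x, Conn G (S.erase x)

/-- `C` is the vertex set of an odd cycle -/
def OddCyc (G : SimpleGraph V) (C : Finset V) : Prop :=
  ∃ (u : V) (p : G.Walk u u), p.IsCycle ∧ p.support.toFinset = C ∧ Odd p.length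

/-- the component of `x` in `G[S]` (`∅` if `x ∉ S`) -/
noncomputable def cmp (G : SimpleGraph V) (S : Finset V) (x : V) : Finset V := by
  classical exact S.filter (fun y => JN G S x y)

/-- `k` disjoint `A`-`B`-paths inside `U`, as sets `T i` with ends `a i`, `b i` and parity `r i`;
only the ends are in `A`, `B` -/
def DP (G : SimpleGraph V) (U A B : Finset V) (k : ℕ) : Prop :=
  ∃ (a b : Fin k → V) (T : Fin k → Finset V) (r : Fin k → Bool),
    (∀ i, PX G (T i) (a i) (b i) (r i)) ∧ (∀ i, T i ⊆ U) ∧ (∀ i j, i ≠ j → Disjoint (T i) (T j)) ∧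
    (∀ i, T i ∩ A = {a i}) ∧ (∀ i, T i ∩ B = {b i})

section Fin

variable [Fintype V]

/-- the vertices of `X` with a neighbour outside `X` -/
noncomputable def bd (G : SimpleGraph V) (X : Finset V) : Finset V := by
  classical exact X.filter (fun x => ∃ y, y ∉ X ∧ G.Adj x y)

/-- `D` and its complement are hubs -/
def Mem (G : SimpleGraph V) (D : Finset V) : Prop := Hub G D ∧ Hub G Dᶜ

/-- the degree of a vertex -/
noncomputable def deg (G : SimpleGraph V) (v : V) : ℕ := by
  classical exact (Finset.univ.filter (fun w => G.Adj v w)).card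

/-- the potential of a side -/
noncomputable def chi (G : SimpleGraph V) (D : Finset V) : ℤ :=
  (∑ v ∈ D, (4 - (deg G v : ℤ))) + (nbh G D).card - (bd G D).card

/-- 4-connected, in the form of neighbourhoods -/
def FC (G : SimpleGraph V) : Prop :=
  ∀ X : Finset V, X.Nonempty → (∃ w, w ∉ X ∧ w ∉ nbh G X) → 4 ≤ (nbh G X).card

end Fin

end Pool.Agent.TOKSN
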