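import Mathlib
import Pool.Agent.TOKSN.Defs

/-!
# LINE N: path calculus
-/

set_option autoImplicit false
set_option linter.unusedSectionVars false

namespace Pool.Agent.TOKSN

open Pool.Agent.TOKST (HasTOKS)
open Pool.Agent.TOKSP (nbh mem_nbh four_le_nbh)

variable {V : Type} [DecidableEq V] {G : SimpleGraph V} {S T T₁ T₂ U A B D : Finset V}
  {a b c d x y z : V} {k l : Bool}

/-! ## PX -/

theorem PX.left_mem (h : PX G T a b k) : a ∈ T := by
  obtain ⟨p, hp, rfl, hk⟩ := h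
  simp

theorem PX.right_mem (h : PX G T a b k) : b ∈ T := by
  obtain ⟨p, hp, rfl, hk⟩ := h
  simp

theorem PX.symm (h : PX G T a b k) : PX G T b a k := by
  obtain ⟨p, hp, rfl, hk⟩ := h
  exact ⟨p.reverse, hp.reverse, by simp, by simpa using hk⟩

theorem PX.refl (G : SimpleGraph V) (a : V) : PX G {a} a a false :=
  ⟨.nil, .nil, by simp, by simp⟩

theorem PX.edge (h : G.Adj a b) : PX G {a, b} a b true :=
  ⟨.cons h .nil, by simp [h.ne], by simp, by simp⟩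

theorem PX.eq_of_eq (h : PX G T a a k) : T = {a} ∧ k = false := by
  obtain ⟨p, hp, rfl, hk⟩ := h
  have hp' : p = .nil := by
    cases p with
    | nil => rfl
    | cons e p =>
      rw [SimpleGraph.Walk.cons_isPath_iff] at hp
      exact absurd p.end_mem_support hp.2
  subst hp'
  refine ⟨by simp, ?_⟩
  cases k
  · rfl
  · simp at hk

theorem PX.ne (h : PX G T a b true) : a ≠ b := by
  rintro rfl
  exact absurd h.eq_of_eq.2 (by simp)

/-- adding an edge in front -/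
theorem PX.cons (e : G.Adj a b) (h : PX G T b c k) (ha : a ∉ T) : PX G (insert a T) a c (!k) := by
  obtain ⟨p, hp, rfl, hk⟩ := h
  refine ⟨.cons e p, ?_, ?_, ?_⟩
  · rw [SimpleGraph.Walk.cons_isPath_iff]
    exact ⟨hp, by simpa using ha⟩
  · simp
  · rw [SimpleGraph.Walk.length_cons, Nat.odd_add_one, hk]
    simp

/-- induction along a path -/
theorem PX.ind {P : Finset V → V → V → Bool → Prop} (h0 : ∀ a, P {a} a a false)
    (h1 : ∀ (T : Finset V) (a b c : V) (k : Bool), G.Adj a b → PX G T b c k → a ∉ T → P T b c k →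
      P (insert a T) a c (!k)) (h : PX G T a b k) : P T a b k := by
  obtain ⟨p, hp, rfl, hk⟩ := h
  induction p generalizing k with
  | nil =>
    have : k = false := by
      cases k
      · rfl
      · simp at hk
    subst this
    simpa using h0 _
  | cons e p ih =>
    rw [SimpleGraph.Walk.cons_isPath_iff] at hp
    have hk' : Odd p.length ↔ (!k) = true := by
      rw [SimpleGraph.Walk.length_cons, Nat.odd_add_one] at hk
      cases k <;> simp_all
    have h2 := ih hp.1 hk'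
    have h3 := h1 _ _ _ _ _ e ⟨p, hp.1, rfl, hk'⟩ (by simpa using hp.2) h2
    simpa using h3

/-- concatenation -/
theorem PX.concat (h₁ : PX G T₁ a b k) (h₂ : PX G T₂ b c l) (hd : ∀ v ∈ T₁, v ∈ T₂ → v = b) :
    PX G (T₁ ∪ T₂) a c (k ^^ l) := by
  revert hd
  refine PX.ind (P := fun T₁ a b k => PX G T₂ b c l → (∀ v ∈ T₁, v ∈ T₂ → v = b) →
    PX G (T₁ ∪ T₂) a c (k ^^ l)) ?_ ?_ h₁ h₂
  · intro a h _
    have : ({a} : Finset V) ∪ T₂ = T₂ := by
      rw [← Finset.insert_eq]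
      exact Finset.insert_eq_of_mem h.left_mem
    rw [this]
    simpa using h
  · intro T a b' b k e hT haT ih h hd
    have h3 := ih h (fun v hv hv' => hd v (Finset.mem_insert_of_mem hv) hv')
    have h4 : a ∉ T ∪ T₂ := by
      rw [Finset.mem_union, not_or]
      refine ⟨haT, fun h' => ?_⟩
      have := hd a (Finset.mem_insert_self _ _) h'
      subst this
      exact haT hT.right_mem
    have h5 := h3.cons e h4
    rw [← Finset.insert_union] at h5
    simpa using h5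

/-- concatenation through an edge -/
theorem PX.concat_disj (h₁ : PX G T₁ a b k) (e : G.Adj b c) (h₂ : PX G T₂ c d l) (hd : Disjoint T₁ T₂) :
    PX G (T₁ ∪ T₂) a d (!(k ^^ l)) := by
  have h3 := h₂.cons e (Finset.disjoint_left.1 hd h₁.right_mem)
  have h4 := h₁.concat h3 (fun v hv hv' => by
    rcases Finset.mem_insert.1 hv' with h | h
    · exact h
    · exact absurd h (Finset.disjoint_left.1 hd hv))
  have h5 : T₁ ∪ insert b T₂ = T₁ ∪ T₂ := by
    rw [Finset.union_insert, Finset.insert_eq_of_mem]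
    exact Finset.mem_union_left _ h₁.right_mem
  rw [h5] at h4
  cases k <;> cases l <;> simpa using h4

/-- cut a path at a vertex -/
theorem PX.cut (h : PX G T a b k) (hx : x ∈ T) : ∃ T₁ T₂ k₁ k₂, PX G T₁ a x k₁ ∧ PX G T₂ x b k₂ ∧
    T₁ ∪ T₂ = T ∧ T₁ ∩ T₂ = {x} ∧ (k₁ ^^ k₂) = k := by
  revert hx
  refine PX.ind (P := fun T a b k => x ∈ T → ∃ T₁ T₂ k₁ k₂, PX G T₁ a x k₁ ∧ PX G T₂ x b k₂ ∧
    T₁ ∪ T₂ = T ∧ T₁ ∩ T₂ = {x} ∧ (k₁ ^^ k₂) = k) ?_ ?_ h
  · intro a hx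
    rw [Finset.mem_singleton] at hx
    subst hx
    exact ⟨_, _, _, _, PX.refl G x, PX.refl G x, by simp, by simp, by simp⟩
  · intro T a b c k e hT haT ih hx
    by_cases hxa : x = a
    · subst hxa
      refine ⟨_, _, _, _, PX.refl G x, hT.cons e haT, by simp, Finset.inter_eq_left.2 (by simp), by simp⟩
    · obtain ⟨T₁, T₂, k₁, k₂, h1, h2, h3, h4, h5⟩ := ih (Finset.mem_of_mem_insert_of_ne hx hxa)
      have ha1 : a ∉ T₁ := fun h => haT (by rw [← h3]; exact Finset.mem_union_left _ h)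
      have ha2 : a ∉ T₂ := fun h => haT (by rw [← h3]; exact Finset.mem_union_right _ h)
      refine ⟨_, _, _, _, h1.cons e ha1, h2, ?_, ?_, ?_⟩
      · rw [Finset.insert_union, h3]
      · rw [Finset.insert_inter_of_notMem ha2, h4]
      · rw [← h5]
        simp

/-- the first vertex of a path in `B` -/
theorem PX.first (h : PX G T a b k) (hB : ∃ z ∈ T, z ∈ B) : ∃ x T₁ T₂ k₁ k₂, PX G T₁ a x k₁ ∧
    PX G T₂ x b k₂ ∧ T₁ ∪ T₂ = T ∧ T₁ ∩ T₂ = {x} ∧ (k₁ ^^ k₂) = k ∧ x ∈ B ∧ (∀ z ∈ T₁, z ∈ B → z = x) := by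
  revert hB
  refine PX.ind (P := fun T a b k => (∃ z ∈ T, z ∈ B) → ∃ x T₁ T₂ k₁ k₂, PX G T₁ a x k₁ ∧
    PX G T₂ x b k₂ ∧ T₁ ∪ T₂ = T ∧ T₁ ∩ T₂ = {x} ∧ (k₁ ^^ k₂) = k ∧ x ∈ B ∧
    (∀ z ∈ T₁, z ∈ B → z = x)) ?_ ?_ h
  · rintro a ⟨z, hz, hzB⟩
    rw [Finset.mem_singleton] at hz
    subst hz
    exact ⟨_, _, _, _, _, PX.refl G z, PX.refl G z, by simp, by simp, by simp, hzB, by simp⟩
  · rintro T a b c k e hT haT ih ⟨z, hz, hzB⟩
    by_cases haB : a ∈ B
    · refine ⟨_, _, _, _, _, PX.refl G a, hT.cons e haT, by simp, Finset.inter_eq_left.2 (by simp),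
        by simp, haB, by simp⟩
    · have hza : z ≠ a := by
        rintro rfl
        exact haB hzB
      obtain ⟨x, T₁, T₂, k₁, k₂, h1, h2, h3, h4, h5, h6, h7⟩ :=
        ih ⟨z, Finset.mem_of_mem_insert_of_ne hz hza, hzB⟩
      have ha1 : a ∉ T₁ := fun h => haT (by rw [← h3]; exact Finset.mem_union_left _ h)
      have ha2 : a ∉ T₂ := fun h => haT (by rw [← h3]; exact Finset.mem_union_right _ h)
      refine ⟨x, _, _, _, _, h1.cons e ha1, h2, ?_, ?_, ?_, h6, ?_⟩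
      · rw [Finset.insert_union, h3]
      · rw [Finset.insert_inter_of_notMem ha2, h4]
      · rw [← h5]
        simp
      · intro w hw hwB
        rcases Finset.mem_insert.1 hw with rfl | hw
        · exact absurd hwB haB
        · exact h7 w hw hwB

/-- the last vertex of a path in `A` -/
theorem PX.last (h : PX G T a b k) (hA : ∃ z ∈ T, z ∈ A) : ∃ x T₁ T₂ k₁ k₂, PX G T₁ a x k₁ ∧
    PX G T₂ x b k₂ ∧ T₁ ∪ T₂ = T ∧ T₁ ∩ T₂ = {x} ∧ (k₁ ^^ k₂) = k ∧ x ∈ A ∧ (∀ z ∈ T₂, z ∈ A → z = x) := by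
  obtain ⟨x, T₁, T₂, k₁, k₂, h1, h2, h3, h4, h5, h6, h7⟩ := h.symm.first hA
  exact ⟨x, T₂, T₁, k₂, k₁, h2.symm, h1.symm, by rw [Finset.union_comm, h3],
    by rw [Finset.inter_comm, h4], by rw [← h5, Bool.xor_comm], h6, h7⟩

theorem PX.mono_graph {H : SimpleGraph V} (hGH : G ≤ H) (h : PX G T a b k) : PX H T a b k := by
  obtain ⟨p, hp, rfl, hk⟩ := h
  exact ⟨p.mapLe hGH, hp.mapLe hGH, by simp, by simpa using hk⟩

/-! ## PI and JN -/

theorem PX.pi (h : PX G T a b k) (hS : T ⊆ S) : PI G S a b k := ⟨T, hS, h⟩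
theorem PX.jn (h : PX G T a b k) (hS : T ⊆ S) : JN G S a b := ⟨k, T, hS, h⟩

theorem PI.mono (h : PI G S a b k) (hS : S ⊆ T) : PI G T a b k := by
  obtain ⟨T', h1, h2⟩ := h
  exact ⟨T', h1.trans hS, h2⟩

theorem PI.symm (h : PI G S a b k) : PI G S b a k := by
  obtain ⟨T', h1, h2⟩ := h
  exact ⟨T', h1, h2.symm⟩

theorem PI.left_mem (h : PI G S a b k) : a ∈ S := by
  obtain ⟨T', h1, h2⟩ := h
  exact h1 h2.left_mem

theorem PI.right_mem (h : PI G S a b k) : b ∈ S := by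
  obtain ⟨T', h1, h2⟩ := h
  exact h1 h2.right_mem

theorem PI.concat (h₁ : PI G T₁ a b k) (h₂ : PI G T₂ b c l) (hd : ∀ v ∈ T₁, v ∈ T₂ → v = b) :
    PI G (T₁ ∪ T₂) a c (k ^^ l) := by
  obtain ⟨U₁, h1, h2⟩ := h₁
  obtain ⟨U₂, h3, h4⟩ := h₂
  exact ⟨_, Finset.union_subset_union h1 h3, h2.concat h4 (fun v hv hv' => hd v (h1 hv) (h3 hv'))⟩

theorem JN.refl (h : a ∈ S) : JN G S a a := ⟨false, {a}, by simpa using h, PX.refl G a⟩

theorem JN.symm (h : JN G S a b) : JN G S b a := by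
  obtain ⟨k, h⟩ := h
  exact ⟨k, h.symm⟩

theorem JN.mono (h : JN G S a b) (hS : S ⊆ T) : JN G T a b := by
  obtain ⟨k, h⟩ := h
  exact ⟨k, h.mono hS⟩

theorem JN.adj (h : G.Adj a b) (ha : a ∈ S) (hb : b ∈ S) : JN G S a b :=
  ⟨true, {a, b}, by
    intro x hx
    rcases Finset.mem_insert.1 hx with rfl | hx
    · exact ha
    · rw [Finset.mem_singleton] at hx
      subst hx
      exact hb, PX.edge h⟩

theorem JN.left_mem (h : JN G S a b) : a ∈ S := by
  obtain ⟨k, h⟩ := h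
  exact h.left_mem

theorem JN.right_mem (h : JN G S a b) : b ∈ S := by
  obtain ⟨k, h⟩ := h
  exact h.right_mem

theorem JN.trans (h₁ : JN G S a b) (h₂ : JN G S b c) : JN G S a c := by
  obtain ⟨k, T₁, hT₁, h₁⟩ := h₁
  obtain ⟨l, T₂, hT₂, h₂⟩ := h₂
  -- first vertex of the first path on the second path
  obtain ⟨x, U₁, U₂, k₁, k₂, h1, h2, h3, h4, h5, h6, h7⟩ := h₁.first (B := T₂) ⟨b, h₁.right_mem, h₂.left_mem⟩
  obtain ⟨W₁, W₂, l₁, l₂, g1, g2, g3, g4, g5⟩ := h₂.cut h6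
  have hW : W₂ ⊆ T₂ := by rw [← g3]; exact Finset.subset_union_right
  have hU : U₁ ⊆ T₁ := by rw [← h3]; exact Finset.subset_union_left
  refine ⟨k₁ ^^ l₂, U₁ ∪ W₂, Finset.union_subset (hU.trans hT₁) (hW.trans hT₂), h1.concat g2 ?_⟩
  intro v hv hv'
  exact h7 v hv (hW hv')

/-- closed sets: no edge of `G[S]` leaves `X` -/
theorem JN.closed (h : JN G S a b) (X : Finset V) (ha : a ∈ X)
    (hX : ∀ x ∈ X, ∀ y ∈ S, G.Adj x y → y ∈ X) : b ∈ X := by
  obtain ⟨k, T, hT, h⟩ := h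
  revert ha hT
  refine PX.ind (P := fun T a b k => a ∈ X → T ⊆ S → b ∈ X) ?_ ?_ h
  · intro a ha _
    exact ha
  · intro T a b c k e hT _ ih ha hS
    exact ih (hX a ha b (hS (Finset.mem_insert_of_mem hT.left_mem)) e)
      (fun v hv => hS (Finset.mem_insert_of_mem hv))

/-- a path that leaves `X` has an edge leaving `X` -/
theorem JN.exists_edge (h : JN G S a b) (X : Finset V) (ha : a ∈ X) (hb : b ∉ X) :
    ∃ x ∈ X, x ∈ S ∧ ∃ y ∈ S, y ∉ X ∧ G.Adj x y := by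
  by_contra hne
  push Not at hne
  refine hb (JN.closed h (X ∩ S) (Finset.mem_inter.2 ⟨ha, h.left_mem⟩) ?_ |> Finset.mem_inter.1 |>.1)
  intro x hx y hy e
  obtain ⟨h1, h2⟩ := Finset.mem_inter.1 hx
  by_contra h3
  exact hne x h1 h2 y hy (fun h4 => h3 (Finset.mem_inter.2 ⟨h4, hy⟩)) e

/-! ## connected sets -/

theorem PX.jn_left (h : PX G T a b k) (hx : x ∈ T) : JN G T a x := by
  obtain ⟨T₁, T₂, k₁, k₂, h1, h2, h3, h4, h5⟩ := h.cut hx
  exact ⟨k₁, T₁, by rw [← h3]; exact Finset.subset_union_left, h1⟩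

theorem Conn.of_center (ha : a ∈ S) (h : ∀ x ∈ S, JN G S a x) : Conn G S :=
  ⟨⟨a, ha⟩, fun x hx y hy => (h x hx).symm.trans (h y hy)⟩

theorem PX.conn (h : PX G T a b k) : Conn G T := Conn.of_center h.left_mem fun _ hx => h.jn_left hx

theorem Conn.singleton (G : SimpleGraph V) (a : V) : Conn G {a} := (PX.refl G a).conn

theorem Conn.pair (h : G.Adj a b) : Conn G {a, b} := (PX.edge h).conn

theorem Conn.jn (h : Conn G S) (hS : S ⊆ T) (ha : a ∈ S) (hb : b ∈ S) : JN G T a b :=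
  (h.2 a ha b hb).mono hS

theorem Conn.union (h₁ : Conn G S) (h₂ : Conn G T) (h : (S ∩ T).Nonempty) : Conn G (S ∪ T) := by
  obtain ⟨z, hz⟩ := h
  obtain ⟨hz1, hz2⟩ := Finset.mem_inter.1 hz
  refine Conn.of_center (Finset.mem_union_left _ hz1) ?_
  intro x hx
  rcases Finset.mem_union.1 hx with hx | hx
  · exact h₁.jn Finset.subset_union_left hz1 hx
  · exact h₂.jn Finset.subset_union_right hz2 hx

theorem Conn.union_adj (h₁ : Conn G S) (h₂ : Conn G T) (h : ∃ x ∈ S, ∃ y ∈ T, G.Adj x y) :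
    Conn G (S ∪ T) := by
  obtain ⟨x, hx, y, hy, e⟩ := h
  refine Conn.of_center (Finset.mem_union_left _ hx) ?_
  intro z hz
  rcases Finset.mem_union.1 hz with hz | hz
  · exact h₁.jn Finset.subset_union_left hx hz
  · exact (JN.adj e (Finset.mem_union_left _ hx) (Finset.mem_union_right _ hy)).trans
      (h₂.jn Finset.subset_union_right hy hz)

theorem Conn.insert (h₁ : Conn G S) (h : ∃ x ∈ S, G.Adj x y) : Conn G (insert y S) := by
  obtain ⟨x, hx, e⟩ := h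
  have := h₁.union_adj (Conn.singleton G y) ⟨x, hx, y, Finset.mem_singleton_self _, e⟩
  rwa [Finset.union_comm, ← Finset.insert_eq] at this

/-- a connected set that is split has an edge across -/
theorem Conn.exists_edge (h : Conn G S) (X : Finset V) (ha : a ∈ S) (haX : a ∈ X) (hb : b ∈ S)
    (hbX : b ∉ X) :
    ∃ x ∈ X, x ∈ S ∧ ∃ y ∈ S, y ∉ X ∧ G.Adj x y :=
  (h.2 a ha b hb).exists_edge X haX hbX

/-! ## components -/

theorem mem_cmp : y ∈ cmp G S x ↔ y ∈ S ∧ JN G S x y := by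
  classical
  unfold cmp
  simp

theorem cmp_sub : cmp G S x ⊆ S := fun _ h => (mem_cmp.1 h).1

theorem mem_cmp_self (h : x ∈ S) : x ∈ cmp G S x := mem_cmp.2 ⟨h, JN.refl h⟩

theorem cmp_closed (h : y ∈ cmp G S x) (hz : c ∈ S) (e : G.Adj y c) : c ∈ cmp G S x := by
  obtain ⟨h1, h2⟩ := mem_cmp.1 h
  exact mem_cmp.2 ⟨hz, h2.trans (JN.adj e h1 hz)⟩

theorem cmp_eq (h : y ∈ cmp G S x) : cmp G S y = cmp G S x := by
  obtain ⟨h1, h2⟩ := mem_cmp.1 h
  ext z
  rw [mem_cmp, mem_cmp]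
  exact ⟨fun h => ⟨h.1, h2.trans h.2⟩, fun h => ⟨h.1, h2.symm.trans h.2⟩⟩

theorem cmp_conn (h : x ∈ S) : Conn G (cmp G S x) := by
  refine Conn.of_center (mem_cmp_self h) ?_
  intro y hy
  obtain ⟨h1, k, T, hT, h2⟩ := mem_cmp.1 hy
  refine ⟨k, T, fun z hz => mem_cmp.2 ⟨hT hz, ?_⟩, h2⟩
  exact (h2.jn_left hz).mono hT

theorem Conn.sub_cmp (h : Conn G T) (hT : T ⊆ S) (hx : x ∈ T) : T ⊆ cmp G S x := fun y hy =>
  mem_cmp.2 ⟨hT hy, h.jn hT hx hy⟩

theorem cmp_disj (h : y ∉ cmp G S x) : Disjoint (cmp G S x) (cmp G S y) := by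
  rw [Finset.disjoint_left]
  intro z hz hz'
  obtain ⟨h1, h2⟩ := mem_cmp.1 hz
  obtain ⟨h3, h4⟩ := mem_cmp.1 hz'
  exact h (mem_cmp.2 ⟨h4.left_mem, h2.trans h4.symm⟩)

/-- parity in a bipartite set -/
theorem PI.bip {f : V → Bool} (hc : ∀ x ∈ S, ∀ y ∈ S, G.Adj x y → f x ≠ f y) (h : PI G S a b k) :
    k = (f a ^^ f b) := by
  obtain ⟨T, hT, h⟩ := h
  revert hT
  refine PX.ind (P := fun T a b k => T ⊆ S → k = (f a ^^ f b)) ?_ ?_ h
  · intro a _
    simp
  · intro T a b c k e hT _ ih hS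
    have h1 := ih (fun v hv => hS (Finset.mem_insert_of_mem hv))
    have h2 := hc a (hS (Finset.mem_insert_self _ _)) b (hS (Finset.mem_insert_of_mem hT.left_mem)) e
    rw [h1]
    revert h2
    generalize f a = p
    generalize f b = q
    generalize f c = r
    revert p q r
    decide

theorem Bip.mono (h : Bip G S) (hT : T ⊆ S) : Bip G T := by
  obtain ⟨f, hf⟩ := h
  exact ⟨f, fun x hx y hy => hf x (hT hx) y (hT hy)⟩

end Pool.Agent.TOKSN
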