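import Mathlib
import Pool.Agent.TOKSN.Paths

/-!
# LINE N: odd cycles
-/

set_option autoImplicit false
set_option linter.unusedSectionVars false

namespace Pool.Agent.TOKSN

open Pool.Agent.TOKST (HasTOKS)

variable {V : Type} [DecidableEq V] {G : SimpleGraph V} {S T T₁ T₂ U A B C D X : Finset V}
  {a b c d x y z : V} {k l : Bool}

/-- the first edge of a path -/
theorem PX.uncons (h : PX G T a b k) (hab : a ≠ b) : ∃ w T', G.Adj a w ∧ PX G T' w b (!k) ∧
    T = insert a T' ∧ a ∉ T' := by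
  obtain ⟨p, hp, rfl, hk⟩ := h
  cases p with
  | nil => exact absurd rfl hab
  | cons e p =>
    rw [SimpleGraph.Walk.cons_isPath_iff] at hp
    refine ⟨_, p.support.toFinset, e, ⟨p, hp.1, rfl, ?_⟩, by simp, by simpa using hp.2⟩
    rw [SimpleGraph.Walk.length_cons, Nat.odd_add_one] at hk
    cases k <;> simp_all

theorem oddCyc_of_isCycle {u : V} (p : G.Walk u u) (hp : p.IsCycle) (hodd : Odd p.length) :
    ∃ x y, G.Adj x y ∧ PX G p.support.toFinset x y false := by
  cases p with
  | nil => exact absurd hp (by simp)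
  | cons e p =>
    rw [SimpleGraph.Walk.cons_isCycle_iff] at hp
    refine ⟨_, _, e.symm, p, hp.1, ?_, ?_⟩
    · rw [SimpleGraph.Walk.support_cons, List.toFinset_cons, Finset.insert_eq_of_mem]
      simp
    · rw [SimpleGraph.Walk.length_cons, Nat.odd_add_one] at hodd
      simp [hodd]

theorem oddCyc_iff : OddCyc G C ↔ ∃ x y, G.Adj x y ∧ PX G C x y false := by
  constructor
  · rintro ⟨u, p, hp, rfl, hodd⟩
    exact oddCyc_of_isCycle p hp hodd
  · rintro ⟨x, y, e, p, hp, rfl, hk⟩
    have hk' : ¬ Odd p.length := by simp [hk]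
    refine ⟨y, .cons e.symm p, ?_, ?_, ?_⟩
    · rw [SimpleGraph.Walk.cons_isCycle_iff]
      refine ⟨hp, fun hmem => hk' ?_⟩
      cases p with
      | nil => simp at hmem
      | cons e' q =>
        rw [SimpleGraph.Walk.cons_isPath_iff] at hp
        rw [SimpleGraph.Walk.edges_cons, List.mem_cons] at hmem
        rcases hmem with h | h
        · rename_i w
          rw [Sym2.eq_swap, Sym2.congr_right] at h
          subst h
          have : q = .nil := by
            cases q with
            | nil => rfl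
            | cons e'' q =>
              have h1 := hp.1
              rw [SimpleGraph.Walk.cons_isPath_iff] at h1
              exact absurd q.end_mem_support h1.2
          subst this
          simp
        · exact absurd (SimpleGraph.Walk.snd_mem_support_of_mem_edges q h) hp.2
    · rw [SimpleGraph.Walk.support_cons, List.toFinset_cons, Finset.insert_eq_of_mem]
      simp
    · rw [SimpleGraph.Walk.length_cons, Nat.odd_add_one]
      exact hk'

/-- closing an even path by an edge -/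
theorem OddCyc.of_edge (h : PX G T x y false) (e : G.Adj x y) : OddCyc G T := oddCyc_iff.2 ⟨x, y, e, h⟩

theorem OddCyc.arcs (h : OddCyc G C) (hx : x ∈ C) (hy : y ∈ C) (hxy : x ≠ y) :
    ∃ T₁ T₂ k, PX G T₁ x y k ∧ PX G T₂ x y (!k) ∧ T₁ ∪ T₂ = C ∧ T₁ ∩ T₂ = {x, y} := by
  obtain ⟨u, v, e, h⟩ := oddCyc_iff.1 h
  have main : ∀ u v x y : V, ∀ C, G.Adj u v → PX G C u v false → x ∈ C → x ≠ y →
      ∀ P₁ P₂ k₁ k₂, PX G P₁ u x k₁ → PX G P₂ x v k₂ → P₁ ∪ P₂ = C → P₁ ∩ P₂ = {x} → (k₁ ^^ k₂) = false →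
      y ∈ P₂ → ∃ T₁ T₂ k, PX G T₁ x y k ∧ PX G T₂ x y (!k) ∧ T₁ ∪ T₂ = C ∧ T₁ ∩ T₂ = {x, y} := by
    intro u v x y C e h hx hxy P₁ P₂ k₁ k₂ h1 h2 h3 h4 h5 hy
    obtain ⟨Q₁, Q₂, l₁, l₂, g1, g2, g3, g4, g5⟩ := h2.cut hy
    have hxQ : x ∉ Q₂ := by
      intro hx'
      have : x ∈ Q₁ ∩ Q₂ := Finset.mem_inter.2 ⟨g1.left_mem, hx'⟩
      rw [g4, Finset.mem_singleton] at this
      exact hxy this
    have hQ1 : Q₁ ⊆ P₂ := by rw [← g3]; exact Finset.subset_union_left
    have hQ2 : Q₂ ⊆ P₂ := by rw [← g3]; exact Finset.subset_union_right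
    have hd : Disjoint P₁ Q₂ := by
      rw [Finset.disjoint_left]
      intro z hz hz'
      have : z ∈ P₁ ∩ P₂ := Finset.mem_inter.2 ⟨hz, hQ2 hz'⟩
      rw [h4, Finset.mem_singleton] at this
      subst this
      exact hxQ hz'
    refine ⟨Q₁, P₁ ∪ Q₂, l₁, g1, ?_, ?_, ?_⟩
    · have := h1.symm.concat_disj e g2.symm hd
      have h6 : (!(k₁ ^^ l₂)) = !l₁ := by
        revert h5
        rw [← g5]
        cases k₁ <;> cases l₁ <;> cases l₂ <;> simp
      rwa [h6] at this
    · rw [← h3, ← g3]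
      ext w
      simp only [Finset.mem_union]
      tauto
    · ext w
      rw [Finset.mem_inter, Finset.mem_union, Finset.mem_insert, Finset.mem_singleton]
      constructor
      · rintro ⟨hw, hw' | hw'⟩
        · left
          have : w ∈ P₁ ∩ P₂ := Finset.mem_inter.2 ⟨hw', hQ1 hw⟩
          rwa [h4, Finset.mem_singleton] at this
        · right
          have : w ∈ Q₁ ∩ Q₂ := Finset.mem_inter.2 ⟨hw, hw'⟩
          rwa [g4, Finset.mem_singleton] at this
      · rintro (rfl | rfl)
        · exact ⟨g1.left_mem, Or.inl h1.right_mem⟩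
        · exact ⟨g1.right_mem, Or.inr g2.left_mem⟩
  obtain ⟨P₁, P₂, k₁, k₂, h1, h2, h3, h4, h5⟩ := h.cut hx
  have hy' : y ∈ P₁ ∨ y ∈ P₂ := by rwa [← Finset.mem_union, h3]
  rcases hy' with hy' | hy'
  · exact main v u x y C e.symm h.symm hx hxy P₂ P₁ k₂ k₁ h2.symm h1.symm (by rw [Finset.union_comm, h3])
      (by rw [Finset.inter_comm, h4]) (by rw [Bool.xor_comm, h5]) hy'
  · exact main u v x y C e h hx hxy P₁ P₂ k₁ k₂ h1 h2 h3 h4 h5 hy'

theorem OddCyc.of_arcs (h₁ : PX G T₁ x y k) (h₂ : PX G T₂ x y (!k)) (hd : T₁ ∩ T₂ = {x, y}) (hxy : x ≠ y) :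
    OddCyc G (T₁ ∪ T₂) := by
  -- `T₂` odd without loss of generality
  have main : ∀ T₁ T₂, PX G T₁ x y false → PX G T₂ x y true → T₁ ∩ T₂ = {x, y} → OddCyc G (T₁ ∪ T₂) := by
    intro T₁ T₂ h₁ h₂ hd
    obtain ⟨w, T', e, h3, h4, h5⟩ := h₂.uncons hxy
    have h6 := h3.concat h₁.symm (fun v hv hv' => by
      have : v ∈ T₁ ∩ T₂ := Finset.mem_inter.2 ⟨hv', by rw [h4]; exact Finset.mem_insert_of_mem hv⟩
      rw [hd, Finset.mem_insert, Finset.mem_singleton] at this
      rcases this with rfl | rfl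
      · exact absurd hv h5
      · rfl)
    have h7 := OddCyc.of_edge (by simpa using h6) e.symm
    have h8 : T' ∪ T₁ = T₁ ∪ T₂ := by
      rw [h4]
      ext v
      simp only [Finset.mem_union, Finset.mem_insert]
      have := h₁.left_mem
      constructor
      · tauto
      · rintro (h | rfl | h)
        · exact Or.inr h
        · exact Or.inr this
        · exact Or.inl h
    rwa [h8] at h7
  cases k
  · exact main T₁ T₂ h₁ h₂ hd
  · rw [Finset.union_comm]
    exact main T₂ T₁ h₂ h₁ (by rw [Finset.inter_comm, hd])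

/-- three vertices of an odd cycle -/
theorem OddCyc.three (h : OddCyc G C) (hx : x ∈ C) (hy : y ∈ C) (hz : z ∈ C) (hxy : x ≠ y)
    (hyz : y ≠ z) (hxz : x ≠ z) : ∃ Txy Tyz Txz k₁ k₂ k₃, PX G Txy x y k₁ ∧ PX G Tyz y z k₂ ∧
      PX G Txz x z k₃ ∧ Txy ∩ Tyz = {y} ∧ Txy ∩ Txz = {x} ∧ Tyz ∩ Txz = {z} ∧ Txy ∪ Tyz ∪ Txz = C ∧
      (k₁ ^^ k₂ ^^ k₃) = true := by
  have main : ∀ T₁ T₂ k, PX G T₁ x y k → PX G T₂ x y (!k) → T₁ ∪ T₂ = C → T₁ ∩ T₂ = {x, y} → z ∈ T₁ →
      ∃ Txy Tyz Txz k₁ k₂ k₃, PX G Txy x y k₁ ∧ PX G Tyz y z k₂ ∧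
      PX G Txz x z k₃ ∧ Txy ∩ Tyz = {y} ∧ Txy ∩ Txz = {x} ∧ Tyz ∩ Txz = {z} ∧ Txy ∪ Tyz ∪ Txz = C ∧
      (k₁ ^^ k₂ ^^ k₃) = true := by
    intro T₁ T₂ k h1 h2 h3 h4 hz
    obtain ⟨Q₁, Q₂, l₁, l₂, g1, g2, g3, g4, g5⟩ := h1.cut hz
    have hQ1 : Q₁ ⊆ T₁ := by rw [← g3]; exact Finset.subset_union_left
    have hQ2 : Q₂ ⊆ T₁ := by rw [← g3]; exact Finset.subset_union_right
    have hxQ : x ∉ Q₂ := by
      intro hx'
      have : x ∈ Q₁ ∩ Q₂ := Finset.mem_inter.2 ⟨g1.left_mem, hx'⟩
      rw [g4, Finset.mem_singleton] at this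
      exact hxz this
    have hyQ : y ∉ Q₁ := by
      intro hy'
      have : y ∈ Q₁ ∩ Q₂ := Finset.mem_inter.2 ⟨hy', g2.right_mem⟩
      rw [g4, Finset.mem_singleton] at this
      exact hyz this
    refine ⟨T₂, Q₂, Q₁, _, _, _, h2, g2.symm, g1, ?_, ?_, by rw [Finset.inter_comm, g4], ?_, ?_⟩
    · ext w
      rw [Finset.mem_inter, Finset.mem_singleton]
      constructor
      · rintro ⟨hw, hw'⟩
        have : w ∈ T₁ ∩ T₂ := Finset.mem_inter.2 ⟨hQ2 hw', hw⟩
        rw [h4, Finset.mem_insert, Finset.mem_singleton] at this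
        rcases this with rfl | rfl
        · exact absurd hw' hxQ
        · rfl
      · rintro rfl
        exact ⟨h2.right_mem, g2.right_mem⟩
    · ext w
      rw [Finset.mem_inter, Finset.mem_singleton]
      constructor
      · rintro ⟨hw, hw'⟩
        have : w ∈ T₁ ∩ T₂ := Finset.mem_inter.2 ⟨hQ1 hw', hw⟩
        rw [h4, Finset.mem_insert, Finset.mem_singleton] at this
        rcases this with rfl | rfl
        · rfl
        · exact absurd hw' hyQ
      · rintro rfl
        exact ⟨h2.left_mem, g1.left_mem⟩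
    · rw [← h3, ← g3]
      ext w
      simp only [Finset.mem_union]
      tauto
    · rw [← g5]
      cases l₁ <;> cases l₂ <;> rfl
  obtain ⟨T₁, T₂, k, h1, h2, h3, h4⟩ := h.arcs hx hy hxy
  have hz' : z ∈ T₁ ∨ z ∈ T₂ := by rwa [← Finset.mem_union, h3]
  rcases hz' with hz' | hz'
  · exact main T₁ T₂ k h1 h2 h3 h4 hz'
  · exact main T₂ T₁ (!k) h2 (by simpa using h1) (by rw [Finset.union_comm, h3])
      (by rw [Finset.inter_comm, h4]) hz'

theorem OddCyc.not_bip (h : OddCyc G C) : ¬ Bip G C := by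
  rintro ⟨f, hf⟩
  obtain ⟨u, v, e, h⟩ := oddCyc_iff.1 h
  have h1 := PI.bip hf ⟨C, subset_rfl, h⟩
  have h2 := hf u h.left_mem v h.right_mem e
  revert h1 h2
  cases f u <;> cases f v <;> simp

/-- two paths of different parities with the same ends: an odd cycle -/
theorem exists_oddCyc_of_two : ∀ n : ℕ, ∀ T₁ T₂ : Finset V, ∀ x y : V, ∀ k, T₁.card + T₂.card = n →
    PX G T₁ x y k → PX G T₂ x y (!k) → ∃ C, C ⊆ T₁ ∪ T₂ ∧ OddCyc G C := by
  intro n
  induction n using Nat.strong_induction_on with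
  | _ n ih =>
    intro T₁ T₂ x y k hn h₁ h₂
    have hxy : x ≠ y := by
      cases k
      · exact h₂.ne
      · exact h₁.ne
    by_cases hd : T₁ ∩ T₂ = {x, y}
    · exact ⟨_, subset_rfl, OddCyc.of_arcs h₁ h₂ hd hxy⟩
    · have : ∃ z, z ∈ T₁ ∧ z ∈ T₂ ∧ z ≠ x ∧ z ≠ y := by
        by_contra hne
        push Not at hne
        apply hd
        ext w
        rw [Finset.mem_inter, Finset.mem_insert, Finset.mem_singleton]
        constructor
        · rintro ⟨h1, h2⟩
          by_cases hw : w = x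
          · exact Or.inl hw
          · exact Or.inr (hne w h1 h2 hw)
        · rintro (rfl | rfl)
          · exact ⟨h₁.left_mem, h₂.left_mem⟩
          · exact ⟨h₁.right_mem, h₂.right_mem⟩
      obtain ⟨z, hz1, hz2, hzx, hzy⟩ := this
      obtain ⟨P₁, P₂, k₁, k₂, f1, f2, f3, f4, f5⟩ := h₁.cut hz1
      obtain ⟨Q₁, Q₂, l₁, l₂, g1, g2, g3, g4, g5⟩ := h₂.cut hz2
      have hP1 : P₁ ⊆ T₁ := by rw [← f3]; exact Finset.subset_union_left
      have hP2 : P₂ ⊆ T₁ := by rw [← f3]; exact Finset.subset_union_right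
      have hQ1 : Q₁ ⊆ T₂ := by rw [← g3]; exact Finset.subset_union_left
      have hQ2 : Q₂ ⊆ T₂ := by rw [← g3]; exact Finset.subset_union_right
      have hyP : y ∉ P₁ := fun h' => by
        have : y ∈ P₁ ∩ P₂ := Finset.mem_inter.2 ⟨h', f2.right_mem⟩
        rw [f4, Finset.mem_singleton] at this
        exact hzy this.symm
      have hxP : x ∉ P₂ := fun h' => by
        have : x ∈ P₁ ∩ P₂ := Finset.mem_inter.2 ⟨f1.left_mem, h'⟩
        rw [f4, Finset.mem_singleton] at this
        exact hzx this.symm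
      have c1 : P₁.card < T₁.card :=
        Finset.card_lt_card ⟨hP1, fun h' => hyP (h' h₁.right_mem)⟩
      have c2 : P₂.card < T₁.card :=
        Finset.card_lt_card ⟨hP2, fun h' => hxP (h' h₁.left_mem)⟩
      have c3 := Finset.card_le_card hQ1
      have c4 := Finset.card_le_card hQ2
      have hcase : l₁ = !k₁ ∨ l₂ = !k₂ := by
        revert f5 g5
        cases k₁ <;> cases k₂ <;> cases l₁ <;> cases l₂ <;> cases k <;> simp
      rcases hcase with h | h
      · subst h
        obtain ⟨C, hC, hC'⟩ := ih _ (by omega) P₁ Q₁ x z k₁ rfl f1 g1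
        exact ⟨C, hC.trans (Finset.union_subset_union hP1 hQ1), hC'⟩
      · subst h
        obtain ⟨C, hC, hC'⟩ := ih _ (by omega) P₂ Q₂ z y k₂ rfl f2 g2
        exact ⟨C, hC.trans (Finset.union_subset_union hP2 hQ2), hC'⟩

/-- a nonbipartite set contains an odd cycle -/
theorem exists_oddCyc (h : ¬ Bip G S) : ∃ C, C ⊆ S ∧ OddCyc G C := by
  classical
  by_contra hne
  push Not at hne
  -- all paths inside `S` between two vertices have the same parity
  have huniq : ∀ x y k l, PI G S x y k → PI G S x y l → k = l := by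
    intro x y k l h1 h2
    by_contra hkl
    obtain ⟨T₁, hT₁, h1⟩ := h1
    obtain ⟨T₂, hT₂, h2⟩ := h2
    have : l = !k := by
      cases k <;> cases l <;> simp_all
    subst this
    obtain ⟨C, hC, hC'⟩ := exists_oddCyc_of_two _ T₁ T₂ x y k rfl h1 h2
    exact hne C (hC.trans (Finset.union_subset hT₁ hT₂)) hC'
  -- a root for every component
  have hroot : ∃ r : V → V, ∀ x ∈ S, JN G S (r x) x ∧ ∀ y ∈ S, G.Adj x y → r x = r y := by
    by_cases hS : S.Nonempty
    · obtain ⟨s0, hs0⟩ := hS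
      let R : Finset V → V := fun X => if h : X.Nonempty then h.choose else s0
      refine ⟨fun x => R (cmp G S x), fun x hx => ⟨?_, ?_⟩⟩
      · have hne' : (cmp G S x).Nonempty := ⟨x, mem_cmp_self hx⟩
        have : R (cmp G S x) ∈ cmp G S x := by
          simp only [R, dif_pos hne']
          exact hne'.choose_spec
        exact (mem_cmp.1 this).2.symm
      · intro y hy e
        have : cmp G S y = cmp G S x := cmp_eq (cmp_closed (mem_cmp_self hx) hy e)
        simp only [this]
    · exact ⟨id, fun x hx => absurd ⟨x, hx⟩ hS⟩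
  obtain ⟨r, hr⟩ := hroot
  apply h
  refine ⟨fun x => if h : ∃ k, PI G S (r x) x k then h.choose else false, ?_⟩
  intro x hx y hy e
  obtain ⟨h1, h2⟩ := hr x hx
  obtain ⟨h3, -⟩ := hr y hy
  have h4 := h2 y hy e
  have hx' : ∃ k, PI G S (r x) x k := h1
  have hy' : ∃ k, PI G S (r y) y k := h3
  simp only [dif_pos hx', dif_pos hy']
  have h5 := hx'.choose_spec
  have h6 := hy'.choose_spec
  revert h5 h6
  generalize hx'.choose = k
  generalize hy'.choose = l
  intro h5 h6 hkl
  subst hkl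
  rw [← h4] at h6
  obtain ⟨T, hT, h5'⟩ := h5
  by_cases hyT : y ∈ T
  · obtain ⟨T₁, T₂, k₁, k₂, g1, g2, g3, g4, g5⟩ := h5'.cut hyT
    have hT1 : T₁ ⊆ T := by rw [← g3]; exact Finset.subset_union_left
    have hx1 : x ∉ T₁ := fun h' => by
      have : x ∈ T₁ ∩ T₂ := Finset.mem_inter.2 ⟨h', g2.right_mem⟩
      rw [g4, Finset.mem_singleton] at this
      exact e.ne this
    have g6 := (g1.symm.cons e hx1).symm
    have g7 := huniq _ _ _ _ (g6.pi (Finset.insert_subset hx (hT1.trans hT))) ⟨T, hT, h5'⟩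
    have g8 := huniq _ _ _ _ h6 (g1.pi (hT1.trans hT))
    rw [g8] at g7
    simp at g7
  · have g6 := (h5'.symm.cons e.symm hyT).symm
    have g7 := huniq _ _ _ _ h6 (g6.pi (Finset.insert_subset hy hT))
    simp at g7

theorem not_bip_iff : ¬ Bip G S ↔ ∃ C, C ⊆ S ∧ OddCyc G C :=
  ⟨exists_oddCyc, fun ⟨_, hC, h⟩ hb => h.not_bip (hb.mono hC)⟩

theorem OddCyc.card_le (h : OddCyc G C) : 3 ≤ C.card := by
  by_contra hlt
  obtain ⟨u, v, e, h'⟩ := oddCyc_iff.1 h
  obtain ⟨w, T', e', h3, h4, h5⟩ := h'.uncons e.ne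
  obtain ⟨w', T'', e'', h6, h7, h8⟩ := h3.uncons (a := w) (b := v) (by
    rintro rfl
    exact absurd h3.eq_of_eq.2 (by simp))
  have h9 := h6.right_mem
  rw [h4, h7] at hlt
  rw [h7] at h5
  rw [Finset.card_insert_of_notMem h5, Finset.card_insert_of_notMem h8] at hlt
  have := Finset.card_pos.2 ⟨_, h9⟩
  omega

/-- the cardinality of a path -/
theorem PX.card (h : PX G T a b k) : Odd T.card ↔ k = false := by
  refine PX.ind (P := fun T a b k => Odd T.card ↔ k = false) ?_ ?_ h
  · intro a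
    simp
  · intro T a b c k e hT haT ih
    rw [Finset.card_insert_of_notMem haT, Nat.odd_add_one, ih]
    simp

theorem OddCyc.odd_card (h : OddCyc G C) : Odd C.card := by
  obtain ⟨u, v, e, h'⟩ := oddCyc_iff.1 h
  exact h'.card.2 rfl

/-- an odd cycle is a hub -/
theorem OddCyc.hub (h : OddCyc G C) : Hub G C := by
  obtain ⟨u, v, e, h'⟩ := oddCyc_iff.1 h
  refine ⟨h.card_le, h.not_bip, h'.conn, ?_⟩
  intro x
  by_cases hx : x ∈ C
  · -- remove `x`: the other vertices are joined by one of the two arcs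
    have hne : (C.erase x).Nonempty := by
      rw [← Finset.card_pos, Finset.card_erase_of_mem hx]
      have := h.card_le
      omega
    refine ⟨hne, ?_⟩
    intro a ha b hb
    obtain ⟨hax, haC⟩ := Finset.mem_erase.1 ha
    obtain ⟨hbx, hbC⟩ := Finset.mem_erase.1 hb
    by_cases hab : a = b
    · subst hab
      exact JN.refl ha
    · obtain ⟨T₁, T₂, k, h1, h2, h3, h4⟩ := h.arcs haC hbC hab
      have hT1 : T₁ ⊆ C := by rw [← h3]; exact Finset.subset_union_left
      have hT2 : T₂ ⊆ C := by rw [← h3]; exact Finset.subset_union_right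
      by_cases hx1 : x ∈ T₁
      · refine ⟨_, T₂, ?_, h2⟩
        intro w hw
        refine Finset.mem_erase.2 ⟨?_, hT2 hw⟩
        rintro rfl
        have : w ∈ T₁ ∩ T₂ := Finset.mem_inter.2 ⟨hx1, hw⟩
        rw [h4, Finset.mem_insert, Finset.mem_singleton] at this
        rcases this with rfl | rfl
        · exact hax rfl
        · exact hbx rfl
      · refine ⟨_, T₁, ?_, h1⟩
        intro w hw
        refine Finset.mem_erase.2 ⟨?_, hT1 hw⟩
        rintro rfl
        exact hx1 hw
  · rw [Finset.erase_eq_of_notMem hx]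
    exact h'.conn

/-! ## induced odd cycles = minimal nonbipartite sets -/

/-- induced odd cycle (minimal nonbipartite set) -/
def IOC (G : SimpleGraph V) (C : Finset V) : Prop :=
  ¬ Bip G C ∧ ∀ x ∈ C, Bip G (C.erase x)

theorem IOC.bip_of_ssubset (h : IOC G C) (hX : X ⊂ C) : Bip G X := by
  obtain ⟨x, hx, hxX⟩ := Finset.exists_of_ssubset hX
  exact (h.2 x hx).mono (Finset.subset_erase.2 ⟨hX.1, hxX⟩)

theorem exists_ioc (h : ¬ Bip G S) : ∃ C, C ⊆ S ∧ IOC G C := by
  classical
  obtain ⟨C, hC, hmin⟩ := Finset.exists_min_image (S.powerset.filter fun C => ¬ Bip G C) Finset.card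
    ⟨S, Finset.mem_filter.2 ⟨Finset.mem_powerset.2 subset_rfl, h⟩⟩
  obtain ⟨hC1, hC2⟩ := Finset.mem_filter.1 hC
  rw [Finset.mem_powerset] at hC1
  refine ⟨C, hC1, hC2, ?_⟩
  intro x hx
  by_contra hb
  have := hmin (C.erase x) (Finset.mem_filter.2
    ⟨Finset.mem_powerset.2 ((Finset.erase_subset _ _).trans hC1), hb⟩)
  have h2 := Finset.card_erase_lt_of_mem hx
  omega

theorem IOC.oddCyc (h : IOC G C) : OddCyc G C := by
  obtain ⟨C', hC', h'⟩ := exists_oddCyc h.1
  rcases eq_or_ssubset_of_subset hC' with rfl | hss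
  · exact h'
  · exact absurd (h.bip_of_ssubset hss) h'.not_bip

/-- two adjacent vertices of an induced odd cycle: one arc is the edge -/
theorem IOC.adj_arc (h : IOC G C) (e : G.Adj x y) (h₁ : PX G T₁ x y true) (h₂ : PX G T₂ x y false)
    (hu : T₁ ∪ T₂ = C) (hi : T₁ ∩ T₂ = {x, y}) : T₁ = {x, y} ∧ T₂ = C := by
  have h3 := OddCyc.of_edge h₂ e
  have hT : T₂ ⊆ C := by rw [← hu]; exact Finset.subset_union_right
  rcases eq_or_ssubset_of_subset hT with h4 | hss
  · refine ⟨?_, h4⟩
    rw [← hi]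
    refine (Finset.inter_eq_left.2 ?_).symm
    rw [h4, ← hu]
    exact Finset.subset_union_left
  · exact absurd (h.bip_of_ssubset hss) h3.not_bip

/-- a vertex of an induced odd cycle has at most two neighbours on it -/
theorem IOC.deg_two (h : IOC G C) {p q r : V} (hx : x ∈ C) (hp : p ∈ C) (hq : q ∈ C) (hr : r ∈ C)
    (hxp : G.Adj x p) (hxq : G.Adj x q) (hxr : G.Adj x r) : p = q ∨ q = r ∨ p = r := by
  by_contra hne
  push Not at hne
  obtain ⟨hpq, hqr, hpr⟩ := hne
  obtain ⟨Txp, Tpq, Txq, k₁, k₂, k₃, h1, h2, h3, h4, h5, h6, h7, h8⟩ :=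
    h.oddCyc.three hx hp hq hxp.ne hpq hxq.ne
  -- the arc `x..p` is an edge
  have edge : ∀ (x p : V) (T₁ T₂ : Finset V) (k : Bool), G.Adj x p → PX G T₁ x p k → PX G T₂ x p (!k) →
      T₁ ∪ T₂ = C → T₁ ∩ T₂ = {x, p} → T₁ = {x, p} ∨ T₂ = {x, p} := by
    intro x p T₁ T₂ k e g1 g2 g3 g4
    cases k
    · exact Or.inr (h.adj_arc e g2 g1 (by rw [Finset.union_comm, g3]) (by rw [Finset.inter_comm, g4])).1
    · exact Or.inl (h.adj_arc e g1 g2 g3 g4).1
  have cc := h3.concat h2.symm (fun v hv hv' => by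
    have : v ∈ Tpq ∩ Txq := Finset.mem_inter.2 ⟨hv', hv⟩
    rwa [h6, Finset.mem_singleton] at this)
  have hxTpq : x ∉ Tpq := fun h' => by
    have : x ∈ Txp ∩ Tpq := Finset.mem_inter.2 ⟨h1.left_mem, h'⟩
    rw [h4, Finset.mem_singleton] at this
    exact hxp.ne this
  have hi : ∀ v, v ∈ Txp ∩ (Txq ∪ Tpq) ↔ v = x ∨ v = p := by
    intro v
    rw [Finset.mem_inter, Finset.mem_union]
    constructor
    · rintro ⟨hv, hv' | hv'⟩
      · left
        have : v ∈ Txp ∩ Txq := Finset.mem_inter.2 ⟨hv, hv'⟩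
        rwa [h5, Finset.mem_singleton] at this
      · right
        have : v ∈ Txp ∩ Tpq := Finset.mem_inter.2 ⟨hv, hv'⟩
        rwa [h4, Finset.mem_singleton] at this
    · rintro (rfl | rfl)
      · exact ⟨h1.left_mem, Or.inl h3.left_mem⟩
      · exact ⟨h1.right_mem, Or.inr h2.left_mem⟩
  have e1 : Txp = {x, p} := by
    rcases edge x p Txp (Txq ∪ Tpq) k₁ hxp h1 (by
      have : (k₃ ^^ k₂) = !k₁ := by
        revert h8
        cases k₁ <;> cases k₂ <;> cases k₃ <;> simp
      rw [← this]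
      exact cc) (by
        rw [← h7]
        ext v
        simp only [Finset.mem_union]
        tauto) (by
        ext v
        rw [hi]
        simp) with h' | h'
    · exact h'
    · have : q ∈ ({x, p} : Finset V) := by
        rw [← h']
        exact Finset.mem_union_left _ h3.right_mem
      rw [Finset.mem_insert, Finset.mem_singleton] at this
      rcases this with h9 | h9
      · exact absurd h9.symm hxq.ne
      · exact absurd h9.symm hpq
  have cc' := h1.concat h2 (fun v hv hv' => by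
    have : v ∈ Txp ∩ Tpq := Finset.mem_inter.2 ⟨hv, hv'⟩
    rwa [h4, Finset.mem_singleton] at this)
  have e2 : Txq = {x, q} := by
    rcases edge x q Txq (Txp ∪ Tpq) k₃ hxq h3 (by
      have : (k₁ ^^ k₂) = !k₃ := by
        revert h8
        cases k₁ <;> cases k₂ <;> cases k₃ <;> simp
      rw [← this]
      exact cc') (by
        rw [← h7]
        ext v
        simp only [Finset.mem_union]
        tauto) (by
        ext v
        rw [Finset.mem_inter, Finset.mem_union, Finset.mem_insert, Finset.mem_singleton]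
        constructor
        · rintro ⟨hv, hv' | hv'⟩
          · left
            have : v ∈ Txp ∩ Txq := Finset.mem_inter.2 ⟨hv', hv⟩
            rwa [h5, Finset.mem_singleton] at this
          · right
            have : v ∈ Tpq ∩ Txq := Finset.mem_inter.2 ⟨hv', hv⟩
            rwa [h6, Finset.mem_singleton] at this
        · rintro (rfl | rfl)
          · exact ⟨h3.left_mem, Or.inl h1.left_mem⟩
          · exact ⟨h3.right_mem, Or.inr h2.right_mem⟩) with h' | h'
    · exact h'
    · have : p ∈ ({x, q} : Finset V) := by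
        rw [← h']
        exact Finset.mem_union_left _ h1.right_mem
      rw [Finset.mem_insert, Finset.mem_singleton] at this
      rcases this with h9 | h9
      · exact absurd h9.symm hxp.ne
      · exact absurd h9 hpq
  -- `r` is inside `Tpq`
  have hrT : r ∈ Tpq := by
    have : r ∈ Txp ∪ Tpq ∪ Txq := by rwa [h7]
    rw [Finset.mem_union, Finset.mem_union, e1, e2] at this
    simp only [Finset.mem_insert, Finset.mem_singleton] at this
    rcases this with ((h' | h') | h') | (h' | h')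
    · exact absurd h'.symm hxr.ne
    · exact absurd h'.symm hpr
    · exact h'
    · exact absurd h'.symm hxr.ne
    · exact absurd h'.symm hqr
  obtain ⟨Q₁, Q₂, l₁, l₂, g1, g2, g3, g4, g5⟩ := h2.cut hrT
  have hQ1 : Q₁ ⊆ Tpq := by rw [← g3]; exact Finset.subset_union_left
  have hQ2 : Q₂ ⊆ Tpq := by rw [← g3]; exact Finset.subset_union_right
  have m1 := g1.cons hxp (fun h' => hxTpq (hQ1 h'))
  have m2 := g2.symm.cons hxq (fun h' => hxTpq (hQ2 h'))
  have hpar : (!l₂) = !(!l₁) := by
    have b1 : k₁ = true := by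
      cases k₁
      · have := h1.card
        rw [e1, Finset.card_pair hxp.ne] at this
        exact absurd (this.2 rfl) (by decide)
      · rfl
    have b3 : k₃ = true := by
      cases k₃
      · have := h3.card
        rw [e2, Finset.card_pair hxq.ne] at this
        exact absurd (this.2 rfl) (by decide)
      · rfl
    revert h8
    rw [← g5, b1, b3]
    cases l₁ <;> cases l₂ <;> simp
  rw [hpar] at m2
  rcases edge x r _ _ _ hxr m1 m2 (by
    rw [← h7, e1, e2, ← g3]
    ext v
    simp only [Finset.mem_union, Finset.mem_insert, Finset.mem_singleton]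
    constructor
    · rintro ((h' | h') | (h' | h'))
      · exact Or.inl (Or.inl (Or.inl h'))
      · exact Or.inl (Or.inr (Or.inl h'))
      · exact Or.inl (Or.inl (Or.inl h'))
      · exact Or.inl (Or.inr (Or.inr h'))
    · rintro (((h' | h') | (h' | h')) | (h' | h'))
      · exact Or.inl (Or.inl h')
      · subst h'
        exact Or.inl (Or.inr g1.left_mem)
      · exact Or.inl (Or.inr h')
      · exact Or.inr (Or.inr h')
      · exact Or.inl (Or.inl h')
      · subst h'
        exact Or.inr (Or.inr g2.right_mem)) (by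
    ext v
    simp only [Finset.mem_inter, Finset.mem_insert, Finset.mem_singleton]
    constructor
    · rintro ⟨h' | h', h'' | h''⟩
      · exact Or.inl h'
      · exact Or.inl h'
      · exact Or.inl h''
      · right
        have : v ∈ Q₁ ∩ Q₂ := Finset.mem_inter.2 ⟨h', h''⟩
        rwa [g4, Finset.mem_singleton] at this
    · rintro (h' | h')
      · exact ⟨Or.inl h', Or.inl h'⟩
      · subst h'
        exact ⟨Or.inr g1.right_mem, Or.inr g2.left_mem⟩) with h' | h'
  · have : p ∈ ({x, r} : Finset V) := by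
      rw [← h']
      exact Finset.mem_insert_of_mem g1.left_mem
    rw [Finset.mem_insert, Finset.mem_singleton] at this
    rcases this with h9 | h9
    · exact absurd h9.symm hxp.ne
    · exact absurd h9 hpr
  · have : q ∈ ({x, r} : Finset V) := by
      rw [← h']
      exact Finset.mem_insert_of_mem g2.right_mem
    rw [Finset.mem_insert, Finset.mem_singleton] at this
    rcases this with h9 | h9
    · exact absurd h9.symm hxq.ne
    · exact absurd h9 hqr

end Pool.Agent.TOKSN
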