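import Mathlib
import Pool.Agent.TOKSN.Cyc

/-!
# LINE N: Menger's theorem (vertex form, `k` disjoint `A`-`B`-paths inside `U`)

Proof by induction on the number of edges: delete an edge; if a separator `Z` with `|Z| < k` appears,
then `Z + x` and `Z + y` are separators with `k` vertices, and the two systems of paths are joined.
-/

set_option autoImplicit false
set_option linter.unusedSectionVars false

namespace Pool.Agent.TOKSN

variable {V : Type} [DecidableEq V] {G : SimpleGraph V} {S T T₁ T₂ U A B C D X : Finset V}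
  {a b c d x y z : V} {k l : Bool}

theorem JN.mono_graph {H : SimpleGraph V} (hGH : G ≤ H) (h : JN G S a b) : JN H S a b := by
  obtain ⟨k, T, hT, h⟩ := h
  exact ⟨k, T, hT, h.mono_graph hGH⟩

/-- the part reached from `A` avoids `x`, then everything is reached -/
theorem menger_key {G' : SimpleGraph V} {U A B Z W : Finset V} {x y : V}
    (hdiff : ∀ u v, G.Adj u v → ¬ G'.Adj u v → (u = x ∧ v = y) ∨ (u = y ∧ v = x))
    (hsep : ∀ a ∈ A, ∀ b ∈ B, ¬ JN G' (U \ Z) a b) (hy : ∀ a ∈ A, ¬ JN G' (U \ Z) a y)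
    (hW : ∃ a ∈ A, ∃ b ∈ B, JN G (U \ W) a b) :
    ∃ a ∈ A, ∃ z ∈ insert x Z, JN G' (U \ W) a z := by
  classical
  by_contra hne
  push Not at hne
  obtain ⟨a, ha, b, hb, hab⟩ := hW
  -- the reached part
  have hR : ∀ a ∈ A, ∀ v, JN G' (U \ W) a v → JN G' (U \ Z) a v := by
    intro a ha v hv
    obtain ⟨k, T, hT, h⟩ := hv
    refine ⟨k, T, ?_, h⟩
    intro w hw
    rw [Finset.mem_sdiff]
    refine ⟨(Finset.mem_sdiff.1 (hT hw)).1, fun hwZ => ?_⟩
    exact hne a ha w (Finset.mem_insert_of_mem hwZ) ((h.jn_left hw).mono hT)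
  set R : Finset V := (U \ W).filter (fun v => ∃ a ∈ A, JN G' (U \ W) a v) with hRdef
  have h1 : b ∈ R := by
    refine JN.closed hab R ?_ ?_
    · exact Finset.mem_filter.2 ⟨hab.left_mem, a, ha, JN.refl hab.left_mem⟩
    · intro u hu v hv e
      obtain ⟨hu1, a', ha', hu2⟩ := Finset.mem_filter.1 hu
      by_cases e' : G'.Adj u v
      · exact Finset.mem_filter.2 ⟨hv, a', ha', hu2.trans (JN.adj e' hu1 hv)⟩
      · rcases hdiff u v e e' with ⟨rfl, rfl⟩ | ⟨rfl, rfl⟩
        · exact absurd hu2 (hne a' ha' u (Finset.mem_insert_self _ _))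
        · exact absurd (hR a' ha' _ hu2) (hy a' ha')
  obtain ⟨-, a', ha', h2⟩ := Finset.mem_filter.1 h1
  exact hsep a' ha' b hb (hR a' ha' b h2)

theorem DP.mono_graph {H : SimpleGraph V} (hGH : G ≤ H) {n : ℕ} (h : DP G U A B n) : DP H U A B n := by
  obtain ⟨a, b, T, r, h1, h2, h3, h4, h5⟩ := h
  exact ⟨a, b, T, r, fun i => (h1 i).mono_graph hGH, h2, h3, h4, h5⟩

/-- trivial paths -/
theorem DP.trivial {n : ℕ} (h : n ≤ (A ∩ B ∩ U).card) : DP G U A B n := by
  obtain ⟨C, hC, hcard⟩ := Finset.exists_subset_card_eq h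
  let f := (C.equivFinOfCardEq hcard).symm
  have hf : ∀ i, (f i).1 ∈ A ∧ (f i).1 ∈ B ∧ (f i).1 ∈ U := by
    intro i
    have := hC (f i).2
    rw [Finset.mem_inter, Finset.mem_inter] at this
    exact ⟨this.1.1, this.1.2, this.2⟩
  have hinj : ∀ i j, (f i).1 = (f j).1 → i = j := fun i j h => f.injective (Subtype.ext h)
  refine ⟨fun i => (f i).1, fun i => (f i).1, fun i => {(f i).1}, fun _ => false, ?_, ?_, ?_, ?_, ?_⟩
  · intro i
    exact PX.refl G _
  · intro i
    simpa using (hf i).2.2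
  · intro i j hij
    rw [Finset.disjoint_singleton]
    exact fun h => hij (hinj i j h)
  · intro i
    exact Finset.singleton_inter_of_mem (hf i).1
  · intro i
    exact Finset.singleton_inter_of_mem (hf i).2.1

/-- the number of edges inside `U` (twice) -/
noncomputable def ecount (G : SimpleGraph V) (U : Finset V) : ℕ := by
  classical exact ((U ×ˢ U).filter fun p => G.Adj p.1 p.2).card

theorem ecount_lt {G' : SimpleGraph V} (hle : G' ≤ G) (hu : x ∈ U) (hv : y ∈ U) (e : G.Adj x y)
    (e' : ¬ G'.Adj x y) : ecount G' U < ecount G U := by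
  classical
  unfold ecount
  refine Finset.card_lt_card ⟨?_, fun h' => ?_⟩
  · intro p hp
    obtain ⟨h1, h2⟩ := Finset.mem_filter.1 hp
    exact Finset.mem_filter.2 ⟨h1, hle h2⟩
  · have h1 : (x, y) ∈ (U ×ˢ U).filter fun p => G.Adj p.1 p.2 :=
      Finset.mem_filter.2 ⟨Finset.mem_product.2 ⟨hu, hv⟩, e⟩
    exact e' (Finset.mem_filter.1 (h' h1)).2

theorem menger_aux (n : ℕ) : ∀ (G : SimpleGraph V) (A B : Finset V) (k : ℕ), ecount G U = n →
    (∀ Z : Finset V, Z ⊆ U → Z.card < k → ∃ a ∈ A, ∃ b ∈ B, JN G (U \ Z) a b) → DP G U A B k := by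
  classical
  induction n using Nat.strong_induction_on with
  | _ n ih =>
    intro G A B k hn h
    by_cases hk : k ≤ (A ∩ B ∩ U).card
    · exact DP.trivial hk
    -- there is an edge inside `U`
    have hedge : ∃ u v, u ∈ U ∧ v ∈ U ∧ G.Adj u v := by
      obtain ⟨a, ha, b, hb, hab⟩ := h (A ∩ B ∩ U) Finset.inter_subset_right (by omega)
      have hU := hab.left_mem
      have hne : a ≠ b := by
        rintro rfl
        rw [Finset.mem_sdiff, Finset.mem_inter, Finset.mem_inter] at hU
        exact hU.2 ⟨⟨ha, hb⟩, hU.1⟩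
      obtain ⟨u, _, hu, v, hv, _, e⟩ := hab.exists_edge {a} (Finset.mem_singleton_self a)
        (by simpa using hne.symm)
      exact ⟨u, v, (Finset.mem_sdiff.1 hu).1, (Finset.mem_sdiff.1 hv).1, e⟩
    obtain ⟨u, v, hu, hv, e⟩ := hedge
    set G' : SimpleGraph V := G.deleteEdges {s(u, v)} with hG'
    have hle : G' ≤ G := SimpleGraph.deleteEdges_le _
    have hadj : ∀ a b, G'.Adj a b ↔ G.Adj a b ∧ s(a, b) ≠ s(u, v) := by
      intro a b
      rw [hG', SimpleGraph.deleteEdges_adj]
      simp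
    have hlt : ecount G' U < n := by
      rw [← hn]
      exact ecount_lt hle hu hv e (fun h' => ((hadj u v).1 h').2 rfl)
    by_cases hsep : ∀ Z : Finset V, Z ⊆ U → Z.card < k → ∃ a ∈ A, ∃ b ∈ B, JN G' (U \ Z) a b
    · exact (ih _ hlt G' A B k rfl hsep).mono_graph hle
    push Not at hsep
    obtain ⟨Z, hZU, hZk, hsep⟩ := hsep
    -- the edge leaving the reached part
    have hxy : ∃ x y, x ∈ U \ Z ∧ y ∈ U \ Z ∧ G.Adj x y ∧ (∃ a ∈ A, JN G' (U \ Z) a x) ∧
        (∀ a ∈ A, ¬ JN G' (U \ Z) a y) ∧ s(x, y) = s(u, v) := by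
      obtain ⟨a, ha, b, hb, hab⟩ := h Z hZU hZk
      obtain ⟨x, hxR, hx, y, hy, hyR, e'⟩ := hab.exists_edge
        ((U \ Z).filter fun w => ∃ a ∈ A, JN G' (U \ Z) a w)
        (Finset.mem_filter.2 ⟨hab.left_mem, a, ha, JN.refl hab.left_mem⟩)
        (fun h' => by
          obtain ⟨-, a', ha', h''⟩ := Finset.mem_filter.1 h'
          exact hsep a' ha' b hb h'')
      obtain ⟨-, a', ha', hax⟩ := Finset.mem_filter.1 hxR
      have hnot : ∀ a ∈ A, ¬ JN G' (U \ Z) a y := fun a ha h' =>
        hyR (Finset.mem_filter.2 ⟨hy, a, ha, h'⟩)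
      refine ⟨x, y, hx, hy, e', ⟨a', ha', hax⟩, hnot, ?_⟩
      by_contra hne
      exact hnot a' ha' (hax.trans (JN.adj ((hadj x y).2 ⟨e', hne⟩) hx hy))
    obtain ⟨x, y, hx, hy, exy, ⟨a₀, ha₀, hax⟩, hay, hs⟩ := hxy
    have hdiff : ∀ u' v', G.Adj u' v' → ¬ G'.Adj u' v' → (u' = x ∧ v' = y) ∨ (u' = y ∧ v' = x) := by
      intro u' v' h1 h2
      rw [hadj] at h2
      push Not at h2
      have h3 := h2 h1
      rw [← hs] at h3
      exact Sym2.eq_iff.1 h3
    have hbx : ∀ b ∈ B, ¬ JN G' (U \ Z) b x := fun b hb h' => hsep a₀ ha₀ b hb (hax.trans h'.symm)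
    have hxZ := (Finset.mem_sdiff.1 hx).2
    have hyZ := (Finset.mem_sdiff.1 hy).2
    have hxU := (Finset.mem_sdiff.1 hx).1
    have hyU := (Finset.mem_sdiff.1 hy).1
    -- the two systems
    obtain ⟨p, q, P, r, h1, h2, h3, h4, h5⟩ := ih _ hlt G' A (insert x Z) k rfl (by
      intro W hWU hWk
      exact menger_key hdiff hsep hay (h W hWU hWk))
    obtain ⟨p', q', Q, r', g1, g2, g3, g4, g5⟩ := ih _ hlt G' (insert y Z) B k rfl (by
      intro W hWU hWk
      obtain ⟨b, hb, z, hz, h'⟩ := menger_key (G := G) (A := B) (B := A) (x := y) (y := x) (Z := Z) (W := W)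
        (fun u v e1 e2 => (hdiff u v e1 e2).symm) (fun b hb a ha h' => hsep a ha b hb h'.symm) hbx
        (by
          obtain ⟨a, ha, b, hb, h'⟩ := h W hWU hWk
          exact ⟨b, hb, a, ha, h'.symm⟩)
      exact ⟨z, hz, b, hb, h'.symm⟩)
    have hqZ : ∀ i, q i ∈ insert x Z := fun i => by
      have : q i ∈ P i ∩ insert x Z := by rw [h5]; simp
      exact (Finset.mem_inter.1 this).2
    have hpZ : ∀ i, p' i ∈ insert y Z := fun i => by
      have : p' i ∈ Q i ∩ insert y Z := by rw [g4]; simp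
      exact (Finset.mem_inter.1 this).2
    have hpA : ∀ i, p i ∈ A := fun i => by
      have : p i ∈ P i ∩ A := by rw [h4]; simp
      exact (Finset.mem_inter.1 this).2
    have hqB : ∀ i, q' i ∈ B := fun i => by
      have : q' i ∈ Q i ∩ B := by rw [g5]; simp
      exact (Finset.mem_inter.1 this).2
    have hqinj : Function.Injective q := by
      intro i j hij
      by_contra hne
      exact Finset.disjoint_left.1 (h3 i j hne) (h1 i).right_mem (by rw [hij]; exact (h1 j).right_mem)
    have hpinj : Function.Injective p' := by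
      intro i j hij
      by_contra hne
      exact Finset.disjoint_left.1 (g3 i j hne) (g1 i).left_mem (by rw [hij]; exact (g1 j).left_mem)
    have hsurj : ∀ z ∈ insert y Z, ∃ i, p' i = z := by
      intro z hz
      have h6 : Finset.univ.image p' = insert y Z := by
        apply Finset.eq_of_subset_of_card_le
        · intro w hw
          obtain ⟨i, -, rfl⟩ := Finset.mem_image.1 hw
          exact hpZ i
        · rw [Finset.card_image_of_injective _ hpinj, Finset.card_insert_of_notMem hyZ]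
          simp
          omega
      rw [← h6] at hz
      obtain ⟨i, -, hi⟩ := Finset.mem_image.1 hz
      exact ⟨i, hi⟩
    -- the matching
    have hσ : ∀ i, ∃ j, p' j = if q i = x then y else q i := by
      intro i
      apply hsurj
      split_ifs with h6
      · exact Finset.mem_insert_self _ _
      · exact Finset.mem_insert_of_mem (Finset.mem_of_mem_insert_of_ne (hqZ i) h6)
    choose σ hσ using hσ
    have hσinj : ∀ i j, σ i = σ j → i = j := by
      intro i j hij
      have h6 := hσ i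
      rw [hij, hσ j] at h6
      apply hqinj
      split_ifs at h6 with h7 h8 h8
      · rw [h7, h8]
      · have := Finset.mem_of_mem_insert_of_ne (hqZ i) h8
        rw [← h6] at this
        exact absurd this hyZ
      · have := Finset.mem_of_mem_insert_of_ne (hqZ j) h7
        rw [h6] at this
        exact absurd this hyZ
      · exact h6.symm
    -- vertices on the two sides
    have hleft : ∀ i, ∀ w ∈ P i, w ∉ Z → JN G' (U \ Z) (p i) w := by
      intro i w hw hwZ
      obtain ⟨T₁, T₂, k₁, k₂, f1, f2, f3, f4, f5⟩ := (h1 i).cut hw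
      have hT1 : T₁ ⊆ P i := by rw [← f3]; exact Finset.subset_union_left
      refine ⟨k₁, T₁, ?_, f1⟩
      intro t ht
      rw [Finset.mem_sdiff]
      refine ⟨h2 i (hT1 ht), fun htZ => ?_⟩
      have h6 : t ∈ P i ∩ insert x Z := Finset.mem_inter.2 ⟨hT1 ht, Finset.mem_insert_of_mem htZ⟩
      rw [h5, Finset.mem_singleton] at h6
      have h7 : t ∈ T₁ ∩ T₂ := Finset.mem_inter.2 ⟨ht, by rw [h6]; exact f2.right_mem⟩
      rw [f4, Finset.mem_singleton] at h7
      exact hwZ (h7 ▸ htZ)
    have hright : ∀ i, ∀ w ∈ Q i, w ∉ Z → JN G' (U \ Z) w (q' i) := by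
      intro i w hw hwZ
      obtain ⟨T₁, T₂, k₁, k₂, f1, f2, f3, f4, f5⟩ := (g1 i).cut hw
      have hT2 : T₂ ⊆ Q i := by rw [← f3]; exact Finset.subset_union_right
      refine ⟨k₂, T₂, ?_, f2⟩
      intro t ht
      rw [Finset.mem_sdiff]
      refine ⟨g2 i (hT2 ht), fun htZ => ?_⟩
      have h6 : t ∈ Q i ∩ insert y Z := Finset.mem_inter.2 ⟨hT2 ht, Finset.mem_insert_of_mem htZ⟩
      rw [g4, Finset.mem_singleton] at h6
      have h7 : t ∈ T₁ ∩ T₂ := Finset.mem_inter.2 ⟨by rw [h6]; exact f1.left_mem, ht⟩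
      rw [f4, Finset.mem_singleton] at h7
      exact hwZ (h7 ▸ htZ)
    -- the two systems meet only in `Z`
    have hmeet : ∀ i j, ∀ w ∈ P i, w ∈ Q j → w ∈ Z ∧ w = q i ∧ w = p' j := by
      intro i j w hw hw'
      have hwZ : w ∈ Z := by
        by_contra hwZ
        exact hsep (p i) (hpA i) (q' j) (hqB j) ((hleft i w hw hwZ).trans (hright j w hw' hwZ))
      refine ⟨hwZ, ?_, ?_⟩
      · have h6 : w ∈ P i ∩ insert x Z := Finset.mem_inter.2 ⟨hw, Finset.mem_insert_of_mem hwZ⟩
        rwa [h5, Finset.mem_singleton] at h6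
      · have h6 : w ∈ Q j ∩ insert y Z := Finset.mem_inter.2 ⟨hw', Finset.mem_insert_of_mem hwZ⟩
        rwa [g4, Finset.mem_singleton] at h6
    have hmeet' : ∀ i j, ∀ w ∈ P i, w ∈ Q (σ j) → i = j ∧ w = q i ∧ w = p' (σ j) := by
      intro i j w hw hw'
      obtain ⟨hwZ, h6, h7⟩ := hmeet i (σ j) w hw hw'
      refine ⟨?_, h6, h7⟩
      have h8 := hσ j
      rw [← h7] at h8
      split_ifs at h8 with h9
      · rw [h8] at hwZ
        exact absurd hwZ hyZ
      · exact hqinj (h6.symm.trans h8)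
    have hnew : ∀ i, ∃ s, PX G (P i ∪ Q (σ i)) (p i) (q' (σ i)) s := by
      intro i
      have h6 := (h1 i).mono_graph hle
      have h7 := (g1 (σ i)).mono_graph hle
      by_cases hqx : q i = x
      · have h8 := hσ i
        rw [if_pos hqx] at h8
        refine ⟨_, h6.concat_disj (by rw [hqx, h8]; exact exy) h7 ?_⟩
        rw [Finset.disjoint_left]
        intro w hw hw'
        obtain ⟨hwZ, h9, h10⟩ := hmeet i (σ i) w hw hw'
        rw [h9, hqx] at hwZ
        exact hxZ hwZ
      · have h8 := hσ i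
        rw [if_neg hqx] at h8
        refine ⟨_, h6.concat (h8 ▸ h7) ?_⟩
        intro w hw hw'
        exact (hmeet i (σ i) w hw hw').2.1
    choose s hs' using hnew
    refine ⟨p, fun i => q' (σ i), fun i => P i ∪ Q (σ i), s, hs', ?_, ?_, ?_, ?_⟩
    · intro i
      exact Finset.union_subset (h2 i) (g2 (σ i))
    · intro i j hij
      rw [Finset.disjoint_left]
      intro w hw hw'
      rcases Finset.mem_union.1 hw with hw | hw <;> rcases Finset.mem_union.1 hw' with hw' | hw'
      · exact Finset.disjoint_left.1 (h3 i j hij) hw hw'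
      · exact hij (hmeet' i j w hw hw').1
      · exact hij (hmeet' j i w hw' hw).1.symm
      · exact Finset.disjoint_left.1 (g3 (σ i) (σ j) (fun h' => hij (hσinj i j h'))) hw hw'
    · intro i
      ext w
      rw [Finset.mem_inter, Finset.mem_union, Finset.mem_singleton]
      constructor
      · rintro ⟨hw | hw, hwA⟩
        · have : w ∈ P i ∩ A := Finset.mem_inter.2 ⟨hw, hwA⟩
          rwa [h4, Finset.mem_singleton] at this
        · -- `w ∈ A` on the right side
          have hwU : w ∈ U := g2 _ hw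
          have hwZ : w ∈ Z := by
            by_contra hwZ
            exact hsep w hwA (q' (σ i)) (hqB _) (hright (σ i) w hw hwZ)
          have h6 : w ∈ Q (σ i) ∩ insert y Z := Finset.mem_inter.2 ⟨hw, Finset.mem_insert_of_mem hwZ⟩
          rw [g4, Finset.mem_singleton] at h6
          have h7 := hσ i
          rw [← h6] at h7
          split_ifs at h7 with h8
          · rw [h7] at hwZ
            exact absurd hwZ hyZ
          · have h9 : w ∈ P i ∩ A := Finset.mem_inter.2 ⟨by rw [h7]; exact (h1 i).right_mem, hwA⟩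
            rwa [h4, Finset.mem_singleton] at h9
      · rintro rfl
        exact ⟨Or.inl (h1 i).left_mem, hpA i⟩
    · intro i
      ext w
      rw [Finset.mem_inter, Finset.mem_union, Finset.mem_singleton]
      constructor
      · rintro ⟨hw | hw, hwB⟩
        · have hwZ : w ∈ Z := by
            by_contra hwZ
            exact hsep (p i) (hpA i) w hwB (hleft i w hw hwZ)
          have h6 : w ∈ P i ∩ insert x Z := Finset.mem_inter.2 ⟨hw, Finset.mem_insert_of_mem hwZ⟩
          rw [h5, Finset.mem_singleton] at h6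
          have h7 := hσ i
          have h8 : q i ≠ x := by
            rw [← h6]
            rintro rfl
            exact hxZ hwZ
          rw [if_neg h8, ← h6] at h7
          have h9 : w ∈ Q (σ i) ∩ B := Finset.mem_inter.2 ⟨by rw [← h7]; exact (g1 _).left_mem, hwB⟩
          rwa [g5, Finset.mem_singleton] at h9
        · have : w ∈ Q (σ i) ∩ B := Finset.mem_inter.2 ⟨hw, hwB⟩
          rwa [g5, Finset.mem_singleton] at this
      · rintro rfl
        exact ⟨Or.inr (g1 _).right_mem, hqB _⟩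

/-- Menger's theorem: `k` disjoint `A`-`B`-paths inside `U` -/
theorem menger (U A B : Finset V) (k : ℕ)
    (h : ∀ Z : Finset V, Z ⊆ U → Z.card < k → ∃ a ∈ A, ∃ b ∈ B, JN G (U \ Z) a b) : DP G U A B k :=
  menger_aux _ G A B k rfl h

/-- `k` paths from `a` to different vertices of `B`, meeting only in `a` -/
theorem fan (U B : Finset V) (a : V) (haB : a ∉ B) (k : ℕ)
    (h : ∀ Z : Finset V, Z ⊆ U → a ∉ Z → Z.card < k → ∃ b ∈ B, JN G (U \ Z) a b) :
    ∃ (b : Fin k → V) (T : Fin k → Finset V) (r : Fin k → Bool), (∀ i, PX G (T i) a (b i) (r i)) ∧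
      (∀ i, T i ⊆ U) ∧ (∀ i j, i ≠ j → T i ∩ T j = {a}) ∧ (∀ i, T i ∩ B = {b i}) := by
  classical
  obtain ⟨p, q, T, r, h1, h2, h3, h4, h5⟩ := menger (G := G) (U.erase a) (U.filter fun w => G.Adj a w) B k (by
    intro Z hZ hZk
    have haZ : a ∉ Z := fun h' => (Finset.mem_erase.1 (hZ h')).1 rfl
    obtain ⟨b, hb, r, T, hT, hab⟩ := h Z (hZ.trans (Finset.erase_subset _ _)) haZ hZk
    have hne : a ≠ b := by
      rintro rfl
      exact haB hb
    obtain ⟨w, T', e, h6, h7, h8⟩ := hab.uncons hne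
    have hT' : T' ⊆ T := by rw [h7]; exact Finset.subset_insert _ _
    refine ⟨w, ?_, b, hb, _, T', ?_, h6⟩
    · exact Finset.mem_filter.2 ⟨(Finset.mem_sdiff.1 (hT (hT' h6.left_mem))).1, e⟩
    · intro t ht
      have := Finset.mem_sdiff.1 (hT (hT' ht))
      refine Finset.mem_sdiff.2 ⟨Finset.mem_erase.2 ⟨?_, this.1⟩, this.2⟩
      rintro rfl
      exact h8 ht)
  have ha : ∀ i, a ∉ T i := fun i h' => (Finset.mem_erase.1 (h2 i h')).1 rfl
  have hadj : ∀ i, G.Adj a (p i) := by
    intro i
    have : p i ∈ T i ∩ U.filter fun w => G.Adj a w := by rw [h4]; simp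
    exact (Finset.mem_filter.1 (Finset.mem_inter.1 this).2).2
  rcases Nat.eq_zero_or_pos k with rfl | hk
  · exact ⟨fun i => i.elim0, fun i => i.elim0, fun i => i.elim0, fun i => i.elim0, fun i => i.elim0,
      fun i => i.elim0, fun i => i.elim0⟩
  have haU : a ∈ U := by
    obtain ⟨b, hb, h6⟩ := h ∅ (Finset.empty_subset _) (by simp) (by simpa using hk)
    simpa using h6.left_mem
  refine ⟨q, fun i => insert a (T i), fun i => !(r i), fun i => (h1 i).cons (hadj i) (ha i), ?_, ?_, ?_⟩
  · intro i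
    exact Finset.insert_subset haU ((h2 i).trans (Finset.erase_subset _ _))
  · intro i j hij
    rw [← Finset.insert_inter_distrib, Finset.disjoint_iff_inter_eq_empty.1 (h3 i j hij)]
    rfl
  · intro i
    rw [Finset.insert_inter_of_notMem haB, h5]

end Pool.Agent.TOKSN
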