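import Mathlib
import Pool.Agent.TOKSN.Menger

/-!
# LINE N: 4-connected graphs
-/

set_option autoImplicit false
set_option linter.unusedSectionVars false

namespace Pool.Agent.TOKSN

open Pool.Agent.TOKST (HasTOKS)
open Pool.Agent.TOKSP (nbh mem_nbh four_le_nbh)

variable {V : Type} [DecidableEq V] {G : SimpleGraph V} {S T T₁ T₂ U A B D : Finset V} {a b c d x y : V} {k l : Bool}

section Fin
variable [Fintype V]

/-- the hypotheses of the frozen statement -/
theorem fc_of_frozen (h4 : ∀ S : Finset V, S.card ≤ 3 → (G.induce ((↑S : Set V)ᶜ)).Connected) : FC G :=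
  fun _ hX ⟨_, hw1, hw2⟩ => four_le_nbh G h4 hX hw1 hw2

theorem mem_bd {X : Finset V} {x : V} : x ∈ bd G X ↔ x ∈ X ∧ ∃ y, y ∉ X ∧ G.Adj x y := by
  classical
  unfold bd
  simp

theorem FC.conn_compl (h : FC G) (hn : 5 ≤ Fintype.card V) (hS : S.card ≤ 3) : Conn G Sᶜ := by
  classical
  refine ⟨?_, ?_⟩
  · rw [← Finset.card_pos, Finset.card_compl]
    omega
  · intro a ha b hb
    by_contra hcon
    have hX : (cmp G Sᶜ a).Nonempty := ⟨a, mem_cmp.2 ⟨ha, JN.refl ha⟩⟩
    have hsub : nbh G (cmp G Sᶜ a) ⊆ S := by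
      intro z hz
      rw [mem_nbh] at hz
      obtain ⟨h1, x, hx, e⟩ := hz
      by_contra hzS
      exact h1 (cmp_closed hx (Finset.mem_compl.2 hzS) e)
    have hbX : b ∉ cmp G Sᶜ a := fun hb' => hcon (mem_cmp.1 hb').2
    have hbN : b ∉ nbh G (cmp G Sᶜ a) := fun hb' => (Finset.mem_compl.1 hb) (hsub hb')
    have h1 := h _ hX ⟨b, hbX, hbN⟩
    have h2 := Finset.card_le_card hsub
    omega

/-- in a 4-connected graph: four disjoint paths between sets with at least 4 elements -/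
theorem FC.four (h : FC G) (hn : 5 ≤ Fintype.card V) (k : ℕ) (hk : k ≤ 4) (hA : k ≤ A.card) (hB : k ≤ B.card) :
    DP G Finset.univ A B k := by
  refine menger Finset.univ A B k fun Z _ hcard => ?_
  have hex : ∀ X : Finset V, k ≤ X.card → ∃ x ∈ X, x ∉ Z := by
    intro X hX
    have : (X \ Z).Nonempty := by
      rw [← Finset.card_pos]
      have := Finset.le_card_sdiff Z X
      omega
    obtain ⟨x, hx⟩ := this
    exact ⟨x, (Finset.mem_sdiff.1 hx).1, (Finset.mem_sdiff.1 hx).2⟩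
  obtain ⟨a, haA, ha⟩ := hex A hA
  obtain ⟨b, hbB, hb⟩ := hex B hB
  have hc := h.conn_compl hn (S := Z) (by omega)
  rw [← Finset.compl_eq_univ_sdiff]
  exact ⟨a, haA, b, hbB, hc.2 a (Finset.mem_compl.2 ha) b (Finset.mem_compl.2 hb)⟩

end Fin

end Pool.Agent.TOKSN
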