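import Mathlib
import Pool.Agent.TOKSN.Cyc
import Pool.Agent.TOKSN.Menger

/-!
# LINE N: two disjoint paths, fans and both parities in a hub
-/

set_option autoImplicit false
set_option linter.unusedSectionVars false

namespace Pool.Agent.TOKSN

open Pool.Agent.TOKST (HasTOKS)
open Pool.Agent.TOKSP (nbh mem_nbh four_le_nbh)

variable {V : Type} [DecidableEq V] {G : SimpleGraph V} {S T T₁ T₂ U A B D : Finset V} {a b c d x y : V} {k l : Bool}

/-- a hub stays connected after the deletion of at most one vertex -/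
theorem Hub.conn_sdiff (h : Hub G D) {Z : Finset V} (hZ : Z.card < 2) : Conn G (D \ Z) := by
  rcases Nat.lt_succ_iff.1 hZ |> Nat.le_one_iff_eq_zero_or_eq_one.1 with h0 | h1
  · rw [Finset.card_eq_zero] at h0
    subst h0
    rw [Finset.sdiff_empty]
    exact h.conn
  · rw [Finset.card_eq_one] at h1
    obtain ⟨z, rfl⟩ := h1
    rw [Finset.sdiff_singleton_eq_erase]
    exact h.del z

/-- in a hub: two disjoint paths between sets with at least two elements each -/
theorem Hub.two (h : Hub G D) (hA : 2 ≤ (A ∩ D).card) (hB : 2 ≤ (B ∩ D).card) : DP G D A B 2 := by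
  refine menger D A B 2 fun Z hZ hcard => ?_
  have hex : ∀ X : Finset V, 2 ≤ (X ∩ D).card → ∃ x ∈ X, x ∈ D \ Z := by
    intro X hX
    have : ((X ∩ D) \ Z).Nonempty := by
      rw [← Finset.card_pos]
      have := Finset.le_card_sdiff Z (X ∩ D)
      omega
    obtain ⟨x, hx⟩ := this
    rw [Finset.mem_sdiff, Finset.mem_inter] at hx
    exact ⟨x, hx.1.1, Finset.mem_sdiff.2 ⟨hx.1.2, hx.2⟩⟩
  obtain ⟨a, haA, ha⟩ := hex A hA
  obtain ⟨b, hbB, hb⟩ := hex B hB
  exact ⟨a, haA, b, hbB, (h.conn_sdiff hcard).2 a ha b hb⟩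

/-- fan: from a vertex to a set -/
theorem Hub.fan (h : Hub G D) (ha : a ∈ D) (haB : a ∉ B) (hB : 2 ≤ (B ∩ D).card) :
    ∃ x y T₁ T₂ k₁ k₂, x ≠ y ∧ x ∈ B ∧ y ∈ B ∧ PX G T₁ a x k₁ ∧ PX G T₂ a y k₂ ∧ T₁ ⊆ D ∧ T₂ ⊆ D ∧
      T₁ ∩ T₂ = {a} ∧ T₁ ∩ B = {x} ∧ T₂ ∩ B = {y} := by
  classical
  set N : Finset V := D.filter (fun z => G.Adj a z) with hN
  have hDP : DP G (D.erase a) N B 2 := by
    refine menger (D.erase a) N B 2 fun Z hZ hcard => ?_
    have hne : ((B ∩ D) \ Z).Nonempty := by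
      rw [← Finset.card_pos]
      have := Finset.le_card_sdiff Z (B ∩ D)
      omega
    obtain ⟨b, hb⟩ := hne
    rw [Finset.mem_sdiff, Finset.mem_inter] at hb
    have haZ : a ∉ Z := fun h => (Finset.mem_erase.1 (hZ h)).1 rfl
    have hab : a ≠ b := fun h => haB (h ▸ hb.1.1)
    obtain ⟨k, T, hT, hPX⟩ := (h.conn_sdiff hcard).2 a (Finset.mem_sdiff.2 ⟨ha, haZ⟩) b
      (Finset.mem_sdiff.2 ⟨hb.1.2, hb.2⟩)
    obtain ⟨c, T', e, hT', hTT, haT'⟩ := hPX.uncons hab
    have hsub : T' ⊆ D \ Z := by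
      intro z hz
      exact hT (hTT.symm ▸ Finset.mem_insert_of_mem hz)
    have hsub' : T' ⊆ D.erase a \ Z := by
      intro z hz
      have := Finset.mem_sdiff.1 (hsub hz)
      refine Finset.mem_sdiff.2 ⟨Finset.mem_erase.2 ⟨?_, this.1⟩, this.2⟩
      rintro rfl
      exact haT' hz
    refine ⟨c, ?_, b, hb.1.1, !k, T', hsub', hT'⟩
    rw [hN, Finset.mem_filter]
    exact ⟨(Finset.mem_sdiff.1 (hsub hT'.left_mem)).1, e⟩
  obtain ⟨s, t, T, r, hT, hTU, hdis, hTA, hTB⟩ := hDP
  have haT : ∀ i, a ∉ T i := fun i hi => (Finset.mem_erase.1 (hTU i hi)).1 rfl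
  have hadj : ∀ i, G.Adj a (s i) := by
    intro i
    have : s i ∈ T i ∩ N := by rw [hTA]; exact Finset.mem_singleton_self _
    rw [Finset.mem_inter, hN, Finset.mem_filter] at this
    exact this.2.2
  have htB : ∀ i, t i ∈ B := by
    intro i
    have : t i ∈ T i ∩ B := by rw [hTB]; exact Finset.mem_singleton_self _
    exact (Finset.mem_inter.1 this).2
  have hsubD : ∀ i, insert a (T i) ⊆ D := fun i =>
    Finset.insert_subset ha ((hTU i).trans (Finset.erase_subset _ _))
  have hiB : ∀ i, insert a (T i) ∩ B = {t i} := by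
    intro i
    rw [Finset.insert_inter_of_notMem haB, hTB]
  refine ⟨t 0, t 1, insert a (T 0), insert a (T 1), !(r 0), !(r 1), ?_, htB 0, htB 1,
    PX.cons (hadj 0) (hT 0) (haT 0), PX.cons (hadj 1) (hT 1) (haT 1), hsubD 0, hsubD 1, ?_, hiB 0, hiB 1⟩
  · intro h
    have h1 : t 0 ∈ T 0 := (hT 0).right_mem
    have h2 : t 0 ∈ T 1 := h ▸ (hT 1).right_mem
    exact Finset.disjoint_left.1 (hdis 0 1 (by decide)) h1 h2
  · rw [← Finset.insert_inter_distrib, Finset.disjoint_iff_inter_eq_empty.1 (hdis 0 1 (by decide))]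
    rfl

/-- (P) both parities -/
theorem Hub.par (h : Hub G D) (ha : a ∈ D) (hb : b ∈ D) (hab : a ≠ b) (k : Bool) : PI G D a b k := by
  obtain ⟨C, hCD, hC⟩ := exists_oddCyc h.nbip
  have h1 : 2 ≤ (({a, b} : Finset V) ∩ D).card := by
    rw [Finset.inter_eq_left.2 (by
      intro z hz
      rw [Finset.mem_insert, Finset.mem_singleton] at hz
      rcases hz with rfl | rfl
      · exact ha
      · exact hb), Finset.card_pair hab]
  have h2 : 2 ≤ (C ∩ D).card := by
    rw [Finset.inter_eq_left.2 hCD]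
    have := hC.card_le
    omega
  obtain ⟨s, t, T, r, hT, hTU, hdis, hTA, hTB⟩ := h.two h1 h2
  have hs : ∀ i, s i = a ∨ s i = b := by
    intro i
    have : s i ∈ T i ∩ {a, b} := by rw [hTA]; exact Finset.mem_singleton_self _
    rw [Finset.mem_inter, Finset.mem_insert, Finset.mem_singleton] at this
    exact this.2
  have htC : ∀ i, t i ∈ C := by
    intro i
    have : t i ∈ T i ∩ C := by rw [hTB]; exact Finset.mem_singleton_self _
    exact (Finset.mem_inter.1 this).2
  have hd01 : Disjoint (T 0) (T 1) := hdis 0 1 (by decide)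
  have hs01 : s 0 ≠ s 1 := by
    intro h
    exact Finset.disjoint_left.1 hd01 (hT 0).left_mem (h ▸ (hT 1).left_mem)
  have ht01 : t 0 ≠ t 1 := by
    intro h
    exact Finset.disjoint_left.1 hd01 (hT 0).right_mem (h ▸ (hT 1).right_mem)
  have key : ∀ k', PI G D (s 0) (s 1) k' := by
    intro k'
    obtain ⟨T₁, T₂, j, g₁, g₂, gU, gI⟩ := hC.arcs (htC 0) (htC 1) ht01
    have aux : ∀ (W : Finset V) (m : Bool), W ⊆ C → PX G W (t 0) (t 1) m →
        PI G D (s 0) (s 1) (r 0 ^^ (m ^^ r 1)) := by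
      intro W m hW hP
      have e1 : PX G (W ∪ T 1) (t 0) (s 1) (m ^^ r 1) := by
        refine hP.concat (hT 1).symm fun v hv hv' => ?_
        have : v ∈ T 1 ∩ C := Finset.mem_inter.2 ⟨hv', hW hv⟩
        rwa [hTB, Finset.mem_singleton] at this
      have e2 : PX G (T 0 ∪ (W ∪ T 1)) (s 0) (s 1) (r 0 ^^ (m ^^ r 1)) := by
        refine (hT 0).concat e1 fun v hv hv' => ?_
        rw [Finset.mem_union] at hv'
        rcases hv' with hv' | hv'
        · have : v ∈ T 0 ∩ C := Finset.mem_inter.2 ⟨hv, hW hv'⟩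
          rwa [hTB, Finset.mem_singleton] at this
        · exact absurd hv' (Finset.disjoint_left.1 hd01 hv)
      exact ⟨_, Finset.union_subset (hTU 0) (Finset.union_subset (hW.trans hCD) (hTU 1)), e2⟩
    have a1 := aux T₁ j (gU ▸ Finset.subset_union_left) g₁
    have a2 := aux T₂ (!j) (gU ▸ Finset.subset_union_right) g₂
    by_cases hk' : k' = (r 0 ^^ (j ^^ r 1))
    · rw [hk']
      exact a1
    · have : k' = (r 0 ^^ (!j ^^ r 1)) := by
        clear a1 a2 g₁ g₂
        generalize r 0 = r0 at hk' ⊢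
        generalize r 1 = r1 at hk' ⊢
        cases k' <;> cases j <;> cases r0 <;> cases r1 <;> simp_all
      rw [this]
      exact a2
  rcases hs 0 with h0 | h0 <;> rcases hs 1 with h1' | h1'
  · exact absurd (h0.trans h1'.symm) hs01
  · have := key k
    rwa [h0, h1'] at this
  · have := (key k).symm
    rwa [h0, h1'] at this
  · exact absurd (h0.trans h1'.symm) hs01

end Pool.Agent.TOKSN
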