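import Mathlib
import Pool.Agent.TOKSN.Paths

/-!
# LINE N: labels, complements of components, filling a connected set
-/

set_option autoImplicit false
set_option linter.unusedSectionVars false

namespace Pool.Agent.TOKSN

open Pool.Agent.TOKSP (nbh mem_nbh four_le_nbh)

variable {V : Type} [DecidableEq V] {G : SimpleGraph V} {P S T A B D X Y K : Finset V} {a b c d x y z v w : V}

/-- the elements of `D` with a neighbour in `S` -/
noncomputable def lab (G : SimpleGraph V) (D S : Finset V) : Finset V := by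
  classical exact D.filter (fun d => ∃ s ∈ S, G.Adj s d)

theorem mem_lab : x ∈ lab G D S ↔ x ∈ D ∧ ∃ s ∈ S, G.Adj s x := by
  classical
  unfold lab
  simp

theorem lab_union : lab G D (S ∪ T) = lab G D S ∪ lab G D T := by
  ext x
  simp only [mem_lab, Finset.mem_union]
  constructor
  · rintro ⟨h, s, hs | hs, e⟩
    · exact Or.inl ⟨h, s, hs, e⟩
    · exact Or.inr ⟨h, s, hs, e⟩
  · rintro (⟨h, s, hs, e⟩ | ⟨h, s, hs, e⟩)
    · exact ⟨h, s, Or.inl hs, e⟩
    · exact ⟨h, s, Or.inr hs, e⟩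

theorem lab_mono (h : S ⊆ T) : lab G D S ⊆ lab G D T := by
  intro x hx
  obtain ⟨h1, s, hs, e⟩ := mem_lab.1 hx
  exact mem_lab.2 ⟨h1, s, h hs, e⟩

theorem lab_sub : lab G D S ⊆ D := fun _ h => (mem_lab.1 h).1

theorem nbh_inter [Fintype V] (h : Disjoint S D) : nbh G S ∩ D = lab G D S := by
  ext x
  rw [Finset.mem_inter, mem_nbh, mem_lab]
  constructor
  · rintro ⟨⟨-, h1⟩, h2⟩
    exact ⟨h2, h1⟩
  · rintro ⟨h1, h2⟩
    exact ⟨⟨fun h3 => Finset.disjoint_left.1 h h3 h1, h2⟩, h1⟩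

/-- the complement of a component of `P \ X` in `P` is connected -/
theorem Conn.compl_cmp (hP : Conn G P) (hX : Conn G X) (hXP : X ⊆ P) :
    Conn G (P \ cmp G (P \ X) x) := by
  obtain ⟨x0, hx0⟩ := hX.1
  have hXK : ∀ z ∈ X, z ∉ cmp G (P \ X) x := fun z hz h' => (Finset.mem_sdiff.1 (cmp_sub h')).2 hz
  have hsub : X ⊆ P \ cmp G (P \ X) x := fun z hz => Finset.mem_sdiff.2 ⟨hXP hz, hXK z hz⟩
  refine Conn.of_center (hsub hx0) ?_
  intro y hy
  obtain ⟨hyP, hyK⟩ := Finset.mem_sdiff.1 hy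
  by_cases hyX : y ∈ X
  · exact hX.jn hsub hx0 hyX
  · have hyPX : y ∈ P \ X := Finset.mem_sdiff.2 ⟨hyP, hyX⟩
    have hd := cmp_disj hyK
    have hK : cmp G (P \ X) y ⊆ P \ cmp G (P \ X) x := fun z hz =>
      Finset.mem_sdiff.2 ⟨(Finset.mem_sdiff.1 (cmp_sub hz)).1, fun h' => Finset.disjoint_left.1 hd h' hz⟩
    obtain ⟨u, hu, -, w, hw, hwK, e⟩ := hP.exists_edge (cmp G (P \ X) y) hyP (mem_cmp_self hyPX)
      (hXP hx0) (fun h' => (Finset.mem_sdiff.1 (cmp_sub h')).2 hx0)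
    have hwX : w ∈ X := by
      by_contra hwX
      exact hwK (cmp_closed hu (Finset.mem_sdiff.2 ⟨hw, hwX⟩) e)
    exact ((hX.jn hsub hx0 hwX).trans (JN.adj e.symm (hsub hwX) (hK hu))).trans
      ((cmp_conn hyPX).jn hK hu (mem_cmp_self hyPX))

/-- two disjoint connected subsets of a connected set extend to a partition into two connected sets -/
theorem Conn.fill (hP : Conn G P) (hX : Conn G X) (hY : Conn G Y) (hXP : X ⊆ P) (hYP : Y ⊆ P)
    (hd : Disjoint X Y) : ∃ A B, X ⊆ A ∧ Y ⊆ B ∧ Conn G A ∧ Conn G B ∧ Disjoint A B ∧ A ∪ B = P := by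
  obtain ⟨x, hx⟩ := hX.1
  have hXY : X ⊆ P \ Y := fun z hz => Finset.mem_sdiff.2 ⟨hXP hz, Finset.disjoint_left.1 hd hz⟩
  have hcP : cmp G (P \ Y) x ⊆ P := cmp_sub.trans Finset.sdiff_subset
  refine ⟨cmp G (P \ Y) x, P \ cmp G (P \ Y) x, hX.sub_cmp hXY hx, ?_, cmp_conn (hXY hx),
    hP.compl_cmp hY hYP, Finset.disjoint_sdiff, Finset.union_sdiff_of_subset hcP⟩
  intro z hz
  exact Finset.mem_sdiff.2 ⟨hYP hz, fun h' => (Finset.mem_sdiff.1 (cmp_sub h')).2 hz⟩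

end Pool.Agent.TOKSN
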