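import Mathlib
import Pool.Agent.TOKSN.Paths

/-!
# LINE N: the TOKS constructor
-/

set_option autoImplicit false
set_option linter.unusedSectionVars false

namespace Pool.Agent.TOKSN

open Pool.Agent.TOKST (HasTOKS)

variable {V : Type} [DecidableEq V] {G : SimpleGraph V}

/-- general form: a function of six sets -/
theorem toks_mk' (a : Fin 4 → V) (T : Fin 4 → Fin 4 → Finset V)
    (hT : ∀ i j, i < j → PX G (T i j) (a i) (a j) true)
    (hd : ∀ i j k l, i < j → k < l → (i, j) ≠ (k, l) → ∀ x ∈ T i j, x ∈ T k l →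
      ∃ m, x = a m ∧ (m = i ∨ m = j) ∧ (m = k ∨ m = l)) : HasTOKS G := by
  classical
  have hinj : Function.Injective a := by
    intro i j hij
    by_contra hne
    rcases lt_or_gt_of_ne hne with h | h
    · exact (hT i j h).ne hij
    · exact (hT j i h).ne hij.symm
  have hP : ∀ i j, ∃ p : G.Walk (a i) (a j), i < j → p.IsPath ∧ p.support.toFinset = T i j ∧ Odd p.length := by
    intro i j
    by_cases h : i < j
    · obtain ⟨p, h1, h2, h3⟩ := hT i j h
      exact ⟨p, fun _ => ⟨h1, h2, h3.2 rfl⟩⟩
    · have : G.Reachable (a i) (a j) := by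
        rcases lt_trichotomy i j with h' | h' | h'
        · exact absurd h' h
        · subst h'
          exact SimpleGraph.Reachable.refl _
        · obtain ⟨p, _⟩ := hT j i h'
          exact ⟨p.reverse⟩
      obtain ⟨p⟩ := this
      exact ⟨p, fun h' => absurd h' h⟩
  choose P hP using hP
  have hmem : ∀ i j, i < j → ∀ x, x ∈ (P i j).support ↔ x ∈ T i j := by
    intro i j h x
    rw [← (hP i j h).2.1]
    simp
  have hb : ∀ i j m, i < j → a m ∈ T i j → m = i ∨ m = j := by
    intro i j m hij hm
    by_contra hne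
    push Not at hne
    obtain ⟨h1, h2⟩ := hne
    -- an index `n` different from `m` such that `{m, n} ≠ {i, j}`; use a path at `m`
    rcases lt_or_gt_of_ne h1 with h3 | h3
    · obtain ⟨m', h4, h5, h6⟩ := hd i j m i hij h3 (by
        intro h
        rw [Prod.mk.injEq] at h
        exact h1 h.1.symm) (a m) hm (hT m i h3).left_mem
      have := hinj h4
      subst this
      exact h5.elim h1 h2
    · obtain ⟨m', h4, h5, h6⟩ := hd i j i m hij h3 (by
        intro h
        rw [Prod.mk.injEq] at h
        exact h2 h.2.symm) (a m) hm (hT i m h3).right_mem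
      have := hinj h4
      subst this
      exact h5.elim h1 h2
  refine ⟨a, P, hinj, fun i j h => ⟨(hP i j h).1, (hP i j h).2.2⟩, ?_, ?_⟩
  · intro i j m hij hm
    exact hb i j m hij ((hmem i j hij _).1 hm)
  · intro i j k l hij hkl hne x hx hx'
    obtain ⟨m, hm, _⟩ := hd i j k l hij hkl hne x ((hmem i j hij _).1 hx) ((hmem k l hkl _).1 hx')
    exact ⟨m, hm⟩

/-- TOKS from four branch vertices and six sets -/
theorem toks_mk {a b c d : V} {Tab Tac Tad Tbc Tbd Tcd : Finset V}
    (hab : PX G Tab a b true) (hac : PX G Tac a c true) (had : PX G Tad a d true)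
    (hbc : PX G Tbc b c true) (hbd : PX G Tbd b d true) (hcd : PX G Tcd c d true)
    (d1 : Disjoint Tab Tcd) (d2 : Disjoint Tac Tbd) (d3 : Disjoint Tad Tbc)
    (a1 : Tab ∩ Tac ⊆ {a}) (a2 : Tab ∩ Tad ⊆ {a}) (a3 : Tac ∩ Tad ⊆ {a})
    (b1 : Tab ∩ Tbc ⊆ {b}) (b2 : Tab ∩ Tbd ⊆ {b}) (b3 : Tbc ∩ Tbd ⊆ {b})
    (c1 : Tac ∩ Tbc ⊆ {c}) (c2 : Tac ∩ Tcd ⊆ {c}) (c3 : Tbc ∩ Tcd ⊆ {c})
    (d4 : Tad ∩ Tbd ⊆ {d}) (d5 : Tad ∩ Tcd ⊆ {d}) (d6 : Tbd ∩ Tcd ⊆ {d}) : HasTOKS G := by
  have key : ∀ {X Y : Finset V} {v : V}, X ∩ Y ⊆ {v} → ∀ x ∈ X, x ∈ Y → x = v := by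
    intro X Y v h x hx hy
    simpa using h (Finset.mem_inter.2 ⟨hx, hy⟩)
  have key' : ∀ {X Y : Finset V}, Disjoint X Y → ∀ x ∈ X, x ∈ Y → False := by
    intro X Y h x hx hy
    exact Finset.disjoint_left.1 h hx hy
  refine toks_mk' ![a, b, c, d] ![![∅, Tab, Tac, Tad], ![∅, ∅, Tbc, Tbd], ![∅, ∅, ∅, Tcd], ![∅, ∅, ∅, ∅]] ?_ ?_
  · intro i j hij
    fin_cases i <;> fin_cases j <;> first | exact absurd hij (by decide) | assumption
  · intro i j k l hij hkl hne x hx hx'
    fin_cases i <;> fin_cases j <;> first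
      | exact absurd hij (by decide)
      | (fin_cases k <;> fin_cases l <;> first
          | exact absurd hkl (by decide)
          | exact absurd rfl hne
          | exact ⟨0, key a1 x hx hx', by decide, by decide⟩
          | exact ⟨0, key a2 x hx hx', by decide, by decide⟩
          | exact ⟨0, key a3 x hx hx', by decide, by decide⟩
          | exact ⟨0, key a1 x hx' hx, by decide, by decide⟩
          | exact ⟨0, key a2 x hx' hx, by decide, by decide⟩
          | exact ⟨0, key a3 x hx' hx, by decide, by decide⟩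
          | exact ⟨1, key b1 x hx hx', by decide, by decide⟩
          | exact ⟨1, key b2 x hx hx', by decide, by decide⟩
          | exact ⟨1, key b3 x hx hx', by decide, by decide⟩
          | exact ⟨1, key b1 x hx' hx, by decide, by decide⟩
          | exact ⟨1, key b2 x hx' hx, by decide, by decide⟩
          | exact ⟨1, key b3 x hx' hx, by decide, by decide⟩
          | exact ⟨2, key c1 x hx hx', by decide, by decide⟩
          | exact ⟨2, key c2 x hx hx', by decide, by decide⟩
          | exact ⟨2, key c3 x hx hx', by decide, by decide⟩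
          | exact ⟨2, key c1 x hx' hx, by decide, by decide⟩
          | exact ⟨2, key c2 x hx' hx, by decide, by decide⟩
          | exact ⟨2, key c3 x hx' hx, by decide, by decide⟩
          | exact ⟨3, key d4 x hx hx', by decide, by decide⟩
          | exact ⟨3, key d5 x hx hx', by decide, by decide⟩
          | exact ⟨3, key d6 x hx hx', by decide, by decide⟩
          | exact ⟨3, key d4 x hx' hx, by decide, by decide⟩
          | exact ⟨3, key d5 x hx' hx, by decide, by decide⟩
          | exact ⟨3, key d6 x hx' hx, by decide, by decide⟩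
          | exact (key' d1 x hx hx').elim
          | exact (key' d2 x hx hx').elim
          | exact (key' d3 x hx hx').elim
          | exact (key' d1 x hx' hx).elim
          | exact (key' d2 x hx' hx).elim
          | exact (key' d3 x hx' hx).elim)

end Pool.Agent.TOKSN
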