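import Mathlib
import Pool.Agent.TOKSN.Toks
import Pool.Agent.TOKSN.Cyc
import Pool.Agent.TOKSN.HubPar
import Pool.Agent.TOKSN.FC
import Pool.Agent.TOKSN.Lab

/-!
# LINE N: the standing assumptions

`Good G`: 4-connected, no TOKS, surplus at least three for independent sets.
`Cov G D D1`: `D` is a smallest member with `chi D ≤ 0`, `D1` a member properly inside `D`, maximal.
-/

set_option autoImplicit false
set_option linter.unusedSectionVars false

namespace Pool.Agent.TOKSN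

open Pool.Agent.TOKST (HasTOKS)
open Pool.Agent.TOKSP (nbh mem_nbh four_le_nbh)

variable {V : Type} [DecidableEq V] [Fintype V]

/-- the standing assumptions on the graph -/
structure Good (G : SimpleGraph V) : Prop where
  fc : FC G
  n5 : 5 ≤ Fintype.card V
  nt : ¬ HasTOKS G
  n3 : ∀ Y : Finset V, Y.Nonempty → (∀ x ∈ Y, ∀ y ∈ Y, ¬ G.Adj x y) → Y.card + 3 ≤ (nbh G Y).card

/-- the frozen hypotheses give `Good` -/
theorem good_of_frozen (G : SimpleGraph V) (hn : 5 ≤ Fintype.card V)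
    (h4 : ∀ S : Finset V, S.card ≤ 3 → (G.induce ((↑S : Set V)ᶜ)).Connected)
    (hodd : ∃ (u v : V) (c : G.Walk u u) (d : G.Walk v v),
      c.IsCycle ∧ d.IsCycle ∧ Odd c.length ∧ Odd d.length ∧ ∀ x, x ∈ c.support → x ∉ d.support)
    (hnt : ¬ HasTOKS G) : Good G := by
  classical
  refine ⟨fc_of_frozen h4, hn, hnt, ?_⟩
  intro Y hY hind
  by_contra hlt
  exact hnt (Pool.Agent.TOKSP.toks_of_surplus_two G hn h4 hodd ⟨Y, hY, hind, by omega⟩)

/-- `D` is a smallest member with nonpositive potential, `D1` a maximal member properly inside `D` -/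
structure Cov (G : SimpleGraph V) (D D1 : Finset V) : Prop where
  good : Good G
  mem0 : Mem G D
  chi0 : chi G D ≤ 0
  min0 : ∀ W, Mem G W → W.card < D.card → 1 ≤ chi G W
  mem1 : Mem G D1
  sub : D1 ⊂ D
  max0 : ∀ W, Mem G W → D1 ⊆ W → W ⊂ D → W = D1

/-- a linkage `x - x' | s - s'` through `I` -/
def Lnk (G : SimpleGraph V) (I : Finset V) (x x' s s' : V) : Prop :=
  ∃ A B : Finset V, A ⊆ I ∧ B ⊆ I ∧ Disjoint A B ∧ Conn G A ∧ Conn G B ∧
    (∃ y ∈ A, G.Adj y x) ∧ (∃ y ∈ A, G.Adj y x') ∧ (∃ y ∈ B, G.Adj y s) ∧ (∃ y ∈ B, G.Adj y s')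

end Pool.Agent.TOKSN
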