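import Mathlib
import Pool.Agent.TOKSN.Toks
import Pool.Agent.TOKSN.Cyc
import Pool.Agent.TOKSN.HubPar

/-!
# Hub triples: tripods, rings, types (I) and (II), the lemma (L0)
(proof/MP_2394d2_co_HT_h55)
-/

set_option autoImplicit false
set_option linter.unusedSectionVars false
set_option linter.unusedVariables false

namespace Pool.Agent.TOKSN

open Pool.Agent.TOKST (HasTOKS)

variable {V : Type} [DecidableEq V] {G : SimpleGraph V} {D : Finset V} {x y z : V}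

/-- `toks_mk` with the disjointness conditions in elementwise form -/
theorem toks_mk2 {a b c d : V} {Tab Tac Tad Tbc Tbd Tcd : Finset V}
    (hab : PX G Tab a b true) (hac : PX G Tac a c true) (had : PX G Tad a d true)
    (hbc : PX G Tbc b c true) (hbd : PX G Tbd b d true) (hcd : PX G Tcd c d true)
    (d1 : ∀ v, v ∈ Tab → v ∈ Tcd → False) (d2 : ∀ v, v ∈ Tac → v ∈ Tbd → False)
    (d3 : ∀ v, v ∈ Tad → v ∈ Tbc → False)
    (a1 : ∀ v, v ∈ Tab → v ∈ Tac → v = a) (a2 : ∀ v, v ∈ Tab → v ∈ Tad → v = a)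
    (a3 : ∀ v, v ∈ Tac → v ∈ Tad → v = a)
    (b1 : ∀ v, v ∈ Tab → v ∈ Tbc → v = b) (b2 : ∀ v, v ∈ Tab → v ∈ Tbd → v = b)
    (b3 : ∀ v, v ∈ Tbc → v ∈ Tbd → v = b)
    (c1 : ∀ v, v ∈ Tac → v ∈ Tbc → v = c) (c2 : ∀ v, v ∈ Tac → v ∈ Tcd → v = c)
    (c3 : ∀ v, v ∈ Tbc → v ∈ Tcd → v = c)
    (e1 : ∀ v, v ∈ Tad → v ∈ Tbd → v = d) (e2 : ∀ v, v ∈ Tad → v ∈ Tcd → v = d)
    (e3 : ∀ v, v ∈ Tbd → v ∈ Tcd → v = d) : HasTOKS G := by
  have key : ∀ (A B : Finset V) (p : V), (∀ v, v ∈ A → v ∈ B → v = p) → p ∈ A → p ∈ B →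
      A ∩ B = {p} := by
    intro A B p h hA hB
    ext v
    rw [Finset.mem_inter, Finset.mem_singleton]
    exact ⟨fun h' => h v h'.1 h'.2, fun h' => h' ▸ ⟨hA, hB⟩⟩
  have kd : ∀ (A B : Finset V), (∀ v, v ∈ A → v ∈ B → False) → Disjoint A B := by
    intro A B h
    rw [Finset.disjoint_left]
    exact fun v hA hB => h v hA hB
  exact toks_mk hab hac had hbc hbd hcd (kd _ _ d1) (kd _ _ d2) (kd _ _ d3)
    (key _ _ _ a1 hab.left_mem hac.left_mem).subset (key _ _ _ a2 hab.left_mem had.left_mem).subset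
    (key _ _ _ a3 hac.left_mem had.left_mem).subset (key _ _ _ b1 hab.right_mem hbc.left_mem).subset
    (key _ _ _ b2 hab.right_mem hbd.left_mem).subset (key _ _ _ b3 hbc.left_mem hbd.left_mem).subset
    (key _ _ _ c1 hac.right_mem hbc.right_mem).subset (key _ _ _ c2 hac.right_mem hcd.left_mem).subset
    (key _ _ _ c3 hbc.right_mem hcd.left_mem).subset (key _ _ _ e1 had.right_mem hbd.right_mem).subset
    (key _ _ _ e2 had.right_mem hcd.right_mem).subset (key _ _ _ e3 hbd.right_mem hcd.right_mem).subset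

/-- tripod with feet `x`, `y`, `z` and leg parities `k`, `l`, `m` inside `D` -/
def Tp (G : SimpleGraph V) (D : Finset V) (x y z : V) (k l m : Bool) : Prop :=
  ∃ (c : V) (A B C : Finset V), PX G A c x k ∧ PX G B c y l ∧ PX G C c z m ∧
    A ⊆ D ∧ B ⊆ D ∧ C ⊆ D ∧ (∀ v, v ∈ A → v ∈ B → v = c) ∧ (∀ v, v ∈ A → v ∈ C → v = c) ∧
    (∀ v, v ∈ B → v ∈ C → v = c)

/-- ring with even legs to `x`, `y`, `z` inside `D`, all arcs odd -/
def Rg (G : SimpleGraph V) (D : Finset V) (x y z : V) : Prop :=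
  ∃ (f g h : V) (A B C L M N : Finset V), PX G A f g true ∧ PX G B g h true ∧ PX G C f h true ∧
    PX G L f x false ∧ PX G M g y false ∧ PX G N h z false ∧
    A ⊆ D ∧ B ⊆ D ∧ C ⊆ D ∧ L ⊆ D ∧ M ⊆ D ∧ N ⊆ D ∧
    (∀ v, v ∈ A → v ∈ B → v = g) ∧ (∀ v, v ∈ A → v ∈ C → v = f) ∧ (∀ v, v ∈ B → v ∈ C → v = h) ∧
    (∀ v, v ∈ L → v ∈ A → v = f) ∧ (∀ v, v ∈ L → v ∈ C → v = f) ∧ (∀ v, v ∈ L → v ∈ B → False) ∧
    (∀ v, v ∈ M → v ∈ A → v = g) ∧ (∀ v, v ∈ M → v ∈ B → v = g) ∧ (∀ v, v ∈ M → v ∈ C → False) ∧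
    (∀ v, v ∈ N → v ∈ B → v = h) ∧ (∀ v, v ∈ N → v ∈ C → v = h) ∧ (∀ v, v ∈ N → v ∈ A → False) ∧
    (∀ v, v ∈ L → v ∈ M → False) ∧ (∀ v, v ∈ L → v ∈ N → False) ∧ (∀ v, v ∈ M → v ∈ N → False)

/-- type (I) -/
def Ty1 (G : SimpleGraph V) (D : Finset V) (x y z : V) : Prop :=
  Tp G D x y z false false false ∧
    ((Tp G D x y z true false false ∧ Tp G D x y z false true false) ∨
     (Tp G D x y z true false false ∧ Tp G D x y z false false true) ∨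
     (Tp G D x y z false true false ∧ Tp G D x y z false false true))

/-- type (I) or type (II) -/
def Ty (G : SimpleGraph V) (D : Finset V) (x y z : V) : Prop := Ty1 G D x y z ∨ Rg G D x y z

theorem Tp.swap12 {k l m : Bool} (h : Tp G D x y z k l m) : Tp G D y x z l k m := by
  obtain ⟨c, A, B, C, h1, h2, h3, h4, h5, h6, h7, h8, h9⟩ := h
  exact ⟨c, B, A, C, h2, h1, h3, h5, h4, h6, fun v hv hw => h7 v hw hv, h9, h8⟩

theorem Tp.swap23 {k l m : Bool} (h : Tp G D x y z k l m) : Tp G D x z y k m l := by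
  obtain ⟨c, A, B, C, h1, h2, h3, h4, h5, h6, h7, h8, h9⟩ := h
  exact ⟨c, A, C, B, h1, h3, h2, h4, h6, h5, h8, h7, fun v hv hw => h9 v hw hv⟩

theorem Rg.swap12 (h : Rg G D x y z) : Rg G D y x z := by
  obtain ⟨f, g, h, A, B, C, L, M, N, h1, h2, h3, h4, h5, h6, s1, s2, s3, s4, s5, s6,
    m1, m2, m3, m4, m5, m6, m7, m8, m9, m10, m11, m12, m13, m14, m15⟩ := h
  exact ⟨g, f, h, A, C, B, M, L, N, h1.symm, h3, h2, h5, h4, h6, s1, s3, s2, s5, s4, s6,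
    m2, m1, fun v a b => m3 v b a, m7, m8, m9, m4, m5, m6, m11, m10, m12,
    fun v a b => m13 v b a, m15, m14⟩

theorem Rg.swap23 (h : Rg G D x y z) : Rg G D x z y := by
  obtain ⟨f, g, h, A, B, C, L, M, N, h1, h2, h3, h4, h5, h6, s1, s2, s3, s4, s5, s6,
    m1, m2, m3, m4, m5, m6, m7, m8, m9, m10, m11, m12, m13, m14, m15⟩ := h
  exact ⟨f, h, g, C, B, A, L, N, M, h3, h2.symm, h1, h4, h6, h5, s3, s2, s1, s4, s6, s5,
    fun v a b => m3 v b a, fun v a b => m2 v b a, fun v a b => m1 v b a, m5, m4, m6,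
    m11, m10, m12, m8, m7, m9, m14, m13, fun v a b => m15 v b a⟩

theorem Ty.swap12 (h : Ty G D x y z) : Ty G D y x z := by
  rcases h with ⟨h0, h⟩ | h
  · refine Or.inl ⟨h0.swap12, ?_⟩
    rcases h with ⟨h1, h2⟩ | ⟨h1, h2⟩ | ⟨h1, h2⟩
    · exact Or.inl ⟨h2.swap12, h1.swap12⟩
    · exact Or.inr (Or.inr ⟨h1.swap12, h2.swap12⟩)
    · exact Or.inr (Or.inl ⟨h1.swap12, h2.swap12⟩)
  · exact Or.inr h.swap12

theorem Ty.swap23 (h : Ty G D x y z) : Ty G D x z y := by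
  rcases h with ⟨h0, h⟩ | h
  · refine Or.inl ⟨h0.swap23, ?_⟩
    rcases h with ⟨h1, h2⟩ | ⟨h1, h2⟩ | ⟨h1, h2⟩
    · exact Or.inr (Or.inl ⟨h1.swap23, h2.swap23⟩)
    · exact Or.inl ⟨h1.swap23, h2.swap23⟩
    · exact Or.inr (Or.inr ⟨h2.swap23, h1.swap23⟩)
  · exact Or.inr h.swap23

theorem Ty.swap13 (h : Ty G D x y z) : Ty G D z y x := h.swap12.swap23.swap12

/-- the case of exactly one odd arc -/
theorem L0a {f g h : V} {A B C L M N : Finset V} (hA : PX G A f g true) (hB : PX G B g h false)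
    (hC : PX G C f h false) (hL : PX G L f x false) (hM : PX G M g y false) (hN : PX G N h z false)
    (s1 : A ⊆ D) (s2 : B ⊆ D) (s3 : C ⊆ D) (s4 : L ⊆ D) (s5 : M ⊆ D) (s6 : N ⊆ D)
    (m1 : ∀ v, v ∈ A → v ∈ B → v = g) (m2 : ∀ v, v ∈ A → v ∈ C → v = f)
    (m3 : ∀ v, v ∈ B → v ∈ C → v = h)
    (m4 : ∀ v, v ∈ L → v ∈ A → v = f) (m5 : ∀ v, v ∈ L → v ∈ C → v = f)
    (m6 : ∀ v, v ∈ L → v ∈ B → False)
    (m7 : ∀ v, v ∈ M → v ∈ A → v = g) (m8 : ∀ v, v ∈ M → v ∈ B → v = g)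
    (m9 : ∀ v, v ∈ M → v ∈ C → False)
    (m10 : ∀ v, v ∈ N → v ∈ B → v = h) (m11 : ∀ v, v ∈ N → v ∈ C → v = h)
    (m12 : ∀ v, v ∈ N → v ∈ A → False)
    (m13 : ∀ v, v ∈ L → v ∈ M → False) (m14 : ∀ v, v ∈ L → v ∈ N → False)
    (m15 : ∀ v, v ∈ M → v ∈ N → False) :
    Tp G D x y z false false false ∧ Tp G D x y z true false false ∧
      Tp G D x y z false true false := by
  refine ⟨?_, ?_, ?_⟩
  · have p1 := hC.symm.concat hL (by grind)
    have p2 := hB.symm.concat hM (by grind)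
    exact ⟨h, _, _, _, p1, p2, hN, by grind, by grind, s6, by grind, by grind, by grind⟩
  · have p1 := hA.symm.concat hL (by grind)
    have p2 := hB.concat hN (by grind)
    exact ⟨g, _, _, _, p1, hM, p2, by grind, s5, by grind, by grind, by grind, by grind⟩
  · have p1 := hA.concat hM (by grind)
    have p2 := hC.concat hN (by grind)
    exact ⟨f, _, _, _, hL, p1, p2, s4, by grind, by grind, by grind, by grind, by grind⟩


/-- (L0) an odd cycle with three disjoint even legs -/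
theorem L0 {Q : Finset V} {f g h : V} {L M N : Finset V} (hQ : OddCyc G Q) (hQD : Q ⊆ D)
    (hf : f ∈ Q) (hg : g ∈ Q) (hh : h ∈ Q) (hfg : f ≠ g) (hgh : g ≠ h) (hfh : f ≠ h)
    (hL : PX G L f x false) (hM : PX G M g y false) (hN : PX G N h z false)
    (s4 : L ⊆ D) (s5 : M ⊆ D) (s6 : N ⊆ D)
    (n1 : ∀ v, v ∈ L → v ∈ Q → v = f) (n2 : ∀ v, v ∈ M → v ∈ Q → v = g)
    (n3 : ∀ v, v ∈ N → v ∈ Q → v = h)
    (m13 : ∀ v, v ∈ L → v ∈ M → False) (m14 : ∀ v, v ∈ L → v ∈ N → False)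
    (m15 : ∀ v, v ∈ M → v ∈ N → False) : Ty G D x y z := by
  obtain ⟨A, B, C, k1, k2, k3, hA, hB, hC, i1, i2, i3, hU, hk⟩ := hQ.three hf hg hh hfg hgh hfh
  have j1 : ∀ v, v ∈ A → v ∈ B → v = g := fun v a b => by
    have := Finset.mem_inter.2 ⟨a, b⟩; rw [i1] at this; exact Finset.mem_singleton.1 this
  have j2 : ∀ v, v ∈ A → v ∈ C → v = f := fun v a b => by
    have := Finset.mem_inter.2 ⟨a, b⟩; rw [i2] at this; exact Finset.mem_singleton.1 this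
  have j3 : ∀ v, v ∈ B → v ∈ C → v = h := fun v a b => by
    have := Finset.mem_inter.2 ⟨a, b⟩; rw [i3] at this; exact Finset.mem_singleton.1 this
  have u1 : ∀ v, v ∈ A → v ∈ Q := by grind
  have u2 : ∀ v, v ∈ B → v ∈ Q := by grind
  have u3 : ∀ v, v ∈ C → v ∈ Q := by grind
  have eA := hA.left_mem
  have eA' := hA.right_mem
  have eB := hB.left_mem
  have eB' := hB.right_mem
  have eC := hC.left_mem
  have eC' := hC.right_mem
  have w1 : f ∉ B := fun hb => hfg (j1 f eA hb)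
  have w2 : g ∉ C := fun hb => hfg (j2 g eA' hb).symm
  have w3 : h ∉ A := fun hb => hgh (j1 h hb eB').symm
  have q1 : ∀ v, v ∈ L → v ∈ A → v = f := by grind
  have q2 : ∀ v, v ∈ L → v ∈ C → v = f := by grind
  have q3 : ∀ v, v ∈ L → v ∈ B → False := by grind
  have q4 : ∀ v, v ∈ M → v ∈ A → v = g := by grind
  have q5 : ∀ v, v ∈ M → v ∈ B → v = g := by grind
  have q6 : ∀ v, v ∈ M → v ∈ C → False := by grind
  have q7 : ∀ v, v ∈ N → v ∈ B → v = h := by grind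
  have q8 : ∀ v, v ∈ N → v ∈ C → v = h := by grind
  have q9 : ∀ v, v ∈ N → v ∈ A → False := by grind
  have sA : A ⊆ D := fun v hv => hQD (u1 v hv)
  have sB : B ⊆ D := fun v hv => hQD (u2 v hv)
  have sC : C ⊆ D := fun v hv => hQD (u3 v hv)
  rcases k1 with _ | _ <;> rcases k2 with _ | _ <;> rcases k3 with _ | _
  · exact absurd hk (by decide)
  · -- the odd arc is `C = f h`
    obtain ⟨t0, t1, t2⟩ := L0a (D := D) (x := x) (y := z) (z := y) (f := f) (g := h) (h := g) hC hB.symm hA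
      hL hN hM sC sB sA s4 s6 s5 (by grind) (by grind) (by grind) q2 q1 q3 q8 q7 q9 q5 q4 q6
      m14 m13 (by grind)
    exact Or.inl ⟨t0.swap23, Or.inr (Or.inl ⟨t1.swap23, t2.swap23⟩)⟩
  · -- the odd arc is `B = g h`
    obtain ⟨t0, t1, t2⟩ := L0a (D := D) (x := y) (y := z) (z := x) (f := g) (g := h) (h := f) hB hC.symm
      hA.symm hM hN hL sB sC sA s5 s6 s4 (by grind) (by grind) (by grind) q5 q4 q6 q7 q8 q9 q2 q1 q3
      m15 (by grind) (by grind)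
    exact Or.inl ⟨t0.swap23.swap12, Or.inr (Or.inr ⟨t1.swap23.swap12, t2.swap23.swap12⟩)⟩
  · exact absurd hk (by decide)
  · obtain ⟨t0, t1, t2⟩ := L0a (D := D) (x := x) (y := y) (z := z) (f := f) (g := g) (h := h) hA hB hC
      hL hM hN sA sB sC s4 s5 s6 j1 j2 j3 q1 q2 q3 q4 q5 q6 q7 q8 q9 m13 m14 m15
    exact Or.inl ⟨t0, Or.inl ⟨t1, t2⟩⟩
  · exact absurd hk (by decide)
  · exact absurd hk (by decide)
  · exact Or.inr ⟨f, g, h, A, B, C, L, M, N, hA, hB, hC, hL, hM, hN, sA, sB, sC, s4, s5, s6,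
      j1, j2, j3, q1, q2, q3, q4, q5, q6, q7, q8, q9, m13, m14, m15⟩

end Pool.Agent.TOKSN
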