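import Mathlib
import Pool.Agent.TOKSN.HTBase

/-!
# Theta graphs with three feet: Step 1 of (HT*)
-/

set_option autoImplicit false
set_option linter.unusedSectionVars false
set_option linter.unusedVariables false

namespace Pool.Agent.TOKSN

open Pool.Agent.TOKST (HasTOKS)

variable {V : Type} [DecidableEq V] {G : SimpleGraph V} {D : Finset V} {x y z : V}

theorem OddCyc.of_arcs' {a b : V} {S T : Finset V} {k l : Bool} (h₁ : PX G S a b k)
    (h₂ : PX G T a b l) (hkl : l = !k) (hd : ∀ v, v ∈ S → v ∈ T → v = a ∨ v = b) (hab : a ≠ b) :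
    OddCyc G (S ∪ T) := by
  subst hkl
  refine OddCyc.of_arcs h₁ h₂ ?_ hab
  ext v
  rw [Finset.mem_inter, Finset.mem_insert, Finset.mem_singleton]
  constructor
  · exact fun h => hd v h.1 h.2
  · rintro (rfl | rfl)
    · exact ⟨h₁.left_mem, h₂.left_mem⟩
    · exact ⟨h₁.right_mem, h₂.right_mem⟩

/-- an odd link between `a` and `b` outside `D` -/
def Lk (G : SimpleGraph V) (D : Finset V) (a b : V) : Prop :=
  ∃ T, PX G T a b true ∧ ∀ v, v ∈ T → v ∈ D → v = a ∨ v = b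

theorem Lk.symm {a b : V} (h : Lk G D a b) : Lk G D b a := by
  obtain ⟨T, hT, h⟩ := h
  exact ⟨T, hT.symm, fun v hv hv' => (h v hv hv').symm⟩

/-- `x` and `y` on the same side -/
theorem theta_a (hT : ¬ HasTOKS G) (hxz : Lk G D x z) (hyz : Lk G D y z)
    {t t' : V} {A1 A2 A3 B F1 F2 : Finset V} {a1 a2 a3 b f1 f2 : Bool}
    (h1 : PX G A1 t x a1) (h2 : PX G A2 x y a2) (h3 : PX G A3 y t' a3) (hB : PX G B t t' b)
    (hF1 : PX G F1 t z f1) (hF2 : PX G F2 z t' f2)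
    (s1 : A1 ⊆ D) (s2 : A2 ⊆ D) (s3 : A3 ⊆ D) (s4 : B ⊆ D) (s5 : F1 ⊆ D) (s6 : F2 ⊆ D)
    (htt : t ≠ t') (hxy : x ≠ y) (hzt : z ≠ t) (hzt' : z ≠ t') (hb : b = !(a1 ^^ a2 ^^ a3))
    (m1 : ∀ v, v ∈ A1 → v ∈ A2 → v = x) (m2 : ∀ v, v ∈ A1 → v ∈ A3 → False)
    (m3 : ∀ v, v ∈ A2 → v ∈ A3 → v = y)
    (m4 : ∀ v, v ∈ A1 → v ∈ B → v = t)
    (m5 : ∀ v, v ∈ A2 → v ∈ B → (v = t ∧ x = t) ∨ (v = t' ∧ y = t'))
    (m6 : ∀ v, v ∈ A3 → v ∈ B → v = t')
    (m7 : ∀ v, v ∈ F1 → v ∈ F2 → v = z)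
    (m8 : ∀ v, v ∈ F1 → v ∈ A1 → v = t) (m9 : ∀ v, v ∈ F1 → v ∈ A2 → v = t ∧ x = t)
    (m10 : ∀ v, v ∈ F1 → v ∈ A3 → False) (m11 : ∀ v, v ∈ F1 → v ∈ B → v = t)
    (m12 : ∀ v, v ∈ F2 → v ∈ A1 → False) (m13 : ∀ v, v ∈ F2 → v ∈ A2 → v = t' ∧ y = t')
    (m14 : ∀ v, v ∈ F2 → v ∈ A3 → v = t') (m15 : ∀ v, v ∈ F2 → v ∈ B → v = t') :
    Ty G D x y z := by
  have et := h1.left_mem
  have ex := h1.right_mem
  have ex' := h2.left_mem
  have ey := h2.right_mem
  have ey' := h3.left_mem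
  have et' := h3.right_mem
  have eb := hB.left_mem
  have eb' := hB.right_mem
  have ef := hF1.left_mem
  have ez := hF1.right_mem
  have ez' := hF2.left_mem
  have ef' := hF2.right_mem
  have hxz' : x ≠ z := by rintro rfl; exact hzt (m8 _ ez ex)
  have hyz' : y ≠ z := by rintro rfl; exact m10 _ ez ey'
  have hxt' : x ≠ t' := by rintro rfl; exact m2 _ ex et'
  have hyt : y ≠ t := by rintro rfl; exact m2 _ et ey'
  have pA := (h1.concat h2 (by grind)).concat h3 (by grind)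
  have pF := hF1.concat hF2 (by grind)
  -- the path `x` to `t'` along `A` and `t` to `y` along `A`
  have pxt := h2.concat h3 m3
  have pty := h1.concat h2 m1
  by_cases c1 : (f1 ^^ f2) = (a1 ^^ a2 ^^ a3)
  swap
  · have hQ : OddCyc G ((A1 ∪ A2 ∪ A3) ∪ (F1 ∪ F2)) :=
      OddCyc.of_arcs' pA pF (by revert c1; cases a1 <;> cases a2 <;> cases a3 <;> cases f1 <;> cases f2 <;> decide)
        (by grind) htt
    exact L0 hQ (by grind) (f := x) (g := y) (h := z) (by grind) (by grind) (by grind) hxy hyz' hxz'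
      (PX.refl G x) (PX.refl G y) (PX.refl G z) (by grind) (by grind) (by grind) (by grind)
      (by grind) (by grind) (by grind) (by grind) (by grind)
  have hQ : OddCyc G ((A1 ∪ A2 ∪ A3) ∪ B) :=
    OddCyc.of_arcs' pA hB (by rw [hb]) (by grind) htt
  -- `f1` even and `x ≠ t`
  by_cases c2 : f1 = false ∧ x ≠ t
  · obtain ⟨c2, c3⟩ := c2
    rw [c2] at hF1
    exact L0 hQ (by grind) (f := x) (g := y) (h := t) (by grind) (by grind) (by grind) hxy hyt c3
      (PX.refl G x) (PX.refl G y) hF1 (by grind) (by grind) (by grind) (by grind)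
      (by grind) (by grind) (by grind) (by grind) (by grind)
  by_cases c3 : f2 = false ∧ y ≠ t'
  · obtain ⟨c3, c4⟩ := c3
    rw [c3] at hF2
    exact L0 hQ (by grind) (f := x) (g := y) (h := t') (by grind) (by grind) (by grind) hxy c4 hxt'
      (PX.refl G x) (PX.refl G y) hF2.symm (by grind) (by grind) (by grind) (by grind)
      (by grind) (by grind) (by grind) (by grind) (by grind)
  by_cases c4 : a1 = false ∧ a3 = false
  · obtain ⟨c4, c5⟩ := c4
    rw [c4] at h1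
    rw [c5] at h3
    have hQ' : OddCyc G (B ∪ (F1 ∪ F2)) :=
      OddCyc.of_arcs' hB pF (by rw [hb, c1]; simp) (by grind) htt
    exact L0 hQ' (by grind) (f := t) (g := t') (h := z) (by grind) (by grind) (by grind) htt
      hzt'.symm hzt.symm h1 h3.symm (PX.refl G z) s1 s3 (by grind) (by grind) (by grind) (by grind)
      (by grind) (by grind) (by grind)
  by_cases hx : x = t
  · -- `x = t`
    subst hx
    obtain ⟨hA1, ha1⟩ := h1.eq_of_eq
    subst hA1
    subst ha1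
    have ha3 : a3 = true := by revert c4; cases a3 <;> simp
    subst ha3
    have hyt' : y ≠ t' := h3.ne
    have hf2 : f2 = true := by revert c3; cases f2 <;> simp [hyt']
    subst hf2
    have hfa : f1 = a2 := by revert c1; cases f1 <;> cases a2 <;> decide
    subst hfa
    have hba : b = f1 := by rw [hb]; cases f1 <;> rfl
    subst hba
    cases b
    · -- even
      refine Or.inl ⟨?_, Or.inr (Or.inr ⟨?_, ?_⟩)⟩
      · exact ⟨x, {x}, A2, F1, PX.refl G x, h2, hF1, by grind, s2, s5, by grind, by grind, by grind⟩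
      · have p := hB.concat h3.symm (by grind)
        exact ⟨x, {x}, _, F1, PX.refl G x, p, hF1, by grind, by grind, s5, by grind, by grind, by grind⟩
      · have p := hB.concat hF2.symm (by grind)
        exact ⟨x, {x}, A2, _, PX.refl G x, h2, p, by grind, s2, by grind, by grind, by grind, by grind⟩
    · -- odd
      exfalso
      obtain ⟨T, hT1, hT2⟩ := hyz
      refine hT (toks_mk2 (a := x) (b := t') (c := y) (d := z) hB h2 hF1 h3.symm hF2.symm hT1 ?_ ?_ ?_ ?_ ?_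
        ?_ ?_ ?_ ?_ ?_ ?_ ?_ ?_ ?_ ?_) <;> grind
  by_cases hy : y = t'
  · subst hy
    obtain ⟨hA3, ha3⟩ := h3.eq_of_eq
    subst hA3
    subst ha3
    have ha1 : a1 = true := by revert c4; cases a1 <;> simp
    subst ha1
    have hf1 : f1 = true := by revert c2; cases f1 <;> simp [hx]
    subst hf1
    have hfa : f2 = a2 := by revert c1; cases f2 <;> cases a2 <;> decide
    subst hfa
    have hba : b = f2 := by rw [hb]; cases f2 <;> rfl
    subst hba
    cases b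
    · refine Or.inl ⟨?_, Or.inr (Or.inl ⟨?_, ?_⟩)⟩
      · exact ⟨y, A2, {y}, F2, h2.symm, PX.refl G y, hF2.symm, s2, by grind, s6, by grind, by grind, by grind⟩
      · have p := hB.symm.concat h1 (by grind)
        exact ⟨y, _, {y}, F2, p, PX.refl G y, hF2.symm, by grind, by grind, s6, by grind, by grind, by grind⟩
      · have p := hB.symm.concat hF1 (by grind)
        exact ⟨y, A2, {y}, _, h2.symm, PX.refl G y, p, s2, by grind, by grind, by grind, by grind, by grind⟩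
    · exfalso
      obtain ⟨T, hT1, hT2⟩ := hxz
      refine hT (toks_mk2 (a := y) (b := t) (c := x) (d := z) hB.symm h2.symm hF2.symm h1 hF1 hT1 ?_ ?_ ?_ ?_ ?_
        ?_ ?_ ?_ ?_ ?_ ?_ ?_ ?_ ?_ ?_) <;> grind
  · -- generic case
    exfalso
    have hf1 : f1 = true := by revert c2; cases f1 <;> simp [hx]
    have hf2 : f2 = true := by revert c3; cases f2 <;> simp [hy]
    subst hf1
    subst hf2
    have hba : b = true := by rw [hb, ← c1]; rfl
    subst hba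
    rcases a1 with _ | _
    · have ha3 : a3 = true := by revert c4; cases a3 <;> simp
      subst ha3
      have ha2 : a2 = true := by revert c1; cases a2 <;> decide
      subst ha2
      obtain ⟨T, hT1, hT2⟩ := hyz
      have p : PX G (A1 ∪ A2) t y true := pty
      refine hT (toks_mk2 (a := t) (b := t') (c := y) (d := z) hB p hF1 h3.symm hF2.symm hT1 ?_ ?_ ?_ ?_ ?_
        ?_ ?_ ?_ ?_ ?_ ?_ ?_ ?_ ?_ ?_) <;> grind
    · obtain ⟨T, hT1, hT2⟩ := hxz
      have p : PX G (A2 ∪ A3) x t' true := by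
        have e : (a2 ^^ a3) = true := by revert c1; cases a2 <;> cases a3 <;> decide
        rw [← e]; exact pxt
      refine hT (toks_mk2 (a := t) (b := t') (c := x) (d := z) hB h1 hF1 p.symm hF2.symm hT1 ?_ ?_ ?_ ?_ ?_
        ?_ ?_ ?_ ?_ ?_ ?_ ?_ ?_ ?_ ?_) <;> grind


/-- `x` and `y` on different sides; `A` and `F` have different parities -/
theorem theta_b0 {t t' : V} {A1 A2 B1 B2 F1 F2 : Finset V} {a1 a2 b1 b2 f1 f2 : Bool}
    (h1 : PX G A1 t x a1) (h2 : PX G A2 x t' a2) (h3 : PX G B1 t y b1) (h4 : PX G B2 y t' b2)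
    (h5 : PX G F1 t z f1) (h6 : PX G F2 z t' f2)
    (s1 : A1 ⊆ D) (s2 : A2 ⊆ D) (s3 : B1 ⊆ D) (s4 : B2 ⊆ D) (s5 : F1 ⊆ D) (s6 : F2 ⊆ D)
    (htt : t ≠ t') (hxt : x ≠ t) (hxt' : x ≠ t') (hyt : y ≠ t) (hyt' : y ≠ t') (hzt : z ≠ t)
    (hzt' : z ≠ t')
    (hb : (b1 ^^ b2) = !(a1 ^^ a2)) (hf : (f1 ^^ f2) = !(a1 ^^ a2))
    (m1 : ∀ v, v ∈ A1 → v ∈ A2 → v = x) (m2 : ∀ v, v ∈ B1 → v ∈ B2 → v = y)
    (m3 : ∀ v, v ∈ F1 → v ∈ F2 → v = z)
    (m4 : ∀ v, v ∈ A1 → v ∈ B1 → v = t) (m5 : ∀ v, v ∈ A1 → v ∈ B2 → False)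
    (m6 : ∀ v, v ∈ A1 → v ∈ F1 → v = t) (m7 : ∀ v, v ∈ A1 → v ∈ F2 → False)
    (m8 : ∀ v, v ∈ A2 → v ∈ B2 → v = t') (m9 : ∀ v, v ∈ A2 → v ∈ B1 → False)
    (m10 : ∀ v, v ∈ A2 → v ∈ F2 → v = t') (m11 : ∀ v, v ∈ A2 → v ∈ F1 → False)
    (m12 : ∀ v, v ∈ B1 → v ∈ F1 → v = t) (m13 : ∀ v, v ∈ B1 → v ∈ F2 → False)
    (m14 : ∀ v, v ∈ B2 → v ∈ F2 → v = t') (m15 : ∀ v, v ∈ B2 → v ∈ F1 → False) :
    Ty G D x y z := by
  have e1 := h1.left_mem
  have e2 := h1.right_mem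
  have e3 := h2.left_mem
  have e4 := h2.right_mem
  have e5 := h3.left_mem
  have e6 := h3.right_mem
  have e7 := h4.left_mem
  have e8 := h4.right_mem
  have e9 := h5.left_mem
  have e10 := h5.right_mem
  have e11 := h6.left_mem
  have e12 := h6.right_mem
  have hxy : x ≠ y := by rintro rfl; exact hxt (m4 _ e2 e6)
  have hxz : x ≠ z := by rintro rfl; exact hxt (m6 _ e2 e10)
  have hyz : y ≠ z := by rintro rfl; exact hyt (m12 _ e6 e10)
  have pA := h1.concat h2 m1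
  have pB := h3.concat h4 m2
  have pF := h5.concat h6 m3
  have hQ : OddCyc G ((A1 ∪ A2) ∪ (B1 ∪ B2)) := OddCyc.of_arcs' pA pB hb (by grind) htt
  have hQ' : OddCyc G ((A1 ∪ A2) ∪ (F1 ∪ F2)) := OddCyc.of_arcs' pA pF hf (by grind) htt
  rcases f1 with _ | _
  · exact L0 hQ (by grind) (f := x) (g := y) (h := t) (by grind) (by grind) (by grind) hxy hyt hxt
      (PX.refl G x) (PX.refl G y) h5 (by grind) (by grind) (by grind) (by grind)
      (by grind) (by grind) (by grind) (by grind) (by grind)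
  rcases f2 with _ | _
  · exact L0 hQ (by grind) (f := x) (g := y) (h := t') (by grind) (by grind) (by grind) hxy hyt' hxt'
      (PX.refl G x) (PX.refl G y) h6.symm (by grind) (by grind) (by grind) (by grind)
      (by grind) (by grind) (by grind) (by grind) (by grind)
  rcases b1 with _ | _
  · exact L0 hQ' (by grind) (f := x) (g := t) (h := z) (by grind) (by grind) (by grind) hxt hzt.symm hxz
      (PX.refl G x) h3 (PX.refl G z) (by grind) (by grind) (by grind) (by grind)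
      (by grind) (by grind) (by grind) (by grind) (by grind)
  rcases b2 with _ | _
  · exact L0 hQ' (by grind) (f := x) (g := t') (h := z) (by grind) (by grind) (by grind) hxt' hzt'.symm hxz
      (PX.refl G x) h4.symm (PX.refl G z) (by grind) (by grind) (by grind) (by grind)
      (by grind) (by grind) (by grind) (by grind) (by grind)
  -- all four odd; `A` is odd
  have pyt := h3.symm
  have p1 := h3.symm.concat h1 (by grind)
  have p2 := h4.concat h6.symm (by grind)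
  have p3 := h4.concat h2.symm (by grind)
  have p4 := h3.symm.concat h5 (by grind)
  have p5 := h1.symm.concat h3 (by grind)
  have p6 := h2.concat h6.symm (by grind)
  have p7 := h2.concat h4.symm (by grind)
  have p8 := h1.symm.concat h5 (by grind)
  have t1 : Tp G D x y z (true ^^ a1) false (true ^^ true) :=
    ⟨y, _, {y}, _, p1, PX.refl G y, p2, by grind, by grind, by grind, by grind, by grind, by grind⟩
  have t2 : Tp G D x y z (true ^^ a2) false (true ^^ true) :=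
    ⟨y, _, {y}, _, p3, PX.refl G y, p4, by grind, by grind, by grind, by grind, by grind, by grind⟩
  have t3 : Tp G D x y z false (a1 ^^ true) (a2 ^^ true) :=
    ⟨x, {x}, _, _, PX.refl G x, p5, p6, by grind, by grind, by grind, by grind, by grind, by grind⟩
  have t4 : Tp G D x y z false (a2 ^^ true) (a1 ^^ true) :=
    ⟨x, {x}, _, _, PX.refl G x, p7, p8, by grind, by grind, by grind, by grind, by grind, by grind⟩
  rcases a1 with _ | _ <;> rcases a2 with _ | _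
  · exact absurd hf (by decide)
  · exact Or.inl ⟨t2, Or.inl ⟨t1, t3⟩⟩
  · exact Or.inl ⟨t1, Or.inl ⟨t2, t4⟩⟩
  · exact absurd hf (by decide)

/-- `x` and `y` on different sides -/
theorem theta_b {t t' : V} {A1 A2 B1 B2 F1 F2 : Finset V} {a1 a2 b1 b2 f1 f2 : Bool}
    (h1 : PX G A1 t x a1) (h2 : PX G A2 x t' a2) (h3 : PX G B1 t y b1) (h4 : PX G B2 y t' b2)
    (h5 : PX G F1 t z f1) (h6 : PX G F2 z t' f2)
    (s1 : A1 ⊆ D) (s2 : A2 ⊆ D) (s3 : B1 ⊆ D) (s4 : B2 ⊆ D) (s5 : F1 ⊆ D) (s6 : F2 ⊆ D)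
    (htt : t ≠ t') (hxt : x ≠ t) (hxt' : x ≠ t') (hyt : y ≠ t) (hyt' : y ≠ t') (hzt : z ≠ t)
    (hzt' : z ≠ t')
    (hb : (b1 ^^ b2) = !(a1 ^^ a2))
    (m1 : ∀ v, v ∈ A1 → v ∈ A2 → v = x) (m2 : ∀ v, v ∈ B1 → v ∈ B2 → v = y)
    (m3 : ∀ v, v ∈ F1 → v ∈ F2 → v = z)
    (m4 : ∀ v, v ∈ A1 → v ∈ B1 → v = t) (m5 : ∀ v, v ∈ A1 → v ∈ B2 → False)
    (m6 : ∀ v, v ∈ A1 → v ∈ F1 → v = t) (m7 : ∀ v, v ∈ A1 → v ∈ F2 → False)
    (m8 : ∀ v, v ∈ A2 → v ∈ B2 → v = t') (m9 : ∀ v, v ∈ A2 → v ∈ B1 → False)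
    (m10 : ∀ v, v ∈ A2 → v ∈ F2 → v = t') (m11 : ∀ v, v ∈ A2 → v ∈ F1 → False)
    (m12 : ∀ v, v ∈ B1 → v ∈ F1 → v = t) (m13 : ∀ v, v ∈ B1 → v ∈ F2 → False)
    (m14 : ∀ v, v ∈ B2 → v ∈ F2 → v = t') (m15 : ∀ v, v ∈ B2 → v ∈ F1 → False) :
    Ty G D x y z := by
  by_cases hf : (f1 ^^ f2) = !(a1 ^^ a2)
  · exact theta_b0 h1 h2 h3 h4 h5 h6 s1 s2 s3 s4 s5 s6 htt hxt hxt' hyt hyt' hzt hzt' hb hf m1 m2
      m3 m4 m5 m6 m7 m8 m9 m10 m11 m12 m13 m14 m15
  · have hf' : (f1 ^^ f2) = !(b1 ^^ b2) := by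
      rw [hb]; revert hf; cases (f1 ^^ f2) <;> cases (a1 ^^ a2) <;> decide
    have hb' : (a1 ^^ a2) = !(b1 ^^ b2) := by rw [hb]; simp
    exact (theta_b0 (D := D) (x := y) (y := x) (z := z) h3 h4 h1 h2 h5 h6 s3 s4 s1 s2 s5 s6 htt hyt hyt' hxt hxt' hzt
      hzt' hb' hf' m2 m1 m3 (by grind) (by grind) m12 m13 (by grind) (by grind) m14 m15 m6 m7 m10
      m11).swap12

end Pool.Agent.TOKSN
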