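import Mathlib
import Pool.Agent.TOKSN.HTTheta

/-!
# Step 1 of (HT*): some odd cycle of the hub contains two feet
-/

set_option autoImplicit false
set_option linter.unusedSectionVars false
set_option linter.unusedVariables false

namespace Pool.Agent.TOKSN

open Pool.Agent.TOKST (HasTOKS)

variable {V : Type} [DecidableEq V] {G : SimpleGraph V} {D : Finset V} {x y z : V}

theorem eq_of_inter {A B : Finset V} {p : V} (h : A ∩ B = {p}) : ∀ v, v ∈ A → v ∈ B → v = p := by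
  intro v hA hB
  have := Finset.mem_inter.2 ⟨hA, hB⟩
  rw [h] at this
  exact Finset.mem_singleton.1 this

theorem eq_of_inter2 {A B : Finset V} {p q : V} (h : A ∩ B = {p, q}) :
    ∀ v, v ∈ A → v ∈ B → v = p ∨ v = q := by
  intro v hA hB
  have := Finset.mem_inter.2 ⟨hA, hB⟩
  rw [h] at this
  simpa using this

theorem PX.cut' {T : Finset V} {a b p : V} {k : Bool} (h : PX G T a b k) (hx : p ∈ T) :
    ∃ T₁ T₂ k₁ k₂, PX G T₁ a p k₁ ∧ PX G T₂ p b k₂ ∧ (∀ v, v ∈ T₁ → v ∈ T) ∧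
      (∀ v, v ∈ T₂ → v ∈ T) ∧ (∀ v, v ∈ T → v ∈ T₁ ∨ v ∈ T₂) ∧
      (∀ v, v ∈ T₁ → v ∈ T₂ → v = p) ∧ (k₁ ^^ k₂) = k := by
  obtain ⟨T₁, T₂, k₁, k₂, h1, h2, h3, h4, h5⟩ := h.cut hx
  exact ⟨T₁, T₂, k₁, k₂, h1, h2, by grind, by grind, by grind, eq_of_inter h4, h5⟩

theorem same_side (hT : ¬ HasTOKS G) (hxz : Lk G D x z) (hyz : Lk G D y z)
    {t t' : V} {A B F1 F2 : Finset V} {a b f1 f2 : Bool}
    (hA : PX G A t t' a) (hB : PX G B t t' b) (hF1 : PX G F1 z t f1) (hF2 : PX G F2 z t' f2)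
    (hb : b = !a) (s1 : A ⊆ D) (s2 : B ⊆ D) (s3 : F1 ⊆ D) (s4 : F2 ⊆ D) (htt : t ≠ t')
    (hzt : z ≠ t) (hzt' : z ≠ t')
    (m1 : ∀ v, v ∈ A → v ∈ B → v = t ∨ v = t') (m2 : ∀ v, v ∈ F1 → v ∈ F2 → v = z)
    (m3 : ∀ v, v ∈ F1 → v ∈ A → v = t) (m4 : ∀ v, v ∈ F1 → v ∈ B → v = t)
    (m5 : ∀ v, v ∈ F2 → v ∈ A → v = t') (m6 : ∀ v, v ∈ F2 → v ∈ B → v = t')
    (hx : x ∈ A) (hy : y ∈ A) (hxy : x ≠ y) : Ty G D x y z := by
  obtain ⟨A1, A2, a1, a2, hA1, hA2, u1, u2, u3, u4, u5⟩ := hA.cut' hx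
  have e1 := hA1.left_mem
  have e2 := hA1.right_mem
  have e3 := hA2.left_mem
  have e4 := hA2.right_mem
  rcases u3 y hy with h | h
  · -- order `t .. y .. x .. t'`
    obtain ⟨B1, B2, b1, b2, hB1, hB2, w1, w2, w3, w4, w5⟩ := hA1.cut' h
    have e5 := hB1.left_mem
    have e6 := hB1.right_mem
    have e7 := hB2.left_mem
    have e8 := hB2.right_mem
    have q1 : x ∉ B1 := fun h => hxy (w4 x h e8)
    have q2 : t' ∈ A1 → x = t' := fun h => (u4 t' h e4).symm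
    have q3 : t ∈ A2 → t = x := fun h => u4 t e1 h
    have q4 : t ∈ B2 → y = t := fun h => (w4 t e5 h).symm
    have q5 : t' ∉ B1 := fun h => q1 (by rw [q2 (w1 _ h)]; exact h)
    have q6 : t ∉ A2 := fun h => q1 (by rw [← q3 h]; exact e5)
    refine (theta_a (D := D) (x := y) (y := x) (z := z) hT hyz hxz hB1 hB2 hA2 hB hF1.symm hF2 (by grind)
      (by grind) (by grind) s2 s3 s4 htt hxy.symm hzt hzt' (by rw [hb, ← u5, ← w5]) w4
      ?_ ?_ ?_ ?_ ?_ m2 ?_ ?_ ?_ ?_ ?_ ?_ ?_ ?_).swap12 <;> grind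
  · -- order `t .. x .. y .. t'`
    obtain ⟨B1, B2, b1, b2, hB1, hB2, w1, w2, w3, w4, w5⟩ := hA2.cut' h
    have e5 := hB1.left_mem
    have e6 := hB1.right_mem
    have e7 := hB2.left_mem
    have e8 := hB2.right_mem
    have q1 : x ∉ B2 := fun h => hxy (w4 x e5 h)
    have q2 : t' ∈ A1 → x = t' := fun h => (u4 t' h e4).symm
    have q3 : t ∈ A2 → t = x := fun h => u4 t e1 h
    have q4 : t' ∈ B1 → y = t' := fun h => (w4 t' h e8).symm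
    have q5 : t' ∉ A1 := fun h => q1 (by rw [q2 h]; exact e8)
    have q6 : t ∉ B2 := fun h => q1 (by rw [← q3 (w2 _ h)]; exact h)
    refine (theta_a (D := D) (x := x) (y := y) (z := z) hT hxz hyz hA1 hB1 hB2 hB hF1.symm hF2 (by grind)
      (by grind) (by grind) s2 s3 s4 htt hxy hzt hzt' (by rw [hb, ← u5, ← w5]; simp) ?_
      ?_ ?_ ?_ ?_ ?_ m2 ?_ ?_ ?_ ?_ ?_ ?_ ?_ ?_) <;> grind

theorem diff_side {t t' : V} {A B F1 F2 : Finset V} {a b f1 f2 : Bool}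
    (hA : PX G A t t' a) (hB : PX G B t t' b) (hF1 : PX G F1 z t f1) (hF2 : PX G F2 z t' f2)
    (hb : b = !a) (s1 : A ⊆ D) (s2 : B ⊆ D) (s3 : F1 ⊆ D) (s4 : F2 ⊆ D) (htt : t ≠ t')
    (hzt : z ≠ t) (hzt' : z ≠ t')
    (m1 : ∀ v, v ∈ A → v ∈ B → v = t ∨ v = t') (m2 : ∀ v, v ∈ F1 → v ∈ F2 → v = z)
    (m3 : ∀ v, v ∈ F1 → v ∈ A → v = t) (m4 : ∀ v, v ∈ F1 → v ∈ B → v = t)
    (m5 : ∀ v, v ∈ F2 → v ∈ A → v = t') (m6 : ∀ v, v ∈ F2 → v ∈ B → v = t')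
    (hx : x ∈ A) (hy : y ∈ B) (hxt : x ≠ t) (hxt' : x ≠ t') (hyt : y ≠ t) (hyt' : y ≠ t') :
    Ty G D x y z := by
  obtain ⟨A1, A2, a1, a2, hA1, hA2, u1, u2, u3, u4, u5⟩ := hA.cut' hx
  obtain ⟨B1, B2, b1, b2, hB1, hB2, w1, w2, w3, w4, w5⟩ := hB.cut' hy
  have e1 := hA1.left_mem
  have e2 := hA1.right_mem
  have e3 := hA2.left_mem
  have e4 := hA2.right_mem
  have e5 := hB1.left_mem
  have e6 := hB1.right_mem
  have e7 := hB2.left_mem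
  have e8 := hB2.right_mem
  have q1 : t' ∉ A1 := fun h => hxt' (u4 t' h e4).symm
  have q2 : t ∉ A2 := fun h => hxt (u4 t e1 h).symm
  have q3 : t' ∉ B1 := fun h => hyt' (w4 t' h e8).symm
  have q4 : t ∉ B2 := fun h => hyt (w4 t e5 h).symm
  refine theta_b (D := D) (x := x) (y := y) (z := z) hA1 hA2 hB1 hB2 hF1.symm hF2 (by grind) (by grind) (by grind)
    (by grind) s3 s4 htt hxt hxt' hyt hyt' hzt hzt' (by rw [u5, w5, hb]) u4 w4 m2 ?_ ?_ ?_ ?_ ?_ ?_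
    ?_ ?_ ?_ ?_ ?_ ?_ <;> grind

/-- Step 1 -/
theorem ht_step1 (hT : ¬ HasTOKS G) (hD : Hub G D) (hz : z ∈ D) (hxy : x ≠ y) (hyz : y ≠ z)
    (hxz : x ≠ z) (lxz : Lk G D x z) (lyz : Lk G D y z) {Q : Finset V} (hQ : OddCyc G Q)
    (hQD : Q ⊆ D) (hxQ : x ∈ Q) (hyQ : y ∈ Q) : Ty G D x y z := by
  by_cases hzQ : z ∈ Q
  · exact L0 hQ hQD hxQ hyQ hzQ hxy hyz hxz (PX.refl G x) (PX.refl G y) (PX.refl G z) (by grind)
      (by grind) (by grind) (by grind) (by grind) (by grind) (by grind) (by grind) (by grind)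
  obtain ⟨t, t', F1, F2, f1, f2, htt, htQ, htQ', hF1, hF2, s1, s2, i1, i2, i3⟩ :=
    hD.fan (B := Q) hz hzQ (by
      have h1 : Q ∩ D = Q := Finset.inter_eq_left.2 hQD
      have h2 := hQ.card_le
      rw [h1]
      omega)
  obtain ⟨A, B, a, hA, hB, hU, hI⟩ := hQ.arcs htQ htQ' htt
  have m1 := eq_of_inter2 hI
  have m2 := eq_of_inter i1
  have m3 := eq_of_inter i2
  have m4 := eq_of_inter i3
  have hzt : z ≠ t := by rintro rfl; exact hzQ htQ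
  have hzt' : z ≠ t' := by rintro rfl; exact hzQ htQ'
  have uA : ∀ v, v ∈ A → v ∈ Q := by grind
  have uB : ∀ v, v ∈ B → v ∈ Q := by grind
  have uQ : ∀ v, v ∈ Q → v ∈ A ∨ v ∈ B := by grind
  have sA : A ⊆ D := fun v hv => hQD (uA v hv)
  have sB : B ⊆ D := fun v hv => hQD (uB v hv)
  have eA := hA.left_mem
  have eA' := hA.right_mem
  have eB := hB.left_mem
  have eB' := hB.right_mem
  by_cases hxA : x ∈ A
  · by_cases hyA : y ∈ A
    · refine same_side (D := D) hT lxz lyz hA hB hF1 hF2 rfl sA sB s1 s2 htt hzt hzt' m1 m2 ?_ ?_ ?_ ?_ hxA hyA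
        hxy <;> grind
    · have hyB : y ∈ B := (uQ y hyQ).resolve_left hyA
      by_cases hxB : x ∈ B
      · refine same_side (D := D) hT lxz lyz hB hA hF1 hF2 (by simp) sB sA s1 s2 htt hzt hzt' (by grind) m2 ?_ ?_ ?_
          ?_ hxB hyB hxy <;> grind
      · refine diff_side (D := D) hA hB hF1 hF2 rfl sA sB s1 s2 htt hzt hzt' m1 m2 ?_ ?_ ?_ ?_ hxA hyB ?_ ?_ ?_ ?_
          <;> grind
  · have hxB : x ∈ B := (uQ x hxQ).resolve_left hxA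
    by_cases hyB : y ∈ B
    · refine same_side (D := D) hT lxz lyz hB hA hF1 hF2 (by simp) sB sA s1 s2 htt hzt hzt' (by grind) m2 ?_ ?_ ?_
          ?_ hxB hyB hxy <;> grind
    · have hyA : y ∈ A := (uQ y hyQ).resolve_right hyB
      refine diff_side (D := D) hB hA hF1 hF2 (by simp) sB sA s1 s2 htt hzt hzt' (by grind) m2 ?_ ?_ ?_ ?_ hxB hyA
        ?_ ?_ ?_ ?_ <;> grind

end Pool.Agent.TOKSN
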