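import Mathlib
import Pool.Agent.TOKSN.HTStep1

/-!
# The necklace of Step 2 of (HT*)
-/

set_option autoImplicit false
set_option linter.unusedSectionVars false
set_option linter.unusedVariables false

namespace Pool.Agent.TOKSN

open Pool.Agent.TOKST (HasTOKS)

variable {V : Type} [DecidableEq V] {G : SimpleGraph V} {D : Finset V}

/-- the necklace: two `s`-`s'` paths through `x` and `z`, two `r`-`r'` paths, one through `y`,
paths `s`-`r` and `s'`-`r'` -/
structure Neck (G : SimpleGraph V) (D : Finset V) (x y z s s' r r' : V)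
    (P P' R R' J J' W A A' : Finset V) (i i' k k' j j' w a a' : Bool) : Prop where
  hP : PX G P s x i
  hP' : PX G P' x s' i'
  hR : PX G R s z k
  hR' : PX G R' z s' k'
  hJ : PX G J r y j
  hJ' : PX G J' y r' j'
  hW : PX G W r r' w
  hA : PX G A s r a
  hA' : PX G A' s' r' a'
  sP : ∀ v, v ∈ P → v ∈ D
  sP' : ∀ v, v ∈ P' → v ∈ D
  sR : ∀ v, v ∈ R → v ∈ D
  sR' : ∀ v, v ∈ R' → v ∈ D
  sJ : ∀ v, v ∈ J → v ∈ D
  sJ' : ∀ v, v ∈ J' → v ∈ D
  sW : ∀ v, v ∈ W → v ∈ D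
  sA : ∀ v, v ∈ A → v ∈ D
  sA' : ∀ v, v ∈ A' → v ∈ D
  e1 : (i ^^ i') = (k ^^ k')
  e2 : (j ^^ j') = (i ^^ i' ^^ a ^^ a')
  e3 : w = !(j ^^ j')
  hss : s ≠ s'
  hrr : r ≠ r'
  hxs : x ≠ s
  hxs' : x ≠ s'
  hzs : z ≠ s
  hzs' : z ≠ s'
  hyr : y ≠ r
  hyr' : y ≠ r'
  pp : ∀ v, v ∈ P → v ∈ P' → v = x
  pr : ∀ v, v ∈ P → v ∈ R → v = s
  pr' : ∀ v, v ∈ P → v ∈ R' → False
  pj : ∀ v, v ∈ P → v ∈ J → v = s ∧ s = r
  pj' : ∀ v, v ∈ P → v ∈ J' → False
  pw : ∀ v, v ∈ P → v ∈ W → v = s ∧ s = r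
  pa : ∀ v, v ∈ P → v ∈ A → v = s
  pa' : ∀ v, v ∈ P → v ∈ A' → False
  p'r : ∀ v, v ∈ P' → v ∈ R → False
  p'r' : ∀ v, v ∈ P' → v ∈ R' → v = s'
  p'j : ∀ v, v ∈ P' → v ∈ J → False
  p'j' : ∀ v, v ∈ P' → v ∈ J' → v = s' ∧ s' = r'
  p'w : ∀ v, v ∈ P' → v ∈ W → v = s' ∧ s' = r'
  p'a : ∀ v, v ∈ P' → v ∈ A → False
  p'a' : ∀ v, v ∈ P' → v ∈ A' → v = s'
  rr : ∀ v, v ∈ R → v ∈ R' → v = z
  rj : ∀ v, v ∈ R → v ∈ J → v = s ∧ s = r
  rj' : ∀ v, v ∈ R → v ∈ J' → False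
  rw : ∀ v, v ∈ R → v ∈ W → v = s ∧ s = r
  ra : ∀ v, v ∈ R → v ∈ A → v = s
  ra' : ∀ v, v ∈ R → v ∈ A' → False
  r'j : ∀ v, v ∈ R' → v ∈ J → False
  r'j' : ∀ v, v ∈ R' → v ∈ J' → v = s' ∧ s' = r'
  r'w : ∀ v, v ∈ R' → v ∈ W → v = s' ∧ s' = r'
  r'a : ∀ v, v ∈ R' → v ∈ A → False
  r'a' : ∀ v, v ∈ R' → v ∈ A' → v = s'
  jj : ∀ v, v ∈ J → v ∈ J' → v = y
  jw : ∀ v, v ∈ J → v ∈ W → v = r
  ja : ∀ v, v ∈ J → v ∈ A → v = r
  ja' : ∀ v, v ∈ J → v ∈ A' → False
  j'w : ∀ v, v ∈ J' → v ∈ W → v = r'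
  j'a : ∀ v, v ∈ J' → v ∈ A → False
  j'a' : ∀ v, v ∈ J' → v ∈ A' → v = r'
  wa : ∀ v, v ∈ W → v ∈ A → v = r
  wa' : ∀ v, v ∈ W → v ∈ A' → v = r'
  aa : ∀ v, v ∈ A → v ∈ A' → False

variable {x y z s s' r r' : V} {P P' R R' J J' W A A' : Finset V}
  {i i' k k' j j' w a a' : Bool}

/-- (N1) -/
theorem Neck.n1 (hT : ¬ HasTOKS G) (lxz : Lk G D x z)
    (h : Neck G D x y z s s' r r' P P' R R' J J' W A A' true true true true j j' w a a') : False := by
  obtain ⟨hP, hP', hR, hR', hJ, hJ', hW, hA, hA', sP, sP', sR, sR', sJ, sJ', sW, sA, sA', e1, e2, e3,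
    hss, hrr, hxs, hxs', hzs, hzs', hyr, hyr', pp, pr, pr', pj, pj', pw, pa, pa', p'r, p'r', p'j,
    p'j', p'w, p'a, p'a', rr, rj, rj', rw, ra, ra', r'j, r'j', r'w, r'a, r'a', jj, jw, ja, ja', j'w,
    j'a, j'a', wa, wa', aa⟩ := h
  obtain ⟨T, hT1, hT2⟩ := lxz
  have a1 := hP.left_mem
  have a2 := hP.right_mem
  have a3 := hP'.left_mem
  have a4 := hP'.right_mem
  have a5 := hR.left_mem
  have a6 := hR.right_mem
  have a7 := hR'.left_mem
  have a8 := hR'.right_mem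
  have a9 := hJ.left_mem
  have a10 := hJ.right_mem
  have a11 := hJ'.left_mem
  have a12 := hJ'.right_mem
  have a13 := hW.left_mem
  have a14 := hW.right_mem
  have a15 := hA.left_mem
  have a16 := hA.right_mem
  have a17 := hA'.left_mem
  have a18 := hA'.right_mem
  have a19 := hT1.left_mem
  have a20 := hT1.right_mem
  have key : ∃ S, PX G S s s' true ∧ (∀ v, v ∈ S → v ∈ D) ∧ (∀ v, v ∈ S → v ∈ P → v = s) ∧
      (∀ v, v ∈ S → v ∈ P' → v = s') ∧ (∀ v, v ∈ S → v ∈ R → v = s) ∧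
      (∀ v, v ∈ S → v ∈ R' → v = s') ∧ x ∉ S ∧ z ∉ S := by
    rcases hw : (a ^^ w ^^ a') with _ | _
    · have p := ((hA.concat hJ (by grind)).concat hJ' (by grind)).concat hA'.symm (by grind)
      have hk : (a ^^ j ^^ j' ^^ a') = true := by
        rw [e3] at hw; revert hw; cases a <;> cases j <;> cases j' <;> cases a' <;> decide
      rw [hk] at p
      exact ⟨_, p, by grind, by grind, by grind, by grind, by grind, by grind, by grind⟩
    · have p := (hA.concat hW (by grind)).concat hA'.symm (by grind)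
      rw [hw] at p
      exact ⟨_, p, by grind, by grind, by grind, by grind, by grind, by grind, by grind⟩
  obtain ⟨S, hS, u1, u2, u3, u4, u5, u6, u7⟩ := key
  clear pj pj' pw pa pa' p'j p'j' p'w p'a p'a' rj rj' rw ra ra' r'j r'j' r'w r'a r'a' jj jw ja ja'
    j'w j'a j'a' wa wa' aa
  refine hT (toks_mk2 (a := s) (b := s') (c := x) (d := z) hS hP hR hP'.symm hR'.symm hT1 ?_ ?_ ?_
    ?_ ?_ ?_ ?_ ?_ ?_ ?_ ?_ ?_ ?_ ?_ ?_) <;> grind


/-- exchange `x` and `z` -/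
theorem Neck.swap (h : Neck G D x y z s s' r r' P P' R R' J J' W A A' i i' k k' j j' w a a') :
    Neck G D z y x s s' r r' R R' P P' J J' W A A' k k' i i' j j' w a a' := by
  obtain ⟨hP, hP', hR, hR', hJ, hJ', hW, hA, hA', sP, sP', sR, sR', sJ, sJ', sW, sA, sA', e1, e2, e3,
    hss, hrr, hxs, hxs', hzs, hzs', hyr, hyr', pp, pr, pr', pj, pj', pw, pa, pa', p'r, p'r', p'j,
    p'j', p'w, p'a, p'a', rr, rj, rj', rw, ra, ra', r'j, r'j', r'w, r'a, r'a', jj, jw, ja, ja', j'w,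
    j'a, j'a', wa, wa', aa⟩ := h
  exact ⟨hR, hR', hP, hP', hJ, hJ', hW, hA, hA', sR, sR', sP, sP', sJ, sJ', sW, sA, sA', e1.symm,
    by rw [e2, e1], e3, hss, hrr, hzs, hzs', hxs, hxs', hyr, hyr', rr, fun v h1 h2 => pr v h2 h1,
    fun v h1 h2 => p'r v h2 h1, rj, rj', rw, ra, ra', fun v h1 h2 => pr' v h2 h1,
    fun v h1 h2 => p'r' v h2 h1, r'j, r'j', r'w, r'a, r'a', pp, pj, pj', pw, pa, pa', p'j, p'j', p'w,
    p'a, p'a', jj, jw, ja, ja', j'w, j'a, j'a', wa, wa', aa⟩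

/-- exchange primed and unprimed -/
theorem Neck.flip (h : Neck G D x y z s s' r r' P P' R R' J J' W A A' i i' k k' j j' w a a') :
    Neck G D x y z s' s r' r P' P R' R J' J W A' A i' i k' k j' j w a' a := by
  obtain ⟨hP, hP', hR, hR', hJ, hJ', hW, hA, hA', sP, sP', sR, sR', sJ, sJ', sW, sA, sA', e1, e2, e3,
    hss, hrr, hxs, hxs', hzs, hzs', hyr, hyr', pp, pr, pr', pj, pj', pw, pa, pa', p'r, p'r', p'j,
    p'j', p'w, p'a, p'a', rr, rj, rj', rw, ra, ra', r'j, r'j', r'w, r'a, r'a', jj, jw, ja, ja', j'w,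
    j'a, j'a', wa, wa', aa⟩ := h
  exact ⟨hP'.symm, hP.symm, hR'.symm, hR.symm, hJ'.symm, hJ.symm, hW.symm, hA', hA, sP', sP, sR', sR,
    sJ', sJ, sW, sA', sA, by rw [Bool.xor_comm, e1, Bool.xor_comm],
    by rw [Bool.xor_comm, e2]; cases i <;> cases i' <;> cases a <;> cases a' <;> rfl,
    by rw [e3, Bool.xor_comm],
    hss.symm, hrr.symm, hxs', hxs, hzs', hzs, hyr', hyr, fun v h1 h2 => pp v h2 h1, p'r',
    p'r, p'j', p'j, p'w, p'a', p'a, pr', pr, pj', pj, pw, pa', pa, fun v h1 h2 => rr v h2 h1, r'j',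
    r'j, r'w, r'a', r'a, rj', rj, rw, ra', ra, fun v h1 h2 => jj v h2 h1, j'w, j'a', j'a, jw, ja',
    ja, wa', wa, fun v h1 h2 => aa v h2 h1⟩

/-- (N2), the TOKS -/
theorem Neck.n2a (hT : ¬ HasTOKS G) (lxy : Lk G D x y)
    (h : Neck G D x y z s s' r r' P P' R R' J J' W A A' i i' k k' true true w a a')
    (ha : (i ^^ a) = true) (ha' : (i' ^^ a') = true) : False := by
  obtain ⟨hP, hP', hR, hR', hJ, hJ', hW, hA, hA', sP, sP', sR, sR', sJ, sJ', sW, sA, sA', e1, e2, e3,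
    hss, hrr, hxs, hxs', hzs, hzs', hyr, hyr', pp, pr, pr', pj, pj', pw, pa, pa', p'r, p'r', p'j,
    p'j', p'w, p'a, p'a', rr, rj, rj', rw, ra, ra', r'j, r'j', r'w, r'a, r'a', jj, jw, ja, ja', j'w,
    j'a, j'a', wa, wa', aa⟩ := h
  obtain ⟨T, hT1, hT2⟩ := lxy
  have a1 := hP.left_mem
  have a2 := hP.right_mem
  have a3 := hP'.left_mem
  have a4 := hP'.right_mem
  have a9 := hJ.left_mem
  have a10 := hJ.right_mem
  have a11 := hJ'.left_mem
  have a12 := hJ'.right_mem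
  have a13 := hW.left_mem
  have a14 := hW.right_mem
  have a15 := hA.left_mem
  have a16 := hA.right_mem
  have a17 := hA'.left_mem
  have a18 := hA'.right_mem
  have a19 := hT1.left_mem
  have a20 := hT1.right_mem
  have p1 := hP.symm.concat hA (by grind)
  have p2 := hP'.concat hA' (by grind)
  rw [ha] at p1
  rw [ha'] at p2
  have hw : w = true := by rw [e3]; rfl
  subst hw
  clear pr pr' p'r p'r' rr rj rj' rw ra ra' r'j r'j' r'w r'a r'a' hR hR' sR sR'
  have z1 : ∀ v, v ∈ (P ∪ A) → v ∈ D := by grind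
  have z2 : ∀ v, v ∈ (P' ∪ A') → v ∈ D := by grind
  have z3 : ∀ v, v ∈ (P ∪ A) → v ∈ (P' ∪ A') → v = x := by grind
  have z4 : ∀ v, v ∈ (P ∪ A) → v ∈ J → v = r := by grind
  have z5 : ∀ v, v ∈ (P ∪ A) → v ∈ W → v = r := by grind
  have z6 : ∀ v, v ∈ (P ∪ A) → v ∈ J' → False := by grind
  have z7 : ∀ v, v ∈ (P' ∪ A') → v ∈ J' → v = r' := by grind
  have z8 : ∀ v, v ∈ (P' ∪ A') → v ∈ W → v = r' := by grind
  have z9 : ∀ v, v ∈ (P' ∪ A') → v ∈ J → False := by grind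
  have z10 : x ∈ P ∪ A := by grind
  have z11 : x ∈ P' ∪ A' := by grind
  have z12 : x ≠ y := hT1.ne
  clear pp pj pj' pw pa pa' p'j p'j' p'w p'a p'a' ja ja' j'a j'a' wa wa' aa
  generalize P ∪ A = X at *
  generalize P' ∪ A' = X' at *
  refine hT (toks_mk2 (a := r) (b := r') (c := y) (d := x) hW hJ p1.symm hJ'.symm p2.symm hT1.symm ?_ ?_ ?_
    ?_ ?_ ?_ ?_ ?_ ?_ ?_ ?_ ?_ ?_ ?_ ?_) <;> grind


/-- (N2), the ring -/
theorem Neck.n2b (h : Neck G D x y z s s' r r' P P' R R' J J' W A A' i i' k k' true true w a a')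
    (ha : (i ^^ a) = false) (ha' : (k' ^^ a') = false) : Rg G D x y z := by
  obtain ⟨hP, hP', hR, hR', hJ, hJ', hW, hA, hA', sP, sP', sR, sR', sJ, sJ', sW, sA, sA', e1, e2, e3,
    hss, hrr, hxs, hxs', hzs, hzs', hyr, hyr', pp, pr, pr', pj, pj', pw, pa, pa', p'r, p'r', p'j,
    p'j', p'w, p'a, p'a', rr, rj, rj', rw, ra, ra', r'j, r'j', r'w, r'a, r'a', jj, jw, ja, ja', j'w,
    j'a, j'a', wa, wa', aa⟩ := h
  have a1 := hP.left_mem
  have a2 := hP.right_mem
  have a7 := hR'.left_mem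
  have a8 := hR'.right_mem
  have a9 := hJ.left_mem
  have a10 := hJ.right_mem
  have a11 := hJ'.left_mem
  have a12 := hJ'.right_mem
  have a13 := hW.left_mem
  have a14 := hW.right_mem
  have a15 := hA.left_mem
  have a16 := hA.right_mem
  have a17 := hA'.left_mem
  have a18 := hA'.right_mem
  have p1 := hA.symm.concat hP (by grind)
  have p2 := hA'.symm.concat hR'.symm (by grind)
  rw [Bool.xor_comm, ha] at p1
  rw [Bool.xor_comm, ha'] at p2
  have hw : w = true := by rw [e3]; rfl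
  subst hw
  clear pp pr p'r p'r' p'j p'j' p'w p'a p'a' rr rj rj' rw ra ra' hR hP' sR sP'
  have z1 : ∀ v, v ∈ (A ∪ P) → v ∈ D := by grind
  have z2 : ∀ v, v ∈ (A' ∪ R') → v ∈ D := by grind
  have z3 : ∀ v, v ∈ (A ∪ P) → v ∈ (A' ∪ R') → False := by grind
  have z4 : ∀ v, v ∈ (A ∪ P) → v ∈ J → v = r := by grind
  have z5 : ∀ v, v ∈ (A ∪ P) → v ∈ W → v = r := by grind
  have z6 : ∀ v, v ∈ (A ∪ P) → v ∈ J' → False := by grind
  have z7 : ∀ v, v ∈ (A' ∪ R') → v ∈ J' → v = r' := by grind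
  have z8 : ∀ v, v ∈ (A' ∪ R') → v ∈ W → v = r' := by grind
  have z9 : ∀ v, v ∈ (A' ∪ R') → v ∈ J → False := by grind
  clear pj pj' pw pa pa' pr' r'j r'j' r'w r'a r'a' ja ja' j'a j'a' wa wa' aa
  generalize A ∪ P = X at *
  generalize A' ∪ R' = X' at *
  have hyW : y ∉ W := fun h => hyr (jw _ a10 h)
  refine ⟨r, y, r', J, J', W, X, {y}, X', hJ, hJ', hW, p1, PX.refl G y, p2, sJ, sJ', sW, z1, ?_, z2,
    ?_, ?_, ?_, ?_, ?_, ?_, ?_, ?_, ?_, ?_, ?_, ?_, ?_, ?_, ?_⟩ <;> grind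

/-- (N2) -/
theorem Neck.n2 (hT : ¬ HasTOKS G) (lxy : Lk G D x y) (lzy : Lk G D z y)
    (h : Neck G D x y z s s' r r' P P' R R' J J' W A A' i i' k k' true true w a a') :
    Rg G D x y z := by
  have e1 := h.e1
  have e2 := h.e2
  have c1 : ¬ ((i ^^ a) = true ∧ (i' ^^ a') = true) := fun hc => h.n2a hT lxy hc.1 hc.2
  have c2 : ¬ ((k ^^ a) = true ∧ (k' ^^ a') = true) := fun hc => h.swap.n2a hT lzy hc.1 hc.2
  refine h.n2b ?_ ?_
  · revert e1 e2 c1 c2
    cases i <;> cases i' <;> cases k <;> cases k' <;> cases a <;> cases a' <;> decide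
  · revert e1 e2 c1 c2
    cases i <;> cases i' <;> cases k <;> cases k' <;> cases a <;> cases a' <;> decide

/-- the odd cycle through `x`, `s`, `s'`, `r`, `r'` -/
theorem Neck.cyc (h : Neck G D x y z s s' r r' P P' R R' J J' W A A' i i' k k' j j' w a a') :
    OddCyc G ((P ∪ P') ∪ (A ∪ W ∪ A')) := by
  have e2 := h.e2
  have e3 := h.e3
  have p1 := h.hP.concat h.hP' h.pp
  have p2 := (h.hA.concat h.hW (fun v h1 h2 => h.wa v h2 h1)).concat h.hA'.symm (by
    have := h.aa; have := h.wa'; grind)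
  refine OddCyc.of_arcs' p1 p2 ?_ ?_ h.hss
  · rw [e3]; revert e2; cases i <;> cases i' <;> cases j <;> cases j' <;> cases a <;> cases a' <;> decide
  · have := h.pw
    have := h.pa
    have := h.pa'
    have := h.p'w
    have := h.p'a
    have := h.p'a'
    grind

/-- (N3), first part -/
theorem Neck.n3a (h : Neck G D x y z s s' r r' P P' R R' J J' W A A' i i' false k' j false w a a') :
    Ty G D x y z := by
  have hQ := h.cyc
  obtain ⟨hP, hP', hR, hR', hJ, hJ', hW, hA, hA', sP, sP', sR, sR', sJ, sJ', sW, sA, sA', e1, e2, e3,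
    hss, hrr, hxs, hxs', hzs, hzs', hyr, hyr', pp, pr, pr', pj, pj', pw, pa, pa', p'r, p'r', p'j,
    p'j', p'w, p'a, p'a', rr, rj, rj', rw, ra, ra', r'j, r'j', r'w, r'a, r'a', jj, jw, ja, ja', j'w,
    j'a, j'a', wa, wa', aa⟩ := h
  have a1 := hP.left_mem
  have a2 := hP.right_mem
  have a5 := hR.left_mem
  have a6 := hR.right_mem
  have a11 := hJ'.left_mem
  have a12 := hJ'.right_mem
  have a13 := hW.left_mem
  have a14 := hW.right_mem
  have a15 := hA.left_mem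
  have a16 := hA.right_mem
  have a17 := hA'.left_mem
  have a18 := hA'.right_mem
  have q1 : x ≠ r' := by rintro rfl; exact pa' _ a2 a18
  have q2 : r' ≠ s := by rintro rfl; exact aa _ a15 a18
  exact L0 hQ (by grind) (f := x) (g := r') (h := s) (by grind) (by grind) (by grind) q1 q2 hxs
      (PX.refl G x) hJ'.symm hR (by grind) (by grind) (by grind) (by grind)
      (by grind) (by grind) (by grind) (by grind) (by grind)

/-- (N3), second part -/
theorem Neck.n3b (hsr : s' ≠ r')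
    (h : Neck G D x y z s s' r r' P P' R R' J J' W A A' i i' k false j false w a a') :
    Ty G D x y z := by
  have hQ := h.cyc
  obtain ⟨hP, hP', hR, hR', hJ, hJ', hW, hA, hA', sP, sP', sR, sR', sJ, sJ', sW, sA, sA', e1, e2, e3,
    hss, hrr, hxs, hxs', hzs, hzs', hyr, hyr', pp, pr, pr', pj, pj', pw, pa, pa', p'r, p'r', p'j,
    p'j', p'w, p'a, p'a', rr, rj, rj', rw, ra, ra', r'j, r'j', r'w, r'a, r'a', jj, jw, ja, ja', j'w,
    j'a, j'a', wa, wa', aa⟩ := h
  have a1 := hP.left_mem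
  have a2 := hP.right_mem
  have a3 := hP'.left_mem
  have a4 := hP'.right_mem
  have a7 := hR'.left_mem
  have a8 := hR'.right_mem
  have a11 := hJ'.left_mem
  have a12 := hJ'.right_mem
  have a13 := hW.left_mem
  have a14 := hW.right_mem
  have a15 := hA.left_mem
  have a16 := hA.right_mem
  have a17 := hA'.left_mem
  have a18 := hA'.right_mem
  have q1 : x ≠ r' := by rintro rfl; exact pa' _ a2 a18
  exact L0 hQ (by grind) (f := x) (g := r') (h := s') (by grind) (by grind) (by grind) q1 hsr.symm hxs'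
      (PX.refl G x) hJ'.symm hR'.symm (by grind) (by grind) (by grind) (by grind)
      (by grind) (by grind) (by grind) (by grind) (by grind)

/-- (N3), the tripod at `s' = r'` -/
theorem Neck.n3c (hsr : s' = r')
    (h : Neck G D x y z s s' r r' P P' R R' J J' W A A' true false true false j false w a a') :
    Ty G D x y z := by
  obtain ⟨hP, hP', hR, hR', hJ, hJ', hW, hA, hA', sP, sP', sR, sR', sJ, sJ', sW, sA, sA', e1, e2, e3,
    hss, hrr, hxs, hxs', hzs, hzs', hyr, hyr', pp, pr, pr', pj, pj', pw, pa, pa', p'r, p'r', p'j,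
    p'j', p'w, p'a, p'a', rr, rj, rj', rw, ra, ra', r'j, r'j', r'w, r'a, r'a', jj, jw, ja, ja', j'w,
    j'a, j'a', wa, wa', aa⟩ := h
  subst hsr
  have ha' : a' = false := (hA'.eq_of_eq).2
  subst ha'
  have hw : (w ^^ a ^^ true) = true := by
    rw [e3]; revert e2; cases j <;> cases a <;> decide
  have a1 := hP.left_mem
  have a2 := hP.right_mem
  have a3 := hP'.left_mem
  have a4 := hP'.right_mem
  have a5 := hR.left_mem
  have a6 := hR.right_mem
  have a7 := hR'.left_mem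
  have a8 := hR'.right_mem
  have a11 := hJ'.left_mem
  have a12 := hJ'.right_mem
  have a13 := hW.left_mem
  have a14 := hW.right_mem
  have a15 := hA.left_mem
  have a16 := hA.right_mem
  have p1 := (hW.symm.concat hA.symm (by grind)).concat hP (by grind)
  have p2 := (hW.symm.concat hA.symm (by grind)).concat hR (by grind)
  rw [hw] at p1 p2
  refine Or.inl ⟨?_, Or.inr (Or.inl ⟨?_, ?_⟩)⟩
  · exact ⟨s', P', J', R', hP'.symm, hJ'.symm, hR'.symm, sP', sJ', sR', by grind, by grind, by grind⟩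
  · exact ⟨s', _, J', R', p1, hJ'.symm, hR'.symm, by grind, sJ', sR', by grind, by grind, by grind⟩
  · exact ⟨s', P', J', _, hP'.symm, hJ'.symm, p2, sP', sJ', by grind, by grind, by grind, by grind⟩

/-- (N3) -/
theorem Neck.n3 (hT : ¬ HasTOKS G) (lxz : Lk G D x z)
    (h : Neck G D x y z s s' r r' P P' R R' J J' W A A' i i' k k' j false w a a') :
    Ty G D x y z := by
  have e1 := h.e1
  cases k with
  | false => exact h.n3a
  | true =>
    cases i with
    | false => exact h.swap.n3a.swap13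
    | true =>
      have hik : i' = k' := by revert e1; cases i' <;> cases k' <;> decide
      subst hik
      cases i' with
      | true => exact (h.n1 hT lxz).elim
      | false =>
        by_cases hsr : s' = r'
        · exact h.n3c hsr
        · exact h.n3b hsr

/-- the necklace is killed -/
theorem Neck.ty (hT : ¬ HasTOKS G) (lxy : Lk G D x y) (lxz : Lk G D x z) (lyz : Lk G D y z)
    (h : Neck G D x y z s s' r r' P P' R R' J J' W A A' i i' k k' j j' w a a') :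
    Ty G D x y z := by
  cases j' with
  | false => exact h.n3 hT lxz
  | true =>
    cases j with
    | false => exact h.flip.n3 hT lxz
    | true => exact Or.inr (h.n2 hT lxy lyz.symm)

end Pool.Agent.TOKSN
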