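import Mathlib
import Pool.Agent.TOKSN.HTNeck

/-!
# Step 2 of (HT*): no odd cycle of the hub contains two feet
-/

set_option autoImplicit false
set_option linter.unusedSectionVars false
set_option linter.unusedVariables false

namespace Pool.Agent.TOKSN

open Pool.Agent.TOKST (HasTOKS)

variable {V : Type} [DecidableEq V] {G : SimpleGraph V} {D : Finset V}

/-- the theta graph: `x` on `I`, `y` on `J`, `I` and `J` of parity `b`, `W` of parity `!b` -/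
structure Th (G : SimpleGraph V) (D : Finset V) (x y c c' : V) (I J W : Finset V) (b : Bool) :
    Prop where
  hI : PX G I c c' b
  hJ : PX G J c c' b
  hW : PX G W c c' (!b)
  sI : ∀ v, v ∈ I → v ∈ D
  sJ : ∀ v, v ∈ J → v ∈ D
  sW : ∀ v, v ∈ W → v ∈ D
  hcc : c ≠ c'
  ij : ∀ v, v ∈ I → v ∈ J → v = c ∨ v = c'
  iw : ∀ v, v ∈ I → v ∈ W → v = c ∨ v = c'
  jw : ∀ v, v ∈ J → v ∈ W → v = c ∨ v = c'
  xI : x ∈ I
  xc : x ≠ c
  xc' : x ≠ c'
  yJ : y ∈ J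
  yc : y ≠ c
  yc' : y ≠ c'

/-- the fan: `F1` from `z` to `t`, `F2` from `z` to `t'` -/
structure Fn (G : SimpleGraph V) (D : Finset V) (z t t' : V) (I J W F1 F2 : Finset V)
    (f1 f2 : Bool) : Prop where
  h1 : PX G F1 z t f1
  h2 : PX G F2 z t' f2
  s1 : ∀ v, v ∈ F1 → v ∈ D
  s2 : ∀ v, v ∈ F2 → v ∈ D
  ne : t ≠ t'
  m : ∀ v, v ∈ F1 → v ∈ F2 → v = z
  i1 : ∀ v, v ∈ F1 → v ∈ I → v = t
  j1 : ∀ v, v ∈ F1 → v ∈ J → v = t
  w1 : ∀ v, v ∈ F1 → v ∈ W → v = t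
  i2 : ∀ v, v ∈ F2 → v ∈ I → v = t'
  j2 : ∀ v, v ∈ F2 → v ∈ J → v = t'
  w2 : ∀ v, v ∈ F2 → v ∈ W → v = t'
  zI : z ∉ I
  zJ : z ∉ J
  zW : z ∉ W

variable {x y z c c' t t' : V} {I J W F1 F2 : Finset V} {b f1 f2 : Bool}

theorem Th.flip (h : Th G D x y c c' I J W b) : Th G D x y c' c I J W b := by
  obtain ⟨hI, hJ, hW, sI, sJ, sW, hcc, ij, iw, jw, xI, xc, xc', yJ, yc, yc'⟩ := h
  exact ⟨hI.symm, hJ.symm, hW.symm, sI, sJ, sW, hcc.symm, fun v h1 h2 => (ij v h1 h2).symm,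
    fun v h1 h2 => (iw v h1 h2).symm, fun v h1 h2 => (jw v h1 h2).symm, xI, xc', xc, yJ, yc', yc⟩

theorem Th.swap (h : Th G D x y c c' I J W b) : Th G D y x c c' J I W b := by
  obtain ⟨hI, hJ, hW, sI, sJ, sW, hcc, ij, iw, jw, xI, xc, xc', yJ, yc, yc'⟩ := h
  exact ⟨hJ, hI, hW, sJ, sI, sW, hcc, fun v h1 h2 => ij v h2 h1, jw, iw, yJ, yc, yc', xI, xc, xc'⟩

theorem Fn.swap (h : Fn G D z t t' I J W F1 F2 f1 f2) : Fn G D z t' t I J W F2 F1 f2 f1 := by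
  obtain ⟨h1, h2, s1, s2, ne, m, i1, j1, w1, i2, j2, w2, zI, zJ, zW⟩ := h
  exact ⟨h2, h1, s2, s1, ne.symm, fun v h1 h2 => m v h2 h1, i2, j2, w2, i1, j1, w1, zI, zJ, zW⟩

theorem Fn.ij (h : Fn G D z t t' I J W F1 F2 f1 f2) : Fn G D z t t' J I W F1 F2 f1 f2 := by
  obtain ⟨h1, h2, s1, s2, ne, m, i1, j1, w1, i2, j2, w2, zI, zJ, zW⟩ := h
  exact ⟨h1, h2, s1, s2, ne, m, j1, i1, w1, j2, i2, w2, zJ, zI, zW⟩

/-- `t` inside `I`, `t'` inside `J` -/
theorem case_ij (h0 : ∀ Q, OddCyc G Q → Q ⊆ D → (x ∈ Q → z ∈ Q → False))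
    (hT : Th G D x y c c' I J W b) (hF : Fn G D z t t' I J W F1 F2 f1 f2)
    (ht : t ∈ I) (htc : t ≠ c) (htc' : t ≠ c') (ht' : t' ∈ J) (htc2 : t' ≠ c) (htc2' : t' ≠ c') :
    False := by
  obtain ⟨h1, h2, s1, s2, ne, m, i1, j1, w1, i2, j2, w2, zI, zJ, zW⟩ := hF
  -- it is enough to treat `x` between `c` and `t`
  have key : ∀ {c c' : V} {Ia Ib Ja Jb : Finset V} {α α' γ γ' : Bool}, PX G Ia c t α →
      PX G Ib t c' α' → PX G Ja c t' γ → PX G Jb t' c' γ' → PX G W c c' (!b) → (γ ^^ γ') = b →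
      (∀ v, v ∈ Ia → v ∈ D) → (∀ v, v ∈ Ja → v ∈ D) → (∀ v, v ∈ Jb → v ∈ D) →
      (∀ v, v ∈ W → v ∈ D) →
      (∀ v, v ∈ Ia → v ∈ I) → (∀ v, v ∈ Ja → v ∈ J) → (∀ v, v ∈ Jb → v ∈ J) →
      (∀ v, v ∈ Ia → v ∈ Ja → v = c) → (∀ v, v ∈ Ia → v ∈ Jb → False) →
      (∀ v, v ∈ Ia → v ∈ W → v = c) → (∀ v, v ∈ Ja → v ∈ Jb → v = t') →
      (∀ v, v ∈ Jb → v ∈ W → v = c') → x ∈ Ia → False := by
    intro c c' Ia Ib Ja Jb α α' γ γ' pIa pIb pJa pJb pW e u1 u2 u3 u4 v1 v2 v3 m1 m2 m3 m4 m5 hx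
    have a1 := h1.left_mem
    have a2 := h1.right_mem
    have a3 := h2.left_mem
    have a4 := h2.right_mem
    have a5 := pIa.left_mem
    have a6 := pIa.right_mem
    have a7 := pJa.left_mem
    have a8 := pJa.right_mem
    have a9 := pJb.left_mem
    have a10 := pJb.right_mem
    have pF := h1.symm.concat h2 (by grind)
    by_cases hf : (α ^^ γ) = !(f1 ^^ f2)
    · have q := pIa.symm.concat pJa (by grind)
      have hQ := OddCyc.of_arcs' pF q hf (by grind) ne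
      exact h0 _ hQ (by intro v hv; grind) (by grind) (by grind)
    · have q := (pIa.symm.concat pW (by grind)).concat pJb.symm (by grind)
      have hQ := OddCyc.of_arcs' pF q (by
        subst e; revert hf
        cases α <;> cases γ <;> cases γ' <;> cases f1 <;> cases f2 <;> decide) (by grind) ne
      exact h0 _ hQ (by intro v hv; grind) (by grind) (by grind)
  obtain ⟨hI, hJ, hW, sI, sJ, sW, hcc, ij, iw, jw, xI, xc, xc', yJ, yc, yc'⟩ := hT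
  obtain ⟨Ia, Ib, α, α', pIa, pIb, u1, u2, u3, u4, u5⟩ := hI.cut' ht
  obtain ⟨Ja, Jb, γ, γ', pJa, pJb, w1', w2', w3, w4, w5⟩ := hJ.cut' ht'
  have a5 := pIa.left_mem
  have a6 := pIa.right_mem
  have a6' := pIb.right_mem
  have a7 := pJa.left_mem
  have a8 := pJa.right_mem
  have a9 := pJb.left_mem
  have a10 := pJb.right_mem
  have q1 : c' ∉ Ia := fun h => htc' (u4 c' h a6').symm
  have q2 : c ∉ Ib := fun h => htc (u4 c a5 h).symm
  have q3 : c' ∉ Ja := fun h => htc2' (w4 c' h a10).symm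
  have q4 : c ∉ Jb := fun h => htc2 (w4 c a7 h).symm
  rcases u3 x xI with hx | hx
  · refine key pIa pIb pJa pJb hW w5 ?_ ?_ ?_ sW u1 w1' w2' ?_ ?_ ?_ w4 ?_ hx <;>
      clear key <;> grind
  · refine key pIb.symm pIa.symm pJb.symm pJa.symm hW.symm (by rw [Bool.xor_comm, w5]) ?_ ?_ ?_ sW u2 w2' w1'
      ?_ ?_ ?_ ?_ ?_ hx <;> clear key <;> grind


/-- `t` inside `I`, `t'` inside `W` -/
theorem case_iw (h0 : ∀ Q, OddCyc G Q → Q ⊆ D → (y ∈ Q → z ∈ Q → False))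
    (hT : Th G D x y c c' I J W b) (hF : Fn G D z t t' I J W F1 F2 f1 f2)
    (ht : t ∈ I) (htc : t ≠ c) (htc' : t ≠ c') (ht' : t' ∈ W) (htc2 : t' ≠ c) (htc2' : t' ≠ c') :
    False := by
  obtain ⟨h1, h2, s1, s2, ne, m, i1, j1, w1, i2, j2, w2, zI, zJ, zW⟩ := hF
  obtain ⟨hI, hJ, hW, sI, sJ, sW, hcc, ij, iw, jw, xI, xc, xc', yJ, yc, yc'⟩ := hT
  obtain ⟨Ia, Ib, α, α', pIa, pIb, u1, u2, u3, u4, u5⟩ := hI.cut' ht
  obtain ⟨Wa, Wb, γ, γ', pWa, pWb, w1', w2', w3, w4, w5⟩ := hW.cut' ht'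
  have a1 := h1.left_mem
  have a2 := h1.right_mem
  have a3 := h2.left_mem
  have a4 := h2.right_mem
  have a5 := pIa.left_mem
  have a6 := pIa.right_mem
  have a6' := pIb.right_mem
  have a7 := pWa.left_mem
  have a8 := pWa.right_mem
  have a9 := pWb.left_mem
  have a10 := pWb.right_mem
  have q1 : c' ∉ Ia := fun h => htc' (u4 c' h a6').symm
  have q2 : c ∉ Ib := fun h => htc (u4 c a5 h).symm
  have q3 : c' ∉ Wa := fun h => htc2' (w4 c' h a10).symm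
  have q4 : c ∉ Wb := fun h => htc2 (w4 c a7 h).symm
  have pF := h1.symm.concat h2 (by grind)
  by_cases hf : (α ^^ b ^^ γ') = !(f1 ^^ f2)
  · have q := (pIa.symm.concat hJ (by grind)).concat pWb.symm (by grind)
    have hQ := OddCyc.of_arcs' pF q hf (by grind) ne
    exact h0 _ hQ (by intro v hv; grind) (by grind) (by grind)
  · have q := (pIb.concat hJ.symm (by grind)).concat pWa (by grind)
    have hQ := OddCyc.of_arcs' pF q (by
      revert hf u5 w5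
      cases b <;> cases α <;> cases α' <;> cases γ <;> cases γ' <;> cases f1 <;> cases f2 <;> decide)
      (by grind) ne
    exact h0 _ hQ (by intro v hv; grind) (by grind) (by grind)

/-- `t`, `t'` on `I` in this order -/
theorem case_ii0 (hK : ¬ HasTOKS G) (lxy : Lk G D x y) (lxz : Lk G D x z) (lyz : Lk G D y z)
    (h0 : ∀ Q, OddCyc G Q → Q ⊆ D → (x ∈ Q → z ∈ Q → False) ∧ (y ∈ Q → z ∈ Q → False))
    (hT : Th G D x y c c' I J W b) (hF : Fn G D z t t' I J W F1 F2 f1 f2)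
    {Ia Im Ib : Finset V} {α μ α' : Bool} (pIa : PX G Ia c t α) (pIm : PX G Im t t' μ)
    (pIb : PX G Ib t' c' α') (hab : (α ^^ μ ^^ α') = b) (u1 : ∀ v, v ∈ Ia → v ∈ I)
    (u2 : ∀ v, v ∈ Im → v ∈ I) (u3 : ∀ v, v ∈ Ib → v ∈ I)
    (u4 : ∀ v, v ∈ I → v ∈ Ia ∨ v ∈ Im ∨ v ∈ Ib) (m1 : ∀ v, v ∈ Ia → v ∈ Im → v = t)
    (m2 : ∀ v, v ∈ Ia → v ∈ Ib → False) (m3 : ∀ v, v ∈ Im → v ∈ Ib → v = t') : Ty G D x y z := by
  obtain ⟨h1, h2, s1, s2, ne, m, i1, j1, w1, i2, j2, w2, zI, zJ, zW⟩ := hF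
  obtain ⟨hI, hJ, hW, sI, sJ, sW, hcc, ij, iw, jw, xI, xc, xc', yJ, yc, yc'⟩ := hT
  have a1 := h1.left_mem
  have a2 := h1.right_mem
  have a3 := h2.left_mem
  have a4 := h2.right_mem
  have a5 := pIa.left_mem
  have a6 := pIa.right_mem
  have a7 := pIm.left_mem
  have a8 := pIm.right_mem
  have a9 := pIb.left_mem
  have a10 := pIb.right_mem
  have q1 : c' ∉ Ia := fun h => m2 c' h a10
  have q2 : c ∉ Ib := fun h => m2 c a5 h
  have pF := h1.symm.concat h2 (by grind)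
  have p := (pIa.concat pF (by grind)).concat pIb (by grind)
  have hf : (f1 ^^ f2) = μ := by
    by_contra hf
    have hQ := OddCyc.of_arcs' hJ p (by
      subst hab; revert hf; cases α <;> cases μ <;> cases α' <;> cases f1 <;> cases f2 <;> decide)
      (by grind) hcc
    exact (h0 _ hQ (by intro v hv; grind)).2 (by grind) (by grind)
  have hx : x ∉ Ia ∧ x ∉ Ib := by
    by_contra hx
    have hQ := OddCyc.of_arcs' hW p (by rw [hf, hab]; simp) (by grind) hcc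
    exact (h0 _ hQ (by intro v hv; grind)).1 (by grind) (by grind)
  have hxm : x ∈ Im := by grind
  obtain ⟨P, P', i, i', pP, pP', w1', w2', w3, w4, w5⟩ := pIm.cut' hxm
  obtain ⟨J1, J2, j, j', pJ1, pJ2, v1', v2', v3, v4, v5⟩ := hJ.cut' yJ
  have b1 := pP.left_mem
  have b2 := pP.right_mem
  have b3 := pP'.left_mem
  have b4 := pP'.right_mem
  have b5 := pJ1.left_mem
  have b6 := pJ1.right_mem
  have b7 := pJ2.left_mem
  have b8 := pJ2.right_mem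
  have r1 : t' ∉ P := fun h => by
    have := w4 t' h b4
    grind
  have r2 : t ∉ P' := fun h => by
    have := w4 t b1 h
    grind
  have r3 : c' ∉ J1 := fun h => yc' (v4 c' h b8).symm
  have r4 : c ∉ J2 := fun h => yc (v4 c b5 h).symm
  have hxt : x ≠ t := by grind
  have hxt' : x ≠ t' := by grind
  have hzt : z ≠ t := by grind
  have hzt' : z ≠ t' := by grind
  have n : Neck G D x y z t t' c c' P P' F1 F2 J1 J2 W Ia Ib i i' f1 f2 j j' (!b) α α' := by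
    refine ⟨pP, pP', h1.symm, h2, pJ1, pJ2, hW, pIa.symm, pIb, ?_, ?_, s1, s2, ?_, ?_, sW, ?_, ?_,
      ?_, ?_, ?_, ne, hcc, hxt, hxt', hzt, hzt', yc, yc', w4, ?_, ?_, ?_, ?_, ?_, ?_, ?_, ?_, ?_, ?_,
      ?_, ?_, ?_, ?_, m, ?_, ?_, ?_, ?_, ?_, ?_, ?_, ?_, ?_, ?_, v4, ?_, ?_, ?_, ?_, ?_, ?_, ?_, ?_,
      m2⟩
    case refine_7 => rw [w5, hf]
    case refine_8 =>
      rw [v5, w5, ← hab]; cases α <;> cases μ <;> cases α' <;> rfl
    case refine_9 => rw [v5]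
    all_goals clear h0 hf; grind
  exact n.ty hK lxy lxz lyz


/-- `t`, `t'` on `W` in this order -/
theorem case_ww0 (hK : ¬ HasTOKS G) (lxy : Lk G D x y) (lxz : Lk G D x z) (lyz : Lk G D y z)
    (h0 : ∀ Q, OddCyc G Q → Q ⊆ D → (x ∈ Q → z ∈ Q → False))
    (hT : Th G D x y c c' I J W b) (hF : Fn G D z t t' I J W F1 F2 f1 f2)
    {Wa Wm Wb : Finset V} {α μ α' : Bool} (pWa : PX G Wa c t α) (pWm : PX G Wm t t' μ)
    (pWb : PX G Wb t' c' α') (hab : (α ^^ μ ^^ α') = !b) (u1 : ∀ v, v ∈ Wa → v ∈ W)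
    (u2 : ∀ v, v ∈ Wm → v ∈ W) (u3 : ∀ v, v ∈ Wb → v ∈ W)
    (m1 : ∀ v, v ∈ Wa → v ∈ Wm → v = t)
    (m2 : ∀ v, v ∈ Wa → v ∈ Wb → False) (m3 : ∀ v, v ∈ Wm → v ∈ Wb → v = t') : Ty G D x y z := by
  obtain ⟨h1, h2, s1, s2, ne, m, i1, j1, w1, i2, j2, w2, zI, zJ, zW⟩ := hF
  obtain ⟨hI, hJ, hW, sI, sJ, sW, hcc, ij, iw, jw, xI, xc, xc', yJ, yc, yc'⟩ := hT
  have a1 := h1.left_mem
  have a2 := h1.right_mem
  have a3 := h2.left_mem
  have a4 := h2.right_mem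
  have a5 := pWa.left_mem
  have a6 := pWa.right_mem
  have a7 := pWm.left_mem
  have a8 := pWm.right_mem
  have a9 := pWb.left_mem
  have a10 := pWb.right_mem
  have q1 : c' ∉ Wa := fun h => m2 c' h a10
  have q2 : c ∉ Wb := fun h => m2 c a5 h
  have q3 : c ∈ Wm → c = t := fun h => m1 c a5 h
  have q4 : c' ∈ Wm → c' = t' := fun h => m3 c' h a10
  have pF := h1.symm.concat h2 (by grind)
  have p := (pWa.concat pF (by grind)).concat pWb (by grind)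
  have hf : (f1 ^^ f2) = !μ := by
    by_contra hf
    have hQ := OddCyc.of_arcs' hI p (by
      revert hf hab; cases b <;> cases α <;> cases μ <;> cases α' <;> cases f1 <;> cases f2 <;> decide)
      (by grind) hcc
    exact h0 _ hQ (by intro v hv; grind) (by grind) (by grind)
  obtain ⟨P, P', i, i', pP, pP', w1', w2', w3, w4, w5⟩ := hI.cut' xI
  obtain ⟨R, R', k, k', pR, pR', v1', v2', v3, v4, v5⟩ := hJ.cut' yJ
  have b1 := pP.left_mem
  have b2 := pP.right_mem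
  have b3 := pP'.left_mem
  have b4 := pP'.right_mem
  have b5 := pR.left_mem
  have b6 := pR.right_mem
  have b7 := pR'.left_mem
  have b8 := pR'.right_mem
  have r1 : c' ∉ P := fun h => xc' (w4 c' h b4).symm
  have r2 : c ∉ P' := fun h => xc (w4 c b1 h).symm
  have r3 : c' ∉ R := fun h => yc' (v4 c' h b8).symm
  have r4 : c ∉ R' := fun h => yc (v4 c b5 h).symm
  have hzt : z ≠ t := by grind
  have hzt' : z ≠ t' := by grind
  have n : Neck G D x z y c c' t t' P P' R R' F1 F2 Wm Wa Wb i i' k k' f1 f2 μ α α' := by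
    refine ⟨pP, pP', pR, pR', h1.symm, h2, pWm, pWa, pWb.symm, ?_, ?_, ?_, ?_, s1, s2, ?_, ?_, ?_,
      ?_, ?_, ?_, hcc, ne, xc, xc', yc, yc', hzt, hzt', w4, ?_, ?_, ?_, ?_, ?_, ?_, ?_, ?_, ?_, ?_,
      ?_, ?_, ?_, ?_, v4, ?_, ?_, ?_, ?_, ?_, ?_, ?_, ?_, ?_, ?_, m, ?_, ?_, ?_, ?_, ?_, ?_, ?_, ?_,
      m2⟩
    case refine_8 => rw [w5, v5]
    case refine_9 =>
      rw [w5, hf]; revert hab
      cases b <;> cases α <;> cases μ <;> cases α' <;> decide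
    case refine_10 => rw [hf]; simp
    all_goals clear h0 hf; grind
  exact (n.ty hK lxz lxy lyz.symm).swap23

theorem case_ii (hK : ¬ HasTOKS G) (lxy : Lk G D x y) (lxz : Lk G D x z) (lyz : Lk G D y z)
    (h0 : ∀ Q, OddCyc G Q → Q ⊆ D → (x ∈ Q → z ∈ Q → False) ∧ (y ∈ Q → z ∈ Q → False))
    (hT : Th G D x y c c' I J W b) (hF : Fn G D z t t' I J W F1 F2 f1 f2) (ht : t ∈ I)
    (ht' : t' ∈ I) : Ty G D x y z := by
  obtain ⟨Ia, Ib, α, α', pIa, pIb, u1, u2, u3, u4, u5⟩ := hT.hI.cut' ht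
  have ne := hF.ne
  rcases u3 t' ht' with h | h
  · -- order `c .. t' .. t .. c'`
    obtain ⟨Ja, Jb, γ, γ', pJa, pJb, w1', w2', w3, w4, w5⟩ := pIa.cut' h
    have a1 := pIa.right_mem
    have a2 := pJb.right_mem
    have q1 : t ∉ Ja := fun h => ne (w4 t h a2)
    exact case_ii0 hK lxy lxz lyz h0 hT hF.swap pJa pJb pIb (by rw [w5, u5]) (by grind) (by grind)
      (by grind) (by grind) w4 (by grind) (by grind)
  · obtain ⟨Ja, Jb, γ, γ', pJa, pJb, w1', w2', w3, w4, w5⟩ := pIb.cut' h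
    have a1 := pIa.right_mem
    have a2 := pJa.left_mem
    have q1 : t ∉ Jb := fun h => ne (w4 t a2 h)
    exact case_ii0 hK lxy lxz lyz h0 hT hF pIa pJa pJb (by rw [← u5, ← w5]; simp) (by grind) (by grind)
      (by grind) (by grind) (by grind) (by grind) w4

theorem case_ww (hK : ¬ HasTOKS G) (lxy : Lk G D x y) (lxz : Lk G D x z) (lyz : Lk G D y z)
    (h0 : ∀ Q, OddCyc G Q → Q ⊆ D → (x ∈ Q → z ∈ Q → False))
    (hT : Th G D x y c c' I J W b) (hF : Fn G D z t t' I J W F1 F2 f1 f2) (ht : t ∈ W)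
    (ht' : t' ∈ W) : Ty G D x y z := by
  obtain ⟨Ia, Ib, α, α', pIa, pIb, u1, u2, u3, u4, u5⟩ := hT.hW.cut' ht
  have ne := hF.ne
  rcases u3 t' ht' with h | h
  · obtain ⟨Ja, Jb, γ, γ', pJa, pJb, w1', w2', w3, w4, w5⟩ := pIa.cut' h
    have a1 := pIa.right_mem
    have a2 := pJb.right_mem
    have q1 : t ∉ Ja := fun h => ne (w4 t h a2)
    exact case_ww0 hK lxy lxz lyz h0 hT hF.swap pJa pJb pIb (by rw [w5, u5]) (by grind) (by grind)
      (by grind) w4 (by grind) (by grind)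
  · obtain ⟨Ja, Jb, γ, γ', pJa, pJb, w1', w2', w3, w4, w5⟩ := pIb.cut' h
    have a1 := pIa.right_mem
    have a2 := pJa.left_mem
    have q1 : t ∉ Jb := fun h => ne (w4 t a2 h)
    exact case_ww0 hK lxy lxz lyz h0 hT hF pIa pJa pJb (by rw [← u5, ← w5]; simp) (by grind) (by grind)
      (by grind) (by grind) (by grind) w4

/-- theta + fan -/
theorem theta_fan (hK : ¬ HasTOKS G) (lxy : Lk G D x y) (lxz : Lk G D x z) (lyz : Lk G D y z)
    (h0 : ∀ Q, OddCyc G Q → Q ⊆ D → (x ∈ Q → z ∈ Q → False) ∧ (y ∈ Q → z ∈ Q → False))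
    (hT : Th G D x y c c' I J W b) (hF : Fn G D z t t' I J W F1 F2 f1 f2)
    (ht : t ∈ I ∨ t ∈ J ∨ t ∈ W) (ht' : t' ∈ I ∨ t' ∈ J ∨ t' ∈ W) : Ty G D x y z := by
  have h0s : ∀ Q, OddCyc G Q → Q ⊆ D → (y ∈ Q → z ∈ Q → False) ∧ (x ∈ Q → z ∈ Q → False) :=
    fun Q h1 h2 => (h0 Q h1 h2).symm
  have h0x : ∀ Q, OddCyc G Q → Q ⊆ D → (x ∈ Q → z ∈ Q → False) := fun Q h1 h2 => (h0 Q h1 h2).1
  have h0y : ∀ Q, OddCyc G Q → Q ⊆ D → (y ∈ Q → z ∈ Q → False) := fun Q h1 h2 => (h0 Q h1 h2).2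
  by_cases c1 : t ∈ I ∧ t' ∈ I
  · exact case_ii hK lxy lxz lyz h0 hT hF c1.1 c1.2
  by_cases c2 : t ∈ J ∧ t' ∈ J
  · exact (case_ii hK lxy.symm lyz lxz h0s hT.swap hF.ij c2.1 c2.2).swap12
  by_cases c3 : t ∈ W ∧ t' ∈ W
  · exact case_ww hK lxy lxz lyz h0x hT hF c3.1 c3.2
  exfalso
  have e1 := hT.hI.left_mem
  have e2 := hT.hI.right_mem
  have e3 := hT.hJ.left_mem
  have e4 := hT.hJ.right_mem
  have e5 := hT.hW.left_mem
  have e6 := hT.hW.right_mem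
  have n1 : t ≠ c := by rintro rfl; grind
  have n2 : t ≠ c' := by rintro rfl; grind
  have n3 : t' ≠ c := by rintro rfl; grind
  have n4 : t' ≠ c' := by rintro rfl; grind
  rcases ht with a | a | a <;> rcases ht' with a' | a' | a'
  · exact c1 ⟨a, a'⟩
  · exact case_ij h0x hT hF a n1 n2 a' n3 n4
  · exact case_iw h0y hT hF a n1 n2 a' n3 n4
  · exact case_ij h0x hT hF.swap a' n3 n4 a n1 n2
  · exact c2 ⟨a, a'⟩
  · exact case_iw h0x hT.swap hF.ij a n1 n2 a' n3 n4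
  · exact case_iw h0y hT hF.swap a' n3 n4 a n1 n2
  · exact case_iw h0x hT.swap hF.ij.swap a' n3 n4 a n1 n2
  · exact c3 ⟨a, a'⟩


/-- Step 2, after the choice of the arcs -/
theorem step2_theta (hK : ¬ HasTOKS G) (hD : Hub G D) (hz : z ∈ D) (lxy : Lk G D x y)
    (lxz : Lk G D x z) (lyz : Lk G D y z)
    (h0 : ∀ Q, OddCyc G Q → Q ⊆ D → (x ∈ Q → y ∈ Q → False) ∧ (x ∈ Q → z ∈ Q → False) ∧
      (y ∈ Q → z ∈ Q → False))
    (pI : PX G I c c' b) (pW : PX G W c c' (!b)) (pJ : PX G J c c' f1)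
    (sI : ∀ v, v ∈ I → v ∈ D) (sW : ∀ v, v ∈ W → v ∈ D) (sJ : ∀ v, v ∈ J → v ∈ D) (hcc : c ≠ c')
    (iw : ∀ v, v ∈ I → v ∈ W → v = c ∨ v = c') (ij : ∀ v, v ∈ I → v ∈ J → v = c ∨ v = c')
    (jw : ∀ v, v ∈ J → v ∈ W → v = c ∨ v = c') (xI : x ∈ I) (yJ : y ∈ J) (yc : y ≠ c) (yc' : y ≠ c')
    (zI : z ∉ I) (zW : z ∉ W) : Ty G D x y z := by
  have e1 := pI.left_mem
  have e2 := pI.right_mem
  have e3 := pJ.left_mem
  have e4 := pJ.right_mem
  have e5 := pW.left_mem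
  have e6 := pW.right_mem
  have hf : f1 = b := by
    by_contra hf
    have hQ := OddCyc.of_arcs' pI pJ (by revert hf; cases f1 <;> cases b <;> decide) ij hcc
    exact (h0 _ hQ (by intro v hv; grind)).1 (by grind) (by grind)
  subst hf
  have hQ := OddCyc.of_arcs' pJ pW rfl jw hcc
  have h1 := h0 _ hQ (by intro v hv; grind)
  have xc : x ≠ c := by rintro rfl; exact h1.1 (by grind) (by grind)
  have xc' : x ≠ c' := by rintro rfl; exact h1.1 (by grind) (by grind)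
  have zJ : z ∉ J := fun h => h1.2.2 (by grind) (by grind)
  have hT : Th G D x y c c' I J W f1 :=
    ⟨pI, pJ, pW, sI, sJ, sW, hcc, ij, iw, jw, xI, xc, xc', yJ, yc, yc'⟩
  have hzB : z ∉ I ∪ J ∪ W := by grind
  obtain ⟨t, t', F1, F2, f1, f2, htt, htQ, htQ', hF1, hF2, s1, s2, i1, i2, i3⟩ :=
    hD.fan (B := I ∪ J ∪ W) hz hzB (by
      have h3 : ({c, c'} : Finset V) ⊆ (I ∪ J ∪ W) ∩ D := by
        intro v hv
        have := sI
        grind
      have h4 := Finset.card_le_card h3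
      rw [Finset.card_pair hcc] at h4
      exact h4)
  have m1 := eq_of_inter i1
  have m2 := eq_of_inter i2
  have m3 := eq_of_inter i3
  have hF : Fn G D z t t' I J W F1 F2 f1 f2 :=
    ⟨hF1, hF2, fun v hv => s1 hv, fun v hv => s2 hv, htt, m1, fun v h1 h2 => m2 v h1 (by grind),
      fun v h1 h2 => m2 v h1 (by grind), fun v h1 h2 => m2 v h1 (by grind),
      fun v h1 h2 => m3 v h1 (by grind), fun v h1 h2 => m3 v h1 (by grind),
      fun v h1 h2 => m3 v h1 (by grind), zI, zJ, zW⟩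
  exact theta_fan hK lxy lxz lyz (fun Q h1 h2 => (h0 Q h1 h2).2) hT hF (by grind) (by grind)

theorem ht_step2 (hK : ¬ HasTOKS G) (hD : Hub G D) (hx : x ∈ D) (hy : y ∈ D) (hz : z ∈ D)
    (hxy : x ≠ y) (lxy : Lk G D x y) (lxz : Lk G D x z) (lyz : Lk G D y z)
    (h0 : ∀ Q, OddCyc G Q → Q ⊆ D → (x ∈ Q → y ∈ Q → False) ∧ (x ∈ Q → z ∈ Q → False) ∧
      (y ∈ Q → z ∈ Q → False)) : Ty G D x y z := by
  -- an odd cycle through `x`
  obtain ⟨T, hT1, hT2⟩ := (hD.par hx hy hxy true)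
  obtain ⟨p, T', e, hT', hTT, hxT'⟩ := hT2.uncons hxy
  have hp : p ∈ D := hT1 (by rw [hTT]; exact Finset.mem_insert_of_mem hT'.left_mem)
  obtain ⟨Q, hQD, hQ1⟩ := hD.par hx hp e.ne false
  have hQ : OddCyc G Q := OddCyc.of_edge hQ1 e
  have hxQ : x ∈ Q := hQ1.left_mem
  have h1 := h0 Q hQ hQD
  have hyQ : y ∉ Q := fun h => h1.1 hxQ h
  have hzQ : z ∉ Q := fun h => h1.2.1 hxQ h
  obtain ⟨c, c', F1, F2, f1, f2, hcc, hcQ, hcQ', hF1, hF2, s1, s2, i1, i2, i3⟩ :=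
    hD.fan (B := Q) hy hyQ (by
      have h1 : Q ∩ D = Q := Finset.inter_eq_left.2 hQD
      have h2 := hQ.card_le
      rw [h1]
      omega)
  have m1 := eq_of_inter i1
  have m2 := eq_of_inter i2
  have m3 := eq_of_inter i3
  obtain ⟨A, B, a, hA, hB, hU, hI⟩ := hQ.arcs hcQ hcQ' hcc
  have n1 := eq_of_inter2 hI
  have hyc : y ≠ c := by rintro rfl; exact hyQ hcQ
  have hyc' : y ≠ c' := by rintro rfl; exact hyQ hcQ'
  have uA : ∀ v, v ∈ A → v ∈ Q := by grind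
  have uB : ∀ v, v ∈ B → v ∈ Q := by grind
  have uQ : ∀ v, v ∈ Q → v ∈ A ∨ v ∈ B := by grind
  have g1 := hF1.left_mem
  have g2 := hF1.right_mem
  have g3 := hF2.left_mem
  have g4 := hF2.right_mem
  have sA : ∀ v, v ∈ A → v ∈ D := fun v hv => hQD (uA v hv)
  have sB : ∀ v, v ∈ B → v ∈ D := fun v hv => hQD (uB v hv)
  have pJ := hF1.symm.concat hF2 (by clear h0 h1; grind)
  have sJ : ∀ v, v ∈ F1 ∪ F2 → v ∈ D := by clear h0 h1; intro v hv; grind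
  have hJA : ∀ v, v ∈ A → v ∈ F1 ∪ F2 → v = c ∨ v = c' := by clear h0 h1; grind
  have hJB : ∀ v, v ∈ B → v ∈ F1 ∪ F2 → v = c ∨ v = c' := by clear h0 h1; grind
  have hyJ : y ∈ F1 ∪ F2 := by clear h0 h1; grind
  rcases uQ x hxQ with hx | hx
  · exact step2_theta hK hD hz lxy lxz lyz h0 hA hB pJ sA sB sJ hcc n1 hJA
      (fun v h1 h2 => hJB v h2 h1) hx hyJ hyc hyc' (fun h => hzQ (uA z h)) (fun h => hzQ (uB z h))
  · exact step2_theta hK hD hz lxy lxz lyz h0 hB (by simpa using hA) pJ sB sA sJ hcc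
      (fun v h1 h2 => n1 v h2 h1) hJB (fun v h1 h2 => hJA v h2 h1) hx hyJ hyc hyc'
      (fun h => hzQ (uB z h)) (fun h => hzQ (uA z h))

end Pool.Agent.TOKSN
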