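import Mathlib
import Pool.Agent.TOKSN.HTStep2

/-!
# (HT*): three feet of a hub with odd links outside are of type (I) or of type (II)
(proof/MP_2394d2_co_HT_h55)
-/

set_option autoImplicit false
set_option linter.unusedSectionVars false
set_option linter.unusedVariables false

namespace Pool.Agent.TOKSN

open Pool.Agent.TOKST (HasTOKS)

variable {V : Type} [DecidableEq V] {G : SimpleGraph V} {D : Finset V} {x y z : V}

/-- (HT*) -/
theorem ht (hT : ¬ HasTOKS G) (hD : Hub G D) (hx : x ∈ D) (hy : y ∈ D) (hz : z ∈ D)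
    (hxy : x ≠ y) (hyz : y ≠ z) (hxz : x ≠ z) (lxy : Lk G D x y) (lxz : Lk G D x z)
    (lyz : Lk G D y z) : Ty G D x y z := by
  by_cases h0 : ∀ Q, OddCyc G Q → Q ⊆ D → (x ∈ Q → y ∈ Q → False) ∧ (x ∈ Q → z ∈ Q → False) ∧
      (y ∈ Q → z ∈ Q → False)
  · exact ht_step2 hT hD hx hy hz hxy lxy lxz lyz h0
  · push Not at h0
    obtain ⟨Q, hQ, hQD, h⟩ := h0
    by_cases hxQ : x ∈ Q
    · by_cases hyQ : y ∈ Q
      · exact ht_step1 hT hD hz hxy hyz hxz lxz lyz hQ hQD hxQ hyQ
      · by_cases hzQ : z ∈ Q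
        · exact (ht_step1 hT hD hy hxz hyz.symm hxy lxy lyz.symm hQ hQD hxQ hzQ).swap23
        · grind
    · by_cases hyQ : y ∈ Q
      · by_cases hzQ : z ∈ Q
        · exact (ht_step1 hT hD hx hyz hxz.symm hxy.symm lxy.symm lxz.symm hQ hQD hyQ hzQ).swap23.swap12
        · grind
      · grind

end Pool.Agent.TOKSN
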