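import Mathlib
import Pool.Agent.TOKSN.Paths
import Pool.Agent.TOKSN.Cyc

/-!
# LINE N: operations on hubs, (N0), covers (helper82)
-/

set_option autoImplicit false
set_option linter.unusedSectionVars false

namespace Pool.Agent.TOKSN

open Pool.Agent.TOKST (HasTOKS)
open Pool.Agent.TOKSP (nbh mem_nbh four_le_nbh)

variable {V : Type} [DecidableEq V] {G : SimpleGraph V} {S T T₁ T₂ U A B D : Finset V}
  {a b c d x y z : V} {k l : Bool}

/-! ### paths: first edge -/

/-- the first edge of a path -/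
theorem PX.uncons_erase (h : PX G T a b k) (hab : a ≠ b) :
    ∃ c, G.Adj a c ∧ c ∈ T.erase a ∧ PX G (T.erase a) c b (!k) := by
  obtain ⟨p, hp, rfl, hk⟩ := h
  cases p with
  | nil => exact absurd rfl hab
  | @cons _ c _ e q =>
    rw [SimpleGraph.Walk.cons_isPath_iff] at hp
    have hs : (SimpleGraph.Walk.cons e q).support.toFinset.erase a = q.support.toFinset := by
      rw [SimpleGraph.Walk.support_cons, List.toFinset_cons, Finset.erase_insert]
      rw [List.mem_toFinset]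
      exact hp.2
    refine ⟨c, e, ?_, ?_⟩
    · rw [hs, List.mem_toFinset]
      exact q.start_mem_support
    · rw [hs]
      refine ⟨q, hp.1, rfl, ?_⟩
      rw [SimpleGraph.Walk.length_cons] at hk
      cases k
      · have hk' : ¬ Odd (q.length + 1) := fun h1 => absurd (hk.1 h1) (by decide)
        refine ⟨fun _ => rfl, fun _ => ?_⟩
        rcases Nat.even_or_odd q.length with h1 | h1
        · exact absurd h1.add_one hk'
        · exact h1
      · have hk' : Odd (q.length + 1) := hk.2 rfl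
        refine ⟨fun h1 => ?_, fun h1 => absurd h1 (by decide)⟩
        exact absurd hk' (Nat.not_odd_iff_even.2 h1.add_one)

theorem PX.conn_erase_left (h : PX G T a b k) (hab : a ≠ b) : Conn G (T.erase a) := by
  obtain ⟨c, -, -, hc⟩ := h.uncons_erase hab
  exact hc.conn

theorem PX.conn_erase_right (h : PX G T a b k) (hab : a ≠ b) : Conn G (T.erase b) :=
  h.symm.conn_erase_left hab.symm

/-! ### monotonicity -/

theorem not_bip_mono (h : ¬ Bip G S) (hS : S ⊆ T) : ¬ Bip G T := fun h' => h (h'.mono hS)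

/-! ### hubs -/

theorem Hub.nonempty (h : Hub G D) : D.Nonempty := h.conn.1

/-- a vertex of a hub different from two given ones -/
theorem Hub.exists_third (h : Hub G D) (x y : V) : ∃ z ∈ D, z ≠ x ∧ z ≠ y := by
  have h1 : 0 < (D \ {x, y}).card := by
    have h2 := Finset.le_card_sdiff ({x, y} : Finset V) D
    have h3 : ({x, y} : Finset V).card ≤ 2 := Finset.card_le_two
    have h4 := h.card
    omega
  obtain ⟨z, hz⟩ := Finset.card_pos.1 h1
  obtain ⟨hz1, hz2⟩ := Finset.mem_sdiff.1 hz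
  refine ⟨z, hz1, ?_, ?_⟩
  · rintro rfl
    exact hz2 (by simp)
  · rintro rfl
    exact hz2 (by simp)

/-- add a vertex with two neighbours -/
theorem Hub.insert (h : Hub G D) (hv : c ∉ D) (ha : a ∈ D) (hb : b ∈ D) (hab : a ≠ b)
    (ea : G.Adj c a) (eb : G.Adj c b) : Hub G (insert c D) where
  card := h.card.trans (Finset.card_le_card (Finset.subset_insert c D))
  nbip := not_bip_mono h.nbip (Finset.subset_insert c D)
  conn := h.conn.insert ⟨a, ha, ea.symm⟩
  del := by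
    intro z
    by_cases hz : z = c
    · rw [hz, Finset.erase_insert hv]
      exact h.conn
    · rw [Finset.erase_insert_of_ne (Ne.symm hz)]
      by_cases hza : z = a
      · exact (h.del z).insert ⟨b, Finset.mem_erase.2 ⟨fun h1 => hab (hza ▸ h1.symm), hb⟩, eb.symm⟩
      · exact (h.del z).insert ⟨a, Finset.mem_erase.2 ⟨fun h1 => hza h1.symm, ha⟩, ea.symm⟩

/-- add an ear -/
theorem Hub.ear (h : Hub G D) (hT : PX G T a b k) (hab : a ≠ b) (ha : a ∈ D) (hb : b ∈ D)
    (hTD : ∀ x ∈ T, x ∈ D → x = a ∨ x = b) : Hub G (D ∪ T) where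
  card := h.card.trans (Finset.card_le_card Finset.subset_union_left)
  nbip := not_bip_mono h.nbip Finset.subset_union_left
  conn := h.conn.union hT.conn ⟨a, Finset.mem_inter.2 ⟨ha, hT.left_mem⟩⟩
  del := by
    intro z
    rw [Finset.erase_union_distrib]
    by_cases hz : z ∈ T
    · obtain ⟨T₁, T₂, k₁, k₂, h1, h2, h3, h4, -⟩ := hT.cut hz
      rw [← h3, Finset.erase_union_distrib, ← Finset.union_assoc]
      by_cases hza : z = a
      · subst hza
        obtain ⟨e1, -⟩ := h1.eq_of_eq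
        have e2 : T₁.erase z = ∅ := by rw [e1]; simp
        rw [e2, Finset.union_empty]
        exact (h.del z).union (h2.conn_erase_left hab) ⟨b, Finset.mem_inter.2
          ⟨Finset.mem_erase.2 ⟨hab.symm, hb⟩, Finset.mem_erase.2 ⟨hab.symm, h2.right_mem⟩⟩⟩
      · have hc1 : Conn G (D.erase z ∪ T₁.erase z) :=
          (h.del z).union (h1.conn_erase_right (Ne.symm hza)) ⟨a, Finset.mem_inter.2
            ⟨Finset.mem_erase.2 ⟨Ne.symm hza, ha⟩, Finset.mem_erase.2 ⟨Ne.symm hza, h1.left_mem⟩⟩⟩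
        by_cases hzb : z = b
        · subst hzb
          obtain ⟨e1, -⟩ := h2.eq_of_eq
          have e2 : T₂.erase z = ∅ := by rw [e1]; simp
          rw [e2, Finset.union_empty]
          exact hc1
        · exact hc1.union (h2.conn_erase_left hzb) ⟨b, Finset.mem_inter.2
            ⟨Finset.mem_union_left _ (Finset.mem_erase.2 ⟨Ne.symm hzb, hb⟩),
              Finset.mem_erase.2 ⟨Ne.symm hzb, h2.right_mem⟩⟩⟩
    · rw [Finset.erase_eq_of_notMem hz]
      have hza : a ≠ z := fun h1 => hz (h1 ▸ hT.left_mem)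
      exact (h.del z).union hT.conn ⟨a, Finset.mem_inter.2
        ⟨Finset.mem_erase.2 ⟨hza, ha⟩, hT.left_mem⟩⟩

/-- a connected set with two feet contains an ear -/
theorem exists_ear (hX : Conn G S) (ha : a ∉ S) (hb : b ∉ S) (hab : a ≠ b)
    (ea : ∃ x ∈ S, G.Adj a x) (eb : ∃ y ∈ S, G.Adj b y) :
    ∃ T k, PX G T a b k ∧ T ⊆ insert a (insert b S) ∧ ∃ x ∈ T, x ∈ S := by
  obtain ⟨x, hx, ex⟩ := ea
  obtain ⟨y, hy, ey⟩ := eb
  obtain ⟨k, T, hTS, hT⟩ := hX.2 x hx y hy
  have h1 : PX G (insert b T) b x (!k) := PX.cons ey hT.symm (fun h => hb (hTS h))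
  have h2 : PX G (insert a (insert b T)) a b (!!k) := by
    refine PX.cons ex h1.symm ?_
    rw [Finset.mem_insert, not_or]
    exact ⟨hab, fun h => ha (hTS h)⟩
  refine ⟨_, _, h2, ?_, x, ?_, hx⟩
  · exact Finset.insert_subset_insert _ (Finset.insert_subset_insert _ hTS)
  · exact Finset.mem_insert_of_mem (Finset.mem_insert_of_mem hT.left_mem)

/-- attach an ear through a connected set with two feet -/
theorem Hub.attach (h : Hub G D) (hX : Conn G S) (hd : Disjoint S D) (ha : a ∈ D) (hb : b ∈ D)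
    (hab : a ≠ b) (ea : ∃ x ∈ S, G.Adj a x) (eb : ∃ y ∈ S, G.Adj b y) :
    ∃ T, T ⊆ S ∧ T.Nonempty ∧ Hub G (D ∪ T) := by
  have ha' : a ∉ S := fun h1 => Finset.disjoint_left.1 hd h1 ha
  have hb' : b ∉ S := fun h1 => Finset.disjoint_left.1 hd h1 hb
  obtain ⟨T, k, hT, hTS, x, hxT, hxS⟩ := exists_ear hX ha' hb' hab ea eb
  have hT' : ∀ y ∈ T, y ∈ D → y = a ∨ y = b := by
    intro y hy hyD
    rcases Finset.mem_insert.1 (hTS hy) with h1 | h1
    · exact Or.inl h1
    · rcases Finset.mem_insert.1 h1 with h1 | h1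
      · exact Or.inr h1
      · exact absurd hyD (Finset.disjoint_left.1 hd h1)
  refine ⟨T ∩ S, Finset.inter_subset_right, ⟨x, Finset.mem_inter.2 ⟨hxT, hxS⟩⟩, ?_⟩
  have e : D ∪ T ∩ S = D ∪ T := by
    ext y
    simp only [Finset.mem_union, Finset.mem_inter]
    constructor
    · rintro (h1 | ⟨h1, -⟩)
      · exact Or.inl h1
      · exact Or.inr h1
    · rintro (h1 | h1)
      · exact Or.inl h1
      · rcases Finset.mem_insert.1 (hTS h1) with h2 | h2
        · exact Or.inl (h2 ▸ ha)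
        · rcases Finset.mem_insert.1 h2 with h2 | h2
          · exact Or.inl (h2 ▸ hb)
          · exact Or.inr ⟨h1, h2⟩
  rw [e]
  exact h.ear hT hab ha hb hT'

section Fin

variable [Fintype V]

/-- (N0) two disjoint hubs extend to a partition -/
theorem N0 (hG : FC G) {H₁ H₂ : Finset V} (h₁ : Hub G H₁) (h₂ : Hub G H₂)
    (hd : Disjoint H₁ H₂) : ∃ D, H₁ ⊆ D ∧ H₂ ⊆ Dᶜ ∧ Mem G D := by
  classical
  -- a maximal pair
  let F : Finset (Finset V × Finset V) := Finset.univ.filter fun p =>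
    H₁ ⊆ p.1 ∧ H₂ ⊆ p.2 ∧ Hub G p.1 ∧ Hub G p.2 ∧ Disjoint p.1 p.2
  have hF : F.Nonempty := ⟨(H₁, H₂), Finset.mem_filter.2
    ⟨Finset.mem_univ _, Finset.Subset.refl _, Finset.Subset.refl _, h₁, h₂, hd⟩⟩
  obtain ⟨⟨D₁, D₂⟩, hDF, hmax⟩ := Finset.exists_max_image F (fun p => p.1.card + p.2.card) hF
  obtain ⟨-, s1, s2, hD1, hD2, hdd⟩ := Finset.mem_filter.1 hDF
  simp only at s1 s2 hD1 hD2 hdd
  have key : (D₁ ∪ D₂)ᶜ = ∅ := by
    rw [Finset.eq_empty_iff_forall_notMem]
    intro r hr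
    set R := (D₁ ∪ D₂)ᶜ with hR
    set K := cmp G R r with hK
    have hKconn : Conn G K := cmp_conn hr
    have hKR : K ⊆ R := cmp_sub
    have hKD : ∀ v ∈ K, v ∉ D₁ ∧ v ∉ D₂ := by
      intro v hv
      have := hKR hv
      rw [hR, Finset.mem_compl, Finset.mem_union, not_or] at this
      exact this
    have hnb : nbh G K ⊆ D₁ ∪ D₂ := by
      intro v hv
      obtain ⟨hvK, w, hw, e⟩ := mem_nbh.1 hv
      by_contra hcon
      exact hvK (cmp_closed hw (Finset.mem_compl.2 hcon) e)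
    have one1 : ∀ u ∈ nbh G K, ∀ v ∈ nbh G K, u ∈ D₁ → v ∈ D₁ → u = v := by
      intro u hu v hv hu1 hv1
      by_contra huv
      obtain ⟨-, x, hx, ex⟩ := mem_nbh.1 hu
      obtain ⟨-, y, hy, ey⟩ := mem_nbh.1 hv
      obtain ⟨T, hTK, hTne, hub⟩ := hD1.attach hKconn
        (Finset.disjoint_left.2 fun v hv h1 => (hKD v hv).1 h1) hu1 hv1 huv
        ⟨x, hx, ex.symm⟩ ⟨y, hy, ey.symm⟩
      have hm := hmax (D₁ ∪ T, D₂) (Finset.mem_filter.2 ⟨Finset.mem_univ _,
        s1.trans Finset.subset_union_left, s2, hub, hD2, by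
          rw [Finset.disjoint_union_left]
          exact ⟨hdd, Finset.disjoint_left.2 fun v hv => (hKD v (hTK hv)).2⟩⟩)
      simp only at hm
      have hc : (D₁ ∪ T).card = D₁.card + T.card := by
        rw [Finset.card_union_of_disjoint]
        exact Finset.disjoint_right.2 fun v hv => (hKD v (hTK hv)).1
      have := Finset.card_pos.2 hTne
      omega
    have one2 : ∀ u ∈ nbh G K, ∀ v ∈ nbh G K, u ∈ D₂ → v ∈ D₂ → u = v := by
      intro u hu v hv hu1 hv1
      by_contra huv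
      obtain ⟨-, x, hx, ex⟩ := mem_nbh.1 hu
      obtain ⟨-, y, hy, ey⟩ := mem_nbh.1 hv
      obtain ⟨T, hTK, hTne, hub⟩ := hD2.attach hKconn
        (Finset.disjoint_left.2 fun v hv h1 => (hKD v hv).2 h1) hu1 hv1 huv
        ⟨x, hx, ex.symm⟩ ⟨y, hy, ey.symm⟩
      have hm := hmax (D₁, D₂ ∪ T) (Finset.mem_filter.2 ⟨Finset.mem_univ _, s1,
        s2.trans Finset.subset_union_left, hD1, hub, by
          rw [Finset.disjoint_union_right]
          exact ⟨hdd, Finset.disjoint_right.2 fun v hv => (hKD v (hTK hv)).1⟩⟩)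
      simp only at hm
      have hc : (D₂ ∪ T).card = D₂.card + T.card := by
        rw [Finset.card_union_of_disjoint]
        exact Finset.disjoint_right.2 fun v hv => (hKD v (hTK hv)).2
      have := Finset.card_pos.2 hTne
      omega
    -- at most two neighbours
    have hle : (nbh G K).card ≤ 2 := by
      have e : nbh G K = (nbh G K ∩ D₁) ∪ (nbh G K ∩ D₂) := by
        rw [← Finset.inter_union_distrib_left]
        exact (Finset.inter_eq_left.2 hnb).symm
      have c1 : (nbh G K ∩ D₁).card ≤ 1 := Finset.card_le_one.2 fun u hu v hv =>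
        one1 u (Finset.mem_inter.1 hu).1 v (Finset.mem_inter.1 hv).1 (Finset.mem_inter.1 hu).2
          (Finset.mem_inter.1 hv).2
      have c2 : (nbh G K ∩ D₂).card ≤ 1 := Finset.card_le_one.2 fun u hu v hv =>
        one2 u (Finset.mem_inter.1 hu).1 v (Finset.mem_inter.1 hv).1 (Finset.mem_inter.1 hu).2
          (Finset.mem_inter.1 hv).2
      rw [e]
      exact (Finset.card_union_le _ _).trans (by omega)
    -- a vertex of `D₁` which is not a neighbour
    have hw : ∃ w, w ∉ K ∧ w ∉ nbh G K := by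
      by_contra hcon
      push Not at hcon
      have h3 : D₁ ⊆ nbh G K := fun v hv => hcon v (fun h4 => (hKD v h4).1 hv)
      have h5 := Finset.card_le_card h3
      have := hD1.card
      omega
    have := hG K hKconn.1 hw
    omega
  have hc : D₁ᶜ = D₂ := by
    apply Finset.Subset.antisymm
    · intro v hv
      by_contra h3
      have : v ∈ (D₁ ∪ D₂)ᶜ := by
        rw [Finset.mem_compl, Finset.mem_union, not_or]
        exact ⟨Finset.mem_compl.1 hv, h3⟩
      rw [key] at this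
      exact absurd this (Finset.notMem_empty v)
    · intro v hv
      exact Finset.mem_compl.2 fun h3 => Finset.disjoint_left.1 hdd h3 hv
  exact ⟨D₁, s1, hc ▸ s2, hD1, hc ▸ hD2⟩

theorem Mem.compl (h : Mem G D) : Mem G Dᶜ := ⟨h.2, by rw [compl_compl]; exact h.1⟩

/-- existence of a member -/
theorem exists_mem (hG : FC G) (hodd : ∃ (u v : V) (c : G.Walk u u) (d : G.Walk v v),
      c.IsCycle ∧ d.IsCycle ∧ Odd c.length ∧ Odd d.length ∧ ∀ x, x ∈ c.support → x ∉ d.support) :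
    ∃ D, Mem G D := by
  obtain ⟨u, v, c, d, hc, hd, hco, hdo, hdis⟩ := hodd
  have h1 : OddCyc G c.support.toFinset := ⟨u, c, hc, rfl, hco⟩
  have h2 : OddCyc G d.support.toFinset := ⟨v, d, hd, rfl, hdo⟩
  obtain ⟨D, -, -, hD⟩ := N0 hG h1.hub h2.hub (by
    rw [Finset.disjoint_left]
    intro x hx hx'
    rw [List.mem_toFinset] at hx hx'
    exact hdis x hx hx')
  exact ⟨D, hD⟩

/-- The common tool for covers and for (M): `H` is a hub inside the member `D`, `X ⊆ D \ H` is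
connected and has two labels outside `D`: there is a member strictly between. -/
theorem Mem.shrink (hG : FC G) (hD : Mem G D) {H X : Finset V} (hH : Hub G H) (hHD : H ⊆ D)
    (hX : Conn G X) (hXD : X ⊆ D) (hXH : Disjoint X H) (ha : a ∉ D) (hb : b ∉ D) (hab : a ≠ b)
    (ea : ∃ x ∈ X, G.Adj a x) (eb : ∃ y ∈ X, G.Adj b y) : ∃ D', H ⊆ D' ∧ D' ⊂ D ∧ Mem G D' := by
  obtain ⟨T, hTX, ⟨t, ht⟩, hub⟩ := hD.2.attach hX
    (Finset.disjoint_right.2 fun v hv h1 => Finset.mem_compl.1 hv (hXD h1))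
    (Finset.mem_compl.2 ha) (Finset.mem_compl.2 hb) hab ea eb
  obtain ⟨D', h1, h2, h3⟩ := N0 hG hH hub (by
    rw [Finset.disjoint_union_right]
    exact ⟨Finset.disjoint_right.2 fun v hv h1 => Finset.mem_compl.1 hv (hHD h1),
      Finset.disjoint_right.2 fun v hv h1 => Finset.disjoint_left.1 hXH (hTX hv) h1⟩)
  refine ⟨D', h1, ?_, h3⟩
  rw [Finset.ssubset_iff_of_subset]
  · exact ⟨t, hXD (hTX ht), Finset.mem_compl.1 (h2 (Finset.mem_union_right _ ht))⟩
  · intro v hv
    by_contra h4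
    exact Finset.mem_compl.1 (h2 (Finset.mem_union_left _ (Finset.mem_compl.2 h4))) hv

/-- `D₁` is a cover of `D`: a maximal member properly inside the member `D` -/
structure Cover (G : SimpleGraph V) (D D₁ : Finset V) : Prop where
  mem : Mem G D
  mem₁ : Mem G D₁
  sub : D₁ ⊂ D
  max : ∀ D₂, Mem G D₂ → D₁ ⊂ D₂ → D₂ ⊂ D → False

theorem exists_cover (hD : Mem G D) (h : ∃ D', Mem G D' ∧ D' ⊂ D) : ∃ D₁, Cover G D D₁ := by
  classical
  obtain ⟨D', hD', hs⟩ := h
  let F : Finset (Finset V) := Finset.univ.filter fun X => Mem G X ∧ X ⊂ D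
  obtain ⟨D₁, hDF, hmax⟩ := Finset.exists_max_image F Finset.card
    ⟨D', Finset.mem_filter.2 ⟨Finset.mem_univ _, hD', hs⟩⟩
  obtain ⟨-, h1, h2⟩ := Finset.mem_filter.1 hDF
  refine ⟨D₁, hD, h1, h2, fun D₂ h3 h4 h5 => ?_⟩
  have h6 := hmax D₂ (Finset.mem_filter.2 ⟨Finset.mem_univ _, h3, h5⟩)
  have h7 := Finset.card_lt_card h4
  omega

/-- (*) an X-set and a Y-set meet -/
theorem Cover.meet (hG : FC G) {D₁ : Finset V} (h : Cover G D D₁) {X Y : Finset V}
    (hX : Conn G X) (hXD : X ⊆ D \ D₁) (hY : Conn G Y) (hYD : Y ⊆ D \ D₁) (hXY : Disjoint X Y)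
    {a b s t : V} (ha : a ∈ D₁) (hb : b ∈ D₁) (hab : a ≠ b) (ea : ∃ x ∈ X, G.Adj a x)
    (eb : ∃ x ∈ X, G.Adj b x) (hs : s ∉ D) (ht : t ∉ D) (hst : s ≠ t) (es : ∃ y ∈ Y, G.Adj s y)
    (et : ∃ y ∈ Y, G.Adj t y) : False := by
  obtain ⟨T, hTX, ⟨r, hr⟩, hub⟩ := h.mem₁.1.attach hX
    (Finset.disjoint_left.2 fun v hv h1 => (Finset.mem_sdiff.1 (hXD hv)).2 h1) ha hb hab ea eb
  obtain ⟨D', h1, h2, h3⟩ := h.mem.shrink hG hub
    (Finset.union_subset h.sub.subset fun v hv => (Finset.mem_sdiff.1 (hXD (hTX hv))).1) hY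
    (fun v hv => (Finset.mem_sdiff.1 (hYD hv)).1) (by
      rw [Finset.disjoint_union_right]
      exact ⟨Finset.disjoint_left.2 fun v hv h1 => (Finset.mem_sdiff.1 (hYD hv)).2 h1,
        Finset.disjoint_right.2 fun v hv h1 => Finset.disjoint_left.1 hXY (hTX hv) h1⟩)
    hs ht hst es et
  refine h.max D' h3 ?_ h2
  rw [Finset.ssubset_iff_of_subset (Finset.subset_union_left.trans h1)]
  exact ⟨r, h1 (Finset.mem_union_right _ hr), (Finset.mem_sdiff.1 (hXD (hTX hr))).2⟩

/-- a connected piece `K` of `D \ E`, closed in it, has two neighbours in `E` if `D` is a hub,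
`E ⊆ D` has at least two elements -/
theorem Hub.two_feet (h : Hub G D) {E K : Finset V} (hE : 2 ≤ E.card) (hED : E ⊆ D)
    (hK : K.Nonempty) (hKD : K ⊆ D \ E)
    (hcl : ∀ x ∈ K, ∀ y ∈ D \ E, G.Adj x y → y ∈ K) :
    ∃ a ∈ E, ∃ b ∈ E, a ≠ b ∧ (∃ x ∈ K, G.Adj a x) ∧ ∃ y ∈ K, G.Adj b y := by
  classical
  by_contra hcon
  push Not at hcon
  obtain ⟨r, hr⟩ := hK
  -- all feet are equal to `z`
  obtain ⟨z, hz⟩ : ∃ z, ∀ a ∈ E, (∃ x ∈ K, G.Adj a x) → a = z := by
    by_cases h1 : ∃ a ∈ E, ∃ x ∈ K, G.Adj a x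
    · obtain ⟨a, ha, hxa⟩ := h1
      refine ⟨a, fun b hb hxb => ?_⟩
      by_contra hab
      obtain ⟨y, hy, e⟩ := hxb
      exact hcon a ha b hb (Ne.symm hab) hxa y hy e
    · push Not at h1
      exact ⟨r, fun a ha ⟨x, hx, e⟩ => absurd e (h1 a ha x hx)⟩
  -- an element of `E` different from `z`
  obtain ⟨e, heE, hez⟩ : ∃ e ∈ E, e ≠ z := by
    by_contra h2
    push Not at h2
    have h3 : E ⊆ {z} := fun x hx => Finset.mem_singleton.2 (h2 x hx)
    have h4 := Finset.card_le_card h3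
    rw [Finset.card_singleton] at h4
    omega
  by_cases hrz : r = z
  · -- no feet at all
    have h5 := h.conn.2 r (Finset.mem_sdiff.1 (hKD hr)).1 e (hED heE)
    have h6 : e ∈ K := h5.closed K hr (by
      intro x hx y hy exy
      by_cases hyE : y ∈ E
      · have h7 := hz y hyE ⟨x, hx, exy.symm⟩
        rw [h7, ← hrz] at hyE
        exact absurd hyE (Finset.mem_sdiff.1 (hKD hr)).2
      · exact hcl x hx y (Finset.mem_sdiff.2 ⟨hy, hyE⟩) exy)
    exact (Finset.mem_sdiff.1 (hKD h6)).2 heE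
  · have h5 := (h.del z).2 r (Finset.mem_erase.2 ⟨hrz, (Finset.mem_sdiff.1 (hKD hr)).1⟩) e
      (Finset.mem_erase.2 ⟨hez, hED heE⟩)
    have h6 : e ∈ K := h5.closed K hr (by
      intro x hx y hy exy
      obtain ⟨hyz, hyD⟩ := Finset.mem_erase.1 hy
      by_cases hyE : y ∈ E
      · exact absurd (hz y hyE ⟨x, hx, exy.symm⟩) hyz
      · exact hcl x hx y (Finset.mem_sdiff.2 ⟨hyD, hyE⟩) exy)
    exact (Finset.mem_sdiff.1 (hKD h6)).2 heE

/-- the difference of a cover is connected -/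
theorem Cover.conn (hG : FC G) {D₁ : Finset V} (h : Cover G D D₁) : Conn G (D \ D₁) := by
  classical
  obtain ⟨r, hr, hr'⟩ := (Finset.ssubset_iff_of_subset h.sub.subset).1 h.sub
  have hrP : r ∈ D \ D₁ := Finset.mem_sdiff.2 ⟨hr, hr'⟩
  refine ⟨⟨r, hrP⟩, ?_⟩
  -- it is enough that everything is joined to `r`
  have key : ∀ x ∈ D \ D₁, ∀ y ∈ D \ D₁, JN G (D \ D₁) x y := by
    intro x hx y hy
    by_contra hno
    have f1 := h.mem.1.two_feet (E := D₁) (K := cmp G (D \ D₁) x)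
      ((by norm_num : 2 ≤ 3).trans h.mem₁.1.card) h.sub.subset (cmp_conn hx).1 cmp_sub
      (fun u hu v hv e => cmp_closed hu hv e)
    obtain ⟨a, ha, b, hb, hab, ea, eb⟩ := f1
    have hPeq : D₁ᶜ \ Dᶜ = D \ D₁ := by
      ext v
      simp only [Finset.mem_sdiff, Finset.mem_compl, not_not]
      tauto
    have hsub : Dᶜ ⊆ D₁ᶜ := Finset.compl_subset_compl.2 h.sub.subset
    have f2 := h.mem₁.2.two_feet (E := Dᶜ) (K := cmp G (D \ D₁) y)
      ((by norm_num : 2 ≤ 3).trans h.mem.2.card) hsub (cmp_conn hy).1 (by rw [hPeq]; exact cmp_sub)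
      (fun u hu v hv e => cmp_closed hu (by rw [← hPeq]; exact hv) e)
    obtain ⟨s, hs, t, ht, hst, es, et⟩ := f2
    refine h.meet hG (cmp_conn hx) cmp_sub (cmp_conn hy) cmp_sub ?_ ha hb hab ea eb
      (Finset.mem_compl.1 hs) (Finset.mem_compl.1 ht) hst es et
    rw [Finset.disjoint_left]
    intro v hv hv'
    exact hno ((mem_cmp.1 hv).2.trans (mem_cmp.1 hv').2.symm)
  exact key

/-- (M) for a member that is minimal under inclusion -/
theorem mem_min_M (hG : FC G) (hD : Mem G D) (hmin : ∀ D', Mem G D' → ¬ D' ⊂ D) {C X : Finset V}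
    (hC : OddCyc G C) (hCD : C ⊆ D) (hXD : X ⊆ D) (hd : Disjoint X C) (hX : Conn G X) :
    (nbh G X \ D).card ≤ 1 := by
  classical
  rw [Finset.card_le_one]
  intro a ha b hb
  by_contra hab
  obtain ⟨ha1, ha2⟩ := Finset.mem_sdiff.1 ha
  obtain ⟨hb1, hb2⟩ := Finset.mem_sdiff.1 hb
  rw [mem_nbh] at ha1 hb1
  obtain ⟨-, x, hx, ex⟩ := ha1
  obtain ⟨-, y, hy, ey⟩ := hb1
  obtain ⟨D', -, h2, h3⟩ := Mem.shrink hG hD hC.hub hCD hX hXD hd ha2 hb2 hab ⟨x, hx, ex.symm⟩ ⟨y, hy, ey.symm⟩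
  exact hmin D' h3 h2

end Fin

end Pool.Agent.TOKSN
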