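import Mathlib
import Pool.Agent.TOKSN.HT
import Pool.Agent.TOKSN.Hubs
import Pool.Agent.TOKSN.Ctx

/-!
# (2A): one vertex between two hubs has at most two contacts
-/

set_option autoImplicit false
set_option linter.unusedSectionVars false
set_option linter.unusedVariables false

namespace Pool.Agent.TOKSN

open Pool.Agent.TOKST (HasTOKS)
open Pool.Agent.TOKSP (nbh mem_nbh four_le_nbh)

variable {V : Type} [DecidableEq V] {G : SimpleGraph V} {D E : Finset V} {x y z : V}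

/-- a ring with even legs and a claw outside with three odd legs -/
theorem toks_claw_rg {c x' y' z' : V} {A B C : Finset V} (hr : Rg G E x' y' z') (hc : c ∉ E)
    (hA : PX G A c x' true) (hB : PX G B c y' true) (hC : PX G C c z' true)
    (a1 : ∀ v, v ∈ A → v ∈ E → v = x') (a2 : ∀ v, v ∈ B → v ∈ E → v = y')
    (a3 : ∀ v, v ∈ C → v ∈ E → v = z')
    (b1 : ∀ v, v ∈ A → v ∈ B → v = c) (b2 : ∀ v, v ∈ A → v ∈ C → v = c)
    (b3 : ∀ v, v ∈ B → v ∈ C → v = c) : HasTOKS G := by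
  obtain ⟨f, g, h, P, Q, R, L, M, N, h1, h2, h3, h4, h5, h6, s1, s2, s3, s4, s5, s6,
    m1, m2, m3, m4, m5, m6, m7, m8, m9, m10, m11, m12, m13, m14, m15⟩ := hr
  have e1 := h1.left_mem
  have e2 := h1.right_mem
  have e3 := h2.left_mem
  have e4 := h2.right_mem
  have e5 := h3.left_mem
  have e6 := h3.right_mem
  have l1 := h4.left_mem
  have l2 := h4.right_mem
  have l3 := h5.left_mem
  have l4 := h5.right_mem
  have l5 := h6.left_mem
  have l6 := h6.right_mem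
  have c1 := hA.left_mem
  have c2 := hB.left_mem
  have c3 := hC.left_mem
  have p1 := hA.concat h4.symm (by grind)
  have p2 := hB.concat h5.symm (by grind)
  have p3 := hC.concat h6.symm (by grind)
  refine toks_mk2 p1 p2 p3 h1 h3 h2 ?_ ?_ ?_ ?_ ?_ ?_ ?_ ?_ ?_ ?_ ?_ ?_ ?_ ?_ ?_ <;> grind

/-- a ring contains a tripod of weight two -/
theorem Rg.tp (hr : Rg G D x y z) : Tp G D x y z true true false := by
  obtain ⟨f, g, h, P, Q, R, L, M, N, g1, g2, g3, g4, g5, g6, s1, s2, s3, s4, s5, s6,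
    m1, m2, m3, m4, m5, m6, m7, m8, m9, m10, m11, m12, m13, m14, m15⟩ := hr
  have ee1 := g1.left_mem
  have ee2 := g1.right_mem
  have ee3 := g2.left_mem
  have ee4 := g2.right_mem
  have ee5 := g3.left_mem
  have ee6 := g3.right_mem
  have e7 := g4.left_mem
  have e8 := g5.left_mem
  have e9 := g6.left_mem
  have p1 := g3.symm.concat g4 (by grind)
  have p2 := g2.symm.concat g5 (by grind)
  have t1 : R ∪ L ⊆ D := Finset.union_subset s3 s4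
  have t2 : Q ∪ M ⊆ D := Finset.union_subset s2 s5
  refine ⟨h, _, _, _, p1, p2, g6, t1, t2, s6, ?_, ?_, ?_⟩
  · intro v hv hw
    rw [Finset.mem_union] at hv hw
    grind
  · intro v hv hw
    rw [Finset.mem_union] at hv
    grind
  · intro v hv hw
    rw [Finset.mem_union] at hv
    grind

/-- an odd link through a hub -/
theorem Lk.of_hub {b b' : V} (hE : Hub G E) (hd : ∀ v, v ∈ D → v ∈ E → False) (hx : x ∈ D)
    (hy : y ∈ D) (hxy : x ≠ y) (hb : b ∈ E) (hb' : b' ∈ E) (hbb : b ≠ b') (e : G.Adj x b)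
    (e' : G.Adj y b') : Lk G D x y := by
  obtain ⟨T, hTE, hT⟩ := hE.par hb hb' hbb true
  have h1 := PX.cons e hT (fun h => hd x hx (hTE h))
  have h2 := PX.cons e' h1.symm (by
    rw [Finset.mem_insert, not_or]
    exact ⟨hxy.symm, fun h => hd y hy (hTE h)⟩)
  refine ⟨_, h2.symm, ?_⟩
  intro v hv hvD
  rw [Finset.mem_insert, Finset.mem_insert] at hv
  rcases hv with h | h | h
  · exact Or.inr h
  · exact Or.inl h
  · exact absurd (hTE h) (fun h' => hd v hvD h')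

section TwoA

variable {D1 D3 : Finset V} {u : V}

/-- LEMMA X -/
theorem two_a_X (hT : ¬ HasTOKS G) (h1 : Hub G D1) (hd : ∀ v, v ∈ D1 → v ∈ D3 → False)
    (hu1 : u ∉ D1) (hu3 : u ∉ D3) {a1 a2 b1 b2 y : V} (ha1 : a1 ∈ D1) (ha2 : a2 ∈ D1)
    (h12 : a1 ≠ a2) (e1 : G.Adj u a1) (e2 : G.Adj u a2) (f1 : G.Adj a1 b1) (f2 : G.Adj a2 b2)
    (ey : G.Adj u y) (ht : Tp G D3 b1 b2 y false false false) : False := by
  obtain ⟨c, A, B, C, hA, hB, hC, s1, s2, s3, m1, m2, m3⟩ := ht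
  obtain ⟨T, hTD, hP⟩ := h1.par ha1 ha2 h12 true
  have t1 := hP.left_mem
  have t2 := hP.right_mem
  have c1 := hA.left_mem
  have c2 := hB.left_mem
  have c3 := hC.left_mem
  have q1 := PX.cons f1 hA.symm (fun h => hd a1 ha1 (s1 h))
  have q2 := PX.cons f2 hB.symm (fun h => hd a2 ha2 (s2 h))
  have q3 := PX.cons ey hC.symm (fun h => hu3 (s3 h))
  have r1 := PX.edge e1
  have r2 := PX.edge e2
  have ua1 : u ≠ a1 := e1.ne
  have ua2 : u ≠ a2 := e2.ne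
  apply hT
  refine toks_mk2 (a := u) (b := a1) (c := a2) (d := c) r1 r2 q3 hP q1 q2 ?_ ?_ ?_ ?_ ?_ ?_ ?_ ?_ ?_ ?_ ?_ ?_ ?_ ?_ ?_ <;> grind

/-- no neighbour `y ∈ D3` of `u` is adjacent to a neighbour of `u` in `D1`, if there is another contact -/
theorem two_a_1 (hT : ¬ HasTOKS G) (h1 : Hub G D1) (h3 : Hub G D3)
    (hd : ∀ v, v ∈ D1 → v ∈ D3 → False)
    (hu1 : u ∉ D1) (hu3 : u ∉ D3) {a1 a2 b2 y : V} (ha1 : a1 ∈ D1) (ha2 : a2 ∈ D1)
    (hb2 : b2 ∈ D3) (hy : y ∈ D3)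
    (h12 : a1 ≠ a2) (e1 : G.Adj u a1) (e2 : G.Adj u a2) (f2 : G.Adj a2 b2)
    (ey : G.Adj u y) (f : G.Adj a1 y) : False := by
  obtain ⟨T, hTD, hP⟩ := h1.par ha1 ha2 h12 true
  have t1 := hP.left_mem
  have t2 := hP.right_mem
  have r1 := PX.edge e1
  have r2 := PX.edge e2
  have r3 := PX.edge ey
  have r4 := PX.edge f
  have ua1 : u ≠ a1 := e1.ne
  have ua2 : u ≠ a2 := e2.ne
  apply hT
  obtain ⟨S, hSD, hS⟩ : ∃ S, S ⊆ D3 ∧ PX G S b2 y false := by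
    by_cases hby : b2 = y
    · subst hby
      exact ⟨{b2}, by simpa using hb2, PX.refl G b2⟩
    · exact h3.par hb2 hy hby false
  have s1 := hS.left_mem
  have s2 := hS.right_mem
  have q := PX.cons f2 hS (fun h => hd a2 ha2 (hSD h))
  refine toks_mk2 (a := u) (b := a1) (c := a2) (d := y) r1 r2 r3 hP r4 q ?_ ?_ ?_ ?_ ?_ ?_ ?_ ?_ ?_ ?_ ?_ ?_ ?_ ?_ ?_ <;> grind

/-- no 4-cycle -/
theorem two_a_0 (hT : ¬ HasTOKS G) (h1 : Hub G D1) (h3 : Hub G D3)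
    (hd : ∀ v, v ∈ D1 → v ∈ D3 → False)
    (hu1 : u ∉ D1) (hu3 : u ∉ D3) {a1 a2 b y : V} (ha1 : a1 ∈ D1) (ha2 : a2 ∈ D1)
    (hb : b ∈ D3) (hy : y ∈ D3)
    (h12 : a1 ≠ a2) (e1 : G.Adj u a1) (e2 : G.Adj u a2) (f1 : G.Adj a1 b) (f2 : G.Adj a2 b)
    (ey : G.Adj u y) : False := by
  obtain ⟨T, hTD, hP⟩ := h1.par ha1 ha2 h12 true
  have t1 := hP.left_mem
  have t2 := hP.right_mem
  have r1 := PX.edge e1
  have r2 := PX.edge e2
  have r3 := PX.edge f1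
  have r4 := PX.edge f2
  have ua1 : u ≠ a1 := e1.ne
  have ua2 : u ≠ a2 := e2.ne
  apply hT
  obtain ⟨S, hSD, hS⟩ : ∃ S, S ⊆ D3 ∧ PX G S y b false := by
    by_cases hby : y = b
    · subst hby
      exact ⟨{y}, by simpa using hy, PX.refl G y⟩
    · exact h3.par hy hb hby false
  have s1 := hS.left_mem
  have s2 := hS.right_mem
  have q := PX.cons ey hS (fun h => hu3 (hSD h))
  refine toks_mk2 (a := u) (b := a1) (c := a2) (d := b) r1 r2 q hP r3 r4 ?_ ?_ ?_ ?_ ?_ ?_ ?_ ?_ ?_ ?_ ?_ ?_ ?_ ?_ ?_ <;> grind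

/-- the statement of (HT*) (proved by helper55) -/
def HTStmt (G : SimpleGraph V) : Prop := ∀ (D : Finset V) (x y z : V), Hub G D → x ∈ D → y ∈ D → z ∈ D →
  x ≠ y → y ≠ z → x ≠ z → Lk G D x y → Lk G D x z → Lk G D y z → Ty G D x y z

/-- a tripod of weight two -/
theorem two_a_w2 (hT : ¬ HasTOKS G) (h3 : Hub G D3) (hd : ∀ v, v ∈ D1 → v ∈ D3 → False)
    (hu1 : u ∉ D1) (hu3 : u ∉ D3) {a1 a2 a3 b1 b2 : V} (ha1 : a1 ∈ D1) (ha2 : a2 ∈ D1) (ha3 : a3 ∈ D1)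
    (hb1 : b1 ∈ D3) (hb2 : b2 ∈ D3) (h12 : a1 ≠ a2) (hbb : b1 ≠ b2) 
    (e1 : G.Adj u a1) (e2 : G.Adj u a2) (e3 : G.Adj u a3)
    (f1 : G.Adj a1 b1) (f2 : G.Adj a2 b2)
    (ht : Tp G D1 a1 a2 a3 true true false) : False := by
  obtain ⟨c, A, B, C, hA, hB, hC, s1, s2, s3, m1, m2, m3⟩ := ht
  obtain ⟨T, hTD, hP⟩ := h3.par hb1 hb2 hbb true
  have t1 := hP.left_mem
  have t2 := hP.right_mem
  have c1 := hA.left_mem
  have c2 := hB.left_mem
  have c3 := hC.left_mem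
  have d1 := hA.right_mem
  have d2 := hB.right_mem
  have d3 := hC.right_mem
  have ca1 : c ≠ a1 := hA.ne
  have ca2 : c ≠ a2 := hB.ne
  have q3 := PX.cons e3 hC.symm (fun h => hu1 (s3 h))
  have q1 := PX.cons f1 hP (fun h => hd a1 ha1 (hTD h))
  have q2 := PX.cons f2 q1.symm (by
    rw [Finset.mem_insert, not_or]
    exact ⟨h12.symm, fun h => hd a2 ha2 (hTD h)⟩)
  have r1 := PX.edge e1
  have r2 := PX.edge e2
  have ua1 : u ≠ a1 := e1.ne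
  have ua2 : u ≠ a2 := e2.ne
  have ua3 : u ≠ a3 := e3.ne
  apply hT
  refine toks_mk2 (a := c) (b := u) (c := a1) (d := a2) q3.symm hA hB r1 r2 q2.symm ?_ ?_ ?_ ?_ ?_ ?_ ?_ ?_ ?_ ?_ ?_ ?_ ?_ ?_ ?_ <;> grind

/-- pattern (2,1) -/
theorem two_a_21 (hht : HTStmt G) (hT : ¬ HasTOKS G) (h1 : Hub G D1) (h3 : Hub G D3)
    (hd : ∀ v, v ∈ D1 → v ∈ D3 → False)
    (hu1 : u ∉ D1) (hu3 : u ∉ D3) {a1 a2 a b1 b2 b y : V} (ha1 : a1 ∈ D1) (ha2 : a2 ∈ D1)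
    (ha : a ∈ D1) (hb1 : b1 ∈ D3) (hb2 : b2 ∈ D3) (hb : b ∈ D3) (hy : y ∈ D3)
    (h12 : a1 ≠ a2) (hyb : y ≠ b) (e1 : G.Adj u a1) (e2 : G.Adj u a2) (f1 : G.Adj a1 b1)
    (f2 : G.Adj a2 b2) (eb : G.Adj u b) (ey : G.Adj u y) (f : G.Adj a b) : False := by
  have n1 : a1 ≠ a := by
    rintro rfl
    exact two_a_1 hT h1 h3 hd hu1 hu3 ha1 ha2 hb2 hb h12 e1 e2 f2 eb f
  have n2 : a2 ≠ a := by
    rintro rfl
    exact two_a_1 hT h1 h3 hd hu1 hu3 ha2 ha1 hb1 hb h12.symm e2 e1 f1 eb f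
  have n3 : b1 ≠ b2 := by
    rintro rfl
    exact two_a_0 hT h1 h3 hd hu1 hu3 ha1 ha2 hb1 hb h12 e1 e2 f1 f2 eb
  have n4 : b1 ≠ b := by
    rintro rfl
    exact two_a_1 hT h1 h3 hd hu1 hu3 ha1 ha2 hb2 hb h12 e1 e2 f2 eb f1
  have n5 : b2 ≠ b := by
    rintro rfl
    exact two_a_1 hT h1 h3 hd hu1 hu3 ha2 ha1 hb1 hb h12.symm e2 e1 f1 eb f2
  have ua : u ≠ a := fun h => hu1 (h ▸ ha)
  have ub : u ≠ b := eb.ne
  have ua1 : u ≠ a1 := e1.ne
  have ua2 : u ≠ a2 := e2.ne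
  have r1 := PX.edge e1
  have r2 := PX.edge e2
  have rb := PX.edge eb
  rcases hht D1 a1 a2 a h1 ha1 ha2 ha h12 n2 n1 (Lk.of_hub h3 hd ha1 ha2 h12 hb1 hb2 n3 f1 f2)
    (Lk.of_hub h3 hd ha1 ha n1 hb1 hb n4 f1 f) (Lk.of_hub h3 hd ha2 ha n2 hb2 hb n5 f2 f) with hI | hII
  · have key : ∀ (a1 a2 b1 : V), a1 ∈ D1 → a2 ∈ D1 → b1 ∈ D3 → a1 ≠ a2 → G.Adj u a1 → G.Adj u a2 → G.Adj a1 b1 →
        b1 ≠ b → a1 ≠ a → Tp G D1 a1 a2 a true false false → False := by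
      intro a1 a2 b1 ha1 ha2 hb1 h12 e1 e2 f1 n4 n1 ht
      obtain ⟨c, A, B, C, hA, hB, hC, s1, s2, s3, m1, m2, m3⟩ := ht
      obtain ⟨T, hTD, hP⟩ := h3.par hb1 hb n4 false
      have t1 := hP.left_mem
      have t2 := hP.right_mem
      have c1 := hA.left_mem
      have c2 := hB.left_mem
      have c3 := hC.left_mem
      have d1 := hA.right_mem
      have d2 := hB.right_mem
      have d3 := hC.right_mem
      have ca1 : c ≠ a1 := hA.ne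
      have q2 := PX.cons e2 hB.symm (fun h => hu1 (s2 h))
      have q3 := PX.cons f.symm hC.symm (fun h => hd b (s3 h) hb)
      have q1 := PX.cons f1 hP (fun h => hd a1 ha1 (hTD h))
      have r1 := PX.edge e1
      have rb := PX.edge eb
      have ua1 : u ≠ a1 := e1.ne
      have ua2 : u ≠ a2 := e2.ne
      apply hT
      refine toks_mk2 (a := c) (b := a1) (c := u) (d := b) hA q2.symm q3.symm r1.symm q1 rb ?_ ?_ ?_ ?_ ?_ ?_ ?_
        ?_ ?_ ?_ ?_ ?_ ?_ ?_ ?_ <;> grind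
    rcases hI with ⟨_, ⟨h, _⟩ | ⟨h, _⟩ | ⟨h, _⟩⟩
    · exact key a1 a2 b1 ha1 ha2 hb1 h12 e1 e2 f1 n4 n1 h
    · exact key a1 a2 b1 ha1 ha2 hb1 h12 e1 e2 f1 n4 n1 h
    · exact key a2 a1 b2 ha2 ha1 hb2 h12.symm e2 e1 f2 n5 n2 h.swap12
  · obtain ⟨T, hTD, hP⟩ := h3.par hy hb hyb true
    have t1 := hP.left_mem
    have t2 := hP.right_mem
    have q1 := PX.cons ey hP (fun h => hu3 (hTD h))
    have q2 := PX.cons f q1.symm (by
      rw [Finset.mem_insert, not_or]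
      exact ⟨ua.symm, fun h => hd a ha (hTD h)⟩)
    apply hT
    refine toks_claw_rg (c := u) hII hu1 r1 r2 q2.symm ?_ ?_ ?_ ?_ ?_ ?_ <;> grind

/-- pattern (3,0) -/
theorem two_a_30 (hht : HTStmt G) (hT : ¬ HasTOKS G) (h1 : Hub G D1) (h3 : Hub G D3)
    (hd : ∀ v, v ∈ D1 → v ∈ D3 → False)
    (hu1 : u ∉ D1) (hu3 : u ∉ D3) {a1 a2 a3 b1 b2 b3 y : V} (ha1 : a1 ∈ D1) (ha2 : a2 ∈ D1)
    (ha3 : a3 ∈ D1) (hb1 : b1 ∈ D3) (hb2 : b2 ∈ D3) (hb3 : b3 ∈ D3) (hy : y ∈ D3)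
    (h12 : a1 ≠ a2) (h23 : a2 ≠ a3) (h13 : a1 ≠ a3) (e1 : G.Adj u a1) (e2 : G.Adj u a2) (e3 : G.Adj u a3)
    (f1 : G.Adj a1 b1) (f2 : G.Adj a2 b2) (f3 : G.Adj a3 b3) (ey : G.Adj u y) : False := by
  have n12 : b1 ≠ b2 := by
    rintro rfl
    exact two_a_0 hT h1 h3 hd hu1 hu3 ha1 ha2 hb1 hy h12 e1 e2 f1 f2 ey
  have n23 : b2 ≠ b3 := by
    rintro rfl
    exact two_a_0 hT h1 h3 hd hu1 hu3 ha2 ha3 hb2 hy h23 e2 e3 f2 f3 ey
  have n13 : b1 ≠ b3 := by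
    rintro rfl
    exact two_a_0 hT h1 h3 hd hu1 hu3 ha1 ha3 hb1 hy h13 e1 e3 f1 f3 ey
  have y1 : b1 ≠ y := by
    rintro rfl
    exact two_a_1 hT h1 h3 hd hu1 hu3 ha1 ha2 hb2 hy h12 e1 e2 f2 ey f1
  have y2 : b2 ≠ y := by
    rintro rfl
    exact two_a_1 hT h1 h3 hd hu1 hu3 ha2 ha1 hb1 hy h12.symm e2 e1 f1 ey f2
  have y3 : b3 ≠ y := by
    rintro rfl
    exact two_a_1 hT h1 h3 hd hu1 hu3 ha3 ha1 hb1 hy h13.symm e3 e1 f1 ey f3
  -- the second half: a tripod with one odd leg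
  have key : ∀ (a1 a2 a3 b1 b2 : V), a1 ∈ D1 → a2 ∈ D1 → a3 ∈ D1 → b1 ∈ D3 → b2 ∈ D3 → a1 ≠ a2 →
      a2 ≠ a3 → a1 ≠ a3 → G.Adj u a1 → G.Adj u a2 → G.Adj u a3 → G.Adj a1 b1 → G.Adj a2 b2 → b1 ≠ b2 →
      b1 ≠ y → b2 ≠ y → Tp G D1 a1 a2 a3 false false true → False := by
    intro a1 a2 a3 b1 b2 ha1 ha2 ha3 hb1 hb2 h12 h23 h13 e1 e2 e3 f1 f2 n12 y1 y2 ht
    -- links for `D3` at `(b1, b2, y)`
    have hd' : ∀ v, v ∈ D3 → v ∈ D1 → False := fun v hv hw => hd v hw hv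
    have hU : Hub G (insert u D1) := h1.insert hu1 ha1 ha2 h12 e1 e2
    have hdU : ∀ v, v ∈ D3 → v ∈ insert u D1 → False := by
      intro v hv hw
      rw [Finset.mem_insert] at hw
      rcases hw with rfl | hw
      · exact hu3 hv
      · exact hd v hw hv
    have l12 : Lk G D3 b1 b2 := Lk.of_hub h1 hd' hb1 hb2 n12 ha1 ha2 h12 f1.symm f2.symm
    have l1y : Lk G D3 b1 y := Lk.of_hub hU hdU hb1 hy y1 (Finset.mem_insert_of_mem ha1)
      (Finset.mem_insert_self u D1) e1.ne.symm f1.symm ey.symm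
    have l2y : Lk G D3 b2 y := Lk.of_hub hU hdU hb2 hy y2 (Finset.mem_insert_of_mem ha2)
      (Finset.mem_insert_self u D1) e2.ne.symm f2.symm ey.symm
    rcases hht D3 b1 b2 y h3 hb1 hb2 hy n12 y2 y1 l12 l1y l2y with hI | hII
    · exact two_a_X hT h1 hd hu1 hu3 ha1 ha2 h12 e1 e2 f1 f2 ey hI.1
    · obtain ⟨c, A, B, C, hA, hB, hC, s1, s2, s3, m1, m2, m3⟩ := ht
      have c1 := hA.left_mem
      have c2 := hB.left_mem
      have c3 := hC.left_mem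
      have d1 := hA.right_mem
      have d2 := hB.right_mem
      have d3 := hC.right_mem
      have ua1 : u ≠ a1 := e1.ne
      have ua2 : u ≠ a2 := e2.ne
      have ua3 : u ≠ a3 := e3.ne
      have uy : u ≠ y := ey.ne
      have q1 := PX.cons f1.symm hA.symm (fun h => hd b1 (s1 h) hb1)
      have q2 := PX.cons f2.symm hB.symm (fun h => hd b2 (s2 h) hb2)
      have q3 := PX.cons e3 hC.symm (fun h => hu1 (s3 h))
      have q4 := PX.cons ey.symm q3 (by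
        rw [Finset.mem_insert, not_or]
        exact ⟨uy.symm, fun h => hd y (s3 h) hy⟩)
      apply hT
      refine toks_claw_rg (c := c) hII (fun h => hd c (s1 c1) h) q1.symm q2.symm q4.symm ?_ ?_ ?_ ?_ ?_ ?_ <;> grind
  -- links for `D1`
  rcases hht D1 a1 a2 a3 h1 ha1 ha2 ha3 h12 h23 h13 (Lk.of_hub h3 hd ha1 ha2 h12 hb1 hb2 n12 f1 f2)
    (Lk.of_hub h3 hd ha1 ha3 h13 hb1 hb3 n13 f1 f3) (Lk.of_hub h3 hd ha2 ha3 h23 hb2 hb3 n23 f2 f3) with hI | hII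
  · rcases hI with ⟨_, ⟨h, _⟩ | ⟨h, _⟩ | ⟨h, _⟩⟩
    · exact key a2 a3 a1 b2 b3 ha2 ha3 ha1 hb2 hb3 h23 h13.symm h12.symm e2 e3 e1 f2 f3 n23 y2 y3
        h.swap12.swap23
    · exact key a2 a3 a1 b2 b3 ha2 ha3 ha1 hb2 hb3 h23 h13.symm h12.symm e2 e3 e1 f2 f3 n23 y2 y3
        h.swap12.swap23
    · exact key a1 a3 a2 b1 b3 ha1 ha3 ha2 hb1 hb3 h13 h23.symm h12 e1 e3 e2 f1 f3 n13 y1 y3
        h.swap23
  · exact two_a_w2 hT h3 hd hu1 hu3 ha1 ha2 ha3 hb1 hb2 h12 n12 e1 e2 e3 f1 f2 hII.tp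

end TwoA

section Count

variable [Fintype V] {D1 : Finset V} {u : V}

open Classical in
/-- the contacts of `u` in `D` towards `E` -/
noncomputable def cts (G : SimpleGraph V) (D E : Finset V) (u : V) : Finset V :=
  D.filter fun a => G.Adj u a ∧ ∃ b ∈ E, G.Adj a b

theorem mem_cts {a : V} : a ∈ cts G D E u ↔ a ∈ D ∧ G.Adj u a ∧ ∃ b ∈ E, G.Adj a b := by
  classical
  unfold cts
  rw [Finset.mem_filter]

/-- (2A): at most two contacts -/
theorem two_a (hht : HTStmt G) (hT : ¬ HasTOKS G) {D3 : Finset V} (h1 : Hub G D1) (h3 : Hub G D3)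
    (hd : ∀ v, v ∈ D1 → v ∈ D3 → False) (hu1 : u ∉ D1) (hu3 : u ∉ D3)
    (n1 : ∃ a ∈ D1, ∃ a' ∈ D1, a ≠ a' ∧ G.Adj u a ∧ G.Adj u a')
    (n3 : ∃ a ∈ D3, ∃ a' ∈ D3, a ≠ a' ∧ G.Adj u a ∧ G.Adj u a') :
    (cts G D1 D3 u).card + (cts G D3 D1 u).card ≤ 2 := by
  have hd' : ∀ v, v ∈ D3 → v ∈ D1 → False := fun v hv hw => hd v hw hv
  -- no three contacts on one side
  have k3 : ∀ (D1 D3 : Finset V), Hub G D1 → Hub G D3 → (∀ v, v ∈ D1 → v ∈ D3 → False) → u ∉ D1 →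
      u ∉ D3 → (∃ a ∈ D3, ∃ a' ∈ D3, a ≠ a' ∧ G.Adj u a ∧ G.Adj u a') → (cts G D1 D3 u).card ≤ 2 := by
    intro D1 D3 h1 h3 hd hu1 hu3 n3
    by_contra hc
    push Not at hc
    obtain ⟨a1, ha1, a2, ha2, a3, ha3, h12, h13, h23⟩ := Finset.two_lt_card.1 hc
    rw [mem_cts] at ha1 ha2 ha3
    obtain ⟨b1, hb1, f1⟩ := ha1.2.2
    obtain ⟨b2, hb2, f2⟩ := ha2.2.2
    obtain ⟨b3, hb3, f3⟩ := ha3.2.2
    obtain ⟨y, hy, y', hy', hyy, ey, ey'⟩ := n3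
    exact two_a_30 hht hT h1 h3 hd hu1 hu3 ha1.1 ha2.1 ha3.1 hb1 hb2 hb3 hy h12 h23 h13 ha1.2.1 ha2.2.1
      ha3.2.1 f1 f2 f3 ey
  -- not two contacts on one side and one on the other
  have k21 : ∀ (D1 D3 : Finset V), Hub G D1 → Hub G D3 → (∀ v, v ∈ D1 → v ∈ D3 → False) → u ∉ D1 →
      u ∉ D3 → (∃ a ∈ D3, ∃ a' ∈ D3, a ≠ a' ∧ G.Adj u a ∧ G.Adj u a') → 2 ≤ (cts G D1 D3 u).card →
      1 ≤ (cts G D3 D1 u).card → False := by
    intro D1 D3 h1 h3 hd hu1 hu3 n3 hc hc'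
    obtain ⟨a1, ha1, a2, ha2, h12⟩ := Finset.one_lt_card.1 hc
    obtain ⟨b, hb⟩ := Finset.card_pos.1 hc'
    rw [mem_cts] at ha1 ha2 hb
    obtain ⟨b1, hb1, f1⟩ := ha1.2.2
    obtain ⟨b2, hb2, f2⟩ := ha2.2.2
    obtain ⟨a, ha, f⟩ := hb.2.2
    obtain ⟨y, hy, y', hy', hyy, ey, ey'⟩ := n3
    obtain ⟨w, hw, hwb, ew⟩ : ∃ w ∈ D3, w ≠ b ∧ G.Adj u w := by
      by_cases h : y = b
      · exact ⟨y', hy', fun h' => hyy (h.trans h'.symm), ey'⟩
      · exact ⟨y, hy, h, ey⟩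
    exact two_a_21 hht hT h1 h3 hd hu1 hu3 ha1.1 ha2.1 ha hb1 hb2 hb.1 hw h12 hwb ha1.2.1 ha2.2.1 f1 f2
      hb.2.1 ew f.symm
  have a1 := k3 D1 D3 h1 h3 hd hu1 hu3 n3
  have a2 := k3 D3 D1 h3 h1 hd' hu3 hu1 n1
  have a3 := k21 D1 D3 h1 h3 hd hu1 hu3 n3
  have a4 := k21 D3 D1 h3 h1 hd' hu3 hu1 n1
  by_contra hc
  push Not at hc
  rcases Nat.lt_or_ge (cts G D1 D3 u).card 2 with h | h
  · exact a4 (by omega) (by omega)
  · exact a3 h (by omega)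

/-- the step of `chi` for one vertex -/
theorem chi_insert (hu : u ∉ D1) (n1 : ∃ a ∈ D1, G.Adj u a) (n3 : ∃ b, b ∉ D1 ∧ b ≠ u ∧ G.Adj u b) :
    chi G (insert u D1) = chi G D1 + 2 - (cts G D1 (insert u D1)ᶜ u).card -
      (cts G (insert u D1)ᶜ D1 u).card := by
  classical
  set D3 := (insert u D1)ᶜ with hD3
  have m3 : ∀ v, v ∈ D3 ↔ v ≠ u ∧ v ∉ D1 := by
    intro v
    rw [hD3, Finset.mem_compl, Finset.mem_insert, not_or]
  let N1 := D1.filter (fun a => G.Adj u a)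
  let N3 := D3.filter (fun a => G.Adj u a)
  let A := D3.filter (fun b => ∃ a ∈ D1, G.Adj a b)
  let B := D1.filter (fun a => ∃ b ∈ D3, G.Adj a b)
  have mN1 : ∀ v, v ∈ N1 ↔ v ∈ D1 ∧ G.Adj u v := fun v => Finset.mem_filter
  have mN3 : ∀ v, v ∈ N3 ↔ v ∈ D3 ∧ G.Adj u v := fun v => Finset.mem_filter
  have mA : ∀ v, v ∈ A ↔ v ∈ D3 ∧ ∃ a ∈ D1, G.Adj a v := fun v => Finset.mem_filter
  have mB : ∀ v, v ∈ B ↔ v ∈ D1 ∧ ∃ b ∈ D3, G.Adj v b := fun v => Finset.mem_filter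
  -- the degree of u
  have hdeg : deg G u = N1.card + N3.card := by
    unfold deg
    rw [← Finset.card_union_of_disjoint]
    · congr 1
      ext v
      rw [Finset.mem_filter, Finset.mem_union, mN1, mN3, m3]
      constructor
      · rintro ⟨_, h⟩
        by_cases hv : v ∈ D1
        · exact Or.inl ⟨hv, h⟩
        · exact Or.inr ⟨⟨h.ne.symm, hv⟩, h⟩
      · rintro (⟨_, h⟩ | ⟨_, h⟩) <;> exact ⟨Finset.mem_univ _, h⟩
    · rw [Finset.disjoint_left]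
      intro v h1 h2
      rw [mN1] at h1
      rw [mN3, m3] at h2
      exact h2.1.2 h1.1
  -- the boundary sets
  have e1 : nbh G (insert u D1) = A ∪ N3 := by
    ext v
    rw [mem_nbh, Finset.mem_union, mA, mN3, m3, Finset.mem_insert, not_or]
    constructor
    · rintro ⟨h1, x, hx, hxv⟩
      rw [Finset.mem_insert] at hx
      rcases hx with rfl | hx
      · exact Or.inr ⟨h1, hxv⟩
      · exact Or.inl ⟨h1, x, hx, hxv⟩
    · rintro (⟨h1, x, hx, hxv⟩ | ⟨h1, h2⟩)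
      · exact ⟨h1, x, Finset.mem_insert_of_mem hx, hxv⟩
      · exact ⟨h1, u, Finset.mem_insert_self _ _, h2⟩
  have e2 : nbh G D1 = insert u A := by
    ext v
    rw [mem_nbh, Finset.mem_insert, mA, m3]
    constructor
    · rintro ⟨h1, x, hx, hxv⟩
      by_cases hv : v = u
      · exact Or.inl hv
      · exact Or.inr ⟨⟨hv, h1⟩, x, hx, hxv⟩
    · rintro (rfl | ⟨h1, x, hx, hxv⟩)
      · obtain ⟨a, ha, e⟩ := n1
        exact ⟨hu, a, ha, e.symm⟩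
      · exact ⟨h1.2, x, hx, hxv⟩
  have e3 : bd G (insert u D1) = insert u B := by
    ext v
    rw [mem_bd, Finset.mem_insert, Finset.mem_insert, mB]
    constructor
    · rintro ⟨h1, y, hy, hvy⟩
      rw [Finset.mem_insert, not_or] at hy
      by_cases hv : v = u
      · exact Or.inl hv
      · exact Or.inr ⟨h1.resolve_left hv, y, (m3 y).2 hy, hvy⟩
    · rintro (rfl | ⟨h1, y, hy, hvy⟩)
      · obtain ⟨b, hb, hbu, e⟩ := n3
        refine ⟨Or.inl rfl, b, ?_, e⟩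
        rw [Finset.mem_insert, not_or]
        exact ⟨hbu, hb⟩
      · refine ⟨Or.inr h1, y, ?_, hvy⟩
        rw [Finset.mem_insert, not_or]
        exact (m3 y).1 hy
  have e4 : bd G D1 = B ∪ N1 := by
    ext v
    rw [mem_bd, Finset.mem_union, mB, mN1]
    constructor
    · rintro ⟨h1, y, hy, hvy⟩
      by_cases hyu : y = u
      · subst hyu
        exact Or.inr ⟨h1, hvy.symm⟩
      · exact Or.inl ⟨h1, y, (m3 y).2 ⟨hyu, hy⟩, hvy⟩
    · rintro (⟨h1, y, hy, hvy⟩ | ⟨h1, h2⟩)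
      · exact ⟨h1, y, ((m3 y).1 hy).2, hvy⟩
      · exact ⟨h1, u, hu, h2.symm⟩
  -- cardinalities
  have i1 : A ∩ N3 = cts G D3 D1 u := by
    ext v
    rw [Finset.mem_inter, mA, mN3, mem_cts]
    constructor
    · rintro ⟨⟨h1, a, ha, e⟩, _, h2⟩
      exact ⟨h1, h2, a, ha, e.symm⟩
    · rintro ⟨h1, h2, a, ha, e⟩
      exact ⟨⟨h1, a, ha, e.symm⟩, h1, h2⟩
  have i2 : B ∩ N1 = cts G D1 D3 u := by
    ext v
    rw [Finset.mem_inter, mB, mN1, mem_cts]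
    tauto
  have c1 := Finset.card_union_add_card_inter A N3
  have c2 := Finset.card_union_add_card_inter B N1
  rw [i1] at c1
  rw [i2] at c2
  have c3 : (insert u A).card = A.card + 1 := Finset.card_insert_of_notMem (by
    rw [mA, m3]
    tauto)
  have c4 : (insert u B).card = B.card + 1 := Finset.card_insert_of_notMem (by
    rw [mB]
    tauto)
  unfold chi
  rw [Finset.sum_insert hu, e1, e2, e3, e4, hdeg]
  omega

/-- (A): `chi` does not decrease if one vertex is added -/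
theorem chi_A_aux (hht : HTStmt G) (hT : ¬ HasTOKS G) (hD : Mem G (insert u D1)) (hD1 : Mem G D1)
    (hu : u ∉ D1) : chi G D1 ≤ chi G (insert u D1) := by
  classical
  have hu3 : u ∉ (insert u D1)ᶜ := by simp
  have hc : D1ᶜ = insert u (insert u D1)ᶜ := by
    ext v
    simp only [Finset.mem_compl, Finset.mem_insert, not_or]
    constructor
    · intro h
      by_cases hv : v = u
      · exact Or.inl hv
      · exact Or.inr ⟨hv, h⟩
    · rintro (rfl | h)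
      · exact hu
      · exact h.2
  have n1 : ∃ a ∈ D1, ∃ a' ∈ D1, a ≠ a' ∧ G.Adj u a ∧ G.Adj u a' := by
    obtain ⟨a, ha, b, hb, hab, ⟨x, hx, e⟩, y, hy, f⟩ := hD.1.two_feet (E := D1) (K := {u})
      (by have := hD1.1.card; omega) (Finset.subset_insert u D1) (Finset.singleton_nonempty u)
      (by
        intro v hv
        rw [Finset.mem_singleton] at hv
        subst hv
        exact Finset.mem_sdiff.2 ⟨Finset.mem_insert_self _ _, hu⟩)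
      (by
        intro x hx y hy _
        rw [Finset.mem_sdiff, Finset.mem_insert] at hy
        rw [Finset.mem_singleton]
        exact hy.1.resolve_right hy.2)
    rw [Finset.mem_singleton] at hx hy
    subst hx hy
    exact ⟨a, ha, b, hb, hab, e.symm, f.symm⟩
  have n3 : ∃ a ∈ (insert u D1)ᶜ, ∃ a' ∈ (insert u D1)ᶜ, a ≠ a' ∧ G.Adj u a ∧ G.Adj u a' := by
    have hD1c := hD1.2
    rw [hc] at hD1c
    obtain ⟨a, ha, b, hb, hab, ⟨x, hx, e⟩, y, hy, f⟩ := hD1c.two_feet (E := (insert u D1)ᶜ) (K := {u})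
      (by have := hD.2.card; omega) (Finset.subset_insert u _) (Finset.singleton_nonempty u)
      (by
        intro v hv
        rw [Finset.mem_singleton] at hv
        subst hv
        exact Finset.mem_sdiff.2 ⟨Finset.mem_insert_self _ _, hu3⟩)
      (by
        intro x hx y hy _
        rw [Finset.mem_sdiff, Finset.mem_insert] at hy
        rw [Finset.mem_singleton]
        exact hy.1.resolve_right hy.2)
    rw [Finset.mem_singleton] at hx hy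
    subst hx hy
    exact ⟨a, ha, b, hb, hab, e.symm, f.symm⟩
  have hle := two_a hht hT hD1.1 hD.2 (by
    intro v hv hw
    rw [Finset.mem_compl, Finset.mem_insert, not_or] at hw
    exact hw.2 hv) hu hu3 n1 n3
  have heq := chi_insert (G := G) hu (by
    obtain ⟨a, ha, _, _, _, e, _⟩ := n1
    exact ⟨a, ha, e⟩) (by
    obtain ⟨a, ha, _, _, _, e, _⟩ := n3
    rw [Finset.mem_compl, Finset.mem_insert, not_or] at ha
    exact ⟨a, ha.2, ha.1, e⟩)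
  rw [heq]
  omega

/-- (A) -/
theorem chi_A {D : Finset V} (hg : Good G) (h1 : Mem G D1) (hD : Mem G D) {u : V} (hu : u ∉ D1)
    (h : D = insert u D1) : chi G D1 ≤ chi G D := by
  subst h
  exact chi_A_aux (fun D x y z hD hx hy hz hxy hyz hxz l1 l2 l3 =>
    ht hg.nt hD hx hy hz hxy hyz hxz l1 l2 l3) hg.nt hD h1 hu

end Count

end Pool.Agent.TOKSN
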