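import Pool.Agent.TOKSN.TwoBb

/-!
# LINE N, case (2B): the facts c1 and c6, assembly
-/

set_option autoImplicit false
set_option linter.unusedSectionVars false
set_option linter.unusedVariables false

namespace Pool.Agent.TOKSN

open Pool.Agent.TOKST (HasTOKS)

variable {V : Type} [DecidableEq V] {G : SimpleGraph V} {D D1 D3 : Finset V} {p : ℕ → V} {h : ℕ}

/-- the link `p 0 .. p (h+1)` outside `D1` -/
theorem BSet.link_ab (H : BSet G D1 D3 p h) : Lk G D1 (p 0) (p (h + 1)) := by
  have h2 := H.h2
  -- `t ∈ S_1`, `t' ∈ S_h`, `t ≠ t'`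
  obtain ⟨t, ht, et, _⟩ := H.other (i := 1) (by omega) (by omega) (p 0)
  obtain ⟨t', ht', et', htt⟩ := H.other (i := h) (by omega) (by omega) t
  have d13 := H.d13
  have n1 := H.pn3 (i := 1) (by omega)
  have n2 := H.pn3 (i := h) (by omega)
  have n3 := H.pn3 (i := 0) (by omega)
  have n4 := H.pn3 (i := h + 1) (le_refl _)
  have m1 := H.mid1 1 (by omega) (by omega)
  have m2 := H.mid1 h (by omega) (by omega)
  have d01 := H.ne (i := 0) (j := 1) (by omega) (by omega) (by omega)
  have d0h := H.ne (i := 0) (j := h) (by omega) (by omega) (by omega)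
  have d0h1 := H.ne (i := 0) (j := h + 1) (by omega) (by omega) (by omega)
  have d1h := H.ne (i := 1) (j := h) (by omega) (by omega) (by omega)
  have d1h1 := H.ne (i := 1) (j := h + 1) (by omega) (by omega) (by omega)
  have dhh1 := H.ne (i := h) (j := h + 1) (by omega) (by omega) (by omega)
  have a01 : G.Adj (p 0) (p 1) := H.adj 0 (by omega)
  have ah : G.Adj (p h) (p (h + 1)) := H.adj h (le_refl _)
  obtain ⟨T, hT, hTs⟩ := (H.hub3.par ht ht' htt.symm true).ex
  have b1 := hT.left_mem
  have b2 := hT.right_mem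
  have q1 := (PX.edge a01).concat (PX.edge et) (by grind)
  have q2 := q1.concat hT (by grind)
  have q3 := q2.concat (PX.edge et'.symm) (by grind)
  have q4 := q3.concat (PX.edge ah) (by grind)
  exact ⟨_, q4, by grind⟩

/-- the link `p 0 .. x` outside `D1` through `D3` -/
theorem BSet.link_ax (H : BSet G D1 D3 p h) {s x : V} (hs : s ∈ D3) (hx : x ∈ D1) (ex : G.Adj s x)
    (hx0 : x ≠ p 0) : Lk G D1 (p 0) x := by
  have h2 := H.h2
  obtain ⟨t, ht, et, hts⟩ := H.other (i := 1) (by omega) (by omega) s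
  have d13 := H.d13
  have n1 := H.pn3 (i := 1) (by omega)
  have n3 := H.pn3 (i := 0) (by omega)
  have m1 := H.mid1 1 (by omega) (by omega)
  have d01 := H.ne (i := 0) (j := 1) (by omega) (by omega) (by omega)
  have a01 : G.Adj (p 0) (p 1) := H.adj 0 (by omega)
  obtain ⟨T, hT, hTs⟩ := (H.hub3.par ht hs hts false).ex
  have b1 := hT.left_mem
  have b2 := hT.right_mem
  have q1 := (PX.edge a01).concat (PX.edge et) (by grind)
  have q2 := q1.concat hT (by grind)
  have q3 := q2.concat (PX.edge ex) (by grind)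
  exact ⟨_, q3, by grind⟩

theorem BSet.link_bx (H : BSet G D1 D3 p h) {s x : V} (hs : s ∈ D3) (hx : x ∈ D1) (ex : G.Adj s x)
    (hx0 : x ≠ p (h + 1)) : Lk G D1 (p (h + 1)) x := by
  have := H.rev.link_ax hs hx ex (by simpa using hx0)
  simpa using this

/-- the type of `(p 0, p (h+1), x)` -/
theorem BSet.tyabx (H : BSet G D1 D3 p h) {s x : V} (hs : s ∈ D3) (hx : x ∈ D1) (ex : G.Adj s x)
    (hx0 : x ≠ p 0) (hx1 : x ≠ p (h + 1)) : Ty G D1 (p 0) (p (h + 1)) x :=
  ht H.hT H.hub1 H.a H.b hx H.ends_ne.symm hx1.symm hx0.symm H.link_ab (H.link_ax hs hx ex hx0)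
    (H.link_bx hs hx ex hx1)

/-- for odd `h` the ring type is impossible -/
theorem BSet.no_ring_odd (H : BSet G D1 D3 p h) (ho : h % 2 = 1) {s x : V} (hs : s ∈ D3)
    (hx : x ∈ D1) (ex : G.Adj s x) (hR : Rg G D1 (p 0) (p (h + 1)) x) : False := by
  have h2 := H.h2
  obtain ⟨t, ht, et, hts⟩ := H.other (i := 1) (by omega) (by omega) s
  have d13 := H.d13
  have n1 := H.pn3 (i := 1) (by omega)
  have n3 := H.pn3 (i := 0) (by omega)
  have m1 := H.mid1 1 (by omega) (by omega)
  have d01 := H.ne (i := 0) (j := 1) (by omega) (by omega) (by omega)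
  have a01 : G.Adj (p 0) (p 1) := H.adj 0 (by omega)
  obtain ⟨T, hT, hTs⟩ := (H.hub3.par ht hs hts true).ex
  have b1 := hT.left_mem
  have b2 := hT.right_mem
  have a1 := H.px (i := 1) (j := h + 1) (by omega) (le_refl _)
  have ee : bpar (h + 1 - 1) = true := by
    rw [Nat.add_sub_cancel]
    exact bpar_odd ho
  rw [ee] at a1
  have w2 : ∀ v, v ∈ bseg p 1 (h + 1) → v ∈ D1 → v = p (h + 1) := by
    intro v hv hv'
    rcases H.seg1 (le_refl (h + 1)) v hv hv' with ⟨e, _⟩ | ⟨_, e⟩
    · omega
    · exact e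
  have w3 := H.seg3 (i := 1) (j := h + 1) (le_refl _)
  have w4 : ∀ v, v ∈ bseg p 1 (h + 1) → v = p 0 → False := by
    intro v hv e
    obtain ⟨m, m1, m2, m3⟩ := mem_bseg.1 hv
    exact H.ne (i := m) (j := 0) (by omega) (by omega) (by omega) (m3.trans e)
  have b3 := a1.left_mem
  have b4 := a1.right_mem
  have q3 := ((PX.edge et).concat hT (by grind)).concat (PX.edge ex) (by grind)
  have hpx : p 0 ≠ x ∧ p (h + 1) ≠ x := by
    obtain ⟨f, g, h', A, B, C, L, M, N, hA, hB, hC, hL, hM, hN, sA, sB, sC, sL, sM, sN,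
      k1, k2, k3, k4, k5, k6, k7, k8, k9, k10, k11, k12, k13, k14, k15⟩ := hR
    have r1 := hL.right_mem
    have r2 := hM.right_mem
    have r3 := hN.right_mem
    constructor
    · intro e
      rw [e] at r1
      exact k14 _ r1 r3
    · intro e
      rw [e] at r2
      exact k15 _ r2 r3
  obtain ⟨x1, x2⟩ := hpx
  exact ring_centre H.hT hR (PX.edge a01.symm) a1 q3 (by grind) (by grind) (by grind)
    (by grind) (by grind) (by grind) (by grind)

/-- for even `h` a beta at `p 1` forces the ring type -/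
theorem BSet.ring_even (H : BSet G D1 D3 p h) (ho : h % 2 = 0) {s x : V} (hs : s ∈ D3)
    (e1 : G.Adj (p 1) s) (hx : x ∈ D1) (ex : G.Adj s x) : Rg G D1 (p 0) (p (h + 1)) x := by
  have h2 := H.h2
  have hx0 : x ≠ p 0 := by
    rintro rfl
    exact H.not_p0 hs e1 ex.symm
  have hx1 : x ≠ p (h + 1) := by
    rintro rfl
    exact H.even_common (i := 1) (j := h + 1) (by omega) (le_refl _) (by omega) hs e1 ex.symm
  rcases H.tyabx hs hx ex hx0 hx1 with hI | hII
  · exfalso
    obtain ⟨t, ht, et, hts⟩ := H.other (i := 2) (by omega) (by omega) s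
    obtain ⟨Z, hZ, hZs⟩ := H.leg hs ht et (H.pn3 (by omega))
    have n1 := H.pn3 (i := 1) (by omega)
    have n2 := H.pn3 (i := 2) (by omega)
    have d12 := H.ne (i := 1) (j := 2) (by omega) (by omega) (by omega)
    have := hI.1
    have e2 : (!bpar 1) = false := by decide
    have e3 : (!bpar (h - 1)) = false := by
      rw [bpar_odd (by omega)]
      rfl
    refine H.rc (i := 1) (le_refl _) (by omega) hs hx ex.symm (X := {s, p 1}) (Y := Z) ?_
      (PX.edge e1.symm) hZ (by grind) (by grind) (by grind)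
    rw [e2, e3]
    exact this
  · exact hII

/-- (c1) no beta in the middle -/
theorem BSet.c1 (H : BSet G D1 D3 p h) (i : ℕ) (s : V) (h1 : 1 ≤ i) (hi : i ≤ h) (hs : s ∈ D3)
    (e1 : G.Adj (p i) s) (hal : Al G D1 s) : i = 1 ∨ i = h := by
  by_contra hc
  push Not at hc
  obtain ⟨hc1, hc2⟩ := hc
  obtain ⟨x, hx, ex⟩ := hal
  have h2 := H.h2
  have hx0 : x ≠ p 0 := by
    rintro rfl
    rcases Nat.mod_two_eq_zero_or_one i with hp | hp
    · exact H.even_common (i := 0) (j := i) (by omega) (by omega) (by omega) hs ex.symm e1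
    · obtain ⟨t, ht, et, _⟩ := H.other (i := i + 1) (by omega) (by omega) s
      exact H.odd_up (i := 0) (j := i) (k := i + 1) (by omega) (by omega) (by omega) (by omega)
        (by omega) hs ex.symm e1 ht et
  have hx1 : x ≠ p (h + 1) := by
    rintro rfl
    rcases Nat.mod_two_eq_zero_or_one (h + 1 - i) with hp | hp
    · exact H.even_common (i := i) (j := h + 1) (by omega) (by omega) (by omega) hs e1 ex.symm
    · obtain ⟨t, ht, et, _⟩ := H.other (i := i - 1) (by omega) (by omega) s
      exact H.odd_down (i := i) (j := h + 1) (k := i - 1) (by omega) (by omega) (by omega) (by omega)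
        (by omega) hs e1 ex.symm ht et
  -- the two rings
  have ring_up : ∀ k l : Bool, k = (!bpar i) → l = (!bpar (h - i)) →
      ¬ Tp G D1 (p 0) (p (h + 1)) x k l false := by
    rintro k l rfl rfl htp
    obtain ⟨t, ht, et, hts⟩ := H.other (i := i + 1) (by omega) (by omega) s
    obtain ⟨Z, hZ, hZs⟩ := H.leg hs ht et (H.pn3 (by omega))
    have n1 := H.pn3 (i := i) (by omega)
    have n2 := H.pn3 (i := i + 1) (by omega)
    have d12 := H.ne (i := i) (j := i + 1) (by omega) (by omega) (by omega)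
    exact H.rc (i := i) h1 (by omega) hs hx ex.symm (X := {s, p i}) (Y := Z) htp
      (PX.edge e1.symm) hZ (by grind) (by grind) (by grind)
  have ring_down : ∀ k l : Bool, k = (!bpar (i - 1)) → l = (!bpar (h - (i - 1))) →
      ¬ Tp G D1 (p 0) (p (h + 1)) x k l false := by
    rintro k l rfl rfl htp
    obtain ⟨t, ht, et, hts⟩ := H.other (i := i - 1) (by omega) (by omega) s
    obtain ⟨Z, hZ, hZs⟩ := H.leg hs ht et (H.pn3 (by omega))
    have n1 := H.pn3 (i := i) (by omega)
    have n2 := H.pn3 (i := i - 1) (by omega)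
    have d12 := H.ne (i := i) (j := i - 1) (by omega) (by omega) (by omega)
    have ei : i - 1 + 1 = i := by omega
    exact H.rc (i := i - 1) (by omega) (by omega) hs hx ex.symm (X := Z) (Y := {s, p i}) htp
      hZ (by rw [ei]; exact PX.edge e1.symm) (by grind) (by grind) (by grind)
  rcases Nat.mod_two_eq_zero_or_one h with hh | hh
  · -- h even
    rcases H.tyabx hs hx ex hx0 hx1 with hI | hII
    · rcases Nat.mod_two_eq_zero_or_one i with hp | hp
      · refine ring_down false false ?_ ?_ hI.1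
        · rw [bpar_odd (by omega)]; rfl
        · rw [bpar_odd (by omega)]; rfl
      · refine ring_up false false ?_ ?_ hI.1
        · rw [bpar_odd (by omega)]; rfl
        · rw [bpar_odd (by omega)]; rfl
    · rcases Nat.mod_two_eq_zero_or_one i with hp | hp
      · refine ring_up true true ?_ ?_ hII.tp3
        · rw [bpar_even (by omega)]; rfl
        · rw [bpar_even (by omega)]; rfl
      · refine ring_down true true ?_ ?_ hII.tp3
        · rw [bpar_even (by omega)]; rfl
        · rw [bpar_even (by omega)]; rfl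
  · -- h odd
    rcases H.tyabx hs hx ex hx0 hx1 with hI | hII
    · have no10 : ¬ Tp G D1 (p 0) (p (h + 1)) x true false false := by
        rcases Nat.mod_two_eq_zero_or_one i with hp | hp
        · refine ring_up true false ?_ ?_
          · rw [bpar_even (by omega)]; rfl
          · rw [bpar_odd (by omega)]; rfl
        · refine ring_down true false ?_ ?_
          · rw [bpar_even (by omega)]; rfl
          · rw [bpar_odd (by omega)]; rfl
      have no01 : ¬ Tp G D1 (p 0) (p (h + 1)) x false true false := by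
        rcases Nat.mod_two_eq_zero_or_one i with hp | hp
        · refine ring_down false true ?_ ?_
          · rw [bpar_odd (by omega)]; rfl
          · rw [bpar_even (by omega)]; rfl
        · refine ring_up false true ?_ ?_
          · rw [bpar_odd (by omega)]; rfl
          · rw [bpar_even (by omega)]; rfl
      rcases hI.2 with ⟨hh1, hh2⟩ | ⟨hh1, hh2⟩ | ⟨hh1, hh2⟩
      · exact no10 hh1
      · exact no10 hh1
      · exact no01 hh1
    · exact H.no_ring_odd hh hs hx ex hII

/-- (c6), first case: an odd path from `s` to `s0` avoiding `s'` -/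
theorem BSet.c6a (H : BSet G D1 D3 p h) {s0 s s' : V} (hs0 : s0 ∈ D3) (hs : s ∈ D3) (hs' : s' ∈ D3)
    (e10 : G.Adj (p 1) s0) (eh0 : G.Adj (p h) s0) (e1 : G.Adj (p 1) s) (hal : Al G D1 s)
    (eh : G.Adj (p h) s') (hal' : Al G D1 s') (hss : s ≠ s') (h00' : s' ≠ s0) {Q : Finset V}
    (hQ : PX G Q s s0 true) (hQs : ∀ v, v ∈ Q → v ∈ D3) (hQ' : s' ∉ Q) : False := by
  obtain ⟨x, hx, ex⟩ := hal
  obtain ⟨x', hx', ex'⟩ := hal'
  have h2 := H.h2
  have he := H.h_even hs0 e10 eh0
  have d13 := H.d13
  have a1 := H.px (i := 1) (j := h) (by omega) (by omega)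
  rw [bpar_odd (by omega)] at a1
  have w1 := H.seg3 (i := 1) (j := h) (by omega)
  have w2 : ∀ v, v ∈ bseg p 1 h → v ∈ D1 → False := by
    intro v hv hv'
    rcases H.seg1 (by omega : h ≤ h + 1) v hv hv' with ⟨e, _⟩ | ⟨e, _⟩
    · omega
    · omega
  have b1 := a1.left_mem
  have b2 := a1.right_mem
  have b3 := hQ.left_mem
  have b4 := hQ.right_mem
  have nq := hQ.ne
  have np := a1.ne
  -- the even path `x' .. x`
  obtain ⟨T, hT, hTs⟩ : ∃ T, PX G T x' x false ∧ ∀ v, v ∈ T → v ∈ D1 := by
    by_cases hxx : x' = x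
    · subst hxx
      exact ⟨{x'}, PX.refl G x', by grind⟩
    · exact (H.hub1.par hx' hx hxx false).ex
  have b5 := hT.left_mem
  have b6 := hT.right_mem
  have n1 := H.pn3 (i := h) (by omega)
  have m1 := H.mid1 h (by omega) (le_refl _)
  have q1 := ((PX.edge eh).concat (PX.edge ex') (by grind)).concat hT (by grind)
  have q2 := q1.concat (PX.edge ex.symm) (by grind)
  refine H.hT (toks_mk2 (a := p 1) (b := p h) (c := s) (d := s0) a1 (PX.edge e1) (PX.edge e10)
    q2 (PX.edge eh0) hQ
    ?_ ?_ ?_ ?_ ?_ ?_ ?_ ?_ ?_ ?_ ?_ ?_ ?_ ?_ ?_) <;> grind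

/-- (c6) -/
theorem BSet.c6 (H : BSet G D1 D3 p h) (s0 s s' : V) (hs0 : s0 ∈ D3) (hs : s ∈ D3) (hs' : s' ∈ D3)
    (e10 : G.Adj (p 1) s0) (eh0 : G.Adj (p h) s0) (hn : ¬ Al G D1 s0) (e1 : G.Adj (p 1) s)
    (hal : Al G D1 s) (eh : G.Adj (p h) s') (hal' : Al G D1 s') : False := by
  have h2 := H.h2
  have he := H.h_even hs0 e10 eh0
  have hs0s : s ≠ s0 := by
    rintro rfl
    exact hn hal
  have hs0s' : s' ≠ s0 := by
    rintro rfl
    exact hn hal'
  have hss : s ≠ s' := by
    rintro rfl
    exact hs0s (H.c5 s s0 hs hs0 e1 eh e10 eh0)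
  obtain ⟨Q, hQ, hQs⟩ := (H.hub3.par hs hs0 hs0s true).ex
  by_cases hq : s' ∈ Q
  · obtain ⟨Q1, Q2, k1, k2, hQ1, hQ2, hU, hI, hk⟩ := hQ.cut hq
    have i1 := eq_of_inter hI
    have u1 : ∀ v, v ∈ Q1 → v ∈ D3 := by grind
    have u2 : ∀ v, v ∈ Q2 → v ∈ D3 := by grind
    have c1 := hQ1.left_mem
    have c2 := hQ1.right_mem
    have c3 := hQ2.left_mem
    have c4 := hQ2.right_mem
    rcases k1 with _ | _
    · -- `s' .. s0` odd, avoiding `s`
      have hk2 : k2 = true := by simpa using hk
      subst hk2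
      have ns : s ∉ Q2 := fun h' => hss (i1 s c1 h')
      have R := H.rev
      have r1 : p (h + 1 - 1) = p h := by simp
      have r2 : p (h + 1 - h) = p 1 := by
        have : h + 1 - h = 1 := by omega
        rw [this]
      refine R.c6a (s0 := s0) (s := s') (s' := s) hs0 hs' hs ?_ ?_ ?_ hal' ?_ hal hss.symm hs0s hQ2
        u2 ns
      · simp only [r1]; exact eh0
      · simp only [r2]; exact e10
      · simp only [r1]; exact eh
      · simp only [r2]; exact e1
    · -- `s .. s'` odd, avoiding `s0`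
      have hk2 : k2 = false := by
        rcases k2 with _ | _
        · rfl
        · exact absurd hk (by decide)
      have ns : s0 ∉ Q1 := fun h' => hs0s' (i1 s0 h' c4).symm
      obtain ⟨x, hx, ex⟩ := hal
      have hR := H.ring_even he hs e1 hx ex
      have hpx : p 0 ≠ x ∧ p (h + 1) ≠ x := by
        obtain ⟨f, g, h', A, B, C, L, M, N, hA, hB, hC, hL, hM, hN, sA, sB, sC, sL, sM, sN,
          k1, k2, k3, k4, k5, k6, k7, k8, k9, k10, k11, k12, k13, k14, k15⟩ := hR
        have r1 := hL.right_mem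
        have r2 := hM.right_mem
        have r3 := hN.right_mem
        constructor
        · intro e
          rw [e] at r1
          exact k14 _ r1 r3
        · intro e
          rw [e] at r2
          exact k15 _ r2 r3
      obtain ⟨x1, x2⟩ := hpx
      have d13 := H.d13
      have n0 := H.pn3 (i := 0) (by omega)
      have n1 := H.pn3 (i := 1) (by omega)
      have n2 := H.pn3 (i := h) (by omega)
      have n3 := H.pn3 (i := h + 1) (le_refl _)
      have m1 := H.mid1 1 (by omega) (by omega)
      have m2 := H.mid1 h (by omega) (by omega)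
      have d01 := H.ne (i := 0) (j := 1) (by omega) (by omega) (by omega)
      have d0h := H.ne (i := 0) (j := h) (by omega) (by omega) (by omega)
      have d0h1 := H.ne (i := 0) (j := h + 1) (by omega) (by omega) (by omega)
      have d1h := H.ne (i := 1) (j := h) (by omega) (by omega) (by omega)
      have d1h1 := H.ne (i := 1) (j := h + 1) (by omega) (by omega) (by omega)
      have dhh1 := H.ne (i := h) (j := h + 1) (by omega) (by omega) (by omega)
      have a01 : G.Adj (p 0) (p 1) := H.adj 0 (by omega)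
      have ah : G.Adj (p h) (p (h + 1)) := H.adj h (le_refl _)
      have ha := H.a
      have hb := H.b
      have q1 := ((PX.edge eh0).concat (PX.edge e10.symm) (by grind)).concat (PX.edge a01.symm)
        (by grind)
      have q3 := ((PX.edge eh).concat hQ1.symm (by grind)).concat (PX.edge ex) (by grind)
      exact ring_centre H.hT hR q1 (PX.edge ah) q3 (by grind) (by grind) (by grind)
        (by grind) (by grind) (by grind) (by grind)
  · exact H.c6a hs0 hs hs' e10 eh0 e1 hal eh hal' hss hs0s' hQ hQs hq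

/-- all six facts -/
theorem BSet.facts (H : BSet G D1 D3 p h) : BFacts G D1 D3 p h where
  c1 := H.c1
  c2 := H.c2
  c2' := by
    intro s hs e1 hal
    have := H.rev.c2 s hs (by simpa using e1) hal
    simpa using this
  c3 := H.c3
  c3' := by
    intro s s' hs hs' e1 e1' hal hal'
    exact H.rev.c3 s s' hs hs' (by simpa using e1) (by simpa using e1') hal hal'
  c4 := H.c4
  c5 := H.c5
  c6 := H.c6

end Pool.Agent.TOKSN
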