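import Pool.Agent.TOKSN.TwoBEnd
import Pool.Agent.TOKSN.TwoBc

/-!
# LINE N, case (B): the interface statement
-/

set_option autoImplicit false
set_option linter.unusedSectionVars false

namespace Pool.Agent.TOKSN

variable {V : Type} [DecidableEq V] [Fintype V] {G : SimpleGraph V} {D D1 : Finset V}

/-- **(B)** an ear attached to `D1` does not decrease `chi` -/
theorem chi_B (hg : Good G) (h1 : Mem G D1) (hD : Mem G D) (hs : D1 ⊆ D) {m : ℕ} {f : ℕ → V} {a a' : V}
    (hE : Ear G D1 (D \ D1) m f a a') : chi G D1 ≤ chi G D :=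
  chi_B_ear (fun _ hB => hB.facts) hg h1 hD hs hE

end Pool.Agent.TOKSN
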