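import Mathlib
import Pool.Agent.TOKSN.Ctx

/-!
# LINE N: degrees, boundaries and the potential
-/

set_option autoImplicit false
set_option linter.unusedSectionVars false

namespace Pool.Agent.TOKSN

open Pool.Agent.TOKST (HasTOKS)
open Pool.Agent.TOKSP (nbh mem_nbh four_le_nbh)

variable {V : Type} [DecidableEq V] [Fintype V] {G : SimpleGraph V} {S T U A B D D1 W X Y M : Finset V}
  {a b c t u v w x y : V}

/-- the neighbours of a vertex -/
noncomputable def nb (G : SimpleGraph V) (v : V) : Finset V := by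
  classical exact Finset.univ.filter (fun w => G.Adj v w)

theorem mem_nb : w ∈ nb G v ↔ G.Adj v w := by
  classical
  unfold nb
  simp

theorem deg_eq (G : SimpleGraph V) (v : V) : deg G v = (nb G v).card := rfl

theorem nbh_singleton_nb (G : SimpleGraph V) (v : V) : nbh G {v} = nb G v := by
  ext w
  rw [mem_nbh, mem_nb]
  simp only [Finset.mem_singleton, exists_eq_left]
  exact ⟨fun h => h.2, fun h => ⟨h.ne', h⟩⟩

theorem four_le_nb (hG : FC G) (hn : 5 ≤ Fintype.card V) (v : V) : 4 ≤ (nb G v).card := by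
  classical
  by_cases hex : ∃ w, w ∉ ({v} : Finset V) ∧ w ∉ nbh G {v}
  · have := hG {v} (Finset.singleton_nonempty v) hex
    rwa [nbh_singleton_nb] at this
  · push Not at hex
    have h2 : (Finset.univ : Finset V) ⊆ {v} ∪ nbh G {v} := by
      intro z _
      by_cases hz : z ∈ ({v} : Finset V)
      · exact Finset.mem_union_left _ hz
      · exact Finset.mem_union_right _ (hex z hz)
    have h3 := Finset.card_le_card h2
    have h4 := Finset.card_union_le {v} (nbh G {v})
    rw [Finset.card_univ] at h3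
    rw [Finset.card_singleton] at h4
    rw [nbh_singleton_nb] at h3 h4
    omega

theorem four_le_deg (h : Good G) (v : V) : 4 ≤ (nb G v).card := four_le_nb h.fc h.n5 v

theorem nbh_disj (G : SimpleGraph V) (X : Finset V) : Disjoint X (nbh G X) := by
  rw [Finset.disjoint_left]
  intro x hx hx'
  exact (mem_nbh.1 hx').1 hx

theorem nb_sub (hx : x ∈ X) : nb G x ⊆ X ∪ nbh G X := by
  intro y hy
  rw [mem_nb] at hy
  by_cases h : y ∈ X
  · exact Finset.mem_union_left _ h
  · exact Finset.mem_union_right _ (mem_nbh.2 ⟨h, x, hx, hy⟩)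

/-- 4-connectivity: a set with at most three neighbours has all other vertices as neighbours -/
theorem Good.small (h : Good G) (hX : X.Nonempty) (h3 : (nbh G X).card ≤ 3) (w : V) : w ∈ X ∨ w ∈ nbh G X := by
  by_contra hw
  push Not at hw
  have := h.fc X hX ⟨w, hw.1, hw.2⟩
  omega

/-- 4-connectivity with a bounding set for the neighbourhood -/
theorem Good.four (h : Good G) (hX : X.Nonempty) (hN : nbh G X ⊆ S) (hw : w ∉ X) (hw' : w ∉ S) : 4 ≤ S.card :=
  (h.fc X hX ⟨w, hw, fun hh => hw' (hN hh)⟩).trans (Finset.card_le_card hN)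

theorem bd_sub (G : SimpleGraph V) (X : Finset V) : bd G X ⊆ X := fun _ hx => (mem_bd.1 hx).1

theorem nbh_sdiff_bd (G : SimpleGraph V) (M : Finset V) : nbh G (M \ bd G M) ⊆ bd G M := by
  intro y hy
  rw [mem_nbh] at hy
  obtain ⟨hy1, x, hx, hxy⟩ := hy
  rw [Finset.mem_sdiff] at hx
  have hyM : y ∈ M := by
    by_contra hyM
    exact hx.2 (mem_bd.2 ⟨hx.1, y, hyM, hxy⟩)
  by_contra hyb
  exact hy1 (Finset.mem_sdiff.2 ⟨hyM, hyb⟩)

theorem four_le_bd (h : Good G) (hM : 4 ≤ M.card) (hw : w ∉ M) : 4 ≤ (bd G M).card := by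
  classical
  by_cases he : bd G M = M
  · rw [he]
    exact hM
  · have hne : (M \ bd G M).Nonempty := by
      rw [Finset.sdiff_nonempty]
      intro hs
      exact he (Finset.Subset.antisymm (bd_sub G M) hs)
    exact h.four hne (nbh_sdiff_bd G M) (fun hh => hw (Finset.mem_sdiff.1 hh).1) (fun hh => hw (bd_sub G M hh))

theorem sum_deg_nonpos (h : Good G) (X : Finset V) : (∑ v ∈ X, (4 - (deg G v : ℤ))) ≤ 0 := by
  apply Finset.sum_nonpos
  intro v _
  have := four_le_deg h v
  rw [deg_eq]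
  omega

/-- the neighbourhood of a set is the boundary of the complement -/
theorem bd_compl (G : SimpleGraph V) (X : Finset V) : bd G Xᶜ = nbh G X := by
  ext v
  rw [mem_bd, mem_nbh]
  constructor
  · rintro ⟨h1, y, hy, hvy⟩
    exact ⟨Finset.mem_compl.1 h1, y, by simpa using hy, hvy.symm⟩
  · rintro ⟨h1, y, hy, hvy⟩
    exact ⟨Finset.mem_compl.2 h1, y, by simpa using hy, hvy.symm⟩

theorem nbh_compl (G : SimpleGraph V) (X : Finset V) : nbh G Xᶜ = bd G X := by
  have := bd_compl G Xᶜ
  rw [compl_compl] at this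
  exact this.symm

/-- the identity for the potentials of the two sides -/
theorem chi_add_compl (G : SimpleGraph V) (D : Finset V) :
    chi G D + chi G Dᶜ = ∑ v : V, (4 - (deg G v : ℤ)) := by
  unfold chi
  rw [bd_compl, nbh_compl, ← Finset.sum_add_sum_compl D]
  ring

/-- the two potentials have a nonpositive sum -/
theorem chi_compl_le (hG : FC G) (hn : 5 ≤ Fintype.card V) (D : Finset V) : chi G D + chi G Dᶜ ≤ 0 := by
  rw [chi_add_compl]
  apply Finset.sum_nonpos
  intro v _
  have := four_le_nb hG hn v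
  rw [deg_eq]
  omega

theorem chi_add_compl_nonpos (h : Good G) (D : Finset V) : chi G D + chi G Dᶜ ≤ 0 := by
  rw [chi_add_compl]
  exact sum_deg_nonpos h Finset.univ

/-- the potential of a set with a small neighbourhood -/
theorem chi_le (h : Good G) (X : Finset V) : chi G X ≤ (nbh G X).card - (bd G X).card := by
  unfold chi
  have := sum_deg_nonpos h X
  omega

/-- the potential of `X + t` -/
theorem chi_insert_le (h : Good G) (ht : t ∈ nbh G X) (h4 : (nbh G X).card ≤ 4) :
    chi G (insert t X) ≤ 7 - ((nb G t ∩ X).card : ℤ) - (bd G (insert t X)).card := by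
  classical
  have htX : t ∉ X := (mem_nbh.1 ht).1
  have h1 : nbh G (insert t X) ⊆ (nbh G X).erase t ∪ (nb G t \ X) := by
    intro y hy
    rw [mem_nbh] at hy
    obtain ⟨hy1, z, hz, hzy⟩ := hy
    rw [Finset.mem_insert, not_or] at hy1
    rw [Finset.mem_insert] at hz
    rw [Finset.mem_union, Finset.mem_erase, Finset.mem_sdiff]
    rcases hz with rfl | hz
    · right
      exact ⟨mem_nb.2 hzy, hy1.2⟩
    · left
      exact ⟨hy1.1, mem_nbh.2 ⟨hy1.2, z, hz, hzy⟩⟩
  have h2 := (Finset.card_le_card h1).trans (Finset.card_union_le _ _)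
  rw [Finset.card_erase_of_mem ht] at h2
  have h3 : (nb G t \ X).card + (nb G t ∩ X).card = (nb G t).card := Finset.card_sdiff_add_card_inter _ _
  have h5 := sum_deg_nonpos h X
  have h6 : 0 < (nbh G X).card := Finset.card_pos.2 ⟨t, ht⟩
  unfold chi
  rw [Finset.sum_insert htX, deg_eq]
  omega

/-- the elements of `D` with a neighbour in `S` and none in `T` -/
noncomputable def plab (G : SimpleGraph V) (D S T : Finset V) : Finset V := lab G D S \ lab G D T

theorem mem_plab : x ∈ plab G D S T ↔ x ∈ D ∧ (∃ s ∈ S, G.Adj s x) ∧ ∀ s ∈ T, ¬ G.Adj s x := by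
  unfold plab
  rw [Finset.mem_sdiff, mem_lab, mem_lab]
  constructor
  · rintro ⟨⟨h1, h2⟩, h3⟩
    exact ⟨h1, h2, fun s hs e => h3 ⟨h1, s, hs, e⟩⟩
  · rintro ⟨h1, h2, h3⟩
    exact ⟨⟨h1, h2⟩, fun ⟨_, s, hs, e⟩ => h3 s hs e⟩

/-- the change of the potential: `X ∪ P` against `X`, where `Z` is the rest -/
theorem chi_step (G : SimpleGraph V) {X P Z : Finset V} (hXP : Disjoint X P) (hXZ : Disjoint X Z)
    (hPZ : Disjoint P Z) (hu : X ∪ P ∪ Z = Finset.univ) :
    chi G (X ∪ P) = chi G X + (∑ v ∈ P, (4 - (deg G v : ℤ))) + (plab G Z P X).card + (plab G X P Z).card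
      - (lab G P X).card - (lab G P Z).card := by
  classical
  have hmem : ∀ z : V, z ∈ X ∨ z ∈ P ∨ z ∈ Z := by
    intro z
    have := Finset.mem_univ z
    rw [← hu, Finset.mem_union, Finset.mem_union, or_assoc] at this
    exact this
  rw [Finset.disjoint_left] at hXP hXZ hPZ
  have h1 : nbh G (X ∪ P) = lab G Z X ∪ plab G Z P X := by
    ext z
    rw [mem_nbh, Finset.mem_union (s := lab G Z X), mem_lab, mem_plab, Finset.mem_union, not_or]
    constructor
    · rintro ⟨⟨hz1, hz2⟩, x, hx, hxz⟩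
      have hzZ : z ∈ Z := by rcases hmem z with h | h | h <;> tauto
      rw [Finset.mem_union] at hx
      by_cases hex : ∃ s ∈ X, G.Adj s z
      · exact Or.inl ⟨hzZ, hex⟩
      · right
        push Not at hex
        rcases hx with hx | hx
        · exact absurd hxz (hex x hx)
        · exact ⟨hzZ, ⟨x, hx, hxz⟩, hex⟩
    · rintro (⟨h1, x, hx, hxz⟩ | ⟨h1, ⟨x, hx, hxz⟩, h2⟩)
      · exact ⟨⟨fun h => hXZ h h1, fun h => hPZ h h1⟩, x, Finset.mem_union_left _ hx, hxz⟩
      · exact ⟨⟨fun h => hXZ h h1, fun h => hPZ h h1⟩, x, Finset.mem_union_right _ hx, hxz⟩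
  have h2 : nbh G X = lab G Z X ∪ lab G P X := by
    ext z
    rw [mem_nbh, Finset.mem_union, mem_lab, mem_lab]
    constructor
    · rintro ⟨hz1, hz2⟩
      rcases hmem z with h | h | h
      · exact absurd h hz1
      · exact Or.inr ⟨h, hz2⟩
      · exact Or.inl ⟨h, hz2⟩
    · rintro (⟨h1, h2⟩ | ⟨h1, h2⟩)
      · exact ⟨fun h => hXZ h h1, h2⟩
      · exact ⟨fun h => hXP h h1, h2⟩
  have h3 : bd G (X ∪ P) = lab G X Z ∪ lab G P Z := by
    ext z
    rw [mem_bd, Finset.mem_union (s := lab G X Z), mem_lab, mem_lab, Finset.mem_union]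
    constructor
    · rintro ⟨hz1, y, hy, hzy⟩
      rw [Finset.mem_union, not_or] at hy
      have hyZ : y ∈ Z := by rcases hmem y with h | h | h <;> tauto
      rcases hz1 with h | h
      · exact Or.inl ⟨h, y, hyZ, hzy.symm⟩
      · exact Or.inr ⟨h, y, hyZ, hzy.symm⟩
    · have key : ∀ y ∈ Z, y ∉ X ∪ P := by
        intro y hy
        rw [Finset.mem_union, not_or]
        exact ⟨fun h => hXZ h hy, fun h => hPZ h hy⟩
      rintro (⟨h1, y, hy, hyz⟩ | ⟨h1, y, hy, hyz⟩)
      · exact ⟨Or.inl h1, y, key y hy, hyz.symm⟩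
      · exact ⟨Or.inr h1, y, key y hy, hyz.symm⟩
  have h4 : bd G X = lab G X Z ∪ plab G X P Z := by
    ext z
    rw [mem_bd, Finset.mem_union, mem_lab, mem_plab]
    constructor
    · rintro ⟨hz1, y, hy, hzy⟩
      by_cases hex : ∃ s ∈ Z, G.Adj s z
      · exact Or.inl ⟨hz1, hex⟩
      · right
        push Not at hex
        rcases hmem y with h | h | h
        · exact absurd h hy
        · exact ⟨hz1, ⟨y, h, hzy.symm⟩, hex⟩
        · exact absurd hzy.symm (hex y h)
    · rintro (⟨h1, y, hy, hyz⟩ | ⟨h1, ⟨y, hy, hyz⟩, h2⟩)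
      · exact ⟨h1, y, fun h => hXZ h hy, hyz.symm⟩
      · exact ⟨h1, y, fun h => hXP h hy, hyz.symm⟩
  have d1 : Disjoint (lab G Z X) (plab G Z P X) := Finset.disjoint_sdiff
  have d2 : Disjoint (lab G Z X) (lab G P X) := by
    rw [Finset.disjoint_left]
    intro z hz hz'
    exact hPZ (mem_lab.1 hz').1 (mem_lab.1 hz).1
  have d3 : Disjoint (lab G X Z) (lab G P Z) := by
    rw [Finset.disjoint_left]
    intro z hz hz'
    exact hXP (mem_lab.1 hz).1 (mem_lab.1 hz').1
  have d4 : Disjoint (lab G X Z) (plab G X P Z) := Finset.disjoint_sdiff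
  have hd : Disjoint X P := Finset.disjoint_left.2 hXP
  unfold chi
  rw [h1, h2, h3, h4, Finset.card_union_of_disjoint d1, Finset.card_union_of_disjoint d2,
    Finset.card_union_of_disjoint d3, Finset.card_union_of_disjoint d4, Finset.sum_union hd]
  push_cast
  ring

end Pool.Agent.TOKSN
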