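import Mathlib
import Pool.Agent.TOKSN.Hubs

/-!
# LINE N: path sets as enumerated paths
-/

set_option autoImplicit false
set_option linter.unusedSectionVars false

namespace Pool.Agent.TOKSN

open Pool.Agent.TOKST (HasTOKS)
open Pool.Agent.TOKSP (nbh mem_nbh four_le_nbh)

variable {V : Type} [DecidableEq V] {G : SimpleGraph V} {S T T₁ T₂ U A B D : Finset V} {a b c d x y : V} {k l : Bool}

/-- the vertices `f i, ..., f j` -/
def seg (f : ℕ → V) (i j : ℕ) : Finset V := (Finset.Icc i j).image f

theorem mem_seg {f : ℕ → V} {i j : ℕ} : x ∈ seg f i j ↔ ∃ t, i ≤ t ∧ t ≤ j ∧ f t = x := by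
  unfold seg
  simp [and_assoc]

theorem seg_self (f : ℕ → V) (i : ℕ) : seg f i i = {f i} := by
  unfold seg
  simp

theorem seg_sub {f : ℕ → V} {i j i' j' : ℕ} (h1 : i' ≤ i) (h2 : j ≤ j') : seg f i j ⊆ seg f i' j' := by
  intro x hx
  rw [mem_seg] at hx ⊢
  obtain ⟨t, ht1, ht2, rfl⟩ := hx
  exact ⟨t, by omega, by omega, rfl⟩

/-- consecutive vertices of an injective sequence form a path -/
theorem PX.of_seg {f : ℕ → V} {i : ℕ} : ∀ n : ℕ, (∀ t, i ≤ t → t < i + n → G.Adj (f t) (f (t + 1))) →
    (∀ s t, i ≤ s → s ≤ i + n → i ≤ t → t ≤ i + n → f s = f t → s = t) →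
    PX G (seg f i (i + n)) (f i) (f (i + n)) (decide (n % 2 = 1)) := by
  intro n
  induction n with
  | zero =>
    intro _ _
    simpa [seg_self] using PX.refl G (f i)
  | succ n ih =>
    intro hadj hinj
    have h1 := ih (fun t h1 h2 => hadj t h1 (by omega)) (fun s t a1 a2 a3 a4 e => hinj s t a1 (by omega) a3 (by omega) e)
    have e := hadj (i + n) (by omega) (by omega)
    have hn : f (i + n + 1) ∉ seg f i (i + n) := by
      rw [mem_seg]
      rintro ⟨t, h2, h3, h4⟩
      have := hinj t (i + n + 1) h2 (by omega) (by omega) (by omega) h4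
      omega
    have h2 := (PX.cons e.symm h1.symm hn).symm
    have h3 : insert (f (i + n + 1)) (seg f i (i + n)) = seg f i (i + (n + 1)) := by
      ext x
      rw [Finset.mem_insert, mem_seg, mem_seg]
      constructor
      · rintro (rfl | ⟨t, h5, h6, rfl⟩)
        · exact ⟨i + n + 1, by omega, by omega, rfl⟩
        · exact ⟨t, h5, by omega, rfl⟩
      · rintro ⟨t, h5, h6, rfl⟩
        by_cases h7 : t = i + n + 1
        · exact Or.inl (by rw [h7])
        · exact Or.inr ⟨t, h5, by omega, rfl⟩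
    have h4 : (!(decide (n % 2 = 1))) = decide ((n + 1) % 2 = 1) := by
      rcases Nat.mod_two_eq_zero_or_one n with h | h
      · have : (n + 1) % 2 = 1 := by omega
        simp [h, this]
      · have : (n + 1) % 2 = 0 := by omega
        simp [h, this]
    rw [h3, h4] at h2
    exact h2

theorem PX.of_seg' {f : ℕ → V} {i j : ℕ} (hij : i ≤ j) (hadj : ∀ t, i ≤ t → t < j → G.Adj (f t) (f (t + 1)))
    (hinj : ∀ s t, i ≤ s → s ≤ j → i ≤ t → t ≤ j → f s = f t → s = t) :
    PX G (seg f i j) (f i) (f j) (decide ((j - i) % 2 = 1)) := by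
  obtain ⟨n, rfl⟩ := Nat.exists_eq_add_of_le hij
  have := PX.of_seg (G := G) (f := f) (i := i) n hadj hinj
  simpa using this

/-- a path set is an enumerated path -/
theorem PX.enum (h : PX G T a b k) : ∃ (n : ℕ) (f : ℕ → V), f 0 = a ∧ f n = b ∧
    (∀ i j, i ≤ n → j ≤ n → f i = f j → i = j) ∧ (∀ i, i < n → G.Adj (f i) (f (i + 1))) ∧
    T = seg f 0 n := by
  refine PX.ind (P := fun T a b _ => ∃ (n : ℕ) (f : ℕ → V), f 0 = a ∧ f n = b ∧
    (∀ i j, i ≤ n → j ≤ n → f i = f j → i = j) ∧ (∀ i, i < n → G.Adj (f i) (f (i + 1))) ∧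
    T = seg f 0 n) ?_ ?_ h
  · intro a
    exact ⟨0, fun _ => a, rfl, rfl, fun i j hi hj _ => by omega, fun i hi => absurd hi (by omega),
      by rw [seg_self]⟩
  · intro T a b c k e _ haT ⟨n, f, h0, hn, hinj, hadj, hT⟩
    refine ⟨n + 1, fun i => if i = 0 then a else f (i - 1), by simp, by simpa using hn, ?_, ?_, ?_⟩
    · intro i j hi hj hij
      rcases i with _ | i <;> rcases j with _ | j
      · rfl
      · simp only [if_true, Nat.succ_ne_zero, if_false, Nat.add_sub_cancel] at hij
        exact absurd (hT ▸ mem_seg.2 ⟨j, by omega, by omega, hij.symm⟩) haT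
      · simp only [if_true, Nat.succ_ne_zero, if_false, Nat.add_sub_cancel] at hij
        exact absurd (hT ▸ mem_seg.2 ⟨i, by omega, by omega, hij⟩) haT
      · simp only [Nat.succ_ne_zero, if_false, Nat.add_sub_cancel] at hij
        rw [hinj i j (by omega) (by omega) hij]
    · intro i hi
      rcases i with _ | i
      · simpa [h0] using e
      · simpa using hadj i (by omega)
    · ext x
      rw [Finset.mem_insert, hT, mem_seg, mem_seg]
      constructor
      · rintro (rfl | ⟨t, h5, h6, rfl⟩)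
        · exact ⟨0, by omega, by omega, by simp⟩
        · exact ⟨t + 1, by omega, by omega, by simp⟩
      · rintro ⟨t, h5, h6, rfl⟩
        rcases t with _ | t
        · exact Or.inl (by simp)
        · exact Or.inr ⟨t, by omega, by omega, by simp⟩

end Pool.Agent.TOKSN
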