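import Mathlib
import Pool.Agent.TOKSN.Enum

/-!
# LINE N: the types of a cover: ear and triangle
-/

set_option autoImplicit false
set_option linter.unusedSectionVars false

namespace Pool.Agent.TOKSN

open Pool.Agent.TOKST (HasTOKS)
open Pool.Agent.TOKSP (nbh mem_nbh four_le_nbh)

variable {V : Type} [DecidableEq V] {G : SimpleGraph V} {S T T₁ T₂ U A B D P : Finset V} {a b c d x y p q : V}
  {k l : Bool}

/-- `P = {f 1, ..., f h}` is an induced path, `f 1 ~ a`, `f h ~ a'`, and there are no other edges between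
`P` and `A` -/
structure Ear (G : SimpleGraph V) (A P : Finset V) (h : ℕ) (f : ℕ → V) (a a' : V) : Prop where
  two : 2 ≤ h
  disj : Disjoint A P
  inj : ∀ i j, 1 ≤ i → i ≤ h → 1 ≤ j → j ≤ h → f i = f j → i = j
  img : ∀ x, x ∈ P ↔ ∃ i, 1 ≤ i ∧ i ≤ h ∧ f i = x
  adj : ∀ i j, 1 ≤ i → i ≤ h → 1 ≤ j → j ≤ h → (G.Adj (f i) (f j) ↔ (i + 1 = j ∨ j + 1 = i))
  a_mem : a ∈ A
  a'_mem : a' ∈ A
  ne : a ≠ a'
  adjA : ∀ i x, 1 ≤ i → i ≤ h → x ∈ A → (G.Adj (f i) x ↔ ((i = 1 ∧ x = a) ∨ (i = h ∧ x = a')))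

/-- a triangle `v₁ v₂ v₃` with private edges to `a i ∈ A` and `s i ∈ B`, and no further edges to `A`, `B` -/
structure Tri (G : SimpleGraph V) (A P B : Finset V) (v a s : Fin 3 → V) : Prop where
  v_inj : Function.Injective v
  a_inj : Function.Injective a
  s_inj : Function.Injective s
  img : ∀ x, x ∈ P ↔ ∃ i, v i = x
  adj : ∀ i j, i ≠ j → G.Adj (v i) (v j)
  a_mem : ∀ i, a i ∈ A
  s_mem : ∀ i, s i ∈ B
  adjA : ∀ i x, x ∈ A → (G.Adj (v i) x ↔ x = a i)
  adjB : ∀ i x, x ∈ B → (G.Adj (v i) x ↔ x = s i)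

/-- every `p`-`q`-path with interior in `P` runs through all of `P` -/
structure AllP (G : SimpleGraph V) (A P : Finset V) (p q : V) : Prop where
  disj : Disjoint A P
  conn : Conn G P
  p_mem : p ∈ A
  q_mem : q ∈ A
  ne : p ≠ q
  lab : ∀ x ∈ A, (∃ y ∈ P, G.Adj x y) → x = p ∨ x = q
  ep : ∃ y ∈ P, G.Adj p y
  eq : ∃ y ∈ P, G.Adj q y
  all : ∀ T k, PX G T p q k → T ⊆ insert p (insert q P) → (∃ x ∈ T, x ∈ P) → P ⊆ T

theorem seg_union {f : ℕ → V} {i j m : ℕ} (h1 : i ≤ j + 1) (h2 : j ≤ m) : seg f i j ∪ seg f (j + 1) m = seg f i m := by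
  ext x
  rw [Finset.mem_union, mem_seg, mem_seg, mem_seg]
  constructor
  · rintro (⟨t, h3, h4, rfl⟩ | ⟨t, h3, h4, rfl⟩)
    · exact ⟨t, h3, by omega, rfl⟩
    · exact ⟨t, by omega, h4, rfl⟩
  · rintro ⟨t, h3, h4, rfl⟩
    by_cases h5 : t ≤ j
    · exact Or.inl ⟨t, h3, h5, rfl⟩
    · exact Or.inr ⟨t, by omega, h4, rfl⟩

/-- a chord shortcut -/
theorem PX.shortcut {f : ℕ → V} {n i j : ℕ} (hij : i < j) (hjn : j ≤ n)
    (hinj : ∀ s t, s ≤ n → t ≤ n → f s = f t → s = t) (hadj : ∀ t, t < n → G.Adj (f t) (f (t + 1)))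
    (e : G.Adj (f i) (f j)) : ∃ k, PX G (seg f 0 i ∪ seg f j n) (f 0) (f n) k := by
  have h1 := PX.of_seg' (G := G) (f := f) (i := 0) (j := i) (by omega) (fun t _ h => hadj t (by omega))
    (fun s t _ h1 _ h2 e => hinj s t (by omega) (by omega) e)
  have h2 := PX.of_seg' (G := G) (f := f) (i := j) (j := n) hjn (fun t _ h => hadj t (by omega))
    (fun s t _ h1 _ h2 e => hinj s t (by omega) (by omega) e)
  refine ⟨_, PX.concat_disj h1 e h2 ?_⟩
  rw [Finset.disjoint_left]
  intro x hx hx'
  rw [mem_seg] at hx hx'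
  obtain ⟨s, -, h3, rfl⟩ := hx
  obtain ⟨t, h4, h5, h6⟩ := hx'
  have := hinj t s (by omega) (by omega) h6
  omega

/-- the conversion -/
theorem AllP.ear (h : AllP G A P p q) : (∃ u, P = {u}) ∨ ∃ (m : ℕ) (f : ℕ → V) (a a' : V), Ear G A P m f a a' := by
  have hpP : p ∉ P := fun hp => (Finset.disjoint_left.1 h.disj) h.p_mem hp
  have hqP : q ∉ P := fun hp => (Finset.disjoint_left.1 h.disj) h.q_mem hp
  obtain ⟨T, k, hT, hTs, hTP⟩ := exists_ear h.conn hpP hqP h.ne h.ep h.eq
  have hPT := h.all T k hT hTs hTP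
  obtain ⟨n, f, h0, hn, hinj, hadj, rfl⟩ := hT.enum
  have hn0 : n ≠ 0 := by
    rintro rfl
    exact h.ne (h0.symm.trans hn)
  -- membership of the vertices
  have hmem : ∀ i, 1 ≤ i → i < n → f i ∈ P := by
    intro i h1 h2
    have h3 := hTs (mem_seg.2 ⟨i, by omega, by omega, rfl⟩)
    rcases Finset.mem_insert.1 h3 with h4 | h4
    · have := hinj i 0 (by omega) (by omega) (by rw [h4, h0])
      omega
    · rcases Finset.mem_insert.1 h4 with h5 | h5
      · have := hinj i n (by omega) (by omega) (by rw [h5, hn])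
        omega
      · exact h5
  have hP : ∀ x, x ∈ P ↔ ∃ i, 1 ≤ i ∧ i < n ∧ f i = x := by
    intro x
    constructor
    · intro hx
      have h1 := hPT hx
      rw [mem_seg] at h1
      obtain ⟨t, h1, h2, h3⟩ := h1
      refine ⟨t, ?_, ?_, h3⟩
      · rcases Nat.eq_zero_or_pos t with h4 | h4
        · subst h4
          rw [h0] at h3
          subst h3
          exact absurd hx hpP
        · omega
      · by_contra h4
        have h5 : t = n := by omega
        subst h5
        rw [hn] at h3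
        subst h3
        exact absurd hx hqP
    · rintro ⟨i, h1, h2, rfl⟩
      exact hmem i h1 h2
  have hn2 : 2 ≤ n := by
    obtain ⟨x, hx1, hx2⟩ := hTP
    obtain ⟨i, h1, h2, -⟩ := (hP x).1 hx2
    omega
  -- no chords
  have hch : ∀ i j, i < j → j ≤ n → G.Adj (f i) (f j) → j = i + 1 ∨ (i = 0 ∧ j = n) := by
    intro i j h1 h2 e
    by_contra hcon
    obtain ⟨k', hk'⟩ := PX.shortcut h1 h2 (fun s t hs ht => hinj s t hs ht) hadj e
    rw [h0, hn] at hk'
    have h3 : seg f 0 i ∪ seg f j n ⊆ insert p (insert q P) := by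
      refine Finset.union_subset ?_ ?_
      · exact fun x hx => hTs (seg_sub (le_refl _) (by omega) hx)
      · exact fun x hx => hTs (seg_sub (by omega) (le_refl _) hx)
    have h4 : ∃ x ∈ seg f 0 i ∪ seg f j n, x ∈ P := by
      rcases Nat.eq_zero_or_pos i with h5 | h5
      · refine ⟨f j, Finset.mem_union_right _ (mem_seg.2 ⟨j, le_refl _, h2, rfl⟩), hmem j (by omega) ?_⟩
        by_contra h6
        exact hcon (Or.inr ⟨h5, by omega⟩)
      · exact ⟨f i, Finset.mem_union_left _ (mem_seg.2 ⟨i, by omega, le_refl _, rfl⟩), hmem i (by omega) (by omega)⟩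
    have h5 := h.all _ _ hk' h3 h4 (hmem (i + 1) (by omega) (by omega))
    rcases Finset.mem_union.1 h5 with h6 | h6
    · rw [mem_seg] at h6
      obtain ⟨t, h7, h8, h9⟩ := h6
      have := hinj t (i + 1) (by omega) (by omega) h9
      omega
    · rw [mem_seg] at h6
      obtain ⟨t, h7, h8, h9⟩ := h6
      have := hinj t (i + 1) (by omega) (by omega) h9
      omega
  by_cases hn3 : n = 2
  · left
    refine ⟨f 1, ?_⟩
    ext x
    rw [hP, Finset.mem_singleton]
    constructor
    · rintro ⟨i, h1, h2, rfl⟩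
      rw [show i = 1 by omega]
    · rintro rfl
      exact ⟨1, by omega, by omega, rfl⟩
  · right
    refine ⟨n - 1, f, p, q, by omega, h.disj, ?_, ?_, ?_, h.p_mem, h.q_mem, h.ne, ?_⟩
    · intro i j _ h1 _ h2 e
      exact hinj i j (by omega) (by omega) e
    · intro x
      rw [hP]
      constructor
      · rintro ⟨i, h1, h2, rfl⟩
        exact ⟨i, h1, by omega, rfl⟩
      · rintro ⟨i, h1, h2, rfl⟩
        exact ⟨i, h1, by omega, rfl⟩
    · intro i j h1 h2 h3 h4
      constructor
      · intro e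
        rcases Nat.lt_trichotomy i j with h5 | h5 | h5
        · rcases hch i j h5 (by omega) e with h6 | ⟨h6, -⟩
          · exact Or.inl (by omega)
          · omega
        · exact absurd e (by rw [h5]; exact G.loopless.irrefl _)
        · rcases hch j i h5 (by omega) e.symm with h6 | ⟨h6, -⟩
          · exact Or.inr (by omega)
          · omega
      · rintro (h5 | h5)
        · subst h5
          exact hadj i (by omega)
        · subst h5
          exact (hadj j (by omega)).symm
    · intro i x h1 h2 hx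
      constructor
      · intro e
        rcases h.lab x hx ⟨f i, hmem i h1 (by omega), e.symm⟩ with rfl | rfl
        · left
          refine ⟨?_, rfl⟩
          rw [← h0] at e
          rcases hch 0 i (by omega) (by omega) e.symm with h6 | ⟨-, h6⟩
          · omega
          · omega
        · right
          refine ⟨?_, rfl⟩
          rw [← hn] at e
          rcases hch i n (by omega) (by omega) e with h6 | ⟨h6, -⟩
          · omega
          · omega
      · rintro (⟨rfl, rfl⟩ | ⟨rfl, rfl⟩)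
        · have := hadj 0 (by omega)
          rw [h0] at this
          exact this.symm
        · have := hadj (n - 1) (by omega)
          rw [show n - 1 + 1 = n by omega, hn] at this
          exact this

end Pool.Agent.TOKSN
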