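import Mathlib
import Pool.Agent.TOKSN.Lab

/-!
# LINE N: the change of the potential when a piece `P` is added to `D1`
-/

set_option autoImplicit false
set_option linter.unusedSectionVars false

namespace Pool.Agent.TOKSN

open Pool.Agent.TOKSP (nbh mem_nbh four_le_nbh)

variable {V : Type} [DecidableEq V] [Fintype V] {G : SimpleGraph V} {P D D1 D3 : Finset V}

theorem mem_bd' {X : Finset V} {x : V} : x ∈ bd G X ↔ x ∈ X ∧ ∃ y, y ∉ X ∧ G.Adj x y := by
  classical
  unfold bd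
  simp

/-- `chi (D1 ∪ P) - chi D1` in terms of labels; `D3` is the complement of `D1 ∪ P` -/
theorem chi_step_lab (hP : Disjoint P D1) (h3 : D3 = (D1 ∪ P)ᶜ) :
    chi G (D1 ∪ P) - chi G D1 = (∑ v ∈ P, (4 - (deg G v : ℤ))) + (lab G D3 P \ lab G D3 D1).card
      + (lab G D1 P \ lab G D1 D3).card - (lab G P D1).card - (lab G P D3).card := by
  classical
  have m3 : ∀ x, x ∈ D3 ↔ x ∉ D1 ∧ x ∉ P := by
    intro x
    rw [h3, Finset.mem_compl, Finset.mem_union, not_or]
  have hP' : ∀ x, x ∈ P → x ∉ D1 := fun x hx => Finset.disjoint_left.1 hP hx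
  -- neighbours
  have n1 : nbh G (D1 ∪ P) = lab G D3 D1 ∪ (lab G D3 P \ lab G D3 D1) := by
    ext x
    simp only [mem_nbh, Finset.mem_union, Finset.mem_sdiff, mem_lab, m3]
    constructor
    · rintro ⟨h1, y, hy, e⟩
      rw [not_or] at h1
      by_cases h2 : ∃ s ∈ D1, G.Adj s x
      · exact Or.inl ⟨h1, h2⟩
      · rcases hy with hy | hy
        · exact absurd ⟨y, hy, e⟩ h2
        · exact Or.inr ⟨⟨h1, y, hy, e⟩, fun h => h2 h.2⟩
    · rintro (⟨h1, s, hs, e⟩ | ⟨⟨h1, s, hs, e⟩, -⟩)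
      · exact ⟨fun h => h.elim h1.1 h1.2, s, Or.inl hs, e⟩
      · exact ⟨fun h => h.elim h1.1 h1.2, s, Or.inr hs, e⟩
  have n2 : nbh G D1 = lab G D3 D1 ∪ lab G P D1 := by
    ext x
    simp only [mem_nbh, Finset.mem_union, mem_lab, m3]
    constructor
    · rintro ⟨h1, y, hy, e⟩
      by_cases h2 : x ∈ P
      · exact Or.inr ⟨h2, y, hy, e⟩
      · exact Or.inl ⟨⟨h1, h2⟩, y, hy, e⟩
    · rintro (⟨h1, s, hs, e⟩ | ⟨h1, s, hs, e⟩)
      · exact ⟨h1.1, s, hs, e⟩
      · exact ⟨hP' x h1, s, hs, e⟩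
  have b1 : bd G (D1 ∪ P) = lab G D1 D3 ∪ lab G P D3 := by
    ext x
    simp only [mem_bd', Finset.mem_union, mem_lab, m3]
    constructor
    · rintro ⟨hx | hx, y, hy, e⟩
      · exact Or.inl ⟨hx, y, not_or.1 hy, e.symm⟩
      · exact Or.inr ⟨hx, y, not_or.1 hy, e.symm⟩
    · rintro (⟨h1, s, hs, e⟩ | ⟨h1, s, hs, e⟩)
      · exact ⟨Or.inl h1, s, not_or.2 hs, e.symm⟩
      · exact ⟨Or.inr h1, s, not_or.2 hs, e.symm⟩
  have b2 : bd G D1 = lab G D1 D3 ∪ (lab G D1 P \ lab G D1 D3) := by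
    ext x
    simp only [mem_bd', Finset.mem_union, Finset.mem_sdiff, mem_lab, m3]
    constructor
    · rintro ⟨hx, y, hy, e⟩
      by_cases h2 : ∃ s, (s ∉ D1 ∧ s ∉ P) ∧ G.Adj s x
      · exact Or.inl ⟨hx, h2⟩
      · right
        refine ⟨⟨hx, y, ?_, e.symm⟩, fun h => h2 h.2⟩
        by_contra h3
        exact h2 ⟨y, ⟨hy, h3⟩, e.symm⟩
    · rintro (⟨h1, s, hs, e⟩ | ⟨⟨h1, s, hs, e⟩, -⟩)
      · exact ⟨h1, s, hs.1, e.symm⟩
      · exact ⟨h1, s, hP' s hs, e.symm⟩
  have c1 : (nbh G (D1 ∪ P)).card = (lab G D3 D1).card + (lab G D3 P \ lab G D3 D1).card := by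
    rw [n1, Finset.card_union_of_disjoint Finset.disjoint_sdiff]
  have c2 : (nbh G D1).card = (lab G D3 D1).card + (lab G P D1).card := by
    rw [n2, Finset.card_union_of_disjoint]
    exact Finset.disjoint_left.2 fun x hx hx' => ((m3 x).1 (lab_sub hx)).2 (lab_sub hx')
  have c3 : (bd G (D1 ∪ P)).card = (lab G D1 D3).card + (lab G P D3).card := by
    rw [b1, Finset.card_union_of_disjoint]
    exact Finset.disjoint_left.2 fun x hx hx' => hP' x (lab_sub hx') (lab_sub hx)
  have c4 : (bd G D1).card = (lab G D1 D3).card + (lab G D1 P \ lab G D1 D3).card := by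
    rw [b2, Finset.card_union_of_disjoint Finset.disjoint_sdiff]
  unfold chi
  rw [Finset.sum_union hP.symm, c1, c2, c3, c4]
  push_cast
  ring

/-- the degree in terms of three disjoint sets covering `V` -/
theorem deg_eq_lab (v : V) {A B C : Finset V} (hAB : Disjoint A B) (hAC : Disjoint A C) (hBC : Disjoint B C)
    (hu : ∀ x, x ∈ A ∨ x ∈ B ∨ x ∈ C) :
    deg G v = (lab G A {v}).card + (lab G B {v}).card + (lab G C {v}).card := by
  classical
  have h1 : Finset.univ.filter (fun w => G.Adj v w) = lab G A {v} ∪ lab G B {v} ∪ lab G C {v} := by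
    ext x
    simp only [Finset.mem_filter, Finset.mem_univ, true_and, Finset.mem_union, mem_lab,
      Finset.mem_singleton, exists_eq_left]
    have := hu x
    tauto
  unfold deg
  rw [show (Finset.univ.filter (fun w => G.Adj v w)) = _ from h1, Finset.card_union_of_disjoint,
    Finset.card_union_of_disjoint]
  · exact Finset.disjoint_left.2 fun x hx hx' => Finset.disjoint_left.1 hAB (lab_sub hx) (lab_sub hx')
  · refine Finset.disjoint_left.2 fun x hx hx' => ?_
    rcases Finset.mem_union.1 hx with hx | hx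
    · exact Finset.disjoint_left.1 hAC (lab_sub hx) (lab_sub hx')
    · exact Finset.disjoint_left.1 hBC (lab_sub hx) (lab_sub hx')

end Pool.Agent.TOKSN
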