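import Mathlib
import Pool.Agent.TOKSN.Lab

/-!
# LINE N, cover structure, section 2

`P` connected, no disjoint `X`-set and `Y`-set, every nonempty `Z ⊆ P` has at least four neighbours in
`P ∪ D1 ∪ D3`.  Then `P` is one vertex, or `P` has only two `D1`-labels or only two `D3`-labels, or `P` is a triangle
with one private label of each kind at every vertex.
-/

set_option autoImplicit false
set_option linter.unusedSectionVars false

namespace Pool.Agent.TOKSN

variable {V : Type} [DecidableEq V] {G : SimpleGraph V} {P S T A B D D1 D3 X Y K : Finset V} {a b c d x y z v w : V}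

/-- the hypotheses of section 2 -/
structure Cvr (G : SimpleGraph V) (P D1 D3 : Finset V) : Prop where
  conn : Conn G P
  star : ∀ X Y, X ⊆ P → Y ⊆ P → Conn G X → Conn G Y → 2 ≤ (lab G D1 X).card → 2 ≤ (lab G D3 Y).card →
    ¬ Disjoint X Y
  four : ∀ Z, Z ⊆ P → Z.Nonempty →
    4 ≤ (lab G (P \ Z) Z).card + (lab G D1 Z).card + (lab G D3 Z).card

theorem Cvr.swap (h : Cvr G P D1 D3) : Cvr G P D3 D1 := by
  refine ⟨h.conn, ?_, ?_⟩
  · intro X Y hX hY cX cY h1 h2 hd
    exact h.star Y X hY hX cY cX h2 h1 hd.symm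
  · intro Z hZ hne
    have := h.four Z hZ hne
    omega

/-- (2.1) -/
theorem Cvr.two_X (h : Cvr G P D1 D3) (hX : X ⊆ P) (hY : Y ⊆ P) (cX : Conn G X) (cY : Conn G Y)
    (h1 : 2 ≤ (lab G D1 X).card) (h2 : 2 ≤ (lab G D1 Y).card) (hd : Disjoint X Y) :
    (lab G D3 P).card ≤ 2 := by
  obtain ⟨A, B, hXA, hYB, cA, cB, hAB, hu⟩ := h.conn.fill cX cY hX hY hd
  have hA : A ⊆ P := by rw [← hu]; exact Finset.subset_union_left
  have hB : B ⊆ P := by rw [← hu]; exact Finset.subset_union_right
  have h3 : (lab G D3 B).card ≤ 1 := by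
    by_contra h'
    exact h.star A B hA hB cA cB (h1.trans (Finset.card_le_card (lab_mono hXA))) (by omega) hAB
  have h4 : (lab G D3 A).card ≤ 1 := by
    by_contra h'
    exact h.star B A hB hA cB cA (h2.trans (Finset.card_le_card (lab_mono hYB))) (by omega) hAB.symm
  rw [← hu, lab_union]
  have := Finset.card_union_le (lab G D3 A) (lab G D3 B)
  omega

/-- big sets -/
def Big (G : SimpleGraph V) (D1 D3 S : Finset V) : Prop := 2 ≤ (lab G D1 S).card ∨ 2 ≤ (lab G D3 S).card

theorem Big.mono (h : Big G D1 D3 S) (hS : S ⊆ T) : Big G D1 D3 T := by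
  rcases h with h | h
  · exact Or.inl (h.trans (Finset.card_le_card (lab_mono hS)))
  · exact Or.inr (h.trans (Finset.card_le_card (lab_mono hS)))

/-- the hypotheses of (2.2) -/
structure Cvr2 (G : SimpleGraph V) (P D1 D3 : Finset V) : Prop extends Cvr G P D1 D3 where
  meet : ∀ X Y, X ⊆ P → Y ⊆ P → Conn G X → Conn G Y → Big G D1 D3 X → Big G D1 D3 Y → ¬ Disjoint X Y
  three1 : 3 ≤ (lab G D1 P).card
  three3 : 3 ≤ (lab G D3 P).card
  cardP : 2 ≤ P.card

/-- a component of `P - v` is big -/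
theorem Cvr.cmp_big (h : Cvr G P D1 D3) (hx : x ∈ P.erase v) : Big G D1 D3 (cmp G (P.erase v) x) := by
  have h4 := h.four (cmp G (P.erase v) x) (cmp_sub.trans (Finset.erase_subset _ _)) ⟨x, mem_cmp_self hx⟩
  have h1 : lab G (P \ cmp G (P.erase v) x) (cmp G (P.erase v) x) ⊆ {v} := by
    intro w hw
    obtain ⟨h1, s, hs, e⟩ := mem_lab.1 hw
    obtain ⟨h2, h3⟩ := Finset.mem_sdiff.1 h1
    rw [Finset.mem_singleton]
    by_contra hne
    exact h3 (cmp_closed hs (Finset.mem_erase.2 ⟨hne, h2⟩) e)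
  have h2 := Finset.card_le_card h1
  rw [Finset.card_singleton] at h2
  by_contra h'
  unfold Big at h'
  omega

theorem Cvr2.conn_erase (h : Cvr2 G P D1 D3) (v : V) : Conn G (P.erase v) := by
  have hne : (P.erase v).Nonempty := by
    have := Finset.pred_card_le_card_erase (s := P) (a := v)
    have h2 := h.cardP
    exact Finset.card_pos.1 (by omega)
  refine ⟨hne, ?_⟩
  intro x hx y hy
  by_contra hxy
  have h1 : y ∉ cmp G (P.erase v) x := fun h' => hxy (mem_cmp.1 h').2
  exact h.meet _ _ (cmp_sub.trans (Finset.erase_subset _ _)) (cmp_sub.trans (Finset.erase_subset _ _))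
    (cmp_conn hx) (cmp_conn hy) (h.cmp_big hx) (h.cmp_big hy) (cmp_disj h1)

theorem Cvr2.big_erase (h : Cvr2 G P D1 D3) (v : V) : Big G D1 D3 (P.erase v) := by
  obtain ⟨x, hx⟩ := (h.conn_erase v).1
  exact (h.cmp_big hx).mono cmp_sub

theorem Cvr2.small_single (h : Cvr2 G P D1 D3) (hv : v ∈ P) : ¬ Big G D1 D3 {v} := by
  intro hb
  refine h.meet {v} (P.erase v) (by simpa using hv) (Finset.erase_subset _ _) (Conn.singleton G v)
    (h.conn_erase v) hb (h.big_erase v) ?_
  rw [Finset.disjoint_singleton_left]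
  simp

/-- a partition into three connected, pairwise adjacent sets with one label of each kind -/
structure TP (G : SimpleGraph V) (P D1 D3 : Finset V) (Q : Fin 3 → Finset V) (a s : Fin 3 → V) : Prop where
  conn : ∀ i, Conn G (Q i)
  disj : ∀ i j, i ≠ j → Disjoint (Q i) (Q j)
  un : ∀ x, x ∈ P ↔ ∃ i, x ∈ Q i
  adj : ∀ i j, i ≠ j → ∃ x ∈ Q i, ∃ y ∈ Q j, G.Adj x y
  la : ∀ i, lab G D1 (Q i) = {a i}
  ls : ∀ i, lab G D3 (Q i) = {s i}
  ia : Function.Injective a
  is : Function.Injective s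

/-- three small sets with at least three labels together have one label each, all different -/
theorem three_labels {L1 L2 L3 : Finset V} (h1 : L1.card ≤ 1) (h2 : L2.card ≤ 1) (h3 : L3.card ≤ 1)
    (h : 3 ≤ (L1 ∪ L2 ∪ L3).card) : ∃ x y z, L1 = {x} ∧ L2 = {y} ∧ L3 = {z} ∧ x ≠ y ∧ x ≠ z ∧ y ≠ z := by
  have h4 := Finset.card_union_le (L1 ∪ L2) L3
  have h5 := Finset.card_union_le L1 L2
  obtain ⟨x, rfl⟩ := Finset.card_eq_one.1 (show L1.card = 1 by omega)
  obtain ⟨y, rfl⟩ := Finset.card_eq_one.1 (show L2.card = 1 by omega)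
  obtain ⟨z, rfl⟩ := Finset.card_eq_one.1 (show L3.card = 1 by omega)
  refine ⟨x, y, z, rfl, rfl, rfl, ?_, ?_, ?_⟩
  · rintro rfl
    simp only [Finset.union_idempotent] at h
    have := Finset.card_union_le ({x} : Finset V) {z}
    simp only [Finset.card_singleton] at this
    omega
  · rintro rfl
    have h6 : ({x} : Finset V) ∪ {y} ∪ {x} = {x} ∪ {y} := by
      ext w
      simp only [Finset.mem_union, Finset.mem_singleton]
      tauto
    rw [h6] at h
    have := Finset.card_union_le ({x} : Finset V) {y}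
    simp only [Finset.card_singleton] at this
    omega
  · rintro rfl
    have h6 : ({x} : Finset V) ∪ {y} ∪ {y} = {x} ∪ {y} := by
      ext w
      simp only [Finset.mem_union, Finset.mem_singleton]
      tauto
    rw [h6] at h
    have := Finset.card_union_le ({x} : Finset V) {y}
    simp only [Finset.card_singleton] at this
    omega

theorem Cvr2.exists_TP (h : Cvr2 G P D1 D3) : ∃ Q a s, TP G P D1 D3 Q a s := by
  classical
  have hPne : P.Nonempty := h.conn.1
  obtain ⟨v0, hv0⟩ := hPne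
  -- a minimal big set with connected complement
  obtain ⟨A, hA, hmin⟩ := Finset.exists_min_image
    (P.powerset.filter fun A => Conn G A ∧ Conn G (P \ A) ∧ Big G D1 D3 A) Finset.card
    ⟨P.erase v0, Finset.mem_filter.2 ⟨Finset.mem_powerset.2 (Finset.erase_subset _ _), h.conn_erase v0, by
      have : P \ P.erase v0 = {v0} := by
        ext w
        simp only [Finset.mem_sdiff, Finset.mem_erase, Finset.mem_singleton]
        constructor
        · rintro ⟨h1, h2⟩
          by_contra h3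
          exact h2 ⟨h3, h1⟩
        · rintro rfl
          exact ⟨hv0, fun h => h.1 rfl⟩
      rw [this]
      exact Conn.singleton G v0, h.big_erase v0⟩⟩
  obtain ⟨hA1, hA2, hA3, hA4⟩ := Finset.mem_filter.1 hA
  rw [Finset.mem_powerset] at hA1
  have hmin' : ∀ A', A' ⊆ P → Conn G A' → Conn G (P \ A') → A' ⊂ A → ¬ Big G D1 D3 A' := by
    intro A' h1 h2 h3 h4 h5
    have := hmin A' (Finset.mem_filter.2 ⟨Finset.mem_powerset.2 h1, h2, h3, h5⟩)
    have := Finset.card_lt_card h4
    omega
  set B := P \ A with hB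
  have hBP : B ⊆ P := Finset.sdiff_subset
  have hBsmall : ¬ Big G D1 D3 B := fun h' => h.meet A B hA1 hBP hA2 hA3 hA4 h' Finset.disjoint_sdiff
  obtain ⟨a0, ha0⟩ := hA2.1
  obtain ⟨b1, hb1⟩ := hA3.1
  obtain ⟨v, hv, -, b0, hb0P, hb0A, e⟩ := h.conn.exists_edge A (hA1 ha0) ha0 (hBP hb1)
    (Finset.mem_sdiff.1 hb1).2
  have hb0 : b0 ∈ B := Finset.mem_sdiff.2 ⟨hb0P, hb0A⟩
  -- another vertex
  have hy : ∃ y ∈ A, y ≠ v := by
    by_contra hne
    push Not at hne
    have : A = {v} := by
      ext w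
      rw [Finset.mem_singleton]
      exact ⟨fun hw => hne w hw, fun hw => hw ▸ hv⟩
    rw [this] at hA4
    exact h.small_single (hA1 hv) hA4
  obtain ⟨y, hyA, hyv⟩ := hy
  have hy' : y ∈ A \ {v} := Finset.mem_sdiff.2 ⟨hyA, by simpa using hyv⟩
  set K := cmp G (A \ {v}) y with hK
  have hKA' : K ⊆ A \ {v} := cmp_sub
  have hKA : K ⊆ A := hKA'.trans Finset.sdiff_subset
  have hvK : v ∉ K := fun h' => by
    have := (Finset.mem_sdiff.1 (hKA' h')).2
    simp at this
  have cK : Conn G K := cmp_conn hy'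
  have cR : Conn G (A \ K) := hA2.compl_cmp (Conn.singleton G v) (by simpa using hv)
  have hvR : v ∈ A \ K := Finset.mem_sdiff.2 ⟨hv, hvK⟩
  have hyK : y ∈ K := mem_cmp_self hy'
  -- `K` and `B` are adjacent
  have hKB : ∃ x ∈ K, ∃ y ∈ B, G.Adj x y := by
    have hbv : b0 ≠ v := by
      rintro rfl
      exact hb0A hv
    obtain ⟨u, hu, -, w, hw, hwK, e'⟩ := (h.conn_erase v).exists_edge K
      (Finset.mem_erase.2 ⟨hyv, hA1 hyA⟩) hyK (Finset.mem_erase.2 ⟨hbv, hb0P⟩)
      (fun h' => hb0A (hKA h'))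
    refine ⟨u, hu, w, ?_, e'⟩
    obtain ⟨hwv, hwP⟩ := Finset.mem_erase.1 hw
    refine Finset.mem_sdiff.2 ⟨hwP, fun hwA => hwK ?_⟩
    exact cmp_closed hu (Finset.mem_sdiff.2 ⟨hwA, by simpa using hwv⟩) e'
  -- `K` and `R` are adjacent
  have hKR : ∃ x ∈ K, ∃ y ∈ A \ K, G.Adj x y := by
    obtain ⟨u, hu, -, w, hw, hwK, e'⟩ := hA2.exists_edge K hyA hyK hv hvK
    exact ⟨u, hu, w, Finset.mem_sdiff.2 ⟨hw, hwK⟩, e'⟩
  have hRB : ∃ x ∈ A \ K, ∃ y ∈ B, G.Adj x y := ⟨v, hvR, b0, hb0, e⟩
  have hKsmall : ¬ Big G D1 D3 K := by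
    refine hmin' K (hKA.trans hA1) cK ?_ ⟨hKA, fun h' => hvK (h' hv)⟩
    have h1 : P \ K = (A \ K) ∪ B := by
      rw [hB]
      ext w
      simp only [Finset.mem_sdiff, Finset.mem_union]
      constructor
      · rintro ⟨h1, h2⟩
        by_cases h3 : w ∈ A
        · exact Or.inl ⟨h3, h2⟩
        · exact Or.inr ⟨h1, h3⟩
      · rintro (⟨h1, h2⟩ | ⟨h1, h2⟩)
        · exact ⟨hA1 h1, h2⟩
        · exact ⟨h1, fun h3 => h2 (hKA h3)⟩
    rw [h1]
    exact cR.union_adj hA3 hRB
  have hRsmall : ¬ Big G D1 D3 (A \ K) := by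
    refine hmin' (A \ K) (Finset.sdiff_subset.trans hA1) cR ?_ ⟨Finset.sdiff_subset, fun h' =>
      (Finset.mem_sdiff.1 (h' hyA)).2 hyK⟩
    have h1 : P \ (A \ K) = K ∪ B := by
      rw [hB]
      ext w
      simp only [Finset.mem_sdiff, Finset.mem_union, not_and, not_not]
      constructor
      · rintro ⟨h1, h2⟩
        by_cases h3 : w ∈ A
        · exact Or.inl (h2 h3)
        · exact Or.inr ⟨h1, h3⟩
      · rintro (h1 | ⟨h1, h2⟩)
        · exact ⟨hA1 (hKA h1), fun _ => h1⟩
        · exact ⟨h1, fun h3 => absurd h3 h2⟩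
    rw [h1]
    exact cK.union_adj hA3 hKB
  have hPeq : P = B ∪ K ∪ (A \ K) := by
    rw [hB]
    ext w
    simp only [Finset.mem_sdiff, Finset.mem_union]
    constructor
    · intro h1
      by_cases h3 : w ∈ A
      · by_cases h4 : w ∈ K
        · exact Or.inl (Or.inr h4)
        · exact Or.inr ⟨h3, h4⟩
      · exact Or.inl (Or.inl ⟨h1, h3⟩)
    · rintro ((⟨h1, -⟩ | h1) | ⟨h1, -⟩)
      · exact h1
      · exact hA1 (hKA h1)
      · exact hA1 h1
  unfold Big at hBsmall hKsmall hRsmall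
  push Not at hBsmall hKsmall hRsmall
  obtain ⟨a1, a2, a3, ha1, ha2, ha3, ha12, ha13, ha23⟩ := three_labels (L1 := lab G D1 B) (L2 := lab G D1 K)
    (L3 := lab G D1 (A \ K)) (by omega) (by omega) (by omega) (by
      rw [← lab_union, ← lab_union, ← hPeq]
      exact h.three1)
  obtain ⟨s1, s2, s3, hs1, hs2, hs3, hs12, hs13, hs23⟩ := three_labels (L1 := lab G D3 B) (L2 := lab G D3 K)
    (L3 := lab G D3 (A \ K)) (by omega) (by omega) (by omega) (by
      rw [← lab_union, ← lab_union, ← hPeq]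
      exact h.three3)
  have dBK : Disjoint B K := Finset.disjoint_left.2 fun w h1 h2 => (Finset.mem_sdiff.1 h1).2 (hKA h2)
  have dBR : Disjoint B (A \ K) := Finset.disjoint_left.2 fun w h1 h2 =>
    (Finset.mem_sdiff.1 h1).2 (Finset.mem_sdiff.1 h2).1
  have dKR : Disjoint K (A \ K) := Finset.disjoint_sdiff
  have sy : ∀ {X Y : Finset V}, (∃ x ∈ X, ∃ y ∈ Y, G.Adj x y) → ∃ x ∈ Y, ∃ y ∈ X, G.Adj x y := by
    rintro X Y ⟨x, hx, y, hy, e⟩
    exact ⟨y, hy, x, hx, e.symm⟩
  refine ⟨![B, K, A \ K], ![a1, a2, a3], ![s1, s2, s3], ?_, ?_, ?_, ?_, ?_, ?_, ?_, ?_⟩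
  · intro i
    fin_cases i
    · exact hA3
    · exact cK
    · exact cR
  · intro i j hij
    fin_cases i <;> fin_cases j <;> first
      | exact absurd rfl hij
      | exact dBK
      | exact dBK.symm
      | exact dBR
      | exact dBR.symm
      | exact dKR
      | exact dKR.symm
  · intro w
    rw [hPeq, Finset.mem_union, Finset.mem_union]
    constructor
    · rintro ((h1 | h1) | h1)
      · exact ⟨0, h1⟩
      · exact ⟨1, h1⟩
      · exact ⟨2, h1⟩
    · rintro ⟨i, hi⟩
      fin_cases i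
      · exact Or.inl (Or.inl hi)
      · exact Or.inl (Or.inr hi)
      · exact Or.inr hi
  · intro i j hij
    fin_cases i <;> fin_cases j <;> first
      | exact absurd rfl hij
      | exact hKB
      | exact sy hKB
      | exact hKR
      | exact sy hKR
      | exact hRB
      | exact sy hRB
  · intro i
    fin_cases i
    · exact ha1
    · exact ha2
    · exact ha3
  · intro i
    fin_cases i
    · exact hs1
    · exact hs2
    · exact hs3
  · intro i j hij
    fin_cases i <;> fin_cases j <;> first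
      | rfl
      | exact absurd hij ha12
      | exact absurd hij ha13
      | exact absurd hij ha23
      | exact absurd hij.symm ha12
      | exact absurd hij.symm ha13
      | exact absurd hij.symm ha23
  · intro i j hij
    fin_cases i <;> fin_cases j <;> first
      | rfl
      | exact absurd hij hs12
      | exact absurd hij hs13
      | exact absurd hij hs23
      | exact absurd hij.symm hs12
      | exact absurd hij.symm hs13
      | exact absurd hij.symm hs23

theorem fin3_cases : ∀ i j k : Fin 3, i ≠ j → i ≠ k → j ≠ k → ∀ m, m = i ∨ m = j ∨ m = k := by decide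

theorem fin3_others : ∀ i : Fin 3, ∃ j k : Fin 3, i ≠ j ∧ i ≠ k ∧ j ≠ k := by decide

/-- adjacent sets -/
def SAdj (G : SimpleGraph V) (X Y : Finset V) : Prop := ∃ x ∈ X, ∃ y ∈ Y, G.Adj x y

theorem SAdj.symm (h : SAdj G X Y) : SAdj G Y X := by
  obtain ⟨x, hx, y, hy, e⟩ := h
  exact ⟨y, hy, x, hx, e.symm⟩

theorem SAdj.mono (h : SAdj G X Y) (hX : X ⊆ S) (hY : Y ⊆ T) : SAdj G S T := by
  obtain ⟨x, hx, y, hy, e⟩ := h
  exact ⟨x, hX hx, y, hY hy, e⟩

/-- moving a label-free piece `K` of `Q i` to `Q j` -/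
theorem TP.move1 {Q : Fin 3 → Finset V} {a s : Fin 3 → V} (h : TP G P D1 D3 Q a s) {i j k : Fin 3}
    (hij : i ≠ j) (hik : i ≠ k) (hjk : j ≠ k) {K R : Finset V} (hu : K ∪ R = Q i) (hd : Disjoint K R)
    (cK : Conn G K) (cR : Conn G R) (hKR : SAdj G K R) (hKj : SAdj G K (Q j)) (hRk : SAdj G R (Q k))
    (l1 : lab G D1 K = ∅) (l3 : lab G D3 K = ∅) : ∃ Q', TP G P D1 D3 Q' a s ∧ (Q' i).card < (Q i).card := by
  have hcases := fin3_cases i j k hij hik hjk
  have hK : K ⊆ Q i := by rw [← hu]; exact Finset.subset_union_left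
  have hR : R ⊆ Q i := by rw [← hu]; exact Finset.subset_union_right
  have hlR1 : lab G D1 R = {a i} := by
    rw [← h.la i, ← hu, lab_union, l1, Finset.empty_union]
  have hlR3 : lab G D3 R = {s i} := by
    rw [← h.ls i, ← hu, lab_union, l3, Finset.empty_union]
  set Q' : Fin 3 → Finset V := fun m => if m = i then R else if m = j then Q j ∪ K else Q m with hQ'
  have qi : Q' i = R := by simp [hQ']
  have qj : Q' j = Q j ∪ K := by simp [hQ', hij.symm]
  have qk : Q' k = Q k := by simp [hQ', hik.symm, hjk.symm]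
  refine ⟨Q', ⟨?_, ?_, ?_, ?_, ?_, ?_, h.ia, h.is⟩, ?_⟩
  · intro m
    rcases hcases m with rfl | rfl | rfl
    · rw [qi]
      exact cR
    · rw [qj]
      exact (h.conn m).union_adj cK hKj.symm
    · rw [qk]
      exact h.conn m
  · have d1 : Disjoint (Q' i) (Q' j) := by
      rw [qi, qj, Finset.disjoint_union_right]
      exact ⟨Finset.disjoint_of_subset_left hR (h.disj i j hij), hd.symm⟩
    have d2 : Disjoint (Q' i) (Q' k) := by
      rw [qi, qk]
      exact Finset.disjoint_of_subset_left hR (h.disj i k hik)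
    have d3 : Disjoint (Q' j) (Q' k) := by
      rw [qj, qk, Finset.disjoint_union_left]
      exact ⟨h.disj j k hjk, Finset.disjoint_of_subset_left hK (h.disj i k hik)⟩
    intro m n hmn
    rcases hcases m with rfl | rfl | rfl <;> rcases hcases n with rfl | rfl | rfl <;> first
      | exact absurd rfl hmn
      | exact d1
      | exact d1.symm
      | exact d2
      | exact d2.symm
      | exact d3
      | exact d3.symm
  · intro x
    rw [h.un x]
    constructor
    · rintro ⟨m, hm⟩
      rcases hcases m with rfl | rfl | rfl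
      · rw [← hu, Finset.mem_union] at hm
        rcases hm with hm | hm
        · exact ⟨j, by rw [qj]; exact Finset.mem_union_right _ hm⟩
        · exact ⟨m, by rw [qi]; exact hm⟩
      · exact ⟨m, by rw [qj]; exact Finset.mem_union_left _ hm⟩
      · exact ⟨m, by rw [qk]; exact hm⟩
    · rintro ⟨m, hm⟩
      rcases hcases m with rfl | rfl | rfl
      · rw [qi] at hm
        exact ⟨m, hR hm⟩
      · rw [qj, Finset.mem_union] at hm
        rcases hm with hm | hm
        · exact ⟨m, hm⟩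
        · exact ⟨i, hK hm⟩
      · rw [qk] at hm
        exact ⟨m, hm⟩
  · have d1 : SAdj G (Q' i) (Q' j) := by
      rw [qi, qj]
      exact hKR.symm.mono subset_rfl Finset.subset_union_right
    have d2 : SAdj G (Q' i) (Q' k) := by
      rw [qi, qk]
      exact hRk
    have d3 : SAdj G (Q' j) (Q' k) := by
      rw [qj, qk]
      exact SAdj.mono (h.adj j k hjk) Finset.subset_union_left subset_rfl
    intro m n hmn
    rcases hcases m with rfl | rfl | rfl <;> rcases hcases n with rfl | rfl | rfl <;> first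
      | exact absurd rfl hmn
      | exact d1
      | exact d1.symm
      | exact d2
      | exact d2.symm
      | exact d3
      | exact d3.symm
  · intro m
    rcases hcases m with rfl | rfl | rfl
    · rw [qi, hlR1]
    · rw [qj, lab_union, l1, h.la, Finset.union_empty]
    · rw [qk, h.la]
  · intro m
    rcases hcases m with rfl | rfl | rfl
    · rw [qi, hlR3]
    · rw [qj, lab_union, l3, h.ls, Finset.union_empty]
    · rw [qk, h.ls]
  · rw [qi]
    refine Finset.card_lt_card ⟨hR, fun h' => ?_⟩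
    obtain ⟨y, hy⟩ := cK.1
    exact Finset.disjoint_left.1 hd hy (h' (hK hy))

/-- if `K ∪ Q j` is small then `K` is label-free -/
theorem TP.free {Q : Fin 3 → Finset V} {a s : Fin 3 → V} (h : TP G P D1 D3 Q a s) {i j : Fin 3}
    (hij : i ≠ j) {K : Finset V} (hK : K ⊆ Q i) (hs : ¬ Big G D1 D3 (K ∪ Q j)) :
    lab G D1 K = ∅ ∧ lab G D3 K = ∅ := by
  unfold Big at hs
  push Not at hs
  rw [lab_union, lab_union, h.la, h.ls] at hs
  obtain ⟨h1, h2⟩ := hs
  constructor
  · rw [Finset.eq_empty_iff_forall_notMem]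
    intro x hx
    have h3 : x ∈ lab G D1 (Q i) := lab_mono hK hx
    rw [h.la, Finset.mem_singleton] at h3
    subst h3
    have h4 : ({a i, a j} : Finset V) ⊆ lab G D1 K ∪ {a j} := by
      intro y hy
      rw [Finset.mem_insert, Finset.mem_singleton] at hy
      rcases hy with rfl | rfl
      · exact Finset.mem_union_left _ hx
      · exact Finset.mem_union_right _ (Finset.mem_singleton_self _)
    have h5 := Finset.card_le_card h4
    rw [Finset.card_pair (fun h' => hij (h.ia h'))] at h5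
    omega
  · rw [Finset.eq_empty_iff_forall_notMem]
    intro x hx
    have h3 : x ∈ lab G D3 (Q i) := lab_mono hK hx
    rw [h.ls, Finset.mem_singleton] at h3
    subst h3
    have h4 : ({s i, s j} : Finset V) ⊆ lab G D3 K ∪ {s j} := by
      intro y hy
      rw [Finset.mem_insert, Finset.mem_singleton] at hy
      rcases hy with rfl | rfl
      · exact Finset.mem_union_left _ hx
      · exact Finset.mem_union_right _ (Finset.mem_singleton_self _)
    have h5 := Finset.card_le_card h4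
    rw [Finset.card_pair (fun h' => hij (h.is h'))] at h5
    omega

theorem TP.sub {Q : Fin 3 → Finset V} {a s : Fin 3 → V} (h : TP G P D1 D3 Q a s) (i : Fin 3) : Q i ⊆ P :=
  fun x hx => (h.un x).2 ⟨i, hx⟩

/-- a split part can be made smaller -/
theorem TP.move {Q : Fin 3 → Finset V} {a s : Fin 3 → V} (h2 : Cvr2 G P D1 D3) (h : TP G P D1 D3 Q a s)
    {i j k : Fin 3} (hij : i ≠ j) (hik : i ≠ k) (hjk : j ≠ k) {K R : Finset V} (hu : K ∪ R = Q i)
    (hd : Disjoint K R) (cK : Conn G K) (cR : Conn G R) (hKR : SAdj G K R) (hKj : SAdj G K (Q j))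
    (hRk : SAdj G R (Q k)) : ∃ Q', TP G P D1 D3 Q' a s ∧ (Q' i).card < (Q i).card := by
  have hK : K ⊆ Q i := by rw [← hu]; exact Finset.subset_union_left
  have hR : R ⊆ Q i := by rw [← hu]; exact Finset.subset_union_right
  have dd : Disjoint (K ∪ Q j) (R ∪ Q k) := by
    rw [Finset.disjoint_union_left, Finset.disjoint_union_right, Finset.disjoint_union_right]
    exact ⟨⟨hd, Finset.disjoint_of_subset_left hK (h.disj i k hik)⟩,
      ⟨(Finset.disjoint_of_subset_left hR (h.disj i j hij)).symm, h.disj j k hjk⟩⟩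
  have hb : ¬ Big G D1 D3 (K ∪ Q j) ∨ ¬ Big G D1 D3 (R ∪ Q k) := by
    by_contra hne
    push Not at hne
    exact h2.meet _ _ (Finset.union_subset (hK.trans (h.sub i)) (h.sub j))
      (Finset.union_subset (hR.trans (h.sub i)) (h.sub k)) (cK.union_adj (h.conn j) hKj)
      (cR.union_adj (h.conn k) hRk) hne.1 hne.2 dd
  rcases hb with hb | hb
  · obtain ⟨l1, l3⟩ := h.free hij hK hb
    exact h.move1 hij hik hjk hu hd cK cR hKR hKj hRk l1 l3
  · obtain ⟨l1, l3⟩ := h.free hik hR hb
    exact h.move1 hik hij hjk.symm (by rw [Finset.union_comm, hu]) hd.symm cR cK hKR.symm hRk hKj l1 l3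

/-- both labels of a part sit at one vertex only -/
theorem TP.single (h2 : Cvr2 G P D1 D3) {a s : Fin 3 → V} (i : Fin 3) : ∀ n : ℕ, ∀ Q : Fin 3 → Finset V,
    (Q i).card = n → TP G P D1 D3 Q a s → ∃ v ∈ P, G.Adj v (a i) ∧ G.Adj v (s i) ∧
      ∀ x ∈ P, (G.Adj x (a i) ∨ G.Adj x (s i)) → x = v := by
  intro n
  induction n using Nat.strong_induction_on with
  | _ n ih =>
    intro Q hn h
    obtain ⟨j, k, hij, hik, hjk⟩ := fin3_others i
    obtain ⟨v, hv, w, hw, e⟩ := h.adj i j hij
    by_cases hy : ∃ y ∈ Q i, y ≠ v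
    · obtain ⟨y, hyA, hyv⟩ := hy
      have hy' : y ∈ Q i \ {v} := Finset.mem_sdiff.2 ⟨hyA, by simpa using hyv⟩
      set K := cmp G (Q i \ {v}) y with hK
      have hKA' : K ⊆ Q i \ {v} := cmp_sub
      have hKA : K ⊆ Q i := hKA'.trans Finset.sdiff_subset
      have hvK : v ∉ K := fun h' => by
        have := (Finset.mem_sdiff.1 (hKA' h')).2
        simp at this
      have cK : Conn G K := cmp_conn hy'
      have cR : Conn G (Q i \ K) := (h.conn i).compl_cmp (Conn.singleton G v) (by simpa using hv)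
      have hvR : v ∈ Q i \ K := Finset.mem_sdiff.2 ⟨hv, hvK⟩
      have hyK : y ∈ K := mem_cmp_self hy'
      have hKR : SAdj G K (Q i \ K) := by
        obtain ⟨u, hu, -, w, hw, hwK, e'⟩ := (h.conn i).exists_edge K hyA hyK hv hvK
        exact ⟨u, hu, w, Finset.mem_sdiff.2 ⟨hw, hwK⟩, e'⟩
      have hRj : SAdj G (Q i \ K) (Q j) := ⟨v, hvR, w, hw, e⟩
      have hout : SAdj G K (Q j) ∨ SAdj G K (Q k) := by
        have hwv : w ≠ v := by
          rintro rfl
          exact Finset.disjoint_left.1 (h.disj i j hij) hv hw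
        obtain ⟨u, hu, -, w', hw', hwK, e'⟩ := (h2.conn_erase v).exists_edge K
          (Finset.mem_erase.2 ⟨hyv, h.sub i hyA⟩) hyK (Finset.mem_erase.2 ⟨hwv, h.sub j hw⟩)
          (fun h' => Finset.disjoint_left.1 (h.disj i j hij) (hKA h') hw)
        obtain ⟨hwv', hwP⟩ := Finset.mem_erase.1 hw'
        obtain ⟨m, hm⟩ := (h.un w').1 hwP
        rcases fin3_cases i j k hij hik hjk m with rfl | rfl | rfl
        · exact absurd (cmp_closed hu (Finset.mem_sdiff.2 ⟨hm, by simpa using hwv'⟩) e') hwK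
        · exact Or.inl ⟨u, hu, w', hm, e'⟩
        · exact Or.inr ⟨u, hu, w', hm, e'⟩
      have hfin : ∃ Q', TP G P D1 D3 Q' a s ∧ (Q' i).card < (Q i).card := by
        by_cases hKk : SAdj G K (Q k)
        · exact h.move h2 hik hij hjk.symm (Finset.union_sdiff_of_subset hKA) Finset.disjoint_sdiff cK cR
            hKR hKk hRj
        · have hKj := hout.resolve_right hKk
          have hRk : SAdj G (Q i \ K) (Q k) := by
            obtain ⟨x, hx, y', hy', e'⟩ := h.adj i k hik
            exact ⟨x, Finset.mem_sdiff.2 ⟨hx, fun hxK => hKk ⟨x, hxK, y', hy', e'⟩⟩, y', hy', e'⟩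
          exact h.move h2 hij hik hjk (Finset.union_sdiff_of_subset hKA) Finset.disjoint_sdiff cK cR
            hKR hKj hRk
      obtain ⟨Q', h', hlt⟩ := hfin
      exact ih _ (by omega) Q' rfl h'
    · push Not at hy
      have hQ : ∀ x ∈ Q i, x = v := hy
      have ha : a i ∈ lab G D1 (Q i) := by rw [h.la]; exact Finset.mem_singleton_self _
      have hs : s i ∈ lab G D3 (Q i) := by rw [h.ls]; exact Finset.mem_singleton_self _
      obtain ⟨haD, x, hx, ex⟩ := mem_lab.1 ha
      obtain ⟨hsD, y, hy', ey⟩ := mem_lab.1 hs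
      rw [hQ x hx] at ex
      rw [hQ y hy'] at ey
      refine ⟨v, h.sub i hv, ex, ey, ?_⟩
      intro z hz hz'
      obtain ⟨m, hm⟩ := (h.un z).1 hz
      have hmi : m = i := by
        rcases hz' with hz' | hz'
        · have : a i ∈ lab G D1 (Q m) := mem_lab.2 ⟨haD, z, hm, hz'⟩
          rw [h.la, Finset.mem_singleton] at this
          exact (h.ia this).symm
        · have : s i ∈ lab G D3 (Q m) := mem_lab.2 ⟨hsD, z, hm, hz'⟩
          rw [h.ls, Finset.mem_singleton] at this
          exact (h.is this).symm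
      subst hmi
      exact hQ z hm

/-- the triangle type -/
structure Tri3 (G : SimpleGraph V) (P D1 D3 : Finset V) (v a s : Fin 3 → V) : Prop where
  iv : Function.Injective v
  ia : Function.Injective a
  is : Function.Injective s
  mem : ∀ x, x ∈ P ↔ ∃ i, x = v i
  adj : ∀ i j, i ≠ j → G.Adj (v i) (v j)
  la : ∀ i, lab G D1 {v i} = {a i}
  ls : ∀ i, lab G D3 {v i} = {s i}

theorem Cvr2.tri (h : Cvr2 G P D1 D3) : ∃ v a s, Tri3 G P D1 D3 v a s := by
  obtain ⟨Q, a, s, hT⟩ := h.exists_TP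
  have h1 : ∀ i, ∃ v ∈ P, G.Adj v (a i) ∧ G.Adj v (s i) ∧
      ∀ x ∈ P, (G.Adj x (a i) ∨ G.Adj x (s i)) → x = v := fun i => TP.single h i _ Q rfl hT
  choose v hvP hva hvs hv using h1
  have haD : ∀ i, a i ∈ D1 := fun i => by
    have : a i ∈ lab G D1 (Q i) := by rw [hT.la]; exact Finset.mem_singleton_self _
    exact lab_sub this
  have hsD : ∀ i, s i ∈ D3 := fun i => by
    have : s i ∈ lab G D3 (Q i) := by rw [hT.ls]; exact Finset.mem_singleton_self _
    exact lab_sub this
  -- labels of `P`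
  have hlab1 : ∀ x ∈ P, ∀ d ∈ D1, G.Adj x d → ∃ i, d = a i := by
    intro x hx d hd e
    obtain ⟨i, hi⟩ := (hT.un x).1 hx
    have : d ∈ lab G D1 (Q i) := mem_lab.2 ⟨hd, x, hi, e⟩
    rw [hT.la, Finset.mem_singleton] at this
    exact ⟨i, this⟩
  have hlab3 : ∀ x ∈ P, ∀ d ∈ D3, G.Adj x d → ∃ i, d = s i := by
    intro x hx d hd e
    obtain ⟨i, hi⟩ := (hT.un x).1 hx
    have : d ∈ lab G D3 (Q i) := mem_lab.2 ⟨hd, x, hi, e⟩
    rw [hT.ls, Finset.mem_singleton] at this
    exact ⟨i, this⟩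
  have hvQ : ∀ i, v i ∈ Q i := by
    intro i
    have : a i ∈ lab G D1 (Q i) := by rw [hT.la]; exact Finset.mem_singleton_self _
    obtain ⟨-, x, hx, e⟩ := mem_lab.1 this
    rw [← hv i x (hT.sub i hx) (Or.inl e)]
    exact hx
  have iv : Function.Injective v := by
    intro i j hij
    by_contra hne
    exact Finset.disjoint_left.1 (hT.disj i j hne) (hvQ i) (by rw [hij]; exact hvQ j)
  have la : ∀ i, lab G D1 {v i} = {a i} := by
    intro i
    ext d
    rw [mem_lab, Finset.mem_singleton]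
    constructor
    · rintro ⟨hd, x, hx, e⟩
      rw [Finset.mem_singleton] at hx
      subst hx
      obtain ⟨j, rfl⟩ := hlab1 _ (hvP i) d hd e
      rw [iv (hv j _ (hvP i) (Or.inl e))]
    · rintro rfl
      exact ⟨haD i, v i, Finset.mem_singleton_self _, hva i⟩
  have ls : ∀ i, lab G D3 {v i} = {s i} := by
    intro i
    ext d
    rw [mem_lab, Finset.mem_singleton]
    constructor
    · rintro ⟨hd, x, hx, e⟩
      rw [Finset.mem_singleton] at hx
      subst hx
      obtain ⟨j, rfl⟩ := hlab3 _ (hvP i) d hd e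
      rw [iv (hv j _ (hvP i) (Or.inr e))]
    · rintro rfl
      exact ⟨hsD i, v i, Finset.mem_singleton_self _, hvs i⟩
  -- nothing else in `P`
  have hmem : ∀ x, x ∈ P ↔ ∃ i, x = v i := by
    intro x
    constructor
    · intro hx
      by_contra hne
      set Y := P \ Finset.univ.image v with hY
      have hxY : x ∈ Y := by
        rw [hY, Finset.mem_sdiff]
        refine ⟨hx, fun h' => hne ?_⟩
        obtain ⟨i, -, hi⟩ := Finset.mem_image.1 h'
        exact ⟨i, hi.symm⟩
      have h4 := h.four Y Finset.sdiff_subset ⟨x, hxY⟩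
      have e1 : lab G D1 Y = ∅ := by
        rw [Finset.eq_empty_iff_forall_notMem]
        intro d hd
        obtain ⟨hd1, y, hy, e⟩ := mem_lab.1 hd
        obtain ⟨hy1, hy2⟩ := Finset.mem_sdiff.1 hy
        obtain ⟨i, rfl⟩ := hlab1 y hy1 d hd1 e
        exact hy2 (Finset.mem_image.2 ⟨i, Finset.mem_univ _, (hv i y hy1 (Or.inl e)).symm⟩)
      have e3 : lab G D3 Y = ∅ := by
        rw [Finset.eq_empty_iff_forall_notMem]
        intro d hd
        obtain ⟨hd1, y, hy, e⟩ := mem_lab.1 hd
        obtain ⟨hy1, hy2⟩ := Finset.mem_sdiff.1 hy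
        obtain ⟨i, rfl⟩ := hlab3 y hy1 d hd1 e
        exact hy2 (Finset.mem_image.2 ⟨i, Finset.mem_univ _, (hv i y hy1 (Or.inr e)).symm⟩)
      have e2 : lab G (P \ Y) Y ⊆ Finset.univ.image v := by
        intro w hw
        obtain ⟨h1, h2⟩ := Finset.mem_sdiff.1 (lab_sub hw)
        by_contra h3
        exact h2 (Finset.mem_sdiff.2 ⟨h1, h3⟩)
      have e4 := (Finset.card_le_card e2).trans Finset.card_image_le
      rw [Finset.card_univ, Fintype.card_fin] at e4
      rw [e1, e3, Finset.card_empty] at h4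
      omega
    · rintro ⟨i, rfl⟩
      exact hvP i
  refine ⟨v, a, s, iv, hT.ia, hT.is, hmem, ?_, la, ls⟩
  -- the triangle
  intro i j hij
  have h4 := h.four {v i} (by simpa using hvP i) ⟨v i, Finset.mem_singleton_self _⟩
  rw [la, ls, Finset.card_singleton, Finset.card_singleton] at h4
  have e1 : lab G (P \ {v i}) {v i} ⊆ (Finset.univ.erase i).image v := by
    intro w hw
    obtain ⟨h1, h2⟩ := Finset.mem_sdiff.1 (lab_sub hw)
    obtain ⟨m, rfl⟩ := (hmem w).1 h1
    refine Finset.mem_image.2 ⟨m, Finset.mem_erase.2 ⟨?_, Finset.mem_univ _⟩, rfl⟩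
    rintro rfl
    exact h2 (Finset.mem_singleton_self _)
  have e2 : ((Finset.univ.erase i).image v).card = 2 := by
    rw [Finset.card_image_of_injective _ iv, Finset.card_erase_of_mem (Finset.mem_univ _)]
    simp
  have e3 : lab G (P \ {v i}) {v i} = (Finset.univ.erase i).image v :=
    Finset.eq_of_subset_of_card_le e1 (by omega)
  have e4 : v j ∈ lab G (P \ {v i}) {v i} := by
    rw [e3]
    exact Finset.mem_image.2 ⟨j, Finset.mem_erase.2 ⟨hij.symm, Finset.mem_univ _⟩, rfl⟩
  obtain ⟨-, x, hx, e⟩ := mem_lab.1 e4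
  rw [Finset.mem_singleton] at hx
  subst hx
  exact e

/-- SECTION 2: one vertex, or at most two `D1`-labels, or at most two `D3`-labels, or the triangle -/
theorem Cvr.two (h : Cvr G P D1 D3) : P.card = 1 ∨ (lab G D1 P).card ≤ 2 ∨ (lab G D3 P).card ≤ 2 ∨
    ∃ v a s, Tri3 G P D1 D3 v a s := by
  by_cases h1 : P.card = 1
  · exact Or.inl h1
  by_cases h2 : (lab G D1 P).card ≤ 2
  · exact Or.inr (Or.inl h2)
  by_cases h3 : (lab G D3 P).card ≤ 2
  · exact Or.inr (Or.inr (Or.inl h3))
  right; right; right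
  have hP := Finset.card_pos.2 h.conn.1
  refine Cvr2.tri (h := ⟨h, ?_, by omega, by omega, by omega⟩)
  intro X Y hX hY cX cY bX bY hd
  rcases bX with bX | bX <;> rcases bY with bY | bY
  · exact h3 (h.two_X hX hY cX cY bX bY hd)
  · exact h.star X Y hX hY cX cY bX bY hd
  · exact h.star Y X hY hX cY cX bY bX hd.symm
  · exact h2 (h.swap.two_X hX hY cX cY bX bY hd)

end Pool.Agent.TOKSN
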