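import Mathlib
import Pool.Agent.TOKSN.CovTwo
import Pool.Agent.TOKSN.HubPar
import Pool.Agent.TOKSN.Toks

/-!
# LINE N: the triangle type

A contact of the triangle type gives a TOKS.
-/

set_option autoImplicit false
set_option linter.unusedSectionVars false

namespace Pool.Agent.TOKSN

open Pool.Agent.TOKST (HasTOKS)

variable {V : Type} [DecidableEq V] {G : SimpleGraph V} {P S T A B D D1 D3 X Y K : Finset V} {a b c d x y z w : V}

/-- elementwise form of `toks_mk` -/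
theorem toks_el {a b c d : V} {Tab Tac Tad Tbc Tbd Tcd : Finset V}
    (hab : PX G Tab a b true) (hac : PX G Tac a c true) (had : PX G Tad a d true)
    (hbc : PX G Tbc b c true) (hbd : PX G Tbd b d true) (hcd : PX G Tcd c d true)
    (d1 : ∀ x ∈ Tab, x ∉ Tcd) (d2 : ∀ x ∈ Tac, x ∉ Tbd) (d3 : ∀ x ∈ Tad, x ∉ Tbc)
    (a1 : ∀ x ∈ Tab, x ∈ Tac → x = a) (a2 : ∀ x ∈ Tab, x ∈ Tad → x = a) (a3 : ∀ x ∈ Tac, x ∈ Tad → x = a)
    (b1 : ∀ x ∈ Tab, x ∈ Tbc → x = b) (b2 : ∀ x ∈ Tab, x ∈ Tbd → x = b) (b3 : ∀ x ∈ Tbc, x ∈ Tbd → x = b)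
    (c1 : ∀ x ∈ Tac, x ∈ Tbc → x = c) (c2 : ∀ x ∈ Tac, x ∈ Tcd → x = c) (c3 : ∀ x ∈ Tbc, x ∈ Tcd → x = c)
    (d4 : ∀ x ∈ Tad, x ∈ Tbd → x = d) (d5 : ∀ x ∈ Tad, x ∈ Tcd → x = d) (d6 : ∀ x ∈ Tbd, x ∈ Tcd → x = d) :
    HasTOKS G := by
  have key : ∀ {X Y : Finset V} {v : V}, (∀ x ∈ X, x ∈ Y → x = v) → X ∩ Y ⊆ {v} := by
    intro X Y v h x hx
    obtain ⟨h1, h2⟩ := Finset.mem_inter.1 hx
    rw [Finset.mem_singleton]
    exact h x h1 h2
  exact toks_mk hab hac had hbc hbd hcd (Finset.disjoint_left.2 d1) (Finset.disjoint_left.2 d2)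
    (Finset.disjoint_left.2 d3) (key a1) (key a2) (key a3) (key b1) (key b2) (key b3) (key c1) (key c2)
    (key c3) (key d4) (key d5) (key d6)

theorem Tri3.swap {v a s : Fin 3 → V} (h : Tri3 G P D1 D3 v a s) : Tri3 G P D3 D1 v s a :=
  ⟨h.iv, h.is, h.ia, h.mem, h.adj, h.ls, h.la⟩

/-- a contact at the `D1`-side -/
theorem Tri3.toks {v a s : Fin 3 → V} (h : Tri3 G P D1 D3 v a s) (h1 : Hub G D1) (h3 : Hub G D3)
    (d13 : Disjoint D1 D3) (dP1 : Disjoint P D1) (dP3 : Disjoint P D3) {i : Fin 3} {β : V} (hβ : β ∈ D3)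
    (e : G.Adj (a i) β) : HasTOKS G := by
  -- the index `j` with `s j ≠ β`
  have hj : ∃ j k : Fin 3, i ≠ j ∧ i ≠ k ∧ j ≠ k ∧ s j ≠ β := by
    obtain ⟨j, k, hij, hik, hjk⟩ := fin3_others i
    by_cases hs : s j = β
    · refine ⟨k, j, hik, hij, hjk.symm, ?_⟩
      rintro rfl
      exact hjk (h.is hs)
    · exact ⟨j, k, hij, hik, hjk, hs⟩
  obtain ⟨j, k, hij, hik, hjk, hsj⟩ := hj
  have haD : ∀ i, a i ∈ D1 := fun i => lab_sub (S := {v i}) (by rw [h.la]; exact Finset.mem_singleton_self _)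
  have hsD : ∀ i, s i ∈ D3 := fun i => lab_sub (S := {v i}) (by rw [h.ls]; exact Finset.mem_singleton_self _)
  have hva : ∀ i, G.Adj (v i) (a i) := fun i => by
    have : a i ∈ lab G D1 {v i} := by rw [h.la]; exact Finset.mem_singleton_self _
    obtain ⟨-, x, hx, e⟩ := mem_lab.1 this
    rw [Finset.mem_singleton] at hx
    exact hx ▸ e
  have hvs : ∀ i, G.Adj (v i) (s i) := fun i => by
    have : s i ∈ lab G D3 {v i} := by rw [h.ls]; exact Finset.mem_singleton_self _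
    obtain ⟨-, x, hx, e⟩ := mem_lab.1 this
    rw [Finset.mem_singleton] at hx
    exact hx ▸ e
  have hvP : ∀ i, v i ∈ P := fun i => (h.mem _).2 ⟨i, rfl⟩
  have hvD1 : ∀ i, v i ∉ D1 := fun i => Finset.disjoint_left.1 dP1 (hvP i)
  have hvD3 : ∀ i, v i ∉ D3 := fun i => Finset.disjoint_left.1 dP3 (hvP i)
  have hD13 : ∀ x ∈ D1, x ∉ D3 := fun x hx => Finset.disjoint_left.1 d13 hx
  obtain ⟨T1, hT1, p1⟩ := h1.par (haD i) (haD k) (fun h' => hik (h.ia h')) false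
  obtain ⟨T3, hT3, p3⟩ := h3.par hβ (hsD j) hsj.symm true
  have haT3 : a i ∉ T3 := fun h' => hD13 _ (haD i) (hT3 h')
  have q3 := p3.cons e haT3
  have hvj : v j ∉ insert (a i) T3 := by
    rw [Finset.mem_insert, not_or]
    exact ⟨fun h' => hvD1 j (h' ▸ haD i), fun h' => hvD3 j (hT3 h')⟩
  have q4 := (q3.symm.cons (hvs j) hvj).symm
  have hvk : v k ∉ T1 := fun h' => hvD1 k (hT1 h')
  have q1 := (p1.symm.cons (hva k) hvk).symm
  have n1 : v i ≠ v j := fun h' => hij (h.iv h')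
  have n2 : v i ≠ v k := fun h' => hik (h.iv h')
  have n3 : v j ≠ v k := fun h' => hjk (h.iv h')
  have n4 : ∀ m, a i ≠ v m := fun m h' => hvD1 m (h' ▸ haD i)
  have k1 := hvD1 i
  have k2 := hvD1 j
  have k3 := hvD1 k
  have k4 := hvD3 i
  have k5 := hvD3 j
  have k6 := hvD3 k
  have m1 := n4 i
  have m2 := n4 j
  have m3 := n4 k
  refine toks_el (a := a i) (b := v i) (c := v j) (d := v k) (PX.edge (hva i).symm) q4 q1
    (PX.edge (h.adj i j hij)) (PX.edge (h.adj i k hik)) (PX.edge (h.adj j k hjk)) ?_ ?_ ?_ ?_ ?_ ?_ ?_ ?_ ?_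
    ?_ ?_ ?_ ?_ ?_ ?_ <;>
  · intro x
    simp only [Finset.mem_insert, Finset.mem_singleton]
    have t1 := @hT1 x
    have t3 := @hT3 x
    have t5 := hD13 x
    grind

end Pool.Agent.TOKSN
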