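import Mathlib
import Pool.Agent.TOKSN.TriT
import Pool.Agent.TOKSN.ChiStep

/-!
# LINE N: the triangle type does not decrease the potential
-/

set_option autoImplicit false
set_option linter.unusedSectionVars false

namespace Pool.Agent.TOKSN

open Pool.Agent.TOKST (HasTOKS)
open Pool.Agent.TOKSP (nbh mem_nbh four_le_nbh)

variable {V : Type} [DecidableEq V] [Fintype V] {G : SimpleGraph V} {P D D1 D3 : Finset V}

theorem Tri3.lab_P {v a s : Fin 3 → V} (h : Tri3 G P D1 D3 v a s) : lab G D1 P = Finset.univ.image a := by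
  ext x
  rw [mem_lab, Finset.mem_image]
  constructor
  · rintro ⟨hx, y, hy, e⟩
    obtain ⟨i, rfl⟩ := (h.mem y).1 hy
    have : x ∈ lab G D1 {v i} := mem_lab.2 ⟨hx, _, Finset.mem_singleton_self _, e⟩
    rw [h.la, Finset.mem_singleton] at this
    exact ⟨i, Finset.mem_univ _, this.symm⟩
  · rintro ⟨i, -, rfl⟩
    have : a i ∈ lab G D1 {v i} := by rw [h.la]; exact Finset.mem_singleton_self _
    obtain ⟨h1, y, hy, e⟩ := mem_lab.1 this
    rw [Finset.mem_singleton] at hy
    subst hy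
    exact ⟨h1, _, (h.mem _).2 ⟨i, rfl⟩, e⟩

theorem Tri3.P_eq {v a s : Fin 3 → V} (h : Tri3 G P D1 D3 v a s) : P = Finset.univ.image v := by
  ext x
  rw [h.mem, Finset.mem_image]
  constructor
  · rintro ⟨i, rfl⟩
    exact ⟨i, Finset.mem_univ _, rfl⟩
  · rintro ⟨i, -, rfl⟩
    exact ⟨i, rfl⟩

theorem card_image_fin3 {f : Fin 3 → V} (hf : Function.Injective f) : (Finset.univ.image f).card = 3 := by
  rw [Finset.card_image_of_injective _ hf]
  rfl

/-- (T): the potential does not decrease -/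
theorem Tri3.chi {v a s : Fin 3 → V} (h : Tri3 G P D1 D3 v a s) (hT : ¬ HasTOKS G) (h1 : Hub G D1)
    (h3 : Hub G D3) (hP : Disjoint P D1) (hD3 : D3 = (D1 ∪ P)ᶜ) : chi G D1 ≤ chi G (D1 ∪ P) := by
  have m3 : ∀ x, x ∈ D3 ↔ x ∉ D1 ∧ x ∉ P := by
    intro x
    rw [hD3, Finset.mem_compl, Finset.mem_union, not_or]
  have d13 : Disjoint D1 D3 := Finset.disjoint_left.2 fun x hx hx' => ((m3 x).1 hx').1 hx
  have dP3 : Disjoint P D3 := Finset.disjoint_left.2 fun x hx hx' => ((m3 x).1 hx').2 hx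
  have nc1 : ∀ i, ∀ β ∈ D3, ¬ G.Adj (a i) β := fun i β hβ e => hT (h.toks h1 h3 d13 hP dP3 hβ e)
  have nc3 : ∀ i, ∀ β ∈ D1, ¬ G.Adj (s i) β := fun i β hβ e =>
    hT (h.swap.toks h3 h1 d13.symm dP3 hP hβ e)
  have hstep := chi_step_lab (G := G) hP hD3
  have e1 : lab G D1 P \ lab G D1 D3 = Finset.univ.image a := by
    rw [← h.lab_P]
    refine Finset.sdiff_eq_self_of_disjoint ?_
    rw [Finset.disjoint_left]
    intro x hx hx'
    rw [h.lab_P, Finset.mem_image] at hx
    obtain ⟨i, -, rfl⟩ := hx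
    obtain ⟨-, y, hy, e⟩ := mem_lab.1 hx'
    exact nc1 i y hy e.symm
  have e3 : lab G D3 P \ lab G D3 D1 = Finset.univ.image s := by
    rw [← h.swap.lab_P]
    refine Finset.sdiff_eq_self_of_disjoint ?_
    rw [Finset.disjoint_left]
    intro x hx hx'
    rw [h.swap.lab_P, Finset.mem_image] at hx
    obtain ⟨i, -, rfl⟩ := hx
    obtain ⟨-, y, hy, e⟩ := mem_lab.1 hx'
    exact nc3 i y hy e.symm
  have cP : P.card = 3 := by
    rw [h.P_eq]
    exact card_image_fin3 h.iv
  have p1 : (lab G P D1).card ≤ 3 := cP ▸ Finset.card_le_card lab_sub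
  have p3 : (lab G P D3).card ≤ 3 := cP ▸ Finset.card_le_card lab_sub
  have hdeg : ∀ x ∈ P, (0 : ℤ) ≤ 4 - (deg G x : ℤ) := by
    intro x hx
    obtain ⟨i, rfl⟩ := (h.mem x).1 hx
    have h4 := deg_eq_lab (G := G) (v i) hP dP3 d13 (fun x => by
      have := m3 x
      tauto)
    rw [h.la, h.ls, Finset.card_singleton, Finset.card_singleton] at h4
    have h5 : (lab G P {v i}).card ≤ 2 := by
      have h6 : lab G P {v i} ⊆ P.erase (v i) := by
        intro y hy
        obtain ⟨hyP, z, hz, e⟩ := mem_lab.1 hy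
        rw [Finset.mem_singleton] at hz
        subst hz
        exact Finset.mem_erase.2 ⟨e.ne', hyP⟩
      have h7 := Finset.card_le_card h6
      rw [Finset.card_erase_of_mem hx, cP] at h7
      exact h7
    omega
  have hsum : (0 : ℤ) ≤ ∑ x ∈ P, (4 - (deg G x : ℤ)) := Finset.sum_nonneg hdeg
  rw [e1, e3, card_image_fin3 h.ia, card_image_fin3 h.is] at hstep
  omega

end Pool.Agent.TOKSN
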