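import Mathlib
import Pool.Agent.TOKSN.TriChi
import Pool.Agent.TOKSN.Ctx
import Pool.Agent.TOKSN.Ear

/-!
# LINE N: the interface statement `chi_T`
-/

set_option autoImplicit false
set_option linter.unusedSectionVars false

namespace Pool.Agent.TOKSN

open Pool.Agent.TOKST (HasTOKS)
open Pool.Agent.TOKSP (nbh mem_nbh four_le_nbh)

variable {V : Type} [DecidableEq V] {G : SimpleGraph V} {P D D1 D3 : Finset V} {v a s : Fin 3 → V}

theorem Tri.tri3 (h : Tri G D1 P D3 v a s) : Tri3 G P D1 D3 v a s := by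
  refine ⟨h.v_inj, h.a_inj, h.s_inj, ?_, h.adj, ?_, ?_⟩
  · intro x
    rw [h.img]
    constructor
    · rintro ⟨i, hi⟩
      exact ⟨i, hi.symm⟩
    · rintro ⟨i, hi⟩
      exact ⟨i, hi.symm⟩
  · intro i
    ext x
    rw [mem_lab, Finset.mem_singleton]
    constructor
    · rintro ⟨hx, y, hy, e⟩
      rw [Finset.mem_singleton] at hy
      subst hy
      exact (h.adjA i x hx).1 e
    · rintro rfl
      exact ⟨h.a_mem i, v i, Finset.mem_singleton_self _, (h.adjA i _ (h.a_mem i)).2 rfl⟩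
  · intro i
    ext x
    rw [mem_lab, Finset.mem_singleton]
    constructor
    · rintro ⟨hx, y, hy, e⟩
      rw [Finset.mem_singleton] at hy
      subst hy
      exact (h.adjB i x hx).1 e
    · rintro rfl
      exact ⟨h.s_mem i, v i, Finset.mem_singleton_self _, (h.adjB i _ (h.s_mem i)).2 rfl⟩

theorem Tri3.tri (h : Tri3 G P D1 D3 v a s) : Tri G D1 P D3 v a s := by
  have ha : ∀ i, a i ∈ D1 := fun i => lab_sub (S := {v i}) (by rw [h.la]; exact Finset.mem_singleton_self _)
  have hs : ∀ i, s i ∈ D3 := fun i => lab_sub (S := {v i}) (by rw [h.ls]; exact Finset.mem_singleton_self _)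
  refine ⟨h.iv, h.ia, h.is, ?_, h.adj, ha, hs, ?_, ?_⟩
  · intro x
    rw [h.mem]
    constructor
    · rintro ⟨i, hi⟩
      exact ⟨i, hi.symm⟩
    · rintro ⟨i, hi⟩
      exact ⟨i, hi.symm⟩
  · intro i x hx
    have h1 : x ∈ lab G D1 {v i} ↔ x = a i := by rw [h.la, Finset.mem_singleton]
    rw [← h1, mem_lab]
    simp [hx]
  · intro i x hx
    have h1 : x ∈ lab G D3 {v i} ↔ x = s i := by rw [h.ls, Finset.mem_singleton]
    rw [← h1, mem_lab]
    simp [hx]

variable [Fintype V]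

/-- (T) -/
theorem chi_T (hg : Good G) (h1 : Mem G D1) (hD : Mem G D) (hs : D1 ⊆ D)
    (hE : Tri G D1 (D \ D1) Dᶜ v a s) : chi G D1 ≤ chi G D := by
  have hu : D1 ∪ (D \ D1) = D := Finset.union_sdiff_of_subset hs
  have h3 := hE.tri3.chi hg.nt h1.1 hD.2 Finset.sdiff_disjoint (by rw [hu])
  rwa [hu] at h3

end Pool.Agent.TOKSN
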