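import Mathlib
import Pool.Agent.TOKSN.Paths

/-!
# Paths as sequences of vertices
-/

set_option autoImplicit false
set_option linter.unusedSectionVars false

namespace Pool.Agent.TOKSN.CL

open Pool.Agent.TOKST (HasTOKS)
open Pool.Agent.TOKSP (nbh mem_nbh four_le_nbh)

variable {V : Type} [DecidableEq V] {G : SimpleGraph V} {S T : Finset V} {a b x : V} {k : Bool}
  {q : ℕ → V} {n i j l m : ℕ}

/-- a path given by its sequence of vertices `q 0, ..., q n` -/
structure Sq (G : SimpleGraph V) (q : ℕ → V) (n : ℕ) : Prop where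
  adj : ∀ i, i < n → G.Adj (q i) (q (i + 1))
  inj : ∀ i j, i ≤ n → j ≤ n → q i = q j → i = j

/-- the segment `q i, ..., q j` -/
def seg (q : ℕ → V) (i j : ℕ) : Finset V := (Finset.Icc i j).image q

theorem mem_seg : x ∈ seg q i j ↔ ∃ l, i ≤ l ∧ l ≤ j ∧ q l = x := by
  simp [seg, Finset.mem_image, and_assoc]

theorem seg_self : seg q i i = {q i} := by
  simp [seg]

theorem seg_succ (h : i ≤ j + 1) : seg q i (j + 1) = insert (q (j + 1)) (seg q i j) := by
  ext x
  rw [Finset.mem_insert, mem_seg, mem_seg]
  constructor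
  · rintro ⟨l, h1, h2, rfl⟩
    rcases Nat.lt_or_ge l (j + 1) with h3 | h3
    · exact Or.inr ⟨l, h1, by omega, rfl⟩
    · left
      congr 1
      omega
  · rintro (rfl | ⟨l, h1, h2, rfl⟩)
    · exact ⟨j + 1, h, le_rfl, rfl⟩
    · exact ⟨l, h1, by omega, rfl⟩

theorem Sq.mem (h : Sq G q n) (hl : l ≤ n) (hj : j ≤ n) : q l ∈ seg q i j ↔ i ≤ l ∧ l ≤ j := by
  rw [mem_seg]
  constructor
  · rintro ⟨m, h1, h2, h3⟩
    have := h.inj m l (by omega) hl h3
    subst this
    exact ⟨h1, h2⟩
  · rintro ⟨h1, h2⟩
    exact ⟨l, h1, h2, rfl⟩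

theorem seg_sub (h1 : i ≤ l) (h2 : m ≤ j) : seg q l m ⊆ seg q i j := by
  intro x hx
  rw [mem_seg] at hx ⊢
  obtain ⟨t, h3, h4, rfl⟩ := hx
  exact ⟨t, by omega, by omega, rfl⟩

theorem Sq.px (h : Sq G q n) (hij : i ≤ j) (hj : j ≤ n) :
    PX G (seg q i j) (q i) (q j) (decide (Odd (j - i))) := by
  induction j, hij using Nat.le_induction with
  | base =>
    rw [seg_self]
    simpa using PX.refl G (q i)
  | succ j hij ih =>
    have h1 := ih (by omega)
    have h2 := PX.edge (h.adj j (by omega))
    have h3 := h1.concat h2 (by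
      intro x hx hx'
      rw [Finset.mem_insert, Finset.mem_singleton] at hx'
      rcases hx' with rfl | rfl
      · rfl
      · exfalso
        have := (h.mem hj (by omega)).1 hx
        omega)
    have e1 : seg q i j ∪ {q j, q (j + 1)} = seg q i (j + 1) := by
      rw [seg_succ (by omega)]
      ext x
      rw [Finset.mem_union, Finset.mem_insert, Finset.mem_insert, Finset.mem_singleton]
      constructor
      · rintro (h4 | rfl | rfl)
        · exact Or.inr h4
        · exact Or.inr (mem_seg.2 ⟨j, hij, le_rfl, rfl⟩)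
        · exact Or.inl rfl
      · rintro (rfl | h4)
        · exact Or.inr (Or.inr rfl)
        · exact Or.inl h4
    have e2 : (decide (Odd (j - i)) ^^ true) = decide (Odd (j + 1 - i)) := by
      rw [Nat.sub_add_comm hij]
      by_cases ho : Odd (j - i)
      · have : ¬ Odd (j - i + 1) := by
          rw [Nat.not_odd_iff_even]
          exact ho.add_one
        simp [ho, this]
      · have : Odd (j - i + 1) := by
          rw [Nat.not_odd_iff_even] at ho
          exact ho.add_one
        simp [ho, this]
    rw [e1, e2] at h3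
    exact h3

theorem px_sq (h : PX G T a b k) :
    ∃ q n, Sq G q n ∧ q 0 = a ∧ q n = b ∧ T = seg q 0 n ∧ k = decide (Odd n) := by
  obtain ⟨p, hp, rfl, hk⟩ := h
  refine ⟨p.getVert, p.length, ⟨fun i hi => p.adj_getVert_succ hi, ?_⟩, p.getVert_zero, p.getVert_length, ?_, ?_⟩
  · intro i j hi hj hij
    exact hp.getVert_injOn (by simpa using hi) (by simpa using hj) hij
  · ext x
    rw [List.mem_toFinset, mem_seg, SimpleGraph.Walk.mem_support_iff_exists_getVert]
    constructor
    · rintro ⟨l, h1, h2⟩
      exact ⟨l, Nat.zero_le _, h2, h1⟩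
    · rintro ⟨l, _, h2, h1⟩
      exact ⟨l, h1, h2⟩
  · cases k
    · simpa using hk
    · simpa using hk

/-- the parity of a path is determined by its vertex set -/
theorem px_par (h : PX G T a b k) : k = decide (Even T.card) := by
  obtain ⟨p, hp, rfl, hk⟩ := h
  have h1 : p.support.toFinset.card = p.length + 1 := by
    rw [List.toFinset_card_of_nodup hp.support_nodup, SimpleGraph.Walk.length_support]
  rw [h1]
  cases k
  · have : ¬ Odd p.length := by simpa using hk
    have h2 : ¬ Even (p.length + 1) := by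
      rw [Nat.even_add_one, not_not]
      exact Nat.not_odd_iff_even.1 this
    simp [h2]
  · have : Odd p.length := by simpa using hk
    simp [this.add_one]

end Pool.Agent.TOKSN.CL
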