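import Mathlib
import Pool.Agent.TOKSN.Sq

/-!
# The basic lemma on a path next to a terminal

`K` with terminals `v, v', s'` and a set `S` (counted as one terminal): a `v`-`v'`-path through `K` such that
everything else is connected to `s'`.
-/

set_option autoImplicit false
set_option linter.unusedSectionVars false

namespace Pool.Agent.TOKSN.CL

open Pool.Agent.TOKST (HasTOKS)
open Pool.Agent.TOKSP (nbh mem_nbh four_le_nbh)

variable {V : Type} [Fintype V] [DecidableEq V] {G : SimpleGraph V}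

/-- The conclusion of the basic lemma: `q` is a `v`-`v'`-path through `K`, `W` the component of `s'` off the path. -/
structure BLK (G : SimpleGraph V) (K S : Finset V) (v v' s' : V) (q : ℕ → V) (n : ℕ) (W : Finset V) : Prop where
  sq : Sq G q n
  z : q 0 = v
  e : q n = v'
  two : 2 ≤ n
  inK : ∀ i, 0 < i → i < n → q i ∈ K
  conn : Conn G W
  s'W : s' ∈ W
  sub : W ⊆ insert s' K
  off : ∀ i, i ≤ n → q i ∉ W
  att : ∀ i, 0 < i → i < n → ∃ w ∈ W, G.Adj (q i) w
  cov : ∀ y ∈ K, y ∈ W ∨ ∃ i, 0 < i ∧ i < n ∧ q i = y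
  nS : ∀ w ∈ W, w ∈ K → ∀ t ∈ S, ¬ G.Adj t w
  ind : ∀ i j, i + 2 ≤ j → j ≤ n → (0 < i ∨ j < n) → ¬ G.Adj (q i) (q j)

theorem px_in_conn {X : Finset V} (h : Conn G X) {a b : V} (ha : a ∈ X) (hb : b ∈ X) :
    ∃ P k, P ⊆ X ∧ PX G P a b k := by
  obtain ⟨k, P, hP, h1⟩ := h.2 a ha b hb
  exact ⟨P, k, hP, h1⟩

/-- a path between two outside vertices through a connected set -/
theorem px_through {X : Finset V} (h : Conn G X) {a b u u' : V} (ha : a ∉ X) (hb : b ∉ X) (hab : a ≠ b)
    (hu : u ∈ X) (hu' : u' ∈ X) (e : G.Adj a u) (e' : G.Adj b u') :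
    ∃ R r, PX G R a b r ∧ R ⊆ insert a (insert b X) ∧ (R ∩ X).Nonempty := by
  obtain ⟨P, k, hP, h1⟩ := px_in_conn h hu hu'
  have h2 := PX.concat_disj (PX.refl G a) e h1 (by
    rw [Finset.disjoint_singleton_left]
    exact fun h => ha (hP h))
  have h3 := PX.concat_disj h2 e'.symm (PX.refl G b) (by
    rw [Finset.disjoint_singleton_right, Finset.mem_union, Finset.mem_singleton, not_or]
    exact ⟨hab.symm, fun h => hb (hP h)⟩)
  refine ⟨_, _, h3, ?_, ⟨u, ?_⟩⟩
  · intro x hx
    simp only [Finset.mem_union, Finset.mem_singleton, Finset.mem_insert] at hx ⊢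
    rcases hx with (h | h) | h
    · exact Or.inl h
    · exact Or.inr (Or.inr (hP h))
    · exact Or.inr (Or.inl h)
  · simp only [Finset.mem_inter, Finset.mem_union]
    exact ⟨Or.inl (Or.inr h1.left_mem), hu⟩

theorem blk {K S : Finset V} {v v' s' : V} (hvv : v ≠ v') (hvK : v ∉ K) (hv'K : v' ∉ K) (hs'K : s' ∉ K)
    (hsv : s' ≠ v) (hsv' : s' ≠ v') (hK : K.Nonempty) (hnb : nbh G K \ S ⊆ {v, v', s'})
    (h3 : ∀ Y ⊆ K, Y.Nonempty → 3 ≤ (nbh G Y \ S).card)
    (hlk : ∀ T k, PX G T v v' k → T ⊆ insert v (insert v' K) → (T ∩ K).Nonempty →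
      ∀ w ∈ K, w ∈ cmp G (insert s' (K \ T)) s' → ∀ t ∈ S, ¬ G.Adj t w) :
    ∃ q n W, BLK G K S v v' s' q n W := by
  classical
  -- neighbours of subsets of K
  have hnbY : ∀ Y ⊆ K, ∀ y ∈ nbh G Y, y ∉ S → y ∈ K ∨ y = v ∨ y = v' ∨ y = s' := by
    intro Y hY y hy hyS
    by_cases hyK : y ∈ K
    · exact Or.inl hyK
    · right
      obtain ⟨h1, u, hu, hadj⟩ := mem_nbh.1 hy
      have h2 : y ∈ nbh G K \ S := Finset.mem_sdiff.2 ⟨mem_nbh.2 ⟨hyK, u, hY hu, hadj⟩, hyS⟩
      have h3 := hnb h2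
      simpa using h3
  -- candidates
  set C : Finset (Finset V) := (insert v (insert v' K)).powerset.filter
    (fun T => (∃ k, PX G T v v' k) ∧ (T ∩ K).Nonempty) with hC
  have hCne : C.Nonempty := by
    obtain ⟨y0, hy0⟩ := hK
    set X := cmp G K y0 with hX
    have hXK : X ⊆ K := cmp_sub
    have hy0X : y0 ∈ X := mem_cmp.2 ⟨hy0, JN.refl hy0⟩
    have hXc : Conn G X := cmp_conn hy0
    have hsub : nbh G X \ S ⊆ {v, v', s'} := by
      intro y hy
      rw [Finset.mem_sdiff] at hy
      rcases hnbY X hXK y hy.1 hy.2 with h1 | h1 | h1 | h1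
      · exfalso
        obtain ⟨h2, u, hu, hadj⟩ := mem_nbh.1 hy.1
        exact h2 (cmp_closed hu h1 hadj)
      · simp [h1]
      · simp [h1]
      · simp [h1]
    have hcard : ({v, v', s'} : Finset V).card ≤ (nbh G X \ S).card := by
      refine le_trans ?_ (h3 X hXK ⟨y0, hy0X⟩)
      exact Finset.card_le_three
    have heq := Finset.eq_of_subset_of_card_le hsub hcard
    have hv1 : v ∈ nbh G X \ S := by rw [heq]; simp
    have hv2 : v' ∈ nbh G X \ S := by rw [heq]; simp
    obtain ⟨_, u, hu, hadj⟩ := mem_nbh.1 (Finset.mem_sdiff.1 hv1).1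
    obtain ⟨_, u', hu', hadj'⟩ := mem_nbh.1 (Finset.mem_sdiff.1 hv2).1
    obtain ⟨R, r, hR, hRs, hRn⟩ := px_through hXc (fun h => hvK (hXK h)) (fun h => hv'K (hXK h)) hvv hu hu'
      hadj.symm hadj'.symm
    refine ⟨R, ?_⟩
    rw [hC, Finset.mem_filter, Finset.mem_powerset]
    refine ⟨hRs.trans (Finset.insert_subset_insert _ (Finset.insert_subset_insert _ hXK)), ⟨r, hR⟩, ?_⟩
    exact hRn.mono (Finset.inter_subset_inter_left hXK)
  obtain ⟨T, hTC, hmax⟩ := Finset.exists_max_image C (fun T => (cmp G (insert s' (K \ T)) s').card) hCne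
  rw [hC, Finset.mem_filter, Finset.mem_powerset] at hTC
  obtain ⟨hTs, ⟨k, hT⟩, hTK⟩ := hTC
  obtain ⟨q, n, hq, hq0, hqn, hTq, hkn⟩ := px_sq hT
  set W := cmp G (insert s' (K \ T)) s' with hW
  have hs'ins : s' ∈ insert s' (K \ T) := Finset.mem_insert_self _ _
  have hWconn : Conn G W := cmp_conn hs'ins
  have hs'W : s' ∈ W := mem_cmp.2 ⟨hs'ins, JN.refl hs'ins⟩
  have hWsub : W ⊆ insert s' (K \ T) := cmp_sub
  have hWsub' : W ⊆ insert s' K := hWsub.trans (Finset.insert_subset_insert _ Finset.sdiff_subset)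
  have hTmem : ∀ i, i ≤ n → q i ∈ T := by
    intro i hi
    rw [hTq]
    exact mem_seg.2 ⟨i, Nat.zero_le _, hi, rfl⟩
  have hTmem' : ∀ x ∈ T, ∃ i, i ≤ n ∧ q i = x := by
    intro x hx
    rw [hTq] at hx
    obtain ⟨l, _, h2, h3⟩ := mem_seg.1 hx
    exact ⟨l, h2, h3⟩
  have hinK : ∀ i, 0 < i → i < n → q i ∈ K := by
    intro i hi hin
    have h1 := hTs (hTmem i hin.le)
    rw [Finset.mem_insert, Finset.mem_insert] at h1
    rcases h1 with h1 | h1 | h1
    · exfalso
      have := hq.inj i 0 hin.le (Nat.zero_le _) (by rw [h1, hq0])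
      omega
    · exfalso
      have := hq.inj i n hin.le le_rfl (by rw [h1, hqn])
      omega
    · exact h1
  have hn2 : 2 ≤ n := by
    by_contra hlt
    obtain ⟨x, hx⟩ := hTK
    rw [Finset.mem_inter] at hx
    obtain ⟨i, hi, rfl⟩ := hTmem' x hx.1
    have : i = 0 ∨ i = n := by omega
    rcases this with rfl | rfl
    · rw [hq0] at hx
      exact hvK hx.2
    · rw [hqn] at hx
      exact hv'K hx.2
  have hs'T : s' ∉ T := by
    intro h
    obtain ⟨i, hi, h1⟩ := hTmem' s' h
    rcases Nat.eq_zero_or_pos i with rfl | hpos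
    · exact hsv (by rw [← h1, hq0])
    · rcases Nat.lt_or_ge i n with h2 | h2
      · exact hs'K (h1 ▸ hinK i hpos h2)
      · have : i = n := by omega
        subst this
        exact hsv' (by rw [← h1, hqn])
  have hoff : ∀ i, i ≤ n → q i ∉ W := by
    intro i hi h
    have h1 := hWsub h
    rw [Finset.mem_insert, Finset.mem_sdiff] at h1
    rcases h1 with h1 | h1
    · exact hs'T (h1 ▸ hTmem i hi)
    · exact h1.2 (hTmem i hi)
  -- the other vertices
  set Z : Finset V := (K \ T) \ W with hZ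
  have hZK : Z ⊆ K := Finset.sdiff_subset.trans Finset.sdiff_subset
  have hZT : ∀ x ∈ Z, x ∉ T := fun x hx => (Finset.mem_sdiff.1 (Finset.mem_sdiff.1 hx).1).2
  have hZW : ∀ x ∈ Z, x ∉ W := fun x hx => (Finset.mem_sdiff.1 hx).2
  have hZadj : ∀ x ∈ Z, ∀ w ∈ W, ¬ G.Adj x w := by
    intro x hx w hw hadj
    apply hZW x hx
    exact cmp_closed hw (Finset.mem_insert_of_mem (Finset.mem_sdiff.1 hx).1) hadj.symm
  -- the ear argument
  have hear : ∀ i j, i < j → j ≤ n → ∀ R r, PX G R (q i) (q j) r → R ⊆ insert (q i) (insert (q j) Z) →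
      ((seg q 0 i ∪ R ∪ seg q j n) ∩ K).Nonempty → ∀ l, i < l → l < j → ¬ ∃ w ∈ W, G.Adj (q l) w := by
    intro i j hij hjn R r hR hRs hne l hil hlj ⟨w, hw, hadj⟩
    have h1 : PX G (seg q 0 i) (q 0) (q i) _ := hq.px (Nat.zero_le i) (by omega)
    have h2 : PX G (seg q j n) (q j) (q n) _ := hq.px hjn le_rfl
    have h12 := h1.concat hR (by
      intro x hx hx'
      obtain ⟨t, _, ht, rfl⟩ := mem_seg.1 hx
      have h3 := hRs hx'
      rw [Finset.mem_insert, Finset.mem_insert] at h3
      rcases h3 with h3 | h3 | h3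
      · exact h3
      · exfalso
        have := hq.inj t j (by omega) (by omega) h3
        omega
      · exact absurd (hTmem t (by omega)) (hZT _ h3))
    have h123 := h12.concat h2 (by
      intro x hx hx'
      obtain ⟨t, ht, ht', rfl⟩ := mem_seg.1 hx'
      rw [Finset.mem_union] at hx
      rcases hx with hx | hx
      · exfalso
        have := (hq.mem ht' (by omega : i ≤ n)).1 hx
        omega
      · have h3 := hRs hx
        rw [Finset.mem_insert, Finset.mem_insert] at h3
        rcases h3 with h3 | h3 | h3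
        · exfalso
          have := hq.inj t i (by omega) (by omega) h3
          omega
        · exact h3
        · exact absurd (hTmem t (by omega)) (hZT _ h3))
    rw [hq0, hqn] at h123
    set T' := seg q 0 i ∪ R ∪ seg q j n with hT'
    have hqlT' : q l ∉ T' := by
      rw [hT', Finset.mem_union, Finset.mem_union, not_or, not_or]
      refine ⟨⟨?_, ?_⟩, ?_⟩
      · rw [hq.mem (by omega) (by omega)]
        omega
      · intro h
        have h3 := hRs h
        rw [Finset.mem_insert, Finset.mem_insert] at h3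
        rcases h3 with h3 | h3 | h3
        · have := hq.inj l i (by omega) (by omega) h3
          omega
        · have := hq.inj l j (by omega) (by omega) h3
          omega
        · exact hZT _ h3 (hTmem l (by omega))
      · rw [hq.mem (by omega) le_rfl]
        omega
    have hWT' : ∀ x ∈ W, x ∉ T' := by
      intro x hx h
      rw [hT', Finset.mem_union, Finset.mem_union] at h
      rcases h with (h | h) | h
      · obtain ⟨t, _, ht, rfl⟩ := mem_seg.1 h
        exact hoff t (by omega) hx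
      · have h3 := hRs h
        rw [Finset.mem_insert, Finset.mem_insert] at h3
        rcases h3 with h3 | h3 | h3
        · exact hoff i (by omega) (h3 ▸ hx)
        · exact hoff j (by omega) (h3 ▸ hx)
        · exact hZW _ h3 hx
      · obtain ⟨t, _, ht, rfl⟩ := mem_seg.1 h
        exact hoff t (by omega) hx
    have hT'C : T' ∈ C := by
      rw [hC, Finset.mem_filter, Finset.mem_powerset]
      refine ⟨?_, ⟨_, h123⟩, hne⟩
      intro x hx
      rw [hT', Finset.mem_union, Finset.mem_union] at hx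
      rcases hx with (h | h) | h
      · obtain ⟨t, _, ht, rfl⟩ := mem_seg.1 h
        exact hTs (hTmem t (by omega))
      · have h3 := hRs h
        rw [Finset.mem_insert, Finset.mem_insert] at h3
        rcases h3 with h3 | h3 | h3
        · exact h3 ▸ hTs (hTmem i (by omega))
        · exact h3 ▸ hTs (hTmem j (by omega))
        · exact Finset.mem_insert_of_mem (Finset.mem_insert_of_mem (hZK h3))
      · obtain ⟨t, _, ht, rfl⟩ := mem_seg.1 h
        exact hTs (hTmem t (by omega))
    have h4 := hmax T' hT'C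
    have hsubW : insert (q l) W ⊆ cmp G (insert s' (K \ T')) s' := by
      have hWin : W ⊆ insert s' (K \ T') := by
        intro x hx
        rw [Finset.mem_insert, Finset.mem_sdiff]
        rcases Finset.mem_insert.1 (hWsub' hx) with h5 | h5
        · exact Or.inl h5
        · exact Or.inr ⟨h5, hWT' x hx⟩
      have hWin' : W ⊆ cmp G (insert s' (K \ T')) s' := by
        intro x hx
        exact mem_cmp.2 ⟨hWin hx, (hWconn.2 s' hs'W x hx).mono hWin⟩
      intro x hx
      rw [Finset.mem_insert] at hx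
      rcases hx with rfl | hx
      · refine cmp_closed (hWin' hw) (Finset.mem_insert_of_mem (Finset.mem_sdiff.2 ⟨hinK l (by omega) (by omega), hqlT'⟩)) hadj.symm
      · exact hWin' hx
    have h5 := Finset.card_le_card hsubW
    rw [Finset.card_insert_of_notMem (hoff l (by omega))] at h5
    omega
  -- (i) every inner vertex is attached to W
  have hatt : ∀ z, 0 < z → z < n → ∃ w ∈ W, G.Adj (q z) w := by
    intro z hz0 hzn
    by_contra hzA
    -- a and b
    obtain ⟨a, ha1, ha2, ha3⟩ : ∃ a, a < z ∧ (a = 0 ∨ ∃ w ∈ W, G.Adj (q a) w) ∧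
        ∀ t, a < t → t < z → ¬ ∃ w ∈ W, G.Adj (q t) w := by
      have hex : ∃ d, d ≤ z - 1 ∧ ((z - 1 - d) = 0 ∨ ∃ w ∈ W, G.Adj (q (z - 1 - d)) w) :=
        ⟨z - 1, le_rfl, Or.inl (by omega)⟩
      have hs := Nat.find_spec hex
      have hm := fun m (hm : m < Nat.find hex) => Nat.find_min hex hm
      refine ⟨z - 1 - Nat.find hex, by omega, hs.2, ?_⟩
      intro t ht1 ht2 hA
      have h1 := hm (z - 1 - t) (by omega)
      apply h1
      have : z - 1 - (z - 1 - t) = t := by omega
      rw [this]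
      exact ⟨by omega, Or.inr hA⟩
    obtain ⟨b, hb1, hb0, hb2, hb3⟩ : ∃ b, z < b ∧ b ≤ n ∧ (b = n ∨ ∃ w ∈ W, G.Adj (q b) w) ∧
        ∀ t, z < t → t < b → ¬ ∃ w ∈ W, G.Adj (q t) w := by
      have hex : ∃ d, z < d ∧ d ≤ n ∧ (d = n ∨ ∃ w ∈ W, G.Adj (q d) w) := ⟨n, hzn, le_rfl, Or.inl rfl⟩
      have hs := Nat.find_spec hex
      have hm := fun m (hm : m < Nat.find hex) => Nat.find_min hex hm
      refine ⟨Nat.find hex, hs.1, hs.2.1, hs.2.2, ?_⟩
      intro t ht1 ht2 hA
      exact hm t ht2 ⟨ht1, by omega, Or.inr hA⟩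
    have hnA : ∀ t, a < t → t < b → ¬ ∃ w ∈ W, G.Adj (q t) w := by
      intro t h1 h2
      rcases Nat.lt_trichotomy t z with h3 | h3 | h3
      · exact ha3 t h1 h3
      · subst h3
        exact hzA
      · exact hb3 t h3 h2
    set I : Finset V := (Finset.Ioo a b).image q with hI
    have hImem : ∀ x, x ∈ I ↔ ∃ t, a < t ∧ t < b ∧ q t = x := by
      intro x
      simp [hI, and_assoc]
    have hIK : I ⊆ K := by
      intro x hx
      obtain ⟨t, h1, h2, rfl⟩ := (hImem x).1 hx
      exact hinK t (by omega) (by omega)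
    have hzI : q z ∈ I := (hImem _).2 ⟨z, ha1, hb1, rfl⟩
    set U := cmp G (Z ∪ I) (q z) with hU
    have hzZI : q z ∈ Z ∪ I := Finset.mem_union_right _ hzI
    have hUsub : U ⊆ Z ∪ I := cmp_sub
    have hUK : U ⊆ K := hUsub.trans (Finset.union_subset hZK hIK)
    have hUconn : Conn G U := cmp_conn hzZI
    have hzU : q z ∈ U := mem_cmp.2 ⟨hzZI, JN.refl hzZI⟩
    have hUW : ∀ u ∈ U, ∀ w ∈ W, ¬ G.Adj u w := by
      intro u hu w hw hadj
      rcases Finset.mem_union.1 (hUsub hu) with h1 | h1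
      · exact hZadj u h1 w hw hadj
      · obtain ⟨t, h2, h3, rfl⟩ := (hImem u).1 h1
        exact hnA t h2 h3 ⟨w, hw, hadj⟩
    -- an ear from y to I
    have hfirst : ∀ y, y ∉ Z ∪ I → ∀ u ∈ U, G.Adj y u → ∃ m R r, a < m ∧ m < b ∧ PX G R y (q m) r ∧
        R ⊆ insert y (insert (q m) Z) := by
      intro y hy u hu hadj
      obtain ⟨P, kP, hPU, hP⟩ := px_in_conn hUconn hu hzU
      obtain ⟨x, T1, T2, k1, k2, hT1, hT2, hun, hin, hk12, hxI, hxu⟩ :=
        hP.first (B := I) ⟨q z, hP.right_mem, hzI⟩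
      obtain ⟨m, hm1, hm2, hm3⟩ := (hImem x).1 hxI
      have hT1sub : T1 ⊆ insert (q m) Z := by
        intro t ht
        have h1 : t ∈ Z ∪ I := hUsub (hPU (hun ▸ Finset.mem_union_left _ ht))
        rcases Finset.mem_union.1 h1 with h2 | h2
        · exact Finset.mem_insert_of_mem h2
        · rw [hxu t ht h2, hm3]
          exact Finset.mem_insert_self _ _
      have hyT1 : y ∉ T1 := by
        intro h
        have h1 := hT1sub h
        rw [Finset.mem_insert] at h1
        rcases h1 with h1 | h1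
        · exact hy (Finset.mem_union_right _ ((hImem y).2 ⟨m, hm1, hm2, h1.symm⟩))
        · exact hy (Finset.mem_union_left _ h1)
      subst hm3
      exact ⟨m, insert y T1, _, hm1, hm2, PX.cons hadj hT1 hyT1, Finset.insert_subset_insert _ hT1sub⟩
    have hsub : nbh G U \ S ⊆ {q a, q b} := by
      intro y hy
      rw [Finset.mem_sdiff] at hy
      obtain ⟨hyU, u, hu, hadj⟩ := mem_nbh.1 hy.1
      have hyZI : y ∉ Z ∪ I := fun h => hyU (cmp_closed hu h hadj)
      have hyT : y ∈ T := by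
        by_contra hyT
        rcases hnbY U hUK y hy.1 hy.2 with h1 | h1 | h1 | h1
        · by_cases hyW : y ∈ W
          · exact hUW u hu y hyW hadj
          · exact hyZI (Finset.mem_union_left _ (Finset.mem_sdiff.2 ⟨Finset.mem_sdiff.2 ⟨h1, hyT⟩, hyW⟩))
        · exact hyT (by rw [h1, ← hq0]; exact hTmem 0 (Nat.zero_le _))
        · exact hyT (by rw [h1, ← hqn]; exact hTmem n le_rfl)
        · exact hUW u hu y (h1 ▸ hs'W) hadj
      obtain ⟨l, hl, rfl⟩ := hTmem' y hyT
      obtain ⟨m, R, r, hm1, hm2, hR, hRs⟩ := hfirst (q l) hyZI u hu hadj.symm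
      have hlI : ¬ (a < l ∧ l < b) := fun h => hyZI (Finset.mem_union_right _ ((hImem _).2 ⟨l, h.1, h.2, rfl⟩))
      rw [Finset.mem_insert, Finset.mem_singleton]
      rcases Nat.lt_trichotomy l a with h1 | h1 | h1
      · exfalso
        have hA : ∃ w ∈ W, G.Adj (q a) w := by
          rcases ha2 with h2 | h2
          · omega
          · exact h2
        refine hear l m (by omega) (by omega) R r hR hRs ⟨q m, ?_⟩ a h1 hm1 hA
        rw [Finset.mem_inter, Finset.mem_union, Finset.mem_union]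
        exact ⟨Or.inl (Or.inr hR.right_mem), hinK m (by omega) (by omega)⟩
      · left
        rw [h1]
      · rcases Nat.lt_trichotomy l b with h2 | h2 | h2
        · exact absurd ⟨h1, h2⟩ hlI
        · right
          rw [h2]
        · exfalso
          have hA : ∃ w ∈ W, G.Adj (q b) w := by
            rcases hb2 with h3 | h3
            · omega
            · exact h3
          refine hear m l (by omega) hl R r hR.symm ?_ ⟨q m, ?_⟩ b hm2 h2 hA
          · rw [Finset.insert_comm]
            exact hRs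
          · rw [Finset.mem_inter, Finset.mem_union, Finset.mem_union]
            exact ⟨Or.inl (Or.inr hR.right_mem), hinK m (by omega) (by omega)⟩
    have h1 := h3 U hUK ⟨_, hzU⟩
    have h2 := Finset.card_le_card hsub
    have h4 : ({q a, q b} : Finset V).card ≤ 2 := Finset.card_le_two
    omega
  -- (ii) everything else is in W
  have hcov : ∀ y ∈ K, y ∉ T → y ∈ W := by
    intro y hyK hyT
    by_contra hyW
    have hyZ : y ∈ Z := Finset.mem_sdiff.2 ⟨Finset.mem_sdiff.2 ⟨hyK, hyT⟩, hyW⟩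
    set U := cmp G Z y with hU
    have hUsub : U ⊆ Z := cmp_sub
    have hUconn : Conn G U := cmp_conn hyZ
    have hyU : y ∈ U := mem_cmp.2 ⟨hyZ, JN.refl hyZ⟩
    have hT1 : ∀ x ∈ nbh G U \ S, ∃ l, l ≤ n ∧ q l = x := by
      intro x hx
      rw [Finset.mem_sdiff] at hx
      obtain ⟨hxU, u, hu, hadj⟩ := mem_nbh.1 hx.1
      apply hTmem'
      by_contra hxT
      rcases hnbY U (hUsub.trans hZK) x hx.1 hx.2 with h1 | h1 | h1 | h1
      · by_cases hxW : x ∈ W
        · exact hZadj u (hUsub hu) x hxW hadj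
        · exact hxU (cmp_closed hu (Finset.mem_sdiff.2 ⟨Finset.mem_sdiff.2 ⟨h1, hxT⟩, hxW⟩) hadj)
      · exact hxT (by rw [h1, ← hq0]; exact hTmem 0 (Nat.zero_le _))
      · exact hxT (by rw [h1, ← hqn]; exact hTmem n le_rfl)
      · exact hZadj u (hUsub hu) x (h1 ▸ hs'W) hadj
    have hT2 : ∀ l l', l < l' → l' ≤ n → q l ∈ nbh G U → q l' ∈ nbh G U → l' = l + 1 := by
      intro l l' hll hl' h1 h2
      by_contra hne
      obtain ⟨h11, u, hu, hadj⟩ := mem_nbh.1 h1
      obtain ⟨h21, u', hu', hadj'⟩ := mem_nbh.1 h2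
      obtain ⟨R, r, hR, hRs, hRn⟩ := px_through hUconn h11 h21
        (fun h => by have := hq.inj l l' (by omega) hl' h; omega) hu hu' hadj.symm hadj'.symm
      refine hear l l' hll hl' R r hR (hRs.trans (Finset.insert_subset_insert _ (Finset.insert_subset_insert _ hUsub)))
        ?_ (l + 1) (by omega) (by omega) (hatt (l + 1) (by omega) (by omega))
      obtain ⟨x, hx⟩ := hRn
      rw [Finset.mem_inter] at hx
      refine ⟨x, ?_⟩
      rw [Finset.mem_inter, Finset.mem_union, Finset.mem_union]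
      exact ⟨Or.inl (Or.inr hx.1), hZK (hUsub hx.2)⟩
    have h1 := h3 U (hUsub.trans hZK) ⟨y, hyU⟩
    obtain ⟨x1, hx1, x2, hx2, x3, hx3, h12, h13, h23⟩ : ∃ x1 ∈ nbh G U \ S, ∃ x2 ∈ nbh G U \ S, ∃ x3 ∈ nbh G U \ S,
        x1 ≠ x2 ∧ x1 ≠ x3 ∧ x2 ≠ x3 := by
      obtain ⟨x1, hx1, x2, hx2, x3, hx3, h12, h13, h23⟩ := (Finset.two_lt_card (s := nbh G U \ S)).1 (by omega)
      exact ⟨x1, hx1, x2, hx2, x3, hx3, h12, h13, h23⟩
    obtain ⟨l1, hl1, rfl⟩ := hT1 x1 hx1
    obtain ⟨l2, hl2, rfl⟩ := hT1 x2 hx2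
    obtain ⟨l3, hl3, rfl⟩ := hT1 x3 hx3
    have e1 := (Finset.mem_sdiff.1 hx1).1
    have e2 := (Finset.mem_sdiff.1 hx2).1
    have e3 := (Finset.mem_sdiff.1 hx3).1
    have n12 : l1 ≠ l2 := fun h => h12 (by rw [h])
    have n13 : l1 ≠ l3 := fun h => h13 (by rw [h])
    have n23 : l2 ≠ l3 := fun h => h23 (by rw [h])
    have c12 : l1 < l2 → l2 = l1 + 1 := fun h => hT2 l1 l2 h hl2 e1 e2
    have c21 : l2 < l1 → l1 = l2 + 1 := fun h => hT2 l2 l1 h hl1 e2 e1
    have c13 : l1 < l3 → l3 = l1 + 1 := fun h => hT2 l1 l3 h hl3 e1 e3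
    have c31 : l3 < l1 → l1 = l3 + 1 := fun h => hT2 l3 l1 h hl1 e3 e1
    have c23 : l2 < l3 → l3 = l2 + 1 := fun h => hT2 l2 l3 h hl3 e2 e3
    have c32 : l3 < l2 → l2 = l3 + 1 := fun h => hT2 l3 l2 h hl2 e3 e2
    omega
  refine ⟨q, n, W, hq, hq0, hqn, hn2, hinK, hWconn, hs'W, hWsub', hoff, hatt, ?_, ?_, ?_⟩
  · intro y hy
    by_cases hyT : y ∈ T
    · right
      obtain ⟨i, hi, rfl⟩ := hTmem' y hyT
      refine ⟨i, ?_, ?_, rfl⟩
      · rcases Nat.eq_zero_or_pos i with h1 | h1
        · rw [h1, hq0] at hy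
          exact absurd hy hvK
        · exact h1
      · rcases Nat.lt_or_ge i n with h1 | h1
        · exact h1
        · have : i = n := by omega
          rw [this, hqn] at hy
          exact absurd hy hv'K
    · exact Or.inl (hcov y hy hyT)
  · intro w hw hwK t ht
    exact hlk T k hT hTs hTK w hwK hw t ht
  · intro i j hij hjn hor hadj
    refine hear i j (by omega) hjn {q i, q j} true (PX.edge hadj) ?_ ?_ (i + 1) (by omega) (by omega)
      (hatt (i + 1) (by omega) (by omega))
    · intro x hx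
      rw [Finset.mem_insert, Finset.mem_singleton] at hx
      rcases hx with rfl | rfl
      · exact Finset.mem_insert_self _ _
      · exact Finset.mem_insert_of_mem (Finset.mem_insert_self _ _)
    · rcases hor with h | h
      · refine ⟨q i, ?_⟩
        rw [Finset.mem_inter]
        exact ⟨by simp, hinK i h (by omega)⟩
      · refine ⟨q j, ?_⟩
        rw [Finset.mem_inter]
        exact ⟨by simp, hinK j (by omega) h⟩

end Pool.Agent.TOKSN.CL
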