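import Mathlib
import Pool.Agent.TOKSN.Blk
import Pool.Agent.TOKSN.Toks
import Pool.Agent.TOKSN.Menger
import Pool.Agent.TOKSN.Cyc

/-!
# The cell lemma
-/

set_option autoImplicit false
set_option linter.unusedSectionVars false

namespace Pool.Agent.TOKSN

open Pool.Agent.TOKST (HasTOKS)
open Pool.Agent.TOKSP (nbh mem_nbh four_le_nbh)

variable {V : Type} [Fintype V] [DecidableEq V] {G : SimpleGraph V}

/-- A cell `K` with the terminals `v, v', s, s'`: no linkage `v`-`v'` | `s`-`s'` through `K`, and outside links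
(`L` makes every `v`-`v'` path through `K` odd, `M` has both parities). -/
structure Cell (G : SimpleGraph V) (K : Finset V) (v v' s s' : V) : Prop where
  two : 2 ≤ K.card
  nb : nbh G K = {v, v', s, s'}
  vv : v ≠ v'
  ss : s ≠ s'
  vs : v ≠ s
  vs' : v ≠ s'
  v's : v' ≠ s
  v's' : v' ≠ s'
  four : ∀ Y ⊆ K, Y.Nonempty → 4 ≤ (nbh G Y).card
  nolink : ∀ T k, PX G T v v' k → T ⊆ insert v (insert v' K) → (T ∩ K).Nonempty →
    ∀ X ⊆ K \ T, Conn G X → ∀ x ∈ X, ∀ y ∈ X, G.Adj s x → G.Adj s' y → False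
  link : ∀ T k, PX G T v v' k → T ⊆ insert v (insert v' K) → (T ∩ K).Nonempty →
    ∀ m, ∃ L M, PX G L v v' (!k) ∧ PX G M s s' m ∧ Disjoint L M ∧ Disjoint L K ∧ Disjoint M K

/-! ### path tools -/

namespace CL

theorem par_arith {i j n : ℕ} (hij : i < j) (hj : j ≤ n) :
    ((decide (Odd i) ^^ (!decide (Odd n))) ^^ decide (Odd (n - j))) = !decide (Odd (j - i)) := by
  rcases Nat.mod_two_eq_zero_or_one i with h1 | h1 <;>
  rcases Nat.mod_two_eq_zero_or_one n with h2 | h2 <;>
  rcases Nat.mod_two_eq_zero_or_one (n - j) with h3 | h3 <;>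
  rcases Nat.mod_two_eq_zero_or_one (j - i) with h4 | h4 <;>
  first
    | (exfalso; omega)
    | simp [Nat.odd_iff, h1, h2, h3, h4]

/-- the way around: from `q i` back to `q 0`, along `L` to `q n`, back to `q j` -/
theorem around {q : ℕ → V} {n : ℕ} {L : Finset V} (hq : Sq G q n)
    (hL : PX G L (q 0) (q n) (!decide (Odd n))) (hd : ∀ i, 0 < i → i < n → q i ∉ L) {i j : ℕ} (hij : i < j)
    (hj : j ≤ n) : PX G (seg q 0 i ∪ L ∪ seg q j n) (q i) (q j) (!decide (Odd (j - i))) := by
  have h1 := (hq.px (Nat.zero_le i) (by omega)).symm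
  have h2 := (hq.px hj le_rfl).symm
  have h3 := h1.concat hL (by
    intro x hx hx'
    obtain ⟨t, _, ht, rfl⟩ := mem_seg.1 hx
    rcases Nat.eq_zero_or_pos t with h | h
    · rw [h]
    · exact absurd hx' (hd t h (by omega)))
  have h4 := h3.concat h2 (by
    intro x hx hx'
    obtain ⟨t, ht, ht', rfl⟩ := mem_seg.1 hx'
    rw [Finset.mem_union] at hx
    rcases hx with hx | hx
    · exfalso
      have := (hq.mem ht' (by omega : i ≤ n)).1 hx
      omega
    · rcases Nat.lt_or_ge t n with h | h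
      · exact absurd hx (hd t (by omega) h)
      · have : t = n := by omega
        rw [this])
  rw [Nat.sub_zero, par_arith hij hj] at h4
  exact h4

/-- from an attached vertex through `W` -/
theorem toW {W : Finset V} (hW : Conn G W) {r w s' : V} (hw : w ∈ W) (hs' : s' ∈ W) (hr : r ∉ W)
    (e : G.Adj r w) : ∃ P p, PX G P r s' p ∧ P ⊆ insert r W := by
  obtain ⟨P, p, hP, h1⟩ := px_in_conn hW hw hs'
  exact ⟨insert r P, _, h1.cons e (fun h => hr (hP h)), Finset.insert_subset_insert _ hP⟩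

/-- TOKS from a triangle `a, b, s`, an edge `b r` and two odd paths -/
theorem toks_tri {a b s r : V} {N1 N2 : Finset V} (h1 : PX G N1 a r true) (h2 : PX G N2 s r true)
    (eab : G.Adj a b) (eas : G.Adj a s) (ebs : G.Adj b s) (ebr : G.Adj b r)
    (hb1 : b ∉ N1) (hb2 : b ∉ N2) (hs1 : s ∉ N1) (ha2 : a ∉ N2) (h12 : ∀ x ∈ N1, x ∈ N2 → x = r) :
    HasTOKS G := by
  have n1 := h1.left_mem
  have n2 := h1.right_mem
  have n3 := h2.left_mem
  have n4 := h2.right_mem
  have m1 := eab.ne
  have m2 := eas.ne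
  have m3 := ebs.ne
  have m4 := ebr.ne
  have m5 : a ≠ r := h1.ne
  have m6 : s ≠ r := h2.ne
  refine toks_mk (PX.edge eab) (PX.edge eas) h1 (PX.edge ebs) (PX.edge ebr) h2 ?_ ?_ ?_ ?_ ?_ ?_ ?_ ?_ ?_ ?_ ?_ ?_
    ?_ ?_ ?_ <;> grind [Finset.disjoint_left]

/-- prolong a foot along a path -/
theorem ext_foot {X P : Finset V} {x s s1 : V} {p : Bool} (hX : Conn G X) (hx : x ∈ X) (e : G.Adj s1 x)
    (hP : PX G P s1 s p) : ∃ X', X ⊆ X' ∧ X' ⊆ X ∪ P.erase s ∧ Conn G X' ∧ ∃ x' ∈ X', G.Adj s x' := by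
  by_cases h : s = s1
  · subst h
    exact ⟨X, subset_rfl, Finset.subset_union_left, hX, x, hx, e⟩
  · obtain ⟨c, T', ec, hT', hins, hs⟩ := hP.symm.uncons h
    refine ⟨X ∪ T', Finset.subset_union_left, ?_, ?_, c, Finset.mem_union_right _ hT'.left_mem, ec⟩
    · refine Finset.union_subset_union_right ?_
      intro t ht
      rw [Finset.mem_erase]
      refine ⟨?_, hins.symm ▸ Finset.mem_insert_of_mem ht⟩
      rintro rfl
      exact hs ht
    · exact hX.union_adj hT'.conn ⟨x, hx, s1, hT'.right_mem, e.symm⟩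

end CL

open CL

namespace Cell

variable {K : Finset V} {v v' s s' : V}

theorem vn (h : Cell G K v v' s s') : v ∈ nbh G K := by rw [h.nb]; simp
theorem v'n (h : Cell G K v v' s s') : v' ∈ nbh G K := by rw [h.nb]; simp
theorem sn (h : Cell G K v v' s s') : s ∈ nbh G K := by rw [h.nb]; simp
theorem s'n (h : Cell G K v v' s s') : s' ∈ nbh G K := by rw [h.nb]; simp
theorem vK (h : Cell G K v v' s s') : v ∉ K := (mem_nbh.1 h.vn).1
theorem v'K (h : Cell G K v v' s s') : v' ∉ K := (mem_nbh.1 h.v'n).1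
theorem sK (h : Cell G K v v' s s') : s ∉ K := (mem_nbh.1 h.sn).1
theorem s'K (h : Cell G K v v' s s') : s' ∉ K := (mem_nbh.1 h.s'n).1

theorem hlk (h : Cell G K v v' s s') {T : Finset V} {k : Bool} (hT : PX G T v v' k)
    (hTs : T ⊆ insert v (insert v' K)) (hTK : (T ∩ K).Nonempty) {w : V} (hw : w ∈ K)
    (hwc : w ∈ cmp G (insert s' (K \ T)) s') : ¬ G.Adj s w := by
  intro hadj
  obtain ⟨_, k', P, hP, h1⟩ := mem_cmp.1 hwc
  have hne : s' ≠ w := by
    rintro rfl
    exact h.s'K hw
  obtain ⟨c, T', ec, hT', hins, hs⟩ := h1.uncons hne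
  have hsub : T' ⊆ K \ T := by
    intro x hx
    have h2 := hP (hins.symm ▸ Finset.mem_insert_of_mem hx)
    rcases Finset.mem_insert.1 h2 with h3 | h3
    · subst h3
      exact absurd hx hs
    · exact h3
  exact h.nolink T k hT hTs hTK T' hsub hT'.conn w hT'.right_mem c hT'.left_mem hadj ec

theorem exBlk (h : Cell G K v v' s s') : ∃ q n W, BLK G K {s} v v' s' q n W := by
  refine blk h.vv h.vK h.v'K h.s'K h.vs'.symm h.v's'.symm (Finset.card_pos.1 (by have := h.two; omega)) ?_ ?_ ?_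
  · rw [h.nb]
    intro x hx
    simp only [Finset.mem_sdiff, Finset.mem_insert, Finset.mem_singleton] at hx ⊢
    tauto
  · intro Y hY hYn
    have h1 := h.four Y hY hYn
    have h2 := Finset.le_card_sdiff {s} (nbh G Y)
    rw [Finset.card_singleton] at h2
    omega
  · intro T k hT hTs hTK w hw hwc t ht
    rw [Finset.mem_singleton] at ht
    subst ht
    exact h.hlk hT hTs hTK hw hwc

/-- a part of a cell with exactly four neighbours is a cell -/
theorem sub (h : Cell G K v v' s s') {Y : Finset V} (hY : Y ⊆ K) (h2 : 2 ≤ Y.card)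
    (h4 : (nbh G Y).card = 4) : ∃ v1 v1' s1 s1', Cell G Y v1 v1' s1 s1' := by
  classical
  have hvK := h.vK
  have hv'K := h.v'K
  have hsK := h.sK
  have hs'K := h.s'K
  set B : Finset V := {v, v', s, s'} with hB
  set U : Finset V := (K \ Y) ∪ B with hU
  have hBK : ∀ y ∈ B, y ∉ K := by
    intro y hy
    rw [hB] at hy
    simp only [Finset.mem_insert, Finset.mem_singleton] at hy
    rcases hy with rfl | rfl | rfl | rfl <;> assumption
  have hnK : ∀ u ∈ K, ∀ y, y ∉ K → G.Adj u y → y ∈ B := by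
    intro u hu y hy e
    rw [hB, ← h.nb]
    exact mem_nbh.2 ⟨hy, u, hu, e⟩
  have hAU : nbh G Y ⊆ U := by
    intro y hy
    obtain ⟨hyY, u, hu, e⟩ := mem_nbh.1 hy
    rw [hU, Finset.mem_union, Finset.mem_sdiff]
    by_cases hyK : y ∈ K
    · exact Or.inl ⟨hyK, hyY⟩
    · exact Or.inr (hnK u (hY hu) y hyK e)
  have hDP : DP G U (nbh G Y) B 4 := by
    refine menger U (nbh G Y) B 4 fun Z hZ hcard => ?_
    by_contra hcon
    push Not at hcon
    set R : Finset V := Y ∪ K.filter (fun x => ∃ a ∈ nbh G Y, JN G (U \ Z) a x) with hR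
    have hRK : R ⊆ K := Finset.union_subset hY (Finset.filter_subset _ _)
    have hRn : R.Nonempty := by
      have : Y.Nonempty := Finset.card_pos.1 (by omega)
      exact this.mono Finset.subset_union_left
    have h5 := h.four R hRK hRn
    have hsub : nbh G R ⊆ Z := by
      intro y hy
      obtain ⟨hyR, u, hu, e⟩ := mem_nbh.1 hy
      have hyY : y ∉ Y := fun h => hyR (Finset.mem_union_left _ h)
      by_contra hyZ
      have huK : u ∈ K := hRK hu
      have hyU : y ∈ U := by
        rw [hU, Finset.mem_union, Finset.mem_sdiff]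
        by_cases hyK : y ∈ K
        · exact Or.inl ⟨hyK, hyY⟩
        · exact Or.inr (hnK u huK y hyK e)
      have hjn : ∃ a ∈ nbh G Y, JN G (U \ Z) a y := by
        rcases Finset.mem_union.1 hu with hu | hu
        · exact ⟨y, mem_nbh.2 ⟨hyY, u, hu, e⟩, JN.refl (Finset.mem_sdiff.2 ⟨hyU, hyZ⟩)⟩
        · obtain ⟨_, a, ha, hjn⟩ := Finset.mem_filter.1 hu
          exact ⟨a, ha, hjn.trans (JN.adj e hjn.right_mem (Finset.mem_sdiff.2 ⟨hyU, hyZ⟩))⟩
      obtain ⟨a, ha, hjn⟩ := hjn
      by_cases hyK : y ∈ K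
      · exact hyR (Finset.mem_union_right _ (Finset.mem_filter.2 ⟨hyK, a, ha, hjn⟩))
      · exact hcon a ha y (hnK u huK y hyK e) hjn
    have := Finset.card_le_card hsub
    omega
  obtain ⟨a, b, T, r, hT, hTU, hdis, hTA, hTB⟩ := hDP
  have hbT : ∀ i, b i ∈ T i := fun i => (hT i).right_mem
  have haT : ∀ i, a i ∈ T i := fun i => (hT i).left_mem
  have hinj : ∀ i j x, x ∈ T i → x ∈ T j → i = j := by
    intro i j x hi hj
    by_contra hne
    exact Finset.disjoint_left.1 (hdis i j hne) hi hj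
  have haA : ∀ i, a i ∈ nbh G Y := by
    intro i
    have : a i ∈ T i ∩ nbh G Y := by rw [hTA]; exact Finset.mem_singleton_self _
    exact (Finset.mem_inter.1 this).2
  have hbB : ∀ i, b i ∈ B := by
    intro i
    have : b i ∈ T i ∩ B := by rw [hTB]; exact Finset.mem_singleton_self _
    exact (Finset.mem_inter.1 this).2
  have hbinj : Function.Injective b := by
    intro i j hij
    exact hinj i j (b i) (hbT i) (hij ▸ hbT j)
  have hainj : Function.Injective a := by
    intro i j hij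
    exact hinj i j (a i) (haT i) (hij ▸ haT j)
  have hbsurj : ∀ y ∈ B, ∃ i, b i = y := by
    have h6 : Finset.univ.image b = B := by
      refine Finset.eq_of_subset_of_card_le ?_ ?_
      · intro y hy
        obtain ⟨i, _, rfl⟩ := Finset.mem_image.1 hy
        exact hbB i
      · rw [Finset.card_image_of_injective _ hbinj, Finset.card_univ, Fintype.card_fin, hB]
        exact Finset.card_le_four
    intro y hy
    rw [← h6] at hy
    obtain ⟨i, _, hi⟩ := Finset.mem_image.1 hy
    exact ⟨i, hi⟩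
  obtain ⟨i1, hi1⟩ := hbsurj v (by simp [hB])
  obtain ⟨i2, hi2⟩ := hbsurj v' (by simp [hB])
  obtain ⟨i3, hi3⟩ := hbsurj s (by simp [hB])
  obtain ⟨i4, hi4⟩ := hbsurj s' (by simp [hB])
  have n12 : i1 ≠ i2 := by
    rintro rfl
    exact h.vv (hi1.symm.trans hi2)
  have n13 : i1 ≠ i3 := by
    rintro rfl
    exact h.vs (hi1.symm.trans hi3)
  have n14 : i1 ≠ i4 := by
    rintro rfl
    exact h.vs' (hi1.symm.trans hi4)
  have n23 : i2 ≠ i3 := by
    rintro rfl
    exact h.v's (hi2.symm.trans hi3)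
  have n24 : i2 ≠ i4 := by
    rintro rfl
    exact h.v's' (hi2.symm.trans hi4)
  have n34 : i3 ≠ i4 := by
    rintro rfl
    exact h.ss (hi3.symm.trans hi4)
  have hTs : ∀ i, T i ⊆ insert (b i) (K \ Y) := by
    intro i x hx
    rw [Finset.mem_insert]
    have h6 := hTU i hx
    rw [hU, Finset.mem_union] at h6
    rcases h6 with h6 | h6
    · exact Or.inr h6
    · left
      have : x ∈ T i ∩ B := Finset.mem_inter.2 ⟨hx, h6⟩
      rw [hTB] at this
      simpa using this
  have hTY : ∀ i x, x ∈ T i → x ∉ Y := by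
    intro i x hx hxY
    rcases Finset.mem_insert.1 (hTs i hx) with h6 | h6
    · exact hBK x (h6 ▸ hbB i) (hY hxY)
    · exact (Finset.mem_sdiff.1 h6).2 hxY
  have P1 : PX G (T i1) (a i1) v (r i1) := by have := hT i1; rwa [hi1] at this
  have P2 : PX G (T i2) (a i2) v' (r i2) := by have := hT i2; rwa [hi2] at this
  have P3 : PX G (T i3) (a i3) s (r i3) := by have := hT i3; rwa [hi3] at this
  have P4 : PX G (T i4) (a i4) s' (r i4) := by have := hT i4; rwa [hi4] at this
  have T1s : T i1 ⊆ insert v (K \ Y) := by have := hTs i1; rwa [hi1] at this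
  have T2s : T i2 ⊆ insert v' (K \ Y) := by have := hTs i2; rwa [hi2] at this
  have T3s : T i3 ⊆ insert s (K \ Y) := by have := hTs i3; rwa [hi3] at this
  have T4s : T i4 ⊆ insert s' (K \ Y) := by have := hTs i4; rwa [hi4] at this
  have key : ∀ T0 k0, PX G T0 (a i1) (a i2) k0 → T0 ⊆ insert (a i1) (insert (a i2) Y) →
      PX G (T i1 ∪ T0 ∪ T i2) v v' ((r i1 ^^ k0) ^^ r i2) ∧
      (T i1 ∪ T0 ∪ T i2) ⊆ insert v (insert v' K) := by
    intro T0 k0 hT0 hT0s
    refine ⟨(P1.symm.concat hT0 ?_).concat P2 ?_, ?_⟩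
    · intro x hx hx'
      have h6 := hT0s hx'
      rw [Finset.mem_insert, Finset.mem_insert] at h6
      rcases h6 with h6 | h6 | h6
      · exact h6
      · exact absurd (hinj i1 i2 x hx (h6 ▸ haT i2)) n12
      · exact absurd h6 (hTY _ _ hx)
    · intro x hx hx'
      rw [Finset.mem_union] at hx
      rcases hx with hx | hx
      · exact absurd (hinj i1 i2 x hx hx') n12
      · have h6 := hT0s hx
        rw [Finset.mem_insert, Finset.mem_insert] at h6
        rcases h6 with h6 | h6 | h6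
        · exact absurd (hinj i1 i2 x (h6 ▸ haT i1) hx') n12
        · exact h6
        · exact absurd h6 (hTY _ _ hx')
    · intro x hx
      rw [Finset.mem_insert, Finset.mem_insert]
      rw [Finset.mem_union, Finset.mem_union] at hx
      have f1 : x ∈ T i1 → x = v ∨ x ∈ K := by
        intro hx
        rcases Finset.mem_insert.1 (T1s hx) with h7 | h7
        · exact Or.inl h7
        · exact Or.inr (Finset.mem_sdiff.1 h7).1
      have f2 : x ∈ T i2 → x = v' ∨ x ∈ K := by
        intro hx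
        rcases Finset.mem_insert.1 (T2s hx) with h7 | h7
        · exact Or.inl h7
        · exact Or.inr (Finset.mem_sdiff.1 h7).1
      rcases hx with (hx | hx) | hx
      · rcases f1 hx with h7 | h7
        · exact Or.inl h7
        · exact Or.inr (Or.inr h7)
      · have h6 := hT0s hx
        rw [Finset.mem_insert, Finset.mem_insert] at h6
        rcases h6 with h6 | h6 | h6
        · rcases f1 (h6 ▸ haT i1) with h7 | h7
          · exact Or.inl h7
          · exact Or.inr (Or.inr h7)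
        · rcases f2 (h6 ▸ haT i2) with h7 | h7
          · exact Or.inr (Or.inl h7)
          · exact Or.inr (Or.inr h7)
        · exact Or.inr (Or.inr (hY h6))
      · rcases f2 hx with h7 | h7
        · exact Or.inr (Or.inl h7)
        · exact Or.inr (Or.inr h7)
  have hne : ∀ T0 : Finset V, (T0 ∩ Y).Nonempty → ((T i1 ∪ T0 ∪ T i2) ∩ K).Nonempty := by
    rintro T0 ⟨x, hx⟩
    rw [Finset.mem_inter] at hx
    refine ⟨x, ?_⟩
    rw [Finset.mem_inter, Finset.mem_union, Finset.mem_union]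
    exact ⟨Or.inl (Or.inr hx.1), hY hx.2⟩
  refine ⟨a i1, a i2, a i3, a i4, h2, ?_, hainj.ne n12, hainj.ne n34, hainj.ne n13, hainj.ne n14,
    hainj.ne n23, hainj.ne n24, fun Z hZ => h.four Z (hZ.trans hY), ?_, ?_⟩
  · symm
    refine Finset.eq_of_subset_of_card_le ?_ ?_
    · intro x hx
      simp only [Finset.mem_insert, Finset.mem_singleton] at hx
      rcases hx with rfl | rfl | rfl | rfl <;> exact haA _
    · rw [h4, Finset.card_insert_of_notMem, Finset.card_insert_of_notMem, Finset.card_pair (hainj.ne n34)]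
      · simp [hainj.eq_iff, n23, n24]
      · simp [hainj.eq_iff, n12, n13, n14]
  · intro T0 k0 hT0 hT0s hT0n X hX hXc x hx y hy ex ey
    obtain ⟨X1, hX1, hX1s, hX1c, x1, hx1, e1⟩ := ext_foot hXc hx ex P3
    obtain ⟨X2, hX2, hX2s, hX2c, x2, hx2, e2⟩ := ext_foot hX1c (hX1 hy) ey P4
    obtain ⟨hbig, hbigs⟩ := key T0 k0 hT0 hT0s
    refine h.nolink _ _ hbig hbigs (hne T0 hT0n) X2 ?_ hX2c x1 (hX2 hx1) x2 hx2 e1 e2
    intro z hz
    have hz1 : z ∈ X ∨ (z ∈ T i3 ∧ z ≠ s) ∨ (z ∈ T i4 ∧ z ≠ s') := by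
      rcases Finset.mem_union.1 (hX2s hz) with hz | hz
      · rcases Finset.mem_union.1 (hX1s hz) with hz | hz
        · exact Or.inl hz
        · rw [Finset.mem_erase] at hz
          exact Or.inr (Or.inl ⟨hz.2, hz.1⟩)
      · rw [Finset.mem_erase] at hz
        exact Or.inr (Or.inr ⟨hz.2, hz.1⟩)
    rw [Finset.mem_sdiff, Finset.mem_union, Finset.mem_union, not_or, not_or]
    rcases hz1 with hz1 | ⟨hz1, hz2⟩ | ⟨hz1, hz2⟩
    · obtain ⟨hzY, hzT⟩ := Finset.mem_sdiff.1 (hX hz1)
      exact ⟨hY hzY, ⟨fun h => hTY _ _ h hzY, hzT⟩, fun h => hTY _ _ h hzY⟩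
    · refine ⟨?_, ⟨fun h => n13 (hinj _ _ _ h hz1), fun h => ?_⟩, fun h => n23 (hinj _ _ _ h hz1)⟩
      · rcases Finset.mem_insert.1 (T3s hz1) with h7 | h7
        · exact absurd h7 hz2
        · exact (Finset.mem_sdiff.1 h7).1
      · have h6 := hT0s h
        rw [Finset.mem_insert, Finset.mem_insert] at h6
        rcases h6 with h6 | h6 | h6
        · exact n13 (hinj _ _ _ (h6 ▸ haT i1) hz1)
        · exact n23 (hinj _ _ _ (h6 ▸ haT i2) hz1)
        · exact hTY _ _ hz1 h6
    · refine ⟨?_, ⟨fun h => n14 (hinj _ _ _ h hz1), fun h => ?_⟩, fun h => n24 (hinj _ _ _ h hz1)⟩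
      · rcases Finset.mem_insert.1 (T4s hz1) with h7 | h7
        · exact absurd h7 hz2
        · exact (Finset.mem_sdiff.1 h7).1
      · have h6 := hT0s h
        rw [Finset.mem_insert, Finset.mem_insert] at h6
        rcases h6 with h6 | h6 | h6
        · exact n14 (hinj _ _ _ (h6 ▸ haT i1) hz1)
        · exact n24 (hinj _ _ _ (h6 ▸ haT i2) hz1)
        · exact hTY _ _ hz1 h6
  · intro T0 k0 hT0 hT0s hT0n m
    obtain ⟨hbig, hbigs⟩ := key T0 k0 hT0 hT0s
    obtain ⟨L, M, hL, hM, hLM, hLK, hMK⟩ := h.link _ _ hbig hbigs (hne T0 hT0n) ((r i3 ^^ m) ^^ r i4)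
    rw [Finset.disjoint_left] at hLM hLK hMK
    have vL := hL.left_mem
    have v'L := hL.right_mem
    have sM := hM.left_mem
    have s'M := hM.right_mem
    -- T i and the outside paths
    have g1 : ∀ x ∈ T i1, x = v ∨ x ∈ K ∧ x ∉ Y := fun x hx => by simpa using T1s hx
    have g2 : ∀ x ∈ T i2, x = v' ∨ x ∈ K ∧ x ∉ Y := fun x hx => by simpa using T2s hx
    have g3 : ∀ x ∈ T i3, x = s ∨ x ∈ K ∧ x ∉ Y := fun x hx => by simpa using T3s hx
    have g4 : ∀ x ∈ T i4, x = s' ∨ x ∈ K ∧ x ∉ Y := fun x hx => by simpa using T4s hx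
    have hL' := (P1.concat hL (by
      intro x hx hx'
      rcases g1 x hx with h | h
      · exact h
      · exact absurd h.1 (hLK hx'))).concat P2.symm (by
      intro x hx hx'
      rcases g2 x hx' with h | h
      · exact h
      · rw [Finset.mem_union] at hx
        rcases hx with hx | hx
        · exact absurd (hinj _ _ _ hx hx') n12
        · exact absurd h.1 (hLK hx))
    have hM' := (P3.concat hM (by
      intro x hx hx'
      rcases g3 x hx with h | h
      · exact h
      · exact absurd h.1 (hMK hx'))).concat P4.symm (by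
      intro x hx hx'
      rcases g4 x hx' with h | h
      · exact h
      · rw [Finset.mem_union] at hx
        rcases hx with hx | hx
        · exact absurd (hinj _ _ _ hx hx') n34
        · exact absurd h.1 (hMK hx))
    have e1 : ((r i1 ^^ (!((r i1 ^^ k0) ^^ r i2))) ^^ r i2) = !k0 := by
      cases r i1 <;> cases r i2 <;> cases k0 <;> rfl
    have e2 : ((r i3 ^^ ((r i3 ^^ m) ^^ r i4)) ^^ r i4) = m := by
      cases r i3 <;> cases r i4 <;> cases m <;> rfl
    rw [e1] at hL'
    rw [e2] at hM'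
    refine ⟨_, _, hL', hM', ?_, ?_, ?_⟩
    · rw [Finset.disjoint_left]
      intro x hx hx'
      rw [Finset.mem_union, Finset.mem_union] at hx hx'
      rcases hx with (hx | hx) | hx
      · rcases hx' with (hx' | hx') | hx'
        · exact n13 (hinj _ _ _ hx hx')
        · rcases g1 x hx with h | h
          · exact hLM vL (h ▸ hx')
          · exact hMK hx' h.1
        · exact n14 (hinj _ _ _ hx hx')
      · rcases hx' with (hx' | hx') | hx'
        · rcases g3 x hx' with h | h
          · exact hLM (h ▸ hx) sM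
          · exact hLK hx h.1
        · exact hLM hx hx'
        · rcases g4 x hx' with h | h
          · exact hLM (h ▸ hx) s'M
          · exact hLK hx h.1
      · rcases hx' with (hx' | hx') | hx'
        · exact n23 (hinj _ _ _ hx hx')
        · rcases g2 x hx with h | h
          · exact hLM v'L (h ▸ hx')
          · exact hMK hx' h.1
        · exact n24 (hinj _ _ _ hx hx')
    · rw [Finset.disjoint_left]
      intro x hx hxY
      rw [Finset.mem_union, Finset.mem_union] at hx
      rcases hx with (hx | hx) | hx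
      · exact hTY _ _ hx hxY
      · exact hLK hx (hY hxY)
      · exact hTY _ _ hx hxY
    · rw [Finset.disjoint_left]
      intro x hx hxY
      rw [Finset.mem_union, Finset.mem_union] at hx
      rcases hx with (hx | hx) | hx
      · exact hTY _ _ hx hxY
      · exact hMK hx (hY hxY)
      · exact hTY _ _ hx hxY

/-- the outside links for a path of the basic lemma -/
theorem outer (h : Cell G K v v' s s') {K' S W : Finset V} {q : ℕ → V} {n : ℕ}
    (hb : BLK G K' S v v' s' q n W) (hK' : K' ⊆ K) {j : ℕ} (hj : j ≤ n)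
    (ha : ∃ w ∈ W, G.Adj (q j) w) (m : Bool) :
    ∃ L N, PX G L (q 0) (q n) (!decide (Odd n)) ∧ PX G N s (q j) m ∧ (∀ x ∈ L, x ∉ K) ∧ s ∉ L ∧
      (∀ x ∈ N, x ∈ L → x = q j) ∧ (∀ i, i ≤ n → q i ∈ N → i = j) ∧
      (∀ x ∈ N, x ∈ K → x = q j ∨ x ∈ W) := by
  have hT : PX G (seg q 0 n) v v' (decide (Odd n)) := by
    have h1 := hb.sq.px (Nat.zero_le n) le_rfl
    rw [hb.z, hb.e, Nat.sub_zero] at h1
    exact h1
  have hin : ∀ i, i ≤ n → q i = v ∨ q i = v' ∨ q i ∈ K := by
    intro i hi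
    rcases Nat.eq_zero_or_pos i with h1 | h1
    · left
      rw [h1, hb.z]
    · rcases Nat.lt_or_ge i n with h2 | h2
      · exact Or.inr (Or.inr (hK' (hb.inK i h1 h2)))
      · right
        left
        rw [← hb.e]
        congr 1
        omega
  have hTs : seg q 0 n ⊆ insert v (insert v' K) := by
    intro x hx
    obtain ⟨t, _, ht, rfl⟩ := mem_seg.1 hx
    rw [Finset.mem_insert, Finset.mem_insert]
    exact hin t ht
  have hTn : (seg q 0 n ∩ K).Nonempty := by
    have := hb.two
    exact ⟨q 1, Finset.mem_inter.2 ⟨mem_seg.2 ⟨1, by omega, by omega, rfl⟩,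
      hK' (hb.inK 1 (by omega) (by omega))⟩⟩
  obtain ⟨w, hw, e⟩ := ha
  obtain ⟨P, p, hP, hPs⟩ := toW hb.conn hw hb.s'W (hb.off j hj) e
  obtain ⟨L, M, hL, hM, hLM, hLK, hMK⟩ := h.link _ _ hT hTs hTn (m ^^ p)
  rw [Finset.disjoint_left] at hLM hLK hMK
  have hqM : ∀ i, i ≤ n → q i ∉ M := by
    intro i hi hiM
    rcases hin i hi with h1 | h1 | h1
    · exact hLM hL.left_mem (h1 ▸ hiM)
    · exact hLM hL.right_mem (h1 ▸ hiM)
    · exact hMK hiM h1
  have hWs : ∀ x ∈ W, x = s' ∨ x ∈ K := by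
    intro x hx
    rcases Finset.mem_insert.1 (hb.sub hx) with h1 | h1
    · exact Or.inl h1
    · exact Or.inr (hK' h1)
  have hPc : ∀ x ∈ P, x = q j ∨ x ∈ W := fun x hx => Finset.mem_insert.1 (hPs hx)
  have hN := hM.concat hP.symm (by
    intro x hx hx'
    rcases hPc x hx' with h1 | h1
    · exact absurd (h1 ▸ hx) (hqM j hj)
    · rcases hWs x h1 with h2 | h2
      · exact h2
      · exact absurd h2 (hMK hx))
  have e1 : ((m ^^ p) ^^ p) = m := by
    cases m <;> cases p <;> rfl
  rw [e1] at hN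
  rw [← hb.z, ← hb.e] at hL
  refine ⟨L, M ∪ P, hL, hN, fun x hx => hLK hx, fun hs => hLM hs hM.left_mem, ?_, ?_, ?_⟩
  · intro x hx hxL
    rcases Finset.mem_union.1 hx with h1 | h1
    · exact absurd h1 (hLM hxL)
    · rcases hPc x h1 with h2 | h2
      · exact h2
      · rcases hWs x h2 with h3 | h3
        · exact absurd hM.right_mem (hLM (h3 ▸ hxL))
        · exact absurd h3 (hLK hxL)
  · intro i hi hiN
    rcases Finset.mem_union.1 hiN with h1 | h1
    · exact absurd h1 (hqM i hi)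
    · rcases hPc _ h1 with h2 | h2
      · exact hb.sq.inj i j hi hj h2
      · exact absurd h2 (hb.off i hi)
  · intro x hx hxK
    rcases Finset.mem_union.1 hx with h1 | h1
    · exact absurd hxK (hMK h1)
    · exact hPc x h1

theorem tri_case (h : Cell G K v v' s s') {W : Finset V} {q : ℕ → V} {n : ℕ}
    (hb : BLK G K {s} v v' s' q n W) {l : ℕ} (hl : l + 2 ≤ n) (hmid : G.Adj s (q (l + 1)))
    (hends : (G.Adj s (q l) ∧ ∃ w ∈ W, G.Adj (q (l + 2)) w) ∨ (G.Adj s (q (l + 2)) ∧ ∃ w ∈ W, G.Adj (q l) w)) :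
    HasTOKS G := by
  have hsq : ∀ i, i ≤ n → s ≠ q i := by
    intro i hi h1
    rcases Nat.eq_zero_or_pos i with h2 | h2
    · rw [h2, hb.z] at h1
      exact h.vs h1.symm
    · rcases Nat.lt_or_ge i n with h3 | h3
      · exact h.sK (h1 ▸ hb.inK i h2 h3)
      · have : i = n := by omega
        rw [this, hb.e] at h1
        exact h.v's h1.symm
  have hmK : q (l + 1) ∈ K := hb.inK _ (by omega) (by omega)
  have hpar : (!decide (Odd (l + 2 - l))) = true := by
    have : l + 2 - l = 2 := by omega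
    rw [this]
    decide
  rcases hends with ⟨hs, ha⟩ | ⟨hs, ha⟩
  · obtain ⟨L, N, hL, hN, hLK, hsL, hNL, hNq, hNK⟩ := h.outer hb subset_rfl (j := l + 2) hl ha true
    have hA := around hb.sq hL (fun i h1 h2 h3 => hLK _ h3 (hb.inK i h1 h2)) (i := l) (j := l + 2) (by omega) hl
    rw [hpar] at hA
    refine toks_tri hA hN (hb.sq.adj l (by omega)) hs.symm hmid.symm (hb.sq.adj (l + 1) (by omega)) ?_ ?_ ?_ ?_ ?_
    · rw [Finset.mem_union, Finset.mem_union, hb.sq.mem (by omega) (by omega), hb.sq.mem (by omega) le_rfl]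
      rintro ((h1 | h1) | h1)
      · omega
      · exact hLK _ h1 hmK
      · omega
    · intro h1
      have := hNq _ (by omega) h1
      omega
    · rw [Finset.mem_union, Finset.mem_union, mem_seg, mem_seg]
      rintro ((⟨t, _, ht, h1⟩ | h1) | ⟨t, ht, ht', h1⟩)
      · exact hsq t (by omega) h1.symm
      · exact hsL h1
      · exact hsq t (by omega) h1.symm
    · intro h1
      have := hNq _ (by omega) h1
      omega
    · intro x hx hxN
      rw [Finset.mem_union, Finset.mem_union, mem_seg, mem_seg] at hx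
      rcases hx with (⟨t, _, ht, rfl⟩ | h1) | ⟨t, ht, ht', rfl⟩
      · rw [hNq t (by omega) hxN]
      · exact hNL x hxN h1
      · rw [hNq t (by omega) hxN]
  · obtain ⟨L, N, hL, hN, hLK, hsL, hNL, hNq, hNK⟩ := h.outer hb subset_rfl (j := l) (by omega) ha true
    have hA := around hb.sq hL (fun i h1 h2 h3 => hLK _ h3 (hb.inK i h1 h2)) (i := l) (j := l + 2) (by omega) hl
    rw [hpar] at hA
    refine toks_tri hA.symm hN (hb.sq.adj (l + 1) (by omega)).symm hs.symm hmid.symm (hb.sq.adj l (by omega)).symm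
      ?_ ?_ ?_ ?_ ?_
    · rw [Finset.mem_union, Finset.mem_union, hb.sq.mem (by omega) (by omega), hb.sq.mem (by omega) le_rfl]
      rintro ((h1 | h1) | h1)
      · omega
      · exact hLK _ h1 hmK
      · omega
    · intro h1
      have := hNq _ (by omega) h1
      omega
    · rw [Finset.mem_union, Finset.mem_union, mem_seg, mem_seg]
      rintro ((⟨t, _, ht, h1⟩ | h1) | ⟨t, ht, ht', h1⟩)
      · exact hsq t (by omega) h1.symm
      · exact hsL h1
      · exact hsq t (by omega) h1.symm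
    · intro h1
      have := hNq _ (by omega) h1
      omega
    · intro x hx hxN
      rw [Finset.mem_union, Finset.mem_union, mem_seg, mem_seg] at hx
      rcases hx with (⟨t, _, ht, rfl⟩ | h1) | ⟨t, ht, ht', rfl⟩
      · rw [hNq t (by omega) hxN]
      · exact hNL x hxN h1
      · rw [hNq t (by omega) hxN]

/-- neighbours of `s` in `K` are pairwise not adjacent -/
theorem indep (h : Cell G K v v' s s') (hno : ¬ HasTOKS G) {x y : V} (hx : x ∈ K) (hy : y ∈ K)
    (hxs : G.Adj s x) (hys : G.Adj s y) : ¬ G.Adj x y := by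
  intro hadj
  apply hno
  obtain ⟨q, n, W, hb⟩ := h.exBlk
  have hpos : ∀ x ∈ K, G.Adj s x → ∃ i, 0 < i ∧ i < n ∧ q i = x := by
    intro x hx e
    rcases hb.cov x hx with h1 | h1
    · exact absurd e (hb.nS x h1 hx s (Finset.mem_singleton_self _))
    · exact h1
  obtain ⟨i, hi0, hin, hs1, hs2⟩ : ∃ i, 0 < i ∧ i + 1 < n ∧ G.Adj s (q i) ∧ G.Adj s (q (i + 1)) := by
    obtain ⟨i, hi0, hin, rfl⟩ := hpos x hx hxs
    obtain ⟨j, hj0, hjn, rfl⟩ := hpos y hy hys
    rcases Nat.lt_trichotomy i j with hij | hij | hij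
    · have : j = i + 1 := by
        by_contra hne
        exact hb.ind i j (by omega) (by omega) (Or.inl hi0) hadj
      subst this
      exact ⟨i, hi0, hjn, hxs, hys⟩
    · subst hij
      exact absurd rfl hadj.ne
    · have : i = j + 1 := by
        by_contra hne
        exact hb.ind j i (by omega) (by omega) (Or.inl hj0) hadj.symm
      subst this
      exact ⟨j, hj0, hin, hys, hxs⟩
  by_cases ha1 : ∃ w ∈ W, G.Adj (q (i + 2)) w
  · exact h.tri_case hb (by omega) hs2 (Or.inl ⟨hs1, ha1⟩)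
  by_cases ha2 : ∃ w ∈ W, G.Adj (q (i - 1)) w
  · refine h.tri_case hb (l := i - 1) (by omega) ?_ (Or.inr ⟨?_, ha2⟩)
    · have : i - 1 + 1 = i := by omega
      rw [this]
      exact hs1
    · have : i - 1 + 2 = i + 1 := by omega
      rw [this]
      exact hs2
  have hn : n = i + 2 := by
    by_contra hne
    exact ha1 (hb.att _ (by omega) (by omega))
  have hi1 : i = 1 := by
    by_contra hne
    exact ha2 (hb.att _ (by omega) (by omega))
  subst hi1
  subst hn
  have hWK : ∀ x ∈ W, x ∉ K := by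
    intro x hx hxK
    have h1 := h.four (W.erase s') (by
      intro z hz
      rw [Finset.mem_erase] at hz
      rcases Finset.mem_insert.1 (hb.sub hz.2) with h2 | h2
      · exact absurd h2 hz.1
      · exact h2) ⟨x, Finset.mem_erase.2 ⟨by
        rintro rfl
        exact h.s'K hxK, hx⟩⟩
    have h2 : nbh G (W.erase s') ⊆ {q 1, q 2, s'} := by
      intro z hz
      obtain ⟨hz1, u, hu, e⟩ := mem_nbh.1 hz
      rw [Finset.mem_erase] at hu
      have huK : u ∈ K := by
        rcases Finset.mem_insert.1 (hb.sub hu.2) with h2 | h2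
        · exact absurd h2 hu.1
        · exact h2
      rw [Finset.mem_insert, Finset.mem_insert, Finset.mem_singleton]
      by_cases hzK : z ∈ K
      · rcases hb.cov z hzK with h3 | ⟨t, ht0, htn, rfl⟩
        · exfalso
          apply hz1
          rw [Finset.mem_erase]
          refine ⟨?_, h3⟩
          rintro rfl
          exact h.s'K hzK
        · have : t = 1 ∨ t = 2 := by omega
          rcases this with rfl | rfl
          · exact Or.inl rfl
          · exact Or.inr (Or.inl rfl)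
      · have h3 : z ∈ nbh G K := mem_nbh.2 ⟨hzK, u, huK, e⟩
        rw [h.nb] at h3
        simp only [Finset.mem_insert, Finset.mem_singleton] at h3
        rcases h3 with h3 | h3 | h3 | h3
        · exfalso
          apply ha2
          refine ⟨u, hu.2, ?_⟩
          have : (1 : ℕ) - 1 = 0 := rfl
          rw [this, hb.z, ← h3]
          exact e.symm
        · exfalso
          apply ha1
          refine ⟨u, hu.2, ?_⟩
          rw [hb.e, ← h3]
          exact e.symm
        · exfalso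
          exact hb.nS u hu.2 huK s (Finset.mem_singleton_self _) (h3 ▸ e.symm)
        · exact Or.inr (Or.inr h3)
    have h3 := Finset.card_le_card h2
    have h4 : ({q 1, q 2, s'} : Finset V).card ≤ 3 := Finset.card_le_three
    omega
  have hW : ∀ x ∈ W, x = s' := by
    intro x hx
    rcases Finset.mem_insert.1 (hb.sub hx) with h1 | h1
    · exact h1
    · exact absurd h1 (hWK x hx)
  have e1 : G.Adj (q 1) s' := by
    obtain ⟨w, hw, e⟩ := hb.att 1 (by omega) (by omega)
    rwa [hW w hw] at e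
  have e2 : G.Adj (q 2) s' := by
    obtain ⟨w, hw, e⟩ := hb.att 2 (by omega) (by omega)
    rwa [hW w hw] at e
  have k1 : q 1 ∈ K := hb.inK 1 (by omega) (by omega)
  have k2 : q 2 ∈ K := hb.inK 2 (by omega) (by omega)
  have hT : PX G (seg q 0 (1 + 2)) v v' (decide (Odd (1 + 2))) := by
    have h1 := hb.sq.px (Nat.zero_le (1 + 2)) le_rfl
    rw [hb.z, hb.e, Nat.sub_zero] at h1
    exact h1
  obtain ⟨L, M, hL, hM, hLM, hLK, hMK⟩ := h.link _ _ hT (by
    intro x hx
    obtain ⟨t, _, ht, rfl⟩ := mem_seg.1 hx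
    rw [Finset.mem_insert, Finset.mem_insert]
    have : t = 0 ∨ t = 1 ∨ t = 2 ∨ t = 1 + 2 := by omega
    rcases this with rfl | rfl | rfl | rfl
    · exact Or.inl hb.z
    · exact Or.inr (Or.inr k1)
    · exact Or.inr (Or.inr k2)
    · exact Or.inr (Or.inl hb.e)) ⟨q 1, Finset.mem_inter.2 ⟨mem_seg.2 ⟨1, by omega, by omega, rfl⟩, k1⟩⟩ true
  rw [Finset.disjoint_left] at hMK
  refine toks_tri (a := q 1) (b := q 2) (s := s) (r := s') (PX.edge e1) hM (hb.sq.adj 1 (by omega)) hs1.symm hs2.symm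
    e2 ?_ (fun h1 => hMK h1 k2) ?_ (fun h1 => hMK h1 k1) ?_
  · rw [Finset.mem_insert, Finset.mem_singleton, not_or]
    exact ⟨(hb.sq.adj 1 (by omega)).ne.symm, e2.ne⟩
  · rw [Finset.mem_insert, Finset.mem_singleton, not_or]
    exact ⟨hs1.ne, h.ss⟩
  · intro x hx hxM
    rw [Finset.mem_insert, Finset.mem_singleton] at hx
    rcases hx with rfl | rfl
    · exact absurd k1 (hMK hxM)
    · rfl

/-- the last step: the contraction of an edge at `s` -/
theorem last (h : Cell G K v v' s s')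
    (hmin : ∀ Y ⊆ K, Y ≠ K → 2 ≤ Y.card → 5 ≤ (nbh G Y).card) : HasTOKS G := by
  by_contra hno
  obtain ⟨_, x0, hx0, ex0⟩ := mem_nbh.1 h.sn
  set K1 : Finset V := K.erase x0 with hK1
  have hK1K : K1 ⊆ K := Finset.erase_subset _ _
  have hx0K1 : x0 ∉ K1 := Finset.notMem_erase _ _
  have hx0v : x0 ≠ v := fun h1 => h.vK (h1 ▸ hx0)
  have hx0v' : x0 ≠ v' := fun h1 => h.v'K (h1 ▸ hx0)
  have hx0s : x0 ≠ s := fun h1 => h.sK (h1 ▸ hx0)
  have hx0s' : x0 ≠ s' := fun h1 => h.s'K (h1 ▸ hx0)
  have hlk0 : ∀ T k, PX G T v v' k → T ⊆ insert v (insert v' K1) → (T ∩ K1).Nonempty →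
      ∀ w ∈ K1, w ∈ cmp G (insert s' (K1 \ T)) s' → ∀ t ∈ ({s, x0} : Finset V), ¬ G.Adj t w := by
    intro T k hT hTs hTn w hw hwc t ht
    have hTs' : T ⊆ insert v (insert v' K) :=
      hTs.trans (Finset.insert_subset_insert _ (Finset.insert_subset_insert _ hK1K))
    have hTn' : (T ∩ K).Nonempty := hTn.mono (Finset.inter_subset_inter_left hK1K)
    have hx0T : x0 ∉ T := by
      intro h1
      have h2 := hTs h1
      rw [Finset.mem_insert, Finset.mem_insert] at h2
      rcases h2 with h2 | h2 | h2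
      · exact hx0v h2
      · exact hx0v' h2
      · exact hx0K1 h2
    have hmono : w ∈ cmp G (insert s' (K \ T)) s' := by
      obtain ⟨h1, h2⟩ := mem_cmp.1 hwc
      have h3 : insert s' (K1 \ T) ⊆ insert s' (K \ T) :=
        Finset.insert_subset_insert _ (Finset.sdiff_subset_sdiff hK1K subset_rfl)
      exact mem_cmp.2 ⟨h3 h1, h2.mono h3⟩
    rw [Finset.mem_insert, Finset.mem_singleton] at ht
    rcases ht with rfl | rfl
    · exact h.hlk hT hTs' hTn' (hK1K hw) hmono
    · intro e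
      have h4 : t ∈ cmp G (insert s' (K \ T)) s' :=
        cmp_closed hmono (Finset.mem_insert_of_mem (Finset.mem_sdiff.2 ⟨hx0, hx0T⟩)) e.symm
      exact h.hlk hT hTs' hTn' hx0 h4 ex0.symm
  obtain ⟨q, n, W, hb⟩ : ∃ q n W, BLK G K1 {s, x0} v v' s' q n W := by
    refine blk h.vv (fun h1 => h.vK (hK1K h1)) (fun h1 => h.v'K (hK1K h1)) (fun h1 => h.s'K (hK1K h1)) h.vs'.symm
      h.v's'.symm ?_ ?_ ?_ hlk0
    · apply Finset.card_pos.1
      have h1 := h.two
      rw [hK1, Finset.card_erase_of_mem hx0]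
      omega
    · intro x hx
      rw [Finset.mem_sdiff] at hx
      obtain ⟨hx1, hx2⟩ := hx
      obtain ⟨hx3, u, hu, e⟩ := mem_nbh.1 hx1
      rw [Finset.mem_insert, Finset.mem_singleton, not_or] at hx2
      have hxK : x ∉ K := fun h1 => hx3 (Finset.mem_erase.2 ⟨hx2.2, h1⟩)
      have h4 : x ∈ nbh G K := mem_nbh.2 ⟨hxK, u, hK1K hu, e⟩
      rw [h.nb] at h4
      simp only [Finset.mem_insert, Finset.mem_singleton] at h4 ⊢
      have := hx2.1
      tauto
    · intro Y hY hYn
      have h1 := h.four Y (hY.trans hK1K) hYn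
      have h2 : ({s, x0} : Finset V).card ≤ 2 := Finset.card_le_two
      have h3 := Finset.le_card_sdiff {s, x0} (nbh G Y)
      by_cases hc : 2 ≤ Y.card
      · have h4 := hmin Y (hY.trans hK1K) (by
          rintro rfl
          exact hx0K1 (hY hx0)) hc
        omega
      · have h5 : Y.card = 1 := by
          have := hYn.card_pos
          omega
        obtain ⟨y, rfl⟩ := Finset.card_eq_one.1 h5
        have hyK1 : y ∈ K1 := hY (Finset.mem_singleton_self _)
        have h6 : ¬ (s ∈ nbh G {y} ∧ x0 ∈ nbh G {y}) := by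
          rintro ⟨h7, h8⟩
          obtain ⟨_, u, hu, e⟩ := mem_nbh.1 h7
          obtain ⟨_, u', hu', e'⟩ := mem_nbh.1 h8
          rw [Finset.mem_singleton] at hu hu'
          subst hu
          subst hu'
          exact h.indep hno (hK1K hyK1) hx0 e.symm ex0.symm e'
        have h7 : (nbh G {y}).card ≤ (nbh G {y} \ {s, x0}).card + 1 := by
          rw [← Finset.card_inter_add_card_sdiff (nbh G {y}) {s, x0}, add_comm]
          apply Nat.add_le_add_left
          rw [Finset.card_le_one]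
          intro a ha b hb
          rw [Finset.mem_inter, Finset.mem_insert, Finset.mem_singleton] at ha hb
          rcases ha with ⟨ha1, ha2 | ha2⟩ <;> rcases hb with ⟨hb1, hb2 | hb2⟩
          · rw [ha2, hb2]
          · exact absurd ⟨ha2 ▸ ha1, hb2 ▸ hb1⟩ h6
          · exact absurd ⟨hb2 ▸ hb1, ha2 ▸ ha1⟩ h6
          · rw [ha2, hb2]
        omega
  -- the path
  have hT : PX G (seg q 0 n) v v' (decide (Odd n)) := by
    have h1 := hb.sq.px (Nat.zero_le n) le_rfl
    rw [hb.z, hb.e, Nat.sub_zero] at h1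
    exact h1
  have hin : ∀ i, i ≤ n → q i = v ∨ q i = v' ∨ q i ∈ K1 := by
    intro i hi
    rcases Nat.eq_zero_or_pos i with h1 | h1
    · left
      rw [h1, hb.z]
    · rcases Nat.lt_or_ge i n with h2 | h2
      · exact Or.inr (Or.inr (hb.inK i h1 h2))
      · right
        left
        rw [← hb.e]
        congr 1
        omega
  have hqx0 : ∀ i, i ≤ n → q i ≠ x0 := by
    intro i hi h1
    rcases hin i hi with h2 | h2 | h2
    · exact hx0v (h1 ▸ h2)
    · exact hx0v' (h1 ▸ h2)
    · exact hx0K1 (h1 ▸ h2)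
  have hTs : seg q 0 n ⊆ insert v (insert v' K) := by
    intro x hx
    obtain ⟨t, _, ht, rfl⟩ := mem_seg.1 hx
    rw [Finset.mem_insert, Finset.mem_insert]
    rcases hin t ht with h2 | h2 | h2
    · exact Or.inl h2
    · exact Or.inr (Or.inl h2)
    · exact Or.inr (Or.inr (hK1K h2))
  have hTn : (seg q 0 n ∩ K).Nonempty := by
    have := hb.two
    exact ⟨q 1, Finset.mem_inter.2 ⟨mem_seg.2 ⟨1, by omega, by omega, rfl⟩,
      hK1K (hb.inK 1 (by omega) (by omega))⟩⟩
  have hx0seg : ∀ i j, j ≤ n → x0 ∉ seg q i j := by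
    intro i j hj h1
    obtain ⟨t, _, ht, h2⟩ := mem_seg.1 h1
    exact hqx0 t (by omega) h2
  have hx0s'adj : ¬ G.Adj s' x0 := by
    intro e
    refine h.nolink _ _ hT hTs hTn {x0} ?_ (Conn.singleton G x0) x0 (Finset.mem_singleton_self _) x0
      (Finset.mem_singleton_self _) ex0.symm e
    intro x hx
    rw [Finset.mem_singleton] at hx
    subst hx
    exact Finset.mem_sdiff.2 ⟨hx0, hx0seg 0 n le_rfl⟩
  -- neighbours of x0
  have hN0 : ∀ x ∈ nbh G {x0} \ {s}, ∃ i, i ≤ n ∧ q i = x := by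
    intro x hx
    rw [Finset.mem_sdiff, Finset.mem_singleton] at hx
    obtain ⟨hx1, hx2⟩ := hx
    obtain ⟨hx3, u, hu, e⟩ := mem_nbh.1 hx1
    rw [Finset.mem_singleton] at hu hx3
    subst hu
    by_cases hxK : x ∈ K
    · have hxK1 : x ∈ K1 := Finset.mem_erase.2 ⟨hx3, hxK⟩
      rcases hb.cov x hxK1 with h4 | ⟨t, _, ht, h4⟩
      · exact absurd e (hb.nS x h4 hxK1 u (by simp))
      · exact ⟨t, ht.le, h4⟩
    · have h4 : x ∈ nbh G K := mem_nbh.2 ⟨hxK, u, hx0, e⟩
      rw [h.nb] at h4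
      simp only [Finset.mem_insert, Finset.mem_singleton] at h4
      rcases h4 with rfl | rfl | rfl | rfl
      · exact ⟨0, Nat.zero_le _, hb.z⟩
      · exact ⟨n, le_rfl, hb.e⟩
      · exact absurd rfl hx2
      · exact absurd e.symm hx0s'adj
  obtain ⟨i, j, hij, hj, hpar, ei, ej⟩ : ∃ i j, i < j ∧ j ≤ n ∧ (j - i) % 2 = 0 ∧ G.Adj x0 (q i) ∧ G.Adj x0 (q j) := by
    have h1 := h.four {x0} (by
      intro x hx
      rw [Finset.mem_singleton] at hx
      exact hx ▸ hx0) ⟨x0, Finset.mem_singleton_self _⟩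
    have h2 := Finset.le_card_sdiff {s} (nbh G {x0})
    rw [Finset.card_singleton] at h2
    obtain ⟨x1, hx1, x2, hx2, x3, hx3, h12, h13, h23⟩ := (Finset.two_lt_card (s := nbh G {x0} \ {s})).1 (by omega)
    have hadj : ∀ x ∈ nbh G {x0} \ {s}, G.Adj x0 x := by
      intro x hx
      obtain ⟨_, u, hu, e⟩ := mem_nbh.1 (Finset.mem_sdiff.1 hx).1
      rw [Finset.mem_singleton] at hu
      exact hu ▸ e
    obtain ⟨l1, hl1, rfl⟩ := hN0 x1 hx1
    obtain ⟨l2, hl2, rfl⟩ := hN0 x2 hx2
    obtain ⟨l3, hl3, rfl⟩ := hN0 x3 hx3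
    have e1 := hadj _ hx1
    have e2 := hadj _ hx2
    have e3 := hadj _ hx3
    have n12 : l1 ≠ l2 := fun h => h12 (by rw [h])
    have n13 : l1 ≠ l3 := fun h => h13 (by rw [h])
    have n23 : l2 ≠ l3 := fun h => h23 (by rw [h])
    have pick : ∀ a b, a ≠ b → a ≤ n → b ≤ n → a % 2 = b % 2 → G.Adj x0 (q a) → G.Adj x0 (q b) →
        ∃ i j, i < j ∧ j ≤ n ∧ (j - i) % 2 = 0 ∧ G.Adj x0 (q i) ∧ G.Adj x0 (q j) := by
      intro a b hab ha hb' hp ea eb
      rcases lt_or_gt_of_ne hab with h | h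
      · exact ⟨a, b, h, hb', by omega, ea, eb⟩
      · exact ⟨b, a, h, ha, by omega, eb, ea⟩
    by_cases p12 : l1 % 2 = l2 % 2
    · exact pick _ _ n12 hl1 hl2 p12 e1 e2
    by_cases p13 : l1 % 2 = l3 % 2
    · exact pick _ _ n13 hl1 hl3 p13 e1 e3
    · exact pick _ _ n23 hl2 hl3 (by omega) e2 e3
  have hij2 : i + 2 ≤ j := by omega
  obtain ⟨L, N, hL, hN, hLK, hsL, hNL, hNq, hNK⟩ := h.outer hb hK1K (j := i + 1) (by omega)
    (hb.att (i + 1) (by omega) (by omega)) false
  have hx0W : x0 ∉ W := by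
    intro h1
    rcases Finset.mem_insert.1 (hb.sub h1) with h2 | h2
    · exact hx0s' h2
    · exact hx0K1 h2
  have hx0N : x0 ∉ N := by
    intro h1
    rcases hNK x0 h1 hx0 with h2 | h2
    · exact hqx0 (i + 1) (by omega) h2.symm
    · exact hx0W h2
  have hx0L : x0 ∉ L := fun h1 => hLK _ h1 hx0
  have hqL : ∀ t, 0 < t → t < n → q t ∉ L := fun t h1 h2 h3 => hLK _ h3 (hK1K (hb.inK t h1 h2))
  have hA := around hb.sq hL hqL hij hj
  have hp1 : (!decide (Odd (j - i))) = true := by
    simp [Nat.odd_iff, hpar]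
  rw [hp1] at hA
  have hS := (hb.sq.px (i := i + 1) (j := j) (by omega) hj).symm
  have hp2 : decide (Odd (j - (i + 1))) = true := by
    rw [decide_eq_true_iff, Nat.odd_iff]
    omega
  rw [hp2] at hS
  have hP := hN.cons ex0 hx0N
  have m1 : ∀ x ∈ seg q 0 i ∪ L ∪ seg q j n, x ∉ N := by
    intro x hx hxN
    rw [Finset.mem_union, Finset.mem_union, mem_seg, mem_seg] at hx
    rcases hx with (⟨t, _, ht, rfl⟩ | h1) | ⟨t, ht, ht', rfl⟩
    · have := hNq t (by omega) hxN
      omega
    · have h2 := hNL x hxN h1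
      exact hqL (i + 1) (by omega) (by omega) (h2 ▸ h1)
    · have := hNq t (by omega) hxN
      omega
  have m2 : ∀ x ∈ seg q 0 i ∪ L ∪ seg q j n, x ∈ seg q (i + 1) j → x = q j := by
    intro x hx hx'
    obtain ⟨t, ht1, ht2, rfl⟩ := mem_seg.1 hx'
    rw [Finset.mem_union, Finset.mem_union, hb.sq.mem (by omega) (by omega), hb.sq.mem (by omega) le_rfl] at hx
    rcases hx with (h1 | h1) | h1
    · omega
    · have : t = n := by
        by_contra hne
        exact hqL t (by omega) (by omega) h1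
      congr 1
      omega
    · congr 1
      omega
  have m3 : ∀ x ∈ seg q (i + 1) j, x ∈ N → x = q (i + 1) := by
    intro x hx hxN
    obtain ⟨t, ht1, ht2, rfl⟩ := mem_seg.1 hx
    rw [hNq t (by omega) hxN]
  have m4 : x0 ∉ seg q 0 i ∪ L ∪ seg q j n := by
    rw [Finset.mem_union, Finset.mem_union, not_or, not_or]
    exact ⟨⟨hx0seg _ _ (by omega), hx0L⟩, hx0seg _ _ le_rfl⟩
  have m5 : x0 ∉ seg q (i + 1) j := hx0seg _ _ hj
  have m6 : q i ∉ seg q (i + 1) j := by
    rw [hb.sq.mem (by omega) hj]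
    omega
  have m7 : q i ∉ N := by
    intro h1
    have := hNq i (by omega) h1
    omega
  have m8 : q j ∉ N := by
    intro h1
    have := hNq j (by omega) h1
    omega
  have m9 : q (i + 1) ∉ seg q 0 i ∪ L ∪ seg q j n := by
    rw [Finset.mem_union, Finset.mem_union, hb.sq.mem (by omega) (by omega), hb.sq.mem (by omega) le_rfl]
    rintro ((h1 | h1) | h1)
    · omega
    · exact hqL (i + 1) (by omega) (by omega) h1
    · omega
  have d1 : q i ≠ q j := fun h1 => by have := hb.sq.inj i j (by omega) hj h1; omega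
  have d2 : q i ≠ q (i + 1) := fun h1 => by have := hb.sq.inj i (i + 1) (by omega) (by omega) h1; omega
  have d3 : q j ≠ q (i + 1) := fun h1 => by have := hb.sq.inj j (i + 1) (by omega) (by omega) h1; omega
  have d4 : q i ≠ x0 := hqx0 i (by omega)
  have d5 : q j ≠ x0 := hqx0 j hj
  have d6 : q (i + 1) ≠ x0 := hqx0 (i + 1) (by omega)
  apply hno
  refine toks_mk (PX.edge ei) (PX.edge ej) hP hA (PX.edge (hb.sq.adj i (by omega))) hS ?_ ?_ ?_ ?_ ?_ ?_ ?_ ?_ ?_
    ?_ ?_ ?_ ?_ ?_ ?_ <;> clear hb hmin hlk0 hT hin hTs hTn hN0 hL hA hS hP hN <;>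
    generalize seg q 0 i ∪ L ∪ seg q j n = A4 at * <;> generalize seg q (i + 1) j = A6 at * <;>
    generalize q (i + 1) = y at * <;> generalize q i = z at * <;> generalize q j = z' at * <;>
    grind [Finset.disjoint_left]

end Cell

/-- **The cell lemma** -/
theorem Cell.toks {K : Finset V} {v v' s s' : V} (h : Cell G K v v' s s') : HasTOKS G := by
  suffices H : ∀ n : ℕ, ∀ (K : Finset V) (v v' s s' : V), K.card = n → Cell G K v v' s s' → HasTOKS G from
    H _ K v v' s s' rfl h
  intro n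
  induction n using Nat.strong_induction_on with
  | _ n ih =>
    intro K v v' s s' hn h
    by_contra hno
    refine hno (h.last ?_)
    intro Y hY hYK hY2
    have h4 := h.four Y hY (Finset.card_pos.1 (by omega))
    by_contra hlt
    obtain ⟨v1, v1', s1, s1', hc⟩ := h.sub hY hY2 (by omega)
    refine hno (ih Y.card ?_ Y v1 v1' s1 s1' rfl hc)
    rw [← hn]
    exact Finset.card_lt_card (Finset.ssubset_iff_subset_ne.2 ⟨hY, hYK⟩)

end Pool.Agent.TOKSN
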