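import Mathlib
import Pool.Agent.TOKSN.Toks
import Pool.Agent.TOKSN.HubPar
import Pool.Agent.TOKSN.FC
import Pool.Agent.TOKSN.Cell

/-!
# LINE N, (3C) section 3: a cover `P` with exactly two labels in `D1` is an induced path

`V = D1 + P + D3`, `D1`, `D3` hubs, the labels of `P` in `D1` are `p ≠ p'`. Then every `p`-`p'` path with interior in
`P` runs through all of `P` (otherwise the cell lemma gives a TOKS).
-/

set_option autoImplicit false
set_option linter.unusedSectionVars false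

namespace Pool.Agent.TOKSN

open Pool.Agent.TOKST (HasTOKS)
open Pool.Agent.TOKSP (nbh mem_nbh)

section Seg

variable {V : Type} [DecidableEq V] {G : SimpleGraph V} {S T : Finset V} {a b c x y : V} {k : Bool}
  {q : ℕ → V} {n i j : ℕ}

/-- `q 0, ..., q n` is a path -/
structure Enq (G : SimpleGraph V) (q : ℕ → V) (n : ℕ) : Prop where
  inj : ∀ i j, i ≤ n → j ≤ n → q i = q j → i = j
  adj : ∀ i, i < n → G.Adj (q i) (q (i + 1))

/-- the vertices `q i, ..., q j` -/
def sgc (q : ℕ → V) (i j : ℕ) : Finset V := (Finset.Icc i j).image q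

theorem mem_sgc : x ∈ sgc q i j ↔ ∃ m, i ≤ m ∧ m ≤ j ∧ q m = x := by
  simp [sgc, and_assoc]

theorem Enq.px (h : Enq G q n) (hij : i ≤ j) (hj : j ≤ n) :
    PX G (sgc q i j) (q i) (q j) (decide (Odd (j - i))) := by
  obtain ⟨m, rfl⟩ := Nat.exists_eq_add_of_le hij
  induction m with
  | zero =>
    have h1 : sgc q i (i + 0) = {q i} := by simp [sgc]
    rw [h1]
    simpa using PX.refl G (q i)
  | succ m ih =>
    have h1 : sgc q i (i + (m + 1)) = insert (q (i + m + 1)) (sgc q i (i + m)) := by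
      ext z
      rw [mem_sgc, Finset.mem_insert, mem_sgc]
      constructor
      · rintro ⟨l, h1, h2, rfl⟩
        by_cases h3 : l = i + m + 1
        · left
          rw [h3]
        · right
          exact ⟨l, h1, by omega, rfl⟩
      · rintro (rfl | ⟨l, h1, h2, rfl⟩)
        · exact ⟨i + m + 1, by omega, by omega, rfl⟩
        · exact ⟨l, h1, by omega, rfl⟩
    have h2 := ih (by omega) (by omega)
    have h3 : q (i + m + 1) ∉ sgc q i (i + m) := by
      rw [mem_sgc]
      rintro ⟨l, h3, h4, h5⟩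
      have := h.inj l (i + m + 1) (by omega) (by omega) h5
      omega
    have h4 := (PX.cons (h.adj (i + m) (by omega)).symm h2.symm h3).symm
    rw [h1]
    have h5 : (!decide (Odd (i + m - i))) = decide (Odd (i + (m + 1) - i)) := by
      rw [Nat.add_sub_cancel_left, Nat.add_sub_cancel_left]
      by_cases h6 : Odd m
      · have : ¬ Odd (m + 1) := by
          rw [Nat.odd_add_one]
          exact fun h7 => h7 h6
        simp [h6, this]
      · have : Odd (m + 1) := by
          rw [Nat.odd_add_one]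
          exact h6
        simp [h6, this]
    rw [← h5]
    exact h4

theorem Enq.conn (h : Enq G q n) (hij : i ≤ j) (hj : j ≤ n) : Conn G (sgc q i j) :=
  (h.px hij hj).conn

theorem PX.enq (h : PX G T a b k) : ∃ (q : ℕ → V) (n : ℕ), Enq G q n ∧ q 0 = a ∧ q n = b ∧
    sgc q 0 n = T ∧ (Odd n ↔ k = true) := by
  obtain ⟨p, hp, rfl, hk⟩ := h
  refine ⟨p.getVert, p.length, ⟨fun i j hi hj e => hp.getVert_injOn hi hj e,
    fun i hi => p.adj_getVert_succ hi⟩, p.getVert_zero, p.getVert_length, ?_, hk⟩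
  ext z
  rw [mem_sgc, List.mem_toFinset, SimpleGraph.Walk.mem_support_iff_exists_getVert]
  constructor
  · rintro ⟨m, _, h2, h3⟩
    exact ⟨m, h3, h2⟩
  · rintro ⟨m, h3, h2⟩
    exact ⟨m, Nat.zero_le _, h2, h3⟩

end Seg

variable {V : Type} [Fintype V] [DecidableEq V] {G : SimpleGraph V} {P D1 D3 T Z Y : Finset V}
  {p p' : V} {k : Bool} {q : ℕ → V} {n : ℕ}

/-- the situation of section 3: `p ≠ p'` are the labels of `P` in `D1` -/
structure Chain (G : SimpleGraph V) (P D1 D3 : Finset V) (p p' : V) : Prop where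
  cov : ∀ v, v ∈ P ∨ v ∈ D1 ∨ v ∈ D3
  d1 : Disjoint P D1
  d3 : Disjoint P D3
  d13 : Disjoint D1 D3
  hub1 : Hub G D1
  hub3 : Hub G D3
  pD : p ∈ D1
  pD' : p' ∈ D1
  ne : p ≠ p'
  lab : ∀ u ∈ P, ∀ v ∈ D1, G.Adj u v → v = p ∨ v = p'
  ep : ∃ u ∈ P, G.Adj p u
  ep' : ∃ u ∈ P, G.Adj p' u
  four : ∀ Z ⊆ P, Z.Nonempty → 4 ≤ (nbh G Z).card
  conn : Conn G P
  meet : ∀ X Y, X ⊆ P → Y ⊆ P → Conn G X → Conn G Y → Disjoint X Y →
    (∃ x ∈ X, G.Adj p x) → (∃ x ∈ X, G.Adj p' x) → ∀ s s', s ∈ D3 → s' ∈ D3 → s ≠ s' →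
    (∃ y ∈ Y, G.Adj s y) → (∃ y ∈ Y, G.Adj s' y) → False

theorem Chain.pP (C : Chain G P D1 D3 p p') : p ∉ P := fun h => Finset.disjoint_left.1 C.d1 h C.pD

theorem Chain.pP' (C : Chain G P D1 D3 p p') : p' ∉ P := fun h => Finset.disjoint_left.1 C.d1 h C.pD'

/-- enumeration of a path through `P` -/
theorem Chain.enum (C : Chain G P D1 D3 p p') (hT : PX G T p p' k)
    (hs : T ⊆ insert p (insert p' P)) (hz : ∃ z ∈ T, z ∈ P) :
    ∃ (q : ℕ → V) (n : ℕ), Enq G q n ∧ q 0 = p ∧ q n = p' ∧ sgc q 0 n = T ∧ 2 ≤ n ∧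
      ∀ i, 0 < i → i < n → q i ∈ P := by
  obtain ⟨q, n, hE, h0, hn, hT', -⟩ := hT.enq
  have hin : ∀ i, 0 < i → i < n → q i ∈ P := by
    intro i hi hin
    have h1 : q i ∈ T := by
      rw [← hT', mem_sgc]
      exact ⟨i, by omega, by omega, rfl⟩
    rcases Finset.mem_insert.1 (hs h1) with h2 | h2
    · have := hE.inj i 0 (by omega) (by omega) (h2.trans h0.symm)
      omega
    · rcases Finset.mem_insert.1 h2 with h2 | h2
      · have := hE.inj i n (by omega) (by omega) (h2.trans hn.symm)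
        omega
      · exact h2
  refine ⟨q, n, hE, h0, hn, hT', ?_, hin⟩
  obtain ⟨z, hzT, hzP⟩ := hz
  rw [← hT', mem_sgc] at hzT
  obtain ⟨m, -, hm, rfl⟩ := hzT
  have h1 : m ≠ 0 := by
    rintro rfl
    exact C.pP (h0 ▸ hzP)
  have h2 : m ≠ n := by
    rintro rfl
    exact C.pP' (hn ▸ hzP)
  omega

/-- a connected subset of `P` disjoint from a `p`-`p'` path through `P` has at most one label in `D3` -/
theorem Chain.meet_path (C : Chain G P D1 D3 p p') (hT : PX G T p p' k)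
    (hs : T ⊆ insert p (insert p' P)) (hz : ∃ z ∈ T, z ∈ P) (hY : Y ⊆ P) (hYc : Conn G Y)
    (hd : Disjoint T Y) : (nbh G Y ∩ D3).card ≤ 1 := by
  obtain ⟨q, n, hE, h0, hn, hT', h2, hin⟩ := C.enum hT hs hz
  rw [Finset.card_le_one]
  intro s hs1 s' hs2
  by_contra hne
  rw [Finset.mem_inter, mem_nbh] at hs1 hs2
  refine C.meet (sgc q 1 (n - 1)) Y ?_ hY (hE.conn (by omega) (by omega)) hYc ?_ ?_ ?_ s s' hs1.2 hs2.2
    hne ?_ ?_
  · intro z hz'
    rw [mem_sgc] at hz'
    obtain ⟨m, h3, h4, rfl⟩ := hz'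
    exact hin m (by omega) (by omega)
  · refine Finset.disjoint_of_subset_left ?_ hd
    intro z hz'
    rw [mem_sgc] at hz'
    obtain ⟨m, h3, h4, rfl⟩ := hz'
    rw [← hT', mem_sgc]
    exact ⟨m, by omega, by omega, rfl⟩
  · refine ⟨q 1, mem_sgc.2 ⟨1, by omega, by omega, rfl⟩, ?_⟩
    rw [← h0]
    exact hE.adj 0 (by omega)
  · refine ⟨q (n - 1), mem_sgc.2 ⟨n - 1, by omega, by omega, rfl⟩, ?_⟩
    have := hE.adj (n - 1) (by omega)
    rw [Nat.sub_add_cancel (by omega), hn] at this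
    exact this.symm
  · obtain ⟨x, hx, e⟩ := hs1.1.2
    exact ⟨x, hx, e.symm⟩
  · obtain ⟨x, hx, e⟩ := hs2.1.2
    exact ⟨x, hx, e.symm⟩

/-- a path through `P` with a maximum connected set `Z` outside -/
structure Mx (G : SimpleGraph V) (P D1 D3 : Finset V) (p p' : V) (q : ℕ → V) (n : ℕ)
    (Z : Finset V) : Prop where
  C : Chain G P D1 D3 p p'
  E : Enq G q n
  h0 : q 0 = p
  hn : q n = p'
  two : 2 ≤ n
  inn : ∀ i, 0 < i → i < n → q i ∈ P
  ZP : Z ⊆ P
  Zc : Conn G Z
  Zd : ∀ i, i ≤ n → q i ∉ Z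
  max : ∀ (T : Finset V) (k : Bool) (Z' : Finset V), PX G T p p' k → T ⊆ insert p (insert p' P) →
    (∃ z ∈ T, z ∈ P) → Z' ⊆ P → Conn G Z' → Disjoint T Z' → Z'.card ≤ Z.card

variable {x y i j : ℕ} {R : Finset V} {w z u v : V}

theorem Mx.sgc_sub (M : Mx G P D1 D3 p p' q n Z) (hj : j ≤ n) : sgc q i j ⊆ insert p (insert p' P) := by
  intro v hv
  rw [mem_sgc] at hv
  obtain ⟨m, -, hm, rfl⟩ := hv
  rw [Finset.mem_insert, Finset.mem_insert]
  by_cases h1 : m = 0
  · left
    rw [h1, M.h0]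
  · by_cases h2 : m = n
    · right
      left
      rw [h2, M.hn]
    · right
      right
      exact M.inn m (by omega) (by omega)

/-- `Z` is a component of `P` minus the path -/
theorem Mx.Zcl (M : Mx G P D1 D3 p p' q n Z) (hu : u ∈ P) (hq : ∀ i, i ≤ n → q i ≠ u) (huZ : u ∉ Z)
    (hz : z ∈ Z) (e : G.Adj u z) : False := by
  have hd : Disjoint (sgc q 0 n) (insert u Z) := by
    rw [Finset.disjoint_left]
    intro v hv hv'
    rw [mem_sgc] at hv
    obtain ⟨m, -, hm, rfl⟩ := hv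
    rcases Finset.mem_insert.1 hv' with h1 | h1
    · exact hq m hm h1
    · exact M.Zd m hm h1
  have h1 := M.E.px (Nat.zero_le n) (le_refl n)
  rw [M.h0, M.hn] at h1
  have h2 := M.max _ _ (insert u Z) h1 (M.sgc_sub (le_refl n)) ⟨q 1, mem_sgc.2 ⟨1, by omega, by
    have := M.two
    omega, rfl⟩, M.inn 1 (by omega) (by have := M.two; omega)⟩ (Finset.insert_subset hu M.ZP)
    (M.Zc.insert ⟨z, hz, e.symm⟩) hd
  rw [Finset.card_insert_of_notMem huZ] at h2
  omega

/-- rerouting the path -/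
theorem Mx.reroute (M : Mx G P D1 D3 p p' q n Z) (hxy : x < y) (hy : y ≤ n)
    (hR : PX G R (q x) (q y) k) (hR1 : ∀ i, i ≤ n → q i ∈ R → x ≤ i ∧ i ≤ y)
    (hR2 : ∀ v ∈ R, v = q x ∨ v = q y ∨ v ∈ P) (hR3 : 0 < x ∨ y < n ∨ ∃ v ∈ R, v ∈ P) :
    ∃ k', PX G (sgc q 0 x ∪ (R ∪ sgc q y n)) p p' k' ∧
      sgc q 0 x ∪ (R ∪ sgc q y n) ⊆ insert p (insert p' P) ∧
      ∃ z ∈ sgc q 0 x ∪ (R ∪ sgc q y n), z ∈ P := by
  have h1 := M.E.px (Nat.zero_le x) (by omega : x ≤ n)
  have h2 := M.E.px hy (le_refl n)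
  rw [M.h0] at h1
  rw [M.hn] at h2
  have h3 := hR.concat h2 (fun v hv hv' => by
    rw [mem_sgc] at hv'
    obtain ⟨m, hm1, hm2, rfl⟩ := hv'
    have h4 := hR1 m hm2 hv
    rw [show m = y by omega])
  have h4 := h1.concat h3 (fun v hv hv' => by
    rw [mem_sgc] at hv
    obtain ⟨m, hm1, hm2, rfl⟩ := hv
    rcases Finset.mem_union.1 hv' with h4 | h4
    · have h5 := hR1 m (by omega) h4
      rw [show m = x by omega]
    · rw [mem_sgc] at h4
      obtain ⟨m', hm1', hm2', h5⟩ := h4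
      have := M.E.inj m' m hm2' (by omega) h5
      omega)
  refine ⟨_, h4, ?_, ?_⟩
  · refine Finset.union_subset (M.sgc_sub (by omega)) (Finset.union_subset ?_ (M.sgc_sub (le_refl n)))
    intro v hv
    rcases hR2 v hv with rfl | rfl | h5
    · exact M.sgc_sub (j := x) (by omega) (mem_sgc.2 ⟨x, le_refl x, le_refl x, rfl⟩)
    · exact M.sgc_sub hy (mem_sgc.2 ⟨y, le_refl y, le_refl y, rfl⟩)
    · exact Finset.mem_insert_of_mem (Finset.mem_insert_of_mem h5)
  · rcases hR3 with h5 | h5 | ⟨v, hv, hvP⟩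
    · exact ⟨q x, Finset.mem_union_left _ (mem_sgc.2 ⟨x, by omega, le_refl x, rfl⟩),
        M.inn x h5 (by omega)⟩
    · exact ⟨q y, Finset.mem_union_right _ (Finset.mem_union_right _ (mem_sgc.2 ⟨y, le_refl y, hy, rfl⟩)),
        M.inn y (by omega) h5⟩
    · exact ⟨v, Finset.mem_union_right _ (Finset.mem_union_left _ hv), hvP⟩

/-- (r): rerouting around a neighbour of `Z` is impossible -/
theorem Mx.rr (M : Mx G P D1 D3 p p' q n Z) (hxy : x < y) (hy : y ≤ n)
    (hR : PX G R (q x) (q y) k) (hR1 : ∀ i, i ≤ n → q i ∈ R → i = x ∨ i = y)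
    (hR2 : ∀ v ∈ R, v = q x ∨ v = q y ∨ v ∈ P) (hR3 : 0 < x ∨ y < n ∨ ∃ v ∈ R, v ∈ P)
    (hR4 : ∀ v ∈ R, v ∉ Z) {a : ℕ} (ha1 : x < a) (ha2 : a < y) (hz : z ∈ Z) (e : G.Adj (q a) z) :
    False := by
  obtain ⟨k', h1, h2, h3⟩ := M.reroute hxy hy hR (fun i hi h => by
    rcases hR1 i hi h with h4 | h4 <;> omega) hR2 hR3
  have hd : Disjoint (sgc q 0 x ∪ (R ∪ sgc q y n)) (insert (q a) Z) := by
    rw [Finset.disjoint_left]
    intro v hv hv'
    rcases Finset.mem_union.1 hv with h4 | h4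
    · rw [mem_sgc] at h4
      obtain ⟨m, -, hm, rfl⟩ := h4
      rcases Finset.mem_insert.1 hv' with h5 | h5
      · have := M.E.inj m a (by omega) (by omega) h5
        omega
      · exact M.Zd m (by omega) h5
    · rcases Finset.mem_union.1 h4 with h4 | h4
      · rcases Finset.mem_insert.1 hv' with h5 | h5
        · rcases hR1 a (by omega) (h5 ▸ h4) with h6 | h6 <;> omega
        · exact hR4 v h4 h5
      · rw [mem_sgc] at h4
        obtain ⟨m, hm', hm, rfl⟩ := h4
        rcases Finset.mem_insert.1 hv' with h5 | h5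
        · have := M.E.inj m a (by omega) (by omega) h5
          omega
        · exact M.Zd m (by omega) h5
  have h4 := M.max _ _ (insert (q a) Z) h1 h2 h3
    (Finset.insert_subset (M.inn a (by omega) (by omega)) M.ZP) (M.Zc.insert ⟨z, hz, e.symm⟩) hd
  rw [Finset.card_insert_of_notMem (M.Zd a (by omega))] at h4
  omega

/-- (r) for a chord -/
theorem Mx.chord (M : Mx G P D1 D3 p p' q n Z) (hy : y ≤ n) (hR3 : 0 < x ∨ y < n)
    (exy : G.Adj (q x) (q y)) {a : ℕ} (ha1 : x < a) (ha2 : a < y) (hz : z ∈ Z) (e : G.Adj (q a) z) :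
    False := by
  refine M.rr (x := x) (y := y) (by omega) hy (PX.edge exy) ?_ ?_ ?_ ?_ ha1 ha2 hz e
  · intro i hi h1
    rw [Finset.mem_insert, Finset.mem_singleton] at h1
    rcases h1 with h1 | h1
    · exact Or.inl (M.E.inj i x hi (by omega) h1)
    · exact Or.inr (M.E.inj i y hi (by omega) h1)
  · intro v hv
    rw [Finset.mem_insert, Finset.mem_singleton] at hv
    rcases hv with h1 | h1
    · exact Or.inl h1
    · exact Or.inr (Or.inl h1)
  · rcases hR3 with h1 | h1
    · exact Or.inl h1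
    · exact Or.inr (Or.inl h1)
  · intro v hv
    rw [Finset.mem_insert, Finset.mem_singleton] at hv
    rcases hv with rfl | rfl
    · exact M.Zd x (by omega)
    · exact M.Zd y hy

/-- a path with ends `a`, `b` through a connected set -/
theorem exists_earc {S : Finset V} {a b : V} (hX : Conn G S) (ha : a ∉ S) (hb : b ∉ S) (hab : a ≠ b)
    (ea : ∃ x ∈ S, G.Adj a x) (eb : ∃ y ∈ S, G.Adj b y) :
    ∃ T k, PX G T a b k ∧ T ⊆ insert a (insert b S) ∧ ∃ x ∈ T, x ∈ S := by
  obtain ⟨x, hx, ex⟩ := ea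
  obtain ⟨y, hy, ey⟩ := eb
  obtain ⟨k, T, hTS, hT⟩ := hX.2 x hx y hy
  have h1 : PX G (insert b T) b x (!k) := PX.cons ey hT.symm (fun h => hb (hTS h))
  have h2 : PX G (insert a (insert b T)) a b (!!k) := by
    refine PX.cons ex h1.symm ?_
    rw [Finset.mem_insert, not_or]
    exact ⟨hab, fun h => ha (hTS h)⟩
  refine ⟨_, _, h2, ?_, x, ?_, hx⟩
  · exact Finset.insert_subset_insert _ (Finset.insert_subset_insert _ hTS)
  · exact Finset.mem_insert_of_mem (Finset.mem_insert_of_mem hT.left_mem)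

/-- the path through `S` from `q x` to `q y`, as used in `Mx.reroute` -/
theorem Mx.ear (M : Mx G P D1 D3 p p' q n Z) {S : Finset V} (hS : Conn G S) (hSP : S ⊆ P)
    (hSq : ∀ i, i ≤ n → q i ∉ S) (hxy : x < y) (hy : y ≤ n) (ex : ∃ s ∈ S, G.Adj (q x) s)
    (ey : ∃ s ∈ S, G.Adj (q y) s) :
    ∃ R k, PX G R (q x) (q y) k ∧ (∀ i, i ≤ n → q i ∈ R → i = x ∨ i = y) ∧
      (∀ v ∈ R, v = q x ∨ v = q y ∨ v ∈ S) ∧ ∃ v ∈ R, v ∈ P := by
  have hne : q x ≠ q y := fun h => by
    have := M.E.inj x y (by omega) hy h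
    omega
  obtain ⟨R, k, h1, h2, v, hv, hvS⟩ := exists_earc hS (hSq x (by omega)) (hSq y hy) hne ex ey
  have h3 : ∀ v ∈ R, v = q x ∨ v = q y ∨ v ∈ S := by
    intro v hv
    have := h2 hv
    rw [Finset.mem_insert, Finset.mem_insert] at this
    exact this
  refine ⟨R, k, h1, ?_, h3, v, hv, hSP hvS⟩
  intro i hi hiR
  rcases h3 _ hiR with h4 | h4 | h4
  · exact Or.inl (M.E.inj i x hi (by omega) h4)
  · exact Or.inr (M.E.inj i y hi hy h4)
  · exact absurd h4 (hSq i hi)

/-- (r) for another connected set outside the path -/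
theorem Mx.comp (M : Mx G P D1 D3 p p' q n Z) {S : Finset V} (hS : Conn G S) (hSP : S ⊆ P)
    (hSq : ∀ i, i ≤ n → q i ∉ S) (hSZ : Disjoint S Z) (hy : y ≤ n)
    (ex : ∃ s ∈ S, G.Adj (q x) s) (ey : ∃ s ∈ S, G.Adj (q y) s) {a : ℕ} (ha1 : x < a) (ha2 : a < y)
    (hz : z ∈ Z) (e : G.Adj (q a) z) : False := by
  obtain ⟨R, k, h1, h2, h3, h4⟩ := M.ear hS hSP hSq (by omega : x < y) hy ex ey
  refine M.rr (by omega : x < y) hy h1 h2 ?_ (Or.inr (Or.inr h4)) ?_ ha1 ha2 hz e
  · intro v hv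
    rcases h3 v hv with h5 | h5 | h5
    · exact Or.inl h5
    · exact Or.inr (Or.inl h5)
    · exact Or.inr (Or.inr (hSP h5))
  · intro v hv
    rcases h3 v hv with rfl | rfl | h5
    · exact M.Zd x (by omega)
    · exact M.Zd y hy
    · exact Finset.disjoint_left.1 hSZ h5

/-- a vertex of the boundary of a subset of `P` -/
theorem Chain.nb_cases (C : Chain G P D1 D3 p p') (hY : Y ⊆ P) (hv : v ∈ nbh G Y) :
    (v ∈ P ∨ v = p ∨ v = p') ∨ v ∈ nbh G Y ∩ D3 := by
  rcases C.cov v with h | h | h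
  · exact Or.inl (Or.inl h)
  · obtain ⟨-, x, hx, e⟩ := mem_nbh.1 hv
    exact Or.inl (Or.inr (C.lab x (hY hx) v h e))
  · exact Or.inr (Finset.mem_inter.2 ⟨hv, h⟩)

/-- the path rerouted through `Z` -/
theorem Mx.viaZ (M : Mx G P D1 D3 p p' q n Z) (hij : i < j) (hj : j ≤ n)
    (ei : ∃ z ∈ Z, G.Adj (q i) z) (ej : ∃ z ∈ Z, G.Adj (q j) z) {U : Finset V} (hU : U ⊆ P)
    (hUc : Conn G U) (hU1 : ∀ m, m ≤ i → q m ∉ U) (hU2 : ∀ m, j ≤ m → m ≤ n → q m ∉ U)
    (hUZ : Disjoint U Z) : (nbh G U ∩ D3).card ≤ 1 := by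
  obtain ⟨R, k, h1, h2, h3, h4⟩ := M.ear M.Zc M.ZP M.Zd hij hj ei ej
  obtain ⟨k', g1, g2, g3⟩ := M.reroute hij hj h1 (fun m hm h => by
    rcases h2 m hm h with h4 | h4 <;> omega) (fun v hv => by
    rcases h3 v hv with h5 | h5 | h5
    · exact Or.inl h5
    · exact Or.inr (Or.inl h5)
    · exact Or.inr (Or.inr (M.ZP h5))) (Or.inr (Or.inr h4))
  refine M.C.meet_path g1 g2 g3 hU hUc ?_
  rw [Finset.disjoint_left]
  intro v hv hvU
  rcases Finset.mem_union.1 hv with h5 | h5
  · rw [mem_sgc] at h5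
    obtain ⟨m, -, hm, rfl⟩ := h5
    exact hU1 m hm hvU
  · rcases Finset.mem_union.1 h5 with h5 | h5
    · rcases h3 v h5 with rfl | rfl | h6
      · exact hU1 i (le_refl i) hvU
      · exact hU2 j (le_refl j) hj hvU
      · exact Finset.disjoint_left.1 hUZ hvU h6
    · rw [mem_sgc] at h5
      obtain ⟨m, hm', hm, rfl⟩ := h5
      exact hU2 m hm' hm hvU

/-- consecutive feet of `Z` are consecutive vertices of the path -/
theorem Mx.gap (M : Mx G P D1 D3 p p' q n Z) (hij : i < j) (hj : j ≤ n)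
    (ei : ∃ z ∈ Z, G.Adj (q i) z) (ej : ∃ z ∈ Z, G.Adj (q j) z)
    (hno : ∀ c, i < c → c < j → ∀ z ∈ Z, ¬ G.Adj (q c) z) : j = i + 1 := by
  by_contra hne
  set S0 : Finset V := P \ (sgc q 0 i ∪ sgc q j n ∪ Z) with hS0
  have hmS0 : ∀ v, v ∈ S0 ↔ v ∈ P ∧ (∀ m, m ≤ i → q m ≠ v) ∧ (∀ m, j ≤ m → m ≤ n → q m ≠ v) ∧
      v ∉ Z := by
    intro v
    rw [hS0, Finset.mem_sdiff, Finset.mem_union, Finset.mem_union, mem_sgc, mem_sgc]
    constructor
    · rintro ⟨h1, h2⟩
      refine ⟨h1, fun m hm h3 => h2 (Or.inl (Or.inl ⟨m, by omega, hm, h3⟩)),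
        fun m hm hm' h3 => h2 (Or.inl (Or.inr ⟨m, hm, hm', h3⟩)), fun h3 => h2 (Or.inr h3)⟩
    · rintro ⟨h1, h2, h3, h4⟩
      refine ⟨h1, ?_⟩
      rintro ((⟨m, -, hm, h5⟩ | ⟨m, hm, hm', h5⟩) | h5)
      · exact h2 m hm h5
      · exact h3 m hm hm' h5
      · exact h4 h5
  have hJ : ∀ c, i < c → c < j → q c ∈ S0 := by
    intro c hc1 hc2
    rw [hmS0]
    refine ⟨M.inn c (by omega) (by omega), ?_, ?_, M.Zd c (by omega)⟩
    · intro m hm h1
      have := M.E.inj m c (by omega) (by omega) h1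
      omega
    · intro m hm hm' h1
      have := M.E.inj m c (by omega) (by omega) h1
      omega
  have hq1 : q (i + 1) ∈ S0 := hJ (i + 1) (by omega) (by omega)
  set U := cmp G S0 (q (i + 1)) with hU
  have hUc : Conn G U := cmp_conn hq1
  have hUS : U ⊆ S0 := cmp_sub
  have hUP : U ⊆ P := fun v hv => ((hmS0 v).1 (hUS hv)).1
  have hq1U : q (i + 1) ∈ U := mem_cmp_self hq1
  have hU3 : (nbh G U ∩ D3).card ≤ 1 := by
    refine M.viaZ hij hj ei ej hUP hUc ?_ ?_ ?_
    · intro m hm h1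
      exact ((hmS0 _).1 (hUS h1)).2.1 m hm rfl
    · intro m hm hm' h1
      exact ((hmS0 _).1 (hUS h1)).2.2.1 m hm hm' rfl
    · rw [Finset.disjoint_left]
      intro v hv
      exact ((hmS0 _).1 (hUS hv)).2.2.2
  -- a path of the component to the gap
  have hpath : ∀ u ∈ U, ∃ c R k, i < c ∧ c < j ∧ PX G R u (q c) k ∧ R ⊆ U ∧
      ∀ m, m ≤ n → q m ∈ R → m = c := by
    intro u hu
    obtain ⟨k1, R1, hR1, hP1⟩ := hUc.2 u hu _ hq1U
    obtain ⟨x', T1, T2, k2, k3, g1, g2, g3, g4, g5, g6, g7⟩ := hP1.first (B := sgc q 0 n)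
      ⟨q (i + 1), hP1.right_mem, mem_sgc.2 ⟨i + 1, by omega, by omega, rfl⟩⟩
    rw [mem_sgc] at g6
    obtain ⟨c, -, hc, rfl⟩ := g6
    have hT1 : T1 ⊆ U := (g3 ▸ Finset.subset_union_left : T1 ⊆ R1).trans hR1
    have hcS := (hmS0 _).1 (hUS (hT1 g1.right_mem))
    refine ⟨c, T1, k2, ?_, ?_, g1, hT1, ?_⟩
    · by_contra h
      exact hcS.2.1 c (by omega) rfl
    · by_contra h
      exact hcS.2.2.1 c (by omega) hc rfl
    · intro m hm hm'
      have := g7 _ hm' (mem_sgc.2 ⟨m, by omega, hm, rfl⟩)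
      exact M.E.inj m c hm hc this
  have hUZ : ∀ v ∈ U, v ∉ Z := fun v hv => ((hmS0 _).1 (hUS hv)).2.2.2
  have hsub : nbh G U ⊆ {q i, q j} ∪ (nbh G U ∩ D3) := by
    intro v hv
    rcases M.C.nb_cases hUP hv with h1 | h1
    · obtain ⟨hvU, u, hu, e⟩ := mem_nbh.1 hv
      -- `v` is on the path or in `Z`
      have h2 : (∃ m, m ≤ i ∧ q m = v) ∨ (∃ m, j ≤ m ∧ m ≤ n ∧ q m = v) ∨ v ∈ Z := by
        rcases h1 with h1 | h1 | h1
        · by_contra hcon
          push Not at hcon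
          refine hvU (cmp_closed hu ?_ e)
          rw [hmS0]
          exact ⟨h1, hcon.1, hcon.2.1, hcon.2.2⟩
        · exact Or.inl ⟨0, by omega, by rw [M.h0, h1]⟩
        · exact Or.inr (Or.inl ⟨n, hj, le_refl n, by rw [M.hn, h1]⟩)
      rcases h2 with ⟨m, hm, rfl⟩ | ⟨m, hm, hm', rfl⟩ | hvZ
      · rcases Nat.lt_or_ge m i with hmi | hmi
        · exfalso
          obtain ⟨c, R, k, hc1, hc2, hR, hRU, hRm⟩ := hpath u hu
          obtain ⟨z, hz, ez⟩ := ei
          have hmR : q m ∉ R := fun h => by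
            have := hRm m (by omega) h
            omega
          refine M.rr (x := m) (y := c) (by omega) (by omega) (PX.cons e.symm hR hmR) ?_ ?_
            (Or.inr (Or.inl (by omega))) ?_ hmi hc1 hz ez
          · intro l hl hl'
            rcases Finset.mem_insert.1 hl' with h3 | h3
            · exact Or.inl (M.E.inj l m hl (by omega) h3)
            · exact Or.inr (hRm l hl h3)
          · intro v hv
            rcases Finset.mem_insert.1 hv with h3 | h3
            · exact Or.inl h3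
            · exact Or.inr (Or.inr (hUP (hRU h3)))
          · intro v hv
            rcases Finset.mem_insert.1 hv with h3 | h3
            · rw [h3]
              exact M.Zd m (by omega)
            · exact hUZ v (hRU h3)
        · rw [show m = i by omega]
          simp
      · rcases Nat.lt_or_ge j m with hmj | hmj
        · exfalso
          obtain ⟨c, R, k, hc1, hc2, hR, hRU, hRm⟩ := hpath u hu
          obtain ⟨z, hz, ez⟩ := ej
          have hmR : q m ∉ R := fun h => by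
            have := hRm m (by omega) h
            omega
          refine M.rr (x := c) (y := m) (by omega) (by omega) (PX.cons e.symm hR hmR).symm ?_ ?_
            (Or.inl (by omega)) ?_ hc2 hmj hz ez
          · intro l hl hl'
            rcases Finset.mem_insert.1 hl' with h3 | h3
            · exact Or.inr (M.E.inj l m hl (by omega) h3)
            · exact Or.inl (hRm l hl h3)
          · intro v hv
            rcases Finset.mem_insert.1 hv with h3 | h3
            · exact Or.inr (Or.inl h3)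
            · exact Or.inr (Or.inr (hUP (hRU h3)))
          · intro v hv
            rcases Finset.mem_insert.1 hv with h3 | h3
            · rw [h3]
              exact M.Zd m (by omega)
            · exact hUZ v (hRU h3)
        · rw [show m = j by omega]
          simp
      · exfalso
        by_cases hq : ∃ c, c ≤ n ∧ q c = u
        · obtain ⟨c, hc, rfl⟩ := hq
          have hcS := (hmS0 _).1 (hUS hu)
          have hc1 : i < c := by
            by_contra h
            exact hcS.2.1 c (by omega) rfl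
          have hc2 : c < j := by
            by_contra h
            exact hcS.2.2.1 c (by omega) hc rfl
          exact hno c hc1 hc2 v hvZ e
        · push Not at hq
          exact M.Zcl (hUP hu) hq (hUZ u hu) hvZ e
    · exact Finset.mem_union_right _ h1
  have h1 := M.C.four U hUP ⟨_, hq1U⟩
  have h2 := Finset.card_le_card hsub
  have h3 := Finset.card_union_le {q i, q j} (nbh G U ∩ D3)
  have h4 : ({q i, q j} : Finset V).card ≤ 2 := Finset.card_le_two
  omega

/-- no other component is attached to the part of the path between the first and the last foot of `Z` -/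
theorem Mx.other (M : Mx G P D1 D3 p p' q n Z) {a b : ℕ} (hb : b ≤ n)
    (hA : ∀ c, a ≤ c → c ≤ b → ∃ z ∈ Z, G.Adj (q c) z) (hax : a < x) (hxb : x < b) (hw : w ∈ P)
    (hwq : ∀ i, i ≤ n → q i ≠ w) (hwZ : w ∉ Z) (e : G.Adj (q x) w) : False := by
  set S0 : Finset V := P \ (sgc q 0 n ∪ Z) with hS0
  have hmS0 : ∀ v, v ∈ S0 ↔ v ∈ P ∧ (∀ m, m ≤ n → q m ≠ v) ∧ v ∉ Z := by
    intro v
    rw [hS0, Finset.mem_sdiff, Finset.mem_union, mem_sgc]
    constructor
    · rintro ⟨h1, h2⟩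
      exact ⟨h1, fun m hm h3 => h2 (Or.inl ⟨m, by omega, hm, h3⟩), fun h3 => h2 (Or.inr h3)⟩
    · rintro ⟨h1, h2, h3⟩
      refine ⟨h1, ?_⟩
      rintro (⟨m, -, hm, h5⟩ | h5)
      · exact h2 m hm h5
      · exact h3 h5
  have hwS : w ∈ S0 := (hmS0 w).2 ⟨hw, hwq, hwZ⟩
  set S := cmp G S0 w with hS
  have hSc : Conn G S := cmp_conn hwS
  have hSS : S ⊆ S0 := cmp_sub
  have hSP : S ⊆ P := fun v hv => ((hmS0 v).1 (hSS hv)).1
  have hSq : ∀ i, i ≤ n → q i ∉ S := fun i hi h => ((hmS0 _).1 (hSS h)).2.1 i hi rfl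
  have hSZ : Disjoint S Z := by
    rw [Finset.disjoint_left]
    intro v hv
    exact ((hmS0 v).1 (hSS hv)).2.2
  have hwSS : w ∈ S := mem_cmp_self hwS
  have hS3 : (nbh G S ∩ D3).card ≤ 1 := by
    have h1 := M.E.px (Nat.zero_le n) (le_refl n)
    rw [M.h0, M.hn] at h1
    have h2 := M.two
    refine M.C.meet_path h1 (M.sgc_sub (le_refl n)) ⟨q 1, mem_sgc.2 ⟨1, by omega, by omega, rfl⟩,
      M.inn 1 (by omega) (by omega)⟩ hSP hSc ?_
    rw [Finset.disjoint_left]
    intro v hv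
    rw [mem_sgc] at hv
    obtain ⟨m, -, hm, rfl⟩ := hv
    exact hSq m hm
  have hex : ∃ s ∈ S, G.Adj (q x) s := ⟨w, hwSS, e⟩
  -- the feet are near `x`
  have hfoot : ∀ m, m ≤ n → (∃ s ∈ S, G.Adj (q m) s) → m + 1 = x ∨ m = x ∨ m = x + 1 := by
    intro m hm hms
    by_contra hcon
    push Not at hcon
    rcases Nat.lt_or_ge m x with h1 | h1
    · obtain ⟨z, hz, ez⟩ := hA (x - 1) (by omega) (by omega)
      exact M.comp hSc hSP hSq hSZ (by omega : x ≤ n) hms hex (by omega) (by omega) hz ez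
    · obtain ⟨z, hz, ez⟩ := hA (x + 1) (by omega) (by omega)
      exact M.comp hSc hSP hSq hSZ hm hex hms (by omega) (by omega) hz ez
  have hboth : ¬ ((∃ s ∈ S, G.Adj (q (x - 1)) s) ∧ (∃ s ∈ S, G.Adj (q (x + 1)) s)) := by
    rintro ⟨h1, h2⟩
    obtain ⟨z, hz, ez⟩ := hA x (by omega) (by omega)
    exact M.comp hSc hSP hSq hSZ (by omega : x + 1 ≤ n) h1 h2 (by omega) (by omega) hz ez
  have hon : ∀ v, v ∈ nbh G S → v ∈ nbh G S ∩ D3 ∨ ∃ m, m ≤ n ∧ q m = v ∧ ∃ s ∈ S, G.Adj (q m) s := by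
    intro v hv
    rcases M.C.nb_cases hSP hv with h1 | h1
    · right
      obtain ⟨hvS, u, hu, e'⟩ := mem_nbh.1 hv
      rcases h1 with h1 | h1 | h1
      · by_cases hvq : ∃ m, m ≤ n ∧ q m = v
        · obtain ⟨m, hm, rfl⟩ := hvq
          exact ⟨m, hm, rfl, u, hu, e'.symm⟩
        · push Not at hvq
          exfalso
          by_cases hvZ : v ∈ Z
          · have hu' := (hmS0 u).1 (hSS hu)
            exact M.Zcl hu'.1 hu'.2.1 hu'.2.2 hvZ e'
          · exact hvS (cmp_closed hu ((hmS0 v).2 ⟨h1, hvq, hvZ⟩) e')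
      · exact ⟨0, by omega, by rw [M.h0, h1], u, hu, by rw [M.h0, ← h1]; exact e'.symm⟩
      · exact ⟨n, le_refl n, by rw [M.hn, h1], u, hu, by rw [M.hn, ← h1]; exact e'.symm⟩
    · exact Or.inl h1
  have key : ∃ m1 m2 : ℕ, nbh G S ⊆ {q m1, q m2} ∪ (nbh G S ∩ D3) := by
    by_cases h1 : ∃ s ∈ S, G.Adj (q (x - 1)) s
    · refine ⟨x - 1, x, ?_⟩
      intro v hv
      rcases hon v hv with h2 | ⟨m, hm, rfl, hms⟩
      · exact Finset.mem_union_right _ h2
      · rcases hfoot m hm hms with h3 | h3 | h3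
        · rw [show m = x - 1 by omega]
          simp
        · rw [h3]
          simp
        · exact absurd ⟨h1, h3 ▸ hms⟩ hboth
    · refine ⟨x, x + 1, ?_⟩
      intro v hv
      rcases hon v hv with h2 | ⟨m, hm, rfl, hms⟩
      · exact Finset.mem_union_right _ h2
      · rcases hfoot m hm hms with h3 | h3 | h3
        · rw [show m = x - 1 by omega] at hms
          exact absurd hms h1
        · rw [h3]
          simp
        · rw [h3]
          simp
  obtain ⟨m1, m2, hsub⟩ := key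
  have h1 := M.C.four S hSP ⟨_, hwSS⟩
  have h2 := Finset.card_le_card hsub
  have h3 := Finset.card_union_le {q m1, q m2} (nbh G S ∩ D3)
  have h4 : ({q m1, q m2} : Finset V).card ≤ 2 := Finset.card_le_two
  omega

theorem Mx.four_feet (M : Mx G P D1 D3 p p' q n Z) :
    ∃ a b, a + 2 ≤ b ∧ b ≤ n ∧ (∀ c, a ≤ c → c ≤ b → ∃ z ∈ Z, G.Adj (q c) z) ∧
      (∀ c, c ≤ n → (∃ z ∈ Z, G.Adj (q c) z) → a ≤ c ∧ c ≤ b) := by
  classical
  have hn2 := M.two
  set A : Finset ℕ := (Finset.range (n + 1)).filter (fun i => ∃ z ∈ Z, G.Adj (q i) z) with hAdef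
  have hA : ∀ c, c ∈ A ↔ c ≤ n ∧ ∃ z ∈ Z, G.Adj (q c) z := by
    intro c
    rw [hAdef, Finset.mem_filter, Finset.mem_range, Nat.lt_succ_iff]
  have hZ3 : (nbh G Z ∩ D3).card ≤ 1 := by
    have h1 := M.E.px (Nat.zero_le n) (le_refl n)
    rw [M.h0, M.hn] at h1
    refine M.C.meet_path h1 (M.sgc_sub (le_refl n)) ⟨q 1, mem_sgc.2 ⟨1, by omega, by omega, rfl⟩,
      M.inn 1 (by omega) (by omega)⟩ M.ZP M.Zc ?_
    rw [Finset.disjoint_left]
    intro v hv
    rw [mem_sgc] at hv
    obtain ⟨m, -, hm, rfl⟩ := hv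
    exact M.Zd m hm
  have hsub : nbh G Z ⊆ A.image q ∪ (nbh G Z ∩ D3) := by
    intro v hv
    rcases M.C.nb_cases M.ZP hv with h1 | h1
    · refine Finset.mem_union_left _ ?_
      obtain ⟨hvZ, u, hu, e⟩ := mem_nbh.1 hv
      rw [Finset.mem_image]
      rcases h1 with h1 | h1 | h1
      · by_cases hvq : ∃ m, m ≤ n ∧ q m = v
        · obtain ⟨m, hm, rfl⟩ := hvq
          exact ⟨m, (hA m).2 ⟨hm, u, hu, e.symm⟩, rfl⟩
        · push Not at hvq
          exact absurd e.symm (fun h => M.Zcl h1 hvq hvZ hu h)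
      · exact ⟨0, (hA 0).2 ⟨by omega, u, hu, by rw [M.h0, ← h1]; exact e.symm⟩, by rw [M.h0, h1]⟩
      · exact ⟨n, (hA n).2 ⟨le_refl n, u, hu, by rw [M.hn, ← h1]; exact e.symm⟩, by rw [M.hn, h1]⟩
    · exact Finset.mem_union_right _ h1
  have hcard : 3 ≤ A.card := by
    have h1 := M.C.four Z M.ZP M.Zc.1
    have h2 := Finset.card_le_card hsub
    have h3 := Finset.card_union_le (A.image q) (nbh G Z ∩ D3)
    have h4 : (A.image q).card ≤ A.card := Finset.card_image_le
    omega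
  have hne : A.Nonempty := by
    rw [← Finset.card_pos]
    omega
  have ha := A.min'_mem hne
  have hb := A.max'_mem hne
  set a := A.min' hne with ha'
  set b := A.max' hne with hb'
  have hAI : A ⊆ Finset.Icc a b := fun c hc =>
    Finset.mem_Icc.2 ⟨Finset.min'_le A c hc, Finset.le_max' A c hc⟩
  have hab : a + 2 ≤ b := by
    have h1 := Finset.card_le_card hAI
    rw [Nat.card_Icc] at h1
    omega
  refine ⟨a, b, hab, ((hA b).1 hb).1, ?_, ?_⟩
  · intro c hc1 hc2
    by_contra hcon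
    have hcA : c ∉ A := fun h => hcon ((hA c).1 h).2
    have hac : a < c := lt_of_le_of_ne hc1 (fun h => hcA (h ▸ ha))
    have hcb : c < b := lt_of_le_of_ne hc2 (fun h => hcA (h ▸ hb))
    have hne1 : (A.filter (fun m => m < c)).Nonempty := ⟨a, Finset.mem_filter.2 ⟨ha, hac⟩⟩
    have hne2 : (A.filter (fun m => c < m)).Nonempty := ⟨b, Finset.mem_filter.2 ⟨hb, hcb⟩⟩
    have hi := Finset.max'_mem _ hne1
    have hj := Finset.min'_mem _ hne2
    have hi' : ∀ m, m ∈ A → m < c → m ≤ (A.filter (fun m => m < c)).max' hne1 := fun m hm hmc =>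
      Finset.le_max' _ m (Finset.mem_filter.2 ⟨hm, hmc⟩)
    have hj' : ∀ m, m ∈ A → c < m → (A.filter (fun m => c < m)).min' hne2 ≤ m := fun m hm hmc =>
      Finset.min'_le _ m (Finset.mem_filter.2 ⟨hm, hmc⟩)
    generalize (A.filter (fun m => m < c)).max' hne1 = i at hi hi'
    generalize (A.filter (fun m => c < m)).min' hne2 = j at hj hj'
    rw [Finset.mem_filter] at hi hj
    have hgap := M.gap (i := i) (j := j) (by omega) ((hA j).1 hj.1).1 ((hA i).1 hi.1).2
      ((hA j).1 hj.1).2 (by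
        intro m hm1 hm2 z hz ez
        have hmA : m ∈ A := (hA m).2 ⟨by
          have := ((hA j).1 hj.1).1
          omega, z, hz, ez⟩
        rcases lt_trichotomy m c with h1 | h1 | h1
        · have := hi' m hmA h1
          omega
        · exact hcA (h1 ▸ hmA)
        · have := hj' m hmA h1
          omega)
    omega
  · intro c hc hcz
    exact Finset.mem_Icc.1 (hAI ((hA c).2 ⟨hc, hcz⟩))

/-- the cell at a maximum outside set gives a TOKS -/
theorem Mx.toks (M : Mx G P D1 D3 p p' q n Z) : HasTOKS G := by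
  classical
  have hn2 := M.two
  obtain ⟨a, b, hab, hbn, hA, hA'⟩ := M.four_feet
  set I : Finset V := sgc q (a + 1) (b - 1) with hI
  have hmI : ∀ v, v ∈ I ↔ ∃ m, a < m ∧ m < b ∧ q m = v := by
    intro v
    rw [hI, mem_sgc]
    constructor
    · rintro ⟨m, h1, h2, h3⟩
      exact ⟨m, by omega, by omega, h3⟩
    · rintro ⟨m, h1, h2, h3⟩
      exact ⟨m, by omega, by omega, h3⟩
  have hIP : I ⊆ P := by
    intro v hv
    obtain ⟨m, h1, h2, rfl⟩ := (hmI v).1 hv
    exact M.inn m (by omega) (by omega)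
  have hIc : Conn G I := M.E.conn (by omega) (by omega)
  have hIZ : Disjoint I Z := by
    rw [Finset.disjoint_left]
    intro v hv
    obtain ⟨m, h1, h2, rfl⟩ := (hmI v).1 hv
    exact M.Zd m (by omega)
  set K : Finset V := I ∪ Z with hK
  have hKP : K ⊆ P := Finset.union_subset hIP M.ZP
  have hKq : ∀ m, m ≤ n → (m ≤ a ∨ b ≤ m) → q m ∉ K := by
    intro m hm hm' h
    rcases Finset.mem_union.1 h with h1 | h1
    · obtain ⟨m', h2, h3, h4⟩ := (hmI _).1 h1
      have := M.E.inj m' m (by omega) hm h4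
      omega
    · exact M.Zd m hm h1
  -- labels
  have hZ3 : (nbh G Z ∩ D3).card ≤ 1 := by
    have h1 := M.E.px (Nat.zero_le n) (le_refl n)
    rw [M.h0, M.hn] at h1
    refine M.C.meet_path h1 (M.sgc_sub (le_refl n)) ⟨q 1, mem_sgc.2 ⟨1, by omega, by omega, rfl⟩,
      M.inn 1 (by omega) (by omega)⟩ M.ZP M.Zc ?_
    rw [Finset.disjoint_left]
    intro v hv
    rw [mem_sgc] at hv
    obtain ⟨m, -, hm, rfl⟩ := hv
    exact M.Zd m hm
  have hI3 : (nbh G I ∩ D3).card ≤ 1 := by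
    refine M.viaZ (i := a) (j := b) (by omega) hbn (hA a (le_refl a) (by omega))
      (hA b (by omega) (le_refl b)) hIP hIc ?_ ?_ hIZ
    · intro m hm h
      exact hKq m (by omega) (Or.inl hm) (Finset.mem_union_left _ h)
    · intro m hm hm' h
      exact hKq m hm' (Or.inr hm) (Finset.mem_union_left _ h)
  -- the boundary of the cell
  have hfoot : ∀ v ∈ nbh G K, (v ∈ P ∨ v = p ∨ v = p') → v = q a ∨ v = q b := by
    intro v hv h1
    obtain ⟨hvK, u, hu, e⟩ := mem_nbh.1 hv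
    have hvZ : v ∉ Z := fun h => hvK (Finset.mem_union_right _ h)
    -- `v` is on the path
    have hvq : ∃ m, m ≤ n ∧ q m = v := by
      rcases h1 with h1 | h1 | h1
      · by_contra hcon
        push Not at hcon
        rcases Finset.mem_union.1 hu with h2 | h2
        · obtain ⟨m, h3, h4, rfl⟩ := (hmI _).1 h2
          exact M.other hbn hA h3 h4 h1 hcon hvZ e
        · exact M.Zcl h1 hcon hvZ h2 e.symm
      · exact ⟨0, by omega, by rw [M.h0, h1]⟩
      · exact ⟨n, le_refl n, by rw [M.hn, h1]⟩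
    obtain ⟨m, hm, rfl⟩ := hvq
    have hmab : a ≤ m ∧ m ≤ b := by
      rcases Finset.mem_union.1 hu with h2 | h2
      · obtain ⟨x, h3, h4, rfl⟩ := (hmI _).1 h2
        by_contra hcon
        rcases Nat.lt_or_ge m a with h5 | h5
        · obtain ⟨z, hz, ez⟩ := hA a (le_refl a) (by omega)
          exact M.chord (x := m) (y := x) (by omega) (Or.inr (by omega)) e.symm h5 h3 hz ez
        · obtain ⟨z, hz, ez⟩ := hA b (by omega) (le_refl b)
          exact M.chord (x := x) (y := m) hm (Or.inl (by omega)) e h4 (by omega) hz ez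
      · exact hA' m hm ⟨u, h2, e.symm⟩
    rcases Nat.lt_or_ge a m with h5 | h5
    · rcases Nat.lt_or_ge m b with h6 | h6
      · exact absurd (Finset.mem_union_left _ ((hmI _).2 ⟨m, h5, h6, rfl⟩)) hvK
      · right
        rw [show m = b by omega]
    · left
      rw [show m = a by omega]
  have hsub : nbh G K ⊆ {q a, q b} ∪ ((nbh G Z ∩ D3) ∪ (nbh G I ∩ D3)) := by
    intro v hv
    rcases M.C.nb_cases hKP hv with h1 | h1
    · refine Finset.mem_union_left _ ?_
      rw [Finset.mem_insert, Finset.mem_singleton]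
      exact hfoot v hv h1
    · refine Finset.mem_union_right _ ?_
      rw [Finset.mem_inter] at h1
      obtain ⟨hvK, u, hu, e⟩ := mem_nbh.1 hv
      rcases Finset.mem_union.1 hu with h2 | h2
      · exact Finset.mem_union_right _ (Finset.mem_inter.2 ⟨mem_nbh.2
          ⟨fun h => hvK (Finset.mem_union_left _ h), u, h2, e⟩, h1.2⟩)
      · exact Finset.mem_union_left _ (Finset.mem_inter.2 ⟨mem_nbh.2
          ⟨fun h => hvK (Finset.mem_union_right _ h), u, h2, e⟩, h1.2⟩)
  have hK4 : 4 ≤ (nbh G K).card := M.C.four K hKP (by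
    obtain ⟨z, hz⟩ := M.Zc.1
    exact ⟨z, Finset.mem_union_right _ hz⟩)
  have hcK := Finset.card_le_card hsub
  have hc1 := Finset.card_union_le {q a, q b} ((nbh G Z ∩ D3) ∪ (nbh G I ∩ D3))
  have hc2 := Finset.card_union_le (nbh G Z ∩ D3) (nbh G I ∩ D3)
  have hc3 : ({q a, q b} : Finset V).card ≤ 2 := Finset.card_le_two
  obtain ⟨s, hs⟩ := Finset.card_eq_one.1 (show (nbh G Z ∩ D3).card = 1 by omega)
  obtain ⟨s', hs'⟩ := Finset.card_eq_one.1 (show (nbh G I ∩ D3).card = 1 by omega)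
  have hsm : s ∈ nbh G Z ∩ D3 := by rw [hs]; exact Finset.mem_singleton_self _
  have hsm' : s' ∈ nbh G I ∩ D3 := by rw [hs']; exact Finset.mem_singleton_self _
  have hsD : s ∈ D3 := (Finset.mem_inter.1 hsm).2
  have hsD' : s' ∈ D3 := (Finset.mem_inter.1 hsm').2
  have hss : s ≠ s' := by
    rintro rfl
    rw [hs, hs', Finset.union_idempotent] at hcK
    have h5 := Finset.card_union_le {q a, q b} ({s} : Finset V)
    rw [Finset.card_singleton] at h5
    omega
  have hnb : nbh G K = {q a, q b, s, s'} := by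
    have h5 : ({q a, q b} : Finset V) ∪ ((nbh G Z ∩ D3) ∪ (nbh G I ∩ D3)) = {q a, q b, s, s'} := by
      rw [hs, hs']
      ext v
      simp only [Finset.mem_union, Finset.mem_insert, Finset.mem_singleton]
      tauto
    rw [h5] at hsub
    refine Finset.eq_of_subset_of_card_le hsub ?_
    have h6 : ({q a, q b, s, s'} : Finset V).card ≤ 4 := Finset.card_le_four
    omega
  have hqab : q a ≠ q b := fun h => by
    have := M.E.inj a b (by omega) hbn h
    omega
  have hqD3 : ∀ m, m ≤ n → q m ∉ D3 := by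
    intro m hm h
    have h7 := M.sgc_sub hm (mem_sgc.2 ⟨m, Nat.zero_le m, le_refl m, rfl⟩ : q m ∈ sgc q 0 m)
    rw [Finset.mem_insert, Finset.mem_insert] at h7
    rcases h7 with h8 | h8 | h8
    · exact Finset.disjoint_left.1 M.C.d13 M.C.pD (h8 ▸ h)
    · exact Finset.disjoint_left.1 M.C.d13 M.C.pD' (h8 ▸ h)
    · exact Finset.disjoint_left.1 M.C.d3 h8 h
  have hcell : Cell G K (q a) (q b) s s' := by
    refine ⟨?_, hnb, hqab, hss, ?_, ?_, ?_, ?_, ?_, ?_, ?_⟩
    · have h1 : 0 < I.card := Finset.card_pos.2 hIc.1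
      have h2 : 0 < Z.card := Finset.card_pos.2 M.Zc.1
      rw [hK, Finset.card_union_of_disjoint hIZ]
      omega
    · rintro h
      exact hqD3 a (by omega) (h ▸ hsD)
    · rintro h
      exact hqD3 a (by omega) (h ▸ hsD')
    · rintro h
      exact hqD3 b hbn (h ▸ hsD)
    · rintro h
      exact hqD3 b hbn (h ▸ hsD')
    · exact fun Y hY hYne => M.C.four Y (hY.trans hKP) hYne
    · -- no linkage
      intro T k hT hTs hTK X hX hXc x hx y hy ex ey
      have hTP : ∀ v ∈ T, v = q a ∨ v = q b ∨ v ∈ K := by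
        intro v hv
        have := hTs hv
        rwa [Finset.mem_insert, Finset.mem_insert] at this
      obtain ⟨z0, hz0⟩ := hTK
      rw [Finset.mem_inter] at hz0
      obtain ⟨k', g1, g2, g3⟩ := M.reroute (x := a) (y := b) (by omega) hbn hT (fun m hm h => by
        by_contra hcon
        rcases hTP _ h with h1 | h1 | h1
        · have := M.E.inj m a hm (by omega) h1
          omega
        · have := M.E.inj m b hm hbn h1
          omega
        · exact hKq m hm (by omega) h1) (fun v hv => by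
        rcases hTP v hv with h1 | h1 | h1
        · exact Or.inl h1
        · exact Or.inr (Or.inl h1)
        · exact Or.inr (Or.inr (hKP h1))) (Or.inr (Or.inr ⟨z0, hz0.1, hKP hz0.2⟩))
      have hXP : X ⊆ P := fun v hv => hKP (Finset.mem_sdiff.1 (hX hv)).1
      have hle := M.C.meet_path g1 g2 g3 hXP hXc (by
        rw [Finset.disjoint_left]
        intro v hv hvX
        have hvK := Finset.mem_sdiff.1 (hX hvX)
        rcases Finset.mem_union.1 hv with h5 | h5
        · rw [mem_sgc] at h5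
          obtain ⟨m, -, hm, rfl⟩ := h5
          exact hKq m (by omega) (Or.inl hm) hvK.1
        · rcases Finset.mem_union.1 h5 with h5 | h5
          · exact hvK.2 h5
          · rw [mem_sgc] at h5
            obtain ⟨m, hm', hm, rfl⟩ := h5
            exact hKq m hm (Or.inr hm') hvK.1)
      have hin : ∀ t ∈ D3, ∀ w ∈ X, G.Adj t w → t ∈ nbh G X ∩ D3 := by
        intro t ht w hw e
        refine Finset.mem_inter.2 ⟨mem_nbh.2 ⟨fun h => ?_, w, hw, e.symm⟩, ht⟩
        exact Finset.disjoint_left.1 M.C.d3 (hXP h) ht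
      exact hss (Finset.card_le_one.1 hle s (hin s hsD x hx ex) s' (hin s' hsD' y hy ey))
    · -- the links
      intro T k hT hTs hTK m
      have e1 := (M.E.px (Nat.zero_le a) (by omega : a ≤ n)).symm
      have e2 := (M.E.px hbn (le_refl n)).symm
      rw [M.h0] at e1
      rw [M.hn] at e2
      generalize decide (Odd (a - 0)) = r1 at e1
      generalize decide (Odd (n - b)) = r2 at e2
      obtain ⟨L0, hL0, hP0⟩ := M.C.hub1.par M.C.pD M.C.pD' M.C.ne (r1 ^^ r2 ^^ !k)
      obtain ⟨M0, hM0, hPM⟩ := M.C.hub3.par hsD hsD' hss m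
      have hqD1 : ∀ i, 0 < i → i < n → q i ∉ D1 := fun i hi hi' h =>
        Finset.disjoint_left.1 M.C.d1 (M.inn i hi hi') h
      have e3 : PX G (sgc q 0 a ∪ L0) (q a) p' (r1 ^^ (r1 ^^ r2 ^^ !k)) := by
        refine e1.concat hP0 fun v hv hv' => ?_
        rw [mem_sgc] at hv
        obtain ⟨i, -, hi, rfl⟩ := hv
        by_cases h0 : i = 0
        · rw [h0, M.h0]
        · exact absurd (hL0 hv') (hqD1 i (by omega) (by omega))
      have e4 : PX G (sgc q 0 a ∪ L0 ∪ sgc q b n) (q a) (q b) ((r1 ^^ (r1 ^^ r2 ^^ !k)) ^^ r2) := by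
        refine e3.concat e2 fun v hv hv' => ?_
        rw [mem_sgc] at hv'
        obtain ⟨i, hi, hi', rfl⟩ := hv'
        rcases Finset.mem_union.1 hv with h1 | h1
        · rw [mem_sgc] at h1
          obtain ⟨j, -, hj, h2⟩ := h1
          have := M.E.inj j i (by omega) hi' h2
          omega
        · by_cases h0 : i = n
          · rw [h0, M.hn]
          · exact absurd (hL0 h1) (hqD1 i (by omega) (by omega))
      have e5 : ((r1 ^^ (r1 ^^ r2 ^^ !k)) ^^ r2) = !k := by
        cases r1 <;> cases r2 <;> cases k <;> rfl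
      rw [e5] at e4
      refine ⟨_, M0, e4, hPM, ?_, ?_, ?_⟩
      · rw [Finset.disjoint_left]
        intro v hv hv'
        rcases Finset.mem_union.1 hv with h1 | h1
        · rcases Finset.mem_union.1 h1 with h1 | h1
          · rw [mem_sgc] at h1
            obtain ⟨j, -, hj, rfl⟩ := h1
            exact hqD3 j (by omega) (hM0 hv')
          · exact Finset.disjoint_left.1 M.C.d13 (hL0 h1) (hM0 hv')
        · rw [mem_sgc] at h1
          obtain ⟨j, -, hj, rfl⟩ := h1
          exact hqD3 j hj (hM0 hv')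
      · rw [Finset.disjoint_left]
        intro v hv hv'
        rcases Finset.mem_union.1 hv with h1 | h1
        · rcases Finset.mem_union.1 h1 with h1 | h1
          · rw [mem_sgc] at h1
            obtain ⟨j, -, hj, rfl⟩ := h1
            exact hKq j (by omega) (Or.inl hj) hv'
          · exact Finset.disjoint_left.1 M.C.d1 (hKP hv') (hL0 h1)
        · rw [mem_sgc] at h1
          obtain ⟨j, hj', hj, rfl⟩ := h1
          exact hKq j hj (Or.inr hj') hv'
      · rw [Finset.disjoint_left]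
        intro v hv hv'
        exact Finset.disjoint_left.1 M.C.d3 (hKP hv') (hM0 hv)
  exact hcell.toks

/-- every `p`-`p'` path through `P` contains all of `P` -/
theorem Chain.all (C : Chain G P D1 D3 p p') (hN : ¬ HasTOKS G) (hT : PX G T p p' k)
    (hs : T ⊆ insert p (insert p' P)) (hz : ∃ z ∈ T, z ∈ P) : P ⊆ T := by
  classical
  intro v hv
  by_contra hvT
  set F : Finset (Finset V × Finset V) := Finset.univ.filter (fun X =>
    (∃ k, PX G X.1 p p' k) ∧ X.1 ⊆ insert p (insert p' P) ∧ (∃ z ∈ X.1, z ∈ P) ∧ X.2 ⊆ P ∧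
      Conn G X.2 ∧ Disjoint X.1 X.2) with hF
  have hFne : F.Nonempty := by
    refine ⟨(T, {v}), ?_⟩
    rw [hF, Finset.mem_filter]
    exact ⟨Finset.mem_univ _, ⟨k, hT⟩, hs, hz, by simpa using hv, Conn.singleton G v, by simpa using hvT⟩
  obtain ⟨⟨T', Z⟩, hX, hmax⟩ := Finset.exists_max_image F (fun X => X.2.card) hFne
  rw [hF, Finset.mem_filter] at hX
  obtain ⟨-, ⟨k', hT'⟩, hs', hz', hZP, hZc, hd⟩ := hX
  obtain ⟨q, n, hE, h0, hn, hT'', h2, hin⟩ := C.enum hT' hs' hz'
  have M : Mx G P D1 D3 p p' q n Z := by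
    refine ⟨C, hE, h0, hn, h2, hin, hZP, hZc, ?_, ?_⟩
    · intro i hi h
      refine Finset.disjoint_left.1 hd ?_ h
      rw [← hT'', mem_sgc]
      exact ⟨i, Nat.zero_le i, hi, rfl⟩
    · intro T1 k1 Z1 g1 g2 g3 g4 g5 g6
      refine hmax (T1, Z1) ?_
      rw [hF, Finset.mem_filter]
      exact ⟨Finset.mem_univ _, ⟨k1, g1⟩, g2, g3, g4, g5, g6⟩
  exact hN M.toks

/-- SECTION 3: a cover `P` with exactly two labels `p`, `p'` in `D1` is an induced path `q 1, ..., q (n-1)`,
`p = q 0` is adjacent to `q 1` only, `p' = q n` is adjacent to `q (n-1)` only. -/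
theorem Chain.path (C : Chain G P D1 D3 p p') (hN : ¬ HasTOKS G) :
    ∃ (q : ℕ → V) (n : ℕ), Enq G q n ∧ q 0 = p ∧ q n = p' ∧ 2 ≤ n ∧ P = sgc q 1 (n - 1) ∧
      ∀ i j, i < j → j ≤ n → G.Adj (q i) (q j) → j = i + 1 ∨ (i = 0 ∧ j = n) := by
  obtain ⟨T, k, hT, hs, hz⟩ := exists_earc C.conn C.pP C.pP' C.ne C.ep C.ep'
  obtain ⟨q, n, hE, h0, hn, hT', h2, hin⟩ := C.enum hT hs hz
  have hall : ∀ T k, PX G T p p' k → T ⊆ insert p (insert p' P) → (∃ z ∈ T, z ∈ P) → P ⊆ T :=
    fun T k h1 h2 h3 => C.all hN h1 h2 h3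
  refine ⟨q, n, hE, h0, hn, h2, ?_, ?_⟩
  · ext v
    rw [mem_sgc]
    constructor
    · intro hv
      have h1 := hall T k hT hs hz hv
      rw [← hT', mem_sgc] at h1
      obtain ⟨m, -, hm, rfl⟩ := h1
      have h3 : m ≠ 0 := by
        rintro rfl
        exact C.pP (h0 ▸ hv)
      have h4 : m ≠ n := by
        rintro rfl
        exact C.pP' (hn ▸ hv)
      exact ⟨m, by omega, by omega, rfl⟩
    · rintro ⟨m, h3, h4, rfl⟩
      exact hin m (by omega) (by omega)
  · intro i j hij hj e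
    by_contra hcon
    push Not at hcon
    -- the shortcut
    have e1 := hE.px (Nat.zero_le i) (by omega : i ≤ n)
    have e2 := hE.px hj (le_refl n)
    rw [h0] at e1
    rw [hn] at e2
    have hd : Disjoint (sgc q 0 i) (sgc q j n) := by
      rw [Finset.disjoint_left]
      intro v hv hv'
      rw [mem_sgc] at hv hv'
      obtain ⟨m, -, hm, rfl⟩ := hv
      obtain ⟨m', hm', hm'', h5⟩ := hv'
      have := hE.inj m' m hm'' (by omega) h5
      omega
    have e3 := e1.concat_disj e e2 hd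
    have hmem : ∀ v, v ∈ sgc q 0 i ∪ sgc q j n ↔ ∃ m, (m ≤ i ∨ j ≤ m) ∧ m ≤ n ∧ q m = v := by
      intro v
      rw [Finset.mem_union, mem_sgc, mem_sgc]
      constructor
      · rintro (⟨m, h3, h4, h5⟩ | ⟨m, h3, h4, h5⟩)
        · exact ⟨m, Or.inl h4, by omega, h5⟩
        · exact ⟨m, Or.inr h3, h4, h5⟩
      · rintro ⟨m, h3 | h3, h4, h5⟩
        · exact Or.inl ⟨m, by omega, h3, h5⟩
        · exact Or.inr ⟨m, h3, h4, h5⟩
    have h5 := hall _ _ e3 (by
      intro v hv
      obtain ⟨m, h3, h4, rfl⟩ := (hmem v).1 hv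
      rw [Finset.mem_insert, Finset.mem_insert]
      by_cases h6 : m = 0
      · left
        rw [h6, h0]
      · by_cases h7 : m = n
        · right
          left
          rw [h7, hn]
        · exact Or.inr (Or.inr (hin m (by omega) (by omega)))) (by
      by_cases h6 : i = 0
      · have h7 : j < n := by
          rcases Nat.lt_or_ge j n with h8 | h8
          · exact h8
          · exact absurd (show j = n by omega) (hcon.2 h6)
        exact ⟨q j, (hmem _).2 ⟨j, Or.inr (le_refl j), hj, rfl⟩, hin j (by omega) h7⟩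
      · exact ⟨q i, (hmem _).2 ⟨i, Or.inl (le_refl i), by omega, rfl⟩, hin i (by omega) (by omega)⟩)
    have h6 := (hmem _).1 (h5 (hin (i + 1) (by omega) (by
      have := hcon.1
      omega)))
    obtain ⟨m, h7, h8, h9⟩ := h6
    have := hE.inj m (i + 1) h8 (by have := hcon.1; omega) h9
    have := hcon.1
    omega

end Pool.Agent.TOKSN
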