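import Mathlib
import Pool.Agent.TOKSN.CovChain
import Pool.Agent.TOKSN.CovTwo

/-!
# LINE N, (3C) section 3 on the interface of section 2

If the cover part `P` has exactly two labels in `D1` then it is the interior of an induced ear
`p 0, p 1, .., p h, p (h+1)` of `D1` (`h ≥ 1`; `h = 1` is case (A), `h ≥ 2` is case (B)).
-/

set_option autoImplicit false
set_option linter.unusedSectionVars false

namespace Pool.Agent.TOKSN

open Pool.Agent.TOKST (HasTOKS)
open Pool.Agent.TOKSP (nbh mem_nbh)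

variable {V : Type} [Fintype V] [DecidableEq V] {G : SimpleGraph V} {P D1 D3 Z : Finset V}

/-- `P` is the interior of an induced ear of `D1` -/
structure EarP (G : SimpleGraph V) (P D1 D3 : Finset V) (p : ℕ → V) (h : ℕ) : Prop where
  h1 : 1 ≤ h
  eq : P = (Finset.Icc 1 h).image p
  inj : ∀ i j, i ≤ h + 1 → j ≤ h + 1 → p i = p j → i = j
  adj : ∀ i, i ≤ h → G.Adj (p i) (p (i + 1))
  a : p 0 ∈ D1
  b : p (h + 1) ∈ D1
  mid1 : ∀ i, 1 ≤ i → i ≤ h → p i ∉ D1
  mid3 : ∀ i, 1 ≤ i → i ≤ h → p i ∉ D3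
  two : ∀ i, 1 ≤ i → i ≤ h → ∃ s s', s ≠ s' ∧ s ∈ D3 ∧ s' ∈ D3 ∧ G.Adj (p i) s ∧ G.Adj (p i) s'
  ind : ∀ i j, 1 ≤ i → i < j → j ≤ h → G.Adj (p i) (p j) → j = i + 1
  one : ∀ i x, 1 ≤ i → i ≤ h → x ∈ D1 → G.Adj (p i) x → (i = 1 ∧ x = p 0) ∨ (i = h ∧ x = p (h + 1))

/-- the three kinds of neighbours of a subset of `P` -/
theorem Cvr.four_nbh (h : Cvr G P D1 D3) (d1 : Disjoint P D1) (d3 : Disjoint P D3)
    (d13 : Disjoint D1 D3) (hZ : Z ⊆ P) (hne : Z.Nonempty) : 4 ≤ (nbh G Z).card := by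
  have h4 := h.four Z hZ hne
  have e1 : Disjoint (lab G (P \ Z) Z) (lab G D1 Z) := by
    rw [Finset.disjoint_left]
    intro v hv hv'
    exact Finset.disjoint_left.1 d1 (Finset.mem_sdiff.1 (lab_sub hv)).1 (lab_sub hv')
  have e2 : Disjoint (lab G (P \ Z) Z ∪ lab G D1 Z) (lab G D3 Z) := by
    rw [Finset.disjoint_left]
    intro v hv hv'
    rcases Finset.mem_union.1 hv with h1 | h1
    · exact Finset.disjoint_left.1 d3 (Finset.mem_sdiff.1 (lab_sub h1)).1 (lab_sub hv')
    · exact Finset.disjoint_left.1 d13 (lab_sub h1) (lab_sub hv')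
  have e3 := Finset.card_union_of_disjoint e1
  have e4 := Finset.card_union_of_disjoint e2
  have hsub : (lab G (P \ Z) Z ∪ lab G D1 Z) ∪ lab G D3 Z ⊆ nbh G Z := by
    intro v hv
    rw [mem_nbh]
    rcases Finset.mem_union.1 hv with h1 | h1
    · rcases Finset.mem_union.1 h1 with h1 | h1
      · obtain ⟨h2, h3⟩ := mem_lab.1 h1
        exact ⟨(Finset.mem_sdiff.1 h2).2, h3⟩
      · obtain ⟨h2, h3⟩ := mem_lab.1 h1
        exact ⟨fun h5 => Finset.disjoint_left.1 d1 (hZ h5) h2, h3⟩
    · obtain ⟨h2, h3⟩ := mem_lab.1 h1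
      exact ⟨fun h5 => Finset.disjoint_left.1 d3 (hZ h5) h2, h3⟩
  have := Finset.card_le_card hsub
  omega

/-- the situation of section 3 from that of section 2 -/
theorem Cvr.chain (h : Cvr G P D1 D3) (cov : ∀ v, v ∈ P ∨ v ∈ D1 ∨ v ∈ D3)
    (d1 : Disjoint P D1) (d3 : Disjoint P D3) (d13 : Disjoint D1 D3) (hub1 : Hub G D1)
    (hub3 : Hub G D3) (hlab : (lab G D1 P).card = 2) : ∃ p p', Chain G P D1 D3 p p' := by
  obtain ⟨p, p', hne, hpp⟩ := Finset.card_eq_two.1 hlab
  have hp : p ∈ lab G D1 P := by rw [hpp]; simp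
  have hp' : p' ∈ lab G D1 P := by rw [hpp]; simp
  obtain ⟨hpD, u, hu, eu⟩ := mem_lab.1 hp
  obtain ⟨hpD', u', hu', eu'⟩ := mem_lab.1 hp'
  refine ⟨p, p', ?_⟩
  · refine ⟨cov, d1, d3, d13, hub1, hub3, hpD, hpD', hne, ?_, ⟨u, hu, eu.symm⟩, ⟨u', hu', eu'.symm⟩,
      fun Z hZ hZne => h.four_nbh d1 d3 d13 hZ hZne, h.conn, ?_⟩
    · intro u hu v hv e
      have : v ∈ lab G D1 P := mem_lab.2 ⟨hv, u, hu, e⟩
      rw [hpp, Finset.mem_insert, Finset.mem_singleton] at this
      exact this
    · intro X Y hX hY cX cY hd ex ex' s s' hs hs' hss ey ey'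
      refine h.star X Y hX hY cX cY ?_ ?_ hd
      · have h1 : ({p, p'} : Finset V) ⊆ lab G D1 X := by
          intro v hv
          rw [Finset.mem_insert, Finset.mem_singleton] at hv
          rcases hv with rfl | rfl
          · obtain ⟨x, hx, e⟩ := ex
            exact mem_lab.2 ⟨hpD, x, hx, e.symm⟩
          · obtain ⟨x, hx, e⟩ := ex'
            exact mem_lab.2 ⟨hpD', x, hx, e.symm⟩
        have h2 := Finset.card_le_card h1
        rwa [Finset.card_pair hne] at h2
      · have h1 : ({s, s'} : Finset V) ⊆ lab G D3 Y := by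
          intro v hv
          rw [Finset.mem_insert, Finset.mem_singleton] at hv
          rcases hv with rfl | rfl
          · obtain ⟨x, hx, e⟩ := ey
            exact mem_lab.2 ⟨hs, x, hx, e.symm⟩
          · obtain ⟨x, hx, e⟩ := ey'
            exact mem_lab.2 ⟨hs', x, hx, e.symm⟩
        have h2 := Finset.card_le_card h1
        rwa [Finset.card_pair hss] at h2

/-- SECTION 3: if `P` has exactly two labels in `D1` it is the interior of an induced ear of `D1`. -/
theorem Cvr.ear (h : Cvr G P D1 D3) (hN : ¬ HasTOKS G) (cov : ∀ v, v ∈ P ∨ v ∈ D1 ∨ v ∈ D3)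
    (d1 : Disjoint P D1) (d3 : Disjoint P D3) (d13 : Disjoint D1 D3) (hub1 : Hub G D1)
    (hub3 : Hub G D3) (hlab : (lab G D1 P).card = 2) : ∃ (p : ℕ → V) (m : ℕ), EarP G P D1 D3 p m := by
  obtain ⟨p, p', C⟩ := h.chain cov d1 d3 d13 hub1 hub3 hlab
  obtain ⟨q, n, hE, h0, hn, h2, hP, hind⟩ := C.path hN
  have hin : ∀ i, 0 < i → i < n → q i ∈ P := by
    intro i hi hi'
    rw [hP, mem_sgc]
    exact ⟨i, hi, by omega, rfl⟩
  have hn1 : n - 1 + 1 = n := by omega
  have hone : ∀ i x, 1 ≤ i → i ≤ n - 1 → x ∈ D1 → G.Adj (q i) x →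
      (i = 1 ∧ x = q 0) ∨ (i = n - 1 ∧ x = q n) := by
    intro i x hi hi' hx e
    rcases C.lab (q i) (hin i (by omega) (by omega)) x hx e with h3 | h3
    · left
      rw [h3, ← h0] at e
      rcases hind 0 i (by omega) (by omega) e.symm with h4 | h4
      · exact ⟨by omega, by rw [h3, h0]⟩
      · omega
    · right
      rw [h3, ← hn] at e
      rcases hind i n (by omega) (le_refl n) e with h4 | h4
      · exact ⟨by omega, by rw [h3, hn]⟩
      · omega
  refine ⟨q, n - 1, ⟨by omega, hP, ?_, ?_, ?_, ?_, ?_, ?_, ?_, ?_, ?_⟩⟩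
  · intro i j hi hj e
    exact hE.inj i j (by omega) (by omega) e
  · intro i hi
    exact hE.adj i (by omega)
  · rw [h0]
    exact C.pD
  · rw [hn1, hn]
    exact C.pD'
  · intro i hi hi' h3
    exact Finset.disjoint_left.1 d1 (hin i (by omega) (by omega)) h3
  · intro i hi hi' h3
    exact Finset.disjoint_left.1 d3 (hin i (by omega) (by omega)) h3
  · intro i hi hi'
    have hqi := hin i (by omega) (by omega)
    have h4 := h.four_nbh d1 d3 d13 (Z := {q i}) (by simpa using hqi) ⟨q i, by simp⟩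
    have hsub : nbh G {q i} ⊆ {q (i - 1), q (i + 1)} ∪ lab G D3 {q i} := by
      intro v hv
      obtain ⟨hv1, w, hw, e⟩ := mem_nbh.1 hv
      rw [Finset.mem_singleton] at hw
      subst hw
      rcases cov v with h5 | h5 | h5
      · refine Finset.mem_union_left _ ?_
        rw [hP, mem_sgc] at h5
        obtain ⟨j, hj, hj', rfl⟩ := h5
        rw [Finset.mem_insert, Finset.mem_singleton]
        rcases lt_trichotomy i j with h6 | h6 | h6
        · right
          rcases hind i j h6 (by omega) e with h7 | h7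
          · rw [h7]
          · omega
        · subst h6
          exact absurd rfl e.ne
        · left
          rcases hind j i h6 (by omega) e.symm with h7 | h7
          · rw [show i - 1 = j by omega]
          · omega
      · refine Finset.mem_union_left _ ?_
        rw [Finset.mem_insert, Finset.mem_singleton]
        rcases hone i v hi hi' h5 e with ⟨h6, h7⟩ | ⟨h6, h7⟩
        · left
          rw [h7, h6]
        · right
          rw [h7, h6, hn1]
      · exact Finset.mem_union_right _ (mem_lab.2 ⟨h5, q i, by simp, e⟩)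
    have h5 := Finset.card_le_card hsub
    have h6 := Finset.card_union_le {q (i - 1), q (i + 1)} (lab G D3 {q i})
    have h7 : ({q (i - 1), q (i + 1)} : Finset V).card ≤ 2 := Finset.card_le_two
    obtain ⟨s, hs, s', hs', hss⟩ := Finset.one_lt_card.1 (show 1 < (lab G D3 {q i}).card by omega)
    obtain ⟨hs1, t, ht, et⟩ := mem_lab.1 hs
    obtain ⟨hs1', t', ht', et'⟩ := mem_lab.1 hs'
    rw [Finset.mem_singleton] at ht ht'
    subst ht
    subst ht'
    exact ⟨s, s', hss, hs1, hs1', et, et'⟩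
  · intro i j hi hij hj e
    rcases hind i j hij (by omega) e with h3 | h3
    · exact h3
    · omega
  · intro i x hi hi' hx e
    rw [hn1]
    exact hone i x hi hi' hx e

end Pool.Agent.TOKSN
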