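import Mathlib
import Pool.Agent.TOKSN.CovEar
import Pool.Agent.TOKSN.Hubs

/-!
# LINE N, (3C): the structure of a cover
-/

set_option autoImplicit false
set_option linter.unusedSectionVars false

namespace Pool.Agent.TOKSN

open Pool.Agent.TOKST (HasTOKS)
open Pool.Agent.TOKSP (nbh mem_nbh)

variable {V : Type} [Fintype V] [DecidableEq V] {G : SimpleGraph V} {D D₁ : Finset V}

theorem Cover.d1 (h : Cover G D D₁) : Disjoint (D \ D₁) D₁ := Finset.sdiff_disjoint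

theorem Cover.d3 (_ : Cover G D D₁) : Disjoint (D \ D₁) Dᶜ := by
  rw [Finset.disjoint_left]
  intro v hv hv'
  exact (Finset.mem_compl.1 hv') (Finset.mem_sdiff.1 hv).1

theorem Cover.d13 (h : Cover G D D₁) : Disjoint D₁ Dᶜ := by
  rw [Finset.disjoint_left]
  intro v hv hv'
  exact (Finset.mem_compl.1 hv') (h.sub.subset hv)

theorem Cover.cov (_ : Cover G D D₁) (v : V) : v ∈ D \ D₁ ∨ v ∈ D₁ ∨ v ∈ Dᶜ := by
  by_cases h1 : v ∈ D₁
  · exact Or.inr (Or.inl h1)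
  · by_cases h2 : v ∈ D
    · exact Or.inl (Finset.mem_sdiff.2 ⟨h2, h1⟩)
    · exact Or.inr (Or.inr (Finset.mem_compl.2 h2))

/-- the hypotheses of section 2 for a cover -/
theorem Cover.cvr (hG : FC G) (h : Cover G D D₁) : Cvr G (D \ D₁) D₁ Dᶜ := by
  refine ⟨Cover.conn hG h, ?_, ?_⟩
  · intro X Y hX hY cX cY h1 h2 hd
    obtain ⟨a, ha, b, hb, hab⟩ := Finset.one_lt_card.1 (show 1 < (lab G D₁ X).card by omega)
    obtain ⟨s, hs, t, ht, hst⟩ := Finset.one_lt_card.1 (show 1 < (lab G Dᶜ Y).card by omega)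
    obtain ⟨ha1, x, hx, ex⟩ := mem_lab.1 ha
    obtain ⟨hb1, x', hx', ex'⟩ := mem_lab.1 hb
    obtain ⟨hs1, y, hy, ey⟩ := mem_lab.1 hs
    obtain ⟨ht1, y', hy', ey'⟩ := mem_lab.1 ht
    exact Cover.meet hG h cX hX cY hY hd ha1 hb1 hab ⟨x, hx, ex.symm⟩ ⟨x', hx', ex'.symm⟩
      (Finset.mem_compl.1 hs1) (Finset.mem_compl.1 ht1) hst ⟨y, hy, ey.symm⟩ ⟨y', hy', ey'.symm⟩
  · intro Z hZ hne
    have hsub : nbh G Z ⊆ (lab G ((D \ D₁) \ Z) Z ∪ lab G D₁ Z) ∪ lab G Dᶜ Z := by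
      intro v hv
      obtain ⟨hvZ, u, hu, e⟩ := mem_nbh.1 hv
      rcases h.cov v with h1 | h1 | h1
      · exact Finset.mem_union_left _ (Finset.mem_union_left _
          (mem_lab.2 ⟨Finset.mem_sdiff.2 ⟨h1, hvZ⟩, u, hu, e⟩))
      · exact Finset.mem_union_left _ (Finset.mem_union_right _ (mem_lab.2 ⟨h1, u, hu, e⟩))
      · exact Finset.mem_union_right _ (mem_lab.2 ⟨h1, u, hu, e⟩)
    have h4 : 4 ≤ (nbh G Z).card := by
      by_cases hex : ∃ w, w ∉ Z ∧ w ∉ nbh G Z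
      · exact hG Z hne hex
      · push Not at hex
        have h1 : D₁ ∪ Dᶜ ⊆ nbh G Z := by
          intro v hv
          refine hex v fun hvZ => ?_
          rcases Finset.mem_union.1 hv with h2 | h2
          · exact (Finset.mem_sdiff.1 (hZ hvZ)).2 h2
          · exact (Finset.mem_compl.1 h2) (Finset.mem_sdiff.1 (hZ hvZ)).1
        have h2 := Finset.card_le_card h1
        rw [Finset.card_union_of_disjoint h.d13] at h2
        have h3 := h.mem₁.1.card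
        have h4 := h.mem.2.card
        omega
    have h1 := Finset.card_le_card hsub
    have h2 := Finset.card_union_le (lab G ((D \ D₁) \ Z) Z ∪ lab G D₁ Z) (lab G Dᶜ Z)
    have h3 := Finset.card_union_le (lab G ((D \ D₁) \ Z) Z) (lab G D₁ Z)
    omega

/-- at least two labels in `D₁` -/
theorem Cover.two1 (h : Cover G D D₁) : 2 ≤ (lab G D₁ (D \ D₁)).card := by
  have hne : (D \ D₁).Nonempty := by
    rw [Finset.sdiff_nonempty]
    exact fun h1 => h.sub.2 h1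
  obtain ⟨a, ha, b, hb, hab, ⟨x, hx, ex⟩, y, hy, ey⟩ := h.mem.1.two_feet (E := D₁) (K := D \ D₁)
    (by have := h.mem₁.1.card; omega) h.sub.subset hne (le_refl _) (fun _ _ y hy _ => hy)
  exact Finset.one_lt_card.2 ⟨a, mem_lab.2 ⟨ha, x, hx, ex.symm⟩, b, mem_lab.2 ⟨hb, y, hy, ey.symm⟩, hab⟩

/-- at least two labels outside `D` -/
theorem Cover.two3 (h : Cover G D D₁) : 2 ≤ (lab G Dᶜ (D \ D₁)).card := by
  have hne : (D \ D₁).Nonempty := by
    rw [Finset.sdiff_nonempty]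
    exact fun h1 => h.sub.2 h1
  have hsub : Dᶜ ⊆ D₁ᶜ := Finset.compl_subset_compl.2 h.sub.subset
  have hK : D \ D₁ ⊆ D₁ᶜ \ Dᶜ := by
    intro v hv
    rw [Finset.mem_sdiff] at hv
    rw [Finset.mem_sdiff, Finset.mem_compl, Finset.mem_compl, not_not]
    exact ⟨hv.2, hv.1⟩
  obtain ⟨a, ha, b, hb, hab, ⟨x, hx, ex⟩, y, hy, ey⟩ := h.mem₁.2.two_feet (E := Dᶜ) (K := D \ D₁)
    (by have := h.mem.2.card; omega) hsub hne hK (fun _ _ y hy _ => by
      rw [Finset.mem_sdiff, Finset.mem_compl, Finset.mem_compl, not_not] at hy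
      exact Finset.mem_sdiff.2 ⟨hy.2, hy.1⟩)
  exact Finset.one_lt_card.2 ⟨a, mem_lab.2 ⟨ha, x, hx, ex.symm⟩, b, mem_lab.2 ⟨hb, y, hy, ey.symm⟩, hab⟩

/-- COVER STRUCTURE: one vertex, an induced ear of one of the two sides, or the triangle. -/
theorem Cover.kind (hG : FC G) (hN : ¬ HasTOKS G) (h : Cover G D D₁) :
    (D \ D₁).card = 1 ∨ (∃ (p : ℕ → V) (m : ℕ), EarP G (D \ D₁) D₁ Dᶜ p m) ∨
      (∃ (p : ℕ → V) (m : ℕ), EarP G (D \ D₁) Dᶜ D₁ p m) ∨ ∃ v a s, Tri3 G (D \ D₁) D₁ Dᶜ v a s := by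
  have hC := h.cvr hG
  rcases hC.two with h1 | h1 | h1 | h1
  · exact Or.inl h1
  · have h2 := h.two1
    exact Or.inr (Or.inl (hC.ear hN h.cov h.d1 h.d3 h.d13 h.mem₁.1 h.mem.2 (by omega)))
  · have h2 := h.two3
    exact Or.inr (Or.inr (Or.inl (hC.swap.ear hN (fun v => by
      rcases h.cov v with h3 | h3 | h3
      · exact Or.inl h3
      · exact Or.inr (Or.inr h3)
      · exact Or.inr (Or.inl h3)) h.d3 h.d1 h.d13.symm h.mem.2 h.mem₁.1 (by omega))))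
  · exact Or.inr (Or.inr (Or.inr h1))

end Pool.Agent.TOKSN
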