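import Mathlib
import Pool.Agent.TOKSN.CovMain
import Pool.Agent.TOKSN.Ctx
import Pool.Agent.TOKSN.Ear
import Pool.Agent.TOKSN.ChiT

/-!
# LINE N, (3C): the structure of a cover, in the form used by the final assembly
-/

set_option autoImplicit false
set_option linter.unusedSectionVars false

namespace Pool.Agent.TOKSN

open Pool.Agent.TOKST (HasTOKS)
open Pool.Agent.TOKSP (nbh mem_nbh)

variable {V : Type} [Fintype V] [DecidableEq V] {G : SimpleGraph V} {P A B D D1 D3 : Finset V}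

/-- a part with exactly two labels in `D1` -/
theorem Cvr.allP (h : Cvr G P D1 D3) (hN : ¬ HasTOKS G) (cov : ∀ v, v ∈ P ∨ v ∈ D1 ∨ v ∈ D3)
    (d1 : Disjoint P D1) (d3 : Disjoint P D3) (d13 : Disjoint D1 D3) (hub1 : Hub G D1)
    (hub3 : Hub G D3) (hlab : (lab G D1 P).card = 2) : ∃ p q, AllP G D1 P p q := by
  obtain ⟨p, p', C⟩ := h.chain cov d1 d3 d13 hub1 hub3 hlab
  refine ⟨p, p', ⟨d1.symm, C.conn, C.pD, C.pD', C.ne, ?_, C.ep, C.ep', ?_⟩⟩
  · rintro x hx ⟨y, hy, e⟩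
    exact C.lab y hy x hx e.symm
  · intro T k hT hs hz
    exact C.all hN hT hs hz

theorem Cov.cover (h : Cov G D D1) : Cover G D D1 := by
  refine ⟨h.mem0, h.mem1, h.sub, ?_⟩
  intro W hW h1 h2
  exact h1.2 (h.max0 W hW h1.subset h2).subset

/-- COVER STRUCTURE -/
theorem cov_types (h : Cov G D D1) : (∃ u, D \ D1 = {u}) ∨ (∃ p q, AllP G D1 (D \ D1) p q) ∨
    (∃ p q, AllP G Dᶜ (D \ D1) p q) ∨ (∃ v a s, Tri G D1 (D \ D1) Dᶜ v a s) := by
  have hc := h.cover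
  have hC := hc.cvr h.good.fc
  rcases hC.two with h1 | h1 | h1 | ⟨v, a, s, h1⟩
  · exact Or.inl (Finset.card_eq_one.1 h1)
  · have h2 := hc.two1
    exact Or.inr (Or.inl (hC.allP h.good.nt hc.cov hc.d1 hc.d3 hc.d13 hc.mem₁.1 hc.mem.2 (by omega)))
  · have h2 := hc.two3
    exact Or.inr (Or.inr (Or.inl (hC.swap.allP h.good.nt (fun v => by
      rcases hc.cov v with h3 | h3 | h3
      · exact Or.inl h3
      · exact Or.inr (Or.inr h3)
      · exact Or.inr (Or.inl h3)) hc.d3 hc.d1 hc.d13.symm hc.mem.2 hc.mem₁.1 (by omega))))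
  · exact Or.inr (Or.inr (Or.inr ⟨v, a, s, h1.tri⟩))

end Pool.Agent.TOKSN
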