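import Mathlib
import Pool.Agent.TOKSN.Cyc
import Pool.Agent.TOKSN.Toks

/-!
# LINE N, (4): minimal members, part A: components of `D - C`

`D` a side, `C` an odd cycle of `G[D]`, `K` a component of `D - C`; hypothesis (M): a connected part of `D`
disjoint from an odd cycle of `D` has at most one neighbour outside `D`.
-/

set_option autoImplicit false
set_option linter.unusedSectionVars false

namespace Pool.Agent.TOKSN.Four

open Pool.Agent.TOKST (HasTOKS)
open Pool.Agent.TOKSP (nbh mem_nbh)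

variable {V : Type} [Fintype V] [DecidableEq V] {G : SimpleGraph V} {C D K S T U X : Finset V}
  {a b c d x y : V} {k l : Bool}

/-- the standing hypotheses -/
structure Ctx (G : SimpleGraph V) (D : Finset V) : Prop where
  fc : FC G
  conn : Conn G D
  card : 3 ≤ Dᶜ.card
  M : ∀ C X : Finset V, OddCyc G C → C ⊆ D → X ⊆ D → Disjoint X C → Conn G X → (nbh G X \ D).card ≤ 1

/-- `K` is (the vertex set of) a component of `G[S]` -/
structure Cmp (G : SimpleGraph V) (S K : Finset V) : Prop where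
  conn : Conn G K
  sub : K ⊆ S
  closed : ∀ x ∈ K, ∀ y ∈ S, G.Adj x y → y ∈ K

theorem cmp_Cmp (h : x ∈ S) : Cmp G S (cmp G S x) :=
  ⟨cmp_conn h, cmp_sub, fun _ hy _ hz e => cmp_closed hy hz e⟩

theorem Cmp.eq_cmp (h : Cmp G S K) (hx : x ∈ K) : K = cmp G S x := by
  apply Finset.Subset.antisymm (h.conn.sub_cmp h.sub hx)
  intro y hy
  exact (mem_cmp.1 hy).2.closed K hx h.closed

theorem Cmp.eq_of_mem {K' : Finset V} (h : Cmp G S K) (h' : Cmp G S K') (hx : x ∈ K) (hx' : x ∈ K') :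
    K = K' := by rw [h.eq_cmp hx, h'.eq_cmp hx']

theorem mem_lab (hX : X ⊆ D) : y ∈ nbh G X \ D ↔ y ∉ D ∧ ∃ x ∈ X, G.Adj x y := by
  rw [Finset.mem_sdiff, mem_nbh]
  constructor
  · rintro ⟨⟨h1, h2⟩, h3⟩
    exact ⟨h3, h2⟩
  · rintro ⟨h1, h2⟩
    exact ⟨⟨fun h => h1 (hX h), h2⟩, h1⟩

/-- few outside neighbours: contradiction to 4-connectivity -/
theorem Ctx.few (h : Ctx G D) (hX : X ⊆ D) (hne : X.Nonempty) {L : Finset V} (hL : nbh G X ⊆ L)
    (hL3 : L.card ≤ 3) (hLD : (L \ D).card ≤ 2) : False := by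
  obtain ⟨w, hw, hwL⟩ : ∃ w ∈ Dᶜ, w ∉ L \ D := by
    by_contra hcon
    push Not at hcon
    have := Finset.card_le_card (show Dᶜ ⊆ L \ D from hcon)
    have := h.card
    omega
  rw [Finset.mem_compl] at hw
  have h1 := h.fc X hne ⟨w, fun h => hw (hX h), fun h2 => hwL (Finset.mem_sdiff.2 ⟨hL h2, hw⟩)⟩
  have := Finset.card_le_card hL
  omega

theorem conn_of_attach {C0 : Finset V} (h0 : Conn G C0) (h0U : C0 ⊆ U)
    (h : ∀ u ∈ U, u ∉ C0 → ∃ K', Conn G K' ∧ K' ⊆ U ∧ u ∈ K' ∧ ∃ x ∈ K', ∃ y ∈ C0, G.Adj x y) :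
    Conn G U := by
  obtain ⟨c0, hc0⟩ := h0.1
  refine Conn.of_center (h0U hc0) fun u hu => ?_
  by_cases huC : u ∈ C0
  · exact h0.jn h0U hc0 huC
  · obtain ⟨K', hK', hK'U, huK, x, hx, y, hy, e⟩ := h u hu huC
    have h1 : Conn G (K' ∪ C0) := hK'.union_adj h0 ⟨x, hx, y, hy, e⟩
    exact h1.jn (Finset.union_subset hK'U h0U) (Finset.mem_union_right _ hc0)
      (Finset.mem_union_left _ huK)

/-- at least three contacts -/
theorem Ctx.three (h : Ctx G D) (hC : OddCyc G C) (hCD : C ⊆ D) (hK : Cmp G (D \ C) K) :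
    3 ≤ (nbh G K ∩ C).card := by
  by_contra hlt
  have hKD : K ⊆ D := hK.sub.trans Finset.sdiff_subset
  have hdis : Disjoint K C := Finset.disjoint_left.2 fun x hx hx' => (Finset.mem_sdiff.1 (hK.sub hx)).2 hx'
  have hM := h.M C K hC hCD hKD hdis hK.conn
  refine h.few hKD hK.conn.1 (L := (nbh G K ∩ C) ∪ (nbh G K \ D)) ?_ ?_ ?_
  · intro y hy
    by_cases hyD : y ∈ D
    · by_cases hyC : y ∈ C
      · exact Finset.mem_union_left _ (Finset.mem_inter.2 ⟨hy, hyC⟩)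
      · obtain ⟨h1, x, hx, e⟩ := mem_nbh.1 hy
        exact absurd (hK.closed x hx y (Finset.mem_sdiff.2 ⟨hyD, hyC⟩) e) h1
    · exact Finset.mem_union_right _ (Finset.mem_sdiff.2 ⟨hy, hyD⟩)
  · have := Finset.card_union_le (nbh G K ∩ C) (nbh G K \ D)
    omega
  · have h1 : ((nbh G K ∩ C) ∪ (nbh G K \ D)) \ D ⊆ nbh G K \ D := by
      intro y hy
      obtain ⟨h1, h2⟩ := Finset.mem_sdiff.1 hy
      rcases Finset.mem_union.1 h1 with h3 | h3
      · exact absurd (hCD (Finset.mem_inter.1 h3).2) h2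
      · exact h3
    have := Finset.card_le_card h1
    omega

/-- a contact outside a set with at most two elements -/
theorem Ctx.contact (h : Ctx G D) (hC : OddCyc G C) (hCD : C ⊆ D) (hK : Cmp G (D \ C) K)
    {Z : Finset V} (hZ : Z.card ≤ 2) : ∃ x ∈ K, ∃ y ∈ C, y ∉ Z ∧ G.Adj x y := by
  have h3 := h.three hC hCD hK
  obtain ⟨y, hy, hyZ⟩ : ∃ y ∈ nbh G K ∩ C, y ∉ Z := by
    by_contra hcon
    push Not at hcon
    have := Finset.card_le_card (show nbh G K ∩ C ⊆ Z from hcon)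
    omega
  obtain ⟨h1, h2⟩ := Finset.mem_inter.1 hy
  obtain ⟨-, x, hx, e⟩ := mem_nbh.1 h1
  exact ⟨x, hx, y, h2, hyZ, e⟩

/-- `D - K - Z` is connected -/
theorem Ctx.conn_sdiff (h : Ctx G D) (hC : OddCyc G C) (hCD : C ⊆ D) (hK : Cmp G (D \ C) K)
    {Z : Finset V} (hZ : Z.card ≤ 2) (hZC : Z ⊆ C) (h0 : Conn G (C \ Z)) :
    Conn G ((D \ K) \ Z) := by
  refine conn_of_attach h0 ?_ ?_
  · intro x hx
    obtain ⟨h1, h2⟩ := Finset.mem_sdiff.1 hx
    exact Finset.mem_sdiff.2 ⟨Finset.mem_sdiff.2 ⟨hCD h1, fun h3 =>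
      (Finset.mem_sdiff.1 (hK.sub h3)).2 h1⟩, h2⟩
  · intro u hu huC
    obtain ⟨h2, h1⟩ := Finset.mem_sdiff.1 hu
    obtain ⟨h3, h4⟩ := Finset.mem_sdiff.1 h2
    have huC' : u ∉ C := fun h5 => huC (Finset.mem_sdiff.2 ⟨h5, h1⟩)
    have hu' : u ∈ D \ C := Finset.mem_sdiff.2 ⟨h3, huC'⟩
    have hK' := cmp_Cmp (G := G) hu'
    obtain ⟨x, hx, y, hy, hyc, e⟩ := h.contact hC hCD hK' hZ
    refine ⟨_, hK'.conn, ?_, mem_cmp_self hu', x, hx, y, Finset.mem_sdiff.2 ⟨hy, hyc⟩, e⟩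
    intro z hz
    have hz' := Finset.mem_sdiff.1 (hK'.sub hz)
    refine Finset.mem_sdiff.2 ⟨Finset.mem_sdiff.2 ⟨hz'.1, fun h5 => ?_⟩, fun h5 => hz'.2 (hZC h5)⟩
    have := hK.eq_of_mem hK' h5 hz
    exact h4 (this ▸ mem_cmp_self hu')

/-- components of `D - C` are bipartite -/
theorem Ctx.bip (h : Ctx G D) (hC : OddCyc G C) (hCD : C ⊆ D) (hK : Cmp G (D \ C) K) : Bip G K := by
  by_contra hb
  obtain ⟨C2, hC2, hC2o⟩ := exists_oddCyc hb
  have hKD : K ⊆ D := hK.sub.trans Finset.sdiff_subset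
  have hdis : Disjoint K C := Finset.disjoint_left.2 fun x hx hx' => (Finset.mem_sdiff.1 (hK.sub hx)).2 hx'
  have h1 := h.M C K hC hCD hKD hdis hK.conn
  have h2 := h.conn_sdiff hC hCD hK (Z := ∅) (by simp) (by simp) (by
    rw [Finset.sdiff_empty]; exact hC.hub.conn)
  rw [Finset.sdiff_empty] at h2
  have h3 := h.M C2 (D \ K) hC2o (hC2.trans hKD) Finset.sdiff_subset
    (Finset.disjoint_left.2 fun x hx hx' => (Finset.mem_sdiff.1 hx).2 (hC2 hx')) h2
  have hcard := Finset.card_union_le (nbh G K \ D) (nbh G (D \ K) \ D)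
  refine h.few (Finset.Subset.refl D) h.conn.1 (L := (nbh G K \ D) ∪ (nbh G (D \ K) \ D)) ?_ ?_ ?_
  · intro y hy
    obtain ⟨hyD, x, hx, e⟩ := mem_nbh.1 hy
    by_cases hxK : x ∈ K
    · exact Finset.mem_union_left _ ((mem_lab hKD).2 ⟨hyD, x, hxK, e⟩)
    · exact Finset.mem_union_right _ ((mem_lab Finset.sdiff_subset).2
        ⟨hyD, x, Finset.mem_sdiff.2 ⟨hx, hxK⟩, e⟩)
  · omega
  · have := Finset.card_le_card (Finset.sdiff_subset (s := (nbh G K \ D) ∪ (nbh G (D \ K) \ D)) (t := D))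
    omega

/-- a vertex of `C` sees one colour of `K` -/
theorem Ctx.mono (h : Ctx G D) (hC : OddCyc G C) (hCD : C ⊆ D) (hK : Cmp G (D \ C) K) {f : V → Bool}
    (hf : ∀ x ∈ K, ∀ y ∈ K, G.Adj x y → f x ≠ f y) (hc : c ∈ C) (hx : x ∈ K) (hy : y ∈ K)
    (hcx : G.Adj c x) (hcy : G.Adj c y) : f x = f y := by
  by_contra hne
  have hKD : K ⊆ D := hK.sub.trans Finset.sdiff_subset
  have hdis : Disjoint K C := Finset.disjoint_left.2 fun x hx hx' => (Finset.mem_sdiff.1 (hK.sub hx)).2 hx'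
  have hcK : c ∉ K := fun h3 => Finset.disjoint_left.1 hdis h3 hc
  obtain ⟨k, T, hTK, hT⟩ := hK.conn.2 x hx y hy
  have hk : k = true := by
    rw [PI.bip hf ⟨T, hTK, hT⟩]
    revert hne
    cases f x <;> cases f y <;> simp
  subst hk
  have h1 : PX G (insert c T) c y (!true) := hT.cons hcx (fun h3 => hcK (hTK h3))
  have hC' : OddCyc G (insert c T) := OddCyc.of_edge h1 hcy
  have hC'D : insert c T ⊆ D := Finset.insert_subset (hCD hc) (hTK.trans hKD)
  have h2 := h.M C K hC hCD hKD hdis hK.conn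
  have h3 := h.conn_sdiff hC hCD hK (Z := {c}) (by simp) (by simpa using hc) (by
    rw [Finset.sdiff_singleton_eq_erase]; exact hC.hub.del c)
  have hsub : (D \ K) \ {c} ⊆ D := Finset.sdiff_subset.trans Finset.sdiff_subset
  have h4 := h.M (insert c T) ((D \ K) \ {c}) hC' hC'D hsub
    (Finset.disjoint_left.2 fun z hz hz' => by
      obtain ⟨h5, h6⟩ := Finset.mem_sdiff.1 hz
      rcases Finset.mem_insert.1 hz' with rfl | h7
      · simp at h6
      · exact (Finset.mem_sdiff.1 h5).2 (hTK h7)) h3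
  set L : Finset V := insert c ((nbh G K \ D) ∪ (nbh G ((D \ K) \ {c}) \ D)) with hL
  have hcard := Finset.card_union_le (nbh G K \ D) (nbh G ((D \ K) \ {c}) \ D)
  have hcard2 := Finset.card_insert_le c ((nbh G K \ D) ∪ (nbh G ((D \ K) \ {c}) \ D))
  refine h.few (X := D.erase c) (Finset.erase_subset _ _) ⟨x, ?_⟩ (L := L) ?_ ?_ ?_
  · exact Finset.mem_erase.2 ⟨fun h5 => hcK (h5 ▸ hx), hKD hx⟩
  · intro z hz
    obtain ⟨hz1, w, hw, e⟩ := mem_nbh.1 hz
    by_cases hzc : z = c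
    · rw [hzc]; exact Finset.mem_insert_self _ _
    · have hzD : z ∉ D := fun h5 => hz1 (Finset.mem_erase.2 ⟨hzc, h5⟩)
      obtain ⟨hwc, hwD⟩ := Finset.mem_erase.1 hw
      refine Finset.mem_insert_of_mem ?_
      by_cases hwK : w ∈ K
      · exact Finset.mem_union_left _ ((mem_lab hKD).2 ⟨hzD, w, hwK, e⟩)
      · exact Finset.mem_union_right _ ((mem_lab hsub).2 ⟨hzD, w,
          Finset.mem_sdiff.2 ⟨Finset.mem_sdiff.2 ⟨hwD, hwK⟩, by simpa using hwc⟩, e⟩)
  · rw [hL]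
    omega
  · have h5 : L \ D ⊆ (nbh G K \ D) ∪ (nbh G ((D \ K) \ {c}) \ D) := by
      intro z hz
      obtain ⟨h6, h7⟩ := Finset.mem_sdiff.1 hz
      rcases Finset.mem_insert.1 h6 with rfl | h8
      · exact absurd (hCD hc) h7
      · exact h8
    have := Finset.card_le_card h5
    omega

/-- a colouring of `K` and of its contacts: all edges between `K` and `K + C` are bichromatic -/
theorem Ctx.colour (h : Ctx G D) (hC : OddCyc G C) (hCD : C ⊆ D) (hK : Cmp G (D \ C) K) :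
    ∃ g : V → Bool, ∀ x ∈ K, ∀ y ∈ K ∪ C, G.Adj x y → g x ≠ g y := by
  classical
  obtain ⟨f, hf⟩ := h.bip hC hCD hK
  have hdis : Disjoint K C := Finset.disjoint_left.2 fun x hx hx' => (Finset.mem_sdiff.1 (hK.sub hx)).2 hx'
  refine ⟨fun y => if y ∈ K then f y else if h1 : ∃ x ∈ K, G.Adj y x then !(f h1.choose) else true, ?_⟩
  intro x hx y hy e
  by_cases hyK : y ∈ K
  · simp only [if_pos hx, if_pos hyK]
    exact hf x hx y hyK e
  · have hyC : y ∈ C := (Finset.mem_union.1 hy).resolve_left hyK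
    have h1 : ∃ x ∈ K, G.Adj y x := ⟨x, hx, e.symm⟩
    simp only [if_pos hx, if_neg hyK, dif_pos h1]
    have h2 := h.mono hC hCD hK hf hyC hx h1.choose_spec.1 e.symm h1.choose_spec.2
    rw [h2]
    cases f h1.choose <;> simp

/-- the path through `K` between two contacts -/
theorem path_through (hK : Conn G K) {g : V → Bool} (hg : ∀ x ∈ K, ∀ y ∈ K ∪ C, G.Adj x y → g x ≠ g y)
    (hdis : Disjoint K C) (ha : a ∈ C) (hb : b ∈ C) (hab : a ≠ b) (ha' : ∃ x ∈ K, G.Adj x a)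
    (hb' : ∃ x ∈ K, G.Adj x b) :
    ∃ R, PX G R a b (g a ^^ g b) ∧ R ⊆ insert a (insert b K) := by
  obtain ⟨x, hx, hxa⟩ := ha'
  obtain ⟨y, hy, hyb⟩ := hb'
  obtain ⟨k, T, hTK, hT⟩ := hK.2 x hx y hy
  have hk : k = (g x ^^ g y) :=
    PI.bip (fun u hu v hv e => hg u hu v (Finset.mem_union_left _ hv) e) ⟨T, hTK, hT⟩
  have haK : a ∉ K := fun h3 => Finset.disjoint_left.1 hdis h3 ha
  have hbK : b ∉ K := fun h3 => Finset.disjoint_left.1 hdis h3 hb
  have h1 : PX G (insert a T) a y (!k) := hT.cons hxa.symm (fun h3 => haK (hTK h3))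
  have h2 : PX G (insert b (insert a T)) b a (!(!k)) := by
    refine h1.symm.cons hyb.symm ?_
    intro h3
    rcases Finset.mem_insert.1 h3 with h4 | h4
    · exact hab h4.symm
    · exact hbK (hTK h4)
  have h3 := hg x hx a (Finset.mem_union_right _ ha) hxa
  have h4 := hg y hy b (Finset.mem_union_right _ hb) hyb
  refine ⟨insert b (insert a T), ?_, ?_⟩
  · have h5 : (g a ^^ g b) = !(!k) := by
      rw [hk]
      revert h3 h4
      cases g x <;> cases g y <;> cases g a <;> cases g b <;> simp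
    rw [h5]
    exact h2.symm
  · intro z hz
    rcases Finset.mem_insert.1 hz with h5 | h5
    · rw [h5]; simp
    · rcases Finset.mem_insert.1 h5 with h6 | h6
      · rw [h6]; simp
      · exact Finset.mem_insert_of_mem (Finset.mem_insert_of_mem (hTK h6))

end Pool.Agent.TOKSN.Four
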