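import Mathlib
import Pool.Agent.TOKSN.FourA

/-!
# LINE N, (4): minimal members, part B: no three inconsistent arcs
-/

set_option autoImplicit false
set_option linter.unusedSectionVars false

namespace Pool.Agent.TOKSN.Four

open Pool.Agent.TOKST (HasTOKS)
open Pool.Agent.TOKSP (nbh mem_nbh)

variable {V : Type} [Fintype V] [DecidableEq V] {G : SimpleGraph V} {C D K S T T' U X : Finset V}
  {a b c d x y c1 c2 c3 j1 j2 j3 : V} {k l l12 l13 l23 : Bool} {g : V → Bool}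

/-- a path minus its first vertex is connected -/
theorem PX_erase_left (h : PX G T a b k) (hab : a ≠ b) : Conn G (T.erase a) := by
  obtain ⟨w, T', e, h1, h2, h3⟩ := h.uncons hab
  rw [h2, Finset.erase_insert h3]
  exact h1.conn

theorem PX_erase_right (h : PX G T a b k) (hab : a ≠ b) : Conn G (T.erase b) :=
  PX_erase_left h.symm hab.symm

/-- (M) for an inconsistent arc -/
theorem Ctx.arc (h : Ctx G D) (hCD : C ⊆ D) (hK : Cmp G (D \ C) K)
    (hg : ∀ x ∈ K, ∀ y ∈ K ∪ C, G.Adj x y → g x ≠ g y) (hT : PX G T a b l) (hTC : T ⊆ C) (hab : a ≠ b)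
    (ha : ∃ x ∈ K, G.Adj x a) (hb : ∃ x ∈ K, G.Adj x b) (hl : l ≠ (g a ^^ g b)) (hX : X ⊆ D)
    (hXT : Disjoint X T) (hXK : Disjoint X K) (hXc : Conn G X) : (nbh G X \ D).card ≤ 1 := by
  have hdis : Disjoint K C := Finset.disjoint_left.2 fun x hx hx' => (Finset.mem_sdiff.1 (hK.sub hx)).2 hx'
  have hKD : K ⊆ D := hK.sub.trans Finset.sdiff_subset
  obtain ⟨R, hR, hRs⟩ := path_through hK.conn hg hdis (hTC hT.left_mem) (hTC hT.right_mem) hab ha hb
  have hk : (g a ^^ g b) = !l := by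
    revert hl
    cases l <;> cases g a <;> cases g b <;> simp
  rw [hk] at hR
  have hTR : T ∩ R = {a, b} := by
    ext z
    simp only [Finset.mem_inter, Finset.mem_insert, Finset.mem_singleton]
    constructor
    · rintro ⟨h1, h2⟩
      have h3 := hRs h2
      simp only [Finset.mem_insert] at h3
      rcases h3 with h3 | h3 | h3
      · exact Or.inl h3
      · exact Or.inr h3
      · exact absurd (hTC h1) (Finset.disjoint_left.1 hdis h3)
    · rintro (rfl | rfl)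
      · exact ⟨hT.left_mem, hR.left_mem⟩
      · exact ⟨hT.right_mem, hR.right_mem⟩
  have hO : OddCyc G (T ∪ R) := OddCyc.of_arcs hT hR hTR hab
  have hRTK : R ⊆ T ∪ K := by
    intro z hz
    have h3 := hRs hz
    simp only [Finset.mem_insert] at h3
    rcases h3 with h3 | h3 | h3
    · rw [h3]; exact Finset.mem_union_left _ hT.left_mem
    · rw [h3]; exact Finset.mem_union_left _ hT.right_mem
    · exact Finset.mem_union_right _ h3
  refine h.M (T ∪ R) X hO ?_ hX ?_ hXc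
  · exact Finset.union_subset (hTC.trans hCD)
      (hRTK.trans (Finset.union_subset (hTC.trans hCD) hKD))
  · rw [Finset.disjoint_left]
    intro z hz hz'
    rcases Finset.mem_union.1 hz' with h1 | h1
    · exact Finset.disjoint_left.1 hXT hz h1
    · rcases Finset.mem_union.1 (hRTK h1) with h2 | h2
      · exact Finset.disjoint_left.1 hXT hz h2
      · exact Finset.disjoint_left.1 hXK hz h2

/-- the part of `D - K` hanging at `C - T` -/
theorem Ctx.reach (h : Ctx G D) (hCD : C ⊆ D) (hK : Cmp G (D \ C) K) (hTC : T ⊆ C)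
    (hconn : Conn G (C \ T)) {p : V} (hp : p ∈ C \ T) :
    C \ T ⊆ cmp G (D \ (T ∪ K)) p ∧ ∀ K', Cmp G (D \ C) K' → Disjoint K' K →
      (∃ x ∈ K', ∃ y ∈ C, y ∉ T ∧ G.Adj x y) → K' ⊆ cmp G (D \ (T ∪ K)) p := by
  have hCT : C \ T ⊆ D \ (T ∪ K) := by
    intro z hz
    obtain ⟨h1, h2⟩ := Finset.mem_sdiff.1 hz
    refine Finset.mem_sdiff.2 ⟨hCD h1, fun h3 => ?_⟩
    rcases Finset.mem_union.1 h3 with h3 | h3
    · exact h2 h3
    · exact (Finset.mem_sdiff.1 (hK.sub h3)).2 h1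
  refine ⟨hconn.sub_cmp hCT hp, ?_⟩
  intro K' hK' hdis hcon
  obtain ⟨x, hx, y, hy, hyT, e⟩ := hcon
  have h1 : Conn G (K' ∪ (C \ T)) := hK'.conn.union_adj hconn ⟨x, hx, y, Finset.mem_sdiff.2 ⟨hy, hyT⟩, e⟩
  have h2 : K' ⊆ D \ (T ∪ K) := by
    intro z hz
    obtain ⟨h1, h2⟩ := Finset.mem_sdiff.1 (hK'.sub hz)
    refine Finset.mem_sdiff.2 ⟨h1, fun h3 => ?_⟩
    rcases Finset.mem_union.1 h3 with h3 | h3
    · exact h2 (hTC h3)
    · exact Finset.disjoint_left.1 hdis hz h3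
  have h3 := h1.sub_cmp (Finset.union_subset h2 hCT) (Finset.mem_union_right _ hp)
  exact Finset.subset_union_left.trans h3

/-- every vertex of `D - K` other than `c` hangs at `C - T` or at `C - T'` -/
theorem Ctx.claimA (h : Ctx G D) (hC : OddCyc G C) (hCD : C ⊆ D) (hK : Cmp G (D \ C) K) (hTC : T ⊆ C)
    (hTC' : T' ⊆ C) (hTT : T ∩ T' = {c}) (hconn : Conn G (C \ T)) (hconn' : Conn G (C \ T')) {p p' : V}
    (hp : p ∈ C \ T) (hp' : p' ∈ C \ T') (hd : d ∈ D) (hdK : d ∉ K) :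
    d ∈ cmp G (D \ (T ∪ K)) p ∨ d ∈ cmp G (D \ (T' ∪ K)) p' ∨ d = c := by
  obtain ⟨r1, r2⟩ := h.reach hCD hK hTC hconn hp
  obtain ⟨r1', r2'⟩ := h.reach hCD hK hTC' hconn' hp'
  by_cases hdC : d ∈ C
  · by_cases h1 : d ∈ T
    · by_cases h2 : d ∈ T'
      · right; right
        have h3 : d ∈ T ∩ T' := Finset.mem_inter.2 ⟨h1, h2⟩
        rw [hTT] at h3
        exact Finset.mem_singleton.1 h3
      · exact Or.inr (Or.inl (r1' (Finset.mem_sdiff.2 ⟨hdC, h2⟩)))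
    · exact Or.inl (r1 (Finset.mem_sdiff.2 ⟨hdC, h1⟩))
  · have hd' : d ∈ D \ C := Finset.mem_sdiff.2 ⟨hd, hdC⟩
    have hK' := cmp_Cmp (G := G) hd'
    have hdis : Disjoint (cmp G (D \ C) d) K := by
      rw [Finset.disjoint_left]
      intro z hz hz'
      have := hK.eq_of_mem hK' hz' hz
      exact hdK (this ▸ mem_cmp_self hd')
    obtain ⟨x, hx, y, hy, hyc, e⟩ := h.contact hC hCD hK' (Z := {c}) (by simp)
    by_cases h1 : y ∈ T
    · have h2 : y ∉ T' := by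
        intro h2
        have h3 : y ∈ T ∩ T' := Finset.mem_inter.2 ⟨h1, h2⟩
        rw [hTT] at h3
        exact hyc h3
      exact Or.inr (Or.inl (r2' _ hK' hdis ⟨x, hx, y, hy, h2, e⟩ (mem_cmp_self hd')))
    · exact Or.inl (r2 _ hK' hdis ⟨x, hx, y, hy, h1, e⟩ (mem_cmp_self hd'))

/-- three contacts of `K` with pairwise inconsistent arcs -/
structure Three (G : SimpleGraph V) (C D K : Finset V) (g : V → Bool) (c1 c2 c3 : V) (T12 T13 T23 : Finset V)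
    (l12 l13 l23 : Bool) : Prop where
  n12 : c1 ≠ c2
  n13 : c1 ≠ c3
  n23 : c2 ≠ c3
  k1 : ∃ x ∈ K, G.Adj x c1
  k2 : ∃ x ∈ K, G.Adj x c2
  k3 : ∃ x ∈ K, G.Adj x c3
  p12 : PX G T12 c1 c2 l12
  p13 : PX G T13 c1 c3 l13
  p23 : PX G T23 c2 c3 l23
  i1 : T12 ∩ T13 = {c1}
  i2 : T12 ∩ T23 = {c2}
  i3 : T13 ∩ T23 = {c3}
  u : T12 ∪ T13 ∪ T23 = C
  q12 : l12 ≠ (g c1 ^^ g c2)
  q13 : l13 ≠ (g c1 ^^ g c3)
  q23 : l23 ≠ (g c2 ^^ g c3)

variable {T12 T13 T23 : Finset V}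

/-- exchange `c1`, `c2` -/
theorem Three.swap12 (h : Three G C D K g c1 c2 c3 T12 T13 T23 l12 l13 l23) :
    Three G C D K g c2 c1 c3 T12 T23 T13 l12 l23 l13 :=
  ⟨h.n12.symm, h.n23, h.n13, h.k2, h.k1, h.k3, h.p12.symm, h.p23, h.p13, h.i2, h.i1,
    by rw [Finset.inter_comm]; exact h.i3, by rw [Finset.union_right_comm]; exact h.u,
    by rw [Bool.xor_comm]; exact h.q12, h.q23, h.q13⟩

/-- exchange `c2`, `c3` -/
theorem Three.swap23 (h : Three G C D K g c1 c2 c3 T12 T13 T23 l12 l13 l23) :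
    Three G C D K g c1 c3 c2 T13 T12 T23 l13 l12 l23 :=
  ⟨h.n13, h.n12, h.n23.symm, h.k1, h.k3, h.k2, h.p13, h.p12, h.p23.symm,
    by rw [Finset.inter_comm]; exact h.i1, h.i3, h.i2, by rw [Finset.union_comm T13 T12]; exact h.u,
    h.q13, h.q12, by rw [Bool.xor_comm]; exact h.q23⟩

theorem Three.t12 (h : Three G C D K g c1 c2 c3 T12 T13 T23 l12 l13 l23) : T12 ⊆ C :=
  h.u ▸ Finset.subset_union_left.trans Finset.subset_union_left

theorem Three.t13 (h : Three G C D K g c1 c2 c3 T12 T13 T23 l12 l13 l23) : T13 ⊆ C := h.swap23.t12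

theorem Three.t23 (h : Three G C D K g c1 c2 c3 T12 T13 T23 l12 l13 l23) : T23 ⊆ C :=
  h.swap12.t13

theorem Three.c3_notin (h : Three G C D K g c1 c2 c3 T12 T13 T23 l12 l13 l23) : c3 ∉ T12 := by
  intro h1
  have h2 : c3 ∈ T12 ∩ T13 := Finset.mem_inter.2 ⟨h1, h.p13.right_mem⟩
  rw [h.i1, Finset.mem_singleton] at h2
  exact h.n13 h2.symm

/-- `C - T12` is connected -/
theorem Three.conn (h : Three G C D K g c1 c2 c3 T12 T13 T23 l12 l13 l23) : Conn G (C \ T12) := by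
  have h1 := PX_erase_left h.p13 h.n13
  have h2 := PX_erase_left h.p23 h.n23
  have h3 : Conn G (T13.erase c1 ∪ T23.erase c2) := h1.union h2 ⟨c3, Finset.mem_inter.2
    ⟨Finset.mem_erase.2 ⟨h.n13.symm, h.p13.right_mem⟩, Finset.mem_erase.2 ⟨h.n23.symm, h.p23.right_mem⟩⟩⟩
  have h4 : C \ T12 = T13.erase c1 ∪ T23.erase c2 := by
    have i1 := h.i1
    have i2 := h.i2
    have a1 := h.p12.left_mem
    have a2 := h.p12.right_mem
    ext z
    rw [← h.u]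
    simp only [Finset.mem_sdiff, Finset.mem_union, Finset.mem_erase]
    have e1 : z ∈ T12 ∩ T13 ↔ z ∈ ({c1} : Finset V) := by rw [i1]
    have e2 : z ∈ T12 ∩ T23 ↔ z ∈ ({c2} : Finset V) := by rw [i2]
    simp only [Finset.mem_inter, Finset.mem_singleton] at e1 e2
    constructor
    · rintro ⟨(h5 | h5) | h5, h6⟩
      · exact absurd h5 h6
      · exact Or.inl ⟨fun h7 => h6 (h7 ▸ a1), h5⟩
      · exact Or.inr ⟨fun h7 => h6 (h7 ▸ a2), h5⟩
    · rintro (⟨h5, h6⟩ | ⟨h5, h6⟩)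
      · exact ⟨Or.inl (Or.inr h6), fun h7 => h5 (e1.1 ⟨h7, h6⟩)⟩
      · exact ⟨Or.inr h6, fun h7 => h5 (e2.1 ⟨h7, h6⟩)⟩
  rw [h4]
  exact h3

/-- the labels at `c1`, `c2`, `c3` are different: no fourth contact in `T12` -/
theorem Three.fourth (h : Three G C D K g c1 c2 c3 T12 T13 T23 l12 l13 l23) (hx : Ctx G D) (hCD : C ⊆ D)
    (hK : Cmp G (D \ C) K) (hg : ∀ x ∈ K, ∀ y ∈ K ∪ C, G.Adj x y → g x ≠ g y)
    (hj1 : j1 ∉ D) (hj2 : j2 ∉ D) (hj3 : j3 ∉ D) (h13 : j1 ≠ j3) (h23 : j2 ≠ j3)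
    (e1 : G.Adj c1 j1) (e2 : G.Adj c2 j2) (e3 : G.Adj c3 j3) {c4 : V} (h41 : c4 ≠ c1) (h42 : c4 ≠ c2)
    (h4 : c4 ∈ T12) (h4K : ∃ x ∈ K, G.Adj x c4) : False := by
  obtain ⟨T₁, T₂, k₁, k₂, hp₁, hp₂, hu, hi, hk⟩ := h.p12.cut h4
  have hdis : Disjoint K C := Finset.disjoint_left.2 fun x hx hx' => (Finset.mem_sdiff.1 (hK.sub hx)).2 hx'
  have hT1 : T₁ ⊆ T12 := hu ▸ Finset.subset_union_left
  have hT2 : T₂ ⊆ T12 := hu ▸ Finset.subset_union_right
  have hcon : k₁ ≠ (g c1 ^^ g c4) ∨ k₂ ≠ (g c4 ^^ g c2) := by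
    by_contra hcon
    push Not at hcon
    apply h.q12
    rw [← hk, hcon.1, hcon.2]
    cases g c1 <;> cases g c4 <;> cases g c2 <;> rfl
  have two : ∀ X : Finset V, ∀ p q jp jq : V, X ⊆ D → p ∈ X → q ∈ X → G.Adj p jp → G.Adj q jq →
      jp ∉ D → jq ∉ D → jp ≠ jq → ¬ (nbh G X \ D).card ≤ 1 := by
    intro X p q jp jq hX hp hq ep eq hjp hjq hne hle
    exact hne (Finset.card_le_one.1 hle jp ((mem_lab hX).2 ⟨hjp, p, hp, ep⟩) jq
      ((mem_lab hX).2 ⟨hjq, q, hq, eq⟩))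
  rcases hcon with hcon | hcon
  · have hXT : Disjoint T23 T₁ := by
      rw [Finset.disjoint_left]
      intro z hz hz'
      have h5 : z ∈ T12 ∩ T23 := Finset.mem_inter.2 ⟨hT1 hz', hz⟩
      rw [h.i2, Finset.mem_singleton] at h5
      have h6 : z ∈ T₁ ∩ T₂ := Finset.mem_inter.2 ⟨hz', h5 ▸ hp₂.right_mem⟩
      rw [hi, Finset.mem_singleton] at h6
      exact h42 (h6.symm.trans h5)
    refine two T23 c2 c3 j2 j3 (h.t23.trans hCD) h.p23.left_mem h.p23.right_mem e2 e3 hj2 hj3 h23 ?_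
    exact hx.arc hCD hK hg hp₁ (hT1.trans h.t12) h41.symm h.k1 h4K hcon (h.t23.trans hCD) hXT
      (Finset.disjoint_left.2 fun z hz hz' => Finset.disjoint_left.1 hdis hz' (h.t23 hz)) h.p23.conn
  · have hXT : Disjoint T13 T₂ := by
      rw [Finset.disjoint_left]
      intro z hz hz'
      have h5 : z ∈ T12 ∩ T13 := Finset.mem_inter.2 ⟨hT2 hz', hz⟩
      rw [h.i1, Finset.mem_singleton] at h5
      have h6 : z ∈ T₁ ∩ T₂ := Finset.mem_inter.2 ⟨h5 ▸ hp₁.left_mem, hz'⟩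
      rw [hi, Finset.mem_singleton] at h6
      exact h41 (h6.symm.trans h5)
    refine two T13 c1 c3 j1 j3 (h.t13.trans hCD) h.p13.left_mem h.p13.right_mem e1 e3 hj1 hj3 h13 ?_
    exact hx.arc hCD hK hg hp₂ (hT2.trans h.t12) h42 h4K h.k2 hcon (h.t13.trans hCD) hXT
      (Finset.disjoint_left.2 fun z hz hz' => Finset.disjoint_left.1 hdis hz' (h.t13 hz)) h.p13.conn

end Pool.Agent.TOKSN.Four
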