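import Mathlib
import Pool.Agent.TOKSN.FourB

/-!
# LINE N, (4): minimal members, part C: three inconsistent arcs give a contradiction
-/

set_option autoImplicit false
set_option linter.unusedSectionVars false

namespace Pool.Agent.TOKSN.Four

open Pool.Agent.TOKST (HasTOKS)
open Pool.Agent.TOKSP (nbh mem_nbh)

variable {V : Type} [Fintype V] [DecidableEq V] {G : SimpleGraph V} {C D K S T T' U X : Finset V}
  {a b c d x y c1 c2 c3 j j1 j2 j3 : V} {k l l12 l13 l23 : Bool} {g : V → Bool} {T12 T13 T23 : Finset V}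

/-- surplus of independent sets -/
def N3 (G : SimpleGraph V) : Prop :=
  ∀ Y : Finset V, Y.Nonempty → (∀ x ∈ Y, ∀ y ∈ Y, ¬ G.Adj x y) → Y.card + 3 ≤ (nbh G Y).card

/-- the part of `D - K` hanging at `C - T12` -/
noncomputable def XX (G : SimpleGraph V) (D K T : Finset V) (p : V) : Finset V := cmp G (D \ (T ∪ K)) p

theorem XX_sub {p : V} : XX G D K T p ⊆ D := cmp_sub.trans Finset.sdiff_subset

theorem Three.lab (h : Three G C D K g c1 c2 c3 T12 T13 T23 l12 l13 l23) (hx : Ctx G D) (hCD : C ⊆ D)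
    (hK : Cmp G (D \ C) K) (hg : ∀ x ∈ K, ∀ y ∈ K ∪ C, G.Adj x y → g x ≠ g y) :
    (nbh G (XX G D K T12 c3) \ D).card ≤ 1 := by
  have hdis : Disjoint K C := Finset.disjoint_left.2 fun x hx hx' => (Finset.mem_sdiff.1 (hK.sub hx)).2 hx'
  have hc3 : c3 ∈ D \ (T12 ∪ K) := by
    refine Finset.mem_sdiff.2 ⟨hCD (h.t13 h.p13.right_mem), fun h1 => ?_⟩
    rcases Finset.mem_union.1 h1 with h1 | h1
    · exact h.c3_notin h1
    · exact Finset.disjoint_left.1 hdis h1 (h.t13 h.p13.right_mem)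
  refine hx.arc hCD hK hg h.p12 h.t12 h.n12 h.k1 h.k2 h.q12 XX_sub ?_ ?_ (cmp_conn hc3)
  · rw [Finset.disjoint_left]
    intro z hz hz'
    exact (Finset.mem_sdiff.1 (cmp_sub hz)).2 (Finset.mem_union_left _ hz')
  · rw [Finset.disjoint_left]
    intro z hz hz'
    exact (Finset.mem_sdiff.1 (cmp_sub hz)).2 (Finset.mem_union_right _ hz')

theorem Three.claim (h : Three G C D K g c1 c2 c3 T12 T13 T23 l12 l13 l23) (hx : Ctx G D) (hC : OddCyc G C)
    (hCD : C ⊆ D) (hK : Cmp G (D \ C) K) (hd : d ∈ D) (hdK : d ∉ K) :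
    d ∈ XX G D K T12 c3 ∨ d ∈ XX G D K T13 c2 ∨ d = c1 :=
  hx.claimA hC hCD hK h.t12 h.t13 h.i1 h.conn h.swap23.conn
    (Finset.mem_sdiff.2 ⟨h.t13 h.p13.right_mem, h.c3_notin⟩)
    (Finset.mem_sdiff.2 ⟨h.t12 h.p12.right_mem, h.swap23.c3_notin⟩) hd hdK

theorem Three.c1_mem (h : Three G C D K g c1 c2 c3 T12 T13 T23 l12 l13 l23) (hx : Ctx G D)
    (hCD : C ⊆ D) (hK : Cmp G (D \ C) K) : c1 ∈ XX G D K T23 c1 := by
  have hdis : Disjoint K C := Finset.disjoint_left.2 fun x hx hx' => (Finset.mem_sdiff.1 (hK.sub hx)).2 hx'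
  refine mem_cmp_self (Finset.mem_sdiff.2 ⟨hCD (h.t12 h.p12.left_mem), fun h1 => ?_⟩)
  rcases Finset.mem_union.1 h1 with h1 | h1
  · exact h.swap12.swap23.c3_notin h1
  · exact Finset.disjoint_left.1 hdis h1 (h.t12 h.p12.left_mem)

/-- labels not at `K` -/
theorem Three.assign (h : Three G C D K g c1 c2 c3 T12 T13 T23 l12 l13 l23) (hx : Ctx G D) (hC : OddCyc G C)
    (hCD : C ⊆ D) (hK : Cmp G (D \ C) K) (hj : j ∉ D) (hjK : ∀ x ∈ K, ¬ G.Adj x j) :
    j ∈ nbh G (XX G D K T12 c3) \ D ∨ j ∈ nbh G (XX G D K T13 c2) \ D ∨ ∀ d ∈ D, G.Adj d j → d = c1 := by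
  by_cases h1 : j ∈ nbh G (XX G D K T12 c3) \ D
  · exact Or.inl h1
  by_cases h2 : j ∈ nbh G (XX G D K T13 c2) \ D
  · exact Or.inr (Or.inl h2)
  right; right
  intro d hd e
  rcases h.claim hx hC hCD hK hd (fun h3 => hjK d h3 e) with h3 | h3 | h3
  · exact absurd ((mem_lab XX_sub).2 ⟨hj, d, h3, e⟩) h1
  · exact absurd ((mem_lab XX_sub).2 ⟨hj, d, h3, e⟩) h2
  · exact h3

/-- the case of four labels -/
theorem Three.core (h : Three G C D K g c1 c2 c3 T12 T13 T23 l12 l13 l23) (hx : Ctx G D) (hN3 : N3 G)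
    (hT : ¬ HasTOKS G) (hC : OddCyc G C) (hCD : C ⊆ D) (hK : Cmp G (D \ C) K)
    (hg : ∀ x ∈ K, ∀ y ∈ K ∪ C, G.Adj x y → g x ≠ g y)
    (hj1 : j1 ∉ D) (hj2 : j2 ∉ D) (hj3 : j3 ∉ D) (h12 : j1 ≠ j2) (h13 : j1 ≠ j3) (h23 : j2 ≠ j3)
    (e1 : G.Adj c1 j1) (e2 : G.Adj c2 j2) (e3 : G.Adj c3 j3)
    (m1 : j1 ∈ nbh G (XX G D K T23 c1) \ D) (m2 : j2 ∈ nbh G (XX G D K T13 c2) \ D)
    (m3 : j3 ∈ nbh G (XX G D K T12 c3) \ D) : False := by
  have hdis : Disjoint K C := Finset.disjoint_left.2 fun x hx hx' => (Finset.mem_sdiff.1 (hK.sub hx)).2 hx'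
  have hKD : K ⊆ D := hK.sub.trans Finset.sdiff_subset
  have w12 := Finset.card_le_one.1 (h.lab hx hCD hK hg)
  have w13 := Finset.card_le_one.1 (h.swap23.lab hx hCD hK hg)
  have w23 := Finset.card_le_one.1 (h.swap12.swap23.lab hx hCD hK hg)
  have hc1C : c1 ∈ C := h.t12 h.p12.left_mem
  have hc2C : c2 ∈ C := h.t12 h.p12.right_mem
  have hc3C : c3 ∈ C := h.t13 h.p13.right_mem
  -- no other contacts
  have hcont : ∀ c4 ∈ C, (∃ x ∈ K, G.Adj x c4) → c4 ∈ ({c1, c2, c3} : Finset V) := by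
    intro c4 hc4 h4K
    by_contra hne
    simp only [Finset.mem_insert, Finset.mem_singleton, not_or] at hne
    have hu := h.u
    rw [← hu] at hc4
    rcases Finset.mem_union.1 hc4 with hc4 | hc4
    · rcases Finset.mem_union.1 hc4 with hc4 | hc4
      · exact h.fourth hx hCD hK hg hj1 hj2 hj3 h13 h23 e1 e2 e3 hne.1 hne.2.1 hc4 h4K
      · exact h.swap23.fourth hx hCD hK hg hj1 hj3 hj2 h12 h23.symm e1 e3 e2 hne.1 hne.2.2 hc4 h4K
    · exact h.swap12.swap23.fourth hx hCD hK hg hj2 hj3 hj1 h12.symm h13.symm e2 e3 e1 hne.2.1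
        hne.2.2 hc4 h4K
  -- nothing else
  have hD : ∀ q ∈ D, q ∉ K → q ∈ ({c1, c2, c3} : Finset V) := by
    by_contra hcon
    push Not at hcon
    obtain ⟨q0, hq0, hq0K, hq0c⟩ := hcon
    refine hx.few (X := D \ (K ∪ {c1, c2, c3})) Finset.sdiff_subset
      ⟨q0, Finset.mem_sdiff.2 ⟨hq0, fun h1 => (Finset.mem_union.1 h1).elim hq0K hq0c⟩⟩
      (L := {c1, c2, c3}) ?_ Finset.card_le_three ?_
    · intro y hy
      obtain ⟨h1, q, hq, e⟩ := mem_nbh.1 hy
      obtain ⟨hqD, hq'⟩ := Finset.mem_sdiff.1 hq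
      rw [Finset.mem_union, not_or] at hq'
      obtain ⟨hqK, hqc⟩ := hq'
      by_contra hyc
      by_cases hyD : y ∈ D
      · have hyK : y ∈ K := by
          by_contra hyK
          exact h1 (Finset.mem_sdiff.2 ⟨hyD, fun h2 => (Finset.mem_union.1 h2).elim hyK hyc⟩)
        by_cases hqC : q ∈ C
        · exact hqc (hcont q hqC ⟨y, hyK, e.symm⟩)
        · exact hqK (hK.closed y hyK q (Finset.mem_sdiff.2 ⟨hqD, hqC⟩) e.symm)
      · simp only [Finset.mem_insert, Finset.mem_singleton, not_or] at hqc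
        have f12 : q ∈ XX G D K T12 c3 → y = j3 := fun h2 =>
          w12 y ((mem_lab XX_sub).2 ⟨hyD, q, h2, e⟩) j3 m3
        have f13 : q ∈ XX G D K T13 c2 → y = j2 := fun h2 =>
          w13 y ((mem_lab XX_sub).2 ⟨hyD, q, h2, e⟩) j2 m2
        have f23 : q ∈ XX G D K T23 c1 → y = j1 := fun h2 =>
          w23 y ((mem_lab XX_sub).2 ⟨hyD, q, h2, e⟩) j1 m1
        have g1 := h.claim hx hC hCD hK hqD hqK
        have g2 := h.swap12.claim hx hC hCD hK hqD hqK
        have g3 := h.swap23.swap12.claim hx hC hCD hK hqD hqK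
        rcases g1 with g1 | g1 | g1
        · have y3 := f12 g1
          rcases g3 with g3 | g3 | g3
          · exact h23 ((f13 g3).symm.trans y3)
          · exact h13 ((f23 g3).symm.trans y3)
          · exact hqc.2.2 g3
        · have y2 := f13 g1
          rcases g2 with g2 | g2 | g2
          · exact h23 (y2.symm.trans (f12 g2))
          · exact h12 ((f23 g2).symm.trans y2)
          · exact hqc.2.1 g2
        · exact hqc.1 g1
    · have h1 : ({c1, c2, c3} : Finset V) \ D = ∅ := by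
        rw [Finset.sdiff_eq_empty_iff_subset]
        intro z hz
        simp only [Finset.mem_insert, Finset.mem_singleton] at hz
        rcases hz with rfl | rfl | rfl
        · exact hCD hc1C
        · exact hCD hc2C
        · exact hCD hc3C
      rw [h1]
      simp
  -- the arcs are edges
  have arc2 : ∀ (T : Finset V) (p q r : V) (l : Bool), PX G T p q l → T ⊆ C → p ≠ q → r ∉ T →
      ({c1, c2, c3} : Finset V) ⊆ {p, q, r} → l = true := by
    intro T p q r l hp hTC hpq hr hsub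
    have h1 : T = {p, q} := by
      apply Finset.Subset.antisymm
      · intro z hz
        have h2 := hsub (hD z (hCD (hTC hz)) (fun h3 => Finset.disjoint_left.1 hdis h3 (hTC hz)))
        simp only [Finset.mem_insert, Finset.mem_singleton] at h2 ⊢
        rcases h2 with h2 | h2 | h2
        · exact Or.inl h2
        · exact Or.inr h2
        · exact absurd hz (h2 ▸ hr)
      · intro z hz
        simp only [Finset.mem_insert, Finset.mem_singleton] at hz
        rcases hz with rfl | rfl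
        · exact hp.left_mem
        · exact hp.right_mem
    have h2 := hp.card
    rw [h1, Finset.card_pair hpq] at h2
    cases l
    · exact absurd (h2.2 rfl) (by decide)
    · rfl
  have t12 : l12 = true := arc2 T12 c1 c2 c3 l12 h.p12 h.t12 h.n12 h.c3_notin (Finset.Subset.refl _)
  have t13 : l13 = true := arc2 T13 c1 c3 c2 l13 h.p13 h.t13 h.n13 h.swap23.c3_notin (by
    intro z hz
    simp only [Finset.mem_insert, Finset.mem_singleton] at hz ⊢
    tauto)
  have t23 : l23 = true := arc2 T23 c2 c3 c1 l23 h.p23 h.t23 h.n23 h.swap12.swap23.c3_notin (by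
    intro z hz
    simp only [Finset.mem_insert, Finset.mem_singleton] at hz ⊢
    tauto)
  have q12 : g c2 = g c1 := by
    have := h.q12
    rw [t12] at this
    revert this
    cases g c1 <;> cases g c2 <;> simp
  have q13 : g c3 = g c1 := by
    have := h.q13
    rw [t13] at this
    revert this
    cases g c1 <;> cases g c3 <;> simp
  -- the classes of `K`
  set WK := K.filter (fun x => g x ≠ g c1) with hWK
  set BK := K.filter (fun x => g x = g c1) with hBK
  have hLK := hx.M C K hC hCD hKD hdis hK.conn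
  have hcolour : ∀ x ∈ K, ∀ c ∈ ({c1, c2, c3} : Finset V), G.Adj x c → g x ≠ g c1 := by
    intro x hx c hc e
    simp only [Finset.mem_insert, Finset.mem_singleton] at hc
    rcases hc with rfl | rfl | rfl
    · exact hg x hx _ (Finset.mem_union_right _ hc1C) e
    · rw [← q12]; exact hg x hx _ (Finset.mem_union_right _ hc2C) e
    · rw [← q13]; exact hg x hx _ (Finset.mem_union_right _ hc3C) e
  have hW3 : WK.Nonempty → WK.card + 3 ≤ BK.card + 4 := by
    intro hne
    have h1 := hN3 WK hne (by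
      intro x hx y hy e
      obtain ⟨hx1, hx2⟩ := Finset.mem_filter.1 hx
      obtain ⟨hy1, hy2⟩ := Finset.mem_filter.1 hy
      have := hg x hx1 y (Finset.mem_union_left _ hy1) e
      revert this hx2 hy2
      cases g x <;> cases g y <;> cases g c1 <;> simp)
    have h2 : nbh G WK ⊆ BK ∪ ({c1, c2, c3} ∪ (nbh G K \ D)) := by
      intro y hy
      obtain ⟨hy1, x, hx, e⟩ := mem_nbh.1 hy
      obtain ⟨hx1, hx2⟩ := Finset.mem_filter.1 hx
      by_cases hyD : y ∈ D
      · by_cases hyK : y ∈ K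
        · refine Finset.mem_union_left _ (Finset.mem_filter.2 ⟨hyK, ?_⟩)
          by_contra h3
          exact hy1 (Finset.mem_filter.2 ⟨hyK, h3⟩)
        · exact Finset.mem_union_right _ (Finset.mem_union_left _ (hD y hyD hyK))
      · exact Finset.mem_union_right _ (Finset.mem_union_right _ ((mem_lab hKD).2 ⟨hyD, x, hx1, e⟩))
    have h3 := Finset.card_le_card h2
    have h4 := Finset.card_union_le BK ({c1, c2, c3} ∪ (nbh G K \ D))
    have h5 := Finset.card_union_le ({c1, c2, c3} : Finset V) (nbh G K \ D)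
    have h6 : ({c1, c2, c3} : Finset V).card ≤ 3 := Finset.card_le_three
    omega
  have hB3 : BK.Nonempty → BK.card + 3 ≤ WK.card + 1 := by
    intro hne
    have h1 := hN3 BK hne (by
      intro x hx y hy e
      obtain ⟨hx1, hx2⟩ := Finset.mem_filter.1 hx
      obtain ⟨hy1, hy2⟩ := Finset.mem_filter.1 hy
      exact hg x hx1 y (Finset.mem_union_left _ hy1) e (hx2.trans hy2.symm))
    have h2 : nbh G BK ⊆ WK ∪ (nbh G K \ D) := by
      intro y hy
      obtain ⟨hy1, x, hx, e⟩ := mem_nbh.1 hy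
      obtain ⟨hx1, hx2⟩ := Finset.mem_filter.1 hx
      by_cases hyD : y ∈ D
      · by_cases hyK : y ∈ K
        · refine Finset.mem_union_left _ (Finset.mem_filter.2 ⟨hyK, ?_⟩)
          intro h3
          exact hy1 (Finset.mem_filter.2 ⟨hyK, h3⟩)
        · exact absurd hx2 (hcolour x hx1 y (hD y hyD hyK) e)
      · exact Finset.mem_union_right _ ((mem_lab hKD).2 ⟨hyD, x, hx1, e⟩)
    have h3 := Finset.card_le_card h2
    have h4 := Finset.card_union_le WK (nbh G K \ D)
    omega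
  have hBe : ∀ x ∈ K, g x ≠ g c1 := by
    intro x hx h1
    have h2 : BK.Nonempty := ⟨x, Finset.mem_filter.2 ⟨hx, h1⟩⟩
    have h3 := hB3 h2
    have h4 : WK.Nonempty := Finset.card_pos.1 (by omega)
    have h5 := hW3 h4
    omega
  obtain ⟨e, he⟩ := hK.conn.1
  have hKe : ∀ x ∈ K, x = e := by
    intro x hxK
    by_contra hne
    obtain ⟨u, hu, huK, v, hv, hv', e'⟩ := hK.conn.exists_edge {e} he (Finset.mem_singleton_self e) hxK
      (by simpa using hne)
    have h1 := hBe u huK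
    have h2 := hBe v hv
    have h3 := hg u huK v (Finset.mem_union_left _ hv) e'
    revert h1 h2 h3
    cases g u <;> cases g v <;> cases g c1 <;> simp
  have a1 : G.Adj c1 e := by
    obtain ⟨x, hx, e'⟩ := h.k1
    rw [← hKe x hx]
    exact e'.symm
  have a2 : G.Adj c2 e := by
    obtain ⟨x, hx, e'⟩ := h.k2
    rw [← hKe x hx]
    exact e'.symm
  have a3 : G.Adj c3 e := by
    obtain ⟨x, hx, e'⟩ := h.k3
    rw [← hKe x hx]
    exact e'.symm
  have heC : e ∉ C := Finset.disjoint_left.1 hdis he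
  have m12 : e ∉ T12 := fun h1 => heC (h.t12 h1)
  have m13 : e ∉ T13 := fun h1 => heC (h.t13 h1)
  have m23 : e ∉ T23 := fun h1 => heC (h.t23 h1)
  have p12 := h.p12
  have p13 := h.p13
  have p23 := h.p23
  rw [t12] at p12
  rw [t13] at p13
  rw [t23] at p23
  have n12 := h.n12
  have n13 := h.n13
  have n23 := h.n23
  have z3 := h.c3_notin
  have z2 := h.swap23.c3_notin
  have z1 := h.swap12.swap23.c3_notin
  have i1 := h.i1
  have i2 := h.i2
  have i3 := h.i3
  apply hT
  refine toks_mk (a := c1) (b := c2) (c := c3) (d := e) p12 p13 (PX.edge a1) p23 (PX.edge a2) (PX.edge a3)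
    ?_ ?_ ?_ i1.subset ?_ ?_ i2.subset ?_ ?_ i3.subset ?_ ?_ ?_ ?_ ?_
  · rw [Finset.disjoint_left]
    intro z hz hz'
    simp only [Finset.mem_insert, Finset.mem_singleton] at hz'
    rcases hz' with rfl | rfl
    · exact z3 hz
    · exact m12 hz
  · rw [Finset.disjoint_left]
    intro z hz hz'
    simp only [Finset.mem_insert, Finset.mem_singleton] at hz'
    rcases hz' with rfl | rfl
    · exact z2 hz
    · exact m13 hz
  · rw [Finset.disjoint_left]
    intro z hz hz'
    simp only [Finset.mem_insert, Finset.mem_singleton] at hz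
    rcases hz with rfl | rfl
    · exact z1 hz'
    · exact m23 hz'
  all_goals
    intro z hz
    simp only [Finset.mem_inter, Finset.mem_insert, Finset.mem_singleton] at hz ⊢
    grind

end Pool.Agent.TOKSN.Four
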