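import Mathlib
import Pool.Agent.TOKSN.FourC

/-!
# LINE N, (4): minimal members, part D: exactly one inconsistent arc
-/

set_option autoImplicit false
set_option linter.unusedSectionVars false

namespace Pool.Agent.TOKSN.Four

open Pool.Agent.TOKST (HasTOKS)
open Pool.Agent.TOKSP (nbh mem_nbh)

variable {V : Type} [Fintype V] [DecidableEq V] {G : SimpleGraph V} {C D K S T T' U X : Finset V}
  {a b c d x y c1 c2 c3 j j1 j2 j3 : V} {k l l12 l13 l23 : Bool} {g : V → Bool} {T12 T13 T23 : Finset V}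

/-- three pairwise inconsistent arcs are impossible -/
theorem Three.false (h : Three G C D K g c1 c2 c3 T12 T13 T23 l12 l13 l23) (hx : Ctx G D) (hN3 : N3 G)
    (hT : ¬ HasTOKS G) (hC : OddCyc G C) (hCD : C ⊆ D) (hK : Cmp G (D \ C) K)
    (hg : ∀ x ∈ K, ∀ y ∈ K ∪ C, G.Adj x y → g x ≠ g y) : False := by
  have hdis : Disjoint K C := Finset.disjoint_left.2 fun x hx hx' => (Finset.mem_sdiff.1 (hK.sub hx)).2 hx'
  have hKD : K ⊆ D := hK.sub.trans Finset.sdiff_subset
  have v12 := h.lab hx hCD hK hg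
  have v13 := h.swap23.lab hx hCD hK hg
  have v23 := h.swap12.swap23.lab hx hCD hK hg
  have w12 := Finset.card_le_one.1 v12
  have w13 := Finset.card_le_one.1 v13
  have w23 := Finset.card_le_one.1 v23
  have hLK := hx.M C K hC hCD hKD hdis hK.conn
  set L := nbh G D with hL
  set LK := nbh G K \ D with hLKdef
  have hLD : ∀ y ∈ L, y ∉ D := fun y hy => (mem_nbh.1 hy).1
  have hcard : L.card ≤ (L \ LK).card + LK.card := Finset.card_le_card_sdiff_add_card
  have hnotK : ∀ y ∈ L \ LK, ∀ x ∈ K, ¬ G.Adj x y := by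
    intro y hy x hxK e
    obtain ⟨h1, h2⟩ := Finset.mem_sdiff.1 hy
    exact h2 ((mem_lab hKD).2 ⟨hLD y h1, x, hxK, e⟩)
  have s1 : ∀ y ∈ L \ LK, _ := fun y hy =>
    h.assign hx hC hCD hK (hLD y (Finset.mem_sdiff.1 hy).1) (hnotK y hy)
  have s2 : ∀ y ∈ L \ LK, _ := fun y hy =>
    h.swap12.assign hx hC hCD hK (hLD y (Finset.mem_sdiff.1 hy).1) (hnotK y hy)
  have s3 : ∀ y ∈ L \ LK, _ := fun y hy =>
    h.swap23.swap12.assign hx hC hCD hK (hLD y (Finset.mem_sdiff.1 hy).1) (hnotK y hy)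
  by_cases hL4 : 4 ≤ L.card
  · -- four labels
    have h3 : 3 ≤ (L \ LK).card := by omega
    have pick : ∀ A B : Finset V, A.card ≤ 1 → B.card ≤ 1 → ∃ y ∈ L \ LK, y ∉ A ∧ y ∉ B := by
      intro A B hA hB
      by_contra hcon
      push Not at hcon
      have h4 : L \ LK ⊆ A ∪ B := by
        intro y hy
        by_cases hyA : y ∈ A
        · exact Finset.mem_union_left _ hyA
        · exact Finset.mem_union_right _ (hcon y hy hyA)
      have h5 := Finset.card_le_card h4
      have h6 := Finset.card_union_le A B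
      omega
    obtain ⟨j1, hj1, a12, a13⟩ := pick _ _ v12 v13
    obtain ⟨j2, hj2, b12, b23⟩ := pick _ _ v12 v23
    obtain ⟨j3, hj3, c13, c23⟩ := pick _ _ v13 v23
    have ex : ∀ y ∈ L \ LK, ∃ d ∈ D, G.Adj d y := fun y hy =>
      (mem_nbh.1 (Finset.mem_sdiff.1 hy).1).2
    have r1 := ((s1 j1 hj1).resolve_left a12).resolve_left a13
    have r2 := ((s2 j2 hj2).resolve_left b12).resolve_left b23
    have r3 := ((s3 j3 hj3).resolve_left c13).resolve_left c23
    obtain ⟨d1, hd1, e1⟩ := ex j1 hj1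
    obtain ⟨d2, hd2, e2⟩ := ex j2 hj2
    obtain ⟨d3, hd3, e3⟩ := ex j3 hj3
    rw [r1 d1 hd1 e1] at e1
    rw [r2 d2 hd2 e2] at e2
    rw [r3 d3 hd3 e3] at e3
    have k1 := hLD j1 (Finset.mem_sdiff.1 hj1).1
    have k2 := hLD j2 (Finset.mem_sdiff.1 hj2).1
    have k3 := hLD j3 (Finset.mem_sdiff.1 hj3).1
    have m1 : j1 ∈ nbh G (XX G D K T23 c1) \ D := (mem_lab XX_sub).2 ⟨k1, c1, h.c1_mem hx hCD hK, e1⟩
    have m2 : j2 ∈ nbh G (XX G D K T13 c2) \ D :=
      (mem_lab XX_sub).2 ⟨k2, c2, h.swap12.c1_mem hx hCD hK, e2⟩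
    have m3 : j3 ∈ nbh G (XX G D K T12 c3) \ D :=
      (mem_lab XX_sub).2 ⟨k3, c3, h.swap23.swap12.c1_mem hx hCD hK, e3⟩
    have n12 : j1 ≠ j2 := fun h4 => b23 (h4 ▸ m1)
    have n13 : j1 ≠ j3 := fun h4 => c23 (h4 ▸ m1)
    have n23 : j2 ≠ j3 := fun h4 => c13 (h4 ▸ m2)
    exact h.core hx hN3 hT hC hCD hK hg k1 k2 k3 n12 n13 n23 e1 e2 e3 m1 m2 m3
  · -- three labels, three vertices outside
    have hall : ∀ w, w ∉ D → w ∈ L := by
      intro w hw
      by_contra hwL
      exact hL4 (hx.fc D hx.conn.1 ⟨w, hw, hwL⟩)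
    have hDc : Dᶜ = L := by
      ext w
      rw [Finset.mem_compl]
      exact ⟨hall w, hLD w⟩
    have hD3 : L.card = 3 := by
      have := hx.card
      rw [hDc] at this
      omega
    have h2 : 2 ≤ (L \ LK).card := by omega
    have two : ∀ y ∈ L \ LK, ∀ c, ¬ ∀ d ∈ D, G.Adj d y → d = c := by
      intro y hy c hc
      have hyD := hLD y (Finset.mem_sdiff.1 hy).1
      have h4 := hN3 {y} (Finset.singleton_nonempty y) (by
        intro u hu v hv e
        rw [Finset.mem_singleton] at hu hv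
        rw [hu, hv] at e
        exact G.loopless.irrefl _ e)
      rw [Finset.card_singleton] at h4
      have h5 : nbh G {y} ⊆ insert c (L.erase y) := by
        intro z hz
        obtain ⟨hz1, u, hu, e⟩ := mem_nbh.1 hz
        rw [Finset.mem_singleton] at hu hz1
        rw [hu] at e
        by_cases hzD : z ∈ D
        · rw [hc z hzD e.symm]
          exact Finset.mem_insert_self _ _
        · exact Finset.mem_insert_of_mem (Finset.mem_erase.2 ⟨hz1, hall z hzD⟩)
      have h6 := Finset.card_le_card h5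
      have h7 := Finset.card_insert_le c (L.erase y)
      rw [Finset.card_erase_of_mem (Finset.mem_sdiff.1 hy).1] at h7
      omega
    have t1 : ∀ y ∈ L \ LK, y ∈ nbh G (XX G D K T12 c3) \ D ∨ y ∈ nbh G (XX G D K T13 c2) \ D := by
      intro y hy
      rcases s1 y hy with h4 | h4 | h4
      · exact Or.inl h4
      · exact Or.inr h4
      · exact absurd h4 (two y hy _)
    have t2 : ∀ y ∈ L \ LK, y ∈ nbh G (XX G D K T12 c3) \ D ∨ y ∈ nbh G (XX G D K T23 c1) \ D := by
      intro y hy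
      rcases s2 y hy with h4 | h4 | h4
      · exact Or.inl h4
      · exact Or.inr h4
      · exact absurd h4 (two y hy _)
    have t3 : ∀ y ∈ L \ LK, y ∈ nbh G (XX G D K T13 c2) \ D ∨ y ∈ nbh G (XX G D K T23 c1) \ D := by
      intro y hy
      rcases s3 y hy with h4 | h4 | h4
      · exact Or.inl h4
      · exact Or.inr h4
      · exact absurd h4 (two y hy _)
    obtain ⟨y, hy, z, hz, hyz⟩ := Finset.one_lt_card.1 (show 1 < (L \ LK).card by omega)
    have a1 := t1 y hy
    have a2 := t2 y hy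
    have a3 := t3 y hy
    have b1 := t1 z hz
    have b2 := t2 z hz
    have b3 := t3 z hz
    have u12 := w12 y
    have u13 := w13 y
    have u23 := w23 y
    rcases a1 with a1 | a1
    · rcases b1 with b1 | b1
      · exact hyz (u12 a1 z b1)
      · rcases a3 with a3 | a3
        · exact hyz (u13 a3 z b1)
        · rcases b2 with b2 | b2
          · exact hyz (u12 a1 z b2)
          · exact hyz (u23 a3 z b2)
    · rcases b1 with b1 | b1
      · rcases b3 with b3 | b3
        · exact hyz (u13 a1 z b3)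
        · rcases a2 with a2 | a2
          · exact hyz (u12 a2 z b1)
          · exact hyz (u23 a2 z b3)
      · exact hyz (u13 a1 z b1)

end Pool.Agent.TOKSN.Four
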