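import Mathlib
import Pool.Agent.TOKSN.FourD

/-!
# LINE N, (4): minimal members, part E: coordinates on a path, the extremal choice
-/

set_option autoImplicit false
set_option linter.unusedSectionVars false

namespace Pool.Agent.TOKSN.Four

open Pool.Agent.TOKST (HasTOKS)
open Pool.Agent.TOKSP (nbh mem_nbh)

variable {V : Type} [Fintype V] [DecidableEq V] {G : SimpleGraph V} {C D K S T T' U X A P : Finset V}
  {a b c d x y z u v : V} {k l m : Bool} {g : V → Bool}

/-- parity coordinates on a path -/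
structure Coord (G : SimpleGraph V) (P : Finset V) (a b : V) (m : Bool) (φ : V → Bool) : Prop where
  fa : φ a = false
  fb : φ b = m
  cut : ∀ z ∈ P, ∃ P₁ P₂, PX G P₁ a z (φ z) ∧ PX G P₂ z b (φ z ^^ m) ∧ P₁ ∪ P₂ = P ∧ P₁ ∩ P₂ = {z}
  seg : ∀ u ∈ P, ∀ v ∈ P, u ≠ v → ∃ T, T ⊆ P ∧ PX G T u v (φ u ^^ φ v) ∧ (a ∈ T → a = u ∨ a = v) ∧
    (b ∈ T → b = u ∨ b = v)

theorem exists_coord (h : PX G P a b m) : ∃ φ, Coord G P a b m φ := by
  refine PX.ind (P := fun P a b m => ∃ φ, Coord G P a b m φ) ?_ ?_ h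
  · intro a
    refine ⟨fun _ => false, rfl, rfl, ?_, ?_⟩
    · intro z hz
      rw [Finset.mem_singleton] at hz
      subst hz
      exact ⟨{z}, {z}, PX.refl G z, PX.refl G z, by simp, by simp⟩
    · intro u hu v hv huv
      rw [Finset.mem_singleton] at hu hv
      exact absurd (hu.trans hv.symm) huv
  · rintro T a b c k e hp ha ⟨φ, hφ⟩
    have hne : ∀ z ∈ T, z ≠ a := fun z hz h => ha (h ▸ hz)
    have hval : ∀ z ∈ T, (if z = a then false else !(φ z)) = !(φ z) := fun z hz => if_neg (hne z hz)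
    have hcut : ∀ z ∈ T, ∃ P₁ P₂, PX G P₁ a z (!(φ z)) ∧ PX G P₂ z c (!(φ z) ^^ !k) ∧
        P₁ ∪ P₂ = insert a T ∧ P₁ ∩ P₂ = {z} ∧ P₂ ⊆ T := by
      intro z hz
      obtain ⟨P₁, P₂, h1, h2, h3, h4⟩ := hφ.cut z hz
      have hs1 : P₁ ⊆ T := h3 ▸ Finset.subset_union_left
      have hs2 : P₂ ⊆ T := h3 ▸ Finset.subset_union_right
      refine ⟨insert a P₁, P₂, h1.cons e (fun h5 => ha (hs1 h5)), ?_, ?_, ?_, hs2⟩
      · have : (!(φ z) ^^ !k) = (φ z ^^ k) := by cases φ z <;> cases k <;> rfl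
        rw [this]
        exact h2
      · rw [Finset.insert_union, h3]
      · rw [Finset.insert_inter_of_notMem (fun h5 => ha (hs2 h5)), h4]
    have hseg : ∀ v ∈ T, ∃ T', T' ⊆ insert a T ∧ PX G T' a v (!(φ v)) ∧ (c ∈ T' → c = v) := by
      intro v hv
      obtain ⟨P₁, P₂, h1, h2, h3, h4, h5⟩ := hcut v hv
      refine ⟨P₁, h3 ▸ Finset.subset_union_left, h1, fun h6 => ?_⟩
      have h7 : c ∈ P₁ ∩ P₂ := Finset.mem_inter.2 ⟨h6, h2.right_mem⟩
      rw [h4, Finset.mem_singleton] at h7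
      exact h7
    refine ⟨fun z => if z = a then false else !(φ z), by simp, ?_, ?_, ?_⟩
    · show (if c = a then false else !(φ c)) = !k
      rw [hval c hp.right_mem, hφ.fb]
    · intro z hz
      by_cases hza : z = a
      · subst hza
        simp only [if_true]
        refine ⟨{z}, insert z T, PX.refl G z, ?_, ?_, ?_⟩
        · rw [Bool.false_xor]
          exact hp.cons e ha
        · ext w; simp
        · ext w
          simp only [Finset.mem_inter, Finset.mem_insert, Finset.mem_singleton]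
          exact ⟨fun h => h.1, fun h => ⟨h, Or.inl h⟩⟩
      · simp only [if_neg hza]
        obtain ⟨P₁, P₂, h1, h2, h3, h4, -⟩ := hcut z ((Finset.mem_insert.1 hz).resolve_left hza)
        exact ⟨P₁, P₂, h1, h2, h3, h4⟩
    · intro u hu v hv huv
      rcases Finset.mem_insert.1 hu with hua | huT
      · subst hua
        have hvT : v ∈ T := (Finset.mem_insert.1 hv).resolve_left (Ne.symm huv)
        obtain ⟨T', h1, h2, h3⟩ := hseg v hvT
        refine ⟨T', h1, ?_, fun _ => Or.inl rfl, fun h4 => Or.inr (h3 h4)⟩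
        simp only [if_true, hval v hvT, Bool.false_xor]
        exact h2
      · rcases Finset.mem_insert.1 hv with hva | hvT
        · subst hva
          obtain ⟨T', h1, h2, h3⟩ := hseg u huT
          refine ⟨T', h1, ?_, fun _ => Or.inr rfl, fun h4 => Or.inl (h3 h4)⟩
          simp only [if_true, hval u huT, Bool.xor_false]
          exact h2.symm
        · obtain ⟨T', h1, h2, h3, h4⟩ := hφ.seg u huT v hvT huv
          refine ⟨T', h1.trans (Finset.subset_insert _ _), ?_, fun h5 => absurd (h1 h5) ha, h4⟩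
          simp only [hval u huT, hval v hvT]
          have : (!(φ u) ^^ !(φ v)) = (φ u ^^ φ v) := by cases φ u <;> cases φ v <;> rfl
          rw [this]
          exact h2

/-- the extremal choice: `K` largest, then `C` smallest -/
structure Best (G : SimpleGraph V) (D C K : Finset V) : Prop where
  cyc : OddCyc G C
  CD : C ⊆ D
  KD : K ⊆ D
  dis : Disjoint K C
  conn : Conn G K
  big : ∀ C' K' : Finset V, OddCyc G C' → C' ⊆ D → K' ⊆ D → Disjoint K' C' → Conn G K' → K'.card ≤ K.card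
  small : ∀ C' K' : Finset V, OddCyc G C' → C' ⊆ D → K' ⊆ D → Disjoint K' C' → Conn G K' →
    K'.card = K.card → C.card ≤ C'.card

theorem exists_best (hC : OddCyc G C) (hCD : C ⊆ D) (hx : x ∈ D) (hxC : x ∉ C) :
    ∃ C K, Best G D C K := by
  classical
  set F := (Finset.univ : Finset (Finset V)).filter (fun K' => K' ⊆ D ∧ Conn G K' ∧
    ∃ C', OddCyc G C' ∧ C' ⊆ D ∧ Disjoint K' C') with hF
  have hne : F.Nonempty := ⟨{x}, Finset.mem_filter.2 ⟨Finset.mem_univ _, by simpa using hx,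
    Conn.singleton G x, C, hC, hCD, by simpa using hxC⟩⟩
  obtain ⟨K0, hK0, hmax⟩ := Finset.exists_max_image F Finset.card hne
  set F' := (Finset.univ : Finset (Finset V)).filter (fun C' => OddCyc G C' ∧ C' ⊆ D ∧
    ∃ K', K' ⊆ D ∧ Conn G K' ∧ Disjoint K' C' ∧ K'.card = K0.card) with hF'
  obtain ⟨-, h1, h2, C1, h3, h4, h5⟩ := Finset.mem_filter.1 hK0
  have hne' : F'.Nonempty := ⟨C1, Finset.mem_filter.2 ⟨Finset.mem_univ _, h3, h4, K0, h1, h2, h5, rfl⟩⟩
  obtain ⟨C0, hC0, hmin⟩ := Finset.exists_min_image F' Finset.card hne'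
  obtain ⟨-, g1, g2, K1, g3, g4, g5, g6⟩ := Finset.mem_filter.1 hC0
  refine ⟨C0, K1, g1, g2, g3, g5, g4, ?_, ?_⟩
  · intro C' K' a1 a2 a3 a4 a5
    rw [g6]
    exact hmax K' (Finset.mem_filter.2 ⟨Finset.mem_univ _, a3, a5, C', a1, a2, a4⟩)
  · intro C' K' a1 a2 a3 a4 a5 a6
    exact hmin C' (Finset.mem_filter.2 ⟨Finset.mem_univ _, a1, a2, K', a3, a5, a4, a6.trans g6⟩)

/-- `K` cannot be enlarged -/
theorem Best.grow (h : Best G D C K) {C' Y : Finset V} (hC' : OddCyc G C') (hC'D : C' ⊆ D)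
    (hKC : Disjoint K C') (hYD : Y ⊆ D) (hY : Conn G Y) (hYC : Disjoint Y C')
    (hadj : ∃ x ∈ K, ∃ y ∈ Y, G.Adj x y) (hnew : ∃ y ∈ Y, y ∉ K) : False := by
  obtain ⟨y, hy, hyK⟩ := hnew
  have h1 := h.big C' (K ∪ Y) hC' hC'D (Finset.union_subset h.KD hYD)
    (Finset.disjoint_union_left.2 ⟨hKC, hYC⟩) (h.conn.union_adj hY hadj)
  have h2 : K ⊂ K ∪ Y := Finset.ssubset_iff_subset_ne.2 ⟨Finset.subset_union_left, fun h3 =>
    hyK (h3 ▸ Finset.mem_union_right _ hy)⟩
  have := Finset.card_lt_card h2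
  omega

theorem Best.grow1 (h : Best G D C K) {C' : Finset V} (hC' : OddCyc G C') (hC'D : C' ⊆ D)
    (hKC : Disjoint K C') (hy : y ∈ D) (hyK : y ∉ K) (hyC : y ∉ C') (hadj : ∃ x ∈ K, G.Adj x y) : False := by
  obtain ⟨x, hx, e⟩ := hadj
  exact h.grow hC' hC'D hKC (Y := {y}) (by simpa using hy) (Conn.singleton G y) (by simpa using hyC)
    ⟨x, hx, y, Finset.mem_singleton_self y, e⟩ ⟨y, Finset.mem_singleton_self y, hyK⟩

/-- `C` cannot be shortened -/
theorem Best.short (h : Best G D C K) {C' : Finset V} (hC' : OddCyc G C') (hC'C : C' ⊂ C) : False := by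
  have h1 := h.small C' K hC' (hC'C.subset.trans h.CD) h.KD
    (Finset.disjoint_of_subset_right hC'C.subset h.dis) h.conn rfl
  have := Finset.card_lt_card hC'C
  omega

theorem Best.comp (h : Best G D C K) : Cmp G (D \ C) K := by
  refine ⟨h.conn, ?_, ?_⟩
  · intro x hx
    exact Finset.mem_sdiff.2 ⟨h.KD hx, Finset.disjoint_left.1 h.dis hx⟩
  · intro x hx y hy e
    by_contra hyK
    obtain ⟨h1, h2⟩ := Finset.mem_sdiff.1 hy
    exact h.grow1 h.cyc h.CD h.dis h1 hyK h2 ⟨x, hx, e⟩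

/-- two complementary arcs -/
structure Arc (G : SimpleGraph V) (C : Finset V) (a b : V) (A P : Finset V) (l : Bool) : Prop where
  pA : PX G A a b l
  pP : PX G P a b (!l)
  u : A ∪ P = C
  i : A ∩ P = {a, b}

theorem Arc.AC (h : Arc G C a b A P l) : A ⊆ C := h.u ▸ Finset.subset_union_left
theorem Arc.PC (h : Arc G C a b A P l) : P ⊆ C := h.u ▸ Finset.subset_union_right
theorem Arc.swap (h : Arc G C a b A P l) : Arc G C a b P A (!l) :=
  ⟨h.pP, by rw [Bool.not_not]; exact h.pA, by rw [Finset.union_comm]; exact h.u,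
    by rw [Finset.inter_comm]; exact h.i⟩
theorem Arc.symm (h : Arc G C a b A P l) : Arc G C b a A P l :=
  ⟨h.pA.symm, h.pP.symm, h.u, by rw [Finset.pair_comm]; exact h.i⟩

theorem Arc.mem (h : Arc G C a b A P l) (h1 : z ∈ A) (h2 : z ∈ P) : z = a ∨ z = b := by
  have h3 : z ∈ A ∩ P := Finset.mem_inter.2 ⟨h1, h2⟩
  rw [h.i] at h3
  simpa using h3

/-- cutting an arc -/
theorem Arc.cut (h : Arc G C a b A P l) (hz : z ∈ A) (hza : z ≠ a) (hzb : z ≠ b) :
    ∃ A₁ A₂ l₁ l₂, Arc G C a z A₁ (A₂ ∪ P) l₁ ∧ Arc G C z b A₂ (A₁ ∪ P) l₂ ∧ A₁ ∪ A₂ = A ∧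
      A₁ ∩ A₂ = {z} ∧ (l₁ ^^ l₂) = l := by
  obtain ⟨A₁, A₂, l₁, l₂, h1, h2, h3, h4, h5⟩ := h.pA.cut hz
  have s1 : A₁ ⊆ A := h3 ▸ Finset.subset_union_left
  have s2 : A₂ ⊆ A := h3 ▸ Finset.subset_union_right
  have hm : ∀ w, w ∈ A₁ → w ∈ A₂ → w = z := by
    intro w hw hw'
    have h6 : w ∈ A₁ ∩ A₂ := Finset.mem_inter.2 ⟨hw, hw'⟩
    rw [h4, Finset.mem_singleton] at h6
    exact h6
  have ha1 : a ∈ A₁ := h1.left_mem
  have hz1 : z ∈ A₁ := h1.right_mem
  have hz2 : z ∈ A₂ := h2.left_mem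
  have hb2 : b ∈ A₂ := h2.right_mem
  have ha2 : a ∉ A₂ := fun h6 => hza (hm a ha1 h6).symm
  have hb1 : b ∉ A₁ := fun h6 => hzb (hm b h6 hb2).symm
  have hPa := h.pP.left_mem
  have hPb := h.pP.right_mem
  have hzP : z ∉ P := fun h6 => (h.mem hz h6).elim hza hzb
  refine ⟨A₁, A₂, l₁, l₂, ⟨h1, ?_, ?_, ?_⟩, ⟨h2, ?_, ?_, ?_⟩, h3, h4, h5⟩
  · have h6 := h2.concat h.pP.symm (fun w hw hw' => by
      rcases h.mem (s2 hw) hw' with h7 | h7
      · exact absurd (h7 ▸ hw) ha2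
      · exact h7)
    have h7 : (l₂ ^^ !l) = !l₁ := by rw [← h5]; cases l₁ <;> cases l₂ <;> rfl
    rw [h7] at h6
    exact h6.symm
  · rw [← Finset.union_assoc, h3]
    exact h.u
  · ext w
    simp only [Finset.mem_inter, Finset.mem_union, Finset.mem_insert, Finset.mem_singleton]
    constructor
    · rintro ⟨h6, h7 | h7⟩
      · exact Or.inr (hm w h6 h7)
      · rcases h.mem (s1 h6) h7 with h8 | h8
        · exact Or.inl h8
        · exact absurd (h8 ▸ h6) hb1
    · rintro (rfl | rfl)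
      · exact ⟨ha1, Or.inr hPa⟩
      · exact ⟨hz1, Or.inl hz2⟩
  · have h6 := h1.symm.concat h.pP (fun w hw hw' => by
      rcases h.mem (s1 hw) hw' with h7 | h7
      · exact h7
      · exact absurd (h7 ▸ hw) hb1)
    have h7 : (l₁ ^^ !l) = !l₂ := by rw [← h5]; cases l₁ <;> cases l₂ <;> rfl
    rw [h7] at h6
    exact h6
  · rw [← Finset.union_assoc, Finset.union_comm A₂ A₁, h3]
    exact h.u
  · ext w
    simp only [Finset.mem_inter, Finset.mem_union, Finset.mem_insert, Finset.mem_singleton]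
    constructor
    · rintro ⟨h6, h7 | h7⟩
      · exact Or.inl (hm w h7 h6)
      · rcases h.mem (s2 h6) h7 with h8 | h8
        · exact absurd (h8 ▸ h6) ha2
        · exact Or.inr h8
    · rintro (rfl | rfl)
      · exact ⟨hz2, Or.inl hz1⟩
      · exact ⟨hb2, Or.inr hPb⟩

end Pool.Agent.TOKSN.Four
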