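import Mathlib
import Pool.Agent.TOKSN.FourE

/-!
# LINE N, (4): minimal members, part F: the inconsistent arc of the largest component
-/

set_option autoImplicit false
set_option linter.unusedSectionVars false

namespace Pool.Agent.TOKSN.Four

open Pool.Agent.TOKST (HasTOKS)
open Pool.Agent.TOKSP (nbh mem_nbh)

variable {V : Type} [Fintype V] [DecidableEq V] {G : SimpleGraph V} {C D K K' S T T' U X A P : Finset V}
  {a b c d x y z u v : V} {k l m : Bool} {g f : V → Bool}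

/-- the inconsistent arc `A` of `K`, its complement `P` with the colouring `f` -/
structure Sel (G : SimpleGraph V) (D C K : Finset V) (g : V → Bool) (a b : V) (A P : Finset V) (l : Bool)
    (f : V → Bool) : Prop where
  best : Best G D C K
  col : ∀ x ∈ K, ∀ y ∈ K ∪ C, G.Adj x y → g x ≠ g y
  ab : a ≠ b
  arc : Arc G C a b A P l
  ka : ∃ x ∈ K, G.Adj x a
  kb : ∃ x ∈ K, G.Adj x b
  inc : l ≠ (g a ^^ g b)
  noA : ∀ z ∈ A, (∃ x ∈ K, G.Adj x z) → z = a ∨ z = b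
  /-- a segment of `P` between two vertices, with the parity given by `f` -/
  seg : ∀ u ∈ P, ∀ v ∈ P, u ≠ v → ∃ T, T ⊆ P ∧ PX G T u v (f u ^^ f v) ∧ (a ∈ T → a = u ∨ a = v) ∧
    (b ∈ T → b = u ∨ b = v)
  cut : ∀ z ∈ P, ∃ P₁ P₂, PX G P₁ a z (f a ^^ f z) ∧ PX G P₂ z b (f z ^^ f b) ∧ P₁ ∪ P₂ = P ∧ P₁ ∩ P₂ = {z}
  fg : ∀ z ∈ P, (∃ x ∈ K, G.Adj x z) → f z = g z
  third : ∃ z ∈ P, z ≠ a ∧ z ≠ b ∧ ∃ x ∈ K, G.Adj x z

theorem Ctx.exists_sel (hx : Ctx G D) (hN3 : N3 G) (hT : ¬ HasTOKS G) (hB : Best G D C K) :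
    ∃ g a b A P l f, Sel G D C K g a b A P l f := by
  classical
  obtain ⟨g, hg⟩ := hx.colour hB.cyc hB.CD hB.comp
  have h3 := hx.three hB.cyc hB.CD hB.comp
  -- the set of inconsistent arcs is nonempty
  have hex : ∃ n : ℕ, ∃ a b A P l, A.card = n ∧ a ≠ b ∧ Arc G C a b A P l ∧ (∃ x ∈ K, G.Adj x a) ∧
      (∃ x ∈ K, G.Adj x b) ∧ l ≠ (g a ^^ g b) := by
    obtain ⟨a, ha, b, hb, hab⟩ := Finset.one_lt_card.1 (show 1 < (nbh G K ∩ C).card by omega)
    obtain ⟨ha1, haC⟩ := Finset.mem_inter.1 ha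
    obtain ⟨hb1, hbC⟩ := Finset.mem_inter.1 hb
    obtain ⟨T₁, T₂, k, h4, h5, h6, h7⟩ := hB.cyc.arcs haC hbC hab
    have hA : Arc G C a b T₁ T₂ k := ⟨h4, h5, h6, h7⟩
    by_cases hk : k ≠ (g a ^^ g b)
    · exact ⟨_, a, b, T₁, T₂, k, rfl, hab, hA, (mem_nbh.1 ha1).2, (mem_nbh.1 hb1).2, hk⟩
    · refine ⟨_, a, b, T₂, T₁, !k, rfl, hab, hA.swap, (mem_nbh.1 ha1).2, (mem_nbh.1 hb1).2, ?_⟩
      push Not at hk
      rw [← hk]
      cases k <;> decide
  obtain ⟨a, b, A, P, l, hn, hab, hA, ka, kb, hl⟩ := Nat.find_spec hex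
  have hmin : ∀ a' b' A' P' l', a' ≠ b' → Arc G C a' b' A' P' l' → (∃ x ∈ K, G.Adj x a') →
      (∃ x ∈ K, G.Adj x b') → l' ≠ (g a' ^^ g b') → A.card ≤ A'.card := by
    intro a' b' A' P' l' h4 h5 h6 h7 h8
    rw [hn]
    exact Nat.find_min' hex ⟨a', b', A', P', l', rfl, h4, h5, h6, h7, h8⟩
  have noA : ∀ z ∈ A, (∃ x ∈ K, G.Adj x z) → z = a ∨ z = b := by
    intro z hz hzK
    by_contra hne
    rw [not_or] at hne
    obtain ⟨A₁, A₂, l₁, l₂, c1, c2, hu, hi, hlx⟩ := hA.cut hz hne.1 hne.2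
    have ha2 : a ∉ A₂ := by
      intro h4
      have h5 : a ∈ A₁ ∩ A₂ := Finset.mem_inter.2 ⟨c1.pA.left_mem, h4⟩
      rw [hi, Finset.mem_singleton] at h5
      exact hne.1 h5.symm
    have hb1 : b ∉ A₁ := by
      intro h4
      have h5 : b ∈ A₁ ∩ A₂ := Finset.mem_inter.2 ⟨h4, c2.pA.right_mem⟩
      rw [hi, Finset.mem_singleton] at h5
      exact hne.2 h5.symm
    have lt1 : A₁.card < A.card := Finset.card_lt_card (Finset.ssubset_iff_subset_ne.2
      ⟨hu ▸ Finset.subset_union_left, fun h4 => hb1 (h4 ▸ hA.pA.right_mem)⟩)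
    have lt2 : A₂.card < A.card := Finset.card_lt_card (Finset.ssubset_iff_subset_ne.2
      ⟨hu ▸ Finset.subset_union_right, fun h4 => ha2 (h4 ▸ hA.pA.left_mem)⟩)
    by_cases h6 : l₁ ≠ (g a ^^ g z)
    · have := hmin a z A₁ _ l₁ (Ne.symm hne.1) c1 ka hzK h6
      omega
    · by_cases h7 : l₂ ≠ (g z ^^ g b)
      · have := hmin z b A₂ _ l₂ hne.2 c2 hzK kb h7
        omega
      · push Not at h6 h7
        apply hl
        rw [← hlx, h6, h7]
        cases g a <;> cases g z <;> cases g b <;> rfl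
  have hKC : ∀ z ∈ C, z ∉ K := fun z hz hzK => Finset.disjoint_left.1 hB.dis hzK hz
  have hgab : (g a ^^ g b) = !l := by
    revert hl
    cases l <;> cases g a <;> cases g b <;> simp
  obtain ⟨φ, hφ⟩ := exists_coord hA.pP
  -- contacts on `P` are consistent
  have cons : ∀ z ∈ P, (∃ x ∈ K, G.Adj x z) → φ z = (g a ^^ g z) := by
    intro z hz hzK
    by_cases hza : z = a
    · rw [hza, hφ.fa, Bool.xor_self]
    by_cases hzb : z = b
    · rw [hzb, hφ.fb, hgab]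
    obtain ⟨P₁, P₂, p1, p2, hu, hi⟩ := hφ.cut z hz
    by_contra hne
    have hm : ∀ w, w ∈ P₁ → w ∈ P₂ → w = z := by
      intro w hw hw'
      have h6 : w ∈ P₁ ∩ P₂ := Finset.mem_inter.2 ⟨hw, hw'⟩
      rw [hi, Finset.mem_singleton] at h6
      exact h6
    have s1 : P₁ ⊆ P := hu ▸ Finset.subset_union_left
    have s2 : P₂ ⊆ P := hu ▸ Finset.subset_union_right
    have ha2 : a ∉ P₂ := fun h4 => hza (hm a p1.left_mem h4).symm
    have hb1 : b ∉ P₁ := fun h4 => hzb (hm b h4 p2.right_mem).symm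
    have h3' : Three G C D K g a b z A P₁ P₂ l (φ z) (φ z ^^ !l) := by
      refine ⟨hab, Ne.symm hza, Ne.symm hzb, ka, kb, hzK, hA.pA, p1, p2.symm, ?_, ?_, hi, ?_, hl, hne, ?_⟩
      · ext w
        rw [Finset.mem_inter, Finset.mem_singleton]
        constructor
        · rintro ⟨h4, h5⟩
          exact (hA.mem h4 (s1 h5)).resolve_right (fun h6 => hb1 (h6 ▸ h5))
        · rintro rfl
          exact ⟨hA.pA.left_mem, p1.left_mem⟩
      · ext w
        rw [Finset.mem_inter, Finset.mem_singleton]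
        constructor
        · rintro ⟨h4, h5⟩
          exact (hA.mem h4 (s2 h5)).resolve_left (fun h6 => ha2 (h6 ▸ h5))
        · rintro rfl
          exact ⟨hA.pA.right_mem, p2.right_mem⟩
      · rw [Finset.union_assoc, hu]
        exact hA.u
      · rw [← hgab]
        revert hne
        cases φ z <;> cases g a <;> cases g b <;> cases g z <;> simp
    exact h3'.false hx hN3 hT hB.cyc hB.CD hB.comp hg
  refine ⟨g, a, b, A, P, l, fun z => g a ^^ φ z, hB, hg, hab, hA, ka, kb, hl, noA, ?_, ?_, ?_, ?_⟩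
  · intro u hu v hv huv
    obtain ⟨T, h4, h5, h6, h7⟩ := hφ.seg u hu v hv huv
    refine ⟨T, h4, ?_, h6, h7⟩
    have : ((g a ^^ φ u) ^^ (g a ^^ φ v)) = (φ u ^^ φ v) := by
      cases g a <;> cases φ u <;> cases φ v <;> rfl
    show PX G T u v ((g a ^^ φ u) ^^ (g a ^^ φ v))
    rw [this]
    exact h5
  · intro z hz
    obtain ⟨P₁, P₂, p1, p2, hu, hi⟩ := hφ.cut z hz
    refine ⟨P₁, P₂, ?_, ?_, hu, hi⟩
    · show PX G P₁ a z ((g a ^^ φ a) ^^ (g a ^^ φ z))
      have : ((g a ^^ φ a) ^^ (g a ^^ φ z)) = φ z := by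
        rw [hφ.fa]
        cases g a <;> cases φ z <;> rfl
      rw [this]
      exact p1
    · show PX G P₂ z b ((g a ^^ φ z) ^^ (g a ^^ φ b))
      have : ((g a ^^ φ z) ^^ (g a ^^ φ b)) = (φ z ^^ !l) := by
        rw [hφ.fb]
        cases g a <;> cases φ z <;> cases l <;> rfl
      rw [this]
      exact p2
  · intro z hz hzK
    show (g a ^^ φ z) = g z
    rw [cons z hz hzK]
    cases g a <;> cases g z <;> rfl
  · obtain ⟨z, hz, hzab⟩ : ∃ z ∈ nbh G K ∩ C, z ∉ ({a, b} : Finset V) := by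
      by_contra hcon
      push Not at hcon
      have h4 := Finset.card_le_card (show nbh G K ∩ C ⊆ {a, b} from hcon)
      have h5 : ({a, b} : Finset V).card ≤ 2 := Finset.card_le_two
      omega
    obtain ⟨hz1, hzC⟩ := Finset.mem_inter.1 hz
    have hzK := (mem_nbh.1 hz1).2
    simp only [Finset.mem_insert, Finset.mem_singleton, not_or] at hzab
    refine ⟨z, ?_, hzab.1, hzab.2, hzK⟩
    have hu := hA.u
    rw [← hu] at hzC
    rcases Finset.mem_union.1 hzC with h4 | h4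
    · exact absurd (noA z h4 hzK) (by simp [hzab])
    · exact h4

variable {l : Bool}

/-- the two arcs of `C` between a vertex of `P` and a vertex of `A` -/
theorem Sel.cross (h : Sel G D C K g a b A P l f) (hu : u ∈ P) (hua : u ≠ a) (hub : u ≠ b) (hv : v ∈ A)
    (hva : v ≠ a) (hvb : v ≠ b) : ∃ T₁ T₂ t, Arc G C u v T₁ T₂ t ∧ b ∉ T₁ ∧ a ∉ T₂ ∧ a ∈ T₁ ∧ b ∈ T₂ := by
  have hA := h.arc
  obtain ⟨A₁, A₂, l₁, l₂, c1, c2, hAu, hAi, hlx⟩ := hA.cut hv hva hvb
  obtain ⟨P₁, P₂, m₁, m₂, d1, d2, hPu, hPi, hmx⟩ := hA.swap.cut hu hua hub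
  have s1 : A₁ ⊆ A := hAu ▸ Finset.subset_union_left
  have s2 : A₂ ⊆ A := hAu ▸ Finset.subset_union_right
  have r1 : P₁ ⊆ P := hPu ▸ Finset.subset_union_left
  have r2 : P₂ ⊆ P := hPu ▸ Finset.subset_union_right
  have mA : ∀ w, w ∈ A₁ → w ∈ A₂ → w = v := by
    intro w hw hw'
    have h6 : w ∈ A₁ ∩ A₂ := Finset.mem_inter.2 ⟨hw, hw'⟩
    rw [hAi, Finset.mem_singleton] at h6
    exact h6
  have mP : ∀ w, w ∈ P₁ → w ∈ P₂ → w = u := by
    intro w hw hw'
    have h6 : w ∈ P₁ ∩ P₂ := Finset.mem_inter.2 ⟨hw, hw'⟩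
    rw [hPi, Finset.mem_singleton] at h6
    exact h6
  have aA1 := c1.pA.left_mem
  have vA1 := c1.pA.right_mem
  have vA2 := c2.pA.left_mem
  have bA2 := c2.pA.right_mem
  have aP1 := d1.pA.left_mem
  have uP1 := d1.pA.right_mem
  have uP2 := d2.pA.left_mem
  have bP2 := d2.pA.right_mem
  have aA2 : a ∉ A₂ := fun h4 => hva (mA a aA1 h4).symm
  have bA1 : b ∉ A₁ := fun h4 => hvb (mA b h4 bA2).symm
  have aP2 : a ∉ P₂ := fun h4 => hua (mP a aP1 h4).symm
  have bP1 : b ∉ P₁ := fun h4 => hub (mP b h4 bP2).symm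
  have q1 : PX G (P₁ ∪ A₁) u v (m₁ ^^ l₁) := d1.pA.symm.concat c1.pA (fun w hw hw' => by
    rcases hA.mem (s1 hw') (r1 hw) with h7 | h7
    · exact h7
    · exact absurd (h7 ▸ hw') bA1)
  have q2 : PX G (P₂ ∪ A₂) u v (m₂ ^^ l₂) := d2.pA.concat c2.pA.symm (fun w hw hw' => by
    rcases hA.mem (s2 hw') (r2 hw) with h7 | h7
    · exact absurd (h7 ▸ hw') aA2
    · exact h7)
  have hpar : (m₂ ^^ l₂) = !(m₁ ^^ l₁) := by
    revert hmx hlx
    cases m₁ <;> cases m₂ <;> cases l₁ <;> cases l₂ <;> cases l <;> simp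
  rw [hpar] at q2
  refine ⟨P₁ ∪ A₁, P₂ ∪ A₂, _, ⟨q1, q2, ?_, ?_⟩, ?_, ?_, ?_, ?_⟩
  · rw [← hA.u, ← hAu, ← hPu]
    ext w
    simp only [Finset.mem_union]
    tauto
  · ext w
    simp only [Finset.mem_inter, Finset.mem_union, Finset.mem_insert, Finset.mem_singleton]
    constructor
    · rintro ⟨h4 | h4, h5 | h5⟩
      · exact Or.inl (mP w h4 h5)
      · rcases hA.mem (s2 h5) (r1 h4) with h7 | h7
        · exact absurd (h7 ▸ h5) aA2
        · exact absurd (h7 ▸ h4) bP1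
      · rcases hA.mem (s1 h4) (r2 h5) with h7 | h7
        · exact absurd (h7 ▸ h5) aP2
        · exact absurd (h7 ▸ h4) bA1
      · exact Or.inr (mA w h4 h5)
    · rintro (rfl | rfl)
      · exact ⟨Or.inl uP1, Or.inl uP2⟩
      · exact ⟨Or.inr vA1, Or.inr vA2⟩
  · rw [Finset.mem_union, not_or]; exact ⟨bP1, bA1⟩
  · rw [Finset.mem_union, not_or]; exact ⟨aP2, aA2⟩
  · exact Finset.mem_union_left _ aP1
  · exact Finset.mem_union_left _ bP2

/-- (2): adjacent vertices of `P` have different colours -/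
theorem Sel.fP (h : Sel G D C K g a b A P l f) (hu : u ∈ P) (hv : v ∈ P) (e : G.Adj u v)
    (hua : u ≠ a) (hub : u ≠ b) : f u ≠ f v := by
  intro hf
  obtain ⟨T, h1, h2, h3, h4⟩ := h.seg u hu v hv e.ne
  rw [hf, Bool.xor_self] at h2
  have hO : OddCyc G T := OddCyc.of_edge h2 e
  refine h.best.short hO (Finset.ssubset_iff_subset_ne.2 ⟨h1.trans h.arc.PC, fun h5 => ?_⟩)
  have ha : a ∈ T := h5 ▸ h.arc.PC h.arc.pP.left_mem
  have hb : b ∈ T := h5 ▸ h.arc.PC h.arc.pP.right_mem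
  have h6 := (h3 ha).resolve_left (Ne.symm hua)
  have h7 := (h4 hb).resolve_left (Ne.symm hub)
  exact h.ab (h6.trans h7.symm)

/-- (6): no edge between the interiors of `P` and `A` -/
theorem Sel.noPA (h : Sel G D C K g a b A P l f) (hu : u ∈ P) (hua : u ≠ a) (hub : u ≠ b) (hv : v ∈ A)
    (hva : v ≠ a) (hvb : v ≠ b) (e : G.Adj u v) : False := by
  obtain ⟨T₁, T₂, t, hT, b1, a2, -, -⟩ := h.cross hu hua hub hv hva hvb
  cases t
  · refine h.best.short (OddCyc.of_edge hT.pA e) (Finset.ssubset_iff_subset_ne.2 ⟨hT.AC, fun h5 => b1 ?_⟩)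
    rw [h5]
    exact h.arc.PC h.arc.pP.right_mem
  · refine h.best.short (OddCyc.of_edge hT.pP e) (Finset.ssubset_iff_subset_ne.2 ⟨hT.PC, fun h5 => a2 ?_⟩)
    rw [h5]
    exact h.arc.PC h.arc.pP.left_mem

/-- an odd cycle from an arc and a path through another component; it must contain `a` and `b` -/
theorem Sel.both (h : Sel G D C K g a b A P l f) (hK' : Cmp G (D \ C) K') (hKK : Disjoint K K')
    {R : Finset V} (hTC : T ⊆ C) (huv : u ≠ v) (hT : PX G T u v k) (hR : PX G R u v (!k))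
    (hRK : R ⊆ insert u (insert v K')) : a ∈ T ∧ b ∈ T := by
  have hCK' : ∀ z ∈ C, z ∉ K' := fun z hz hz' => (Finset.mem_sdiff.1 (hK'.sub hz')).2 hz
  have hTR : T ∩ R = {u, v} := by
    ext w
    simp only [Finset.mem_inter, Finset.mem_insert, Finset.mem_singleton]
    constructor
    · rintro ⟨h1, h2⟩
      have h3 := hRK h2
      simp only [Finset.mem_insert] at h3
      rcases h3 with h3 | h3 | h3
      · exact Or.inl h3
      · exact Or.inr h3
      · exact absurd h3 (hCK' w (hTC h1))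
    · rintro (rfl | rfl)
      · exact ⟨hT.left_mem, hR.left_mem⟩
      · exact ⟨hT.right_mem, hR.right_mem⟩
  have hO : OddCyc G (T ∪ R) := OddCyc.of_arcs hT hR hTR huv
  have hsub : T ∪ R ⊆ T ∪ K' := by
    intro w hw
    rcases Finset.mem_union.1 hw with h1 | h1
    · exact Finset.mem_union_left _ h1
    · have h3 := hRK h1
      simp only [Finset.mem_insert] at h3
      rcases h3 with h3 | h3 | h3
      · exact Finset.mem_union_left _ (h3 ▸ hT.left_mem)
      · exact Finset.mem_union_left _ (h3 ▸ hT.right_mem)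
      · exact Finset.mem_union_right _ h3
  have hOD : T ∪ R ⊆ D := hsub.trans (Finset.union_subset (hTC.trans h.best.CD)
    (hK'.sub.trans Finset.sdiff_subset))
  have hdis : Disjoint K (T ∪ R) := by
    rw [Finset.disjoint_left]
    intro w hw hw'
    rcases Finset.mem_union.1 (hsub hw') with h1 | h1
    · exact Finset.disjoint_left.1 h.best.dis hw (hTC h1)
    · exact Finset.disjoint_left.1 hKK hw h1
  have key : ∀ z ∈ C, (∃ x ∈ K, G.Adj x z) → z ∈ T := by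
    intro z hz hzK
    by_contra hzT
    refine h.best.grow1 hO hOD hdis (h.best.CD hz) (fun h1 => Finset.disjoint_left.1 h.best.dis h1 hz) ?_ hzK
    intro h1
    rcases Finset.mem_union.1 (hsub h1) with h1 | h1
    · exact hzT h1
    · exact hCK' z hz h1
  exact ⟨key a (h.arc.PC h.arc.pP.left_mem) h.ka, key b (h.arc.PC h.arc.pP.right_mem) h.kb⟩

/-- (3): a component attached to the interior of `P` is not attached to the interior of `A` -/
theorem Sel.other_P (h : Sel G D C K g a b A P l f) (hK' : Cmp G (D \ C) K') (hKK : Disjoint K K')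
    {h' : V → Bool} (hh : ∀ x ∈ K', ∀ y ∈ K' ∪ C, G.Adj x y → h' x ≠ h' y)
    (hu : u ∈ P) (hua : u ≠ a) (hub : u ≠ b) (huK : ∃ x ∈ K', G.Adj x u) (hv : v ∈ C)
    (hvK : ∃ x ∈ K', G.Adj x v) : v ∈ P := by
  by_contra hvP
  have hdis' : Disjoint K' C := Finset.disjoint_left.2 fun x hx hx' => (Finset.mem_sdiff.1 (hK'.sub hx)).2 hx'
  have hvA : v ∈ A := by
    have h1 := h.arc.u
    rw [← h1] at hv
    exact (Finset.mem_union.1 hv).resolve_right hvP
  have hva : v ≠ a := fun h1 => hvP (h1 ▸ h.arc.pP.left_mem)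
  have hvb : v ≠ b := fun h1 => hvP (h1 ▸ h.arc.pP.right_mem)
  obtain ⟨T₁, T₂, t, hT, b1, a2, -, -⟩ := h.cross hu hua hub hvA hva hvb
  have huv : u ≠ v := fun h1 => hvP (h1 ▸ hu)
  obtain ⟨R, hR, hRs⟩ := path_through hK'.conn hh hdis' (h.arc.PC hu) hv huv huK hvK
  by_cases ht : (h' u ^^ h' v) = !t
  · rw [ht] at hR
    exact b1 (h.both hK' hKK hT.AC huv hT.pA hR hRs).2
  · have ht' : (h' u ^^ h' v) = !(!t) := by
      revert ht
      cases t <;> cases (h' u ^^ h' v) <;> simp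
    rw [ht'] at hR
    exact a2 (h.both hK' hKK hT.PC huv hT.pP hR hRs).1

/-- (4): consistency of another component on `P` -/
theorem Sel.other_col (h : Sel G D C K g a b A P l f) (hK' : Cmp G (D \ C) K') (hKK : Disjoint K K')
    {h' : V → Bool} (hh : ∀ x ∈ K', ∀ y ∈ K' ∪ C, G.Adj x y → h' x ≠ h' y)
    (hu : u ∈ P) (hua : u ≠ a) (hub : u ≠ b) (huK : ∃ x ∈ K', G.Adj x u) (hv : v ∈ P)
    (hvK : ∃ x ∈ K', G.Adj x v) : (h' u ^^ h' v) = (f u ^^ f v) := by
  by_cases huv : u = v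
  · rw [huv, Bool.xor_self, Bool.xor_self]
  have hdis' : Disjoint K' C := Finset.disjoint_left.2 fun x hx hx' => (Finset.mem_sdiff.1 (hK'.sub hx)).2 hx'
  by_contra hne
  obtain ⟨T, h1, h2, h3, h4⟩ := h.seg u hu v hv huv
  obtain ⟨R, hR, hRs⟩ := path_through hK'.conn hh hdis' (h.arc.PC hu) (h.arc.PC hv) huv huK hvK
  have h5 : (h' u ^^ h' v) = !(f u ^^ f v) := by
    revert hne
    cases (h' u ^^ h' v) <;> cases (f u ^^ f v) <;> simp
  rw [h5] at hR
  obtain ⟨ha, hb⟩ := h.both hK' hKK (h1.trans h.arc.PC) huv h2 hR hRs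
  have h6 := (h3 ha).resolve_left (Ne.symm hua)
  have h7 := (h4 hb).resolve_left (Ne.symm hub)
  exact h.ab (h6.trans h7.symm)

/-- the fitting colouring of another component -/
theorem Sel.other (hx : Ctx G D) (h : Sel G D C K g a b A P l f) (hK' : Cmp G (D \ C) K')
    (hKK : Disjoint K K') (hu : u ∈ P) (hua : u ≠ a) (hub : u ≠ b) (huK : ∃ x ∈ K', G.Adj x u) :
    ∃ h' : V → Bool, (∀ x ∈ K', ∀ y ∈ K' ∪ C, G.Adj x y → h' x ≠ h' y) ∧
      ∀ v ∈ C, (∃ x ∈ K', G.Adj x v) → v ∈ P ∧ h' v = f v := by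
  obtain ⟨h0, hh0⟩ := hx.colour h.best.cyc h.best.CD hK'
  refine ⟨fun z => h0 z ^^ (h0 u ^^ f u), ?_, ?_⟩
  · intro x hx y hy e
    have := hh0 x hx y hy e
    show (h0 x ^^ (h0 u ^^ f u)) ≠ (h0 y ^^ (h0 u ^^ f u))
    revert this
    cases h0 x <;> cases h0 y <;> cases (h0 u ^^ f u) <;> simp
  · intro v hv hvK
    have hvP := h.other_P hK' hKK hh0 hu hua hub huK hv hvK
    refine ⟨hvP, ?_⟩
    have := h.other_col hK' hKK hh0 hu hua hub huK hvP hvK
    show (h0 v ^^ (h0 u ^^ f u)) = f v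
    revert this
    cases h0 v <;> cases h0 u <;> cases f u <;> cases f v <;> simp

end Pool.Agent.TOKSN.Four
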