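import Mathlib
import Pool.Agent.TOKSN.FourF
import Pool.Agent.TOKSN.Cell
import Pool.Agent.TOKSN.HubPar

/-!
# LINE N, (4): a minimal member is an induced odd cycle
-/

set_option autoImplicit false
set_option linter.unusedSectionVars false

namespace Pool.Agent.TOKSN.Four

open Pool.Agent.TOKST (HasTOKS)
open Pool.Agent.TOKSP (nbh mem_nbh)

variable {V : Type} [Fintype V] [DecidableEq V] {G : SimpleGraph V} {C D K K' S T T' U X A P : Finset V}
  {a b c d p x y z u v s s' : V} {k l m : Bool} {g f : V → Bool}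

/-- the part hanging at the interior of `P` -/
noncomputable def ZZ (G : SimpleGraph V) (D A K : Finset V) (p : V) : Finset V := cmp G (D \ (A ∪ K)) p

theorem ZZ_sub : ZZ G D A K p ⊆ D := cmp_sub.trans Finset.sdiff_subset

theorem ZZ_notA (hz : z ∈ ZZ G D A K p) : z ∉ A := fun h =>
  (Finset.mem_sdiff.1 (cmp_sub hz)).2 (Finset.mem_union_left _ h)

theorem ZZ_notK (hz : z ∈ ZZ G D A K p) : z ∉ K := fun h =>
  (Finset.mem_sdiff.1 (cmp_sub hz)).2 (Finset.mem_union_right _ h)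

theorem Sel.in_dom (h : Sel G D C K g a b A P l f) (hz : z ∈ P) (hza : z ≠ a) (hzb : z ≠ b) :
    z ∈ D \ (A ∪ K) := by
  refine Finset.mem_sdiff.2 ⟨h.best.CD (h.arc.PC hz), fun h1 => ?_⟩
  rcases Finset.mem_union.1 h1 with h1 | h1
  · rcases h.arc.mem h1 hz with h2 | h2
    · exact hza h2
    · exact hzb h2
  · exact Finset.disjoint_left.1 h.best.dis h1 (h.arc.PC hz)

/-- the interior of `P` is in `Z` -/
theorem Sel.P_Z (h : Sel G D C K g a b A P l f) (hp : p ∈ P) (hpa : p ≠ a) (hpb : p ≠ b) (hz : z ∈ P)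
    (hza : z ≠ a) (hzb : z ≠ b) : z ∈ ZZ G D A K p := by
  refine mem_cmp.2 ⟨h.in_dom hz hza hzb, ?_⟩
  by_cases hpz : p = z
  · rw [← hpz]
    exact JN.refl (h.in_dom hp hpa hpb)
  · obtain ⟨T, h1, h2, h3, h4⟩ := h.seg p hp z hz hpz
    refine h2.jn ?_
    intro w hw
    refine h.in_dom (h1 hw) ?_ ?_
    · rintro rfl
      exact (h3 hw).elim (fun h5 => hpa h5.symm) (fun h5 => hza h5.symm)
    · rintro rfl
      exact (h4 hw).elim (fun h5 => hpb h5.symm) (fun h5 => hzb h5.symm)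

/-- a vertex of `Z` outside `C`: its component of `D - C` is attached to the interior of `P` -/
theorem Sel.Z_comp (h : Sel G D C K g a b A P l f) (hp : p ∈ P) (hpa : p ≠ a) (hpb : p ≠ b)
    (hz : z ∈ ZZ G D A K p) (hzC : z ∉ C) :
    Cmp G (D \ C) (cmp G (D \ C) z) ∧ Disjoint K (cmp G (D \ C) z) ∧
      ∃ u ∈ P, u ≠ a ∧ u ≠ b ∧ ∃ x ∈ cmp G (D \ C) z, G.Adj x u := by
  have hzD : z ∈ D \ C := Finset.mem_sdiff.2 ⟨ZZ_sub hz, hzC⟩
  have hK' := cmp_Cmp (G := G) hzD
  refine ⟨hK', ?_, ?_⟩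
  · rw [Finset.disjoint_left]
    intro w hw hw'
    have := h.best.comp.eq_of_mem hK' hw hw'
    exact ZZ_notK hz (this ▸ mem_cmp_self hzD)
  · have hj : JN G (D \ (A ∪ K)) z p := (mem_cmp.1 hz).2.symm
    have hpC : p ∈ C := h.arc.PC hp
    obtain ⟨x, hx, -, y, hy, hyK, e⟩ := hj.exists_edge (cmp G (D \ C) z) (mem_cmp_self hzD)
      (fun h1 => (Finset.mem_sdiff.1 (cmp_sub h1)).2 hpC)
    obtain ⟨hyD, hyAK⟩ := Finset.mem_sdiff.1 hy
    rw [Finset.mem_union, not_or] at hyAK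
    have hyC : y ∈ C := by
      by_contra hyC
      exact hyK (hK'.closed x hx y (Finset.mem_sdiff.2 ⟨hyD, hyC⟩) e)
    have hyP : y ∈ P := by
      have hu := h.arc.u
      rw [← hu] at hyC
      exact (Finset.mem_union.1 hyC).resolve_left hyAK.1
    exact ⟨y, hyP, fun h1 => hyAK.1 (h1 ▸ h.arc.pA.left_mem), fun h1 => hyAK.1 (h1 ▸ h.arc.pA.right_mem),
      x, hx, e⟩

/-- the outside neighbours of `S = K + Z` -/
theorem Sel.nbh_S (hx : Ctx G D) (h : Sel G D C K g a b A P l f) (hp : p ∈ P) (hpa : p ≠ a) (hpb : p ≠ b) :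
    nbh G (K ∪ ZZ G D A K p) ⊆ {a, b} ∪ ((nbh G K \ D) ∪ (nbh G (ZZ G D A K p) \ D)) := by
  intro y hy
  obtain ⟨hyS, x, hxS, e⟩ := mem_nbh.1 hy
  rw [Finset.mem_union, not_or] at hyS
  obtain ⟨hyK, hyZ⟩ := hyS
  by_cases hyD : y ∈ D
  · refine Finset.mem_union_left _ ?_
    have fin : y ∈ P → y ∈ ({a, b} : Finset V) := by
      intro hyP
      by_contra hne
      simp only [Finset.mem_insert, Finset.mem_singleton, not_or] at hne
      exact hyZ (h.P_Z hp hpa hpb hyP hne.1 hne.2)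
    have finA : y ∈ C → (y ∈ A → y = a ∨ y = b) → y ∈ ({a, b} : Finset V) := by
      intro hyC h1
      have hu := h.arc.u
      rw [← hu] at hyC
      rcases Finset.mem_union.1 hyC with h2 | h2
      · simpa using h1 h2
      · exact fin h2
    rcases Finset.mem_union.1 hxS with hxK | hxZ
    · have hyC : y ∈ C := by
        by_contra hyC
        exact hyK (h.best.comp.closed x hxK y (Finset.mem_sdiff.2 ⟨hyD, hyC⟩) e)
      exact finA hyC (fun h1 => h.noA y h1 ⟨x, hxK, e⟩)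
    · by_cases hxC : x ∈ C
      · have hxP : x ∈ P := by
          have hu := h.arc.u
          rw [← hu] at hxC
          exact (Finset.mem_union.1 hxC).resolve_left (ZZ_notA hxZ)
        have hxa : x ≠ a := fun h1 => ZZ_notA hxZ (h1 ▸ h.arc.pA.left_mem)
        have hxb : x ≠ b := fun h1 => ZZ_notA hxZ (h1 ▸ h.arc.pA.right_mem)
        by_cases hyC : y ∈ C
        · refine finA hyC (fun h1 => ?_)
          by_contra hne
          rw [not_or] at hne
          exact h.noPA hxP hxa hxb h1 hne.1 hne.2 e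
        · exfalso
          apply hyZ
          refine cmp_closed hxZ (Finset.mem_sdiff.2 ⟨hyD, fun h1 => ?_⟩) e
          rcases Finset.mem_union.1 h1 with h1 | h1
          · exact hyC (h.arc.AC h1)
          · exact hyK h1
      · obtain ⟨hK', hKK, u, huP, hua, hub, huK⟩ := h.Z_comp hp hpa hpb hxZ hxC
        have hxx : x ∈ cmp G (D \ C) x := mem_cmp_self (Finset.mem_sdiff.2 ⟨ZZ_sub hxZ, hxC⟩)
        by_cases hyC : y ∈ C
        · obtain ⟨h', hh', hh2⟩ := Sel.other hx h hK' hKK huP hua hub huK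
          exact fin (hh2 y hyC ⟨x, hxx, e⟩).1
        · exfalso
          apply hyZ
          refine cmp_closed hxZ (Finset.mem_sdiff.2 ⟨hyD, fun h1 => ?_⟩) e
          rcases Finset.mem_union.1 h1 with h1 | h1
          · exact hyC (h.arc.AC h1)
          · exact hyK h1
  · refine Finset.mem_union_right _ ?_
    rcases Finset.mem_union.1 hxS with hxK | hxZ
    · exact Finset.mem_union_left _ ((mem_lab h.best.KD).2 ⟨hyD, x, hxK, e⟩)
    · exact Finset.mem_union_right _ ((mem_lab ZZ_sub).2 ⟨hyD, x, hxZ, e⟩)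

/-- the colouring of `S` and `a`, `b` -/
theorem Sel.colour_S (hx : Ctx G D) (h : Sel G D C K g a b A P l f) (hp : p ∈ P) (hpa : p ≠ a)
    (hpb : p ≠ b) : ∃ F : V → Bool, F a = g a ∧ F b = g b ∧
      ∀ x ∈ K ∪ ZZ G D A K p, ∀ y ∈ insert a (insert b (K ∪ ZZ G D A K p)), G.Adj x y → F x ≠ F y := by
  classical
  have hex : ∀ K' : Finset V, ∃ h' : V → Bool, (Cmp G (D \ C) K' ∧ Disjoint K K' ∧
      ∃ u ∈ P, u ≠ a ∧ u ≠ b ∧ ∃ x ∈ K', G.Adj x u) →
      (∀ x ∈ K', ∀ y ∈ K' ∪ C, G.Adj x y → h' x ≠ h' y) ∧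
        ∀ v ∈ C, (∃ x ∈ K', G.Adj x v) → v ∈ P ∧ h' v = f v := by
    intro K'
    by_cases hc : Cmp G (D \ C) K' ∧ Disjoint K K' ∧ ∃ u ∈ P, u ≠ a ∧ u ≠ b ∧ ∃ x ∈ K', G.Adj x u
    · obtain ⟨h1, h2, u, h3, h4, h5, h6⟩ := hc
      obtain ⟨h', h7⟩ := Sel.other hx h h1 h2 h3 h4 h5 h6
      exact ⟨h', fun _ => h7⟩
    · exact ⟨fun _ => true, fun h1 => absurd h1 hc⟩
  choose H hH using hex
  set F : V → Bool := fun z => if z ∈ K then g z else if z ∈ C then f z else H (cmp G (D \ C) z) z with hF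
  have FK : ∀ z ∈ K, F z = g z := fun z hz => by simp only [hF, if_pos hz]
  have hKC : ∀ z ∈ C, z ∉ K := fun z hz hzK => Finset.disjoint_left.1 h.best.dis hzK hz
  have FC' : ∀ z ∈ C, F z = f z := fun z hz => by simp only [hF, if_neg (hKC z hz), if_pos hz]
  have FO : ∀ z, z ∉ K → z ∉ C → F z = H (cmp G (D \ C) z) z := fun z h1 h2 => by
    simp only [hF, if_neg h1, if_neg h2]
  have aP := h.arc.pP.left_mem
  have bP := h.arc.pP.right_mem
  -- membership
  have PZ : ∀ z ∈ ZZ G D A K p, z ∈ C → z ∈ P ∧ z ≠ a ∧ z ≠ b := by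
    intro z hz hzC
    refine ⟨?_, fun h1 => ZZ_notA hz (h1 ▸ h.arc.pA.left_mem), fun h1 => ZZ_notA hz (h1 ▸ h.arc.pA.right_mem)⟩
    have hu := h.arc.u
    rw [← hu] at hzC
    exact (Finset.mem_union.1 hzC).resolve_left (ZZ_notA hz)
  -- from `K`
  have cK : ∀ x ∈ K, ∀ y, (y ∈ K ∨ y ∈ P ∨ y ∈ ZZ G D A K p) → G.Adj x y → F x ≠ F y := by
    intro x hxK y hy e
    rw [FK x hxK]
    rcases hy with hy | hy | hy
    · rw [FK y hy]
      exact h.col x hxK y (Finset.mem_union_left _ hy) e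
    · rw [FC' y (h.arc.PC hy), h.fg y hy ⟨x, hxK, e⟩]
      exact h.col x hxK y (Finset.mem_union_right _ (h.arc.PC hy)) e
    · by_cases hyC : y ∈ C
      · have hyP := (PZ y hy hyC).1
        rw [FC' y hyC, h.fg y hyP ⟨x, hxK, e⟩]
        exact h.col x hxK y (Finset.mem_union_right _ hyC) e
      · exact absurd (h.best.comp.closed x hxK y (Finset.mem_sdiff.2 ⟨ZZ_sub hy, hyC⟩) e) (ZZ_notK hy)
  -- from another component
  have cO : ∀ x ∈ ZZ G D A K p, x ∉ C → ∀ y, (y ∈ P ∨ y ∈ ZZ G D A K p) → G.Adj x y → F x ≠ F y := by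
    intro x hxZ hxC y hy e
    have hc := h.Z_comp hp hpa hpb hxZ hxC
    have hxx : x ∈ cmp G (D \ C) x := mem_cmp_self (Finset.mem_sdiff.2 ⟨ZZ_sub hxZ, hxC⟩)
    obtain ⟨h1, h2⟩ := hH _ hc
    rw [FO x (ZZ_notK hxZ) hxC]
    by_cases hyC : y ∈ C
    · rw [FC' y hyC, ← (h2 y hyC ⟨x, hxx, e⟩).2]
      exact h1 x hxx y (Finset.mem_union_right _ hyC) e
    · have hyZ : y ∈ ZZ G D A K p := hy.resolve_left (fun h3 => hyC (h.arc.PC h3))
      have hyx : y ∈ cmp G (D \ C) x := hc.1.closed x hxx y (Finset.mem_sdiff.2 ⟨ZZ_sub hyZ, hyC⟩) e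
      rw [FO y (ZZ_notK hyZ) hyC, cmp_eq hyx]
      exact h1 x hxx y (Finset.mem_union_left _ hyx) e
  have cP : ∀ x ∈ ZZ G D A K p, x ∈ C → ∀ y ∈ P, G.Adj x y → F x ≠ F y := by
    intro x hxZ hxC y hyP e
    obtain ⟨h1, h2, h3⟩ := PZ x hxZ hxC
    rw [FC' x hxC, FC' y (h.arc.PC hyP)]
    exact h.fP h1 hyP e h2 h3
  refine ⟨F, ?_, ?_, ?_⟩
  · rw [FC' a (h.arc.PC aP), h.fg a aP h.ka]
  · rw [FC' b (h.arc.PC bP), h.fg b bP h.kb]
  · intro x hxS y hy e
    have hy' : y ∈ K ∨ y ∈ P ∨ y ∈ ZZ G D A K p := by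
      simp only [Finset.mem_insert, Finset.mem_union] at hy
      rcases hy with rfl | rfl | hy | hy
      · exact Or.inr (Or.inl aP)
      · exact Or.inr (Or.inl bP)
      · exact Or.inl hy
      · exact Or.inr (Or.inr hy)
    rcases Finset.mem_union.1 hxS with hxK | hxZ
    · exact cK x hxK y hy' e
    · rcases hy' with hyK | hyPZ
      · exact (cK y hyK x (Or.inr (Or.inr hxZ)) e.symm).symm
      · by_cases hxC : x ∈ C
        · rcases hyPZ with hyP | hyZ
          · exact cP x hxZ hxC y hyP e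
          · by_cases hyC : y ∈ C
            · exact cP x hxZ hxC y (PZ y hyZ hyC).1 e
            · exact (cO y hyZ hyC x (Or.inr hxZ) e.symm).symm
        · exact cO x hxZ hxC y hyPZ e

/-- the parity of an `a`-`b`-path through a set all of whose edges are bichromatic -/
theorem path_parity {F : V → Bool} (hF : ∀ x ∈ S, ∀ y ∈ insert a (insert b S), G.Adj x y → F x ≠ F y)
    (haS : a ∉ S) (hbS : b ∉ S) (hT : PX G T a b k) (hTS : T ⊆ insert a (insert b S))
    (hne : (T ∩ S).Nonempty) (hab : a ≠ b) : k = (F a ^^ F b) := by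
  obtain ⟨w, T', e, h1, h2, h3⟩ := hT.uncons hab
  have hT' : T' ⊆ insert b S := by
    intro z hz
    have h4 := hTS (h2 ▸ Finset.mem_insert_of_mem hz)
    rcases Finset.mem_insert.1 h4 with h5 | h5
    · exact absurd (h5 ▸ hz) h3
    · exact h5
  have hw : w ∈ S := by
    by_contra hwS
    have hwb : w = b := (Finset.mem_insert.1 (hT' h1.left_mem)).resolve_right hwS
    rw [hwb] at h1
    obtain ⟨h5, -⟩ := h1.eq_of_eq
    obtain ⟨z, hz⟩ := hne
    obtain ⟨hz1, hz2⟩ := Finset.mem_inter.1 hz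
    rw [h2, h5] at hz1
    simp only [Finset.mem_insert, Finset.mem_singleton] at hz1
    rcases hz1 with rfl | rfl
    · exact haS hz2
    · exact hbS hz2
  have h4 : (!k) = (F w ^^ F b) := by
    refine PI.bip (S := insert b S) ?_ ⟨T', hT', h1⟩
    intro x hx y hy e'
    rcases Finset.mem_insert.1 hx with hxb | hxS
    · rcases Finset.mem_insert.1 hy with hyb | hyS
      · rw [hxb, hyb] at e'
        exact absurd e' (G.loopless.irrefl _)
      · exact (hF y hyS x (by rw [hxb]; simp) e'.symm).symm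
    · exact hF x hxS y (Finset.mem_insert_of_mem hy) e'
  have h5 := hF w hw a (Finset.mem_insert_self _ _) e.symm
  revert h4 h5
  cases k <;> cases F a <;> cases F b <;> cases F w <;> simp

/-- (4), core form -/
theorem four_core (hx : Ctx G D) (hN3 : N3 G) (hT : ¬ HasTOKS G) (hJ : Hub G Dᶜ) (hnb : ¬ Bip G D) :
    IOC G D := by
  obtain ⟨C0, hC0D, hC0⟩ := exists_ioc hnb
  by_cases hne : C0 = D
  · exact hne ▸ hC0
  exfalso
  obtain ⟨x0, hx0, hx0C⟩ : ∃ x ∈ D, x ∉ C0 := by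
    by_contra hcon
    push Not at hcon
    exact hne (Finset.Subset.antisymm hC0D hcon)
  obtain ⟨C, K, hB⟩ := exists_best hC0.oddCyc hC0D hx0 hx0C
  obtain ⟨g, a, b, A, P, l, f, h⟩ := hx.exists_sel hN3 hT hB
  obtain ⟨p, hp, hpa, hpb, hpK⟩ := h.third
  set Z := ZZ G D A K p with hZ
  obtain ⟨F, Fa, Fb, hF⟩ := h.colour_S hx hp hpa hpb
  rw [← hZ] at hF
  have hnS := h.nbh_S hx hp hpa hpb
  rw [← hZ] at hnS
  have hpZ : p ∈ Z := h.P_Z hp hpa hpb hp hpa hpb
  have hKD := h.best.KD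
  have hZD : Z ⊆ D := ZZ_sub
  have hZc : Conn G Z := cmp_conn (h.in_dom hp hpa hpb)
  have hAZ : Disjoint Z A := Finset.disjoint_left.2 fun z hz => ZZ_notA hz
  have hKZ : Disjoint Z K := Finset.disjoint_left.2 fun z hz => ZZ_notK hz
  have hLK := hx.M C K hB.cyc hB.CD hKD hB.dis hB.conn
  have hLZ : (nbh G Z \ D).card ≤ 1 := hx.arc hB.CD hB.comp h.col h.arc.pA h.arc.AC h.ab h.ka h.kb h.inc
    hZD hAZ hKZ hZc
  have haS : a ∉ K ∪ Z := by
    rw [Finset.mem_union, not_or]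
    exact ⟨fun h1 => Finset.disjoint_left.1 hB.dis h1 (h.arc.AC h.arc.pA.left_mem),
      fun h1 => Finset.disjoint_left.1 hAZ h1 h.arc.pA.left_mem⟩
  have hbS : b ∉ K ∪ Z := by
    rw [Finset.mem_union, not_or]
    exact ⟨fun h1 => Finset.disjoint_left.1 hB.dis h1 (h.arc.AC h.arc.pA.right_mem),
      fun h1 => Finset.disjoint_left.1 hAZ h1 h.arc.pA.right_mem⟩
  have haD : a ∈ D := hB.CD (h.arc.AC h.arc.pA.left_mem)
  have hbD : b ∈ D := hB.CD (h.arc.AC h.arc.pA.right_mem)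
  have hSD : K ∪ Z ⊆ D := Finset.union_subset hKD hZD
  -- a vertex outside `D` without neighbours in `S`
  obtain ⟨w, hwD, hwL⟩ : ∃ w, w ∉ D ∧ w ∉ (nbh G K \ D) ∪ (nbh G Z \ D) := by
    by_contra hcon
    push Not at hcon
    have h1 : Dᶜ ⊆ (nbh G K \ D) ∪ (nbh G Z \ D) := fun w hw => hcon w (Finset.mem_compl.1 hw)
    have h2 := Finset.card_le_card h1
    have h3 := Finset.card_union_le (nbh G K \ D) (nbh G Z \ D)
    have h4 := hx.card
    omega
  have hwS : ∀ x ∈ K ∪ Z, ¬ G.Adj x w := by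
    intro x hxS e
    apply hwL
    rcases Finset.mem_union.1 hxS with h1 | h1
    · exact Finset.mem_union_left _ ((mem_lab hKD).2 ⟨hwD, x, h1, e⟩)
    · exact Finset.mem_union_right _ ((mem_lab hZD).2 ⟨hwD, x, h1, e⟩)
  have four : ∀ Y ⊆ K ∪ Z, Y.Nonempty → 4 ≤ (nbh G Y).card := by
    intro Y hY hYne
    refine hx.fc Y hYne ⟨w, fun h1 => hwD (hSD (hY h1)), fun h1 => ?_⟩
    obtain ⟨-, x, hxY, e⟩ := mem_nbh.1 h1
    exact hwS x (hY hxY) e
  have hSne : (K ∪ Z).Nonempty := ⟨p, Finset.mem_union_right _ hpZ⟩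
  have h4 := four (K ∪ Z) (Finset.Subset.refl _) hSne
  have hcard1 := Finset.card_le_card hnS
  have hcard2 := Finset.card_union_le ({a, b} : Finset V) ((nbh G K \ D) ∪ (nbh G Z \ D))
  have hcard3 := Finset.card_union_le (nbh G K \ D) (nbh G Z \ D)
  have hcard4 : ({a, b} : Finset V).card ≤ 2 := Finset.card_le_two
  obtain ⟨s, hs⟩ := Finset.card_eq_one.1 (show (nbh G K \ D).card = 1 by omega)
  obtain ⟨s', hs'⟩ := Finset.card_eq_one.1 (show (nbh G Z \ D).card = 1 by omega)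
  have hss : s ≠ s' := by
    intro h1
    rw [hs, hs', h1, Finset.union_self] at hcard1 hcard2
    rw [Finset.card_singleton] at hcard2
    omega
  have hsm : s ∈ nbh G K \ D := by rw [hs]; exact Finset.mem_singleton_self s
  have hsm' : s' ∈ nbh G Z \ D := by rw [hs']; exact Finset.mem_singleton_self s'
  obtain ⟨hsD, xs, hxs, es⟩ := (mem_lab hKD).1 hsm
  obtain ⟨hsD', xs', hxs', es'⟩ := (mem_lab hZD).1 hsm'
  have hnb4 : nbh G (K ∪ Z) = {a, b, s, s'} := by
    have h5 : nbh G (K ∪ Z) ⊆ {a, b, s, s'} := by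
      intro z hz
      have h6 := hnS hz
      rw [hs, hs'] at h6
      simp only [Finset.mem_union, Finset.mem_insert, Finset.mem_singleton] at h6 ⊢
      tauto
    refine Finset.eq_of_subset_of_card_le h5 (le_trans ?_ h4)
    exact Finset.card_le_four
  have hgab : (g a ^^ g b) = !l := by
    have := h.inc
    revert this
    cases l <;> cases g a <;> cases g b <;> simp
  -- parity of the paths through `S`
  have hpar : ∀ T k, PX G T a b k → T ⊆ insert a (insert b (K ∪ Z)) → (T ∩ (K ∪ Z)).Nonempty → k = !l := by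
    intro T k h5 h6 h7
    rw [path_parity hF haS hbS h5 h6 h7 h.ab, Fa, Fb, hgab]
  have hAS : ∀ z ∈ A, z ∉ K ∪ Z := by
    intro z hz h5
    rcases Finset.mem_union.1 h5 with h5 | h5
    · exact Finset.disjoint_left.1 hB.dis h5 (h.arc.AC hz)
    · exact Finset.disjoint_left.1 hAZ h5 hz
  have hAD : A ⊆ D := h.arc.AC.trans hB.CD
  apply hT
  refine Cell.toks (K := K ∪ Z) (v := a) (v' := b) (s := s) (s' := s') ?_
  refine ⟨?_, hnb4, h.ab, hss, fun h5 => hsD (h5 ▸ haD), fun h5 => hsD' (h5 ▸ haD),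
    fun h5 => hsD (h5 ▸ hbD), fun h5 => hsD' (h5 ▸ hbD), four, ?_, ?_⟩
  · have h5 : ({xs, xs'} : Finset V) ⊆ K ∪ Z := by
      intro z hz
      simp only [Finset.mem_insert, Finset.mem_singleton] at hz
      rcases hz with rfl | rfl
      · exact Finset.mem_union_left _ hxs
      · exact Finset.mem_union_right _ hxs'
    have h6 : xs ≠ xs' := fun h7 => Finset.disjoint_left.1 hKZ hxs' (h7 ▸ hxs)
    have h7 := Finset.card_le_card h5
    rw [Finset.card_pair h6] at h7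
    exact h7
  · intro T k h5 h6 h7 X hX hXc x hxX y hyX ex ey
    have hk := hpar T k h5 h6 h7
    subst hk
    have hAT : A ∩ T = {a, b} := by
      ext z
      simp only [Finset.mem_inter, Finset.mem_insert, Finset.mem_singleton]
      constructor
      · rintro ⟨h8, h9⟩
        have h10 := h6 h9
        simp only [Finset.mem_insert] at h10
        rcases h10 with h10 | h10 | h10
        · exact Or.inl h10
        · exact Or.inr h10
        · exact absurd h10 (hAS z h8)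
      · rintro (rfl | rfl)
        · exact ⟨h.arc.pA.left_mem, h5.left_mem⟩
        · exact ⟨h.arc.pA.right_mem, h5.right_mem⟩
    have hO : OddCyc G (A ∪ T) := OddCyc.of_arcs h.arc.pA h5 hAT h.ab
    have hTD : T ⊆ D := h6.trans (Finset.insert_subset haD (Finset.insert_subset hbD hSD))
    have hXS : ∀ z ∈ X, z ∈ K ∪ Z ∧ z ∉ T := fun z hz => Finset.mem_sdiff.1 (hX hz)
    have hXD : X ⊆ D := fun z hz => hSD (hXS z hz).1
    have hM := hx.M (A ∪ T) X hO (Finset.union_subset hAD hTD) hXD (by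
      rw [Finset.disjoint_left]
      intro z hz hz'
      rcases Finset.mem_union.1 hz' with h8 | h8
      · exact hAS z h8 (hXS z hz).1
      · exact (hXS z hz).2 h8) hXc
    exact hss (Finset.card_le_one.1 hM s ((mem_lab hXD).2 ⟨hsD, x, hxX, ex.symm⟩) s'
      ((mem_lab hXD).2 ⟨hsD', y, hyX, ey.symm⟩))
  · intro T k h5 h6 h7 m
    have hk := hpar T k h5 h6 h7
    obtain ⟨M, hMJ, hM⟩ := hJ.par (Finset.mem_compl.2 hsD) (Finset.mem_compl.2 hsD') hss m
    refine ⟨A, M, ?_, hM, ?_, ?_, ?_⟩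
    · rw [hk, Bool.not_not]
      exact h.arc.pA
    · rw [Finset.disjoint_left]
      intro z hz hz'
      exact Finset.mem_compl.1 (hMJ hz') (hAD hz)
    · exact Finset.disjoint_left.2 hAS
    · rw [Finset.disjoint_left]
      intro z hz hz'
      exact Finset.mem_compl.1 (hMJ hz) (hSD hz')

end Pool.Agent.TOKSN.Four

namespace Pool.Agent.TOKSN

open Pool.Agent.TOKST (HasTOKS)
open Pool.Agent.TOKSP (nbh mem_nbh)

variable {V : Type} [Fintype V] [DecidableEq V] {G : SimpleGraph V} {D : Finset V}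

/-- (4): an inclusion-minimal member is an induced odd cycle -/
theorem four (hFC : FC G) (hN3 : ∀ Y : Finset V, Y.Nonempty → (∀ x ∈ Y, ∀ y ∈ Y, ¬ G.Adj x y) →
      Y.card + 3 ≤ (nbh G Y).card) (hT : ¬ HasTOKS G) (hD : Mem G D)
    (hM : ∀ C X : Finset V, OddCyc G C → C ⊆ D → X ⊆ D → Disjoint X C → Conn G X →
      (nbh G X \ D).card ≤ 1) : IOC G D :=
  Four.four_core ⟨hFC, hD.1.conn, hD.2.card, hM⟩ hN3 hT hD.2 hD.1.nbip

end Pool.Agent.TOKSN
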