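import Mathlib
import Pool.Agent.TOKSN.Toks
import Pool.Agent.TOKSN.Cyc
import Pool.Agent.TOKSN.HubPar
import Pool.Agent.TOKSN.FC

/-!
# LINE N: (N2) and the potential of an induced odd cycle (helper88)
-/

set_option autoImplicit false
set_option linter.unusedSectionVars false

namespace Pool.Agent.TOKSN

open Pool.Agent.TOKST (HasTOKS)
open Pool.Agent.TOKSP (nbh mem_nbh four_le_nbh)

variable {V : Type} [DecidableEq V] {G : SimpleGraph V} {S T T₁ T₂ U A B C D H H' : Finset V}
  {a b c d x x' y v : V} {k l : Bool}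

/-- (OC): `C` an odd cycle in `H`, `c` outside adjacent to `x, x'` on `C`, `y` on the even arc at odd
distance, `y` joined to `c` by a path of odd length outside `C`: TOKS -/
theorem toks_oc {Te₁ Te₂ To Ty : Finset V} (hxx : PX G To x x' true) (h1 : PX G Te₁ x y true)
    (h2 : PX G Te₂ y x' true) (h3 : PX G Ty c y true) (ex : G.Adj c x) (ex' : G.Adj c x')
    (i1 : ∀ z, z ∈ Te₁ → z ∈ Te₂ → z = y) (i2 : ∀ z, z ∈ Te₁ → z ∈ To → z = x)
    (i3 : ∀ z, z ∈ Te₂ → z ∈ To → z = x')
    (i4 : ∀ z, z ∈ Ty → z ∈ Te₁ ∪ Te₂ ∪ To → z = y) (hc : c ∉ Te₁ ∪ Te₂ ∪ To) : HasTOKS G := by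
  have hcx := PX.edge ex
  have hcx' := PX.edge ex'
  have hx1 := h1.left_mem
  have hy1 := h1.right_mem
  have hy2 := h2.left_mem
  have hx2 := h2.right_mem
  have hx3 := hxx.left_mem
  have hx4 := hxx.right_mem
  have hc3 := h3.left_mem
  have hy3 := h3.right_mem
  have n1 := h1.ne
  have n2 := h2.ne
  have n3 := hxx.ne
  have n4 := h3.ne
  have n5 := ex.ne
  have n6 := ex'.ne
  have hyTo : y ∉ To := fun h => n1 (i2 y hy1 h).symm
  refine toks_mk (a := c) (b := x) (c := x') (d := y) hcx hcx' h3 hxx h1 h2.symm ?_ ?_ ?_ ?_ ?_ ?_ ?_ ?_ ?_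
    ?_ ?_ ?_ ?_ ?_ ?_
  all_goals
    first
      | (rw [Finset.disjoint_left]; intro z hz hz'
         simp only [Finset.mem_insert, Finset.mem_singleton, Finset.mem_union] at *
         grind)
      | (intro z hz
         simp only [Finset.mem_inter, Finset.mem_insert, Finset.mem_singleton, Finset.mem_union] at *
         grind)

/-- (N2), general form: an odd cycle `C` whose complement is a hub; every vertex of `C` has a neighbour
outside `C`; then a vertex outside `C` has at most one neighbour on `C` -/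
theorem n2_aux [Fintype V] (hT : ¬ HasTOKS G) (hM : Hub G Cᶜ) (hC : OddCyc G C)
    (hout : ∀ y ∈ C, ∃ w, w ∉ C ∧ G.Adj y w) (hv : v ∉ C) (hx : x ∈ C) (hx' : x' ∈ C)
    (e : G.Adj v x) (e' : G.Adj v x') : x = x' := by
  by_contra hne
  obtain ⟨S₁, S₂, k, a1, a2, a3, a4⟩ := hC.arcs hx hx' hne
  -- the odd arc `To` and the even arc `Te`
  obtain ⟨To, Te, b1, b2, b3, b4⟩ : ∃ To Te, PX G To x x' true ∧ PX G Te x x' false ∧ To ∪ Te = C ∧
      To ∩ Te = {x, x'} := by
    cases k
    · exact ⟨S₂, S₁, a2, a1, by rw [Finset.union_comm, a3], by rw [Finset.inter_comm, a4]⟩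
    · exact ⟨S₁, S₂, a1, a2, a3, a4⟩
  obtain ⟨y, T', c1, c2, c3, c4⟩ := b2.uncons hne
  have c2 : PX G T' y x' true := c2
  have hyC : y ∈ C := by
    rw [← b3, c3]
    exact Finset.mem_union_right _ (Finset.mem_insert_of_mem c2.left_mem)
  obtain ⟨w, hw, ew⟩ := hout y hyC
  -- an odd path from `v` to `y` outside `C`
  obtain ⟨Ty, d1, d2⟩ : ∃ Ty, PX G Ty v y true ∧ ∀ z, z ∈ Ty → z ∈ C → z = y := by
    rcases eq_or_ne v w with rfl | hvw
    · refine ⟨{v, y}, PX.edge ew.symm, ?_⟩
      intro z hz hzC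
      rw [Finset.mem_insert, Finset.mem_singleton] at hz
      rcases hz with rfl | rfl
      · exact absurd hzC hw
      · rfl
    · obtain ⟨T0, h0, h1⟩ := hM.par (Finset.mem_compl.2 hw) (Finset.mem_compl.2 hv) hvw.symm false
      have hyT0 : y ∉ T0 := fun h => Finset.mem_compl.1 (h0 h) hyC
      refine ⟨insert y T0, (h1.cons ew hyT0).symm, ?_⟩
      intro z hz hzC
      rw [Finset.mem_insert] at hz
      rcases hz with rfl | hz
      · rfl
      · exact absurd hzC (Finset.mem_compl.1 (h0 hz))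
  have hTo : To ⊆ C := by rw [← b3]; exact Finset.subset_union_left
  have hTe : Te ⊆ C := by rw [← b3]; exact Finset.subset_union_right
  have hyTo : y ∉ To := by
    intro h
    have h1 : y ∈ To ∩ Te := Finset.mem_inter.2 ⟨h, by rw [c3]; exact Finset.mem_insert_of_mem c2.left_mem⟩
    rw [b4, Finset.mem_insert, Finset.mem_singleton] at h1
    rcases h1 with rfl | rfl
    · exact c4 c2.left_mem
    · exact c2.ne rfl
  have key : ∀ z, z ∈ Te → z ∈ To → z = x ∨ z = x' := by
    intro z hz hz'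
    have h1 : z ∈ To ∩ Te := Finset.mem_inter.2 ⟨hz', hz⟩
    rwa [b4, Finset.mem_insert, Finset.mem_singleton] at h1
  refine hT (toks_oc (c := v) (x := x) (x' := x') (y := y) (Te₁ := {x, y}) (Te₂ := T') (To := To) (Ty := Ty)
    b1 (PX.edge c1) c2 d1 e e' ?_ ?_ ?_ ?_ ?_)
  · intro z hz hz'
    rw [Finset.mem_insert, Finset.mem_singleton] at hz
    rcases hz with rfl | rfl
    · exact absurd hz' c4
    · rfl
  · intro z hz hz'
    rw [Finset.mem_insert, Finset.mem_singleton] at hz
    rcases hz with rfl | rfl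
    · rfl
    · exact absurd hz' hyTo
  · intro z hz hz'
    rcases key z (by rw [c3]; exact Finset.mem_insert_of_mem hz) hz' with rfl | rfl
    · exact absurd hz c4
    · rfl
  · intro z hz hz'
    refine d2 z hz ?_
    simp only [Finset.mem_union, Finset.mem_insert, Finset.mem_singleton] at hz'
    rcases hz' with ((rfl | rfl) | h) | h
    · exact hx
    · exact hyC
    · exact hTe (by rw [c3]; exact Finset.mem_insert_of_mem h)
    · exact hTo h
  · intro h
    simp only [Finset.mem_union, Finset.mem_insert, Finset.mem_singleton] at h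
    rcases h with ((rfl | rfl) | h) | h
    · exact hv hx
    · exact hv hyC
    · exact hv (hTe (by rw [c3]; exact Finset.mem_insert_of_mem h))
    · exact hv (hTo h)

section Fin
variable [Fintype V]

/-- the neighbours of a vertex -/
theorem nbh_singleton (v : V) : nbh G {v} = by classical exact Finset.univ.filter (fun w => G.Adj v w) := by
  classical
  ext w
  rw [mem_nbh]
  simp only [Finset.mem_singleton, Finset.mem_filter, Finset.mem_univ, true_and]
  constructor
  · rintro ⟨-, x, rfl, h⟩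
    exact h
  · intro h
    exact ⟨h.ne', v, rfl, h⟩

theorem deg_eq_card_nbh (v : V) : deg G v = (nbh G {v}).card := by
  classical
  rw [nbh_singleton]
  unfold deg
  congr

theorem FC.four_le_deg (hG : FC G) (hn : 5 ≤ Fintype.card V) (v : V) : 4 ≤ deg G v := by
  classical
  rw [deg_eq_card_nbh]
  by_contra hlt
  push Not at hlt
  have h1 : ∃ w, w ∉ ({v} : Finset V) ∧ w ∉ nbh G {v} := by
    by_contra hcon
    push Not at hcon
    have h2 : (Finset.univ : Finset V) ⊆ insert v (nbh G {v}) := by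
      intro w _
      rw [Finset.mem_insert]
      by_cases hw : w = v
      · exact Or.inl hw
      · exact Or.inr (hcon w (by simpa using hw))
    have h3 := Finset.card_le_card h2
    have h4 := Finset.card_insert_le v (nbh G {v})
    rw [Finset.card_univ] at h3
    omega
  have := hG {v} ⟨v, Finset.mem_singleton_self v⟩ h1
  omega

/-- the neighbours of `v` outside `C` -/
theorem IOC.card_out (hC : IOC G C) (hv : v ∈ C) :
    deg G v ≤ ((nbh G {v}) \ C).card + 2 := by
  classical
  rw [deg_eq_card_nbh]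
  have h1 : ((nbh G {v}) ∩ C).card ≤ 2 := by
    by_contra hlt
    push Not at hlt
    obtain ⟨p, q, r, hp, hq, hr, hpq, hpr, hqr⟩ := Finset.two_lt_card_iff.1 hlt
    rw [Finset.mem_inter, nbh_singleton, Finset.mem_filter] at hp hq hr
    rcases hC.deg_two hv hp.2 hq.2 hr.2 hp.1.2 hq.1.2 hr.1.2 with h | h | h
    · exact hpq h
    · exact hqr h
    · exact hpr h
  have h2 := Finset.card_sdiff_add_card_inter (nbh G {v}) C
  omega

theorem IOC.exists_out (hG : FC G) (hn : 5 ≤ Fintype.card V) (hC : IOC G C) {y : V} (hy : y ∈ C) :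
    ∃ w, w ∉ C ∧ G.Adj y w := by
  classical
  have h1 := hC.card_out hy
  have h2 := hG.four_le_deg hn y
  have h3 : 0 < ((nbh G {y}) \ C).card := by omega
  obtain ⟨w, hw⟩ := Finset.card_pos.1 h3
  rw [Finset.mem_sdiff, nbh_singleton, Finset.mem_filter] at hw
  exact ⟨w, hw.2, hw.1.2⟩

/-- (N2) -/
theorem n2 (hT : ¬ HasTOKS G) (hG : FC G) (hn : 5 ≤ Fintype.card V) (hM : Mem G C) (hC : IOC G C)
    (hv : v ∉ C) (hx : x ∈ C) (hx' : x' ∈ C) (e : G.Adj v x) (e' : G.Adj v x') : x = x' :=
  n2_aux hT hM.2 hC.oddCyc (fun _ hy => hC.exists_out hG hn hy) hv hx hx' e e'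

/-- the potential of an induced odd cycle that is a member is at least its length -/
theorem chi_ioc (hT : ¬ HasTOKS G) (hG : FC G) (hn : 5 ≤ Fintype.card V) (hM : Mem G C) (hC : IOC G C) :
    (C.card : ℤ) ≤ chi G C := by
  classical
  have h1 : (bd G C).card ≤ C.card := by
    refine Finset.card_le_card ?_
    intro z hz
    exact (mem_bd.1 hz).1
  have h2 : nbh G C = C.biUnion (fun v => (nbh G {v}) \ C) := by
    ext w
    rw [mem_nbh, Finset.mem_biUnion]
    constructor
    · rintro ⟨hw, x, hx, e⟩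
      refine ⟨x, hx, Finset.mem_sdiff.2 ⟨?_, hw⟩⟩
      rw [nbh_singleton, Finset.mem_filter]
      exact ⟨Finset.mem_univ _, e⟩
    · rintro ⟨x, hx, hw⟩
      rw [Finset.mem_sdiff, nbh_singleton, Finset.mem_filter] at hw
      exact ⟨hw.2, x, hx, hw.1.2⟩
  have h3 : (nbh G C).card = ∑ v ∈ C, ((nbh G {v}) \ C).card := by
    rw [h2]
    refine Finset.card_biUnion ?_
    intro x hx x' hx' hne
    rw [Function.onFun, Finset.disjoint_left]
    intro w hw hw'
    rw [Finset.mem_sdiff, nbh_singleton, Finset.mem_filter] at hw hw'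
    exact hne (n2 hT hG hn hM hC hw.2 hx hx' hw.1.2.symm hw'.1.2.symm)
  have h4 : ∑ v ∈ C, (2 : ℤ) ≤ (∑ v ∈ C, (4 - (deg G v : ℤ))) + (nbh G C).card := by
    rw [h3]
    push_cast
    rw [← Finset.sum_add_distrib]
    refine Finset.sum_le_sum ?_
    intro v hv
    have := hC.card_out hv
    have : (deg G v : ℤ) ≤ (((nbh G {v}) \ C).card : ℤ) + 2 := by exact_mod_cast this
    linarith
  rw [Finset.sum_const, nsmul_eq_mul] at h4
  have h5 : ((bd G C).card : ℤ) ≤ (C.card : ℤ) := by exact_mod_cast h1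
  unfold chi
  linarith

/-- the potential of an induced odd cycle that is a member is at least three -/
theorem three_le_chi_ioc (hT : ¬ HasTOKS G) (hG : FC G) (hn : 5 ≤ Fintype.card V) (hM : Mem G C)
    (hC : IOC G C) : 3 ≤ chi G C := by
  have h1 := chi_ioc hT hG hn hM hC
  have h2 : (3 : ℤ) ≤ (C.card : ℤ) := by exact_mod_cast hC.oddCyc.card_le
  linarith

end Fin

end Pool.Agent.TOKSN
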