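import Mathlib
import Pool.Agent.TOKSN.Ctx
import Pool.Agent.TOKSN.Ear
import Pool.Agent.TOKSN.Chi
import Pool.Agent.TOKSN.N2
import Pool.Agent.TOKSN.ChiT
import Pool.Agent.TOKSN.Four
import Pool.Agent.TOKSN.CovTypes
import Pool.Agent.TOKSN.CaseA
import Pool.Agent.TOKSN.CaseB

/-!
# LINE N: the final assembly
-/

set_option autoImplicit false
set_option linter.unusedSectionVars false

namespace Pool.Agent.TOKSN

open Pool.Agent.TOKST (HasTOKS)
open Pool.Agent.TOKSP (nbh mem_nbh four_le_nbh)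

variable {V : Type} [DecidableEq V] [Fintype V] {G : SimpleGraph V} {C D D1 : Finset V}

/-- (B') from (B) -/
theorem chi_B' (hg : Good G) (h1 : Mem G D1) (hD : Mem G D) (hs : D1 ⊆ D) {m : ℕ} {f : ℕ → V} {a a' : V}
    (hE : Ear G Dᶜ (D \ D1) m f a a') : chi G D1 ≤ chi G D := by
  have hs' : Dᶜ ⊆ D1ᶜ := Finset.compl_subset_compl.2 hs
  have he : D1ᶜ \ Dᶜ = D \ D1 := by
    ext x
    simp only [Finset.mem_sdiff, Finset.mem_compl, not_not]
    tauto
  have h2 := chi_B hg hD.compl h1.compl hs' (m := m) (f := f) (a := a) (a' := a') (by rw [he]; exact hE)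
  have h3 := chi_add_compl G D
  have h4 := chi_add_compl G D1
  omega

/-- the local step -/
theorem chi_step_le (h : Cov G D D1) : chi G D1 ≤ chi G D := by
  classical
  have hs := h.sub.subset
  have hA : ∀ u, D \ D1 = {u} → chi G D1 ≤ chi G D := by
    intro u hu
    have hu' : u ∈ D \ D1 := by rw [hu]; exact Finset.mem_singleton_self u
    refine chi_A h.good h.mem1 h.mem0 (Finset.mem_sdiff.1 hu').2 ?_
    rw [← Finset.sdiff_union_of_subset hs, hu]
    rfl
  rcases cov_types h with ⟨u, hu⟩ | ⟨p, q, hp⟩ | ⟨p, q, hp⟩ | ⟨v, a, s, ht⟩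
  · exact hA u hu
  · rcases hp.ear with ⟨u, hu⟩ | ⟨m, f, a, a', hE⟩
    · exact hA u hu
    · exact chi_B h.good h.mem1 h.mem0 hs hE
  · rcases hp.ear with ⟨u, hu⟩ | ⟨m, f, a, a', hE⟩
    · exact hA u hu
    · exact chi_B' h.good h.mem1 h.mem0 hs hE
  · exact chi_T h.good h.mem1 h.mem0 hs ht

/-- no counterexample -/
theorem no_good (hg : Good G) (h : ∃ D, Mem G D) : False := by
  classical
  obtain ⟨D₀, hD₀⟩ := h
  -- members with nonpositive potential
  let F : Finset (Finset V) := Finset.univ.filter fun X => Mem G X ∧ chi G X ≤ 0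
  have hF : F.Nonempty := by
    have h1 := chi_add_compl_nonpos hg D₀
    rcases le_total (chi G D₀) 0 with h2 | h2
    · exact ⟨D₀, Finset.mem_filter.2 ⟨Finset.mem_univ _, hD₀, h2⟩⟩
    · exact ⟨D₀ᶜ, Finset.mem_filter.2 ⟨Finset.mem_univ _, hD₀.compl, by omega⟩⟩
  obtain ⟨D, hDF, hmin⟩ := Finset.exists_min_image F Finset.card hF
  obtain ⟨-, hD, hchi⟩ := Finset.mem_filter.1 hDF
  have hmin' : ∀ W, Mem G W → W.card < D.card → 1 ≤ chi G W := by
    intro W hW hc
    by_contra hlt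
    have := hmin W (Finset.mem_filter.2 ⟨Finset.mem_univ _, hW, by omega⟩)
    omega
  by_cases hex : ∃ D', Mem G D' ∧ D' ⊂ D
  · obtain ⟨D1, hc⟩ := exists_cover hD hex
    have hcov : Cov G D D1 := ⟨hg, hD, hchi, hmin', hc.mem₁, hc.sub, fun W hW h1 h2 => by
      by_contra hne
      exact hc.max W hW (Finset.ssubset_iff_subset_ne.2 ⟨h1, fun e => hne e.symm⟩) h2⟩
    have h1 := chi_step_le hcov
    have h2 := hmin' D1 hc.mem₁ (Finset.card_lt_card hc.sub)
    omega
  · push Not at hex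
    have hI := four hg.fc hg.n3 hg.nt hD (fun C X hC hCD hXD hd hX => mem_min_M hg.fc hD hex hC hCD hXD hd hX)
    have h1 := three_le_chi_ioc hg.nt hg.fc hg.n5 hD hI
    omega

/-- the theorem -/
theorem main (G : SimpleGraph V) (hn : 5 ≤ Fintype.card V)
    (h4 : ∀ S : Finset V, S.card ≤ 3 → (G.induce ((↑S : Set V)ᶜ)).Connected)
    (hodd : ∃ (u v : V) (c : G.Walk u u) (d : G.Walk v v),
      c.IsCycle ∧ d.IsCycle ∧ Odd c.length ∧ Odd d.length ∧ ∀ x, x ∈ c.support → x ∉ d.support) :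
    HasTOKS G := by
  by_contra hnt
  have hg := good_of_frozen G hn h4 hodd hnt
  exact no_good hg (exists_mem hg.fc hodd)

end Pool.Agent.TOKSN
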