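import Mathlib
import Pool.Agent.TOKSN.Chi

/-!
# LINE N: 4-cuts inside `P`: the two outer hubs stay together, shifts
-/

set_option autoImplicit false
set_option linter.unusedSectionVars false

namespace Pool.Agent.TOKSN

open Pool.Agent.TOKST (HasTOKS)
open Pool.Agent.TOKSP (nbh mem_nbh four_le_nbh)

variable {V : Type} [DecidableEq V] {G : SimpleGraph V} {S T U A B D D1 W X Y M : Finset V}
  {a b c t u v w x y : V}

/-- an edge of a connected set that leaves `X` -/
theorem Conn.cross (h : Conn G S) (ha : a ∈ S) (haX : a ∈ X) (hb : b ∈ S) (hbX : b ∉ X) :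
    ∃ x ∈ S, x ∈ X ∧ ∃ y ∈ S, y ∉ X ∧ G.Adj x y := by
  by_contra hno
  push Not at hno
  have h1 := JN.closed (h.2 a ha b hb) (X ∩ S) (Finset.mem_inter.2 ⟨haX, ha⟩) (by
    intro x hx y hy hxy
    rw [Finset.mem_inter] at hx ⊢
    refine ⟨?_, hy⟩
    by_contra hyX
    exact hno x hx.2 hx.1 y hy hyX hxy)
  exact hbX (Finset.mem_inter.1 h1).1

theorem cmp_disj' (h : ¬ JN G S a b) : Disjoint (cmp G S a) (cmp G S b) := by
  rw [Finset.disjoint_left]
  intro z hz hz'
  rw [mem_cmp] at hz hz'
  exact h (hz.2.trans hz'.2.symm)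

variable [Fintype V]

/-- in a hub: at least two vertices of the hub are neighbours of a part -/
theorem two_le_inter (h : Hub G D) (hW : W ⊆ D) (hne : W.Nonempty) (h2 : 2 ≤ (D \ W).card) :
    2 ≤ (nbh G W ∩ D).card := by
  by_contra hlt
  obtain ⟨a, ha⟩ := hne
  have hV : Nonempty V := ⟨a⟩
  obtain ⟨y, hy⟩ := Finset.card_le_one_iff_subset_singleton.1 (show (nbh G W ∩ D).card ≤ 1 by omega)
  by_cases hyW : y ∈ W
  · have h0 : (D \ W).Nonempty := by rw [← Finset.card_pos]; omega
    obtain ⟨b, hb⟩ := h0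
    rw [Finset.mem_sdiff] at hb
    obtain ⟨x, hx, hxW, z, hz, hzW, hxz⟩ := h.conn.cross (hW ha) ha hb.1 hb.2
    have h1 := hy (Finset.mem_inter.2 ⟨mem_nbh.2 ⟨hzW, x, hxW, hxz⟩, hz⟩)
    rw [Finset.mem_singleton] at h1
    exact hzW (h1 ▸ hyW)
  · have h0 : ((D \ W).erase y).Nonempty := by
      rw [← Finset.card_pos]
      have := Finset.pred_card_le_card_erase (s := D \ W) (a := y)
      omega
    obtain ⟨b, hb⟩ := h0
    rw [Finset.mem_erase, Finset.mem_sdiff] at hb
    obtain ⟨x, hx, hxW, z, hz, hzW, hxz⟩ := (h.del y).cross (a := a) (b := b) (X := W)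
      (Finset.mem_erase.2 ⟨fun hh => hyW (hh ▸ ha), hW ha⟩) ha (Finset.mem_erase.2 ⟨hb.1, hb.2.1⟩) hb.2.2
    rw [Finset.mem_erase] at hz
    have h1 := hy (Finset.mem_inter.2 ⟨mem_nbh.2 ⟨hzW, x, hxW, hxz⟩, hz.2⟩)
    rw [Finset.mem_singleton] at h1
    exact hz.1 h1

/-- the neighbourhood of a component of `G - W - v` -/
theorem nbh_cmp_sub : nbh G (cmp G (insert v W)ᶜ u) ⊆ insert v W := by
  intro y hy
  rw [mem_nbh] at hy
  obtain ⟨hy1, x, hx, hxy⟩ := hy
  by_contra hyS
  exact hy1 (cmp_closed hx (Finset.mem_compl.2 hyS) hxy)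

theorem nbh_cmp_sdiff : nbh G (cmp G (insert v W)ᶜ u \ nbh G W) ⊆
    (cmp G (insert v W)ᶜ u ∩ nbh G W) ∪ ({v} \ W) := by
  intro y hy
  rw [mem_nbh] at hy
  obtain ⟨hy1, x, hx, hxy⟩ := hy
  rw [Finset.mem_sdiff] at hx
  rw [Finset.mem_union, Finset.mem_inter, Finset.mem_sdiff, Finset.mem_singleton]
  by_cases hyU : y ∈ cmp G (insert v W)ᶜ u
  · left
    refine ⟨hyU, ?_⟩
    by_contra hyT
    exact hy1 (Finset.mem_sdiff.2 ⟨hyU, hyT⟩)
  · right
    have h1 : y ∈ insert v W := nbh_cmp_sub (mem_nbh.2 ⟨hyU, x, hx.1, hxy⟩)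
    have hyW : y ∉ W := by
      intro hyW
      apply hx.2
      refine mem_nbh.2 ⟨?_, y, hyW, hxy.symm⟩
      intro hxW
      have := Finset.mem_compl.1 (cmp_sub hx.1)
      exact this (Finset.mem_insert_of_mem hxW)
    rw [Finset.mem_insert] at h1
    exact ⟨h1.resolve_right hyW, hyW⟩

theorem nbh_union_cmp : nbh G (W ∪ cmp G (insert v W)ᶜ u) ⊆ insert v (nbh G W \ cmp G (insert v W)ᶜ u) := by
  intro y hy
  rw [mem_nbh] at hy
  obtain ⟨hy1, x, hx, hxy⟩ := hy
  rw [Finset.mem_union, not_or] at hy1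
  rw [Finset.mem_insert, Finset.mem_sdiff]
  rw [Finset.mem_union] at hx
  rcases hx with hx | hx
  · exact Or.inr ⟨mem_nbh.2 ⟨hy1.1, x, hx, hxy⟩, hy1.2⟩
  · left
    have h1 : y ∈ insert v W := nbh_cmp_sub (mem_nbh.2 ⟨hy1.2, x, hx, hxy⟩)
    rw [Finset.mem_insert] at h1
    exact h1.resolve_right hy1.1

/-- a component of `G - W - v` with at most one vertex of `N(W)` consists of it -/
theorem cmp_sub_nbh (h : Good G) (hW : W.Nonempty)
    (h1 : (cmp G (insert v W)ᶜ u ∩ nbh G W).card ≤ 1) : cmp G (insert v W)ᶜ u ⊆ nbh G W := by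
  by_contra hno
  have hne : (cmp G (insert v W)ᶜ u \ nbh G W).Nonempty := by
    rw [Finset.sdiff_nonempty]
    exact hno
  obtain ⟨w, hw⟩ := hW
  have h4 := h.four hne nbh_cmp_sdiff (w := w) (by
    rw [Finset.mem_sdiff]
    rintro ⟨h2, _⟩
    exact Finset.mem_compl.1 (cmp_sub h2) (Finset.mem_insert_of_mem hw)) (by
    rw [Finset.mem_union, Finset.mem_inter, Finset.mem_sdiff]
    rintro (h2 | h2)
    · exact (mem_nbh.1 h2.2).1 hw
    · exact h2.2 hw)
  have h5 := Finset.card_union_le (cmp G (insert v W)ᶜ u ∩ nbh G W) ({v} \ W)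
  have h6 : (({v} : Finset V) \ W).card ≤ 1 := by
    have := Finset.card_le_card (Finset.sdiff_subset (s := ({v} : Finset V)) (t := W))
    simpa using this
  omega

section Theta

variable (h : Good G) (hW : W.Nonempty) (hT : (nbh G W).card = 4)
include h hW hT

/-- one side of the theta lemma -/
theorem theta_side (hA3 : 3 ≤ A.card) (hAW : Disjoint A W) (hA : Conn G (A.erase v)) (ha : a ∈ A) (hav : a ≠ v) :
    A.erase v ⊆ cmp G (insert v W)ᶜ a ∧ 2 ≤ (cmp G (insert v W)ᶜ a ∩ nbh G W).card := by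
  have hsub : A.erase v ⊆ (insert v W)ᶜ := by
    intro z hz
    rw [Finset.mem_erase] at hz
    rw [Finset.mem_compl, Finset.mem_insert, not_or]
    exact ⟨hz.1, Finset.disjoint_left.1 hAW hz.2⟩
  have hX : A.erase v ⊆ cmp G (insert v W)ᶜ a := by
    intro z hz
    rw [mem_cmp]
    exact ⟨hsub hz, (hA.2 a (Finset.mem_erase.2 ⟨hav, ha⟩) z hz).mono hsub⟩
  refine ⟨hX, ?_⟩
  by_contra hlt
  have h1 := cmp_sub_nbh h hW (v := v) (u := a) (by omega)
  have h2 := Finset.card_le_card hX
  have h3 := Finset.pred_card_le_card_erase (s := A) (a := v)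
  rw [Finset.inter_eq_left.2 h1] at hlt
  omega

theorem theta_other (hX : 2 ≤ (cmp G (insert v W)ᶜ a ∩ nbh G W).card)
    (hB3 : 3 ≤ B.card) (hBW : Disjoint B W) (hB : Disjoint B (cmp G (insert v W)ᶜ a)) : v ∈ B := by
  have h1 : (nbh G W \ cmp G (insert v W)ᶜ a).card + (cmp G (insert v W)ᶜ a ∩ nbh G W).card = 4 := by
    rw [Finset.inter_comm, Finset.card_sdiff_add_card_inter, hT]
  have h2 : (nbh G (W ∪ cmp G (insert v W)ᶜ a)).card ≤ 3 := by
    refine (Finset.card_le_card nbh_union_cmp).trans ((Finset.card_insert_le _ _).trans ?_)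
    omega
  have h3 : B ⊆ insert v (nbh G W \ cmp G (insert v W)ᶜ a) := by
    intro z hz
    rcases h.small (hW.mono Finset.subset_union_left) h2 z with h4 | h4
    · rw [Finset.mem_union] at h4
      rcases h4 with h4 | h4
      · exact absurd h4 (Finset.disjoint_left.1 hBW hz)
      · exact absurd h4 (Finset.disjoint_left.1 hB hz)
    · exact nbh_union_cmp h4
  by_contra hv
  have h5 : B ⊆ nbh G W \ cmp G (insert v W)ᶜ a := by
    intro z hz
    have := h3 hz
    rw [Finset.mem_insert] at this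
    exact this.resolve_left (fun hh => hv (hh ▸ hz))
  have := Finset.card_le_card h5
  omega

/-- two hubs that avoid `W` are not separated by `W` and one vertex -/
theorem theta (hA : Hub G A) (hB : Hub G B) (hAB : Disjoint A B) (hAW : Disjoint A W) (hBW : Disjoint B W)
    (ha : a ∈ A) (hb : b ∈ B) (hav : a ≠ v) (hbv : b ≠ v) : JN G (insert v W)ᶜ a b := by
  by_contra hno
  obtain ⟨hA1, hA2⟩ := theta_side h hW hT hA.card hAW (hA.del v) ha hav
  obtain ⟨hB1, hB2⟩ := theta_side h hW hT hB.card hBW (hB.del v) hb hbv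
  have hd := cmp_disj' hno
  have hvc : ∀ z, v ∉ cmp G (insert v W)ᶜ z := fun z hz =>
    Finset.mem_compl.1 (cmp_sub hz) (Finset.mem_insert_self _ _)
  have h1 : v ∈ B := by
    refine theta_other h hW hT hA2 hB.card hBW ?_
    rw [Finset.disjoint_left]
    intro z hz hz'
    by_cases hzv : z = v
    · subst hzv
      exact hvc _ hz'
    · exact Finset.disjoint_left.1 hd hz' (hB1 (Finset.mem_erase.2 ⟨hzv, hz⟩))
  have h2 : v ∈ A := by
    refine theta_other h hW hT hB2 hA.card hAW ?_
    rw [Finset.disjoint_left]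
    intro z hz hz'
    by_cases hzv : z = v
    · subst hzv
      exact hvc _ hz'
    · exact Finset.disjoint_left.1 hd (hA1 (Finset.mem_erase.2 ⟨hzv, hz⟩)) hz'
  exact Finset.disjoint_left.1 hAB h2 h1

/-- the shift lemma -/
theorem shift (hA : Hub G A) (hB : Hub G B) (hAB : Disjoint A B) (hAW : Disjoint A W) (hBW : Disjoint B W) :
    Hub G Wᶜ ∨ ∃ u v, u ∉ A ∧ u ∉ B ∧ u ∈ nbh G W ∧ v ∉ W ∧ v ≠ u ∧ nb G u ⊆ insert v W ∧
      (nbh G (insert u W)).card = 4 := by
  by_cases hall : ∀ v, Conn G (insert v W)ᶜ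
  · left
    have hAc : A ⊆ Wᶜ := by
      intro z hz
      exact Finset.mem_compl.2 (Finset.disjoint_left.1 hAW hz)
    refine ⟨hA.card.trans (Finset.card_le_card hAc), fun hb => hA.nbip (hb.mono hAc), ?_, ?_⟩
    · obtain ⟨w, hw⟩ := hW
      have := hall w
      rwa [Finset.insert_eq_of_mem hw] at this
    · intro x
      have := hall x
      rwa [Finset.compl_insert] at this
  · right
    push Not at hall
    obtain ⟨v, hv⟩ := hall
    obtain ⟨d, hd⟩ := (hA.del v).1
    rw [Finset.mem_erase] at hd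
    have hdS : d ∈ (insert v W)ᶜ := by
      rw [Finset.mem_compl, Finset.mem_insert, not_or]
      exact ⟨hd.1, Finset.disjoint_left.1 hAW hd.2⟩
    have hex : ∃ u ∈ (insert v W)ᶜ, ¬ JN G (insert v W)ᶜ d u := by
      by_contra hno
      push Not at hno
      exact hv ⟨⟨d, hdS⟩, fun a ha b hb => (hno a ha).symm.trans (hno b hb)⟩
    obtain ⟨u, huS, hu⟩ := hex
    have hUA : ∀ z ∈ cmp G (insert v W)ᶜ u, z ∉ A := by
      intro z hz hzA
      have hz' := mem_cmp.1 hz
      have hzv : z ≠ v := by
        rintro rfl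
        exact Finset.mem_compl.1 hz'.1 (Finset.mem_insert_self _ _)
      obtain ⟨hA1, _⟩ := theta_side h hW hT hA.card hAW (hA.del v) hd.2 hd.1
      have h1 := mem_cmp.1 (hA1 (Finset.mem_erase.2 ⟨hzv, hzA⟩))
      exact hu (h1.2.trans hz'.2.symm)
    have hUB : ∀ z ∈ cmp G (insert v W)ᶜ u, z ∉ B := by
      intro z hz hzB
      have hz' := mem_cmp.1 hz
      have hzv : z ≠ v := by
        rintro rfl
        exact Finset.mem_compl.1 hz'.1 (Finset.mem_insert_self _ _)
      exact hu ((theta h hW hT hA hB hAB hAW hBW hd.2 hzB hd.1 hzv).trans hz'.2.symm)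
    have huU : u ∈ cmp G (insert v W)ᶜ u := mem_cmp.2 ⟨huS, JN.refl huS⟩
    have hABc : 6 ≤ (A ∪ B).card := by
      rw [Finset.card_union_of_disjoint hAB]
      have := hA.card
      have := hB.card
      omega
    have hle : (cmp G (insert v W)ᶜ u ∩ nbh G W).card ≤ 1 := by
      by_contra hlt
      have h1 : (nbh G W \ cmp G (insert v W)ᶜ u).card + (cmp G (insert v W)ᶜ u ∩ nbh G W).card = 4 := by
        rw [Finset.inter_comm, Finset.card_sdiff_add_card_inter, hT]
      have h2 : (nbh G (W ∪ cmp G (insert v W)ᶜ u)).card ≤ 3 := by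
        refine (Finset.card_le_card nbh_union_cmp).trans ((Finset.card_insert_le _ _).trans ?_)
        omega
      have h3 : A ∪ B ⊆ nbh G (W ∪ cmp G (insert v W)ᶜ u) := by
        intro z hz
        rcases h.small (hW.mono Finset.subset_union_left) h2 z with h4 | h4
        · exfalso
          rw [Finset.mem_union] at h4 hz
          rcases h4 with h4 | h4
          · rcases hz with hz | hz
            · exact Finset.disjoint_left.1 hAW hz h4
            · exact Finset.disjoint_left.1 hBW hz h4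
          · rcases hz with hz | hz
            · exact hUA z h4 hz
            · exact hUB z h4 hz
        · exact h4
      have := Finset.card_le_card h3
      omega
    have hUT := cmp_sub_nbh h hW hle
    have hU1 : (cmp G (insert v W)ᶜ u).card ≤ 1 := by
      rwa [Finset.inter_eq_left.2 hUT] at hle
    have hUu : cmp G (insert v W)ᶜ u = {u} := by
      rw [Finset.card_le_one] at hU1
      ext z
      rw [Finset.mem_singleton]
      constructor
      · intro hz
        exact hU1 z hz u huU
      · rintro rfl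
        exact huU
    have huT : u ∈ nbh G W := hUT huU
    have hnu : nb G u ⊆ insert v W := by
      have := nbh_cmp_sub (G := G) (W := W) (v := v) (u := u)
      rwa [hUu, nbh_singleton_nb] at this
    have hsub : nbh G (insert u W) ⊆ insert v ((nbh G W).erase u) := by
      intro y hy
      rw [mem_nbh] at hy
      obtain ⟨hy1, x, hx, hxy⟩ := hy
      rw [Finset.mem_insert, not_or] at hy1
      rw [Finset.mem_insert, Finset.mem_erase]
      rw [Finset.mem_insert] at hx
      rcases hx with rfl | hx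
      · have := hnu (mem_nb.2 hxy)
        rw [Finset.mem_insert] at this
        exact Or.inl (this.resolve_right hy1.2)
      · exact Or.inr ⟨hy1.1, mem_nbh.2 ⟨hy1.2, x, hx, hxy⟩⟩
    have hc1 : (nbh G (insert u W)).card ≤ 4 := by
      refine (Finset.card_le_card hsub).trans ((Finset.card_insert_le _ _).trans ?_)
      rw [Finset.card_erase_of_mem huT, hT]
    have hc2 : 4 ≤ (nbh G (insert u W)).card := by
      by_contra hlt
      have h3 : A ∪ B ⊆ nbh G (insert u W) := by
        intro z hz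
        rcases h.small (Finset.insert_nonempty _ _) (by omega : (nbh G (insert u W)).card ≤ 3) z with h4 | h4
        · exfalso
          rw [Finset.mem_insert] at h4
          rw [Finset.mem_union] at hz
          rcases h4 with rfl | h4
          · rcases hz with hz | hz
            · exact hUA z huU hz
            · exact hUB z huU hz
          · rcases hz with hz | hz
            · exact Finset.disjoint_left.1 hAW hz h4
            · exact Finset.disjoint_left.1 hBW hz h4
        · exact h4
      have := Finset.card_le_card h3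
      omega
    have hvu : v ≠ u := by
      rintro rfl
      exact Finset.mem_compl.1 huS (Finset.mem_insert_self _ _)
    have hvW : v ∉ W := by
      intro hvW
      have h1 : nbh G (insert u W) ⊆ (nbh G W).erase u := by
        intro y hy
        have h2 := hsub hy
        rw [Finset.mem_insert] at h2
        rcases h2 with rfl | h2
        · exact absurd (Finset.mem_insert_of_mem hvW) (mem_nbh.1 hy).1
        · exact h2
      have := Finset.card_le_card h1
      rw [Finset.card_erase_of_mem huT, hT] at this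
      omega
    exact ⟨u, v, hUA u huU, hUB u huU, huT, hvW, hvu, hnu, le_antisymm hc1 hc2⟩

end Theta

end Pool.Agent.TOKSN
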