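import Mathlib
import Pool.Agent.TOKSN.Shift

/-!
# LINE N: tools for cells
-/

set_option autoImplicit false
set_option linter.unusedSectionVars false

namespace Pool.Agent.TOKSN

open Pool.Agent.TOKST (HasTOKS)
open Pool.Agent.TOKSP (nbh mem_nbh four_le_nbh)

variable {V : Type} [DecidableEq V] {G : SimpleGraph V} {S T U A B D D1 W X Y M H : Finset V}
  {a b c t t' u v w x y u₁ u₂ u₃ : V}

/-- connected after the deletion of any vertex, at least two vertices -/
structure TC (G : SimpleGraph V) (W : Finset V) : Prop where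
  two : 2 ≤ W.card
  conn : Conn G W
  del : ∀ x, Conn G (W.erase x)

theorem Hub.tc (h : Hub G W) : TC G W := ⟨by have := h.card; omega, h.conn, h.del⟩

theorem TC.insert (h : TC G W) (hx : x ∉ W) (ha : a ∈ W) (hb : b ∈ W) (hab : a ≠ b) (ea : G.Adj a x)
    (eb : G.Adj b x) : TC G (insert x W) := by
  refine ⟨?_, h.conn.insert ⟨a, ha, ea⟩, ?_⟩
  · rw [Finset.card_insert_of_notMem hx]
    have := h.two
    omega
  · intro y
    by_cases hy : y = x
    · subst hy
      rw [Finset.erase_insert hx]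
      exact h.conn
    · rw [Finset.erase_insert_of_ne (Ne.symm hy)]
      by_cases hya : y = a
      · exact (h.del y).insert ⟨b, Finset.mem_erase.2 ⟨fun hh => hab (by rw [← hya, hh]), hb⟩, eb⟩
      · exact (h.del y).insert ⟨a, Finset.mem_erase.2 ⟨fun hh => hya hh.symm, ha⟩, ea⟩

theorem TC.hub (h : TC G W) (hb : ¬ Bip G W) : Hub G W := by
  obtain ⟨C, hC, hodd⟩ := exists_oddCyc hb
  exact ⟨hodd.card_le.trans (Finset.card_le_card hC), hb, h.conn, h.del⟩

theorem Conn.adj_pair (h : Conn G {a, b}) (hab : a ≠ b) : G.Adj a b := by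
  obtain ⟨x, hx, hxX, y, hy, hyX, hxy⟩ := h.cross (a := a) (b := b) (X := {a}) (by simp) (by simp) (by simp)
    (by simpa using hab.symm)
  rw [Finset.mem_singleton] at hxX hyX
  rw [Finset.mem_insert, Finset.mem_singleton] at hy
  rcases hy with hy | hy
  · exact absurd hy hyX
  · rw [hxX, hy] at hxy
    exact hxy

theorem conn_star {Z : Finset V} (h : ∀ z ∈ Z, G.Adj z u) : Conn G (insert u Z) := by
  induction Z using Finset.induction_on with
  | empty => simpa using Conn.singleton G u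
  | insert z Z hz ih =>
    have h1 : insert u (insert z Z) = insert z (insert u Z) := Finset.insert_comm _ _ _
    rw [h1]
    exact (ih (fun y hy => h y (Finset.mem_insert_of_mem hy))).insert
      ⟨u, Finset.mem_insert_self _ _, (h z (Finset.mem_insert_self _ _)).symm⟩

/-- both classes of a connected bipartite set with two vertices are nonempty -/
theorem Conn.both {col : V → Bool} (h : Conn G W) (h2 : 2 ≤ W.card)
    (hcol : ∀ x ∈ W, ∀ y ∈ W, G.Adj x y → col x ≠ col y) :
    (∃ x ∈ W, col x = true) ∧ (∃ x ∈ W, col x = false) := by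
  obtain ⟨a, ha, b, hb, hab⟩ := Finset.one_lt_card.1 (show 1 < W.card by omega)
  obtain ⟨x, hx, hxX, y, hy, hyX, hxy⟩ := h.cross (a := a) (b := b) (X := {a}) ha (by simp) hb
    (by simpa using hab.symm)
  have h1 := hcol x hx y hy hxy
  cases hcx : col x
  · refine ⟨⟨y, hy, ?_⟩, x, hx, hcx⟩
    cases hcy : col y
    · exact absurd (hcx.trans hcy.symm) h1
    · rfl
  · refine ⟨⟨x, hx, hcx⟩, y, hy, ?_⟩
    cases hcy : col y
    · rfl
    · exact absurd (hcx.trans hcy.symm) h1

/-- a vertex that sees both classes of a connected bipartite set -/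
theorem not_bip_insert {col : V → Bool} (h : Conn G W)
    (hcol : ∀ x ∈ W, ∀ y ∈ W, G.Adj x y → col x ≠ col y) (hx : x ∈ W) (hy : y ∈ W) (hxy : col x ≠ col y)
    (ex : G.Adj x t) (ey : G.Adj y t) : ¬ Bip G (insert t W) := by
  rintro ⟨c, hc⟩
  obtain ⟨k, hk⟩ := h.2 x hx y hy
  have h1 := PI.bip hcol hk
  have h2 := PI.bip (fun a ha b hb => hc a (Finset.mem_insert_of_mem ha) b (Finset.mem_insert_of_mem hb)) hk
  have h3 := hc x (Finset.mem_insert_of_mem hx) t (Finset.mem_insert_self _ _) ex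
  have h4 := hc y (Finset.mem_insert_of_mem hy) t (Finset.mem_insert_self _ _) ey
  rw [h1] at h2
  cases hcx : c x <;> cases hcy : c y <;> cases hct : c t <;> cases h5 : col x <;> cases h6 : col y <;>
    simp_all

/-- an edge with two common neighbours in a hub -/
theorem toks_flex (hH : Hub G H) (hu : u ∉ H) (hv : v ∉ H) (ht : t ∈ H) (ht' : t' ∈ H) (htt : t ≠ t')
    (uv : G.Adj u v) (ut : G.Adj u t) (ut' : G.Adj u t') (vt : G.Adj v t) (vt' : G.Adj v t') :
    HasTOKS G := by
  obtain ⟨T, hTH, hT⟩ := hH.par ht ht' htt true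
  have huT : u ∉ T := fun h => hu (hTH h)
  have hvT : v ∉ T := fun h => hv (hTH h)
  have htT := hT.left_mem
  have htT' := hT.right_mem
  have h1 := uv.ne
  have h2 := ut.ne
  have h3 := ut'.ne
  have h4 := vt.ne
  have h5 := vt'.ne
  have e₀ : ∀ p q r : V, p ≠ q → p ≠ r → q ≠ r → ({p, q} : Finset V) ∩ {p, r} = {p} := by
    intro p q r h1 h2 h3
    ext z
    simp only [Finset.mem_inter, Finset.mem_insert, Finset.mem_singleton]
    constructor
    · rintro ⟨rfl | rfl, h | h⟩
      · rfl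
      · exact absurd h h2
      · exact absurd h.symm h1
      · exact absurd h h3
    · rintro rfl
      exact ⟨Or.inl rfl, Or.inl rfl⟩
  have e2₀ : ∀ p q : V, p ∉ T → q ∈ T → ({p, q} : Finset V) ∩ T = {q} := by
    intro p q h1 h2
    ext z
    simp only [Finset.mem_inter, Finset.mem_insert, Finset.mem_singleton]
    constructor
    · rintro ⟨rfl | rfl, h⟩
      · exact absurd h h1
      · rfl
    · rintro rfl
      exact ⟨Or.inr rfl, h2⟩
  have e3 : ∀ p q r s : V, p ≠ r → p ≠ s → q ≠ r → q ≠ s → Disjoint ({p, q} : Finset V) {r, s} := by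
    intro p q r s h1 h2 h3 h4
    rw [Finset.disjoint_left]
    intro z hz hz'
    simp only [Finset.mem_insert, Finset.mem_singleton] at hz hz'
    rcases hz with rfl | rfl <;> rcases hz' with h | h <;> contradiction
  have e := fun p q r h1 h2 h3 => (e₀ p q r h1 h2 h3).subset
  have e2 := fun p q h1 h2 => (e2₀ p q h1 h2).subset
  refine toks_mk (a := u) (b := v) (c := t) (d := t') (PX.edge uv) (PX.edge ut) (PX.edge ut') (PX.edge vt)
    (PX.edge vt') hT ?_ ?_ ?_ ?_ ?_ ?_ ?_ ?_ ?_ ?_ ?_ ?_ ?_ ?_ ?_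
  · rw [Finset.disjoint_left]
    intro z hz hz'
    simp only [Finset.mem_insert, Finset.mem_singleton] at hz
    rcases hz with rfl | rfl <;> contradiction
  · exact e3 _ _ _ _ h1 h3 h4.symm htt
  · exact e3 _ _ _ _ h1 h2 h5.symm htt.symm
  · exact e _ _ _ h1 h2 h4
  · exact e _ _ _ h1 h3 h5
  · exact e _ _ _ h2 h3 htt
  · rw [Finset.pair_comm u v]; exact e _ _ _ h1.symm h4 h2
  · rw [Finset.pair_comm u v]; exact e _ _ _ h1.symm h5 h3
  · exact e _ _ _ h4 h5 htt
  · rw [Finset.pair_comm u t, Finset.pair_comm v t]; exact e _ _ _ h2.symm h4.symm h1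
  · exact e2 _ _ huT htT
  · exact e2 _ _ hvT htT
  · rw [Finset.pair_comm u t', Finset.pair_comm v t']; exact e _ _ _ h3.symm h5.symm h1
  · exact e2 _ _ huT htT'
  · exact e2 _ _ hvT htT'

/-- a triangle outside a hub, two vertices with a common neighbour in the hub, the third with another -/
theorem toks_tri_hub (hH : Hub G H) (h₁ : u₁ ∉ H) (h₂ : u₂ ∉ H) (h₃ : u₃ ∉ H) (ht : t ∈ H) (ht' : t' ∈ H)
    (htt : t ≠ t') (e₁₂ : G.Adj u₁ u₂) (e₁₃ : G.Adj u₁ u₃) (e₂₃ : G.Adj u₂ u₃) (e₁ : G.Adj u₁ t)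
    (e₂ : G.Adj u₂ t) (e₃ : G.Adj u₃ t') : HasTOKS G := by
  obtain ⟨T, hTH, hT⟩ := hH.par ht' ht htt.symm false
  have hu : ∀ z, z ∉ H → z ∉ T := fun z hz h => hz (hTH h)
  have htT := hT.right_mem
  have hP : PX G (insert u₃ T) u₃ t true := by
    have := PX.cons e₃ hT (hu _ h₃)
    simpa using this
  have n12 := e₁₂.ne
  have n13 := e₁₃.ne
  have n23 := e₂₃.ne
  have n1 := e₁.ne
  have n2 := e₂.ne
  have n3 : u₃ ≠ t := fun h => h₃ (h ▸ ht)
  have g1 := hu _ h₁
  have g2 := hu _ h₂
  have g3 := hu _ h₃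
  have e₀ : ∀ p q r : V, p ≠ q → p ≠ r → q ≠ r → ({p, q} : Finset V) ∩ {p, r} = {p} := by
    intro p q r h1 h2 h3
    ext z
    simp only [Finset.mem_inter, Finset.mem_insert, Finset.mem_singleton]
    constructor
    · rintro ⟨rfl | rfl, h | h⟩
      · rfl
      · exact absurd h h2
      · exact absurd h.symm h1
      · exact absurd h h3
    · rintro rfl
      exact ⟨Or.inl rfl, Or.inl rfl⟩
  have e2₀ : ∀ (p q : V) (R : Finset V), p ∉ R → q ∈ R → ({p, q} : Finset V) ∩ R = {q} := by
    intro p q R h1 h2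
    ext z
    simp only [Finset.mem_inter, Finset.mem_insert, Finset.mem_singleton]
    constructor
    · rintro ⟨rfl | rfl, h⟩
      · exact absurd h h1
      · rfl
    · rintro rfl
      exact ⟨Or.inr rfl, h2⟩
  have e3 : ∀ p q r s : V, p ≠ r → p ≠ s → q ≠ r → q ≠ s → Disjoint ({p, q} : Finset V) {r, s} := by
    intro p q r s h1 h2 h3 h4
    rw [Finset.disjoint_left]
    intro z hz hz'
    simp only [Finset.mem_insert, Finset.mem_singleton] at hz hz'
    rcases hz with rfl | rfl <;> rcases hz' with h | h <;> contradiction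
  have k1 : u₁ ∉ insert u₃ T := by rw [Finset.mem_insert, not_or]; exact ⟨n13, g1⟩
  have k2 : u₂ ∉ insert u₃ T := by rw [Finset.mem_insert, not_or]; exact ⟨n23, g2⟩
  have k3 : u₃ ∈ insert u₃ T := Finset.mem_insert_self _ _
  have k4 : t ∈ insert u₃ T := Finset.mem_insert_of_mem htT
  have e := fun p q r h1 h2 h3 => (e₀ p q r h1 h2 h3).subset
  have e2 := fun p q R h1 h2 => (e2₀ p q R h1 h2).subset
  refine toks_mk (a := u₁) (b := u₂) (c := u₃) (d := t) (PX.edge e₁₂) (PX.edge e₁₃) (PX.edge e₁)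
    (PX.edge e₂₃) (PX.edge e₂) hP ?_ ?_ ?_ ?_ ?_ ?_ ?_ ?_ ?_ ?_ ?_ ?_ ?_ ?_ ?_
  · rw [Finset.disjoint_left]
    intro z hz hz'
    simp only [Finset.mem_insert, Finset.mem_singleton] at hz
    rcases hz with rfl | rfl <;> contradiction
  · exact e3 _ _ _ _ n12 n1 n23.symm n3
  · exact e3 _ _ _ _ n12 n13 n2.symm n3.symm
  · exact e _ _ _ n12 n13 n23
  · exact e _ _ _ n12 n1 n2
  · exact e _ _ _ n13 n1 n3
  · rw [Finset.pair_comm u₁ u₂]; exact e _ _ _ n12.symm n23 n13
  · rw [Finset.pair_comm u₁ u₂]; exact e _ _ _ n12.symm n2 n1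
  · exact e _ _ _ n23 n2 n3
  · rw [Finset.pair_comm u₁ u₃, Finset.pair_comm u₂ u₃]; exact e _ _ _ n13.symm n23.symm n12
  · exact e2 _ _ _ k1 k3
  · exact e2 _ _ _ k2 k3
  · rw [Finset.pair_comm u₁ t, Finset.pair_comm u₂ t]; exact e _ _ _ n1.symm n2.symm n12
  · exact e2 _ _ _ k1 k4
  · exact e2 _ _ _ k2 k4

variable [Fintype V]

/-- two mixed terminals -/
theorem two_mixed (h : Good G) {col : V → Bool} (hcol : ∀ x ∈ S, ∀ y ∈ S, G.Adj x y → col x ≠ col y)
    (hN : (nbh G S).card ≤ 4) (hT : ∃ x ∈ S, col x = true) (hF : ∃ x ∈ S, col x = false) :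
    ∃ t t', t ≠ t' ∧ t ∈ nbh G S ∧ t' ∈ nbh G S ∧ (∀ k, ∃ x ∈ S, col x = k ∧ G.Adj x t) ∧
      (∀ k, ∃ x ∈ S, col x = k ∧ G.Adj x t') := by
  classical
  have key : ∀ k : Bool, (∃ x ∈ S, col x = k) → (S.filter (fun x => col x = k)).card + 3 ≤
      (S.filter (fun x => col x = !k)).card +
        ((nbh G S).filter (fun t => ∃ x ∈ S, col x = k ∧ G.Adj x t)).card := by
    intro k hk
    obtain ⟨x0, hx0, hx0k⟩ := hk
    have h1 := h.n3 (S.filter (fun x => col x = k)) ⟨x0, Finset.mem_filter.2 ⟨hx0, hx0k⟩⟩ (by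
      intro x hx y hy hxy
      rw [Finset.mem_filter] at hx hy
      exact hcol x hx.1 y hy.1 hxy (hx.2.trans hy.2.symm))
    refine h1.trans ((Finset.card_le_card ?_).trans (Finset.card_union_le _ _))
    intro y hy
    rw [mem_nbh] at hy
    obtain ⟨hy1, x, hx, hxy⟩ := hy
    rw [Finset.mem_filter] at hx
    rw [Finset.mem_union, Finset.mem_filter, Finset.mem_filter]
    by_cases hyS : y ∈ S
    · left
      refine ⟨hyS, ?_⟩
      have := hcol x hx.1 y hyS hxy
      rw [hx.2] at this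
      cases k <;> cases hc : col y <;> simp_all
    · right
      exact ⟨mem_nbh.2 ⟨hyS, x, hx.1, hxy⟩, x, hx.1, hx.2, hxy⟩
  have k1 := key true hT
  have k2 := key false hF
  simp only [Bool.not_true, Bool.not_false] at k1 k2
  have h3 : (((nbh G S).filter (fun t => ∃ x ∈ S, col x = true ∧ G.Adj x t)) ∪
      ((nbh G S).filter (fun t => ∃ x ∈ S, col x = false ∧ G.Adj x t))).card ≤ 4 :=
    (Finset.card_le_card (Finset.union_subset (Finset.filter_subset _ _) (Finset.filter_subset _ _))).trans hN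
  have h4 := Finset.card_union_add_card_inter ((nbh G S).filter (fun t => ∃ x ∈ S, col x = true ∧ G.Adj x t))
      ((nbh G S).filter (fun t => ∃ x ∈ S, col x = false ∧ G.Adj x t))
  obtain ⟨t, ht, t', ht', htt⟩ := Finset.one_lt_card.1 (show 1 <
    (((nbh G S).filter (fun t => ∃ x ∈ S, col x = true ∧ G.Adj x t)) ∩
      ((nbh G S).filter (fun t => ∃ x ∈ S, col x = false ∧ G.Adj x t))).card by omega)
  rw [Finset.mem_inter, Finset.mem_filter, Finset.mem_filter] at ht ht'
  refine ⟨t, t', htt, ht.1.1, ht'.1.1, ?_, ?_⟩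
  · intro k
    cases k
    · exact ht.2.2
    · exact ht.1.2
  · intro k
    cases k
    · exact ht'.2.2
    · exact ht'.1.2

theorem nbh_cmp_sdiff2 : nbh G (cmp G (insert v (insert t X))ᶜ u \ nbh G X) ⊆
    (cmp G (insert v (insert t X))ᶜ u ∩ nbh G X) ∪ (({v, t} : Finset V) \ X) := by
  intro y hy
  rw [mem_nbh] at hy
  obtain ⟨hy1, x, hx, hxy⟩ := hy
  rw [Finset.mem_sdiff] at hx
  rw [Finset.mem_union, Finset.mem_inter, Finset.mem_sdiff, Finset.mem_insert, Finset.mem_singleton]
  by_cases hyU : y ∈ cmp G (insert v (insert t X))ᶜ u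
  · left
    refine ⟨hyU, ?_⟩
    by_contra hyT
    exact hy1 (Finset.mem_sdiff.2 ⟨hyU, hyT⟩)
  · right
    have h1 : y ∈ insert v (insert t X) := nbh_cmp_sub (mem_nbh.2 ⟨hyU, x, hx.1, hxy⟩)
    have hyX : y ∉ X := by
      intro hyX
      apply hx.2
      refine mem_nbh.2 ⟨?_, y, hyX, hxy.symm⟩
      intro hxX
      have := Finset.mem_compl.1 (cmp_sub hx.1)
      exact this (Finset.mem_insert_of_mem (Finset.mem_insert_of_mem hxX))
    rw [Finset.mem_insert, Finset.mem_insert] at h1
    rcases h1 with h1 | h1 | h1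
    · exact ⟨Or.inl h1, hyX⟩
    · exact ⟨Or.inr h1, hyX⟩
    · exact absurd h1 hyX

/-- the complement of `X + t` is a hub if no vertex of `N(X) - t` is a pendant -/
theorem compl_hub (h : Good G) (hXne : X.Nonempty) (hX4 : (nbh G X).card = 4) (ht : t ∈ nbh G X)
    (hB : Hub G B) (hBX : Disjoint B X) (htB : t ∉ B)
    (hno : ∀ a ∈ nbh G X, a ≠ t → ∀ v', ¬ nb G a ⊆ insert v' (insert t X)) : Hub G (insert t X)ᶜ := by
  have hBc : B ⊆ (insert t X)ᶜ := by
    intro z hz
    rw [Finset.mem_compl, Finset.mem_insert, not_or]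
    exact ⟨fun hh => htB (hh ▸ hz), Finset.disjoint_left.1 hBX hz⟩
  obtain ⟨w, hw⟩ := hXne
  have hcomp : ∀ v u, u ∈ (insert v (insert t X))ᶜ →
      2 ≤ (cmp G (insert v (insert t X))ᶜ u ∩ nbh G X).card := by
    intro v u hu
    by_contra hlt
    have huU : u ∈ cmp G (insert v (insert t X))ᶜ u := mem_cmp.2 ⟨hu, JN.refl hu⟩
    by_cases hsub : cmp G (insert v (insert t X))ᶜ u ⊆ nbh G X
    · rw [Finset.inter_eq_left.2 hsub] at hlt
      have hUu : cmp G (insert v (insert t X))ᶜ u = {u} := by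
        have hU1 := Finset.card_le_one.1 (show (cmp G (insert v (insert t X))ᶜ u).card ≤ 1 by omega)
        ext z
        rw [Finset.mem_singleton]
        constructor
        · intro hz
          exact hU1 z hz u huU
        · rintro rfl
          exact huU
      have h1 := nbh_cmp_sub (G := G) (W := insert t X) (v := v) (u := u)
      rw [hUu, nbh_singleton_nb] at h1
      refine hno u (hsub huU) ?_ v h1
      rintro rfl
      exact Finset.mem_compl.1 hu (Finset.mem_insert_of_mem (Finset.mem_insert_self _ _))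
    · have hne : (cmp G (insert v (insert t X))ᶜ u \ nbh G X).Nonempty := by
        rw [Finset.sdiff_nonempty]
        exact hsub
      have h4 := h.four hne nbh_cmp_sdiff2 (w := w) (by
        rw [Finset.mem_sdiff]
        rintro ⟨h2, _⟩
        exact Finset.mem_compl.1 (cmp_sub h2) (Finset.mem_insert_of_mem (Finset.mem_insert_of_mem hw))) (by
        rw [Finset.mem_union, Finset.mem_inter, Finset.mem_sdiff]
        rintro (h2 | h2)
        · exact (mem_nbh.1 h2.2).1 hw
        · exact h2.2 hw)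
      have h5 := Finset.card_union_le (cmp G (insert v (insert t X))ᶜ u ∩ nbh G X) (({v, t} : Finset V) \ X)
      have h6 : (({v, t} : Finset V) \ X).card ≤ 2 :=
        (Finset.card_le_card Finset.sdiff_subset).trans Finset.card_le_two
      omega
  have hconn : ∀ v, Conn G (insert v (insert t X))ᶜ := by
    intro v
    refine ⟨?_, ?_⟩
    · obtain ⟨z, hz⟩ := (hB.del v).1
      rw [Finset.mem_erase] at hz
      refine ⟨z, ?_⟩
      rw [Finset.mem_compl, Finset.mem_insert, not_or]
      exact ⟨hz.1, Finset.mem_compl.1 (hBc hz.2)⟩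
    · intro a ha b hb
      by_contra hab
      have h1 := hcomp v a ha
      have h2 := hcomp v b hb
      have hd := cmp_disj' hab
      have h3 : (cmp G (insert v (insert t X))ᶜ a ∩ nbh G X) ∪
          (cmp G (insert v (insert t X))ᶜ b ∩ nbh G X) ⊆ (nbh G X).erase t := by
        intro z hz
        rw [Finset.mem_union, Finset.mem_inter, Finset.mem_inter] at hz
        rw [Finset.mem_erase]
        have hzt : ∀ r, z ∈ cmp G (insert v (insert t X))ᶜ r → z ≠ t := by
          rintro r hz rfl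
          exact Finset.mem_compl.1 (cmp_sub hz) (Finset.mem_insert_of_mem (Finset.mem_insert_self _ _))
        rcases hz with hz | hz
        · exact ⟨hzt _ hz.1, hz.2⟩
        · exact ⟨hzt _ hz.1, hz.2⟩
      have h4 := Finset.card_le_card h3
      rw [Finset.card_erase_of_mem ht, hX4, Finset.card_union_of_disjoint (by
        rw [Finset.disjoint_left] at hd ⊢
        intro z hz hz'
        exact hd (Finset.mem_inter.1 hz).1 (Finset.mem_inter.1 hz').1)] at h4
      omega
  refine ⟨hB.card.trans (Finset.card_le_card hBc), fun hb => hB.nbip (hb.mono hBc), ?_, ?_⟩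
  · have := hconn w
    rwa [Finset.insert_eq_of_mem (Finset.mem_insert_of_mem hw)] at this
  · intro x
    have := hconn x
    rwa [Finset.compl_insert] at this

end Pool.Agent.TOKSN
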