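import Mathlib
import Pool.Agent.TOKSN.Cells

/-!
# LINE N: no 2-connected 4-cut piece inside `P`
-/

set_option autoImplicit false
set_option linter.unusedSectionVars false

namespace Pool.Agent.TOKSN

open Pool.Agent.TOKST (HasTOKS)
open Pool.Agent.TOKSP (nbh mem_nbh four_le_nbh)

variable {V : Type} [DecidableEq V] [Fintype V] {G : SimpleGraph V} {S T U A B D D1 W X Y M H : Finset V}
  {a b c t t' u v w x y r : V}

/-- two neighbours in a hub -/
theorem Hub.two_nb (h : Hub G A) (hr : r ∈ A) : 2 ≤ (nb G r ∩ A).card := by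
  have h1 := two_le_inter h (W := {r}) (by simpa using hr) (by simp) (by
    have := h.card
    have h2 := Finset.card_sdiff_add_card_inter A {r}
    have h3 : (A ∩ {r}).card ≤ 1 := (Finset.card_le_card Finset.inter_subset_right).trans (by simp)
    omega)
  rwa [nbh_singleton_nb] at h1

namespace Cov

variable (h : Cov G D D1)
include h

theorem disj1 (hW : W ⊆ D \ D1) : Disjoint D1 W := by
  rw [Finset.disjoint_left]
  intro z hz hz'
  exact (Finset.mem_sdiff.1 (hW hz')).2 hz

theorem disj3 (hW : W ⊆ D \ D1) : Disjoint Dᶜ W := by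
  rw [Finset.disjoint_left]
  intro z hz hz'
  exact Finset.mem_compl.1 hz (Finset.mem_sdiff.1 (hW hz')).1

theorem disj13 : Disjoint D1 Dᶜ := by
  rw [Finset.disjoint_left]
  intro z hz hz'
  exact Finset.mem_compl.1 hz' (h.sub.1 hz)

theorem mem_P (h1 : u ∉ D1) (h3 : u ∉ Dᶜ) : u ∈ D \ D1 := by
  rw [Finset.mem_sdiff]
  exact ⟨by simpa using h3, h1⟩

theorem card_six : 6 ≤ (D1 ∪ Dᶜ).card := by
  rw [Finset.card_union_of_disjoint h.disj13]
  have := h.mem1.1.card
  have := h.mem0.2.card
  omega

theorem card_D : (D \ D1).card + D1.card = D.card := Finset.card_sdiff_add_card_eq_card h.sub.1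

/-- at most two terminals in each hub -/
theorem le_two (hW : W ⊆ D \ D1) (hne : W.Nonempty) (h4 : (nbh G W).card = 4) :
    (nbh G W ∩ D1).card ≤ 2 ∧ (nbh G W ∩ Dᶜ).card ≤ 2 := by
  have hWD : W ⊆ D := hW.trans Finset.sdiff_subset
  have h3 := h.mem1.1.card
  have h3' := h.mem0.2.card
  constructor
  · have h1 := two_le_inter h.mem1.2 (W := W) (fun z hz => Finset.mem_compl.2 (Finset.mem_sdiff.1 (hW hz)).2) hne (by
      have : Dᶜ ⊆ D1ᶜ \ W := by
        intro z hz
        rw [Finset.mem_sdiff, Finset.mem_compl]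
        exact ⟨fun hh => Finset.disjoint_left.1 h.disj13 hh hz, fun hh => Finset.disjoint_left.1 (h.disj3 hW) hz hh⟩
      have := Finset.card_le_card this
      omega)
    have h2 := Finset.card_inter_add_card_sdiff (nbh G W) D1
    have h5 : nbh G W \ D1 = nbh G W ∩ D1ᶜ := by
      ext z; simp
    rw [h5] at h2
    omega
  · have h1 := two_le_inter h.mem0.1 (W := W) hWD hne (by
      have : D1 ⊆ D \ W := by
        intro z hz
        rw [Finset.mem_sdiff]
        exact ⟨h.sub.1 hz, Finset.disjoint_left.1 (h.disj1 hW) hz⟩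
      have := Finset.card_le_card this
      omega)
    have h2 := Finset.card_inter_add_card_sdiff (nbh G W) D
    have h5 : nbh G W \ D = nbh G W ∩ Dᶜ := by
      ext z; simp
    rw [h5] at h2
    omega

/-- a set with at most one vertex outside `P` and at most four neighbours has four -/
theorem card_four (hne : X.Nonempty) (hX : (X ∩ (D1 ∪ Dᶜ)).card ≤ 1) (h4 : (nbh G X).card ≤ 4) :
    (nbh G X).card = 4 := by
  refine le_antisymm h4 ?_
  by_contra hlt
  have h1 : (D1 ∪ Dᶜ) \ X ⊆ nbh G X := by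
    intro z hz
    rw [Finset.mem_sdiff] at hz
    exact (h.good.small hne (by omega) z).resolve_left hz.2
  have h2 := Finset.card_le_card h1
  have h3 := Finset.card_sdiff_add_card_inter (D1 ∪ Dᶜ) X
  rw [Finset.inter_comm] at h3
  have := h.card_six
  omega

/-- no hub with four neighbours inside `P` -/
theorem no_hub_cell (hW : W ⊆ D \ D1) (h1 : Hub G W) (h2 : Hub G Wᶜ) (h4 : (nbh G W).card = 4) : False := by
  have hcard : W.card < D.card := by
    have := Finset.card_le_card hW
    have := h.card_D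
    have := h.mem1.1.card
    omega
  have hchi := h.min0 W ⟨h1, h2⟩ hcard
  have hle := chi_le h.good W
  obtain ⟨d, hd⟩ : D1.Nonempty := by
    rw [← Finset.card_pos]
    have := h.mem1.1.card
    omega
  have hdW : d ∉ W := Finset.disjoint_left.1 (h.disj1 hW) hd
  have hW3 : W.card = 3 := by
    have h3 := h1.card
    by_contra hne
    have := four_le_bd h.good (M := W) (by omega) hdW
    omega
  obtain ⟨u₁, u₂, u₃, n12, n13, n23, hWe⟩ := Finset.card_eq_three.1 hW3
  have m1 : u₁ ∈ W := by rw [hWe]; simp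
  have m2 : u₂ ∈ W := by rw [hWe]; simp
  have m3 : u₃ ∈ W := by rw [hWe]; simp
  have e12 : G.Adj u₁ u₂ := by
    have := h1.del u₃
    have hh : W.erase u₃ = {u₁, u₂} := by
      rw [hWe]; ext z; simp only [Finset.mem_erase, Finset.mem_insert, Finset.mem_singleton]
      constructor
      · rintro ⟨hz, h | h | h⟩
        · exact Or.inl h
        · exact Or.inr h
        · exact absurd h hz
      · rintro (rfl | rfl)
        · exact ⟨n13, Or.inl rfl⟩
        · exact ⟨n23, Or.inr (Or.inl rfl)⟩
    rw [hh] at this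
    exact this.adj_pair n12
  have e13 : G.Adj u₁ u₃ := by
    have := h1.del u₂
    have hh : W.erase u₂ = {u₁, u₃} := by
      rw [hWe]; ext z; simp only [Finset.mem_erase, Finset.mem_insert, Finset.mem_singleton]
      constructor
      · rintro ⟨hz, h | h | h⟩
        · exact Or.inl h
        · exact absurd h hz
        · exact Or.inr h
      · rintro (rfl | rfl)
        · exact ⟨n12, Or.inl rfl⟩
        · exact ⟨n23.symm, Or.inr (Or.inr rfl)⟩
    rw [hh] at this
    exact this.adj_pair n13
  have e23 : G.Adj u₂ u₃ := by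
    have := h1.del u₁
    have hh : W.erase u₁ = {u₂, u₃} := by
      rw [hWe]; ext z; simp only [Finset.mem_erase, Finset.mem_insert, Finset.mem_singleton]
      constructor
      · rintro ⟨hz, h | h | h⟩
        · exact absurd h hz
        · exact Or.inl h
        · exact Or.inr h
      · rintro (rfl | rfl)
        · exact ⟨n12.symm, Or.inr (Or.inl rfl)⟩
        · exact ⟨n13.symm, Or.inr (Or.inr rfl)⟩
    rw [hh] at this
    exact this.adj_pair n23
  -- at least two terminals at each vertex
  have hN : ∀ z ∈ W, 2 ≤ (nb G z ∩ nbh G W).card := by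
    intro z hz
    have h5 := four_le_deg h.good z
    have h6 : nb G z ⊆ (W.erase z) ∪ (nb G z ∩ nbh G W) := by
      intro y hy
      have h7 := nb_sub hz hy
      rw [Finset.mem_union] at h7 ⊢
      rcases h7 with h7 | h7
      · exact Or.inl (Finset.mem_erase.2 ⟨(mem_nb.1 hy).ne', h7⟩)
      · exact Or.inr (Finset.mem_inter.2 ⟨hy, h7⟩)
    have h8 := (Finset.card_le_card h6).trans (Finset.card_union_le _ _)
    rw [Finset.card_erase_of_mem hz] at h8
    omega
  have hTc : ∀ t ∈ nbh G W, t ∈ Wᶜ := fun t ht => Finset.mem_compl.2 (mem_nbh.1 ht).1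
  have hWc : ∀ z ∈ W, z ∉ Wᶜ := fun z hz => by simpa using hz
  -- a common terminal of two vertices
  have fin : ∀ p q s : V, p ∈ W → q ∈ W → s ∈ W → G.Adj p q → G.Adj p s → G.Adj q s →
      ((nb G p ∩ nbh G W) ∩ (nb G q ∩ nbh G W)).Nonempty → HasTOKS G := by
    intro p q s hp hq hs epq eps eqs hne
    obtain ⟨t, ht⟩ := hne
    rw [Finset.mem_inter, Finset.mem_inter, Finset.mem_inter, mem_nb, mem_nb] at ht
    obtain ⟨t', ht', htt⟩ := Finset.exists_mem_ne (show 1 < (nb G s ∩ nbh G W).card by have := hN s hs; omega) t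
    rw [Finset.mem_inter, mem_nb] at ht'
    exact toks_tri_hub h2 (hWc p hp) (hWc q hq) (hWc s hs) (hTc t ht.1.2) (hTc t' ht'.2) htt.symm epq eps eqs
      ht.1.1 ht.2.1 ht'.1
  apply h.good.nt
  by_cases c12 : ((nb G u₁ ∩ nbh G W) ∩ (nb G u₂ ∩ nbh G W)).Nonempty
  · exact fin _ _ _ m1 m2 m3 e12 e13 e23 c12
  by_cases c13 : ((nb G u₁ ∩ nbh G W) ∩ (nb G u₃ ∩ nbh G W)).Nonempty
  · exact fin _ _ _ m1 m3 m2 e13 e12 e23.symm c13
  by_cases c23 : ((nb G u₂ ∩ nbh G W) ∩ (nb G u₃ ∩ nbh G W)).Nonempty
  · exact fin _ _ _ m2 m3 m1 e23 e12.symm e13.symm c23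
  exfalso
  rw [Finset.not_nonempty_iff_eq_empty, ← Finset.disjoint_iff_inter_eq_empty] at c12 c13 c23
  have h5 : ((nb G u₁ ∩ nbh G W) ∪ (nb G u₂ ∩ nbh G W) ∪ (nb G u₃ ∩ nbh G W)).card ≤ 4 := by
    rw [← h4]
    apply Finset.card_le_card
    refine Finset.union_subset (Finset.union_subset ?_ ?_) ?_ <;> exact Finset.inter_subset_right
  rw [Finset.card_union_of_disjoint (Finset.disjoint_union_left.2 ⟨c13, c23⟩),
    Finset.card_union_of_disjoint c12] at h5
  have := hN _ m1
  have := hN _ m2
  have := hN _ m3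
  omega

/-- a pendant terminal is not in `P` if `W` is maximal -/
theorem pend_notP (hW : W ⊆ D \ D1) (hTC : TC G W) (h4 : (nbh G W).card = 4)
    (hmax : ∀ u ∈ D \ D1, u ∉ W → TC G (insert u W) → (nbh G (insert u W)).card = 4 → False)
    (hr : r ∈ nbh G W) (hN : nb G r ⊆ insert v (insert t W)) (ht : t ∈ nbh G W) (hrt : r ≠ t) :
    r ∉ D \ D1 := by
  intro hrP
  have hrW : r ∉ W := (mem_nbh.1 hr).1
  have hdeg := four_le_deg h.good r
  have h1 : nb G r ⊆ (nb G r ∩ W) ∪ {v, t} := by
    intro z hz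
    have := hN hz
    rw [Finset.mem_insert, Finset.mem_insert] at this
    rw [Finset.mem_union, Finset.mem_inter, Finset.mem_insert, Finset.mem_singleton]
    rcases this with h1 | h1 | h1
    · exact Or.inr (Or.inl h1)
    · exact Or.inr (Or.inr h1)
    · exact Or.inl ⟨hz, h1⟩
  have h2 := (Finset.card_le_card h1).trans (Finset.card_union_le _ _)
  have h3 : ({v, t} : Finset V).card ≤ 2 := Finset.card_le_two
  obtain ⟨a, ha, b, hb, hab⟩ := Finset.one_lt_card.1 (show 1 < (nb G r ∩ W).card by omega)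
  rw [Finset.mem_inter, mem_nb] at ha hb
  refine hmax r hrP hrW (hTC.insert hrW ha.2 hb.2 hab ha.1.symm hb.1.symm) ?_
  apply h.card_four (Finset.insert_nonempty _ _)
  · have h5 : insert r W ∩ (D1 ∪ Dᶜ) = ∅ := by
      rw [Finset.eq_empty_iff_forall_notMem]
      intro z hz
      rw [Finset.mem_inter, Finset.mem_insert, Finset.mem_union] at hz
      have hzP : z ∈ D \ D1 := by
        rcases hz.1 with rfl | h6
        · exact hrP
        · exact hW h6
      rw [Finset.mem_sdiff] at hzP
      rcases hz.2 with h6 | h6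
      · exact hzP.2 h6
      · exact Finset.mem_compl.1 h6 hzP.1
    rw [h5]
    simp
  · have h5 : nbh G (insert r W) ⊆ insert v ((nbh G W).erase r) := by
      intro y hy
      rw [mem_nbh] at hy
      obtain ⟨hy1, x, hx, hxy⟩ := hy
      rw [Finset.mem_insert, not_or] at hy1
      rw [Finset.mem_insert, Finset.mem_erase]
      rw [Finset.mem_insert] at hx
      rcases hx with rfl | hx
      · have := hN (mem_nb.2 hxy)
        rw [Finset.mem_insert, Finset.mem_insert] at this
        rcases this with h6 | h6 | h6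
        · exact Or.inl h6
        · exact Or.inr ⟨hy1.1, h6 ▸ ht⟩
        · exact absurd h6 hy1.2
      · exact Or.inr ⟨hy1.1, mem_nbh.2 ⟨hy1.2, x, hx, hxy⟩⟩
    refine (Finset.card_le_card h5).trans ((Finset.card_insert_le _ _).trans ?_)
    rw [Finset.card_erase_of_mem hr, h4]

omit h in
/-- a pendant terminal in a hub -/
theorem pend_hub (hA : Hub G A) (hAW : Disjoint A W) (hr : r ∈ A) (hN : nb G r ⊆ insert v (insert t W)) :
    t ∈ A ∧ v ∈ A ∧ v ≠ t ∧ G.Adj r t ∧ G.Adj r v := by
  have h1 := hA.two_nb hr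
  have h2 : nb G r ∩ A ⊆ {v, t} := by
    intro z hz
    rw [Finset.mem_inter] at hz
    have := hN hz.1
    rw [Finset.mem_insert, Finset.mem_insert] at this
    rw [Finset.mem_insert, Finset.mem_singleton]
    rcases this with h3 | h3 | h3
    · exact Or.inl h3
    · exact Or.inr h3
    · exact absurd h3 (Finset.disjoint_left.1 hAW hz.2)
  have h3 : nb G r ∩ A = {v, t} := Finset.eq_of_subset_of_card_le h2 (Finset.card_le_two.trans h1)
  have h4 : v ∈ nb G r ∩ A := by rw [h3]; simp
  have h5 : t ∈ nb G r ∩ A := by rw [h3]; simp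
  rw [Finset.mem_inter, mem_nb] at h4 h5
  refine ⟨h5.2, h4.2, ?_, h5.1, h4.1⟩
  rintro rfl
  rw [h3] at h1
  simp at h1

end Cov

end Pool.Agent.TOKSN
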