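import Mathlib
import Pool.Agent.TOKSN.LemmaA

/-!
# LINE N: no 2-connected 4-cut piece inside `P` (continued)
-/

set_option autoImplicit false
set_option linter.unusedSectionVars false

namespace Pool.Agent.TOKSN

open Pool.Agent.TOKST (HasTOKS)
open Pool.Agent.TOKSP (nbh mem_nbh four_le_nbh)

variable {V : Type} [DecidableEq V] [Fintype V] {G : SimpleGraph V} {S T U A B D D1 W X Y M H : Finset V}
  {a b c t t' u v w x y r : V}

namespace Cov

variable (h : Cov G D D1)
include h

/-- there is no pendant terminal next to a mixed terminal -/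
theorem no_pend_aux (hW : W ⊆ D \ D1) (hTC : TC G W) (h4 : (nbh G W).card = 4)
    (hmax : ∀ u ∈ D \ D1, u ∉ W → TC G (insert u W) → (nbh G (insert u W)).card = 4 → False)
    (ht : t ∈ nbh G W) (hMb : ¬ Bip G (insert t W)) (hM : TC G (insert t W))
    (htW : 2 ≤ (nb G t ∩ W).card)
    (hA : Hub G A) (hB : Hub G B) (hAB : Disjoint A B) (hAW : Disjoint A W) (hBW : Disjoint B W)
    (hABu : A ∪ B = D1 ∪ Dᶜ) (hA2 : (nbh G W ∩ A).card ≤ 2)
    (hr : r ∈ nbh G W) (hrA : r ∈ A) (hrt : r ≠ t) (hN : nb G r ⊆ insert v (insert t W)) : False := by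
  obtain ⟨htA, hvA, hvt, ert, erv⟩ := pend_hub hA hAW hrA hN
  have hrW : r ∉ W := (mem_nbh.1 hr).1
  have htW' : t ∉ W := (mem_nbh.1 ht).1
  have hWne : W.Nonempty := hTC.conn.1
  have hvW : v ∉ W := Finset.disjoint_left.1 hAW hvA
  -- the neighbourhood of `W + r`
  have hsub : nbh G (insert r W) ⊆ insert v ((nbh G W).erase r) := by
    intro y hy
    rw [mem_nbh] at hy
    obtain ⟨hy1, x, hx, hxy⟩ := hy
    rw [Finset.mem_insert, not_or] at hy1
    rw [Finset.mem_insert, Finset.mem_erase]
    rw [Finset.mem_insert] at hx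
    rcases hx with rfl | hx
    · have := hN (mem_nb.2 hxy)
      rw [Finset.mem_insert, Finset.mem_insert] at this
      rcases this with h6 | h6 | h6
      · exact Or.inl h6
      · exact Or.inr ⟨hy1.1, h6 ▸ ht⟩
      · exact absurd h6 hy1.2
    · exact Or.inr ⟨hy1.1, mem_nbh.2 ⟨hy1.2, x, hx, hxy⟩⟩
  have hXs : insert r W ∩ (D1 ∪ Dᶜ) ⊆ {r} := by
    intro z hz
    rw [Finset.mem_inter, Finset.mem_insert, Finset.mem_union] at hz
    rw [Finset.mem_singleton]
    rcases hz.1 with h6 | h6
    · exact h6
    · exfalso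
      have h7 := Finset.mem_sdiff.1 (hW h6)
      rcases hz.2 with h8 | h8
      · exact h7.2 h8
      · exact Finset.mem_compl.1 h8 h7.1
  have hX4 : (nbh G (insert r W)).card = 4 := by
    apply h.card_four (Finset.insert_nonempty _ _)
    · exact (Finset.card_le_card hXs).trans (by simp)
    · refine (Finset.card_le_card hsub).trans ((Finset.card_insert_le _ _).trans ?_)
      rw [Finset.card_erase_of_mem hr, h4]
  have hvT : v ∉ nbh G W := by
    intro hvT
    have h5 : insert v ((nbh G W).erase r) = (nbh G W).erase r :=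
      Finset.insert_eq_of_mem (Finset.mem_erase.2 ⟨erv.ne', hvT⟩)
    rw [h5] at hsub
    have := Finset.card_le_card hsub
    rw [Finset.card_erase_of_mem hr, h4, hX4] at this
    omega
  have htX : t ∈ nbh G (insert r W) := by
    obtain ⟨_, x, hx, hxt⟩ := mem_nbh.1 ht
    refine mem_nbh.2 ⟨?_, x, Finset.mem_insert_of_mem hx, hxt⟩
    rw [Finset.mem_insert, not_or]
    exact ⟨hrt.symm, htW'⟩
  have hBX : Disjoint B (insert r W) := by
    rw [Finset.disjoint_insert_right]
    exact ⟨Finset.disjoint_left.1 hAB hrA, hBW⟩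
  have htB : t ∉ B := Finset.disjoint_left.1 hAB htA
  have hno : ∀ a ∈ nbh G (insert r W), a ≠ t → ∀ v', ¬ nb G a ⊆ insert v' (insert t (insert r W)) := by
    intro a ha hat v' hNa
    have ha1 := hsub ha
    have hdeg := four_le_deg h.good a
    rw [Finset.mem_insert] at ha1
    by_cases hav : a = v
    · subst hav
      have h5 : nb G a ⊆ {v', t, r} := by
        intro z hz
        have := hNa hz
        rw [Finset.mem_insert, Finset.mem_insert, Finset.mem_insert] at this
        rw [Finset.mem_insert, Finset.mem_insert, Finset.mem_singleton]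
        rcases this with h6 | h6 | h6 | h6
        · exact Or.inl h6
        · exact Or.inr (Or.inl h6)
        · exact Or.inr (Or.inr h6)
        · exact absurd (mem_nbh.2 ⟨hvW, z, h6, (mem_nb.1 hz).symm⟩) hvT
      have h6 := Finset.card_le_card h5
      have h7 : ({v', t, r} : Finset V).card ≤ 3 := Finset.card_le_three
      omega
    · have ha2 := ha1.resolve_left hav
      rw [Finset.mem_erase] at ha2
      have haW : a ∉ W := (mem_nbh.1 ha2.2).1
      have hnar : ¬ G.Adj r a := by
        intro hh
        have := hN (mem_nb.2 hh)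
        rw [Finset.mem_insert, Finset.mem_insert] at this
        rcases this with h6 | h6 | h6
        · exact hav h6
        · exact hat h6
        · exact haW h6
      have hNa' : nb G a ⊆ insert v' (insert t W) := by
        intro z hz
        have := hNa hz
        rw [Finset.mem_insert, Finset.mem_insert, Finset.mem_insert] at this
        rw [Finset.mem_insert, Finset.mem_insert]
        rcases this with h6 | h6 | h6 | h6
        · exact Or.inl h6
        · exact Or.inr (Or.inl h6)
        · exact absurd (h6 ▸ (mem_nb.1 hz).symm) hnar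
        · exact Or.inr (Or.inr h6)
      have haP := h.pend_notP hW hTC h4 hmax ha2.2 hNa' ht hat
      have haAB : a ∈ A ∪ B := by
        rw [hABu, Finset.mem_union]
        by_contra hh
        rw [not_or] at hh
        exact haP (h.mem_P hh.1 hh.2)
      have haA : a ∈ A := by
        rw [Finset.mem_union] at haAB
        refine haAB.resolve_right (fun haB => ?_)
        exact htB (pend_hub hB hBW haB hNa').1
      have h5 : ({t, r, a} : Finset V) ⊆ nbh G W ∩ A := by
        intro z hz
        rw [Finset.mem_insert, Finset.mem_insert, Finset.mem_singleton] at hz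
        rw [Finset.mem_inter]
        rcases hz with rfl | rfl | rfl
        · exact ⟨ht, htA⟩
        · exact ⟨hr, hrA⟩
        · exact ⟨ha2.2, haA⟩
      have h6 := Finset.card_le_card h5
      rw [Finset.card_eq_three.2 ⟨t, r, a, hrt.symm, hat.symm, ha2.1.symm, rfl⟩] at h6
      omega
  have hc := compl_hub h.good (Finset.insert_nonempty _ _) hX4 htX hB hBX htB hno
  -- `M' = W + r + t`
  obtain ⟨q, hq, hqr⟩ : ∃ q ∈ W, G.Adj q r := by
    obtain ⟨_, q, hq, hqr⟩ := mem_nbh.1 hr
    exact ⟨q, hq, hqr⟩
  have hcomm : insert t (insert r W) = insert r (insert t W) := Finset.insert_comm _ _ _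
  have hrM : r ∉ insert t W := by
    rw [Finset.mem_insert, not_or]
    exact ⟨hrt, hrW⟩
  have hMh : Hub G (insert t (insert r W)) := by
    rw [hcomm]
    refine (hM.insert hrM (Finset.mem_insert_self t W) (Finset.mem_insert_of_mem hq) ?_ ert.symm hqr).hub ?_
    · rintro rfl
      exact htW' hq
    · exact fun hb => hMb (hb.mono (Finset.subset_insert _ _))
  have hcardW : W.card ≤ (D \ D1).card := Finset.card_le_card hW
  have hc1 : (insert t (insert r W)).card = W.card + 2 := by
    rw [Finset.card_insert_of_notMem, Finset.card_insert_of_notMem hrW]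
    rw [Finset.mem_insert, not_or]
    exact ⟨hrt.symm, htW'⟩
  have hlt : (insert t (insert r W)).card < D.card := by
    have := h.card_D
    have := h.mem1.1.card
    omega
  have hchi := h.min0 _ ⟨hMh, hc⟩ hlt
  have hle := chi_insert_le h.good htX (le_of_eq hX4)
  have h3 : 3 ≤ (nb G t ∩ insert r W).card := by
    have h5 : insert r (nb G t ∩ W) ⊆ nb G t ∩ insert r W := by
      intro z hz
      rw [Finset.mem_insert, Finset.mem_inter] at hz
      rw [Finset.mem_inter, Finset.mem_insert]
      rcases hz with rfl | hz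
      · exact ⟨mem_nb.2 ert.symm, Or.inl rfl⟩
      · exact ⟨hz.1, Or.inr hz.2⟩
    have h6 := Finset.card_le_card h5
    rw [Finset.card_insert_of_notMem (fun hh => hrW (Finset.mem_inter.1 hh).2)] at h6
    omega
  obtain ⟨z, hz⟩ : B.Nonempty := by
    rw [← Finset.card_pos]
    have := hB.card
    omega
  have hzM : z ∉ insert t (insert r W) := by
    rw [Finset.mem_insert, not_or]
    exact ⟨fun hh => htB (hh ▸ hz), Finset.disjoint_left.1 hBX hz⟩
  have h5 := four_le_bd h.good (M := insert t (insert r W)) (by have := hTC.two; omega) hzM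
  omega

/-- no pendant terminal next to a mixed terminal -/
theorem no_pend (hW : W ⊆ D \ D1) (hTC : TC G W) (h4 : (nbh G W).card = 4)
    (hmax : ∀ u ∈ D \ D1, u ∉ W → TC G (insert u W) → (nbh G (insert u W)).card = 4 → False)
    (ht : t ∈ nbh G W) (hMb : ¬ Bip G (insert t W)) (hM : TC G (insert t W)) (htW : 2 ≤ (nb G t ∩ W).card) :
    ∀ r ∈ nbh G W, r ≠ t → ∀ v, ¬ nb G r ⊆ insert v (insert t W) := by
  intro r hr hrt v hN
  have hWne : W.Nonempty := hTC.conn.1
  have hrP := h.pend_notP hW hTC h4 hmax hr hN ht hrt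
  obtain ⟨h5, h6⟩ := h.le_two hW hWne h4
  by_cases hr1 : r ∈ D1
  · exact h.no_pend_aux hW hTC h4 hmax ht hMb hM htW h.mem1.1 h.mem0.2 h.disj13 (h.disj1 hW) (h.disj3 hW)
      rfl h5 hr hr1 hrt hN
  · have hr3 : r ∈ Dᶜ := by
      by_contra hh
      exact hrP (h.mem_P hr1 hh)
    exact h.no_pend_aux hW hTC h4 hmax ht hMb hM htW h.mem0.2 h.mem1.1 h.disj13.symm (h.disj3 hW)
      (h.disj1 hW) (Finset.union_comm _ _) h6 hr hr3 hrt hN

/-- the endgame: the whole boundary of `W + t` has four vertices -/
theorem star_end (hW : W ⊆ D \ D1) (hTC : TC G W) (h4 : (nbh G W).card = 4) {col : V → Bool}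
    (hcol : ∀ x ∈ W, ∀ y ∈ W, G.Adj x y → col x ≠ col y) (h3 : 3 ≤ W.card)
    (ht : t ∈ nbh G W) (htb : t ∈ bd G (insert t W)) (hbd : (bd G (insert t W)).card = 4) : False := by
  classical
  have htW : t ∉ W := (mem_nbh.1 ht).1
  set S := (bd G (insert t W)).erase t with hS
  have hSc : S.card = 3 := by rw [hS, Finset.card_erase_of_mem htb, hbd]
  have hSW : S ⊆ W := by
    intro z hz
    rw [hS, Finset.mem_erase] at hz
    have := bd_sub _ _ hz.2
    rw [Finset.mem_insert] at this
    exact this.resolve_left hz.1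
  have hout : ∀ z ∈ W, z ∉ S → ∀ y, G.Adj z y → y ∈ insert t W := by
    intro z hz hzS y hzy
    by_contra hy
    apply hzS
    rw [hS, Finset.mem_erase, mem_bd]
    exact ⟨fun hh => htW (hh ▸ hz), Finset.mem_insert_of_mem hz, y, hy, hzy⟩
  -- every vertex of `W \ S` is adjacent exactly to `S + t`
  have hstar : ∀ z ∈ W, z ∉ S → nb G z = insert t S := by
    intro z hz hzS
    have hzU : z ∈ W \ S := Finset.mem_sdiff.2 ⟨hz, hzS⟩
    have hzZ : z ∈ cmp G (W \ S) z := mem_cmp.2 ⟨hzU, JN.refl hzU⟩
    have hZsub : nbh G (cmp G (W \ S) z) ⊆ insert t S := by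
      intro y hy
      rw [mem_nbh] at hy
      obtain ⟨hy1, x, hx, hxy⟩ := hy
      have hx1 := Finset.mem_sdiff.1 (cmp_sub hx)
      have h5 := hout x hx1.1 hx1.2 y hxy
      rw [Finset.mem_insert] at h5 ⊢
      rcases h5 with h5 | h5
      · exact Or.inl h5
      · right
        by_contra hyS
        exact hy1 (cmp_closed hx (Finset.mem_sdiff.2 ⟨h5, hyS⟩) hxy)
    have hc4 : (insert t S).card ≤ 4 := (Finset.card_insert_le _ _).trans (by rw [hSc])
    have hZ1 : (cmp G (W \ S) z).card ≤ 1 := by
      by_contra hlt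
      have hZcol : ∀ x ∈ cmp G (W \ S) z, ∀ y ∈ cmp G (W \ S) z, G.Adj x y → col x ≠ col y :=
        fun x hx y hy => hcol x (Finset.mem_sdiff.1 (cmp_sub hx)).1 y (Finset.mem_sdiff.1 (cmp_sub hy)).1
      have hboth := (cmp_conn hzU).both (by omega) hZcol
      obtain ⟨s, s', hss, hs, hs', hsm, hsm'⟩ := two_mixed h.good hZcol
        ((Finset.card_le_card hZsub).trans hc4) hboth.1 hboth.2
      have hmono : ∀ q ∈ S, ¬ ∀ k, ∃ x ∈ cmp G (W \ S) z, col x = k ∧ G.Adj x q := by
        intro q hq hk
        obtain ⟨x, hx, hxk, hxq⟩ := hk (col q)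
        exact hcol x (Finset.mem_sdiff.1 (cmp_sub hx)).1 q (hSW hq) hxq hxk
      have h5 := hZsub hs
      have h6 := hZsub hs'
      rw [Finset.mem_insert] at h5 h6
      rcases h5 with h5 | h5
      · rcases h6 with h6 | h6
        · exact hss (h5.trans h6.symm)
        · exact hmono s' h6 hsm'
      · exact hmono s h5 hsm
    have hZz : cmp G (W \ S) z = {z} := by
      rw [Finset.card_le_one] at hZ1
      ext y
      rw [Finset.mem_singleton]
      constructor
      · intro hy
        exact hZ1 y hy z hzZ
      · rintro rfl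
        exact hzZ
    rw [hZz, nbh_singleton_nb] at hZsub
    exact Finset.eq_of_subset_of_card_le hZsub (hc4.trans (four_le_deg h.good z))
  obtain ⟨s, hs⟩ : S.Nonempty := by rw [← Finset.card_pos]; omega
  -- at most one vertex outside `S`
  have hone : ∀ z ∈ W, z ∉ S → ∀ z' ∈ W, z' ∉ S → z = z' := by
    intro z hz hzS z' hz' hzS'
    by_contra hne
    have h5 := hstar z hz hzS
    have h6 := hstar z' hz' hzS'
    have e1 : G.Adj z s := by rw [← mem_nb, h5]; exact Finset.mem_insert_of_mem hs
    have e2 : G.Adj z' s := by rw [← mem_nb, h6]; exact Finset.mem_insert_of_mem hs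
    have c1 := hcol z hz s (hSW hs) e1
    have c2 := hcol z' hz' s (hSW hs) e2
    have hcc : col z = col z' := by
      cases h7 : col z <;> cases h8 : col z' <;> cases h9 : col s <;> simp_all
    have h7 := h.good.n3 {z, z'} (by simp) (by
      intro x hx y hy hxy
      rw [Finset.mem_insert, Finset.mem_singleton] at hx hy
      have hxW : x ∈ W := by rcases hx with rfl | rfl <;> assumption
      have hyW : y ∈ W := by rcases hy with rfl | rfl <;> assumption
      apply hcol x hxW y hyW hxy
      rcases hx with rfl | rfl <;> rcases hy with rfl | rfl <;> simp [hcc])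
    rw [Finset.card_pair hne] at h7
    have h8 : nbh G {z, z'} ⊆ insert t S := by
      intro y hy
      rw [mem_nbh] at hy
      obtain ⟨_, x, hx, hxy⟩ := hy
      rw [Finset.mem_insert, Finset.mem_singleton] at hx
      rcases hx with rfl | rfl
      · rw [← h5, mem_nb]; exact hxy
      · rw [← h6, mem_nb]; exact hxy
    have h9 := Finset.card_le_card h8
    have h10 : (insert t S).card ≤ 4 := (Finset.card_insert_le _ _).trans (by rw [hSc])
    omega
  by_cases hex : ∃ z ∈ W, z ∉ S
  · obtain ⟨z, hz, hzS⟩ := hex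
    have h5 := hstar z hz hzS
    have hWz : W.erase z = S := by
      ext y
      rw [Finset.mem_erase]
      constructor
      · rintro ⟨hy1, hy2⟩
        by_contra hyS
        exact hy1 (hone y hy2 hyS z hz hzS)
      · intro hy
        exact ⟨fun hh => hzS (hh ▸ hy), hSW hy⟩
    have hconn := hTC.del z
    rw [hWz] at hconn
    have hsame : ∀ x ∈ S, col x ≠ col z := by
      intro x hx
      exact hcol x (hSW hx) z hz (by
        have : x ∈ nb G z := by rw [h5]; exact Finset.mem_insert_of_mem hx
        exact (mem_nb.1 this).symm)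
    have hboth := hconn.both (col := col) (by omega) (fun x hx y hy => hcol x (hSW hx) y (hSW hy))
    obtain ⟨⟨x, hx, hxt⟩, y, hy, hyf⟩ := hboth
    have h6 := hsame x hx
    have h7 := hsame y hy
    cases h8 : col z <;> simp_all
  · push Not at hex
    have hWS : W = S := Finset.Subset.antisymm hex hSW
    rw [← hWS] at hSc
    obtain ⟨a, b, c, n12, n13, n23, hWe⟩ := Finset.card_eq_three.1 hSc
    have e12 : G.Adj a b := by
      have := hTC.del c
      have hh : W.erase c = {a, b} := by
        rw [hWe]; ext z; simp only [Finset.mem_erase, Finset.mem_insert, Finset.mem_singleton]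
        constructor
        · rintro ⟨hz, h | h | h⟩
          · exact Or.inl h
          · exact Or.inr h
          · exact absurd h hz
        · rintro (rfl | rfl)
          · exact ⟨n13, Or.inl rfl⟩
          · exact ⟨n23, Or.inr (Or.inl rfl)⟩
      rw [hh] at this
      exact this.adj_pair n12
    have e13 : G.Adj a c := by
      have := hTC.del b
      have hh : W.erase b = {a, c} := by
        rw [hWe]; ext z; simp only [Finset.mem_erase, Finset.mem_insert, Finset.mem_singleton]
        constructor
        · rintro ⟨hz, h | h | h⟩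
          · exact Or.inl h
          · exact absurd h hz
          · exact Or.inr h
        · rintro (rfl | rfl)
          · exact ⟨n12, Or.inl rfl⟩
          · exact ⟨n23.symm, Or.inr (Or.inr rfl)⟩
      rw [hh] at this
      exact this.adj_pair n13
    have e23 : G.Adj b c := by
      have := hTC.del a
      have hh : W.erase a = {b, c} := by
        rw [hWe]; ext z; simp only [Finset.mem_erase, Finset.mem_insert, Finset.mem_singleton]
        constructor
        · rintro ⟨hz, h | h | h⟩
          · exact absurd h hz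
          · exact Or.inl h
          · exact Or.inr h
        · rintro (rfl | rfl)
          · exact ⟨n12.symm, Or.inr (Or.inl rfl)⟩
          · exact ⟨n13.symm, Or.inr (Or.inr rfl)⟩
      rw [hh] at this
      exact this.adj_pair n23
    have m1 : a ∈ W := by rw [hWe]; simp
    have m2 : b ∈ W := by rw [hWe]; simp
    have m3 : c ∈ W := by rw [hWe]; simp
    have c1 := hcol _ m1 _ m2 e12
    have c2 := hcol _ m1 _ m3 e13
    have c3 := hcol _ m2 _ m3 e23
    revert c1 c2 c3
    cases col a <;> cases col b <;> cases col c <;> simp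

/-- Lemma A for a maximal set -/
theorem lemmaA_max (hW : W ⊆ D \ D1) (hTC : TC G W) (h4 : (nbh G W).card = 4)
    (hmax : ∀ u ∈ D \ D1, u ∉ W → TC G (insert u W) → (nbh G (insert u W)).card = 4 → False) : False := by
  have hWne : W.Nonempty := hTC.conn.1
  have hWc : Hub G Wᶜ := by
    rcases shift h.good hWne h4 h.mem1.1 h.mem0.2 h.disj13 (h.disj1 hW) (h.disj3 hW) with h1 | h1
    · exact h1
    · exfalso
      obtain ⟨u, v, hu1, hu3, huT, hvW, hvu, hN, hc⟩ := h1
      have huW : u ∉ W := (mem_nbh.1 huT).1
      have hdeg := four_le_deg h.good u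
      have h5 : nb G u ⊆ (nb G u ∩ W) ∪ {v} := by
        intro z hz
        have := hN hz
        rw [Finset.mem_insert] at this
        rw [Finset.mem_union, Finset.mem_inter, Finset.mem_singleton]
        rcases this with h6 | h6
        · exact Or.inr h6
        · exact Or.inl ⟨hz, h6⟩
      have h6 := (Finset.card_le_card h5).trans (Finset.card_union_le _ _)
      rw [Finset.card_singleton] at h6
      obtain ⟨a, ha, b, hb, hab⟩ := Finset.one_lt_card.1 (show 1 < (nb G u ∩ W).card by omega)
      rw [Finset.mem_inter, mem_nb] at ha hb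
      exact hmax u (h.mem_P hu1 hu3) huW (hTC.insert huW ha.2 hb.2 hab ha.1.symm hb.1.symm) hc
  by_cases hb : Bip G W
  swap
  · exact h.no_hub_cell hW (hTC.hub hb) hWc h4
  obtain ⟨col, hcol⟩ := hb
  obtain ⟨hbt, hbf⟩ := hTC.conn.both hTC.two hcol
  obtain ⟨t, t', htt, ht, ht', hm, hm'⟩ := two_mixed h.good hcol (le_of_eq h4) hbt hbf
  have htW : t ∉ W := (mem_nbh.1 ht).1
  by_cases hc2 : W.card = 2
  · obtain ⟨p, q, hpq, hWe⟩ := Finset.card_eq_two.1 hc2
    have hconn := hTC.conn
    rw [hWe] at hconn
    have epq := hconn.adj_pair hpq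
    have mp : p ∈ W := by rw [hWe]; simp
    have mq : q ∈ W := by rw [hWe]; simp
    have hpq' := hcol p mp q mq epq
    have key : ∀ s, (∀ k, ∃ x ∈ W, col x = k ∧ G.Adj x s) → G.Adj p s ∧ G.Adj q s := by
      intro s hs
      obtain ⟨x, hx, hxk, hxs⟩ := hs (col p)
      obtain ⟨y, hy, hyk, hys⟩ := hs (col q)
      rw [hWe, Finset.mem_insert, Finset.mem_singleton] at hx hy
      constructor
      · rcases hx with rfl | rfl
        · exact hxs
        · exact absurd hxk.symm hpq'
      · rcases hy with rfl | rfl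
        · exact absurd hyk hpq'
        · exact hys
    obtain ⟨a1, a2⟩ := key t hm
    obtain ⟨b1, b2⟩ := key t' hm'
    exact h.good.nt (toks_flex hWc (by simpa using mp) (by simpa using mq) (Finset.mem_compl.2 htW)
      (Finset.mem_compl.2 (mem_nbh.1 ht').1) htt epq a1 b1 a2 b2)
  have h3 : 3 ≤ W.card := by
    have := hTC.two
    omega
  obtain ⟨x, hx, hxk, hxt⟩ := hm true
  obtain ⟨y, hy, hyk, hyt⟩ := hm false
  have hxy : x ≠ y := by
    rintro rfl
    rw [hxk] at hyk
    cases hyk
  have hM : TC G (insert t W) := hTC.insert htW hx hy hxy hxt hyt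
  have hMb : ¬ Bip G (insert t W) := not_bip_insert hTC.conn hcol hx hy (by rw [hxk, hyk]; simp) hxt hyt
  have htW2 : 2 ≤ (nb G t ∩ W).card := by
    have h5 : ({x, y} : Finset V) ⊆ nb G t ∩ W := by
      intro z hz
      rw [Finset.mem_insert, Finset.mem_singleton] at hz
      rw [Finset.mem_inter, mem_nb]
      rcases hz with rfl | rfl
      · exact ⟨hxt.symm, hx⟩
      · exact ⟨hyt.symm, hy⟩
    have := Finset.card_le_card h5
    rwa [Finset.card_pair hxy] at this
  have hno := h.no_pend hW hTC h4 hmax ht hMb hM htW2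
  have hcard : (insert t W).card = W.card + 1 := Finset.card_insert_of_notMem htW
  have hcW : W.card ≤ (D \ D1).card := Finset.card_le_card hW
  have hlt : (insert t W).card < D.card := by
    have := h.card_D
    have := h.mem1.1.card
    omega
  have hMc : Hub G (insert t W)ᶜ := by
    by_cases ht1 : t ∈ D1
    · exact compl_hub h.good hWne h4 ht h.mem0.2 (h.disj3 hW) (Finset.disjoint_left.1 h.disj13 ht1) hno
    · exact compl_hub h.good hWne h4 ht h.mem1.1 (h.disj1 hW) ht1 hno
  have hchi := h.min0 _ ⟨hM.hub hMb, hMc⟩ hlt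
  have hle := chi_insert_le h.good ht (le_of_eq h4)
  obtain ⟨z, hz⟩ : ((insert t W)ᶜ).Nonempty := hMc.conn.1
  have h5 := four_le_bd h.good (M := insert t W) (by omega) (Finset.mem_compl.1 hz)
  have hdeg := four_le_deg h.good t
  have htb : t ∈ bd G (insert t W) := by
    rw [mem_bd]
    refine ⟨Finset.mem_insert_self _ _, ?_⟩
    by_contra hh
    push Not at hh
    have h6 : nb G t ⊆ nb G t ∩ W := by
      intro z hz
      rw [Finset.mem_inter]
      refine ⟨hz, ?_⟩
      rw [mem_nb] at hz
      by_contra hzW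
      exact hh z (by
        rw [Finset.mem_insert, not_or]
        exact ⟨hz.ne', hzW⟩) hz
    have := Finset.card_le_card h6
    omega
  exact h.star_end hW hTC h4 hcol h3 ht htb (by omega)

/-- Lemma A: there is no 2-connected piece (or edge) inside `P` with four neighbours -/
theorem lemmaA (hW : W ⊆ D \ D1) (hTC : TC G W) (h4 : (nbh G W).card = 4) : False := by
  classical
  let F : Finset (Finset V) := Finset.univ.filter (fun X => X ⊆ D \ D1 ∧ TC G X ∧ (nbh G X).card = 4)
  obtain ⟨X, hX, hmax⟩ := F.exists_max_image Finset.card ⟨W, by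
    rw [Finset.mem_filter]
    exact ⟨Finset.mem_univ _, hW, hTC, h4⟩⟩
  rw [Finset.mem_filter] at hX
  refine h.lemmaA_max hX.2.1 hX.2.2.1 hX.2.2.2 ?_
  intro u hu huX hu1 hu2
  have := hmax (insert u X) (by
    rw [Finset.mem_filter]
    exact ⟨Finset.mem_univ _, Finset.insert_subset hu hX.2.1, hu1, hu2⟩)
  rw [Finset.card_insert_of_notMem huX] at this
  omega

end Cov

end Pool.Agent.TOKSN
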