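import Mathlib
import Pool.Agent.TOKSN.Defs
import Pool.Agent.TOKSN.Paths
import Pool.Agent.TOKST3.Links

/-!
# LINE N: Theorem T₃ for path sets (helper82)
-/

set_option autoImplicit false
set_option linter.unusedSectionVars false

namespace Pool.Agent.TOKSN

open Pool.Agent.TOKST (HasTOKS)
open Pool.Agent.TOKSP (nbh mem_nbh four_le_nbh)

variable {V : Type} [DecidableEq V] [Fintype V] {G : SimpleGraph V}

/-- Theorem `T₃`: `W` independent, `|N(W)| = |W| + 3`, `|W| ≥ 3`, all nonempty subsets have surplus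
at least three, and three disjoint odd paths with both ends in `N(W)`, otherwise outside
`W ∪ N(W)`. -/
theorem toks_T3 {W : Finset V} (hi : ∀ x ∈ W, ∀ y ∈ W, ¬ G.Adj x y) (hW : 3 ≤ W.card)
    (hA : (nbh G W).card = W.card + 3)
    (hs : ∀ Y, Y ⊆ W → Y.Nonempty → Y.card + 3 ≤ (nbh G Y).card)
    (a b : Fin 3 → V) (T : Fin 3 → Finset V) (hT : ∀ i, PX G (T i) (a i) (b i) true)
    (ha : ∀ i, a i ∈ nbh G W) (hb : ∀ i, b i ∈ nbh G W)
    (hd : ∀ i j, i ≠ j → Disjoint (T i) (T j)) (hTW : ∀ i, Disjoint (T i) W)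
    (hTA : ∀ i, ∀ x ∈ T i, x ∈ nbh G W → x = a i ∨ x = b i) : HasTOKS G := by
  choose p hp hpT hpo using hT
  have hm : ∀ i x, x ∈ (p i).support ↔ x ∈ T i := by
    intro i x
    rw [← hpT i, List.mem_toFinset]
  have hnb : ∀ Y : Finset V, Y ⊆ W → ∀ v, v ∈ nbh G Y ↔ ∃ w ∈ Y, G.Adj w v := by
    intro Y hY v
    rw [mem_nbh]
    constructor
    · exact fun h => h.2
    · rintro ⟨w, hw, hwv⟩
      exact ⟨fun hv => hi w (hY hw) v (hY hv) hwv, w, hw, hwv⟩
  refine Pool.Agent.TOKST.final3 G (W := W) (A := nbh G W) ?_ ?_ hW hA ?_ a b ha hb p hp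
    (fun i => (hpo i).2 rfl) ?_ ?_ ?_
  · rw [Finset.disjoint_left]
    intro x hx hx'
    exact (mem_nbh.1 hx').1 hx
  · intro w hw v e
    exact (hnb W subset_rfl v).2 ⟨w, hw, e⟩
  · intro Y hY hYne S hS
    refine (hs Y hY hYne).trans (Finset.card_le_card ?_)
    intro v hv
    obtain ⟨w, hw, e⟩ := (hnb Y hY v).1 hv
    exact hS w hw v e
  · intro i j hij x hx hx'
    rw [hm] at hx hx'
    exact Finset.disjoint_left.1 (hd i j hij) hx hx'
  · intro i x hx hx'
    rw [hm] at hx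
    exact Finset.disjoint_left.1 (hTW i) hx hx'
  · intro i x hx hx'
    rw [hm] at hx
    exact hTA i x hx hx'

end Pool.Agent.TOKSN
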