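import Pool.Agent.TOKSN.TwoBDefs
import Pool.Agent.TOKSN.HT

/-!
# LINE N, case (2B): segments of the ear, arcs through `D1`
-/

set_option autoImplicit false
set_option linter.unusedSectionVars false
set_option linter.unusedVariables false

namespace Pool.Agent.TOKSN

open Pool.Agent.TOKST (HasTOKS)

variable {V : Type} [DecidableEq V] {G : SimpleGraph V} {D1 D3 : Finset V} {p : ℕ → V} {h : ℕ}

theorem PI.ex {S : Finset V} {a b : V} {k : Bool} (h : PI G S a b k) :
    ∃ T, PX G T a b k ∧ ∀ v, v ∈ T → v ∈ S := by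
  obtain ⟨T, h1, h2⟩ := h
  exact ⟨T, h2, fun v hv => h1 hv⟩


/-- the ring with legs and a centre outside -/
theorem ring_centre (hT : ¬ HasTOKS G) {D : Finset V} {x y z c : V} {X Y Z : Finset V}
    (h : Rg G D x y z) (hX : PX G X c x true) (hY : PX G Y c y true) (hZ : PX G Z c z true)
    (sX : ∀ v, v ∈ X → v ∈ D → v = x) (sY : ∀ v, v ∈ Y → v ∈ D → v = y)
    (sZ : ∀ v, v ∈ Z → v ∈ D → v = z)
    (m1 : ∀ v, v ∈ X → v ∈ Y → v = c) (m2 : ∀ v, v ∈ X → v ∈ Z → v = c)
    (m3 : ∀ v, v ∈ Y → v ∈ Z → v = c) (hc : c ∉ D) : False := by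
  obtain ⟨f, g, h, A, B, C, L, M, N, hA, hB, hC, hL, hM, hN, sA, sB, sC, sL, sM, sN,
      n1, n2, n3, n4, n5, n6, n7, n8, n9, n10, n11, n12, n13, n14, n15⟩ := h
  have a1 := hA.left_mem
  have a2 := hA.right_mem
  have a3 := hB.left_mem
  have a4 := hB.right_mem
  have a5 := hC.left_mem
  have a6 := hC.right_mem
  have a7 := hL.left_mem
  have a8 := hL.right_mem
  have a9 := hM.left_mem
  have a10 := hM.right_mem
  have a11 := hN.left_mem
  have a12 := hN.right_mem
  have c1 := hX.left_mem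
  have c2 := hX.right_mem
  have c3 := hY.left_mem
  have c4 := hY.right_mem
  have c5 := hZ.left_mem
  have c6 := hZ.right_mem
  have sA3 : ∀ v, v ∈ A → v ∈ D := fun v h => sA h
  have sB3 : ∀ v, v ∈ B → v ∈ D := fun v h => sB h
  have sC3 : ∀ v, v ∈ C → v ∈ D := fun v h => sC h
  have sL3 : ∀ v, v ∈ L → v ∈ D := fun v h => sL h
  have sM3 : ∀ v, v ∈ M → v ∈ D := fun v h => sM h
  have sN3 : ∀ v, v ∈ N → v ∈ D := fun v h => sN h
  have p1 := hX.concat hL.symm (by grind)
  have p2 := hY.concat hM.symm (by grind)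
  have p3 := hZ.concat hN.symm (by grind)
  refine hT (toks_mk2 (a := c) (b := f) (c := g) (d := h) p1 p2 p3 hA hC
      hB ?_ ?_ ?_ ?_ ?_ ?_ ?_ ?_ ?_ ?_ ?_ ?_ ?_ ?_ ?_) <;> grind


/-- the vertices `p i, .., p j` -/
def bseg (p : ℕ → V) (i j : ℕ) : Finset V := (Finset.Icc i j).image p

theorem mem_bseg {i j : ℕ} {v : V} : v ∈ bseg p i j ↔ ∃ m, i ≤ m ∧ m ≤ j ∧ p m = v := by
  unfold bseg
  simp only [Finset.mem_image, Finset.mem_Icc]
  constructor
  · rintro ⟨m, ⟨h1, h2⟩, h3⟩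
    exact ⟨m, h1, h2, h3⟩
  · rintro ⟨m, h1, h2, h3⟩
    exact ⟨m, ⟨h1, h2⟩, h3⟩

/-- the parity of a number -/
def bpar (n : ℕ) : Bool := decide (n % 2 = 1)

theorem bpar_succ (n : ℕ) : bpar (n + 1) = !bpar n := by
  unfold bpar
  rcases Nat.mod_two_eq_zero_or_one n with h | h <;> simp [Nat.add_mod, h]

theorem bpar_zero : bpar 0 = false := by decide

theorem bpar_odd {n : ℕ} (h : n % 2 = 1) : bpar n = true := by
  unfold bpar
  simp [h]

theorem bpar_even {n : ℕ} (h : n % 2 = 0) : bpar n = false := by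
  unfold bpar
  simp [h]

/-- reversal -/
theorem BSet.rev (H : BSet G D1 D3 p h) : BSet G D1 D3 (fun i => p (h + 1 - i)) h where
  hT := H.hT
  h2 := H.h2
  hub1 := H.hub1
  hub3 := H.hub3
  d13 := H.d13
  inj := by
    intro i j hi hj e
    have := H.inj _ _ (by omega) (by omega) e
    omega
  adj := by
    intro i hi
    have := (H.adj (h - i) (by omega)).symm
    have e1 : h + 1 - i = h - i + 1 := by omega
    have e2 : h + 1 - (i + 1) = h - i := by omega
    simp only [e1, e2]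
    exact this
  a := by simpa using H.b
  b := by simpa using H.a
  mid1 := fun i h1 h2 => H.mid1 _ (by omega) (by omega)
  mid3 := fun i h1 h2 => H.mid3 _ (by omega) (by omega)
  two := fun i h1 h2 => H.two _ (by omega) (by omega)

/-- the segments are paths -/
theorem BSet.px (H : BSet G D1 D3 p h) {i j : ℕ} (hij : i ≤ j) (hj : j ≤ h + 1) :
    PX G (bseg p i j) (p i) (p j) (bpar (j - i)) := by
  induction j, hij using Nat.le_induction with
  | base =>
    have : bseg p i i = {p i} := by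
      unfold bseg
      simp
    rw [this, Nat.sub_self]
    exact PX.refl G (p i)
  | succ j hij ih =>
    have h1 := ih (by omega)
    have h2 : PX G {p j, p (j + 1)} (p j) (p (j + 1)) true := PX.edge (H.adj j (by omega))
    have h3 := h1.concat h2 (by
      intro v hv hv'
      rw [Finset.mem_insert, Finset.mem_singleton] at hv'
      rcases hv' with rfl | rfl
      · rfl
      · obtain ⟨m, m1, m2, m3⟩ := mem_bseg.1 hv
        have := H.inj _ _ (by omega) (by omega) m3
        omega)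
    have e : bseg p i j ∪ {p j, p (j + 1)} = bseg p i (j + 1) := by
      ext v
      rw [Finset.mem_union, mem_bseg, mem_bseg, Finset.mem_insert, Finset.mem_singleton]
      constructor
      · rintro (⟨m, m1, m2, m3⟩ | rfl | rfl)
        · exact ⟨m, m1, by omega, m3⟩
        · exact ⟨j, hij, by omega, rfl⟩
        · exact ⟨j + 1, by omega, le_rfl, rfl⟩
      · rintro ⟨m, m1, m2, rfl⟩
        rcases Nat.lt_or_ge m (j + 1) with h | h
        · exact Or.inl ⟨m, m1, by omega, rfl⟩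
        · have : m = j + 1 := by omega
          subst this
          exact Or.inr (Or.inr rfl)
    rw [e] at h3
    have e2 : (bpar (j - i) ^^ true) = bpar (j + 1 - i) := by
      have : j + 1 - i = (j - i) + 1 := by omega
      rw [this, bpar_succ]
      cases bpar (j - i) <;> rfl
    rw [e2] at h3
    exact h3

/-- index form of membership -/
theorem BSet.seg_inj (H : BSet G D1 D3 p h) {i j k l : ℕ} {v : V} (hj : j ≤ h + 1) (hl : l ≤ h + 1)
    (h1 : v ∈ bseg p i j) (h2 : v ∈ bseg p k l) : ∃ m, i ≤ m ∧ m ≤ j ∧ k ≤ m ∧ m ≤ l ∧ v = p m := by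
  obtain ⟨m, m1, m2, m3⟩ := mem_bseg.1 h1
  obtain ⟨n, n1, n2, n3⟩ := mem_bseg.1 h2
  have := H.inj m n (by omega) (by omega) (m3.trans n3.symm)
  subst this
  exact ⟨m, m1, m2, n1, n2, m3.symm⟩

theorem BSet.seg_meet (H : BSet G D1 D3 p h) {i j l : ℕ} (hj : j ≤ h + 1) (hl : l ≤ h + 1) :
    ∀ v, v ∈ bseg p i j → v ∈ bseg p j l → v = p j := by
  intro v h1 h2
  obtain ⟨m, m1, m2, m3, m4, rfl⟩ := H.seg_inj hj hl h1 h2
  have : m = j := by omega
  rw [this]

theorem BSet.seg_disj (H : BSet G D1 D3 p h) {i j k l : ℕ} (hj : j < k) (hl : l ≤ h + 1) :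
    ∀ v, v ∈ bseg p i j → v ∈ bseg p k l → False := by
  intro v h1 h2
  rcases Nat.lt_or_ge l k with hh | hh
  · obtain ⟨n, n1, n2, n3⟩ := mem_bseg.1 h2
    omega
  · obtain ⟨m, m1, m2, m3, m4, rfl⟩ := H.seg_inj (by omega) hl h1 h2
    omega

theorem BSet.seg3 (H : BSet G D1 D3 p h) {i j : ℕ} (hj : j ≤ h + 1) :
    ∀ v, v ∈ bseg p i j → v ∈ D3 → False := by
  intro v hv h3
  obtain ⟨m, m1, m2, rfl⟩ := mem_bseg.1 hv
  rcases Nat.eq_zero_or_pos m with rfl | hm
  · exact H.d13 _ H.a h3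
  · rcases Nat.lt_or_ge h m with hh | hh
    · have : m = h + 1 := by omega
      subst this
      exact H.d13 _ H.b h3
    · exact H.mid3 m hm hh h3

theorem BSet.seg1 (H : BSet G D1 D3 p h) {i j : ℕ} (hj : j ≤ h + 1) :
    ∀ v, v ∈ bseg p i j → v ∈ D1 → (i = 0 ∧ v = p 0) ∨ (j = h + 1 ∧ v = p (h + 1)) := by
  intro v hv h1
  obtain ⟨m, m1, m2, rfl⟩ := mem_bseg.1 hv
  rcases Nat.eq_zero_or_pos m with rfl | hm
  · exact Or.inl ⟨by omega, rfl⟩
  · rcases Nat.lt_or_ge h m with hh | hh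
    · have : m = h + 1 := by omega
      subst this
      exact Or.inr ⟨by omega, rfl⟩
    · exact (H.mid1 m hm hh h1).elim

theorem BSet.ends_ne (H : BSet G D1 D3 p h) : p (h + 1) ≠ p 0 := by
  intro e
  have := H.inj _ _ (by omega) (by omega) e
  omega

/-- the way from `p k` to `p i` around through `D1`, of any parity -/
theorem BSet.around (H : BSet G D1 D3 p h) {i k : ℕ} (hik : i < k) (hk : k ≤ h + 1) (c : Bool) :
    ∃ T, PX G T (p k) (p i) c ∧
      ∀ v, v ∈ T → v ∈ bseg p k (h + 1) ∨ v ∈ D1 ∨ v ∈ bseg p 0 i := by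
  have s1 := H.px hk (le_refl (h + 1))
  have s2 := H.px (Nat.zero_le i) (by omega : i ≤ h + 1)
  obtain ⟨T, hT, hTs⟩ := (H.hub1.par H.b H.a H.ends_ne (c ^^ bpar (h + 1 - k) ^^ bpar (i - 0))).ex
  have q1 := s1.concat hT (by
    intro v hv hv'
    rcases H.seg1 (le_refl (h + 1)) v hv (hTs v hv') with ⟨e, _⟩ | ⟨_, e⟩
    · omega
    · exact e)
  have q2 := q1.concat s2 (by
    intro v hv hv'
    rw [Finset.mem_union] at hv
    rcases hv with hv | hv
    · exact (H.seg_disj hik (le_refl (h + 1)) v hv' hv).elim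
    · rcases H.seg1 (by omega : i ≤ h + 1) v hv' (hTs v hv) with ⟨_, e⟩ | ⟨e, _⟩
      · exact e
      · omega)
  refine ⟨bseg p k (h + 1) ∪ T ∪ bseg p 0 i, ?_, ?_⟩
  · have e : (bpar (h + 1 - k) ^^ (c ^^ bpar (h + 1 - k) ^^ bpar (i - 0)) ^^ bpar (i - 0)) = c := by
      cases bpar (h + 1 - k) <;> cases bpar (i - 0) <;> cases c <;> rfl
    rw [e] at q2
    exact q2
  · intro v hv
    rw [Finset.mem_union, Finset.mem_union] at hv
    rcases hv with (hv | hv) | hv
    · exact Or.inl hv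
    · exact Or.inr (Or.inl (hTs v hv))
    · exact Or.inr (Or.inr hv)

/-- **three vertices of the ear at odd distances**: no claw with odd legs in `D3` -/
theorem BSet.no_claw (H : BSet G D1 D3 p h) {i j k : ℕ} (hij : i < j) (hjk : j < k) (hk : k ≤ h + 1)
    (o1 : (j - i) % 2 = 1) (o2 : (k - j) % 2 = 1) {c : V} {X Y Z : Finset V} (hc : c ∈ D3)
    (hX : PX G X c (p i) true) (hY : PX G Y c (p j) true) (hZ : PX G Z c (p k) true)
    (sX : ∀ v, v ∈ X → v ∈ D3 ∨ v = p i) (sY : ∀ v, v ∈ Y → v ∈ D3 ∨ v = p j)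
    (sZ : ∀ v, v ∈ Z → v ∈ D3 ∨ v = p k)
    (m1 : ∀ v, v ∈ X → v ∈ Y → v = c) (m2 : ∀ v, v ∈ X → v ∈ Z → v = c)
    (m3 : ∀ v, v ∈ Y → v ∈ Z → v = c) : False := by
  have a1 := H.px (le_of_lt hij) (by omega : j ≤ h + 1)
  have a2 := H.px (le_of_lt hjk) hk
  rw [bpar_odd o1] at a1
  rw [bpar_odd o2] at a2
  obtain ⟨T, hT, hTs⟩ := H.around (by omega : i < k) hk true
  have d1 := H.seg3 (i := i) (j := j) (by omega)
  have d2 := H.seg3 (i := j) (j := k) (by omega)
  have d3 := H.seg3 (i := k) (j := h + 1) (by omega)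
  have d4 := H.seg3 (i := 0) (j := i) (by omega)
  have e1 := H.seg_meet (i := i) (j := j) (l := k) (by omega) (by omega)
  have n1 : ∀ v, v ∈ T → v ∈ bseg p i j → v = p i := by
    intro v hv hv'
    rcases hTs v hv with h1 | h1 | h1
    · exact (H.seg_disj hjk (le_refl (h + 1)) v hv' h1).elim
    · rcases H.seg1 (by omega : j ≤ h + 1) v hv' h1 with ⟨e, e'⟩ | ⟨e, _⟩
      · rw [e', e]
      · omega
    · exact H.seg_meet (by omega) (by omega) v h1 hv'
  have n2 : ∀ v, v ∈ T → v ∈ bseg p j k → v = p k := by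
    intro v hv hv'
    rcases hTs v hv with h1 | h1 | h1
    · exact H.seg_meet (by omega) (by omega) v hv' h1
    · rcases H.seg1 (by omega : k ≤ h + 1) v hv' h1 with ⟨e, _⟩ | ⟨e, e'⟩
      · omega
      · rw [e', e]
    · exact (H.seg_disj hij (by omega) v h1 hv').elim
  have n3 : ∀ v, v ∈ T → v ∈ D3 → False := by
    intro v hv h3
    rcases hTs v hv with h1 | h1 | h1
    · exact d3 v h1 h3
    · exact H.d13 v h1 h3
    · exact d4 v h1 h3
  have b1 := a1.left_mem
  have b2 := a1.right_mem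
  have b3 := a2.left_mem
  have b4 := a2.right_mem
  have b5 := hT.left_mem
  have b6 := hT.right_mem
  have g1 := hX.left_mem
  have g2 := hX.right_mem
  have g3 := hY.left_mem
  have g4 := hY.right_mem
  have g5 := hZ.left_mem
  have g6 := hZ.right_mem
  have ij : p i ≠ p j := fun e => by have := H.inj _ _ (by omega) (by omega) e; omega
  have jk : p j ≠ p k := fun e => by have := H.inj _ _ (by omega) (by omega) e; omega
  have ik : p i ≠ p k := fun e => by have := H.inj _ _ (by omega) (by omega) e; omega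
  refine H.hT (toks_mk2 (a := c) (b := p i) (c := p j) (d := p k) hX hY hZ a1 hT.symm a2
    ?_ ?_ ?_ ?_ ?_ ?_ ?_ ?_ ?_ ?_ ?_ ?_ ?_ ?_ ?_) <;> grind

end Pool.Agent.TOKSN
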