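import Pool.Agent.TOKSN.TwoBDefs

/-!
# LINE N, case (2B): the count
-/

set_option autoImplicit false
set_option linter.unusedSectionVars false

namespace Pool.Agent.TOKSN

open Pool.Agent.TOKSP (nbh mem_nbh)

variable {V : Type} [DecidableEq V] [Fintype V] {G : SimpleGraph V} {D1 D3 : Finset V} {p : ℕ → V} {h : ℕ}

namespace BCount

/-- the neighbours of `v` in `S` -/
noncomputable def NS (G : SimpleGraph V) (v : V) (S : Finset V) : Finset V := by
  classical exact S.filter (fun w => G.Adj v w)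

theorem mem_NS {G : SimpleGraph V} {v w : V} {S : Finset V} : w ∈ NS G v S ↔ w ∈ S ∧ G.Adj v w := by
  classical
  unfold NS
  simp

/-- the vertices of `S` with a neighbour in `D` -/
noncomputable def AS (G : SimpleGraph V) (S D : Finset V) : Finset V := by
  classical exact S.filter (fun v => Al G D v)

theorem mem_AS {G : SimpleGraph V} {v : V} {S D : Finset V} : v ∈ AS G S D ↔ v ∈ S ∧ Al G D v := by
  classical
  unfold AS
  simp

theorem deg_le {v : V} {A B C : Finset V} (hc : ∀ w, w ∈ A ∨ w ∈ B ∨ w ∈ C) :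
    deg G v ≤ (NS G v A).card + (NS G v B).card + (NS G v C).card := by
  classical
  have h1 : Finset.univ.filter (fun w => G.Adj v w) ⊆ (NS G v A ∪ NS G v B) ∪ NS G v C := by
    intro w hw
    have hw' := (Finset.mem_filter.1 hw).2
    simp only [Finset.mem_union, mem_NS]
    rcases hc w with h | h | h
    · exact Or.inl (Or.inl ⟨h, hw'⟩)
    · exact Or.inl (Or.inr ⟨h, hw'⟩)
    · exact Or.inr ⟨h, hw'⟩
  have h2 : deg G v ≤ ((NS G v A ∪ NS G v B) ∪ NS G v C).card := by
    unfold deg
    refine le_trans (le_of_eq ?_) (Finset.card_le_card h1)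
    congr 1
  have h3 := Finset.card_union_le (NS G v A ∪ NS G v B) (NS G v C)
  have h4 := Finset.card_union_le (NS G v A) (NS G v B)
  omega

end BCount

open BCount

/-- the step `D1 < D1 + P`, `P = {p 1, .., p h}` an induced path with exactly two edges to `D1`:
`chi (D1 + P) - chi D1 = h - M`, `M = [p 0 alive] + [p (h+1) alive] + ∑ |S_i| - |(⋃ S_i) \ L₃|`,
where `S_i = N(p i) ∩ D3`, `L₃` = the vertices of `D3` with a neighbour in `D1`, and `M ≤ 2` by `BFacts`. -/
theorem chi_B_count (hB : BSet G D1 D3 p h) (hF : BFacts G D1 D3 p h)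
    (huniv : ∀ v, v ∈ D1 ∨ v ∈ D3 ∨ ∃ i, 1 ≤ i ∧ i ≤ h ∧ v = p i)
    (hind : ∀ i j, 1 ≤ i → i < j → j ≤ h → G.Adj (p i) (p j) → j = i + 1)
    (hone : ∀ i x, 1 ≤ i → i ≤ h → x ∈ D1 → G.Adj (p i) x → (i = 1 ∧ x = p 0) ∨ (i = h ∧ x = p (h + 1))) :
    chi G D1 ≤ chi G (D1 ∪ (Finset.Icc 1 h).image p) := by
  classical
  have h2 := hB.h2
  set P : Finset V := (Finset.Icc 1 h).image p with hP
  have hinj : Set.InjOn p (Finset.Icc 1 h : Finset ℕ) := by
    intro i hi j hj e
    have hi' := Finset.mem_Icc.1 (Finset.mem_coe.1 hi)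
    have hj' := Finset.mem_Icc.1 (Finset.mem_coe.1 hj)
    exact hB.inj i j (by omega) (by omega) e
  have hPcard : P.card = h := by
    rw [hP, Finset.card_image_of_injOn hinj, Nat.card_Icc]
    omega
  have memP : ∀ v, v ∈ P ↔ ∃ i, 1 ≤ i ∧ i ≤ h ∧ v = p i := by
    intro v
    rw [hP, Finset.mem_image]
    constructor
    · rintro ⟨i, hi, rfl⟩
      have := Finset.mem_Icc.1 hi
      exact ⟨i, this.1, this.2, rfl⟩
    · rintro ⟨i, h1, h2, rfl⟩
      exact ⟨i, Finset.mem_Icc.2 ⟨h1, h2⟩, rfl⟩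
  have dP1 : ∀ v, v ∈ P → v ∈ D1 → False := by
    intro v hv hv1
    obtain ⟨i, h1, h2, rfl⟩ := (memP v).1 hv
    exact hB.mid1 i h1 h2 hv1
  have dP3 : ∀ v, v ∈ P → v ∈ D3 → False := by
    intro v hv hv1
    obtain ⟨i, h1, h2, rfl⟩ := (memP v).1 hv
    exact hB.mid3 i h1 h2 hv1
  have d13 := hB.d13
  have hcov : ∀ v, v ∈ D1 ∨ v ∈ P ∨ v ∈ D3 := by
    intro v
    rcases huniv v with h | h | h
    · exact Or.inl h
    · exact Or.inr (Or.inr h)
    · exact Or.inr (Or.inl ((memP v).2 h))
  have hp1 : p 1 ∈ P := (memP _).2 ⟨1, le_refl _, by omega, rfl⟩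
  have hph : p h ∈ P := (memP _).2 ⟨h, by omega, le_refl _, rfl⟩
  have h1h : p 1 ≠ p h := fun e => by
    have := hB.inj 1 h (by omega) (by omega) e
    omega
  have h0h : p 0 ≠ p (h + 1) := fun e => by
    have := hB.inj 0 (h + 1) (by omega) (by omega) e
    omega
  -- the sets `S i`
  set S : ℕ → Finset V := fun i => NS G (p i) D3 with hS
  have memS : ∀ i s, s ∈ S i ↔ s ∈ D3 ∧ G.Adj (p i) s := fun i s => by rw [hS]; exact mem_NS
  set L3 : Finset V := AS G D3 D1 with hL3
  set L1 : Finset V := AS G D1 D3 with hL1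
  have memL3 : ∀ s, s ∈ L3 ↔ s ∈ D3 ∧ Al G D1 s := fun s => by rw [hL3]; exact mem_AS
  have memL1 : ∀ s, s ∈ L1 ↔ s ∈ D1 ∧ Al G D3 s := fun s => by rw [hL1]; exact mem_AS
  set U : Finset V := (Finset.Icc 1 h).biUnion S with hU
  -- (1) the degrees
  have hsumP : ∀ f : V → ℤ, ∑ v ∈ P, f v = ∑ i ∈ Finset.Icc 1 h, f (p i) := by
    intro f
    rw [hP, Finset.sum_image hinj]
  have e1 : ∀ i ∈ Finset.Icc 1 h, (NS G (p i) D1).card ≤
      (if i = 1 then 1 else 0) + (if i = h then 1 else 0) := by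
    intro i hi
    have hi' := Finset.mem_Icc.1 hi
    have hsub : NS G (p i) D1 ⊆ (if i = 1 then {p 0} else ∅) ∪ (if i = h then {p (h + 1)} else ∅) := by
      intro x hx
      rw [mem_NS] at hx
      rcases hone i x hi'.1 hi'.2 hx.1 hx.2 with ⟨h3, rfl⟩ | ⟨h3, rfl⟩
      · rw [if_pos h3]
        exact Finset.mem_union_left _ (Finset.mem_singleton_self _)
      · rw [if_pos h3]
        exact Finset.mem_union_right _ (Finset.mem_singleton_self _)
    refine (Finset.card_le_card hsub).trans ((Finset.card_union_le _ _).trans ?_)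
    gcongr
    · split_ifs <;> simp
    · split_ifs <;> simp
  have e2 : ∀ i ∈ Finset.Icc 1 h, (NS G (p i) P).card ≤
      (if i = 1 then 0 else 1) + (if i = h then 0 else 1) := by
    intro i hi
    have hi' := Finset.mem_Icc.1 hi
    have hsub : NS G (p i) P ⊆ (if i = 1 then ∅ else {p (i - 1)}) ∪ (if i = h then ∅ else {p (i + 1)}) := by
      intro x hx
      rw [mem_NS] at hx
      obtain ⟨hx1, hx2⟩ := hx
      obtain ⟨j, hj1, hj2, rfl⟩ := (memP x).1 hx1
      rcases lt_trichotomy i j with hij | hij | hij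
      · have := hind i j hi'.1 hij hj2 hx2
        subst this
        have h9 : ¬ (i = h) := by omega
        rw [if_neg h9]
        exact Finset.mem_union_right _ (Finset.mem_singleton_self _)
      · subst hij
        exact absurd hx2 (G.loopless.irrefl _)
      · have := hind j i hj1 hij hi'.2 hx2.symm
        subst this
        have h9 : ¬ (j + 1 = 1) := by omega
        rw [if_neg h9]
        exact Finset.mem_union_left _ (Finset.mem_singleton_self _)
    refine (Finset.card_le_card hsub).trans ((Finset.card_union_le _ _).trans ?_)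
    gcongr
    · split_ifs <;> simp
    · split_ifs <;> simp
  have e3 : ∀ i ∈ Finset.Icc 1 h, (deg G (p i)) ≤ 2 + (S i).card := by
    intro i hi
    have h1 := deg_le (G := G) (v := p i) hcov
    have h3 := e1 i hi
    have h4 := e2 i hi
    have h5 : (NS G (p i) D3).card = (S i).card := rfl
    have h6 : ((if i = 1 then 1 else 0) + (if i = h then 1 else 0)) +
      ((if i = 1 then 0 else 1) + (if i = h then 0 else 1)) = 2 := by
      split_ifs <;> rfl
    omega
  have hdegs : ∑ v ∈ P, (4 - (deg G v : ℤ)) ≥ 2 * h - ∑ i ∈ Finset.Icc 1 h, ((S i).card : ℤ) := by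
    rw [hsumP]
    have h3 : ∑ i ∈ Finset.Icc 1 h, ((2 : ℤ) - (S i).card) ≤ ∑ i ∈ Finset.Icc 1 h, (4 - (deg G (p i) : ℤ)) := by
      apply Finset.sum_le_sum
      intro i hi
      have := e3 i hi
      push_cast
      have h' : (deg G (p i) : ℤ) ≤ 2 + (S i).card := by exact_mod_cast this
      linarith
    rw [Finset.sum_sub_distrib, Finset.sum_const, Nat.card_Icc, nsmul_eq_mul] at h3
    have h4 : (((h + 1 - 1 : ℕ) : ℤ)) = h := by simp
    rw [h4] at h3
    linarith
  -- (2) the neighbourhoods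
  have hn1 : (nbh G D1).card ≤ 2 + L3.card := by
    have hsub : nbh G D1 ⊆ {p 1, p h} ∪ L3 := by
      intro v hv
      rw [mem_nbh] at hv
      obtain ⟨hv1, x, hx, hxv⟩ := hv
      rw [Finset.mem_union]
      rcases hcov v with h | h | h
      · exact absurd h hv1
      · obtain ⟨i, hi1, hi2, rfl⟩ := (memP v).1 h
        left
        rcases hone i x hi1 hi2 hx hxv.symm with ⟨rfl, _⟩ | ⟨rfl, _⟩
        · simp
        · simp
      · right
        exact (memL3 v).2 ⟨h, x, hx, hxv.symm⟩
    refine (Finset.card_le_card hsub).trans ((Finset.card_union_le _ _).trans ?_)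
    have := Finset.card_le_two (a := p 1) (b := p h)
    omega
  have hn2 : L3.card + (U \ L3).card ≤ (nbh G (D1 ∪ P)).card := by
    rw [← Finset.card_union_of_disjoint Finset.disjoint_sdiff]
    apply Finset.card_le_card
    intro v hv
    rw [mem_nbh]
    rcases Finset.mem_union.1 hv with h | h
    · obtain ⟨h3, x, hx, hvx⟩ := (memL3 v).1 h
      refine ⟨fun h' => ?_, x, Finset.mem_union_left _ hx, hvx.symm⟩
      rcases Finset.mem_union.1 h' with h' | h'
      · exact d13 v h' h3
      · exact dP3 v h' h3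
    · obtain ⟨i, hi, hs⟩ := Finset.mem_biUnion.1 (Finset.mem_sdiff.1 h).1
      obtain ⟨h3, hadj⟩ := (memS i v).1 hs
      have hi' := Finset.mem_Icc.1 hi
      refine ⟨fun h' => ?_, p i, Finset.mem_union_right _ ((memP _).2 ⟨i, hi'.1, hi'.2, rfl⟩), hadj⟩
      rcases Finset.mem_union.1 h' with h' | h'
      · exact d13 v h' h3
      · exact dP3 v h' h3
  -- (3) the boundaries
  have hb2 : (bd G (D1 ∪ P)).card ≤ h + L1.card := by
    have hsub : bd G (D1 ∪ P) ⊆ P ∪ L1 := by
      intro v hv
      unfold bd at hv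
      obtain ⟨hv1, y, hy, hvy⟩ := Finset.mem_filter.1 hv
      rw [Finset.mem_union]
      rcases Finset.mem_union.1 hv1 with h | h
      · right
        refine (memL1 v).2 ⟨h, y, ?_, hvy⟩
        rcases hcov y with h' | h' | h'
        · exact absurd (Finset.mem_union_left _ h') hy
        · exact absurd (Finset.mem_union_right _ h') hy
        · exact h'
      · exact Or.inl h
    refine (Finset.card_le_card hsub).trans ((Finset.card_union_le _ _).trans ?_)
    omega
  set al : Finset V := ({p 0, p (h + 1)} : Finset V) ∩ L1 with hal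
  have hb1 : L1.card + 2 ≤ (bd G D1).card + al.card := by
    have hsub : L1 ∪ {p 0, p (h + 1)} ⊆ bd G D1 := by
      intro v hv
      unfold bd
      rw [Finset.mem_filter]
      rcases Finset.mem_union.1 hv with h | h
      · obtain ⟨h1, x, hx, hvx⟩ := (memL1 v).1 h
        exact ⟨h1, x, fun h' => d13 x h' hx, hvx⟩
      · rw [Finset.mem_insert, Finset.mem_singleton] at h
        rcases h with rfl | rfl
        · exact ⟨hB.a, p 1, fun h' => dP1 _ hp1 h', hB.adj 0 (by omega)⟩
        · exact ⟨hB.b, p h, fun h' => dP1 _ hph h', (hB.adj h (le_refl _)).symm⟩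
    have h1 := Finset.card_le_card hsub
    have h3 := Finset.card_union_add_card_inter L1 {p 0, p (h + 1)}
    have h4 : ({p 0, p (h + 1)} : Finset V).card = 2 := Finset.card_pair h0h
    have h5 : L1 ∩ {p 0, p (h + 1)} = al := by rw [hal, Finset.inter_comm]
    rw [h4, h5] at h3
    omega
  -- (4) the contacts
  have hsplit : ∀ i, (S i).card = (S i ∩ L3).card + (S i \ L3).card := by
    intro i
    rw [add_comm, Finset.card_sdiff_add_card_inter]
  set T : ℕ → Finset V := fun i => if i = h then (S h \ L3) \ S 1 else S i \ L3 with hT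
  have hTdis : ∀ i ∈ Finset.Icc 1 h, ∀ j ∈ Finset.Icc 1 h, i ≠ j → Disjoint (T i) (T j) := by
    have key : ∀ i j, 1 ≤ i → i < j → j ≤ h → Disjoint (T i) (T j) := by
      intro i j h1 hij hj
      rw [Finset.disjoint_left]
      intro s hs hs'
      have hih : i ≠ h := by omega
      rw [hT] at hs hs'
      simp only [if_neg hih] at hs
      have hsi : s ∈ S i := (Finset.mem_sdiff.1 hs).1
      by_cases hjh : j = h
      · simp only [if_pos hjh] at hs'
        have h3 := Finset.mem_sdiff.1 hs'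
        have h4 : s ∈ S h := (Finset.mem_sdiff.1 h3.1).1
        have h5 := hF.c4 i h s h1 (by omega) (le_refl _) ((memS i s).1 hsi).1 ((memS i s).1 hsi).2
          ((memS h s).1 h4).2
        rw [h5.1] at hsi
        exact h3.2 hsi
      · simp only [if_neg hjh] at hs'
        have h4 : s ∈ S j := (Finset.mem_sdiff.1 hs').1
        have h5 := hF.c4 i j s h1 hij hj ((memS i s).1 hsi).1 ((memS i s).1 hsi).2
          ((memS j s).1 h4).2
        exact hjh h5.2.1
    intro i hi j hj hij
    have hi' := Finset.mem_Icc.1 hi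
    have hj' := Finset.mem_Icc.1 hj
    rcases lt_or_gt_of_ne hij with h | h
    · exact key i j hi'.1 h hj'.2
    · exact (key j i hj'.1 h hi'.2).symm
  have hTsum : ∑ i ∈ Finset.Icc 1 h, (T i).card ≤ (U \ L3).card := by
    rw [← Finset.card_biUnion hTdis]
    apply Finset.card_le_card
    intro s hs
    obtain ⟨i, hi, hs⟩ := Finset.mem_biUnion.1 hs
    have : s ∈ S i \ L3 := by
      rw [hT] at hs
      by_cases hih : i = h
      · subst hih
        simp only [if_pos] at hs
        exact (Finset.mem_sdiff.1 hs).1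
      · simp only [if_neg hih] at hs
        exact hs
    rw [Finset.mem_sdiff] at this ⊢
    exact ⟨Finset.mem_biUnion.2 ⟨i, hi, this.1⟩, this.2⟩
  set ga : Finset V := (S h ∩ S 1) \ L3 with hga
  have hSsum : ∑ i ∈ Finset.Icc 1 h, (S i \ L3).card ≤ (U \ L3).card + ga.card := by
    have h3 : ∀ i ∈ Finset.Icc 1 h, (S i \ L3).card ≤ (T i).card + (if i = h then ga.card else 0) := by
      intro i hi
      by_cases hih : i = h
      · subst hih
        rw [hT]
        simp only [if_pos]
        have h4 : S i \ L3 ⊆ (S i \ L3) \ S 1 ∪ ga := by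
          intro s hs
          simp only [hga, Finset.mem_union, Finset.mem_sdiff, Finset.mem_inter]
          rw [Finset.mem_sdiff] at hs
          by_cases h5 : s ∈ S 1
          · exact Or.inr ⟨⟨hs.1, h5⟩, hs.2⟩
          · exact Or.inl ⟨hs, h5⟩
        exact (Finset.card_le_card h4).trans (Finset.card_union_le _ _)
      · rw [hT]
        simp [if_neg hih]
    refine (Finset.sum_le_sum h3).trans ?_
    rw [Finset.sum_add_distrib, Finset.sum_ite_eq' (Finset.Icc 1 h) h (fun _ => ga.card)]
    have : h ∈ Finset.Icc 1 h := Finset.mem_Icc.2 ⟨by omega, le_refl _⟩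
    rw [if_pos this]
    omega
  have hLsum : ∑ i ∈ Finset.Icc 1 h, (S i ∩ L3).card ≤ (S 1 ∩ L3).card + (S h ∩ L3).card := by
    have h3 : ∀ i ∈ Finset.Icc 1 h, (S i ∩ L3).card ≤
        (if i = 1 then (S 1 ∩ L3).card else 0) + (if i = h then (S h ∩ L3).card else 0) := by
      intro i hi
      have hi' := Finset.mem_Icc.1 hi
      by_cases h4 : i = 1
      · subst h4
        rw [if_pos rfl]
        omega
      · by_cases h5 : i = h
        · subst h5
          rw [if_pos rfl]
          omega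
        · rw [if_neg h4, if_neg h5]
          have : S i ∩ L3 = ∅ := by
            rw [Finset.eq_empty_iff_forall_notMem]
            intro s hs
            obtain ⟨h6, h7⟩ := Finset.mem_inter.1 hs
            rcases hF.c1 i s hi'.1 hi'.2 ((memS i s).1 h6).1 ((memS i s).1 h6).2 ((memL3 s).1 h7).2 with h | h
            · exact h4 h
            · exact h5 h
          rw [this]
          simp
    refine (Finset.sum_le_sum h3).trans ?_
    rw [Finset.sum_add_distrib, Finset.sum_ite_eq' (Finset.Icc 1 h) h (fun _ => (S h ∩ L3).card),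
      Finset.sum_ite_eq' (Finset.Icc 1 h) 1 (fun _ => (S 1 ∩ L3).card)]
    have h6 : h ∈ Finset.Icc 1 h := Finset.mem_Icc.2 ⟨by omega, le_refl _⟩
    have h7 : 1 ∈ Finset.Icc 1 h := Finset.mem_Icc.2 ⟨le_refl _, by omega⟩
    rw [if_pos h6, if_pos h7]
  -- (5) the bound
  have hbeta1 : (S 1 ∩ L3).card ≤ 1 := by
    rw [Finset.card_le_one]
    intro s hs s' hs'
    obtain ⟨h6, h7⟩ := Finset.mem_inter.1 hs
    obtain ⟨h6', h7'⟩ := Finset.mem_inter.1 hs'
    exact hF.c3 s s' ((memS 1 s).1 h6).1 ((memS 1 s').1 h6').1 ((memS 1 s).1 h6).2 ((memS 1 s').1 h6').2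
      ((memL3 s).1 h7).2 ((memL3 s').1 h7').2
  have hbetah : (S h ∩ L3).card ≤ 1 := by
    rw [Finset.card_le_one]
    intro s hs s' hs'
    obtain ⟨h6, h7⟩ := Finset.mem_inter.1 hs
    obtain ⟨h6', h7'⟩ := Finset.mem_inter.1 hs'
    exact hF.c3' s s' ((memS h s).1 h6).1 ((memS h s').1 h6').1 ((memS h s).1 h6).2 ((memS h s').1 h6').2
      ((memL3 s).1 h7).2 ((memL3 s').1 h7').2
  have hgam : ga.card ≤ 1 := by
    rw [Finset.card_le_one]
    intro s hs s' hs'
    obtain ⟨h6, h7⟩ := Finset.mem_inter.1 (Finset.mem_sdiff.1 hs).1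
    obtain ⟨h6', h7'⟩ := Finset.mem_inter.1 (Finset.mem_sdiff.1 hs').1
    exact hF.c5 s s' ((memS 1 s).1 h7).1 ((memS 1 s').1 h7').1 ((memS 1 s).1 h7).2 ((memS h s).1 h6).2
      ((memS 1 s').1 h7').2 ((memS h s').1 h6').2
  have hal' : al.card ≤ (if Al G D3 (p 0) then 1 else 0) + (if Al G D3 (p (h + 1)) then 1 else 0) := by
    have hsub : al ⊆ (if Al G D3 (p 0) then {p 0} else ∅) ∪ (if Al G D3 (p (h + 1)) then {p (h + 1)} else ∅) := by
      intro v hv
      rw [hal, Finset.mem_inter, Finset.mem_insert, Finset.mem_singleton] at hv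
      obtain ⟨rfl | rfl, h4⟩ := hv
      · have h5 := ((memL1 _).1 h4).2
        rw [Finset.mem_union, if_pos h5]
        simp
      · have h5 := ((memL1 _).1 h4).2
        rw [Finset.mem_union, if_pos h5]
        simp
    refine (Finset.card_le_card hsub).trans ((Finset.card_union_le _ _).trans ?_)
    gcongr
    · split_ifs <;> simp
    · split_ifs <;> simp
  have hM : al.card + (S 1 ∩ L3).card + (S h ∩ L3).card + ga.card ≤ 2 := by
    have hb1' : (S 1 ∩ L3).card ≠ 0 → ¬ Al G D3 (p 0) := by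
      intro hne
      obtain ⟨s, hs⟩ := Finset.card_pos.1 (Nat.pos_of_ne_zero hne)
      obtain ⟨h6, h7⟩ := Finset.mem_inter.1 hs
      exact hF.c2 s ((memS 1 s).1 h6).1 ((memS 1 s).1 h6).2 ((memL3 s).1 h7).2
    have hbh' : (S h ∩ L3).card ≠ 0 → ¬ Al G D3 (p (h + 1)) := by
      intro hne
      obtain ⟨s, hs⟩ := Finset.card_pos.1 (Nat.pos_of_ne_zero hne)
      obtain ⟨h6, h7⟩ := Finset.mem_inter.1 hs
      exact hF.c2' s ((memS h s).1 h6).1 ((memS h s).1 h6).2 ((memL3 s).1 h7).2
    by_cases hg0 : ga.card = 0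
    · by_cases h3 : Al G D3 (p 0)
      · by_cases h4 : Al G D3 (p (h + 1))
        · rw [if_pos h3, if_pos h4] at hal'
          have h5 : (S 1 ∩ L3).card = 0 := by
            by_contra hne
            exact hb1' hne h3
          have h6 : (S h ∩ L3).card = 0 := by
            by_contra hne
            exact hbh' hne h4
          omega
        · rw [if_pos h3, if_neg h4] at hal'
          have h5 : (S 1 ∩ L3).card = 0 := by
            by_contra hne
            exact hb1' hne h3
          omega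
      · by_cases h4 : Al G D3 (p (h + 1))
        · rw [if_neg h3, if_pos h4] at hal'
          have h6 : (S h ∩ L3).card = 0 := by
            by_contra hne
            exact hbh' hne h4
          omega
        · rw [if_neg h3, if_neg h4] at hal'
          omega
    · obtain ⟨s0, hs0⟩ := Finset.card_pos.1 (Nat.pos_of_ne_zero hg0)
      obtain ⟨h6, h7⟩ := Finset.mem_sdiff.1 hs0
      obtain ⟨h8, h9⟩ := Finset.mem_inter.1 h6
      have h10 := (memS h s0).1 h8
      have h11 := (memS 1 s0).1 h9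
      have hna : ¬ Al G D1 s0 := fun ha => h7 ((memL3 s0).2 ⟨h10.1, ha⟩)
      have h12 := hF.c4 1 h s0 (le_refl _) (by omega) (le_refl _) h10.1 h11.2 h10.2
      rw [if_neg h12.2.2.1, if_neg h12.2.2.2] at hal'
      by_cases h13 : (S 1 ∩ L3).card = 0
      · omega
      · by_cases h14 : (S h ∩ L3).card = 0
        · omega
        · exfalso
          obtain ⟨s, hs⟩ := Finset.card_pos.1 (Nat.pos_of_ne_zero h13)
          obtain ⟨s', hs'⟩ := Finset.card_pos.1 (Nat.pos_of_ne_zero h14)
          obtain ⟨k1, k2⟩ := Finset.mem_inter.1 hs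
          obtain ⟨k3, k4⟩ := Finset.mem_inter.1 hs'
          exact hF.c6 s0 s s' h10.1 ((memS 1 s).1 k1).1 ((memS h s').1 k3).1 h11.2 h10.2 hna
            ((memS 1 s).1 k1).2 ((memL3 s).1 k2).2 ((memS h s').1 k3).2 ((memL3 s').1 k4).2
  -- (6) the sum
  have hSS : ∑ i ∈ Finset.Icc 1 h, (S i).card ≤ (S 1 ∩ L3).card + (S h ∩ L3).card + ((U \ L3).card + ga.card) := by
    have : ∑ i ∈ Finset.Icc 1 h, (S i).card =
        ∑ i ∈ Finset.Icc 1 h, (S i ∩ L3).card + ∑ i ∈ Finset.Icc 1 h, (S i \ L3).card := by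
      rw [← Finset.sum_add_distrib]
      exact Finset.sum_congr rfl (fun i _ => hsplit i)
    omega
  have hunion : ∑ v ∈ D1 ∪ P, (4 - (deg G v : ℤ)) = ∑ v ∈ D1, (4 - (deg G v : ℤ)) + ∑ v ∈ P, (4 - (deg G v : ℤ)) := by
    apply Finset.sum_union
    rw [Finset.disjoint_left]
    exact fun v hv hv' => dP1 v hv' hv
  unfold chi
  rw [hunion]
  have hSS' : ∑ i ∈ Finset.Icc 1 h, ((S i).card : ℤ) ≤
      (S 1 ∩ L3).card + (S h ∩ L3).card + ((U \ L3).card + ga.card) := by exact_mod_cast hSS
  have hn1' : ((nbh G D1).card : ℤ) ≤ 2 + L3.card := by exact_mod_cast hn1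
  have hn2' : (L3.card : ℤ) + (U \ L3).card ≤ (nbh G (D1 ∪ P)).card := by exact_mod_cast hn2
  have hb2' : ((bd G (D1 ∪ P)).card : ℤ) ≤ h + L1.card := by exact_mod_cast hb2
  have hb1' : (L1.card : ℤ) + 2 ≤ (bd G D1).card + al.card := by exact_mod_cast hb1
  have hM' : (al.card : ℤ) + (S 1 ∩ L3).card + (S h ∩ L3).card + ga.card ≤ 2 := by exact_mod_cast hM
  have h2' : (2 : ℤ) ≤ h := by exact_mod_cast h2
  linarith

end Pool.Agent.TOKSN
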