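import Pool.Agent.TOKSN.HTTheta

/-!
# LINE N, case (2B): definitions

`BSet G D1 D3 p h`: two disjoint hubs `D1`, `D3`, an ear `p 0, p 1, .., p h, p (h+1)` of `D1` (`p 0`, `p (h+1)`
in `D1`, the inner vertices `p 1, .., p h` outside `D1` and `D3`, each with two neighbours in `D3`), `h ≥ 2`, and no
totally odd `K₄`-subdivision.
-/

set_option autoImplicit false
set_option linter.unusedSectionVars false

namespace Pool.Agent.TOKSN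

open Pool.Agent.TOKST (HasTOKS)

variable {V : Type} [DecidableEq V] {G : SimpleGraph V} {D1 D3 : Finset V} {p : ℕ → V} {h : ℕ}

structure BSet (G : SimpleGraph V) (D1 D3 : Finset V) (p : ℕ → V) (h : ℕ) : Prop where
  hT : ¬ HasTOKS G
  h2 : 2 ≤ h
  hub1 : Hub G D1
  hub3 : Hub G D3
  d13 : ∀ v, v ∈ D1 → v ∈ D3 → False
  inj : ∀ i j, i ≤ h + 1 → j ≤ h + 1 → p i = p j → i = j
  adj : ∀ i, i ≤ h → G.Adj (p i) (p (i + 1))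
  a : p 0 ∈ D1
  b : p (h + 1) ∈ D1
  mid1 : ∀ i, 1 ≤ i → i ≤ h → p i ∉ D1
  mid3 : ∀ i, 1 ≤ i → i ≤ h → p i ∉ D3
  two : ∀ i, 1 ≤ i → i ≤ h → ∃ s s', s ≠ s' ∧ s ∈ D3 ∧ s' ∈ D3 ∧ G.Adj (p i) s ∧ G.Adj (p i) s'

/-- the vertex `v` has a neighbour in `D` -/
def Al (G : SimpleGraph V) (D : Finset V) (v : V) : Prop := ∃ x, x ∈ D ∧ G.Adj v x

/-- the six facts about the contacts (proved in `TwoB.lean`) -/
structure BFacts (G : SimpleGraph V) (D1 D3 : Finset V) (p : ℕ → V) (h : ℕ) : Prop where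
  /-- only `p 1` and `p h` have neighbours in `D3` with a neighbour in `D1` -/
  c1 : ∀ i s, 1 ≤ i → i ≤ h → s ∈ D3 → G.Adj (p i) s → Al G D1 s → i = 1 ∨ i = h
  c2 : ∀ s, s ∈ D3 → G.Adj (p 1) s → Al G D1 s → ¬ Al G D3 (p 0)
  c2' : ∀ s, s ∈ D3 → G.Adj (p h) s → Al G D1 s → ¬ Al G D3 (p (h + 1))
  c3 : ∀ s s', s ∈ D3 → s' ∈ D3 → G.Adj (p 1) s → G.Adj (p 1) s' → Al G D1 s → Al G D1 s' → s = s'
  c3' : ∀ s s', s ∈ D3 → s' ∈ D3 → G.Adj (p h) s → G.Adj (p h) s' → Al G D1 s → Al G D1 s' → s = s'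
  /-- common neighbours in `D3` -/
  c4 : ∀ i j s, 1 ≤ i → i < j → j ≤ h → s ∈ D3 → G.Adj (p i) s → G.Adj (p j) s →
    i = 1 ∧ j = h ∧ ¬ Al G D3 (p 0) ∧ ¬ Al G D3 (p (h + 1))
  c5 : ∀ s s', s ∈ D3 → s' ∈ D3 → G.Adj (p 1) s → G.Adj (p h) s → G.Adj (p 1) s' → G.Adj (p h) s' → s = s'
  c6 : ∀ s0 s s', s0 ∈ D3 → s ∈ D3 → s' ∈ D3 → G.Adj (p 1) s0 → G.Adj (p h) s0 → ¬ Al G D1 s0 →
    G.Adj (p 1) s → Al G D1 s → G.Adj (p h) s' → Al G D1 s' → False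

end Pool.Agent.TOKSN
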