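import Pool.Agent.TOKSN.TwoBChi
import Pool.Agent.TOKSN.Chi
import Pool.Agent.TOKSN.Ear

/-!
# LINE N, case (2B): from an ear to the setting `BSet`, and the conclusion
-/

set_option autoImplicit false
set_option linter.unusedSectionVars false

namespace Pool.Agent.TOKSN

open Pool.Agent.TOKSP (nbh mem_nbh)

variable {V : Type} [DecidableEq V] [Fintype V] {G : SimpleGraph V} {D D1 : Finset V} {a a' : V} {m : ℕ}
  {f : ℕ → V}

/-- the path of an ear, with its two ends -/
def earP (f : ℕ → V) (m : ℕ) (a a' : V) (i : ℕ) : V := if i = 0 then a else if i = m + 1 then a' else f i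

theorem earP_zero : earP f m a a' 0 = a := if_pos rfl

theorem earP_last : earP f m a a' (m + 1) = a' := by
  unfold earP
  rw [if_neg (by omega), if_pos rfl]

theorem earP_mid {i : ℕ} (h1 : 1 ≤ i) (h2 : i ≤ m) : earP f m a a' i = f i := by
  unfold earP
  rw [if_neg (by omega), if_neg (by omega)]

theorem bset_of_ear (hg : Good G) (h1 : Mem G D1) (hD : Mem G D) (hs : D1 ⊆ D)
    (hE : Ear G D1 (D \ D1) m f a a') : BSet G D1 Dᶜ (earP f m a a') m := by
  classical
  have hm := hE.two
  have hP : ∀ i, 1 ≤ i → i ≤ m → f i ∈ D ∧ f i ∉ D1 := by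
    intro i hi1 hi2
    exact Finset.mem_sdiff.1 ((hE.img (f i)).2 ⟨i, hi1, hi2, rfl⟩)
  have haD : a ∈ D := hs hE.a_mem
  refine ⟨hg.nt, hm, h1.1, hD.2, ?_, ?_, ?_, ?_, ?_, ?_, ?_, ?_⟩
  · intro v hv hv'
    exact (Finset.mem_compl.1 hv') (hs hv)
  · -- injectivity
    have key : ∀ i, 1 ≤ i → i ≤ m → f i ≠ a ∧ f i ≠ a' := by
      intro i hi1 hi2
      exact ⟨fun e => (hP i hi1 hi2).2 (e ▸ hE.a_mem), fun e => (hP i hi1 hi2).2 (e ▸ hE.a'_mem)⟩
    intro i j hi hj e
    rcases Nat.eq_zero_or_pos i with rfl | hi0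
    · rw [earP_zero] at e
      rcases Nat.eq_zero_or_pos j with rfl | hj0
      · rfl
      · rcases Nat.lt_or_ge m j with h | h
        · have : j = m + 1 := by omega
          subst this
          rw [earP_last] at e
          exact absurd e hE.ne
        · rw [earP_mid hj0 h] at e
          exact absurd e.symm (key j hj0 h).1
    · rcases Nat.lt_or_ge m i with h | h
      · have : i = m + 1 := by omega
        subst this
        rw [earP_last] at e
        rcases Nat.eq_zero_or_pos j with rfl | hj0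
        · rw [earP_zero] at e
          exact absurd e.symm hE.ne
        · rcases Nat.lt_or_ge m j with h' | h'
          · omega
          · rw [earP_mid hj0 h'] at e
            exact absurd e.symm (key j hj0 h').2
      · rw [earP_mid hi0 h] at e
        rcases Nat.eq_zero_or_pos j with rfl | hj0
        · rw [earP_zero] at e
          exact absurd e (key i hi0 h).1
        · rcases Nat.lt_or_ge m j with h' | h'
          · have : j = m + 1 := by omega
            subst this
            rw [earP_last] at e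
            exact absurd e (key i hi0 h).2
          · rw [earP_mid hj0 h'] at e
            exact hE.inj i j hi0 h hj0 h' e
  · -- adjacency
    intro i hi
    rcases Nat.eq_zero_or_pos i with rfl | hi0
    · rw [earP_zero, earP_mid (by omega) (by omega)]
      exact ((hE.adjA 1 a (le_refl _) (by omega) hE.a_mem).2 (Or.inl ⟨rfl, rfl⟩)).symm
    · rcases Nat.lt_or_ge i m with h | h
      · rw [earP_mid hi0 hi, earP_mid (by omega) (by omega)]
        exact (hE.adj i (i + 1) hi0 hi (by omega) (by omega)).2 (Or.inl rfl)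
      · have : i = m := by omega
        subst this
        rw [earP_mid hi0 hi, earP_last]
        exact (hE.adjA i a' hi0 hi hE.a'_mem).2 (Or.inr ⟨rfl, rfl⟩)
  · rw [earP_zero]
    exact hE.a_mem
  · rw [earP_last]
    exact hE.a'_mem
  · intro i hi1 hi2
    rw [earP_mid hi1 hi2]
    exact (hP i hi1 hi2).2
  · intro i hi1 hi2
    rw [earP_mid hi1 hi2, Finset.mem_compl, not_not]
    exact (hP i hi1 hi2).1
  · -- two neighbours in the complement
    intro i hi1 hi2
    rw [earP_mid hi1 hi2]
    have h4 := four_le_deg hg (f i)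
    have hsub : nb G (f i) ⊆ ({(if i = 1 then a else f (i - 1)), (if i = m then a' else f (i + 1))} : Finset V) ∪
        (nb G (f i) ∩ Dᶜ) := by
      intro x hx
      have hx' := mem_nb.1 hx
      rw [Finset.mem_union]
      by_cases hxD : x ∈ D
      · left
        rw [Finset.mem_insert, Finset.mem_singleton]
        by_cases hx1 : x ∈ D1
        · rcases (hE.adjA i x hi1 hi2 hx1).1 hx' with ⟨rfl, rfl⟩ | ⟨rfl, rfl⟩
          · left
            rw [if_pos rfl]
          · right
            rw [if_pos rfl]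
        · obtain ⟨j, hj1, hj2, rfl⟩ := (hE.img x).1 (Finset.mem_sdiff.2 ⟨hxD, hx1⟩)
          rcases (hE.adj i j hi1 hi2 hj1 hj2).1 hx' with h | h
          · right
            rw [if_neg (by omega), h]
          · left
            rw [if_neg (by omega), ← h]
            rfl
      · right
        exact Finset.mem_inter.2 ⟨hx, Finset.mem_compl.2 hxD⟩
    have h5 := (Finset.card_le_card hsub).trans (Finset.card_union_le _ _)
    have h6 := Finset.card_le_two (a := (if i = 1 then a else f (i - 1))) (b := (if i = m then a' else f (i + 1)))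
    have h7 : 1 < (nb G (f i) ∩ Dᶜ).card := by omega
    obtain ⟨s, hs1, s', hs2, hne⟩ := Finset.one_lt_card.1 h7
    rw [Finset.mem_inter] at hs1 hs2
    exact ⟨s, s', hne, hs1.2, hs2.2, mem_nb.1 hs1.1, mem_nb.1 hs2.1⟩

/-- **(B)** -/
theorem chi_B_ear (hfacts : ∀ p : ℕ → V, BSet G D1 Dᶜ p m → BFacts G D1 Dᶜ p m) (hg : Good G) (h1 : Mem G D1)
    (hD : Mem G D) (hs : D1 ⊆ D) (hE : Ear G D1 (D \ D1) m f a a') : chi G D1 ≤ chi G D := by
  classical
  have hm := hE.two
  have hB := bset_of_ear hg h1 hD hs hE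
  have himg : ∀ x, x ∈ D \ D1 ↔ ∃ i, 1 ≤ i ∧ i ≤ m ∧ x = earP f m a a' i := by
    intro x
    rw [hE.img x]
    constructor
    · rintro ⟨i, hi1, hi2, rfl⟩
      exact ⟨i, hi1, hi2, (earP_mid hi1 hi2).symm⟩
    · rintro ⟨i, hi1, hi2, rfl⟩
      exact ⟨i, hi1, hi2, (earP_mid hi1 hi2).symm⟩
  have h3 := chi_B_count hB (hfacts _ hB) ?_ ?_ ?_
  · have h4 : D1 ∪ (Finset.Icc 1 m).image (earP f m a a') = D := by
      ext x
      rw [Finset.mem_union, Finset.mem_image]
      constructor
      · rintro (h | ⟨i, hi, rfl⟩)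
        · exact hs h
        · have hi' := Finset.mem_Icc.1 hi
          exact (Finset.mem_sdiff.1 ((himg _).2 ⟨i, hi'.1, hi'.2, rfl⟩)).1
      · intro hx
        by_cases hx1 : x ∈ D1
        · exact Or.inl hx1
        · obtain ⟨i, hi1, hi2, rfl⟩ := (himg x).1 (Finset.mem_sdiff.2 ⟨hx, hx1⟩)
          exact Or.inr ⟨i, Finset.mem_Icc.2 ⟨hi1, hi2⟩, rfl⟩
    rwa [h4] at h3
  · intro v
    by_cases hv : v ∈ D
    · by_cases hv1 : v ∈ D1
      · exact Or.inl hv1
      · exact Or.inr (Or.inr ((himg v).1 (Finset.mem_sdiff.2 ⟨hv, hv1⟩)))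
    · exact Or.inr (Or.inl (Finset.mem_compl.2 hv))
  · intro i j hi hij hj hadj
    rw [earP_mid hi (by omega), earP_mid (by omega) hj] at hadj
    rcases (hE.adj i j hi (by omega) (by omega) hj).1 hadj with h | h
    · omega
    · omega
  · intro i x hi1 hi2 hx hadj
    rw [earP_mid hi1 hi2] at hadj
    rw [earP_zero, earP_last]
    exact (hE.adjA i x hi1 hi2 hx).1 hadj

end Pool.Agent.TOKSN
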