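import Pool.Agent.TOKSN.TwoBBase

/-!
# LINE N, case (2B): the facts c4, c5, c1, c2
-/

set_option autoImplicit false
set_option linter.unusedSectionVars false
set_option linter.unusedVariables false

namespace Pool.Agent.TOKSN

open Pool.Agent.TOKST (HasTOKS)

variable {V : Type} [DecidableEq V] {G : SimpleGraph V} {D1 D3 : Finset V} {p : ℕ → V} {h : ℕ}

/-- the flexible leg from `s ∈ D3` to a vertex `v` with a neighbour `t ∈ D3` -/
theorem BSet.flex (H : BSet G D1 D3 p h) {s t v : V} (hs : s ∈ D3) (ht : t ∈ D3) (e : G.Adj v t)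
    (hv : v ∉ D3) (hst : s ≠ t) (c : Bool) : ∃ Z, PX G Z s v c ∧ ∀ w, w ∈ Z → w ∈ D3 ∨ w = v := by
  obtain ⟨T, hT, hTs⟩ := (H.hub3.par hs ht hst (!c)).ex
  have q := hT.concat (PX.edge e.symm) (by grind)
  have e2 : ((!c) ^^ true) = c := by cases c <;> rfl
  rw [e2] at q
  exact ⟨_, q, by grind⟩

/-- the odd leg from `s ∈ D3` to a vertex `v` with a neighbour `t ∈ D3` (`t = s` allowed) -/
theorem BSet.leg (H : BSet G D1 D3 p h) {s t v : V} (hs : s ∈ D3) (ht : t ∈ D3) (e : G.Adj v t)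
    (hv : v ∉ D3) : ∃ Z, PX G Z s v true ∧ ∀ w, w ∈ Z → w ∈ D3 ∨ w = v := by
  by_cases hst : s = t
  · subst hst
    exact ⟨_, PX.edge e.symm, by grind⟩
  · exact H.flex hs ht e hv hst true

theorem BSet.pn3 (H : BSet G D1 D3 p h) {i : ℕ} (hi : i ≤ h + 1) : p i ∉ D3 := by
  intro h3
  exact H.seg3 (i := i) (j := i) hi (p i) (mem_bseg.2 ⟨i, le_rfl, le_rfl, rfl⟩) h3

theorem BSet.ne (H : BSet G D1 D3 p h) {i j : ℕ} (hi : i ≤ h + 1) (hj : j ≤ h + 1) (hij : i ≠ j) :
    p i ≠ p j := fun e => hij (H.inj i j hi hj e)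

/-- another neighbour of `p i` in `D3` -/
theorem BSet.other (H : BSet G D1 D3 p h) {i : ℕ} (h1 : 1 ≤ i) (h2 : i ≤ h) (s : V) :
    ∃ t, t ∈ D3 ∧ G.Adj (p i) t ∧ t ≠ s := by
  obtain ⟨u, v, huv, hu, hv, e1, e2⟩ := H.two i h1 h2
  by_cases h : u = s
  · exact ⟨v, hv, e2, fun e => huv (h.trans e.symm)⟩
  · exact ⟨u, hu, e1, h⟩

/-- a common neighbour of `p i`, `p j` with `j - i` even -/
theorem BSet.even_common (H : BSet G D1 D3 p h) {i j : ℕ} {s : V} (hij : i < j) (hj : j ≤ h + 1)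
    (ho : (j - i) % 2 = 0) (hs : s ∈ D3) (e1 : G.Adj (p i) s) (e2 : G.Adj (p j) s) : False := by
  obtain ⟨t, ht, et, hts⟩ := H.other (i := i + 1) (by omega) (by omega) s
  obtain ⟨Z, hZ, hZs⟩ := H.leg hs ht et (H.pn3 (by omega))
  have n1 := H.pn3 (i := i) (by omega)
  have n2 := H.pn3 (i := j) (by omega)
  have d1 := H.ne (i := i) (j := i + 1) (by omega) (by omega) (by omega)
  have d2 := H.ne (i := i) (j := j) (by omega) (by omega) (by omega)
  have d3 := H.ne (i := i + 1) (j := j) (by omega) (by omega) (by omega)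
  exact H.no_claw (i := i) (j := i + 1) (k := j) (by omega) (by omega) hj (by omega) (by omega) hs
    (PX.edge e1.symm) hZ (PX.edge e2.symm) (by grind) (by grind) (by grind) (by grind) (by grind)
    (by grind)

/-- a common neighbour of `p i`, `p j` with `j - i` odd and a third vertex `p k`, `k > j` -/
theorem BSet.odd_up (H : BSet G D1 D3 p h) {i j k : ℕ} {s t : V} (hij : i < j) (hjk : j < k)
    (hk : k ≤ h + 1) (o1 : (j - i) % 2 = 1) (o2 : (k - j) % 2 = 1) (hs : s ∈ D3)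
    (e1 : G.Adj (p i) s) (e2 : G.Adj (p j) s) (ht : t ∈ D3) (et : G.Adj (p k) t) : False := by
  obtain ⟨Z, hZ, hZs⟩ := H.leg hs ht et (H.pn3 (by omega))
  have n1 := H.pn3 (i := i) (by omega)
  have n2 := H.pn3 (i := j) (by omega)
  have d1 := H.ne (i := i) (j := j) (by omega) (by omega) (by omega)
  have d2 := H.ne (i := i) (j := k) (by omega) (by omega) (by omega)
  have d3 := H.ne (i := j) (j := k) (by omega) (by omega) (by omega)
  exact H.no_claw hij hjk hk o1 o2 hs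
    (PX.edge e1.symm) (PX.edge e2.symm) hZ (by grind) (by grind) (by grind) (by grind) (by grind)
    (by grind)

theorem BSet.odd_down (H : BSet G D1 D3 p h) {i j k : ℕ} {s t : V} (hki : k < i) (hij : i < j)
    (hj : j ≤ h + 1) (o1 : (j - i) % 2 = 1) (o2 : (i - k) % 2 = 1) (hs : s ∈ D3)
    (e1 : G.Adj (p i) s) (e2 : G.Adj (p j) s) (ht : t ∈ D3) (et : G.Adj (p k) t) : False := by
  obtain ⟨Z, hZ, hZs⟩ := H.leg hs ht et (H.pn3 (by omega))
  have n1 := H.pn3 (i := i) (by omega)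
  have n2 := H.pn3 (i := j) (by omega)
  have d1 := H.ne (i := i) (j := j) (by omega) (by omega) (by omega)
  have d2 := H.ne (i := i) (j := k) (by omega) (by omega) (by omega)
  have d3 := H.ne (i := j) (j := k) (by omega) (by omega) (by omega)
  exact H.no_claw (i := k) (j := i) (k := j) hki hij hj o2 o1 hs
    hZ (PX.edge e1.symm) (PX.edge e2.symm) (by grind) (by grind) (by grind) (by grind) (by grind)
    (by grind)

theorem BSet.c4 (H : BSet G D1 D3 p h) (i j : ℕ) (s : V) (h1 : 1 ≤ i) (hij : i < j) (hj : j ≤ h)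
    (hs : s ∈ D3) (e1 : G.Adj (p i) s) (e2 : G.Adj (p j) s) :
    i = 1 ∧ j = h ∧ ¬ Al G D3 (p 0) ∧ ¬ Al G D3 (p (h + 1)) := by
  have ho : (j - i) % 2 = 1 := by
    by_contra hc
    exact H.even_common hij (by omega) (by omega) hs e1 e2
  have hjh : j = h := by
    by_contra hc
    obtain ⟨t, ht, et, _⟩ := H.other (i := j + 1) (by omega) (by omega) s
    exact H.odd_up hij (Nat.lt_succ_self j) (by omega) ho (by omega) hs e1 e2 ht et
  have hi1 : i = 1 := by
    by_contra hc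
    obtain ⟨t, ht, et, _⟩ := H.other (i := i - 1) (by omega) (by omega) s
    exact H.odd_down (k := i - 1) (by omega) hij (by omega) ho (by omega) hs e1 e2 ht et
  refine ⟨hi1, hjh, ?_, ?_⟩
  · rintro ⟨t, ht, et⟩
    exact H.odd_down (k := 0) (by omega) hij (by omega) ho (by omega) hs e1 e2 ht et
  · rintro ⟨t, ht, et⟩
    exact H.odd_up (k := h + 1) hij (by omega) (le_refl _) ho (by omega) hs e1 e2 ht et

/-- `h` is even if `p 1` and `p h` have a common neighbour -/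
theorem BSet.h_even (H : BSet G D1 D3 p h) {s : V} (hs : s ∈ D3) (e1 : G.Adj (p 1) s)
    (e2 : G.Adj (p h) s) : h % 2 = 0 := by
  by_contra hc
  have := H.h2
  exact H.even_common (i := 1) (j := h) (by omega) (by omega) (by omega) hs e1 e2

theorem BSet.c5 (H : BSet G D1 D3 p h) (s s' : V) (hs : s ∈ D3) (hs' : s' ∈ D3)
    (e1 : G.Adj (p 1) s) (e2 : G.Adj (p h) s) (e3 : G.Adj (p 1) s') (e4 : G.Adj (p h) s') :
    s = s' := by
  by_contra hne
  have h2 := H.h2
  have he := H.h_even hs e1 e2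
  obtain ⟨T, hT, hTs⟩ := (H.hub3.par hs hs' hne true).ex
  have a1 := H.px (i := 1) (j := h) (by omega) (by omega)
  rw [bpar_odd (by omega)] at a1
  have d1 := H.seg3 (i := 1) (j := h) (by omega)
  have b1 := a1.left_mem
  have b2 := a1.right_mem
  have b3 := hT.left_mem
  have b4 := hT.right_mem
  have ne := a1.ne
  refine H.hT (toks_mk2 (a := p 1) (b := p h) (c := s) (d := s') a1 (PX.edge e1) (PX.edge e3)
    (PX.edge e2) (PX.edge e4) hT
    ?_ ?_ ?_ ?_ ?_ ?_ ?_ ?_ ?_ ?_ ?_ ?_ ?_ ?_ ?_) <;> grind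

/-- ring `p i`, `p (i+1)`, `s` against a tripod of `D1` -/
theorem BSet.rc (H : BSet G D1 D3 p h) {i : ℕ} (h1 : 1 ≤ i) (h2 : i + 1 ≤ h) {s x : V}
    (hs : s ∈ D3) (hx : x ∈ D1) (ex : G.Adj x s) {X Y : Finset V}
    (ht : Tp G D1 (p 0) (p (h + 1)) x (!bpar i) (!bpar (h - i)) false)
    (hX : PX G X s (p i) true) (hY : PX G Y s (p (i + 1)) true)
    (sX : ∀ v, v ∈ X → v ∈ D3 ∨ v = p i) (sY : ∀ v, v ∈ Y → v ∈ D3 ∨ v = p (i + 1))
    (m : ∀ v, v ∈ X → v ∈ Y → v = s) : False := by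
  obtain ⟨c, A, B, C, hA, hB, hC, sA, sB, sC, m1, m2, m3⟩ := ht
  have a1 := H.px (i := 0) (j := i) (by omega) (by omega)
  have a2 := H.px (i := i + 1) (j := h + 1) (by omega) (le_refl _)
  have w1 : ∀ v, v ∈ bseg p 0 i → v ∈ D1 → v = p 0 := by
    intro v hv hv'
    rcases H.seg1 (by omega : i ≤ h + 1) v hv hv' with ⟨_, e⟩ | ⟨e, _⟩
    · exact e
    · omega
  have w2 : ∀ v, v ∈ bseg p (i + 1) (h + 1) → v ∈ D1 → v = p (h + 1) := by
    intro v hv hv'
    rcases H.seg1 (le_refl (h + 1)) v hv hv' with ⟨e, _⟩ | ⟨_, e⟩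
    · omega
    · exact e
  have w3 := H.seg3 (i := 0) (j := i) (by omega)
  have w4 := H.seg3 (i := i + 1) (j := h + 1) (by omega)
  have w5 := H.seg_disj (i := 0) (j := i) (k := i + 1) (l := h + 1) (by omega) (le_refl _)
  have q1 := hA.concat a1 (fun v hv hv' => w1 v hv' (sA hv))
  have q2 := hB.concat a2.symm (fun v hv hv' => w2 v hv' (sB hv))
  have q3 := hC.concat (PX.edge ex) (by
    intro v hv hv'
    have := sC hv
    have := H.d13 s
    grind)
  have e1 : ((!bpar i) ^^ bpar (i - 0)) = true := by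
    rw [Nat.sub_zero]
    cases bpar i <;> rfl
  have e2 : ((!bpar (h - i)) ^^ bpar (h + 1 - (i + 1))) = true := by
    rw [Nat.add_sub_add_right]
    cases bpar (h - i) <;> rfl
  rw [e1] at q1
  rw [e2] at q2
  have d13 := H.d13
  have c1 := hA.left_mem
  have c2 := hB.left_mem
  have c3 := hC.left_mem
  have c4 := hA.right_mem
  have c5 := hB.right_mem
  have c6 := hC.right_mem
  have c7 := a1.left_mem
  have c8 := a1.right_mem
  have c9 := a2.left_mem
  have c10 := a2.right_mem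
  have c11 := hX.left_mem
  have c12 := hX.right_mem
  have c13 := hY.left_mem
  have c14 := hY.right_mem
  have cD := sA c1
  have sA' : ∀ v, v ∈ A → v ∈ D1 := fun v hv => sA hv
  have sB' : ∀ v, v ∈ B → v ∈ D1 := fun v hv => sB hv
  have sC' : ∀ v, v ∈ C → v ∈ D1 := fun v hv => sC hv
  have n1 : p i ∉ D1 := H.mid1 i h1 (by omega)
  have n2 : p (i + 1) ∉ D1 := H.mid1 (i + 1) (by omega) h2
  have n3 := H.ne (i := i) (j := i + 1) (by omega) (by omega) (by omega)
  have k1 : ∀ v, v ∈ A → v ∈ bseg p (i + 1) (h + 1) → v = c := by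
    intro v hv hv'
    have := w2 v hv' (sA hv)
    subst this
    exact m1 _ hv c5
  have k2 : ∀ v, v ∈ B → v ∈ bseg p 0 i → v = c := by
    intro v hv hv'
    have := w1 v hv' (sB hv)
    subst this
    exact m1 _ c4 hv
  have k3 : ∀ v, v ∈ C → v ∈ bseg p 0 i → v = c := by
    intro v hv hv'
    have := w1 v hv' (sC hv)
    subst this
    exact m2 _ c4 hv
  have k4 : ∀ v, v ∈ C → v ∈ bseg p (i + 1) (h + 1) → v = c := by
    intro v hv hv'
    have := w2 v hv' (sC hv)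
    subst this
    exact m3 _ c5 hv
  have pe : PX G {p i, p (i + 1)} (p i) (p (i + 1)) true := PX.edge (H.adj i (by omega))
  refine H.hT (toks_mk2 (a := c) (b := p i) (c := p (i + 1)) (d := s) q1 q2 q3 pe hX.symm hY.symm
    ?_ ?_ ?_ ?_ ?_ ?_ ?_ ?_ ?_ ?_ ?_ ?_ ?_ ?_ ?_) <;> grind

end Pool.Agent.TOKSN
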