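import Pool.Agent.TOKSN.TwoBa

/-!
# LINE N, case (2B): the facts c2 and c3
-/

set_option autoImplicit false
set_option linter.unusedSectionVars false
set_option linter.unusedVariables false

namespace Pool.Agent.TOKSN

open Pool.Agent.TOKST (HasTOKS)

variable {V : Type} [DecidableEq V] {G : SimpleGraph V} {D D1 D3 : Finset V} {p : ℕ → V} {h : ℕ}

/-- a ring gives a tripod centred at the foot of `x` -/
theorem Rg.tp1 {x y z : V} (h : Rg G D x y z) : Tp G D x y z false true true := by
  obtain ⟨f, g, h, A, B, C, L, M, N, hA, hB, hC, hL, hM, hN, sA, sB, sC, sL, sM, sN,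
      m1, m2, m3, m4, m5, m6, m7, m8, m9, m10, m11, m12, m13, m14, m15⟩ := h
  have p1 := hA.concat hM (by grind)
  have p2 := hC.concat hN (by grind)
  exact ⟨f, L, _, _, hL, p1, p2, sL, Finset.union_subset sA sM, Finset.union_subset sC sN,
    by grind, by grind, by grind⟩

theorem Rg.tp3 {x y z : V} (h : Rg G D x y z) : Tp G D x y z true true false :=
  (h.swap23.swap12.tp1).swap12.swap23

/-- the vertex `p 1` has no neighbour in `D3` adjacent to `p 0` -/
theorem BSet.not_p0 (H : BSet G D1 D3 p h) {s : V} (hs : s ∈ D3) (e1 : G.Adj (p 1) s)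
    (e0 : G.Adj (p 0) s) : False := by
  have := H.h2
  obtain ⟨t, ht, et, _⟩ := H.other (i := 2) (by omega) (by omega) s
  exact H.odd_up (i := 0) (j := 1) (k := 2) (by omega) (by omega) (by omega) (by omega) (by omega)
    hs e0 e1 ht et

/-- (c2) `p 0` alive and a beta at `p 1` -/
theorem BSet.c2 (H : BSet G D1 D3 p h) (s : V) (hs : s ∈ D3) (e1 : G.Adj (p 1) s)
    (hal : Al G D1 s) : ¬ Al G D3 (p 0) := by
  rintro ⟨y, hy, ey⟩
  obtain ⟨x, hx, ex⟩ := hal
  have h2 := H.h2
  obtain ⟨s2, hs2, es2, hss⟩ := H.other (i := 2) (by omega) (by omega) s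
  -- distinctness
  have hys : y ≠ s := by
    rintro rfl
    exact H.not_p0 hs e1 ey
  have hys2 : y ≠ s2 := by
    rintro rfl
    exact H.even_common (i := 0) (j := 2) (by omega) (by omega) (by omega) hy ey es2
  have hx0 : x ≠ p 0 := by
    rintro rfl
    exact H.not_p0 hs e1 ex.symm
  have d13 := H.d13
  have n0 := H.pn3 (i := 0) (by omega)
  have n1 := H.pn3 (i := 1) (by omega)
  have n2 := H.pn3 (i := 2) (by omega)
  have m1 := H.mid1 1 (by omega) (by omega)
  have m2 := H.mid1 2 (by omega) (by omega)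
  have d01 := H.ne (i := 0) (j := 1) (by omega) (by omega) (by omega)
  have d02 := H.ne (i := 0) (j := 2) (by omega) (by omega) (by omega)
  have d12 := H.ne (i := 1) (j := 2) (by omega) (by omega) (by omega)
  have a01 : G.Adj (p 0) (p 1) := H.adj 0 (by omega)
  have a12 : G.Adj (p 1) (p 2) := H.adj 1 (by omega)
  have ha := H.a
  -- the links
  have l1 : Lk G D3 y s := by
    have q := ((PX.edge ey.symm).concat (PX.edge a01) (by grind)).concat (PX.edge e1) (by grind)
    exact ⟨_, q, by grind⟩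
  have l2 : Lk G D3 s s2 := by
    have q := ((PX.edge e1.symm).concat (PX.edge a12) (by grind)).concat (PX.edge es2) (by grind)
    exact ⟨_, q, by grind⟩
  have l3 : Lk G D3 y s2 := by
    obtain ⟨T, hT, hTs⟩ := H.around (i := 0) (k := 2) (by omega) (by omega) true
    have s1 := H.seg3 (i := 2) (j := h + 1) (le_refl _)
    have s0 := H.seg3 (i := 0) (j := 0) (by omega)
    have b1 := hT.left_mem
    have b2 := hT.right_mem
    have hT3 : ∀ v, v ∈ T → v ∈ D3 → False := by
      intro v hv h3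
      rcases hTs v hv with h1 | h1 | h1
      · exact s1 v h1 h3
      · exact d13 v h1 h3
      · exact s0 v h1 h3
    have q := ((PX.edge ey.symm).concat hT.symm (by grind)).concat (PX.edge es2) (by grind)
    exact ⟨_, q, by grind⟩
  rcases ht H.hT H.hub3 hy hs hs2 hys hss.symm hys2 l1 l3 l2 with hI | hII
  · -- even tripod: claw at `p 0, p 1, p 2`
    obtain ⟨c, A, B, C, hA, hB, hC, sA, sB, sC, k1, k2, k3⟩ := hI.1
    have sA' : ∀ v, v ∈ A → v ∈ D3 := fun v hv => sA hv
    have sB' : ∀ v, v ∈ B → v ∈ D3 := fun v hv => sB hv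
    have sC' : ∀ v, v ∈ C → v ∈ D3 := fun v hv => sC hv
    have b1 := hA.left_mem
    have b2 := hA.right_mem
    have b3 := hB.left_mem
    have b4 := hB.right_mem
    have b5 := hC.left_mem
    have b6 := hC.right_mem
    have q1 := hA.concat (PX.edge ey.symm) (by grind)
    have q2 := hB.concat (PX.edge e1.symm) (by grind)
    have q3 := hC.concat (PX.edge es2.symm) (by grind)
    exact H.no_claw (i := 0) (j := 1) (k := 2) (by omega) (by omega) (by omega) (by omega) (by omega)
      (sA b1) q1 q2 q3 (by grind) (by grind) (by grind) (by grind) (by grind) (by grind)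
  · -- the tripod (0,1,1)
    obtain ⟨c, A, B, C, hA, hB, hC, sA, sB, sC, k1, k2, k3⟩ := hII.tp1
    have sA' : ∀ v, v ∈ A → v ∈ D3 := fun v hv => sA hv
    have sB' : ∀ v, v ∈ B → v ∈ D3 := fun v hv => sB hv
    have sC' : ∀ v, v ∈ C → v ∈ D3 := fun v hv => sC hv
    have b1 := hA.left_mem
    have b2 := hA.right_mem
    have b3 := hB.left_mem
    have b4 := hB.right_mem
    have b5 := hC.left_mem
    have b6 := hC.right_mem
    have cs : c ≠ s := hB.ne
    obtain ⟨T, hT, hTs⟩ := (H.hub1.par ha hx hx0.symm false).ex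
    have b7 := hT.left_mem
    have b8 := hT.right_mem
    have q1 := hA.concat (PX.edge ey.symm) (by grind)
    have q3 := (hC.concat (PX.edge es2.symm) (by grind)).concat (PX.edge a12.symm) (by grind)
    have q4 := hT.concat (PX.edge ex.symm) (by grind)
    refine H.hT (toks_mk2 (a := c) (b := p 0) (c := p 1) (d := s) q1 q3 hB (PX.edge a01) q4
      (PX.edge e1) ?_ ?_ ?_ ?_ ?_ ?_ ?_ ?_ ?_ ?_ ?_ ?_ ?_ ?_ ?_) <;> grind

/-- (c3) two betas at `p 1` -/
theorem BSet.c3 (H : BSet G D1 D3 p h) (s s' : V) (hs : s ∈ D3) (hs' : s' ∈ D3)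
    (e1 : G.Adj (p 1) s) (e1' : G.Adj (p 1) s') (hal : Al G D1 s) (hal' : Al G D1 s') : s = s' := by
  by_contra hne
  obtain ⟨x, hx, ex⟩ := hal
  obtain ⟨x', hx', ex'⟩ := hal'
  have h2 := H.h2
  have hx0 : x ≠ p 0 := by
    rintro rfl
    exact H.not_p0 hs e1 ex.symm
  have hx0' : x' ≠ p 0 := by
    rintro rfl
    exact H.not_p0 hs' e1' ex'.symm
  have d13 := H.d13
  have n0 := H.pn3 (i := 0) (by omega)
  have n1 := H.pn3 (i := 1) (by omega)
  have n2 := H.pn3 (i := 2) (by omega)
  have m1 := H.mid1 1 (by omega) (by omega)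
  have m2 := H.mid1 2 (by omega) (by omega)
  have d01 := H.ne (i := 0) (j := 1) (by omega) (by omega) (by omega)
  have d02 := H.ne (i := 0) (j := 2) (by omega) (by omega) (by omega)
  have d12 := H.ne (i := 1) (j := 2) (by omega) (by omega) (by omega)
  have a01 : G.Adj (p 0) (p 1) := H.adj 0 (by omega)
  have a12 : G.Adj (p 1) (p 2) := H.adj 1 (by omega)
  have ha := H.a
  obtain ⟨Q, hQ, hQs⟩ := (H.hub3.par hs hs' hne true).ex
  have c1 := hQ.left_mem
  have c2 := hQ.right_mem
  have hxx : x ≠ x' := by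
    rintro rfl
    obtain ⟨T, hT, hTs⟩ := (H.hub1.par ha hx hx0.symm false).ex
    have b7 := hT.left_mem
    have b8 := hT.right_mem
    have q1 := (PX.edge a01.symm).concat hT (by grind)
    refine H.hT (toks_mk2 (a := p 1) (b := x) (c := s) (d := s') q1 (PX.edge e1) (PX.edge e1')
      (PX.edge ex.symm) (PX.edge ex'.symm) hQ
      ?_ ?_ ?_ ?_ ?_ ?_ ?_ ?_ ?_ ?_ ?_ ?_ ?_ ?_ ?_) <;> grind
  -- the type of (x, x', p 0) in D1
  have hR : Rg G D1 x x' (p 0) := by
    have l1 : Lk G D1 x x' := by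
      have q := ((PX.edge ex.symm).concat hQ (by grind)).concat (PX.edge ex') (by grind)
      exact ⟨_, q, by grind⟩
    have l2 : Lk G D1 x (p 0) := by
      have q := ((PX.edge ex.symm).concat (PX.edge e1.symm) (by grind)).concat (PX.edge a01.symm)
        (by grind)
      exact ⟨_, q, by grind⟩
    have l3 : Lk G D1 x' (p 0) := by
      have q := ((PX.edge ex'.symm).concat (PX.edge e1'.symm) (by grind)).concat (PX.edge a01.symm)
        (by grind)
      exact ⟨_, q, by grind⟩
    rcases ht H.hT H.hub1 hx hx' ha hxx hx0' hx0 l1 l2 l3 with hI | hII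
    · exfalso
      obtain ⟨c, A, B, C, hA, hB, hC, sA, sB, sC, k1, k2, k3⟩ := hI.1
      have sA' : ∀ v, v ∈ A → v ∈ D1 := fun v hv => sA hv
      have sB' : ∀ v, v ∈ B → v ∈ D1 := fun v hv => sB hv
      have sC' : ∀ v, v ∈ C → v ∈ D1 := fun v hv => sC hv
      have b1 := hA.left_mem
      have b2 := hA.right_mem
      have b3 := hB.left_mem
      have b4 := hB.right_mem
      have b5 := hC.left_mem
      have b6 := hC.right_mem
      have q1 := hA.concat (PX.edge ex.symm) (by grind)
      have q2 := hB.concat (PX.edge ex'.symm) (by grind)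
      have q3 := hC.concat (PX.edge a01) (by grind)
      refine H.hT (toks_mk2 (a := c) (b := s) (c := s') (d := p 1) q1 q2 q3 hQ (PX.edge e1.symm)
        (PX.edge e1'.symm) ?_ ?_ ?_ ?_ ?_ ?_ ?_ ?_ ?_ ?_ ?_ ?_ ?_ ?_ ?_) <;> grind
    · exact hII
  -- `s2 ∈ S_2 - S_1`
  obtain ⟨s2, hs2, es2, h21⟩ : ∃ s2, s2 ∈ D3 ∧ G.Adj (p 2) s2 ∧ ¬ G.Adj (p 1) s2 := by
    obtain ⟨u, v, huv, hu, hv, eu, ev⟩ := H.two 2 (by omega) (by omega)
    by_cases hu1 : G.Adj (p 1) u
    · by_cases hv1 : G.Adj (p 1) v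
      · exfalso
        obtain ⟨_, hh, _⟩ := H.c4 1 2 u le_rfl (by omega) h2 hu hu1 eu
        subst hh
        exact huv (H.c5 u v hu hv hu1 eu hv1 ev)
      · exact ⟨v, hv, ev, hv1⟩
    · exact ⟨u, hu, eu, hu1⟩
  have hs2s : s ≠ s2 := by
    rintro rfl
    exact h21 e1
  have hs2s' : s' ≠ s2 := by
    rintro rfl
    exact h21 e1'
  obtain ⟨T, hT, hTs⟩ := (H.hub1.par hx hx' hxx true).ex
  have t1 := hT.left_mem
  have t2 := hT.right_mem
  have l1 : Lk G D3 s s' := by
    have q := ((PX.edge ex).concat hT (by grind)).concat (PX.edge ex'.symm) (by grind)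
    exact ⟨_, q, by grind⟩
  have l2 : Lk G D3 s s2 := by
    have q := ((PX.edge e1.symm).concat (PX.edge a12) (by grind)).concat (PX.edge es2) (by grind)
    exact ⟨_, q, by grind⟩
  have l3 : Lk G D3 s' s2 := by
    have q := ((PX.edge e1'.symm).concat (PX.edge a12) (by grind)).concat (PX.edge es2) (by grind)
    exact ⟨_, q, by grind⟩
  rcases ht H.hT H.hub3 hs hs' hs2 hne hs2s' hs2s l1 l2 l3 with hI | hII
  · obtain ⟨c, A, B, C, hA, hB, hC, sA, sB, sC, k1, k2, k3⟩ := hI.1
    have sA' : ∀ v, v ∈ A → v ∈ D3 := fun v hv => sA hv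
    have sB' : ∀ v, v ∈ B → v ∈ D3 := fun v hv => sB hv
    have sC' : ∀ v, v ∈ C → v ∈ D3 := fun v hv => sC hv
    have b1 := hA.left_mem
    have b2 := hA.right_mem
    have b3 := hB.left_mem
    have b4 := hB.right_mem
    have b5 := hC.left_mem
    have b6 := hC.right_mem
    have q1 := hA.concat (PX.edge ex) (by grind)
    have q2 := hB.concat (PX.edge ex') (by grind)
    have q3 := ((hC.concat (PX.edge es2.symm) (by grind)).concat (PX.edge a12.symm) (by grind)).concat
      (PX.edge a01.symm) (by grind)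
    exact ring_centre H.hT hR q1 q2 q3 (by grind) (by grind) (by grind) (by grind) (by grind)
      (by grind) (by grind)
  · obtain ⟨W, hW, hWs⟩ := H.around (i := 1) (k := 2) (by omega) (by omega) false
    have w1 := hW.left_mem
    have w2 := hW.right_mem
    have s1 := H.seg3 (i := 2) (j := h + 1) (le_refl _)
    have s0 := H.seg3 (i := 0) (j := 1) (by omega)
    have hW3 : ∀ v, v ∈ W → v ∈ D3 → False := by
      intro v hv h3
      rcases hWs v hv with h1 | h1 | h1
      · exact s1 v h1 h3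
      · exact d13 v h1 h3
      · exact s0 v h1 h3
    have q := hW.symm.concat (PX.edge es2) (by grind)
    exact ring_centre H.hT hII (PX.edge e1) (PX.edge e1') q (by grind) (by grind) (by grind)
      (by grind) (by grind) (by grind) (by grind)

end Pool.Agent.TOKSN
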